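import Pool.Agent.P.MP_8b7eba_nt.R3.AYCM
import Pool.Agent.P.MP_8b7eba_nt.R2.TREP2
import Pool.Agent.P.MP_8b7eba_nt.R2.TREP3

/-! The ideal attached to a form, for arbitrary conductor. -/

namespace Pool.Agent.P.MP_8b7eba_nt.R2.G

open BSD15 (OO nm cj)
open _root_.Pool.Agent.P.MP_8b7eba_nt.Mod (M2 G0 mT)
open R1 (QF Hg emb)
open R2.CMA

namespace ACREP2

variable {l : ℕ} [Hl l]

/-- a basis of the lattice of an ideal -/
theorem ob {P : QF} (hD : P.disc = -l) {j : ℤ} (hj : P.B = 2 * j - 1) (m : ℕ) (v : ℤ)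
    (him : 0 < ((P.A : ℂ) / emb l ⟨m * j + v * P.A, -m⟩).im) :
    Ob (Lc m (P.idl l)) P.A (emb l ⟨m * j + v * P.A, -m⟩) := by
  refine ⟨him, fun z => mem_Lc.trans ⟨?_, ?_⟩⟩
  · rintro ⟨x, hx, ⟨s, hs⟩, rfl⟩
    obtain ⟨a, b, rfl⟩ := (R1.mem_idl hD).1 hx
    rw [R1.FormA_bet hj] at hs ⊢
    obtain rfl : b = m * s := by simpa using hs
    refine ⟨a + v * s, -s, ?_⟩
    simp [emb]
    ring
  · rintro ⟨s, t, rfl⟩
    refine ⟨_, (R1.mem_idl hD).2 ⟨s + v * t, -(m * t), rfl⟩, ?_, ?_⟩ <;> rw [R1.FormA_bet hj]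
    · simp
    · simp [emb]
      ring

/-- forms whose last coefficient is prime to the level and the conductor -/
theorem step {c : ℕ} (hc : c ≠ 0) {Q : QF} (hQ : Hg (l * c ^ 2) (rH l c) Q)
    (h : IsCoprime Q.C (15 * c)) :
    ∃ I : Ideal (OO l), Ad c I ∧ ∃ g, G0 g ∧ g.act (hz c I) = Q.tau := by
  obtain ⟨A, B, C⟩ := Q
  obtain ⟨⟨hD, -, hB⟩, h0⟩ := hQ
  dsimp only at hB h0 h
  have h4 := BSD15.qring_four (n := l)
  obtain ⟨u, k, hk⟩ := h.of_mul_right_right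
  obtain ⟨a, b, hab⟩ := h.of_mul_right_left
  have hD' : B ^ 2 - 4 * A * C = -(l * c ^ 2) := by simpa [QF.disc] using hD
  obtain ⟨x, hx, hn⟩ : ∃ x : ℤ, B = c - 2 * x ∧ (⟨x, -c⟩ : OO l) ∈ nI l 15 := by
    rw [rH] at hB
    rw [nI]
    generalize (Classical.epsilon _ : ℤ) = r at hB ⊢
    obtain ⟨w, hw⟩ := hB
    refine ⟨c * r - 15 * w, by linear_combination hw,
      Ideal.mem_span_pair.2 ⟨-w, -c, QuadraticAlgebra.ext ?_ ?_⟩⟩ <;> simp [-Nat.cast_ofNat]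
    ring
  obtain ⟨L, hL⟩ : ∃ L : ℤ, 4 * L = l + 1 := ⟨_, h4⟩
  have hP : QF.disc ⟨C, 2 * (k * x) - 1, k ^ 2 * A - k * x * u + L * u * (2 - u * C)⟩ = -l := by
    simp only [QF.disc]
    rw [hx] at hD'
    linear_combination k ^ 2 * hD' - (1 - (k * c) ^ 2) * hL +
      (4 * k * x - 4 * L * (k * c + 1 - u * C)) * hk
  have hI : Ad c (QF.idl l ⟨C, 2 * (k * x) - 1, k ^ 2 * A - k * x * u + L * u * (2 - u * C)⟩) :=
    ⟨R1.idl_ne_bot _, by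
      rw [R1.nm_idl hP]
      simpa using Int.isCoprime_iff_nat_coprime.1 h.of_mul_right_right⟩
  have ex : c * (k * x) + u * x * C = x := by linear_combination x * hk
  have hA1 : (A : ℝ) ≠ 0 := Int.cast_ne_zero.2 h0.ne'
  have hC : (C : ℂ) ≠ 0 := by
    rw [Int.cast_ne_zero]
    rintro rfl
    omega
  have hτ : QF.tau ⟨A, B, C⟩ * emb l ⟨x, -c⟩ = C := by
    have e1 : (B : ℝ) = c - 2 * x := by exact_mod_cast hx
    have e3 : (B : ℝ) ^ 2 - 4 * A * C = -(l * c ^ 2) := by exact_mod_cast hD'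
    have e2 : √(-((QF.disc ⟨A, B, C⟩ : ℤ) : ℝ)) = √l * c := by
      rw [hD]
      push_cast
      rw [neg_neg, Real.sqrt_mul (Nat.cast_nonneg l), Real.sqrt_sq (Nat.cast_nonneg c)]
    have e4 : √l ^ 2 = (l : ℝ) := Real.sq_sqrt (Nat.cast_nonneg l)
    refine Complex.ext ?_ ?_ <;> simp only [QF.tau, e2] <;> simp [emb] <;> field_simp
    · linear_combination e3 - B * e1 + c ^ 2 * e4
    · linear_combination c * √l * e1
  have hτ' : QF.tau ⟨A, B, C⟩ = C / emb l ⟨x, -c⟩ :=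
    eq_div_of_mul_eq (right_ne_zero_of_mul (hτ ▸ hC)) hτ
  have him : 0 < (QF.tau ⟨A, B, C⟩).im := QF.tau_im_pos h0 (by
    have : 0 < l * c ^ 2 := Nat.mul_pos Hl.lp.pos (pow_pos (Nat.pos_of_ne_zero hc) 2)
    rw [hD]
    omega)
  have h3 := ob hP rfl c (u * x) (by rw [ex, ← hτ']; exact him)
  rw [ex] at h3
  have m1 := R1.FormA_A_mem (n := l)
    ⟨C, 2 * (k * x) - 1, k ^ 2 * A - k * x * u + L * u * (2 - u * C)⟩
  have m2 : (⟨x, -c⟩ : OO l) ∈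
      QF.idl l ⟨C, 2 * (k * x) - 1, k ^ 2 * A - k * x * u + L * u * (2 - u * C)⟩ := by
    refine (R1.mem_idl hP).2 ⟨u * x, -c, ?_⟩
    rw [R1.FormA_bet rfl]
    refine QuadraticAlgebra.ext ?_ ?_ <;> simp [-Int.cast_mul]
    linear_combination -ex
  have m3 : ((15 : ℕ) : OO l) ∈ nI l 15 := Ideal.subset_span (by simp)
  have m4 := add_mem (Ideal.mul_mem_left _ (a : OO l) (Ideal.mul_mem_mul m1 hn))
    (Ideal.mul_mem_left _ (b : OO l) (Ideal.mul_mem_mul m2 m3))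
  have e5 : (a : OO l) * C + b * 15 = 1 := by exact_mod_cast congrArg (Int.cast : ℤ → OO l) hab
  rw [show (a : OO l) * ((C : ℤ) * ⟨x, -c⟩) + b * (⟨x, -c⟩ * (15 : ℕ)) = ⟨x, -c⟩ by
    push_cast
    linear_combination (⟨x, -c⟩ : OO l) * e5] at m4
  have h5 := LtA.diag h3 (Lc_mono Ideal.mul_le_left dvd_rfl)
    (mem_Lc.2 ⟨_, m4, by simp, rfl⟩) (n := 15) (by norm_num) ((Lc_nI hI 15).trans nI_spec.2.2.1)
  obtain ⟨g, g1, g2⟩ := (at_hz ⟨hc, trivial⟩ hI).unique ⟨_, _, h3, by exact_mod_cast h5, hτ'⟩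
  exact ⟨_, hI, g, g1, g2.symm⟩

theorem c2_even {e x : ℤ} (he : e ≠ 1) (hx : 2 ∣ x) : R3.c2 e x = 0 := by
  have h : x % 2 = 0 := by omega
  rw [R3.c2, if_neg he, ZMod.χ₄_int_eq_if_mod_four, ZMod.χ₈_int_eq_if_mod_eight,
    ZMod.χ₈'_int_eq_if_mod_eight]
  simp [h]

theorem e2_ne (hKC : KC) {d : ℤ} (hd : Squarefree d) (h : 2 ∣ R3.cd d) : R3.e2 d ≠ 1 := by
  intro he
  obtain ⟨-, h1, -, -, -, h2, -, -, -, -, h3⟩ := hKC d hd
  have h4 := h3 h _ (by rw [sub_self]; exact dvd_zero _)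
  have h5 : R3.od d ∣ R3.cd d / 2 := by
    obtain ⟨t, ht⟩ := h1
    rcases h2 with h2 | h2 | h2
    · omega
    · exact ⟨2, by omega⟩
    · exact ⟨4, by omega⟩
  obtain ⟨t, ht⟩ := h5
  rw [R3.kc, R3.c2, if_pos he, mul_one, ht, jacobiSym.mod_left, Nat.cast_mul,
    Int.add_mul_emod_self_left, ← jacobiSym.mod_left, jacobiSym.one_left] at h4
  omega

theorem prim (hKC : KC) {d : ℤ} (hd : Squarefree d) {Q : QF} (hw : R3.gch d Q ≠ 0) (p : ℕ)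
    (hp : p.Prime) (h2 : p ∣ R3.cd d) (h3 : (p : ℤ) ∣ Q.A) : ¬ (p : ℤ) ∣ Q.C := by
  intro h4
  haveI : NeZero p := ⟨hp.ne_zero⟩
  refine hw ?_
  rw [R3.gch]
  by_cases e : p = 2
  · subst e
    rw [R3.ch2, if_pos (show 2 ∣ Q.A from h3), c2_even (e2_ne hKC hd h2) h4, zero_mul]
  · obtain ⟨-, h5, h6, -⟩ := hKC d hd
    have h7 : p ∣ R3.od d := ((Nat.Prime.dvd_mul hp).1 (h2.trans h6)).resolve_left fun h8 =>
      e ((Nat.prime_dvd_prime_iff_eq hp Nat.prime_two).1 (hp.dvd_of_dvd_pow (n := 3) h8))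
    refine mul_eq_zero_of_right _ (Finset.prod_eq_zero
      (Nat.mem_primeFactors.2 ⟨hp, h7, h5.pos.ne'⟩) ?_)
    rw [QF.chip, if_pos h3, jacobiSym.eq_zero_iff_not_coprime, Int.gcd_eq_natAbs_right h4]
    exact hp.ne_one

/-- a translation makes the last coefficient prime to the level and the conductor -/
theorem move {m : ℕ} (hm : m ≠ 0) {Q : QF} (hD : Q.disc = -((l * m ^ 2 : ℕ) : ℤ)) (hA : 15 ∣ Q.A)
    (h1 : ∀ p : ℕ, p.Prime → p ∣ m → (p : ℤ) ∣ Q.A → ¬ (p : ℤ) ∣ Q.C) :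
    ∃ b : ℤ, IsCoprime (Q.cmp (mT b)).C (15 * m) := by
  classical
  set T := (15 * m).primeFactors.filter fun q : ℕ => ¬ (q : ℤ) ∣ Q.C with hT
  set b : ℤ := ∏ q ∈ T, (q : ℤ) with hb
  refine ⟨b, Int.isCoprime_iff_gcd_eq_one.2 (Nat.coprime_of_dvd fun p hp h2 h3 => ?_)⟩
  have h4 : (p : ℤ) ∣ b * (Q.A * b + Q.B) + Q.C := by
    have : (p : ℤ) ∣ Q.A * b ^ 2 + Q.B * b * 1 + Q.C * 1 ^ 2 := Int.natCast_dvd.2 h2
    rwa [show Q.A * b ^ 2 + Q.B * b * 1 + Q.C * 1 ^ 2 = b * (Q.A * b + Q.B) + Q.C by ring] at this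
  have hp' := Nat.prime_iff_prime_int.1 hp
  have h3' : p ∣ 15 * m := by simpa [Int.natAbs_mul] using h3
  have e : Q.B ^ 2 = Q.C * (4 * Q.A) - l * m ^ 2 := by
    rw [QF.disc] at hD
    push_cast at hD
    linear_combination hD
  by_cases hC : (p : ℤ) ∣ Q.C
  · have h5 : ¬ (p : ℤ) ∣ b := fun h => by
      obtain ⟨q, hq, h8⟩ := (Prime.dvd_finsetProd_iff hp' _).1 h
      obtain ⟨h9, h10⟩ := Finset.mem_filter.1 hq
      rw [← (Nat.prime_dvd_prime_iff_eq hp (Nat.prime_of_mem_primeFactors h9)).1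
        (Int.natCast_dvd_natCast.1 h8)] at h10
      exact h10 hC
    have h6 := (hp'.dvd_or_dvd ((dvd_add_left hC).1 h4)).resolve_left h5
    by_cases h7 : p ∣ m
    · have hB : (p : ℤ) ∣ Q.B := by
        refine hp'.dvd_of_dvd_pow (n := 2) ?_
        rw [e]
        exact dvd_sub (hC.mul_right _)
          ((dvd_pow (Int.natCast_dvd_natCast.2 h7) two_ne_zero).mul_left _)
      exact h1 p hp h7 ((hp'.dvd_or_dvd ((dvd_add_left hB).1 h6)).resolve_right h5) hC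
    · have h8 : p ∣ 15 := ((Nat.Prime.dvd_mul hp).1 h3').resolve_right h7
      have h9 : (p : ℤ) ∣ Q.A := (Int.natCast_dvd_natCast.2 h8).trans hA
      have h10 := dvd_pow ((dvd_add_right (h9.mul_right _)).1 h6) two_ne_zero
      rw [e, dvd_sub_right (hC.mul_right _)] at h10
      have h11 : p ∣ l * m ^ 2 := by exact_mod_cast h10
      have h12 := (Nat.prime_dvd_prime_iff_eq hp Hl.lp).1
        (((Nat.Prime.dvd_mul hp).1 h11).resolve_right fun h => h7 (hp.dvd_of_dvd_pow h))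
      have h13 := Hl.l8 (l := l)
      have h14 := Nat.le_of_dvd (by norm_num) h8
      obtain rfl | rfl : p = 7 ∨ p = 15 := by omega
      · norm_num at h8
      · norm_num at hp
  · have h5 : (p : ℤ) ∣ b := Finset.dvd_prod_of_mem (fun q : ℕ => (q : ℤ))
      (Finset.mem_filter.2 ⟨Nat.mem_primeFactors.2 ⟨hp, h3', by omega⟩, hC⟩)
    exact hC ((dvd_add_right (h5.mul_right _)).1 h4)

end ACREP2

theorem t_REP2 (hKC : KC) : REP2 := by
  intro l _ d hS Q hQ hw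
  have hm := (hKC d hS.sq).1
  have hD : Q.disc = -((l * R3.cd d ^ 2 : ℕ) : ℤ) := hQ.1.1
  rw [R3.hw, R3.wg, if_pos hQ.1] at hw
  have h1 := ACREP2.prim hKC hS.sq hw
  generalize R3.cd d = m at *
  have h2 : 7 ≤ ((l * m ^ 2 : ℕ) : ℤ) := by
    have h2 := hS.l16
    have h3 : 1 ≤ m ^ 2 := Nat.one_le_pow _ _ (Nat.pos_of_ne_zero hm)
    have h4 : 7 * 1 ≤ l * m ^ 2 := Nat.mul_le_mul (by omega) h3
    exact_mod_cast h4
  refine ⟨fun g hg h => TREP3.stab' h2 hD hQ.2.ne' ?_ hg h, ?_⟩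
  · refine Int.isCoprime_iff_gcd_eq_one.2 (Nat.coprime_of_dvd fun p hp h2 h3 => ?_)
    have h4 : (p : ℤ) ∣ Q.A := Int.natCast_dvd.2 h2
    have h5 : (p : ℤ) ∣ (Int.gcd Q.B Q.C : ℤ) := Int.natCast_dvd.2 h3
    have h6 := h5.trans (Int.gcd_dvd_left _ _)
    have h7 := h5.trans (Int.gcd_dvd_right _ _)
    refine h1 p hp ?_ h4 h7
    by_contra h8
    have h9 : ((p ^ 2 : ℕ) : ℤ) ∣ ((l * m ^ 2 : ℕ) : ℤ) := by
      rw [← dvd_neg, ← hD, QF.disc, Nat.cast_pow, mul_assoc]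
      exact dvd_sub (pow_dvd_pow_of_dvd h6 2) ((sq (p : ℤ) ▸ mul_dvd_mul h4 h7).mul_left _)
    have h10 : p ^ 2 ∣ l := (Nat.Coprime.pow 2 2 ((Nat.Prime.coprime_iff_not_dvd hp).2 h8)
      ).dvd_of_dvd_mul_right (Int.natCast_dvd_natCast.1 h9)
    exact hp.not_isUnit (hS.lp.prime.squarefree p (sq p ▸ h10))
  · obtain ⟨b, hb⟩ := ACREP2.move hm hD hQ.1.2.1 h1
    have hd : Q.disc < 0 := by omega
    have hg := Mod.G0_mT b
    have hQ' : Hg (l * m ^ 2) (rH l m) (Q.cmp (mT b)) := by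
      refine ⟨⟨by rw [QF.disc_cmp, hg.1, hD]; ring, by simpa [QF.cmp, QF.ev, mT] using hQ.1.2.1,
        ?_⟩, QF.cmp_A_pos hQ.2 hd hg.det_pos.ne'⟩
      obtain ⟨a, ha⟩ := hQ.1.2.1
      obtain ⟨w, hw⟩ := hQ.1.2.2
      refine ⟨w + a * b, ?_⟩
      simp only [QF.cmp, mT]
      linear_combination hw + 2 * b * ha
    obtain ⟨I, hI, g, g1, g2⟩ := ACREP2.step hm hQ' hb
    refine ⟨I, hI, mT b * g, hg.mul g1, ?_⟩
    rw [M2.act_mul hg.det_pos.ne' g1.det_pos (at_hz ⟨hm, trivial⟩ hI).im, g2,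
      QF.act_tau hQ.2 hd hg.det_pos]

end Pool.Agent.P.MP_8b7eba_nt.R2.G
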