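import Pool.Agent.P.MP_8b7eba_nt.R2.IfB
import Pool.Agent.P.MP_8b7eba_nt.R1.Defs

/-! Shared definitions for the project R3: all quadratic twists of `X_0(15)`. -/

namespace Pool.Agent.P.MP_8b7eba_nt.R3

open _root_.Pool.Agent.P.MP_8b7eba_nt.Mod (M2 G0 FI L0 om lv)
open R1 (QF Hg Lv st)
open R2 (Om GQ GS Pl Tate V2 EO PZ Cob rS S1 UF tac io W15)
open MP_9c97e9_nt (pm)
open scoped R1 R2

noncomputable section

/-! ### Quadratic characters -/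

/-- the odd part of a squarefree integer -/
def od (d : ℤ) : ℕ := if d % 2 = 0 then d.natAbs / 2 else d.natAbs

/-- the even part, one of `1, -1, 2, -2` -/
def e2 (d : ℤ) : ℤ := d / st (od d)

/-- the discriminant of the quadratic field -/
def ds (d : ℤ) : ℤ := if d % 4 = 1 then d else 4 * d

/-- the conductor -/
def cd (d : ℤ) : ℕ := (ds d).natAbs

/-- the characters of 2-power conductor -/
def c2 (e x : ℤ) : ℤ :=
  if e = 1 then 1 else if e = -1 then ZMod.χ₄ (x : ZMod 4) else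
    if e = 2 then ZMod.χ₈ (x : ZMod 8) else ZMod.χ₈' (x : ZMod 8)

/-- the Kronecker symbol `(ds d / x)` -/
def kc (d x : ℤ) : ℤ := jacobiSym x (od d) * c2 (e2 d) x

/-- the root number of the twist by `d` -/
def rn (d : ℤ) : ℤ :=
  d.sign * (if 3 ∣ d then 1 else jacobiSym d 3) * (if 5 ∣ d then -1 else jacobiSym d 5)

/-! ### Forms -/

/-- the genus character at two -/
def ch2 (e : ℤ) (Q : QF) : ℤ := if 2 ∣ Q.A then c2 e Q.C else c2 e Q.A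

/-- the genus character of the discriminant `ds d` -/
def gch (d : ℤ) (Q : QF) : ℤ := ch2 (e2 d) Q * ∏ p ∈ (od d).primeFactors, Q.chip p

/-- the weights given by genus characters -/
def wg (D ρ d : ℤ) (Q : QF) : ℤ := if Lv D ρ Q then gch d Q else 0

/-- representatives of the classes of Heegner forms -/
structure Rs (N : ℕ) (ρ : ℤ) (u : QF → ℤ) (S : Finset QF) : Prop where
  hg : ∀ P ∈ S, Hg N ρ P
  all : ∀ Q, Hg N ρ Q → u Q ≠ 0 → ∃ g, G0 g ∧ Q.cmp g ∈ S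
  inj : ∀ P ∈ S, ∀ g, G0 g → P.cmp g ∈ S → g = 1 ∨ g = -1

/-- the twisted Heegner point -/
def ZS (S : Finset QF) (u : QF → ℤ) : ℂ := ∑ P ∈ S, u P * FI P.tau

/-- the twisted central value -/
def Lam (d : ℤ) : ℂ := ∑ c ∈ Finset.range (cd d), (kc d c : ℂ) * lv c (cd d)

/-! ### Selmer groups -/

/-- the patched Selmer group of the twist by `m = δ²` -/
structure SelQ {w₂ : Pl} (T : Tate w₂) (δ : Om) (m : ℤ) (x : GS → V2) : Prop where
  pz : PZ (fun _ => ⊤) (T.rq δ) x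
  unr : ∀ (w : ℕ → Pl) (g : GS), (∀ᶠ k in UF, g k ∈ (w k).I ∧ ¬ ((w k).p : ℤ) ∣ 30 * m) → x g = 0
  bad : ∀ w : Pl, w.p ≠ 2 → (w.p : ℤ) ∣ 15 * m → Cob (S1 w.D) (T.rq δ) x
  ord : ∃ v, ∀ g ∈ S1 w₂.D, (x g - (rS (T.rq δ) g v - v)) 1 = 0

/-- the patched Selmer group has rank at most one -/
def Rk1 {w₂ : Pl} (T : Tate w₂) (δ : Om) (m : ℤ) : Prop :=
  ∀ x y, SelQ T δ m x → SelQ T δ m y → ∃ a b : ℚ_[2], (a ≠ 0 ∨ b ≠ 0) ∧ Cob ⊤ (T.rq δ) (a • x + b • y)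

/-- the primes of `30 d` split in `Q(√-l)` -/
structure Hy (l : ℕ) (d : ℤ) : Prop where
  lp : l.Prime
  l16 : l % 16 = 7
  sq : Squarefree d
  big : ∃ p : ℕ, p.Prime ∧ 5 < p ∧ (p : ℤ) ∣ d
  spl : ∀ p : ℕ, p.Prime → p ≠ 2 → (p : ℤ) ∣ 15 * d → jacobiSym (-l) p = 1

/-- there are auxiliary primes -/
def Aux {w : Pl} (T : Tate w) (d : ℤ) : Prop :=
  ∀ b B : ℕ, IsCoprime (b : ℤ) (30 * d) → ∃ l : ℕ, B < l ∧ Hy l d ∧
    (∀ q : ℕ, q.Prime → q ∣ b → jacobiSym (-l) q = -1) ∧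
    ∀ δ : Om, δ ^ 2 = ((-l * d : ℤ) : Om) → Rk1 T δ (-l * d)

/-- the twists which we can treat -/
def Nice {w : Pl} (T : Tate w) (d : ℤ) : Prop :=
  Squarefree d ∧ (∀ δ : Om, δ ^ 2 = d → Rk1 T δ d) ∧ Aux T d

/-- the weights of the Heegner point of conductor `cd d` -/
def hw (l : ℕ) (d ρ : ℤ) : QF → ℤ := wg (-(l * cd d ^ 2 : ℕ)) ρ d

end

end Pool.Agent.P.MP_8b7eba_nt.R3
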