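import Pool.Agent.P.MP_8b7eba_nt.SM.Main
import Pool.Agent.P.MP_8b7eba_nt.R3.Def0

/-! Block statements for the project R3: all quadratic twists of `X_0(15)`. -/

namespace Pool.Agent.P.MP_8b7eba_nt.R3

open _root_.Pool.Agent.P.MP_8b7eba_nt.Mod (M2 G0 FI L0 om lv)
open R1 (QF Hg Lv st Rq uu)
open R2 (Om GQ GS Pl Tate V2 EO PZ Cob rS S1 UF tac io W15)
open MP_9c97e9_nt (pm)
open scoped R1 R2

noncomputable section

/-- the Heegner point of conductor `cd d` has infinite order -/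
def Ir (l : ℕ) (d : ℤ) : Prop :=
  Hy l d ∧ ∃ (ρ : ℤ) (S : Finset QF), Rs (l * cd d ^ 2) ρ (hw l d ρ) S ∧
    ¬ IsOfFinAddOrder (uu (ZS S (hw l d ρ)))

end

/-! ### The four blocks -/

/-- block A: Heegner points, Kolyvagin system, Iwasawa theory -/
def HEEG : Prop :=
  ∀ (w : Pl) (T : Tate w) (l : ℕ) (d : ℤ) (dl sk : Om), w.p = 2 → Hy l d → dl ^ 2 = d →
    sk ^ 2 = -l → Rk1 T dl d → Rk1 T (dl * sk) (-l * d) →
    (∃ (Z : EO) (ρ : ℤ) (S : Finset QF), ¬ IsOfFinAddOrder Z ∧ (∀ g : GQ, g sk = sk → tac dl g Z = Z) ∧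
      Rs (l * cd d ^ 2) ρ (hw l d ρ) S ∧ pm W15 io Z = uu (ZS S (hw l d ρ))) ∧
    ∀ x y, SelQ T dl d x → SelQ T (dl * sk) (-l * d) y →
      Cob ⊤ (T.rq dl) x ∨ Cob ⊤ (T.rq (dl * sk)) y

/-- block B: the Selmer rank is at most one for almost all twists -/
def DENSB : Prop :=
  ∀ (T : Tate (SM.pl 2)) (ε : ℝ), 0 < ε → ∃ X₀ : ℕ, ∀ X : ℕ, X₀ ≤ X →
    ({d : ℤ | |d| ≤ X ∧ Squarefree d ∧ ¬ ∀ δ : Om, δ ^ 2 = d → Rk1 T δ d}.ncard : ℝ) ≤ ε * X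

/-- block C: auxiliary primes exist for almost all twists -/
def DENSC : Prop :=
  ∀ (T : Tate (SM.pl 2)) (ε : ℝ), 0 < ε → ∃ X₀ : ℕ, ∀ X : ℕ, X₀ ≤ X →
    ({d : ℤ | |d| ≤ X ∧ Squarefree d ∧ ¬ Aux T d}.ncard : ℝ) ≤ ε * X

/-- block B: squarefree numbers in residue classes -/
def SQD : Prop :=
  ∀ q a : ℕ, q ≠ 0 → a.Coprime q → ∃ c : ℝ, 0 < c ∧ ∃ X₀ : ℕ, ∀ X, X₀ ≤ X →
    c * X ≤ ((Finset.Icc 1 X).filter fun n => Squarefree n ∧ n % q = a % q).card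

/-- block B: points of infinite order give nonzero classes -/
def KUM : Prop :=
  ∀ (w : Pl) (T : Tate w) (δ : Om) (d : ℤ), w.p = 2 → δ ^ 2 = d → Squarefree d →
    (SM.Af d).Infinite → ∃ x, SelQ T δ d x ∧ ¬ Cob ⊤ (T.rq δ) x

/-- block D: the L-function -/
def LFUN : Prop :=
  ∀ d : ℤ, Squarefree d → d ≠ 1 → (∃ f, BSD15.IsL (-12987 * d ^ 2) (-263466 * d ^ 3) f) ∧
    (∀ f, BSD15.IsL (-12987 * d ^ 2) (-263466 * d ^ 3) f → (f 1 = 0 ↔ Lam d = 0)) ∧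
    (rn d = -1 → Lam d = 0)

/-- block D: complex conjugation -/
def CONJ : Prop :=
  ∀ (l : ℕ) (d ρ : ℤ) (S : Finset QF), Hy l d → Rs (l * cd d ^ 2) ρ (hw l d ρ) S →
    ∃ u v : ℚ, (starRingEnd ℂ) (ZS S (hw l d ρ)) + rn d * d.sign * ZS S (hw l d ρ) =
      u * L0 + v * om * Complex.I

/-- there are good twists in every residue class -/
def EXN : Prop :=
  ∀ (T : Tate (SM.pl 2)) (d₀ : ℤ) (q a : ℕ), Squarefree d₀ → d₀ ∣ 30 → 120 ∣ q → q ≠ 0 →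
    a.Coprime q → ∃ m : ℕ, m % q = a % q ∧ Nice T (d₀ * st m)

/-- the Heegner points of good twists -/
def IRX : Prop :=
  ∀ (T : Tate (SM.pl 2)) (d : ℤ), Nice T d → ∀ b B : ℕ, IsCoprime (b : ℤ) (30 * d) →
    ∃ l : ℕ, B < l ∧ Ir l d ∧ ∀ q : ℕ, q.Prime → q ∣ b → jacobiSym (-l) q = -1

/-- block D: the central value does not vanish -/
def GKF : Prop := ∀ (T : Tate (SM.pl 2)) (d : ℤ), Nice T d → rn d = 1 → Lam d ≠ 0

end Pool.Agent.P.MP_8b7eba_nt.R3
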