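import Pool.Agent.P.MP_8b7eba_nt.R3.BAlpha
import Pool.Agent.P.MP_8b7eba_nt.R3.Defs

/-! Points of infinite order give nonzero classes. -/

namespace Pool.Agent.P.MP_8b7eba_nt.R3

open Finset R2 SM SM.TKUM2 Filter Topology
open scoped Matrix

variable {w₂ w : Pl} {T : Tate w₂} {δ : Om} {d : ℤ} {P : EO} {Q : ℕ → EO} {c : GQ → V2}

/-- the unramified quotient is a nontrivial character -/
theorem exists_ne (T : Tate w₂) (h2 : w₂.p = 2) (δ : Om) : ∃ f ∈ w₂.D, T.rd δ f 1 1 ≠ 1 := by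
  obtain ⟨f, fD, -, h⟩ := exists_alpha T h2
  refine ⟨f, fD, fun e => ?_⟩
  rw [Tate.rd, Matrix.smul_apply, smul_eq_mul] at e
  rcases sd_cases δ f with b | b <;> rw [b] at e <;> push_cast at e
  · rw [one_mul] at e
    rw [e] at h
    norm_num at h
  · rw [show T.rho f 1 1 - 1 = -2 by linear_combination -e, norm_neg, TLATX.two] at h
    norm_num at h

theorem comm_fix (hδ : δ ^ 2 = d) (g f : GQ) : (g * f * g⁻¹ * f⁻¹) δ = δ := by
  have h := isCh_qz (H := ⊤) d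
  rw [← qz_eq_zero hδ, h.2 _ trivial _ trivial, qz_conj, h.inv trivial, add_neg_cancel]

/-- the condition at two -/
theorem kum_ord (h2 : w₂.p = 2) (hδ : δ ^ 2 = d) (hc : ∀ g h, c (g * h) = c g + T.rq δ g (c h))
    (hQ : ∀ g k, T.pt (((2 : ℚ_[2]) ^ k)⁻¹ • c g) = tac δ g (Q k) - Q k) :
    ∃ v, ∀ g ∈ w₂.D, (c g - (T.rq δ g v - v)) 1 = 0 := by
  have hF := a_CF
  have h0 : ∀ g ∈ w₂.I, g δ = δ → c g 1 = 0 := fun g hg h => zero fun k =>
    TKLOC.le_of ((T.e1 _).1 (e1 hF (by rw [h2]; norm_num) hg h hQ k))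
  have h1 : ∀ g ∈ w₂.D, ∀ u, T.rq δ g u 1 = T.rd δ g 1 1 * u 1 := fun g hg u => by
    simp [Tate.rq_apply, Matrix.mulVec, dotProduct, SelA.rd_up T δ hg]
  obtain ⟨f, fD, f1⟩ := exists_ne T h2 δ
  have f3 := sub_ne_zero.2 f1
  refine ⟨![0, c f 1 / (T.rd δ f 1 1 - 1)], fun g hg => ?_⟩
  have a2 := Pl.comm_mem hF.frob hg fD
  have a3 := comm_fix hδ g f
  have a1 := congrFun (comm hc g f) 1
  rw [Pi.add_apply, Pi.add_apply, h0 _ a2 a3, h1 _ (w₂.I_le_D a2), SelA.rd_fix T a3,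
    T.un _ a2, h1 g hg, hc, Pi.add_apply, h1 f fD] at a1
  rw [Pi.sub_apply, Pi.sub_apply, h1 g hg]
  simp only [Matrix.cons_val_one, Matrix.cons_val_zero]
  field_simp
  linear_combination -a1

/-- a generator of inertia at an odd prime dividing `d` has no fixed vector -/
theorem ram_gen (T : Tate w₂) (hδ : δ ^ 2 = d) (hm : Squarefree d) (a2 : w.p ≠ 2)
    (hw : (w.p : ℤ) ∣ d) {t : GQ} (tI : t ∈ w.I) (tβ : ∀ β : Om, β ^ 2 = w.p → t β = -β) (v : V2)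
    (hv : T.rq δ t v = v) : v = 0 := by
  have hF := a_CF
  have h4 : t δ ≠ δ := fun a => (qz_gen hA a2 tI tβ hm).1 ((qz_eq_zero hδ).2 a) hw
  rw [Tate.rq_apply, Tate.rd, sd_eq_neg.2 h4, Matrix.smul_mulVec] at hv
  have h5 : T.rho t *ᵥ v = -v := by
    rw [← neg_eq_iff_eq_neg]
    simpa using hv
  have h6 : T.rho t *ᵥ v = v := by
    by_cases a15 : w.p ∣ 15
    · obtain ⟨e, -, -, -, h, -⟩ := hF.unip _ T w a15
      obtain ⟨s, hs⟩ := (h t tI).2 v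
      have k := congrArg (T.rho t *ᵥ ·) hs
      simp only [Matrix.mulVec_sub, Matrix.mulVec_smul, (h t tI).1, h5, Matrix.mulVec_neg] at k
      rw [h5] at hs
      rw [h5]
      linear_combination (norm := module) (2⁻¹ : ℚ_[2]) • hs - (2⁻¹ : ℚ_[2]) • k
    · have h30 : ¬ w.p ∣ 30 := fun a => by
        rcases (Nat.Prime.dvd_mul w.prime).1 (show w.p ∣ 2 * 15 from a) with a | a
        · exact a2 ((Nat.prime_dvd_prime_iff_eq w.prime Nat.prime_two).1 a)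
        · exact a15 a
      rw [(hF.tr _ T _ h30).1 _ tI, Matrix.one_mulVec]
  linear_combination (norm := module) (2⁻¹ : ℚ_[2]) • h5 - (2⁻¹ : ℚ_[2]) • h6

theorem kum2 (h2 : w₂.p = 2) (hδ : δ ^ 2 = d) (hm : Squarefree d) (hP : ∀ k, 2 ^ k • Q k = P)
    (hb : ∀ g, ‖c g‖ ≤ 1) (hu : Uc ⊤ c) (hc : ∀ g h, c (g * h) = c g + T.rq δ g (c h))
    (hQ : ∀ g k, T.pt (((2 : ℚ_[2]) ^ k)⁻¹ • c g) = tac δ g (Q k) - Q k) :
    SelQ T δ d fun g => ul fun k => c (g k) := by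
  have hF := a_CF
  have hR : Rep ⊤ (T.rq δ) := T.rep (by rw [hδ]; exact fix_int d)
  obtain ⟨hz, hl⟩ := pz_const hR hu fun g _ h _ => hc g h
  have hl' := fun g : GS => hl g (by rw [S1_top]; trivial)
  refine ⟨hz, fun w g hg => ?_, fun w a2 hw => ?_, ?_⟩
  · refine ul_eq (tendsto_const_nhds.congr' (hg.mono fun k h => (zero fun j => ?_).symm))
    have a1 : (w k).p ≠ 2 := fun a => h.2 (Dvd.dvd.mul_right (by rw [a]; norm_num) _)
    have a2 : ¬ (w k).p ∣ 15 := fun a =>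
      h.2 ((Int.natCast_dvd_natCast.2 (a.mul_left 2)).mul_right _)
    obtain ⟨m, hm⟩ := T.tors (((2 : ℚ_[2]) ^ j)⁻¹ • c (g k))
    exact TKLOC.le_of ((T.ker _).1 ((hF.e1g _).2.2.2.2.2 a1 _ m (e1 hF a2 h.1
      (Pl.I_fix hF.tame hF.res a1 hδ (fun a => h.2 (a.mul_left _)) h.1) hQ j) hm))
  · have hp : Prime (w.p : ℤ) := Nat.prime_iff_prime_int.1 w.prime
    by_cases ad : (w.p : ℤ) ∣ d
    · obtain ⟨t, tI, tβ⟩ := Pl.exists_gen hF.tame hF.res a2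
      exact sah2 a2 (hR.mono le_top) tI tβ (ram_gen T hδ hm a2 ad tI tβ) (hz.mono fun _ => le_top)
    · have a15 : w.p ∣ 15 := by exact_mod_cast (hp.dvd_or_dvd hw).resolve_right ad
      have hI : ∀ g ∈ w.I, g δ = δ := fun g hg => Pl.I_fix hF.tame hF.res a2 hδ ad hg
      obtain ⟨v, hv⟩ := badI hF a15 hI hP hb hQ
      obtain ⟨v, hv⟩ := badD hF hR a15 hI hc hv
      exact ⟨v, fun g hg => ul_eq (((hR.tendsto g tendsto_const_nhds).sub_const v).congr'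
        (Eventually.mono hg fun k h => (hv _ h).symm))⟩
  · obtain ⟨v, hv⟩ := kum_ord h2 hδ hc hQ
    refine ⟨v, fun g hg => tendsto_nhds_unique (((continuous_apply 1).tendsto _).comp
      ((hl' g).sub ((hR.tendsto g tendsto_const_nhds).sub_const v)))
      (tendsto_const_nhds.congr' (Eventually.mono hg fun k h => (hv _ h).symm))⟩

theorem t_KUM : KUM := by
  intro w T δ d h2 hδ hd hinf
  obtain ⟨P, hP, h0⟩ := a_KUM0 d δ hd.ne_zero hδ hinf
  obtain ⟨Q, c, q1, c1, c2, c3, c4⟩ := a_KUM1 w T δ (TLOC2.fix_sq hδ) P hP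
  refine ⟨_, kum2 h2 hδ hd q1 c1 c2 c3 c4, fun ⟨v, hv⟩ => ?_⟩
  have e : ∀ g, c g = T.rq δ g v - v := fun g => by
    have := hv (cs g) trivial
    rw [rS_cs] at this
    exact (ul_eq tendsto_const_nhds).symm.trans this
  obtain ⟨n, hn⟩ := T.tors v
  obtain ⟨k, hk⟩ := h0 n
  refine hk (2 ^ n • (Q k - T.pt (((2 : ℚ_[2]) ^ k)⁻¹ • v))) (fun g => ?_) ?_
  · have := c4 g k
    rw [e, smul_sub, map_sub, TKUM1.tac_pt] at this
    rw [map_nsmul, map_sub]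
    congr 1
    rw [sub_eq_sub_iff_sub_eq_sub, ← this]
  · have h3 : 2 ^ k • T.pt (((2 : ℚ_[2]) ^ k)⁻¹ • v) = T.pt v := by
      rw [← TLOC2.pt_nat, smul_smul]
      simp
    rw [smul_comm, smul_sub, q1, h3, smul_sub, hn, sub_zero]

end Pool.Agent.P.MP_8b7eba_nt.R3
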