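import Pool.Agent.P.MP_8b7eba_nt.R3.AYCM
import Pool.Agent.P.MP_8b7eba_nt.R2.TARX

/-! Proof of FRB, ARX. -/

namespace Pool.Agent.P.MP_8b7eba_nt.R2.G

open scoped NNReal
open MP_9c97e9_nt (pm Is ap)
open BSD15 (OO Good nm cj)
open _root_.Pool.Agent.P.MP_8b7eba_nt.Mod (M2 G0 xx al)
open R1 (emb Dl psi Pz KF U8 IntPt y1)

namespace ACARX

open Filter
open R2.TARX (FF ev_iff ev_ndvd ev_eq kf_int Tr conj_mem out_mul)
open R1 (InP v1)

variable {P : Pre} {c : ℕ}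

theorem im_hz (hc : Cd c) (a : RC P.l c) : 0 < (hz c (rp a)).im := (at_hz hc (rp_spec a).1).im

theorem int_hz (hc : Cd c) (a : RC P.l c) : IntPt (hz c (rp a)) := intPt_hz hc (rp_spec a).1

theorem io_f (hA : CA) (hc : Cd c) {f : ℂ → ℂ} (hf : KF 0 f) (a : RC P.l c) :
    io (ii (f (hz c (rp a)))) = f (hz c (rp a)) :=
  io_ii hA.tau ((kf_int hf (im_hz hc a) (int_hz hc a)).tower_top (A := ℚ)).isAlgebraic

theorem cong (hA : CA) (hc : Cd c) {f : ℂ → ℂ} (hf : KF 0 f) :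
    ∀ᶠ w in FF, ∀ φ ∈ P.GK, w.IsFrob 1 φ → ∀ a : RC P.l c,
      φ (ii (f (hz c (rp (cl c (pw P.l w) * a))))) = ii (f (hz c (rp a))) := by
  have := finite_RC (l := P.l) hc.1
  have := Fintype.ofFinite (RC P.l c)
  have hz0 := im_hz (P := P) hc
  have hx := int_hz (P := P) hc
  have ev : ∀ {x : ℂ}, IsIntegral ℤ x → x ≠ 0 → ∀ᶠ w in FF, ∀ J : Ideal R1.Zb, J.IsPrime →
      (w.p : R1.Zb) ∈ J → ¬ InP J x := fun h h0 =>
    ev_iff.2 ((R1.exists_not_inP h h0).imp fun _ h w hw => h _ w.prime hw)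
  filter_upwards [ev_eq hA.pl fun a : RC P.l c => ii (f (hz c (rp a))),
    eventually_all.2 fun a => ev ((hx a).int_U8 (hz0 a)) (R1.U8_ne (hz0 a)),
    eventually_all.2 fun a => ev ((hx a).int_v1 (hz0 a)) (R1.v1_ne (hz0 a)),
    ev_ndvd hc.1, ev_ndvd P.lp.ne_zero, ev_ndvd (m := 30) (by norm_num)]
    with w h1 h2 h3 h4 h5 h6 φ hφ hF a
  refine h1 φ _ a ?_
  obtain ⟨J, j1, j2, hJ⟩ := TFR.exists_prime hA.pl hA.tau w
  have h30 := w.prime.coprime_iff_not_dvd.2 h6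
  obtain ⟨s1, s2, -⟩ := pw_split hA ((D_le_GK hA (fun e => h5 (e ▸ dvd_rfl)) hF).2 hφ)
  have ad : Ad c (pw P.l w) := ad_pw.2 h4
  have hA' : ∀ a : RC P.l c, ∃ A : M2, A.det = w.p ∧ 15 ∣ A.c ∧
      hz c (pw P.l w * rp a) = A.act (hz c (rp a)) ∧ psi w.p A (hz c (rp a)) =
        (nm (pw P.l w) : ℂ) ^ 12 * DL (Lc c (pw P.l w * rp a)) / DL (Lc c (rp a)) := fun a => by
    obtain ⟨A, a1, -, a3, a4, a5⟩ := (at_hz hc (rp_spec a).1).sub (at_hz hc (ad.mul (rp_spec a).1))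
      (Lc_mono Ideal.mul_le_right dvd_rfl) (Lc_mono (Ideal.mul_mono_left Ideal.mul_le_right) dvd_rfl)
    refine ⟨A, ?_, a3, a4, by rw [a5, s1]⟩
    rw [a1, mul_comm, Lc_relIndex hc.1 (rp_spec a).1 ad, s1]
  choose A a1 a2 a3 a4 using hA'
  obtain ⟨β, b1, b2⟩ := prod_DL hc.1 ad
  have hU : ¬ InP J (U8 (hz c (rp a)) * psi w.p (A a) (hz c (rp a))) := fun e => by
    have e1 := (R1.FP_prod j1 Finset.univ fun a => R1.kro_int w.prime h30 (a1 a) (a2 a) (hz0 a)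
      (hx a)).2 ⟨a, Finset.mem_univ _, e⟩
    simp only [Finset.prod_mul_distrib, a4] at e1
    rw [← finprod_eq_prod_of_fintype (fun a => _ / DL (Lc c (rp a))), b2] at e1
    have i1 := fun a => (hx a).int_U8 (hz0 a)
    have i2 := R1.isIntegral_emb P.l (star β)
    rcases InP.of_mul j1 (IsIntegral.prod _ fun a _ => i1 a) (i2.pow 12) e1 with e2 | e2
    · obtain ⟨a, -, e3⟩ := (R1.FP_prod j1 _ i1).1 e2
      exact h2 a J j1 j2 e3
    · have e3 := R1.FP_pow j1 i2 e2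
      rw [← io_eO, hJ, ← mem_pw, ← BSD15.mem_cj, ← Ideal.span_singleton_le_iff_mem, b1] at e3
      have := BSD15.genus_cj_isPrime (pw_prime P w).1
      have e4 := Ideal.IsPrime.le_of_pow_le e3.2
      exact s2 (le_antisymm e4 fun x hx => by
        simpa using BSD15.mem_cj.1 (e4 (BSD15.mem_cj.1 hx)))
  obtain ⟨γ, g1, g2⟩ := hz_cl hc (rp_spec (cl c (pw P.l w) * a)).1 (ad.mul (rp_spec a).1)
    (by rw [(rp_spec _).2, cl_mul ad (rp_spec a).1, (rp_spec a).2])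
  have e1 : f ((A a).act (hz c (rp a))) = f (hz c (rp (cl c (pw P.l w) * a))) := by
    rw [← a3, g2, hf.inv γ g1 _ (hz0 _), pow_zero, one_mul]
  have i := fun a => kf_int hf (hz0 a) (hx a)
  have k := R1.FP_key w.prime h30 j1 j2 hf (a1 a) (a2 a) (hz0 a) (hx a) hU (h3 a J j1 j2) (i a)
    (e1 ▸ i _)
  rw [pow_zero, one_mul, e1, ← io_f hA hc hf, ← io_f hA hc hf a, ← map_pow, ← map_sub, hJ] at k
  exact TFR.frob_lt hF (hA.pl.2.2.2.1 w _ (TFR.int_io.1 ((io_f hA hc hf _).symm ▸ i _))) k.2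

theorem uniq (hE : CE) (hc : Cd c) {g : GQ} {α β : RC P.l c} (h : Tr g α) (h' : Tr g β) :
    α = β :=
  (mul_one α).symm.trans ((JO_inj hE.tau hE.jf hE.jinj hc
    (g.injective ((h 1).2.trans (h' 1).2.symm))).trans (mul_one β))

theorem exists_N (hc : Cd c) : ∃ N, ON N ∧ ∀ n ∈ N, Tr n (1 : RC P.l c) := by
  classical
  have := finite_RC (l := P.l) hc.1
  have := Fintype.ofFinite (RC P.l c)
  obtain ⟨N, h1, h2⟩ := exists_ON_ac (Finset.univ.image (HP : RC P.l c → EO))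
  obtain ⟨N', h3, h4⟩ := exists_ON_fix (Finset.univ.image (JO : RC P.l c → Om))
  exact ⟨_, h1.inf h3, fun n hn a => by
    rw [show 1 * a = a from one_mul a]
    exact ⟨h2 _ (by simp) n hn.1, h4 _ (by simp) n hn.2⟩⟩

theorem tr_ar (hE : CE) (hF : FRB) (hc : Cd c) {g : GQ} (hg : g ∈ P.GK) : Tr g (ar P.l c g) := by
  obtain ⟨N, h1, h2⟩ := exists_N (P := P) hc
  obtain ⟨B, hB⟩ := hF P c hc
  let U : Subgroup GQ :=
    { carrier := {g | ∃ α : RC P.l c, Tr g α}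
      one_mem' := ⟨1, h2 1 N.one_mem⟩
      mul_mem' := fun ⟨_, a⟩ ⟨_, b⟩ => ⟨_, a.mul b⟩
      inv_mem' := fun ⟨_, a⟩ => ⟨_, a.inv⟩ }
  exact Classical.epsilon_spec (hE.genp.1 P.GK U B (isOpen_stab _)
    (open_of_le h1.2 fun n hn => ⟨1, h2 n hn⟩) (fun w φ a b e => ⟨_, hB w φ a b e⟩) hg)

theorem ar_mul (hE : CE) (hF : FRB) (hc : Cd c) : ∀ g ∈ P.GK, ∀ h ∈ P.GK,
    ar P.l c (g * h) = ar P.l c g * ar P.l c h := fun _ hg _ hh =>
  uniq hE hc (tr_ar hE hF hc (mul_mem hg hh)) ((tr_ar hE hF hc hg).mul (tr_ar hE hF hc hh))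

theorem ar_sm (hE : CE) (hF : FRB) (hc : Cd c) : Sm P.GK (ar P.l c) := by
  obtain ⟨N, h1, h2⟩ := exists_N (P := P) hc
  exact ⟨N, h1, fun g hg n hn m => by
    rw [ar_mul hE hF hc g hg n hn, uniq hE hc (tr_ar hE hF hc hn) (h2 n m)]
    exact mul_one (ar P.l c g)⟩

theorem ar_fr (hE : CE) (hF : FRB) (hc : Cd c) : ∀ᶠ w in FF, ∀ φ ∈ P.GK, w.IsFrob 1 φ →
    ar P.l c φ = cl c (pw P.l w) :=
  ev_iff.2 ((hF P c hc).imp fun _ h w hw φ a b => uniq hE hc (tr_ar hE hF hc a) (h w φ hw a b))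

theorem ar_conj (hE : CE) (hF : FRB) (hc : Cd c) {s : GQ} (hs : s ∉ P.GK) :
    ∀ g ∈ P.GK, ar P.l c (s * g * s⁻¹) = (ar P.l c g)⁻¹ := by
  obtain ⟨B, hB⟩ := ev_iff.1 (ar_fr (P := P) hE hF hc)
  refine ext_frob hE.toCA (f := fun g => ar P.l c (s * g * s⁻¹)) (f' := fun g => (ar P.l c g)⁻¹)
    ((ar_sm hE hF hc).conj s⁻¹ fun g hg => conj_mem s hg) ((ar_sm hE hF hc).comp _)
    (fun g hg h hh => ⟨?_, ?_⟩) (B + c) fun w φ h1 h2 h3 => ?_
  · rw [← ar_mul hE hF hc _ (conj_mem s hg) _ (conj_mem s hh), conj_mul]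
  · rw [ar_mul hE hF hc g hg h hh]
    exact mul_inv (ar P.l c g) (ar P.l c h)
  · rw [hB (s • w) (by simp; omega) _ (conj_mem s h2) (h3.smul s), hB w (by omega) φ h2 h3,
      pw_smul_out hs, cl_cj (ad_pw.2 fun e => by
        have := Nat.le_of_dvd (Nat.pos_of_ne_zero hc.1) e
        omega)]

end ACARX

open ACARX
open R2.TARX (FF ev_iff ev_ndvd ev_eq kf_int Tr conj_mem out_mul)

theorem t_FRB (hE : CE) : FRB := by
  intro P c hc
  have hA := hE.toCA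
  obtain ⟨B, hB⟩ := ev_iff.1 (((cong (P := P) hA hc R1.kf_xx).and (cong (P := P) hA hc R1.kf_y1)).and
    ((cong (P := P) hA hc hE.jf.2.2.1).and (cong (P := P) hA hc hE.jf.2.2.2)))
  refine ⟨B, fun w φ h1 h2 h3 a => ?_⟩
  obtain ⟨⟨e1, e2⟩, e3, e4⟩ := hB w h1
  have k1 : ∀ a : RC P.l c, Is (HP a) (4 * ii (xx (hz c (rp a))))
      (-16 * ii (y1 (hz c (rp a))) - 8 * ii (xx (hz c (rp a)))) := fun a => by
    obtain ⟨x, y, -, -, b1, b2, b3⟩ := TFR.is_pt hA.tau (im_hz hc a) (int_hz hc a)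
      ((rp_spec a).2 ▸ HP_cl hA.tau hc (rp_spec a).1)
    rwa [← b1, ← b2, ii_io, ii_io]
  have k2 : ∀ a : RC P.l c, ii (U8 (hz c (rp a)) ^ 2 * jf (hz c (rp a))) =
      ii (U8 (hz c (rp a))) ^ 2 * JO a := fun a => io.injective (by
    have := JO_cl hA.tau hE.jf hc (rp_spec a).1
    rw [(rp_spec a).2] at this
    rw [io_f hA hc hE.jf.2.2.2, map_mul, map_pow, io_f hA hc hE.jf.2.2.1, this.1, this.2])
  constructor
  · have := TFR.is_ac' φ (k1 (cl c (pw P.l w) * a))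
    rw [e1 φ h2 h3, e2 φ h2 h3] at this
    exact this.unique R1.split15 (k1 a)
  · have := e4 φ h2 h3 a
    rw [k2, k2, map_mul, map_pow, e3 φ h2 h3] at this
    refine mul_left_cancel₀ (pow_ne_zero 2 fun e => R1.U8_ne (im_hz hc a) ?_) this
    rw [← io_f hA hc hE.jf.2.2.1, e, map_zero]

theorem t_ARX (hE : CE) (hFRB : FRB) : ARX := by
  intro P c hc
  have hA := hE.toCA
  obtain ⟨B, hB⟩ := ev_iff.1 (ar_fr (P := P) hE hFRB hc)
  have m := ar_mul (P := P) hE hFRB hc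
  refine ⟨m, ar_sm hE hFRB hc, fun g hg a => ?_, ⟨B, fun w φ a => hB w a φ⟩, fun a => ?_,
    fun s hs => ⟨?_, ar_conj hE hFRB hc hs⟩, fun c₀ h => ?_⟩
  · obtain ⟨e1, e2⟩ := tr_ar hE hFRB hc hg a
    obtain ⟨-, η, h1⟩ := is_HP hA.tau hc (ar P.l c g * a)
    obtain ⟨-, η', h2⟩ := is_HP hA.tau hc a
    have := ((e1 ▸ is_ac g h1).inj h2).1
    rw [map_mul, map_ofNat] at this
    exact ⟨e1, e2, mul_left_cancel₀ (by norm_num) this⟩
  · have o : ar P.l c 1 = 1 := by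
      obtain ⟨N, -, h⟩ := exists_N (P := P) hc
      exact uniq hE hc (tr_ar hE hFRB hc (one_mem _)) (h 1 N.one_mem)
    obtain ⟨I, hI, rfl⟩ := exists_rep hc.1 a (mul_ne_zero P.lp.ne_zero B.factorial_ne_zero)
    induction I using UniqueFactorizationMonoid.induction_on_prime with
    | h₁ => exact absurd rfl hI.1
    | h₂ I hu => exact ⟨1, one_mem _, by rw [Ideal.isUnit_iff.1 hu, cl_top, o]⟩
    | h₃ I Q _ hQ ih =>
      obtain ⟨g, hg, e⟩ := ih hI.of_mul.2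
      obtain ⟨w, rfl⟩ := exists_pw hA (Ideal.isPrime_of_prime hQ) hQ.ne_zero
      have h1 := ad_pw.1 hI.of_mul.1
      have h2 : ¬ w.p ∣ c := fun e => h1 (e.mul_right _)
      rw [cl_mul (ad_pw.2 h2) (hI.of_mul.2.mono (dvd_mul_right _ _)), ← e]
      by_cases hD : w.D ≤ P.GK
      · obtain ⟨f, φ, -, b1, b2, b3, -⟩ := hA.frob w _ w.loc_D
        rw [b3 rfl] at b2
        refine ⟨φ * g, mul_mem (hD b1) hg, ?_⟩
        rw [m φ (hD b1) g hg, hB w (not_le.1 fun e => h1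
          (((w.prime.dvd_factorial.2 e).mul_left _).mul_left _)) φ (hD b1) b2]
      · refine ⟨g, hg, ?_⟩
        rw [(pw_inert hA (fun e => h1 (e ▸ (dvd_mul_right _ _).mul_left _)) hD).1,
          ← Int.cast_natCast (R := OO P.l) w.p, cl_span (oc_int (by exact_mod_cast w.prime.ne_zero)
            (Nat.isCoprime_iff_coprime.2 (w.prime.coprime_iff_not_dvd.2 h2)))]
        exact (one_mul (ar P.l c g)).symm
  · have t : tau ∉ P.GK := fun e => by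
      have := (qz_tau hA.tau (neg_ne_zero.2 (by exact_mod_cast P.lp.ne_zero))).1 (mem_GK'.1 e)
      omega
    have h1 := out_mul t hs
    rw [show s * s = tau * (tau * s) * tau⁻¹ * (tau * s) by
      rw [← mul_assoc tau, hA.tau.2.1]; group, m _ (conj_mem _ h1) _ h1,
      ar_conj hE hFRB hc t _ h1, inv_mul_cancel]
  · have hc₀ : Cd c₀ := ⟨ne_zero_of_dvd_ne_zero hc.1 h, trivial⟩
    obtain ⟨B', hB'⟩ := ev_iff.1 (((ar_fr (P := P) hE hFRB hc).and (ar_fr (P := P) hE hFRB hc₀)).and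
      (ev_ndvd hc.1))
    refine ext_frob hA ((ar_sm hE hFRB hc).comp _) (ar_sm hE hFRB hc₀)
      (fun g hg k hk => ⟨by rw [m g hg k hk, map_mul], ar_mul hE hFRB hc₀ g hg k hk⟩) B'
      fun w φ h1 h2 h3 => ?_
    obtain ⟨⟨e1, e2⟩, e3⟩ := hB' w h1
    rw [e1 φ h2 h3, e2 φ h2 h3, pr_cl h (ad_pw.2 e3)]

end Pool.Agent.P.MP_8b7eba_nt.R2.G
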