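import Pool.Agent.P.MP_8b7eba_nt.R3.AYCM
import Pool.Agent.P.MP_8b7eba_nt.R2.TCHI
import Pool.Agent.P.MP_8b7eba_nt.R2.TH2

/-! Proof of CHI, TR2 for arbitrary conductor. -/

namespace Pool.Agent.P.MP_8b7eba_nt.R2.G

open scoped NNReal
open MP_9c97e9_nt (pm Is ap)
open BSD15 (OO nm cj)

namespace ACCHI

variable {l : ℕ} [Hl l] {d : ℤ} {c : ℕ}

/-- the facts on the character which are used -/
structure Kc (d : ℤ) (c : ℕ) : Prop where
  dvd : R3.cd d ∣ c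
  mul : ∀ x y, R3.kc d (x * y) = R3.kc d x * R3.kc d y
  per : ∀ x y, (R3.cd d : ℤ) ∣ x - y → R3.kc d x = R3.kc d y
  sq : ∀ x : ℤ, IsCoprime x (R3.cd d) → R3.kc d x * R3.kc d x = 1

theorem Kc.mono (h : Kc d c) {c' : ℕ} (e : c ∣ c') : Kc d c' := ⟨h.dvd.trans e, h.2, h.3, h.4⟩

theorem kc_of (hK : KC) (hd : Squarefree d) (hm : R3.cd d ∣ c) : Kc d c := by
  obtain ⟨-, -, -, -, -, -, h1, h2, h3, -⟩ := hK d hd
  refine ⟨hm, h1, h2, fun x ⟨a, b, e⟩ => ?_⟩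
  have e1 := h3 1 isCoprime_one_left
  rw [Nat.cast_one, ← h2 (x * a) 1 ⟨-b, by linear_combination e⟩, h1, mul_assoc] at e1
  exact Int.isUnit_mul_self (IsUnit.of_mul_eq_one _ e1)

theorem kc_oc (hm : Kc d c) {γ : OO l} (h' : Oc c γ) : R3.kc d (nm (Ideal.span {γ})) = 1 := by
  have h := h'.mono hm.dvd
  obtain ⟨k, hk⟩ := h.2.1
  have e : γ.norm = γ.re * γ.re +
      R3.cd d * (γ.re * k + (((l + 1) / 4 : ℕ) : ℤ) * R3.cd d * k ^ 2) := by
    rw [QuadraticAlgebra.norm_def, hk]; ring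
  have h1 := h.2.2
  rw [e, IsCoprime.add_mul_left_left_iff] at h1
  rw [BSD15.nm_span, hm.per _ (γ.re * γ.re) ⟨_, by rw [e, add_sub_cancel_left]⟩, hm.mul,
    hm.sq _ h1.of_mul_left_left]

theorem chi_cl (hm : Kc d c) {I : Ideal (OO l)} (h : Ad c I) :
    chi d (cl c I) = R3.kc d (nm I) := by
  obtain ⟨h1, h2⟩ := rp_spec (cl c I)
  obtain ⟨α, β, h3, h4, e⟩ := (cl_eq_iff h1 h).1 h2
  have e' := congrArg (fun K => R3.kc d (nm K)) e
  simp only [BSD15.nm_mul, Nat.cast_mul, hm.mul, kc_oc hm h3, kc_oc hm h4, one_mul] at e'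
  rw [chi, e']

theorem chi_mul (hm : Kc d c) (a b : RC l c) : chi d (a * b) = chi d a * chi d b := by
  obtain ⟨h1, h2⟩ := rp_spec a
  obtain ⟨h3, h4⟩ := rp_spec b
  rw [← h2, ← h4, ← cl_mul h1 h3, chi_cl hm h1, chi_cl hm h3, chi_cl hm (h1.mul h3),
    BSD15.nm_mul, Nat.cast_mul, hm.mul]

theorem chi_sq (hm : Kc d c) (a : RC l c) : chi d a * chi d a = 1 :=
  hm.sq _ (Nat.isCoprime_iff_coprime.2 ((rp_spec a).1.mono hm.dvd).2)

theorem chi_one (hm : Kc d c) : chi d (1 : RC l c) = 1 := by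
  have h := chi_mul hm (1 : RC l c) 1
  rw [chi_sq hm] at h
  exact (congrArg (chi d) (mul_one 1)).symm.trans h

theorem chi_inv (hm : Kc d c) (a : RC l c) : chi d a⁻¹ = chi d a := by
  have h := chi_mul hm a⁻¹ a
  rw [inv_mul_cancel, chi_one hm] at h
  have h2 := chi_sq hm a
  calc chi d a⁻¹ = chi d a⁻¹ * (chi d a * chi d a) := by rw [h2, mul_one]
    _ = chi d a := by rw [← mul_assoc, ← h, one_mul]

theorem chi_od (hm : Kc d c) {a : RC l c} (h : a ∈ Od l c) : chi d a = 1 := by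
  obtain ⟨r, ⟨k, rfl⟩, h1⟩ := mem_Od'.1 h
  have h2 := chi_one (l := l) hm
  rwa [← h1, pow_succ, two_mul, pow_add, chi_mul hm, chi_mul hm, chi_sq hm, one_mul] at h2

theorem chi_pr (hm : Kc d c) {c' : ℕ} (h : c ∣ c') (b : RC l c') : chi d (pr h b) = chi d b := by
  obtain ⟨h1, h2⟩ := rp_spec b
  rw [← h2, pr_cl h h1, chi_cl hm (h1.mono h), chi_cl (hm.mono h) h1]

theorem ZC_fib (hm : Kc d c) {q : ℕ} (hc : c * q ≠ 0) :
    ZC l d (c * q) = ∑ᶠ a : RC l c,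
      chi d a • ∑ᶠ b ∈ {b | pr (Nat.dvd_mul_right c q) b = a}, HP b := by
  classical
  have := finite_RC (l := l) hc
  have := finite_RC (l := l) (left_ne_zero_of_mul hc)
  have := Fintype.ofFinite (RC l c)
  have := Fintype.ofFinite (RC l (c * q))
  rw [ZC, finsum_eq_sum_of_fintype, finsum_eq_sum_of_fintype,
    ← Finset.sum_fiberwise Finset.univ (pr (l := l) (Nat.dvd_mul_right c q))]
  refine Finset.sum_congr rfl fun a _ => ?_
  rw [← Finset.coe_filter_univ, finsum_mem_coe_finset, Finset.smul_sum]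
  refine Finset.sum_congr rfl fun b hb => ?_
  rw [← (Finset.mem_filter.1 hb).2, chi_pr hm]

theorem ZC_shift (hm : Kc d c) (x : RC l c) (f : RC l c → EO) :
    ∑ᶠ a : RC l c, chi d a • f (x * a) = ∑ᶠ a : RC l c, chi d x • chi d a • f a := by
  rw [← finsum_comp_equiv (Equiv.mulLeft x) (f := fun a : RC l c => chi d x • chi d a • f a)]
  refine finsum_congr fun a => ?_
  rw [Equiv.coe_mulLeft, chi_mul hm, smul_smul, ← mul_assoc, chi_sq hm, one_mul]

theorem ZC_pr (hm : Kc d c) {q : ℕ} (hc : c * q ≠ 0) :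
    ∑ᶠ b : RC l (c * q), chi d b • HP (pr (Nat.dvd_mul_right c q) b) =
      Nat.card (pr (l := l) (Nat.dvd_mul_right c q)).ker • ZC l d c := by
  classical
  have := finite_RC (l := l) hc
  have := finite_RC (l := l) (left_ne_zero_of_mul hc)
  have := Fintype.ofFinite (RC l c)
  have := Fintype.ofFinite (RC l (c * q))
  rw [ZC, finsum_eq_sum_of_fintype, finsum_eq_sum_of_fintype,
    ← Finset.sum_fiberwise Finset.univ (pr (l := l) (Nat.dvd_mul_right c q)), Finset.smul_sum]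
  refine Finset.sum_congr rfl fun a _ => ?_
  rw [← TTRI.card_fibre hc a, Nat.card_eq_fintype_card, Fintype.card_subtype, ← Finset.sum_const]
  refine Finset.sum_congr rfl fun b hb => ?_
  rw [← (Finset.mem_filter.1 hb).2, chi_pr hm]

theorem stepA (hH : H2A) (hm : Kc d c) (hc : Cd c) (ho : Odd c) :
    ∃ t : ℤ, ZC l d (c * 2) = t • ZC l d c := by
  obtain ⟨x, hx⟩ := hH l c hc ho
  have := finite_RC (l := l) hc.1
  refine ⟨Mod.an 2 - chi d x - chi d x⁻¹, ?_⟩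
  rw [ZC_fib hm (mul_ne_zero hc.1 two_ne_zero)]
  simp only [hx, smul_sub]
  rw [finsum_sub_distrib (Set.toFinite _) (Set.toFinite _),
    finsum_sub_distrib (Set.toFinite _) (Set.toFinite _), ZC_shift hm _ HP, ZC_shift hm _ HP,
    sub_smul, sub_smul, ZC, smul_finsum' _ (Set.toFinite _), smul_finsum' _ (Set.toFinite _),
    smul_finsum' _ (Set.toFinite _)]
  simp only [smul_comm (Mod.an 2)]

theorem step0 (hH : H2B) (hm : Kc d (c * 2)) (hc : Cd c) :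
    ZC l d (c * 2 * 2) = Mod.an 2 • ZC l d (c * 2) -
      ∑ᶠ b : RC l (c * 2), chi d b • HP (pr (Nat.dvd_mul_right c 2) b) := by
  have h2 : c * 2 ≠ 0 := mul_ne_zero hc.1 two_ne_zero
  have := finite_RC (l := l) h2
  rw [ZC_fib hm (mul_ne_zero h2 two_ne_zero)]
  simp only [hH l c hc, smul_sub]
  rw [finsum_sub_distrib (Set.toFinite _) (Set.toFinite _), ZC.eq_1 l d (c * 2),
    smul_finsum' _ (Set.toFinite _)]
  simp only [smul_comm (Mod.an 2)]

theorem tors (hm : Kc d (c * 2)) (h2 : 2 ∣ c)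
    (h : ∀ x : ℤ, ((c * 2 : ℕ) : ℤ) ∣ x - (1 + c) → R3.kc d x = -1) :
    IsOfFinAddOrder (∑ᶠ b : RC l (c * 2), chi d b • HP (pr (Nat.dvd_mul_right c 2) b)) := by
  obtain ⟨k, hk⟩ := Int.natCast_dvd_natCast.2 h2
  have h1 : Ad (c * 2) (Ideal.span {(⟨1, c⟩ : OO l)}) := by
    have h3 : IsCoprime (⟨1, c⟩ : OO l).norm c :=
      RCA.cop_of_dvd isCoprime_one_left ⟨1 + ((l + 1) / 4 : ℕ) * c, by
        rw [QuadraticAlgebra.norm_def]
        ring⟩
    refine ad_span.2 ⟨fun e => by simpa using congrArg QuadraticAlgebra.re e, ?_⟩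
    push_cast
    exact h3.mul_right (h3.of_isCoprime_of_dvd_right ⟨k, hk⟩)
  have e1 : pr (Nat.dvd_mul_right c 2) (cl (c * 2) (Ideal.span {(⟨1, c⟩ : OO l)})) = 1 := by
    rw [pr_cl _ h1, cl_span_eq_one (h1.mono (Nat.dvd_mul_right c 2))]
  have e2 : chi d (cl (c * 2) (Ideal.span {(⟨1, c⟩ : OO l)})) = -1 := by
    rw [chi_cl hm h1, BSD15.nm_span]
    refine h _ ⟨((l + 1) / 4 : ℕ) * k, ?_⟩
    rw [QuadraticAlgebra.norm_def, Nat.cast_mul]
    linear_combination (((l + 1) / 4 : ℕ) : ℤ) * c * hk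
  have e3 := ZC_shift hm (cl (c * 2) (Ideal.span {(⟨1, c⟩ : OO l)}))
    fun b => HP (pr (Nat.dvd_mul_right c 2) b)
  have e4 : ∀ a, pr (Nat.dvd_mul_right c 2)
      (cl (c * 2) (Ideal.span {(⟨1, c⟩ : OO l)}) * a) = pr (Nat.dvd_mul_right c 2) a := fun a => by
    rw [map_mul, e1]
    exact one_mul (pr (Nat.dvd_mul_right c 2) a)
  simp only [e4, e2, neg_smul, one_smul, finsum_neg_distrib] at e3
  exact isOfFinAddOrder_iff_nsmul_eq_zero.2 ⟨2, two_pos, by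
    rw [two_nsmul, ← eq_neg_iff_add_eq_zero]; exact e3⟩

end ACCHI

open ACCHI in
theorem t_CHI (hKC : KC) : CHI := fun _ _ _ _ hd h =>
  have hm := kc_of hKC hd h
  ⟨fun _ h => chi_cl hm h, chi_mul hm, fun a => ⟨chi_sq hm a, chi_inv hm a, chi_od hm⟩,
    fun _ h b => chi_pr hm h b⟩

open ACCHI in
theorem t_TR2 (hKC : KC) (hH2A : H2A) (hH2B : H2B) : TR2 := by
  intro l _ d hd h0
  have hm := kc_of hKC hd dvd_rfl
  obtain ⟨c0, ho, -, -, -, hc, -, -, -, -, hl⟩ := hKC d hd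
  have first : IsOfFinAddOrder (ZC l d (R3.cd d * 2)) := by
    rcases Nat.even_or_odd' (R3.cd d) with ⟨c, e | e⟩
    · have h2 : 2 ∣ c := by
        obtain ⟨r, hr⟩ := ho
        omega
      have h3 := hl ⟨c, e⟩
      rw [mul_comm] at e
      rw [e] at h0 hm c0 h3 ⊢
      rw [Nat.mul_div_cancel _ two_pos] at h3
      rw [step0 hH2B hm ⟨left_ne_zero_of_mul c0, trivial⟩, sub_eq_add_neg]
      exact h0.zsmul.add (tors hm h2 h3).neg
    · obtain ⟨t, ht⟩ := stepA (l := l) hH2A hm ⟨c0, trivial⟩ ⟨c, e⟩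
      rw [ht]
      exact h0.zsmul
  have key : ∀ k : ℕ, IsOfFinAddOrder (ZC l d (2 ^ k * R3.cd d)) ∧
      IsOfFinAddOrder (ZC l d (2 ^ k * R3.cd d * 2)) := by
    intro k
    induction k with
    | zero =>
      rw [pow_zero, one_mul]
      exact ⟨h0, first⟩
    | succ k ih =>
      have e : 2 ^ (k + 1) * R3.cd d = 2 ^ k * R3.cd d * 2 := by ring
      have hcd : 2 ^ k * R3.cd d ≠ 0 := mul_ne_zero (by positivity) c0
      have hk := hm.mono (dvd_mul_left (R3.cd d) (2 ^ k))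
      rw [e, step0 hH2B (hk.mono (dvd_mul_right _ 2)) ⟨hcd, trivial⟩,
        ZC_pr hk (mul_ne_zero hcd two_ne_zero), sub_eq_add_neg]
      exact ⟨ih.2, ih.2.zsmul.add ih.1.nsmul.neg⟩
  rintro k c rfl
  exact (key k).1

end Pool.Agent.P.MP_8b7eba_nt.R2.G
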