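import Pool.Agent.P.MP_8b7eba_nt.R3.ACTRI
import Pool.Agent.P.MP_8b7eba_nt.R2.TH2

/-! Proof of H2A, H2B. -/

namespace Pool.Agent.P.MP_8b7eba_nt.R2.G

open scoped NNReal
open MP_9c97e9_nt (Pt pm Is ap)
open BSD15 (OO nm cj Adm)
open _root_.Pool.Agent.P.MP_8b7eba_nt.Mod (M2 G0 al)
open R1 (QF Hg emb Pz uu Rq)
open ACTRI RCA
open R2.TTRI (core card_fibre finsum_fibre)
open R2.TH2 (ker1 ker2 p2)

namespace ACH2

variable {l : ℕ} [Hl l] {c : ℕ}

theorem cd2 (hc : Cd c) : Cd (c * 2) :=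
  ⟨mul_ne_zero hc.1 two_ne_zero, trivial⟩

theorem gen (hT : TAU) (hc : Cd c) {I : Ideal (OO l)} (hI : Ad (c * 2) I) {κ : Type} [Fintype κ]
    (hk : Nat.card (pr (l := l) (Nat.dvd_mul_right c 2)).ker + Fintype.card κ = 3)
    {M M' : κ → Lt} {y : κ → ℂ} {T : κ → EO} (hM : Function.Injective M)
    (h1 : ∀ t, At (M t) (M' t) (y t) ∧ M t ≤ Lc c I ∧ M' t ≤ Lc c (I * nI l 15) ∧
      (M t).relIndex (Lc c I) = 2)
    (h2 : ∀ t, pm W15 io (T t) = Pz (y t))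
    (h3 : ∀ (t : κ) (μ : ℂ) (J : Ideal (OO l)), μ ≠ 0 → Ad (c * 2) J → M t ≠ sc μ (Lc (c * 2) J)) :
    ∑ᶠ b ∈ {b | pr (Nat.dvd_mul_right c 2) b = cl c I}, HP b =
      Mod.an 2 • HP (cl c I) - ∑ t, T t := by
  have hcq := cd2 hc
  have hI' : Ad c I := hI.mono (Nat.dvd_mul_right _ _)
  obtain ⟨N, N', hinj, hN, hP, hμ⟩ := fibre hT hcq hI
  have := finite_RC (l := l) hcq.1
  have hcard : Nat.card ({b // pr (Nat.dvd_mul_right c 2) b = cl c I} ⊕ κ) = 2 + 1 := by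
    rw [Nat.card_sum, Nat.card_eq_fintype_card (α := κ), card_fibre hcq.1 (cl c I), hk]
  have hat := at_hz hc hI'
  have hne : ∀ b t, N b ≠ M t := fun b t e => by
    obtain ⟨μ, h0, e'⟩ := hμ b
    exact h3 t μ _ h0 (rp_spec b.1).1 (e.symm.trans e')
  obtain ⟨S, e, -, h4, h5⟩ := core hat Nat.prime_two (by norm_num) hcard
    (N := Sum.elim N M) (N' := Sum.elim N' M') (y := Sum.elim (fun b => hz (c * 2) (rp b.1)) y)
    (T := Sum.elim (fun b => HP b.1) T)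
    (by
      rintro (b | t) (b' | t') e
      · rw [hinj e]
      · exact absurd e (hne b t')
      · exact absurd e.symm (hne b' t)
      · rw [hM e])
    (by
      rintro (b | t)
      · exact hN b
      · exact h1 t)
    (by
      rintro (b | t)
      · exact hP b
      · exact h2 t)
  rw [TFR.heckeE Nat.prime_two (by norm_num) hat.im (HP_cl hT hc hI') h4] at h5
  have := Fintype.ofFinite {b // pr (Nat.dvd_mul_right c 2) b = cl c I}
  rw [finsum_fibre, ← h5, finsum_eq_sum_of_fintype, finsum_eq_sum_of_fintype, Fintype.sum_sum_type]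
  simp only [Sum.elim_inl, Sum.elim_inr, add_sub_cancel_right]

end ACH2

open ACH2

theorem t_H2A (hCE : CE) : H2A := by
  intro l _ c hc ho
  have hA : CA := hCE.toCF.toCB.toCA
  obtain ⟨p, s0, s1, s2⟩ := p2 l
  have hp : Ad c p := ⟨s0, s1 ▸ Nat.coprime_two_left.2 ho⟩
  refine ⟨cl c p, fun a => ?_⟩
  obtain ⟨I, hI, rfl⟩ := exists_rep hc.1 a two_ne_zero
  have hI' : Ad c I := hI.mono (Nat.dvd_mul_right _ _)
  let Q : Bool → Ideal (OO l) := fun t => cond t p (cj p)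
  have hQ : ∀ t, Ad c (Q t) ∧ nm (Q t) = 2 := by
    rintro (_ | _)
    · exact ⟨hp.cj, (BSD15.nm_cj _).trans s1⟩
    · exact ⟨hp, s1⟩
  have hQi : Function.Injective Q := by
    rintro (_ | _) (_ | _) e
    · rfl
    · exact absurd e.symm s2
    · exact absurd e s2
    · rfl
  rw [gen hA.tau hc hI (κ := Bool) (by rw [ker1 hc.1 ho, Fintype.card_bool])
    (M := fun t => Lc c (I * Q t)) (M' := fun t => Lc c (I * Q t * nI l 15))
    (y := fun t => hz c (I * Q t)) (T := fun t => HP (cl c (I * Q t)))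
    (fun t t' e => hQi (mul_left_cancel₀ hI'.1 (Lc_inj (hI'.mul (hQ t).1) (hI'.mul (hQ t').1) e)))
    (fun t => ⟨at_hz hc (hI'.mul (hQ t).1), Lc_mono Ideal.mul_le_left dvd_rfl,
      Lc_mono (Ideal.mul_mono_left Ideal.mul_le_left) dvd_rfl,
      (Lc_relIndex hc.1 hI' (hQ t).1).trans (hQ t).2⟩)
    (fun t => HP_cl hA.tau hc (hI'.mul (hQ t).1))
    (fun t μ J h0 hJ e => by
      have := Lc_cond (hI'.mul (hQ t).1) hJ h0 e
      have := hc.1
      omega), Fintype.sum_bool]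
  simp only [Q, cond_true, cond_false, cl_mul hI' hp, cl_mul hI' hp.cj, cl_cj hp, mul_comm (cl c I)]
  abel

theorem t_H2B (hCE : CE) : H2B := by
  intro l _ c hc a
  have hA : CA := hCE.toCF.toCB.toCA
  obtain ⟨I, hI, rfl⟩ := exists_rep (cd2 hc).1 a two_ne_zero
  have hI' : Ad (c * 2) I := hI.mono (Nat.dvd_mul_right _ _)
  have hI0 : Ad c I := hI'.mono (Nat.dvd_mul_right _ _)
  have h2 : ((2 : ℕ) : ℂ) ≠ 0 := by norm_num
  have hi : (sc (2 : ℕ) (Lc c I)).relIndex (Lc (c * 2) I) = 2 := by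
    have := AddSubgroup.relIndex_mul_relIndex _ _ _ (sc_Lc_le c 2 I)
      (Lc_mono (I := I) le_rfl (Nat.dvd_mul_right c 2))
    rw [Lc_relIndex' (cd2 hc).1 hI', ((isL_Lc hc.1 hI0.1).sc_nat two_ne_zero).2] at this
    omega
  rw [gen hA.tau (cd2 hc) hI (κ := Unit) (by rw [ker2 hc.1, Fintype.card_unit])
    (M := fun _ => sc (2 : ℕ) (Lc c I)) (M' := fun _ => sc (2 : ℕ) (Lc c (I * nI l 15)))
    (y := fun _ => hz c I) (T := fun _ => HP (cl c I)) (fun _ _ _ => rfl)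
    (fun _ => ⟨(at_hz hc hI0).sc h2, sc_Lc_le c 2 I, sc_Lc_le c 2 _, hi⟩)
    (fun _ => HP_cl hA.tau hc hI0)
    (fun _ μ J h0 hJ e => by
      have e' : sc ((2 : ℕ) : ℂ)⁻¹ (sc (2 : ℕ) (Lc c I)) = _ := congrArg (sc ((2 : ℕ) : ℂ)⁻¹) e
      rw [sc_sc, sc_sc, inv_mul_cancel₀ h2, sc_one] at e'
      have := Lc_cond hI0 hJ (mul_ne_zero (inv_ne_zero h2) h0) e'
      have := hc.1
      omega), Fintype.sum_unique, pr_cl _ hI']

end Pool.Agent.P.MP_8b7eba_nt.R2.G
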