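import Pool.Agent.P.MP_8b7eba_nt.R3.AYCM
import Pool.Agent.P.MP_8b7eba_nt.R2.THE1

/-! Proof of HE1. -/

namespace Pool.Agent.P.MP_8b7eba_nt.R2.G

open scoped NNReal
open MP_9c97e9_nt (pm Is ap)
open BSD15 (OO Good nm cj)
open _root_.Pool.Agent.P.MP_8b7eba_nt.Mod (M2 G0 xx al)
open R1 (emb Dl psi Pz KF U8 IntPt y1)

namespace ACHE1

open R2.THE1 (isO r1 r2 r3 r4 r5 r6 r7 r8 r9 od_inv od_1 shf hom ar_one ar_inv ar_pow ar_div mem_map
  ac_HP cosets fiber)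

variable {P : Pre} {c : ℕ}

theorem NH_eq (hc : Cd c) (h : IsAr P c) :
    NH P c = ((Od P.l c).comap (hom h)).map P.GK.subtype := by
  rw [NH, if_pos hc, ← Subgroup.closure_eq (Subgroup.map _ _)]
  exact congrArg _ (Set.ext fun g => (mem_map h _).symm)

theorem mem_NH (hc : Cd c) (h : IsAr P c) {g : GQ} :
    g ∈ NH P c ↔ g ∈ P.GK ∧ ar P.l c g ∈ Od P.l c := by
  rw [NH_eq hc h, mem_map]

theorem on_NH (hc : Cd c) (h : IsAr P c) : ON (NH P c) := by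
  refine ⟨⟨fun g hg s => ?_⟩, ?_⟩
  · obtain ⟨h1, h2⟩ := (mem_NH hc h).1 hg
    refine (mem_NH hc h).2 ⟨P.on.1.conj_mem g h1 s, ?_⟩
    by_cases hs : s ∈ P.GK
    · rwa [h.mul _ (P.GK.mul_mem hs h1) _ (P.GK.inv_mem hs), h.mul _ hs _ h1, ar_inv h hs, r1]
    · rw [(h.dih s hs).2 g h1]
      exact od_inv h2
  · obtain ⟨N, hN, e⟩ := h.sm
    refine Subgroup.isOpen_mono (H₁ := N ⊓ P.GK) (fun g hg => (mem_NH hc h).2 ⟨hg.2, ?_⟩)
      (hN.inf P.on).2
    have := e 1 P.GK.one_mem g hg.2 hg.1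
    rw [one_mul, ar_one h] at this
    rw [this]
    exact od_1

theorem yH_eq {l : ℕ} [Hl l] (hc : Cd c) : yH l c = ∑ᶠ a : Od l c, HP a.1 := if_pos hc

theorem ac_yH (hc : Cd c) (h : IsAr P c) {g : GQ} (hg : g ∈ P.GK) :
    ac g (yH P.l c) = ∑ᶠ a : Od P.l c, HP ((ar P.l c g)⁻¹ * a.1) := by
  have := finite_RC (l := P.l) hc.1
  rw [yH_eq hc, (ac g).map_finsum (Set.toFinite _)]
  exact finsum_congr fun a => ac_HP h hg _

end ACHE1

open ACHE1
open R2.THE1 (isO r1 r2 r3 r4 r5 r6 r7 r8 r9 od_inv od_1 shf hom ar_one ar_inv ar_pow ar_div mem_map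
  ac_HP cosets fiber)

theorem t_HE1 (hE : CE) (hARX : ARX) : HE1 := by
  intro P c hc
  have h := hARX P c hc
  refine ⟨fun g => mem_NH hc h, on_NH hc h, fun g hg => ac_yH hc h hg, fun q hq => ?_⟩
  have h' := hARX P _ hq
  have := finite_RC (l := P.l) hc.1
  have := finite_RC (l := P.l) hq.1
  have hm : ∀ g, g ∈ NH P c ↔ g ∈ P.GK ∧
      ar P.l (c * q) g ∈ (Od P.l c).comap (pr (Nat.dvd_mul_right c q)) := fun g => by
    rw [mem_NH hc h]
    exact and_congr_right fun hg => by rw [Subgroup.mem_comap, h'.pr c _ g hg]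
  have hle : Od P.l (c * q) ≤ (Od P.l c).comap (pr (Nat.dvd_mul_right c q)) :=
    fun x hx => pr_Od _ hx
  refine ⟨fun g hg => (hm g).2 (((mem_NH hq h').1 hg).imp_right fun k => hle k), ?_, ?_,
    fun M _ f x => ?_⟩
  · rw [show NH P c = _ from Subgroup.ext fun g => (hm g).trans (mem_map h' _).symm, NH_eq hq h',
      Subgroup.relIndex_map_map_of_injective _ _ P.GK.subtype_injective, Subgroup.relIndex_comap,
      Subgroup.map_comap_eq_self_of_surjective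
        (fun a => let ⟨g, h1, h2⟩ := h'.surj a; ⟨⟨g, h1⟩, h2⟩), (isO _).rel (isO c)]
  · have k : ∀ i, Nrm.ro (NH P c) (NH P (c * q)) i ∈ P.GK := fun i => ((hm _).1 (Nrm.ro_mem i)).1
    refine ((finsum_congr fun i => ac_yH hq h' (k i)).trans (cosets (G := RC P.l (c * q)) hle
      (fun i => ar P.l (c * q) (Nrm.ro (NH P c) (NH P (c * q)) i))
      (fun i => ((hm _).1 (Nrm.ro_mem i)).2) (fun i j e => Nrm.ro_inj ?_) (fun x hx => ?_) HP)).trans
      (fiber (G := RC P.l (c * q)) (G₀ := RC P.l c) (Od P.l c) _ HP).symm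
    · exact (mem_NH hq h').2 ⟨P.GK.mul_mem (P.GK.inv_mem (k i)) (k j), by
        rwa [ar_div h' (k i) (k j)]⟩
    · obtain ⟨g, h1, rfl⟩ := h'.surj x
      obtain ⟨i, hi⟩ := Nrm.ro_surj (H' := NH P (c * q)) ((hm g).2 ⟨h1, hx⟩)
      exact ⟨i, by rw [← ar_div h' (k i) h1]; exact ((mem_NH hq h').1 hi).2⟩
  · exact (finsum_congr fun b : Od P.l (c * q) =>
      congrArg f ((pr (l := P.l) (Nat.dvd_mul_right c q)).map_mul x b.1)).trans
      ((isO _).sum (isO c) (pr_surj _ hq.1) fun a => f (pr (Nat.dvd_mul_right c q) x * a))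

end Pool.Agent.P.MP_8b7eba_nt.R2.G
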