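import Pool.Agent.P.MP_8b7eba_nt.R3.ACHE1
import Pool.Agent.P.MP_8b7eba_nt.R2.TNV2B

/-! Proof of HEX. -/

namespace Pool.Agent.P.MP_8b7eba_nt.R2.G

open scoped NNReal
open MP_9c97e9_nt (pm Is ap)
open BSD15 (OO Good nm cj)
open ACHE1
open R2.THE1 (r1 r2 r3 r4 r5 r7 r8 r9 od_inv od_1 shf ar_inv ar_pow ar_div ac_HP)

theorem t_HEX (hE : CE) (hKC : KC) (hARX : ARX) (hARL : ARL) (hCHI : CHI) (hGEN2 : GEN2)
    (hTRI : TRI) (hTRS : TRS) (hTRB : TRB) (hHE1 : HE1) (hHEX : R2.HEX) (hJPX : JPX) : HEX := by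
  intro P a hAn hP
  have hA : CA := hE.toCA
  have neg : ∀ {c}, ¬ Cd c → NH P.toPre c = P.GK := fun h => if_neg h
  have mem : ∀ {c}, Cd c → ∀ {g}, g ∈ NH P.toPre c ↔ g ∈ P.GK ∧ ar P.l c g ∈ Od P.l c :=
    fun hc => mem_NH hc (hARX _ _ hc)
  have gen : ∀ (d : ℤ) (δ : Om) (c : ℕ), Squarefree d → δ ^ 2 = d → Cd c → R3.cd d ∣ c →
      ∀ g ∈ P.GK, ar P.l c g ∈ Od P.l c → g δ = δ := fun d δ c h1 h2 h3 h4 g h5 h6 => by
    have h7 := hGEN2 _ d δ c h1 h2 h3 h4 g h5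
    rw [((hCHI P.l d c h1 h4).2.2.1 _).2.2 h6, sd] at h7
    by_contra e
    rw [if_neg e] at h7
    omega
  refine ⟨fun g hg h1 h2 => ?_, {
    N := NH P.toPre
    y := yH P.l
    on := fun c => ?_
    le := fun c g hg => ?_
    one := ?_
    anti := ?_
    ab := fun c g hg k hk => ?_
    two := fun c g hg => ?_
    dih := fun c g hg => ?_
    unr := fun c w _ h g hg => ?_
    fix := fun c g hg => ?_
    pow := fun M g => ?_
    gen := fun g hg => ?_
    inert := fun c w F _ h0 h2 hF hK => ?_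
    split := fun c w F _ _ h0 h2 h3 h30 hF => ?_
    bad := fun c w F h0 h2 h3 hF => ?_ }, rfl, rfl, ?_⟩
  · obtain ⟨s, h3, h4⟩ := TNV2.sqrt_two hA.ec hA.lg
    have h5 := gen 2 s (2 ^ (1 + 2)) Int.prime_two.squarefree h3 (cd_two_pow _)
      (by norm_num [R3.cd, R3.ds]) g hg ((hP 1 g hg).2 ⟨by rwa [pow_one], h2⟩)
    have h6 := (hA.lg.1.dvd 1 (cyc g)).1 (by rw [pow_one]; exact (h4 g).1 h5)
    rw [show (2 : ℤ_[2]) ^ (1 + 2) = 8 by norm_num] at h6
    refine h6.resolve_right fun h7 => ?_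
    have h8 : (4 : ℤ_[2]) ∣ 2 := by
      have := dvd_sub ((show (4 : ℤ_[2]) ∣ 8 from ⟨2, by norm_num⟩).trans h7) h2
      rwa [show (cyc g : ℤ_[2]) + 1 - (cyc g - 1) = 2 by ring] at this
    have h9 : (((2 : ℕ) : ℤ) ^ 2) ∣ 2 := by
      rw [← PadicInt.pow_p_dvd_int_iff]
      simpa [show (2 : ℤ_[2]) ^ 2 = 4 by norm_num] using h8
    omega
  · by_cases hc : Cd c
    · exact on_NH hc (hARX P.toPre _ hc)
    · rw [neg hc]
      exact P.on
  · by_cases hc : Cd c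
    · exact ((mem hc).1 hg).1
    · rwa [neg hc] at hg
  · refine Subgroup.ext fun g => ?_
    rw [mem ⟨one_ne_zero, trivial⟩, od_one]
    exact and_iff_left trivial
  · rintro c _ ⟨q, rfl⟩ _ h0
    exact ((hHE1 P.toPre c ⟨left_ne_zero_of_mul h0, trivial⟩).2.2.2 q ⟨h0, trivial⟩).1
  · have e1 := P.GK.mul_mem hg hk
    have e2 := P.GK.mul_mem e1 (P.GK.inv_mem hg)
    have e3 := P.GK.mul_mem e2 (P.GK.inv_mem hk)
    by_cases hc : Cd c
    · have h := hARX P.toPre _ hc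
      refine (mem hc).2 ⟨e3, ?_⟩
      rw [h.mul _ e2 _ (P.GK.inv_mem hk), h.mul _ e1 _ (P.GK.inv_mem hg), h.mul _ hg _ hk,
        ar_inv h hg, ar_inv h hk, r1, r5]
      exact od_1
    · rwa [neg hc]
  · by_cases hc : Cd c
    · obtain ⟨k, hk⟩ := exists_pow_Od hc.1 (ar P.l c g)
      exact ⟨k, (mem hc).2 ⟨P.GK.pow_mem hg _, by rwa [ar_pow (hARX P.toPre _ hc) hg]⟩⟩
    · exact ⟨0, by rw [neg hc]; exact P.GK.pow_mem hg _⟩
  · by_cases hc : Cd c
    · refine (mem hc).2 ⟨P.mul_mem hg hg, ?_⟩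
      rw [((hARX P.toPre _ hc).dih g hg).1]
      exact od_1
    · rw [neg hc]
      exact P.mul_mem hg hg
  · by_cases hc : Cd c
    · exact (mem hc).2 ⟨hg.2, (hARL P.toPre c w hc).1 h g hg⟩
    · rw [neg hc]
      exact hg.2
  · by_cases hc : Cd c
    · obtain ⟨k1, k2⟩ := (mem hc).1 hg
      rw [ac_yH hc (hARX P.toPre _ hc) k1, shf HP (y := 1) (by rwa [r4, r8]), yH_eq hc]
      simp only [r2]
    · rw [show yH P.l c = 0 from if_neg hc, map_zero]
  · rw [mem (cd_two_pow _)]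
    exact and_congr_right fun hg => hP M g hg
  · obtain ⟨-, k1, k2, -⟩ := hKC P.m P.hy.sq
    have hc : Cd (8 * R3.od P.m) := ⟨by have := k1.pos; omega, trivial⟩
    exact gen _ _ _ P.hy.sq P.hdm hc k2 g ((mem hc).1 hg).1 ((mem hc).1 hg).2
  · have hc : Cd c := ⟨h0, trivial⟩
    have hq : Cd (c * w.p) := ⟨mul_ne_zero h0 w.prime.ne_zero, trivial⟩
    have h := hARX P.toPre _ hc
    have h' := hARX P.toPre _ hq
    have := finite_RC (l := P.l) hc.1
    have := finite_RC (l := P.l) hq.1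
    have hD : ¬ w.D ≤ P.GK := fun e => hK (e hF.1)
    have hl : w.p ≠ P.l := fun e => h2 ⟨30 * c, by rw [e]; ring⟩
    have hk : Nat.card (pr (l := P.l) (Nat.dvd_mul_right c w.p)).ker = w.p + 1 := by
      have := card_ker (l := P.l) h0 w.prime (fun e => h2 ⟨15 * P.l * c, by rw [e]; ring⟩)
        fun e => h2 (e.mul_left _)
      rw [(D_le_iff hA fun e => h2 (e.trans ⟨15 * c, by ring⟩)).2.1 hD] at this
      omega
    obtain ⟨-, k1, k2, k3⟩ := (hHE1 P.toPre c hc).2.2.2 _ hq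
    rw [hk] at k1 k3
    refine ⟨k1, fun g hg => ?_, ?_, fun g hg => ?_⟩
    · obtain ⟨g1, g2⟩ := (mem hc).1 hg
      obtain ⟨i, i1, i2⟩ := (hARL P.toPre c w hc).2.2 h2 hD (ar P.l _ g) (by rwa [h'.pr c _ g g1])
      have i3 := I_le_GK hA hl i1
      exact ⟨i, i1, (mem hq).2 ⟨P.GK.mul_mem (P.GK.inv_mem i3) g1, by rwa [ar_div h' i3 g1]⟩⟩
    · rw [k2, yH_eq hc, smul_finsum' _ (Set.toFinite _)]
      exact finsum_congr fun b => (hTRI P.toPre c w b hc h2 hD).1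
    · have k4 := k3 EO HP (ar P.l _ g)⁻¹
      rw [r9, h'.pr c _ g hg, ← ac_yH hc h hg] at k4
      rw [← k4, ac_mul, ac_yH hq h' hg, (ac F).map_finsum (Set.toFinite _),
        ← finsum_sub_distrib (Set.toFinite _) (Set.toFinite _)]
      refine finsum_induction (E1 w) (hE.e1g w).1 (hE.e1g w).2.2.1 fun b =>
        (hTRI P.toPre c w _ hc h2 hD).2 F hF ?_ _ rfl
      rw [← ac_mul, ac_HP h (P.mul_mem hK hK), (h.dih F hK).1, r3, r2]
  · have hc : Cd c := ⟨h0, trivial⟩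
    have h3' := P.sub _ w.prime h3 h30
    have h4 : ¬ w.p ∣ 30 * P.l := fun e => (w.prime.dvd_mul.1 e).elim h30 fun e =>
      w.prime.one_lt.ne' (Nat.isUnit_iff.1 (Int.ofNat_isUnit.1
        (P.cop.isUnit_of_dvd' h3' ((Int.natCast_dvd_natCast.2 e).mul_left _))))
    have h5 : ¬ w.p ∣ 30 * P.l * c := fun e => (w.prime.dvd_mul.1 e).elim h4 h2
    have hq : Cd (c * w.p) := ⟨mul_ne_zero h0 w.prime.ne_zero, trivial⟩
    have h := hARX P.toPre _ hc
    have := finite_RC (l := P.l) hc.1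
    have hD : w.D ≤ P.GK := (hE.karith P.toPre).2.2.2.1 w (h3'.mul_left _)
    have hK := hD hF.1
    have k := (hARL P.toPre c w hc).2.1 (fun e => h5 (e.trans ⟨15, by ring⟩)) F hK hF
    rw [((hHE1 P.toPre c hc).2.2.2 _ hq).2.2.1, ac_yH hc h hK, ac_yH hc h (P.GK.inv_mem hK), ar_inv h hK,
      r4, shf HP k, shf HP (y := (cl c (pw P.l w))⁻¹)
        (by rw [← r7]; exact od_inv k), yH_eq hc,
      smul_finsum' _ (Set.toFinite _), sub_right_comm,
      ← finsum_sub_distrib (Set.toFinite _) (Set.toFinite _),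
      ← finsum_sub_distrib (Set.toFinite _) (Set.toFinite _)]
    exact finsum_congr fun b => hTRS P.toPre c w b hc h5 hD
  · have hc : Cd c := ⟨h0, trivial⟩
    have hq : Cd (c * w.p) := ⟨mul_ne_zero h0 w.prime.ne_zero, trivial⟩
    have h := hARX P.toPre _ hc
    have := finite_RC (l := P.l) hc.1
    have hD : w.D ≤ P.GK := (hE.karith P.toPre).2.2.2.1 w
      (((Int.natCast_dvd_natCast.2 h3).trans (by norm_num)).mul_right _)
    have hK := hD hF.1
    have h5 : ¬ w.p ∣ 2 * c * P.l := fun e => by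
      rcases w.prime.dvd_mul.1 e with e | e
      · refine (w.prime.dvd_mul.1 e).elim (fun e => ?_) h2
        rw [(Nat.prime_dvd_prime_iff_eq w.prime Nat.prime_two).1 e] at h3
        exact absurd h3 (by norm_num)
      · rw [(Nat.prime_dvd_prime_iff_eq w.prime P.lp).1 e] at h3
        have := Nat.le_of_dvd (by norm_num) h3
        have := P.l16
        rw [show P.l = 7 by omega] at h3
        exact absurd h3 (by norm_num)
    have k := (hARL P.toPre c w hc).2.1 h5 F hK hF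
    obtain ⟨t, ht, x, hx, e⟩ := hTRB P.toPre c w hc h3 h2
    have e1 : csum (NH P.toPre c) (NH P.toPre (c * w.p)) (fun s => ac s (yH P.l (c * w.p))) =
        t • yH P.l c - ∑ᶠ a : Od P.l c, HP (x * a.1) := by
      rw [((hHE1 P.toPre c hc).2.2.2 _ hq).2.2.1, yH_eq hc, smul_finsum' _ (Set.toFinite _),
        ← finsum_sub_distrib (Set.toFinite _) (Set.toFinite _)]
      exact finsum_congr fun b => e b
    rcases hx with rfl | rfl
    · refine ⟨t, ht, _, Or.inr rfl, e1.trans ?_⟩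
      rw [ac_yH hc h (P.GK.inv_mem hK), ar_inv h hK, r4, shf HP k]
    · refine ⟨t, ht, _, Or.inl rfl, e1.trans ?_⟩
      rw [ac_yH hc h hK, shf HP (x := (ar P.l c F)⁻¹) (y := (cl c (pw P.l w))⁻¹)
        (by rw [← r7]; exact od_inv k)]
  · obtain ⟨H, -, hy⟩ := hHEX P.toPre a hP
    obtain ⟨M₀, h⟩ := hJPX P.toPre a H hAn hP hy
    refine ⟨M₀, fun M hM => ?_⟩
    have e : H.y (2 ^ (M + 2)) = yH P.l (2 ^ (M + 2)) := by
      rw [hy, yH_eq (cd_two_pow _), THE1.yH_eq (R2.cd_two_pow _)]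
    have h1 := h M hM
    rw [e] at h1
    exact h1

end Pool.Agent.P.MP_8b7eba_nt.R2.G
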