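import Pool.Agent.P.MP_8b7eba_nt.R3.AY

namespace Pool.Agent.P.MP_8b7eba_nt.R2.G

namespace ACKC

theorem jac {d : ℤ} (h4 : d % 4 = 1) {p : ℕ} (hp : Odd p) :
    jacobiSym p d.natAbs = jacobiSym d p := by
  have ho := Nat.odd_iff.1 hp
  rcases d.natAbs_eq with e | e
  · conv_rhs => rw [e]
    exact (jacobiSym.quadratic_reciprocity_one_mod_four (by omega) hp).symm
  · conv_rhs => rw [e]
    have h3 : d.natAbs % 4 = 3 := by omega
    rw [jacobiSym.neg _ hp]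
    rcases (show p % 4 = 1 ∨ p % 4 = 3 by omega) with e | e
    · rw [jacobiSym.quadratic_reciprocity_one_mod_four e (Nat.odd_iff.2 (by omega)),
        ZMod.χ₄_nat_one_mod_four e, one_mul]
    · rw [jacobiSym.quadratic_reciprocity_three_mod_four e h3, ZMod.χ₄_nat_three_mod_four e,
        neg_one_mul]

theorem struct {d : ℤ} (hd : Squarefree d) : ∃ s : ℤ, s % 4 = 1 ∧ s.natAbs = R3.od d ∧
    d = R3.e2 d * s ∧ ((R3.e2 d = 1 ∧ R3.cd d = R3.od d) ∨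
      (R3.e2 d = -1 ∧ R3.cd d = 4 * R3.od d) ∨
      ((R3.e2 d = 2 ∨ R3.e2 d = -2) ∧ R3.cd d = 8 * R3.od d)) := by
  have h4 : d % 4 ≠ 0 := fun h => by
    have := hd 2 (Int.dvd_of_emod_eq_zero (by simpa using h))
    rw [Int.isUnit_iff] at this
    omega
  have hs : R1.st (R3.od d) % 4 = 1 ∧ (R1.st (R3.od d)).natAbs = R3.od d := by
    unfold R1.st R3.od
    split_ifs <;> omega
  have key : ∀ e : ℤ, d = e * R1.st (R3.od d) → R3.e2 d = e := by
    intro e he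
    unfold R3.e2
    conv_lhs => arg 1; rw [he]
    exact Int.mul_ediv_cancel _ (by omega)
  have hc : (d = 1 * R1.st (R3.od d) ∧ R3.cd d = R3.od d) ∨
      (d = -1 * R1.st (R3.od d) ∧ R3.cd d = 4 * R3.od d) ∨
      ((d = 2 * R1.st (R3.od d) ∨ d = -2 * R1.st (R3.od d)) ∧ R3.cd d = 8 * R3.od d) := by
    unfold R3.cd R3.ds R1.st R3.od
    split_ifs <;> omega
  refine ⟨R1.st (R3.od d), hs.1, hs.2, ?_⟩
  rcases hc with ⟨a, b⟩ | ⟨a, b⟩ | ⟨a | a, b⟩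
  · exact ⟨by rw [key _ a]; exact a, Or.inl ⟨key _ a, b⟩⟩
  · exact ⟨by rw [key _ a]; exact a, Or.inr (Or.inl ⟨key _ a, b⟩)⟩
  · exact ⟨by rw [key _ a]; exact a, Or.inr (Or.inr ⟨Or.inl (key _ a), b⟩)⟩
  · exact ⟨by rw [key _ a]; exact a, Or.inr (Or.inr ⟨Or.inr (key _ a), b⟩)⟩

theorem c2_one (x : ℤ) : R3.c2 1 x = 1 := if_pos rfl

theorem c2_neg (x : ℤ) : R3.c2 (-1) x = ZMod.χ₄ (x : ZMod 4) := by simp [R3.c2]

theorem c2_two (x : ℤ) : R3.c2 2 x = ZMod.χ₈ (x : ZMod 8) := by simp [R3.c2]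

theorem c2_neg_two (x : ℤ) : R3.c2 (-2) x = ZMod.χ₈' (x : ZMod 8) := by simp [R3.c2]

theorem c2_mul (e x y : ℤ) : R3.c2 e (x * y) = R3.c2 e x * R3.c2 e y := by
  unfold R3.c2
  split_ifs <;> simp only [mul_one, Int.cast_mul, map_mul]

theorem cast_eq {n : ℕ} {x y : ℤ} (h : (n : ℤ) ∣ x - y) : (x : ZMod n) = (y : ZMod n) :=
  ((ZMod.intCast_eq_intCast_iff_dvd_sub y x n).2 h).symm

theorem odd_cases {x : ℤ} (h : x % 2 = 1) : ∃ r : ℤ, (r = 1 ∨ r = 3 ∨ r = 5 ∨ r = 7) ∧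
    (x : ZMod 4) = (r : ZMod 4) ∧ (x : ZMod 8) = (r : ZMod 8) :=
  ⟨x % 8, by omega, cast_eq (by omega), cast_eq (by omega)⟩

theorem c2_sq (e : ℤ) {x : ℤ} (h : x % 2 = 1) : R3.c2 e x * R3.c2 e x = 1 := by
  obtain ⟨r, hr, h4, h8⟩ := odd_cases h
  unfold R3.c2
  rw [h4, h8]
  rcases hr with rfl | rfl | rfl | rfl <;> split_ifs <;> decide

/-- the square clause for integers that are coprime to the conductor in the ring of integers -/
theorem kc_sq {d : ℤ} (hd : Squarefree d) (x : ℤ) (h : IsCoprime x (R3.cd d : ℤ)) :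
    R3.kc d x * R3.kc d x = 1 := by
  obtain ⟨s, h4, hs, hds, hc⟩ := struct hd
  have hoc : (R3.od d : ℤ) ∣ R3.cd d := by
    rcases hc with ⟨-, b⟩ | ⟨-, b⟩ | ⟨-, b⟩ <;> rw [b] <;> simp
  unfold R3.kc
  have h0 : IsCoprime x (R3.od d : ℤ) := h.of_isCoprime_of_dvd_right hoc
  have h1 := jacobiSym.sq_one (Int.isCoprime_iff_gcd_eq_one.1 h0)
  have h2 : R3.c2 (R3.e2 d) x * R3.c2 (R3.e2 d) x = 1 := by
    by_cases hx : x % 2 = 1
    · exact c2_sq _ hx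
    · have h3 : ¬ (2 : ℤ) ∣ R3.cd d := fun h3 => by
        have := h.isUnit_of_dvd' (x := 2) (by omega) h3
        rw [Int.isUnit_iff] at this
        omega
      rcases hc with ⟨a, -⟩ | ⟨-, b⟩ | ⟨-, b⟩
      · rw [a, c2_one, one_mul]
      · omega
      · omega
  rw [mul_mul_mul_comm, h2, ← sq, h1, mul_one]

end ACKC

open ACKC in
theorem t_KC : KC := by
  intro d hd
  obtain ⟨s, h4, hs, hds, hc⟩ := struct hd
  have ho : R3.od d % 2 = 1 := by omega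
  have hsd : s ∣ d := ⟨R3.e2 d, by rw [mul_comm]; exact hds⟩
  have hoc : (R3.od d : ℤ) ∣ R3.cd d := by
    rcases hc with ⟨-, b⟩ | ⟨-, b⟩ | ⟨-, b⟩ <;> rw [b] <;> simp
  refine ⟨by omega, Nat.odd_iff.2 ho, ?_, fun p hp h2 => ?_, ?_, by omega, fun x y => ?_,
    fun x y h => ?_, fun x h => ?_, fun p hp h2 => ?_, fun h x hx => ?_⟩
  · rcases hc with ⟨-, b⟩ | ⟨-, b⟩ | ⟨-, b⟩ <;> rw [b]
    · exact Dvd.intro_left 8 rfl
    · exact ⟨2, by ring⟩
  · rw [← hs, ← Int.natCast_dvd]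
    refine ⟨fun h => h.trans hsd, fun h => ?_⟩
    rw [hds] at h
    refine ((Nat.prime_iff_prime_int.1 hp).dvd_or_dvd h).resolve_left fun h' => h2 ?_
    have h8 : (p : ℤ) ∣ 2 := by
      rcases hc with ⟨a, -⟩ | ⟨a, -⟩ | ⟨a | a, -⟩ <;> rw [a] at h'
      · exact h'.trans (one_dvd _)
      · exact (dvd_neg.1 h').trans (one_dvd _)
      · exact h'
      · exact dvd_neg.1 h'
    exact (Nat.prime_dvd_prime_iff_eq hp Nat.prime_two).1 (by exact_mod_cast h8)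
  · rw [← hs, Int.squarefree_natAbs]
    exact hd.squarefree_of_dvd hsd
  · unfold R3.kc
    rw [jacobiSym.mul_left, c2_mul]
    ring
  · unfold R3.kc
    rw [jacobiSym.mod_left'
      (Int.emod_eq_emod_iff_emod_sub_eq_zero.2 (Int.emod_eq_zero_of_dvd (hoc.trans h)))]
    congr 1
    rcases hc with ⟨a, b⟩ | ⟨a, b⟩ | ⟨a | a, b⟩ <;> rw [a] <;> rw [b] at h <;> push_cast at h
    · rfl
    · rw [c2_neg, c2_neg, cast_eq (n := 4) ((Dvd.intro _ rfl).trans h)]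
    · rw [c2_two, c2_two, cast_eq (n := 8) ((Dvd.intro _ rfl).trans h)]
    · rw [c2_neg_two, c2_neg_two, cast_eq (n := 8) ((Dvd.intro _ rfl).trans h)]
  · exact kc_sq hd x (by simpa using h.map (Nat.castRingHom ℤ))
  · have hp' : Odd p := hp.odd_of_ne_two h2
    unfold R3.kc
    rw [← hs, jac h4 hp']
    conv_rhs => rw [hds, jacobiSym.mul_left, mul_comm]
    congr 1
    rcases hc with ⟨a, -⟩ | ⟨a, -⟩ | ⟨a | a, -⟩ <;> rw [a]
    · rw [c2_one, jacobiSym.one_left]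
    · rw [c2_neg, jacobiSym.at_neg_one hp', Int.cast_natCast]
    · rw [c2_two, jacobiSym.at_two hp', Int.cast_natCast]
    · rw [c2_neg_two, jacobiSym.at_neg_two hp', Int.cast_natCast]
  · unfold R3.kc
    have h1 : (R3.od d : ℤ) ∣ x - 1 := by
      have h2 : (R3.od d : ℤ) ∣ (R3.cd d / 2 : ℕ) := by
        rcases hc with ⟨-, b⟩ | ⟨-, b⟩ | ⟨-, b⟩
        · omega
        · exact ⟨2, by omega⟩
        · exact ⟨4, by omega⟩
      have := (hoc.trans hx).add h2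
      rwa [show x - (1 + ((R3.cd d / 2 : ℕ) : ℤ)) + ((R3.cd d / 2 : ℕ) : ℤ) = x - 1 by ring] at this
    rw [jacobiSym.mod_left' (Int.emod_eq_emod_iff_emod_sub_eq_zero.2 (Int.emod_eq_zero_of_dvd h1)),
      jacobiSym.one_left, one_mul]
    rcases hc with ⟨-, b⟩ | ⟨a, b⟩ | ⟨a | a, b⟩
    · omega
    · have h3 : (4 : ℤ) ∣ R3.cd d := by omega
      have h5 := h3.trans hx
      rw [a, c2_neg, cast_eq (n := 4) (y := 3) (by omega)]
      decide
    · have h3 : (8 : ℤ) ∣ R3.cd d := by omega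
      have h5 := h3.trans hx
      rw [a, c2_two, cast_eq (n := 8) (y := 5) (by omega)]
      decide
    · have h3 : (8 : ℤ) ∣ R3.cd d := by omega
      have h5 := h3.trans hx
      rw [a, c2_neg_two, cast_eq (n := 8) (y := 5) (by omega)]
      decide

end Pool.Agent.P.MP_8b7eba_nt.R2.G
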