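import Pool.Agent.P.MP_8b7eba_nt.R3.AY

/-! The auxiliary data exist. -/

namespace Pool.Agent.P.MP_8b7eba_nt.R2.G

namespace ACPRG

theorem jac {l q : ℕ} (hl : l % 4 = 3) (hq : q % 2 = 1) (h : q ≡ 1 [MOD l]) :
    jacobiSym (-l) q = 1 := by
  have e : jacobiSym q l = 1 := by
    have h' : (q : ℤ) % l = 1 % l := by exact_mod_cast h
    rw [jacobiSym.mod_left' h', jacobiSym.one_left]
  rw [jacobiSym.neg _ (Nat.odd_iff.2 hq)]
  rcases (show q % 4 = 1 ∨ q % 4 = 3 by omega) with e4 | e4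
  · rw [← jacobiSym.quadratic_reciprocity_one_mod_four e4 (Nat.odd_iff.2 (by omega)), e,
      ZMod.χ₄_nat_one_mod_four e4, one_mul]
  · rw [jacobiSym.quadratic_reciprocity_three_mod_four hl e4, e,
      ZMod.χ₄_nat_three_mod_four e4]
    norm_num

theorem aux {l : ℕ} {d : ℤ} (H : R3.Hy l d) : ∃ n : ℕ, Squarefree n ∧ n % 8 = 5 ∧
    (∀ p : ℕ, p.Prime → p ∣ n → ¬ p ∣ 30 ∧ jacobiSym (-l) p = 1) ∧
    ∀ p : ℕ, p.Prime → (p : ℤ) ∣ d → ¬ p ∣ 30 → p ∣ n := by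
  have hd0 : d.natAbs ≠ 0 := Int.natAbs_ne_zero.2 H.sq.ne_zero
  have hl16 := H.l16
  set S := d.natAbs.primeFactors.filter fun p => ¬ p ∣ 30 with hS
  have hSp : ∀ p ∈ S, p.Prime ∧ p ∣ d.natAbs ∧ ¬ p ∣ 30 := fun p hp => by
    rw [hS, Finset.mem_filter, Nat.mem_primeFactors] at hp
    exact ⟨hp.1.1, hp.1.2.1, hp.2⟩
  set n := ∏ p ∈ S, p with hn
  have hmem : ∀ p : ℕ, p.Prime → p ∣ n → p ∈ S := fun p hp h => by
    obtain ⟨r, hr, h'⟩ := (Prime.dvd_finsetProd_iff hp.prime _).1 h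
    rwa [(Nat.prime_dvd_prime_iff_eq hp (hSp r hr).1).1 h']
  have hsq : Squarefree n := by
    refine Squarefree.squarefree_of_dvd ?_ (Int.squarefree_natAbs.2 H.sq)
    refine dvd_trans ?_ (Nat.prod_primeFactors_dvd d.natAbs)
    exact Finset.prod_dvd_prod_of_subset _ _ _ (Finset.filter_subset _ _)
  have hodd : n % 2 = 1 := by
    rcases Nat.mod_two_eq_zero_or_one n with h | h
    · exact absurd (by norm_num)
        (hSp 2 (hmem 2 Nat.prime_two (Nat.dvd_of_mod_eq_zero h))).2.2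
    · exact h
  have hc : Nat.Coprime 8 l := by
    have : Nat.Coprime 2 l := (Nat.coprime_two_left).2 (Nat.odd_iff.2 (by omega))
    exact Nat.Coprime.pow_left 3 this
  obtain ⟨a, ha8, hal⟩ := Nat.chineseRemainder hc (5 * n) 1
  have ha8' : a % 8 = 5 * n % 8 := ha8
  have hac : a.Coprime (8 * l) := by
    refine Nat.Coprime.mul_right ?_ ?_
    · have : Nat.Coprime a 2 := (Nat.coprime_two_right).2 (Nat.odd_iff.2 (by omega))
      exact Nat.Coprime.pow_right 3 this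
    · rw [Nat.Coprime, hal.gcd_eq]
      simp
  obtain ⟨q, hqb, hqp, hq⟩ := Nat.forall_exists_prime_gt_and_modEq (d.natAbs + 30)
    (q := 8 * l) (a := a) (by omega) hac
  have hq8 : q % 8 = 5 * n % 8 := by
    have : q ≡ a [MOD 8] := hq.of_mul_right l
    exact Eq.trans this ha8'
  have hql : q ≡ 1 [MOD l] := (hq.of_mul_left 8).trans hal
  have hqn : ¬ q ∣ n := fun h =>
    absurd (Nat.le_of_dvd (Nat.pos_of_ne_zero hd0) (hSp q (hmem q hqp h)).2.1) (by omega)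
  refine ⟨n * q, ?_, ?_, fun p hp h => ?_, fun p hp h h' => ?_⟩
  · rw [Nat.squarefree_mul_iff]
    exact ⟨((Nat.Prime.coprime_iff_not_dvd hqp).2 hqn).symm, hsq, hqp.prime.squarefree⟩
  · rw [Nat.mul_mod, hq8]
    rcases (show n % 8 = 1 ∨ n % 8 = 3 ∨ n % 8 = 5 ∨ n % 8 = 7 by omega) with e | e | e | e <;>
      rw [Nat.mul_mod 5, e]
  · rcases (Nat.Prime.dvd_mul hp).1 h with h | h
    · obtain ⟨-, h1, h2⟩ := hSp p (hmem p hp h)
      refine ⟨h2, H.spl p hp (fun e => h2 (by rw [e]; norm_num)) ?_⟩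
      exact Dvd.dvd.mul_left (Int.natCast_dvd.2 h1) 15
    · rw [(Nat.prime_dvd_prime_iff_eq hp hqp).1 h]
      exact ⟨fun h' => absurd (Nat.le_of_dvd (by norm_num) h') (by omega),
        jac (by omega) (by omega) hql⟩
  · refine Dvd.dvd.mul_right (Finset.dvd_prod_of_mem _ ?_) q
    rw [hS, Finset.mem_filter, Nat.mem_primeFactors]
    exact ⟨⟨hp, Int.natCast_dvd.1 h, hd0⟩, h'⟩

end ACPRG

theorem t_PRG : PRG := by
  intro w l d dl sk hw H hdl hsk
  obtain ⟨n, hsq, h8, hp, hs⟩ := ACPRG.aux H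
  obtain ⟨z, hz⟩ := IsAlgClosed.exists_pow_nat_eq ((n : ℤ) : Om) two_pos
  have hcop : IsCoprime (n : ℤ) (15 * l) := by
    have : Nat.Coprime n (15 * l) := by
      refine Nat.coprime_of_dvd fun p pp h1 h2 => ?_
      obtain ⟨a1, a2⟩ := hp p pp h1
      rcases (Nat.Prime.dvd_mul pp).1 h2 with h | h
      · exact a1 (h.trans (by norm_num))
      · rw [(Nat.prime_dvd_prime_iff_eq pp H.lp).1 h, jacobiSym.mod_left] at a2
        simp [jacobiSym.zero_left H.lp.one_lt] at a2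
    exact_mod_cast Nat.isCoprime_iff_coprime.2 this
  have hspl : ∀ p : ℕ, p.Prime → (p : ℤ) ∣ 15 * (n : ℤ) → jacobiSym (-l) p = 1 := by
    intro p pp h
    have h' : p ∣ 15 * n := by exact_mod_cast h
    rcases (Nat.Prime.dvd_mul pp).1 h' with h | h
    · refine H.spl p pp (fun e => ?_) (Dvd.dvd.mul_right (by exact_mod_cast h) d)
      rw [e] at h
      norm_num at h
    · exact (hp p pp h).2
  exact ⟨⟨⟨l, n, sk, z, w, H.lp, H.l16, Int.squarefree_natCast.2 hsq, by omega, hcop, hspl, hsk,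
    hz, hw⟩, d, dl, H, hdl, fun p pp h h' => Int.natCast_dvd_natCast.2 (hs p pp h h')⟩,
    rfl, rfl, rfl, rfl, rfl⟩

end Pool.Agent.P.MP_8b7eba_nt.R2.G
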