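import Pool.Agent.P.MP_8b7eba_nt.R3.AYCM
import Pool.Agent.P.MP_8b7eba_nt.R2.TREP1

/-! The form attached to an ideal, for every conductor. -/

namespace Pool.Agent.P.MP_8b7eba_nt.R2.G

open BSD15 (OO nm cj Adm)
open R1 (QF Hg emb)

namespace ACREP1

theorem odd_sq {k a n z : ℤ} (h2 : 2 ∣ k) (h8 : k ∣ 8) (ha : Odd a) (hn : Odd n)
    (h : k ∣ a * n - z ^ 2) : k ∣ a - n := by
  have hz : Odd z := by
    have h1 : Even (a * n - z ^ 2) := even_iff_two_dvd.2 (h2.trans h)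
    rw [Int.even_sub, ← Int.not_odd_iff_even, ← Int.not_odd_iff_even, Int.odd_pow' two_ne_zero]
      at h1
    by_contra h3
    exact h1.2 h3 (ha.mul hn)
  have e : a - n = -a * (n ^ 2 - 1) + n * (a * n - z ^ 2) + n * (z ^ 2 - 1) := by ring
  rw [e]
  exact dvd_add (dvd_add ((h8.trans (Int.eight_dvd_sq_sub_one_of_odd hn)).mul_left _)
    (h.mul_left _)) ((h8.trans (Int.eight_dvd_sq_sub_one_of_odd hz)).mul_left _)

theorem form {k L h x y : ℤ} {Q : QF} (h2 : 2 ∣ k) (h8 : k ∣ 8) (hk : k ∣ h ^ 2)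
    (hD : Q.disc = -(L * (2 * h) ^ 2)) (hn : Odd (Q.ev x y)) :
    k ∣ (if 2 ∣ Q.A then Q.C else Q.A) - Q.ev x y := by
  obtain ⟨A, B, C⟩ := Q
  simp only [QF.disc, QF.ev] at hD hn ⊢
  obtain ⟨b, rfl⟩ : 2 ∣ B := Int.prime_two.dvd_of_dvd_pow (n := 2)
    ⟨2 * A * C - 2 * L * h ^ 2, by linear_combination hD⟩
  have e : A * C - b ^ 2 = L * h ^ 2 := by linarith
  obtain ⟨t, ht⟩ := hk
  split_ifs with hA
  · refine odd_sq (z := b * x + C * y) h2 h8 ?_ hn ⟨L * t * x ^ 2, ?_⟩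
    · obtain ⟨a, rfl⟩ := hA
      by_contra hC
      obtain ⟨c, rfl⟩ := Int.not_odd_iff_even.1 hC
      exact Int.not_even_iff_odd.2 hn ⟨a * x ^ 2 + b * x * y + c * y ^ 2, by ring⟩
    · linear_combination x ^ 2 * e + L * x ^ 2 * ht
  · refine odd_sq (z := A * x + b * y) h2 h8
      (Int.not_even_iff_odd.1 fun h => hA (even_iff_two_dvd.1 h)) hn ⟨L * t * y ^ 2, ?_⟩
    linear_combination y ^ 2 * e + L * y ^ 2 * ht

theorem tri {d : ℤ} (hd : d ≠ 0) :
    R3.e2 d = 1 ∨ (R3.e2 d = -1 ∧ 4 ∣ R3.cd d) ∨ 8 ∣ R3.cd d := by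
  unfold R3.e2 R3.cd R3.ds R3.od R1.st
  by_cases h1 : d % 4 = 1
  · left
    rw [if_neg (by omega : ¬ d % 2 = 0)]
    have : (if d.natAbs % 4 = 1 then (d.natAbs : ℤ) else -(d.natAbs : ℤ)) = d := by
      split_ifs <;> omega
    rw [this, Int.ediv_self hd]
  · right
    rw [if_neg h1]
    by_cases h2 : d % 2 = 0
    · right; omega
    · left
      rw [if_neg h2]
      have : (if d.natAbs % 4 = 1 then (d.natAbs : ℤ) else -(d.natAbs : ℤ)) = -d := by
        split_ifs <;> omega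
      rw [this, Int.ediv_neg, Int.ediv_self hd]
      exact ⟨rfl, by omega⟩

theorem cast_eq {k : ℕ} {a b : ℤ} (h : (k : ℤ) ∣ a - b) : (a : ZMod k) = b :=
  ((ZMod.intCast_eq_intCast_iff_dvd_sub b a k).2 h).symm

theorem at_two {d L x y : ℤ} {Q : QF} (hd : d ≠ 0) (hD : Q.disc = -(L * (R3.cd d : ℤ) ^ 2))
    (hn : 2 ∣ R3.cd d → Odd (Q.ev x y)) :
    R3.ch2 (R3.e2 d) Q = R3.c2 (R3.e2 d) (Q.ev x y) := by
  rw [R3.ch2, ← apply_ite (R3.c2 (R3.e2 d))]
  rcases tri hd with h | ⟨h, n, hn'⟩ | ⟨n, hn'⟩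
  · simp only [h, R3.c2, if_true]
  · have h1 := form (k := 4) (L := L) (h := 2 * n) (by norm_num) (by norm_num) ⟨n ^ 2, by ring⟩
      (by rw [hD, hn']; push_cast; ring) (hn ⟨2 * n, by omega⟩)
    rw [h, R3.c2, R3.c2, cast_eq (k := 4) h1]
    simp only [if_true, if_neg (by norm_num : ¬ (-1 : ℤ) = 1)]
  · have h1 := form (k := 8) (L := L) (h := 4 * n) (by norm_num) (by norm_num)
      ⟨2 * n ^ 2, by ring⟩ (by rw [hD, hn']; push_cast; ring) (hn ⟨4 * n, by omega⟩)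
    rw [R3.c2, R3.c2, cast_eq (k := 8) h1,
      cast_eq (k := 4) ((by norm_num : ((4 : ℕ) : ℤ) ∣ 8).trans h1)]

end ACREP1

open TREP1 in
theorem t_REP1 (hKC : KC) : REP1 := by
  intro l _ d hS I hI
  obtain ⟨hm0, hodd, -, -, hsq, hcd, -⟩ := hKC d hS.sq
  have hom : R3.od d ∣ R3.cd d := by
    rcases hcd with e | e | e <;> rw [e]
    exacts [Dvd.intro_left _ rfl, Dvd.intro_left _ rfl]
  have htwo := fun (L x y : ℤ) (Q : QF) => ACREP1.at_two (L := L) (x := x) (y := y) (Q := Q)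
    hS.sq.ne_zero
  unfold R3.hw R3.wg R3.gch R3.kc
  generalize R3.cd d = m at hI hm0 hom htwo ⊢
  have hr := Classical.epsilon_spec (root l)
  have h4 := BSD15.qring_four (n := l)
  have hn15 := (nI_spec (l := l)).2.2.1
  have hres := fun z => res15 hr (z := z)
  rw [rH]
  unfold nI at hn15
  have hat := fun I : Ideal (OO l) => at_hz (l := l) (c := m) (I := I) ⟨hm0, trivial⟩
  unfold nI at hat
  generalize (Classical.epsilon _ : ℤ) = r at hr hn15 hres hat ⊢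
  generalize Ideal.span {((15 : ℕ) : OO l), (⟨-r, 1⟩ : OO l)} = n15 at hn15 hres hat
  obtain ⟨a, b, h1, h2, h3⟩ := hat I hI
  obtain ⟨x, hx, mx, rfl⟩ := mem_Lc.1 h1.left.1
  obtain ⟨y, hy, my, rfl⟩ := mem_Lc.1 h2.left.2
  have hN0 : nm I ≠ 0 := fun h => hI.1 (BSD15.nm_eq_zero.1 h)
  have hN : (0 : ℤ) < nm I := by exact_mod_cast Nat.pos_of_ne_zero hN0
  obtain ⟨C, hC⟩ := BSD15.nm_dvd_norm hx
  obtain ⟨A', hA'⟩ := BSD15.nm_dvd_norm hy
  rw [BSD15.nm_mul, hn15] at hA'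
  obtain ⟨A, hA15, hA⟩ : ∃ A : ℤ, 15 ∣ A ∧ y.norm = nm I * A :=
    ⟨15 * A', dvd_mul_right _ _, by rw [hA']; push_cast; ring⟩
  have hy0 : y ≠ 0 := fun h => h1.ne.1 (by rw [h]; exact map_zero (R1.embH l))
  have hA0 : 0 < A := by
    have h5 := (BSD15.norm_nonneg' y).lt_of_ne' fun h => hy0 (BSD15.norm_eq_zero'.1 h)
    rw [hA] at h5
    exact (mul_pos_iff_of_pos_left hN).1 h5
  obtain ⟨γ, hγ, e⟩ : ∃ γ ∈ cj n15, (nm I : OO l) * γ = x * star y := by
    rw [← Ideal.mem_span_singleton_mul, ← BSD15.mul_cj, mul_assoc, ← BSD15.cj_mul]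
    exact Ideal.mul_mem_mul hx (BSD15.mem_cj.2 (by rwa [star_star]))
  have hAc : (A : ℂ) ≠ 0 := by exact_mod_cast hA0.ne'
  have hτ : emb l x / emb l y = emb l γ / A := by
    have h5 : emb l (x * star y * y) = emb l ((nm I : OO l) * γ * y) := by rw [e]
    rw [mul_assoc, mul_comm (star y), BSD15.qbasic_mul_star, hA, CMA.emb_mul, CMA.emb_mul,
      CMA.emb_mul, CMA.emb_nat,
      show emb l ((nm I * A : ℤ) : OO l) = (nm I * A : ℤ) from map_intCast (R1.embH l) _] at h5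
    rw [div_eq_div_iff h1.ne.1 hAc]
    refine mul_left_cancel₀ (show (nm I : ℂ) ≠ 0 by exact_mod_cast hN0) ?_
    push_cast at h5
    linear_combination h5
  have him : 0 < γ.im := by
    have h5 := h1.1
    rw [hτ, Complex.div_intCast_im, emb_im] at h5
    have h6 : (0 : ℝ) < A := by exact_mod_cast hA0
    have h7 := (div_pos_iff_of_pos_right h6).1 h5
    have h8 : (0 : ℝ) < √l / 2 := by
      have := hS.lp.pos
      positivity
    exact_mod_cast (mul_pos_iff_of_pos_right h8).1 h7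
  have hγm := gam_im hI h1 mx my e.symm him
  have hno : γ.norm = A * C := by
    have h5 := congrArg QuadraticAlgebra.norm e
    rw [map_mul, map_mul, QuadraticAlgebra.norm_star, QuadraticAlgebra.norm_natCast, hC, hA] at h5
    refine mul_left_cancel₀ (pow_ne_zero 2 hN.ne') ?_
    linear_combination h5
  have hD : QF.disc ⟨A, -(2 * γ.re + γ.im), C⟩ = -((l * m ^ 2 : ℕ) : ℤ) := by
    have h5 := BSD15.four_mul_norm γ
    rw [hno] at h5
    simp only [QF.disc]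
    push_cast
    rw [← hγm]
    linear_combination -h5
  have hlm : (0 : ℤ) < ((l * m ^ 2 : ℕ) : ℤ) := by
    have h5 := hS.lp.pos
    have h6 := Nat.pos_of_ne_zero hm0
    positivity
  have hLv : R1.Lv (-((l * m ^ 2 : ℕ) : ℤ)) (m * (1 - 2 * r)) ⟨A, -(2 * γ.re + γ.im), C⟩ := by
    refine ⟨hD, hA15, ?_⟩
    obtain ⟨t, ht⟩ := hres _ (BSD15.mem_cj.1 hγ)
    rw [QuadraticAlgebra.re_star, QuadraticAlgebra.im_star] at ht
    refine ⟨-t, ?_⟩
    rw [← hγm]
    linear_combination -2 * ht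
  refine ⟨⟨A, -(2 * γ.re + γ.im), C⟩, ⟨hLv, hA0⟩, ?_, ?_⟩
  · rw [h3]
    refine (QF.eq_tau hA0 (by rw [hD]; linarith) h1.1 ?_).symm
    have h5 := emb_quad γ
    rw [hno] at h5
    rw [hτ]
    push_cast at h5 ⊢
    field_simp
    linear_combination h5
  · obtain ⟨s, t, e1, e2⟩ := basis h1 (CMA.nm_mem I)
      (by rw [QuadraticAlgebra.im_natCast]; exact dvd_zero _)
    rw [QuadraticAlgebra.re_natCast] at e1
    rw [QuadraticAlgebra.im_natCast] at e2
    have hev : QF.ev ⟨A, -(2 * γ.re + γ.im), C⟩ t (-s) = nm I := by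
      have h5 := congrArg QuadraticAlgebra.re e
      have h6 := congrArg QuadraticAlgebra.im e
      rw [re_nat] at h5
      rw [CMA.im_nat, im_star] at h6
      rw [QuadraticAlgebra.norm_def] at hC hA
      simp only [QuadraticAlgebra.re_mul, QuadraticAlgebra.re_star, QuadraticAlgebra.im_star] at h5
      refine mul_left_cancel₀ hN.ne' ?_
      simp only [QF.ev]
      have h7 : (nm I : ℤ) * nm I = (s * x.re + t * y.re) ^ 2 +
          (s * x.re + t * y.re) * (s * x.im + t * y.im) +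
          (((l + 1) / 4 : ℕ) : ℤ) * (s * x.im + t * y.im) ^ 2 := by
        rw [← e1, ← e2]; ring
      linear_combination -h7 - t ^ 2 * hA - s ^ 2 * hC + s * t * (2 * h5 + h6)
    rw [if_pos hLv, BSD15.cfid_jac_sqf _ hsq, mul_comm, htwo l t (-s) _ (by rw [hD]; push_cast; rfl)
      fun h => by
        rw [hev, Int.odd_coe_nat]
        exact Nat.coprime_two_right.1 (hI.2.coprime_dvd_right h), hev]
    congr 1
    refine Finset.prod_congr rfl fun p hp => ?_
    have hp1 := Nat.prime_of_mem_primeFactors hp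
    have hp0 := Nat.dvd_of_mem_primeFactors hp
    have hp2 := hp0.trans hom
    rw [← hev]
    refine (QF.chip_eq hp1 ?_ ?_ ?_).symm
    · rintro rfl
      exact Nat.not_even_iff_odd.2 hodd (even_iff_two_dvd.2 hp0)
    · rw [hD, dvd_neg, Int.natCast_dvd_natCast]
      exact (hp2.trans (dvd_pow_self m two_ne_zero)).mul_left _
    · rw [hev, Int.natCast_dvd_natCast]
      exact fun h => hp1.ne_one (Nat.eq_one_of_dvd_coprimes hI.2 h hp2)

end Pool.Agent.P.MP_8b7eba_nt.R2.G
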