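import Pool.Agent.P.MP_8b7eba_nt.R3.AYCM
import Pool.Agent.P.MP_8b7eba_nt.R3.ACKC
import Pool.Agent.P.MP_8b7eba_nt.R1.Oth

/-! Proof of REPS. -/

namespace Pool.Agent.P.MP_8b7eba_nt.R2.G

open MP_9c97e9_nt (Pt pm Is ap)
open BSD15 (OO nm cj Adm)
open _root_.Pool.Agent.P.MP_8b7eba_nt.Mod (M2 G0 al)
open R1 (QF Hg emb Pz uu Rq)

theorem t_REPS (hCE : CE) (hKC : KC) (hREP1 : REP1) (hREP2 : REP2) (hREP3 : REP3) : REPS := by
  intro l _ d hs
  classical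
  have k0 := (hKC d hs.sq).1
  have k1 := ACKC.kc_sq hs.sq
  have h1 := hREP1 l d hs
  have h2 := hREP2 l d hs
  refine ⟨rH l (R3.cd d), ?_⟩
  generalize R3.hw l d (rH l (R3.cd d)) = u at h1 h2 ⊢
  generalize R3.cd d = m at k0 k1 h1 h2 ⊢
  have hc : Cd m := ⟨k0, trivial⟩
  have hN : 0 < l * m ^ 2 := Nat.mul_pos hs.lp.pos (pow_pos (Nat.pos_of_ne_zero hc.1) 2)
  have := finite_RC (l := l) hc.1
  have := Fintype.ofFinite (RC l m)
  choose F f1 f2 f3 using fun a : RC l m => h1 (rp a) (rp_spec a).1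
  have im : ∀ a : RC l m, 0 < (hz m (rp a)).im := fun a => (at_hz hc (rp_spec a).1).im
  have key : ∀ a a' g, G0 g → (F a).cmp g = F a' → a = a' := fun a a' g hg e => by
    have e1 := (hREP3.1 _ _ _ _ g hN (f1 a') (f1 a) hg).2 e
    have e2 : ∀ b : RC l m, io (JO b) = jf (hz m (rp b)) := fun b => by
      have := JO_cl hCE.tau hCE.jf hc (rp_spec b).1
      rw [(rp_spec b).2] at this
      exact this.1.trans this.2
    rw [f2, f2] at e1
    refine JO_inj hCE.tau hCE.jf hCE.jinj hc (io.injective ?_)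
    rw [e2, e2, ← e1, hCE.jf.1 g _ hg.1 (im a')]
  have hinj : Function.Injective F := fun a a' e =>
    key a a' 1 ⟨by decide, by decide⟩ ((R1.QF.cmp_one _).trans e)
  refine ⟨Finset.univ.image F, ⟨?_, fun Q hQ hw => ?_, ?_⟩, ?_⟩
  · intro P hP
    obtain ⟨a, -, rfl⟩ := Finset.mem_image.1 hP
    exact f1 a
  · obtain ⟨-, I, hI, g', hg', e⟩ := h2 Q hQ hw
    obtain ⟨γ, hγ, e'⟩ := hz_cl hc (rp_spec (cl m I)).1 hI (rp_spec _).2
    refine ⟨g' * γ, hg'.mul hγ, Finset.mem_image.2 ⟨cl m I, Finset.mem_univ _, ?_⟩⟩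
    refine ((hREP3.1 _ _ _ _ _ hN (f1 _) hQ (hg'.mul hγ)).1 ?_).symm
    rw [f2, M2.act_mul hg'.det_pos.ne' hγ.det_pos (im _), ← e', e]
  · intro P hP g hg hP'
    obtain ⟨a, -, rfl⟩ := Finset.mem_image.1 hP
    obtain ⟨a', -, e⟩ := Finset.mem_image.1 hP'
    obtain rfl := key a a' g hg e.symm
    refine (h2 _ (f1 a) fun e0 => ?_).1 g hg.1 e.symm
    have := k1 _ (Nat.isCoprime_iff_coprime.2 (rp_spec a).1.2)
    rw [← f3, e0] at this
    simp at this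
  · rw [ZC, finsum_eq_sum_of_fintype, map_sum, R3.ZS, Finset.sum_image hinj.injOn, map_sum]
    refine Finset.sum_congr rfl fun a _ => ?_
    have e := HP_cl hCE.tau hc (rp_spec a).1
    rw [(rp_spec a).2] at e
    rw [map_zsmul, e, ← zsmul_eq_mul, map_zsmul, f3, f2, R1.uu_FI (im a), chi]
    rfl

end Pool.Agent.P.MP_8b7eba_nt.R2.G
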