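import Pool.Agent.P.MP_8b7eba_nt.R3.ACHE1

/-! Proof of GEN2, TOR. -/

namespace Pool.Agent.P.MP_8b7eba_nt.R2.G

namespace ACTOR

/-- signs written additively -/
def tz (x : ℤ) : ZMod 2 := if x = 1 then 0 else 1

theorem tz_mul {x y : ℤ} (hx : x * x = 1) (hy : y * y = 1) : tz (x * y) = tz x + tz y := by
  rcases Int.eq_one_or_neg_one_of_mul_eq_one hx with rfl | rfl <;>
    rcases Int.eq_one_or_neg_one_of_mul_eq_one hy with rfl | rfl <;> decide

end ACTOR

open ACTOR in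
theorem t_GEN2 (hB : CB) (hKC : KC) (hARX : ARX) (hCHI : CHI) : GEN2 := by
  intro P d δ c hd hδ hc hdc g hg
  obtain ⟨h1, h2, h3, -⟩ := hCHI P.l d c hd hdc
  have hR := hARX P _ hc
  obtain ⟨B, hF⟩ := hR.fr
  have key : tz (chi d (ar P.l c g)) = qz d g := by
    refine Multiplicative.ofAdd.injective (ext_frob (P := P) hB.toCA (G := Multiplicative (ZMod 2))
      (f := fun g => .ofAdd (tz (chi d (ar P.l c g)))) (f' := fun g => .ofAdd (qz d g))
      (hR.sm.comp fun a => Multiplicative.ofAdd (tz (chi d a)))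
      ((isCh_qz d).1.comp fun a => Multiplicative.ofAdd a)
      (fun g hg g' hg' => ⟨by rw [hR.mul g hg g' hg', h2, tz_mul (h3 _).1 (h3 _).1, ofAdd_add],
        by rw [(isCh_qz (H := ⊤) d).2 g trivial g' trivial, ofAdd_add]⟩)
      (B + 2 * d.natAbs + c + P.l) (fun w φ hw hφ hf => ?_) g hg)
    have d0 := Int.natAbs_pos.2 hd.ne_zero
    have h4 : ¬ (w.p : ℤ) ∣ 2 * d := fun e => by
      have e1 : w.p ∣ 2 * d.natAbs := by simpa [Int.natAbs_mul] using Int.natAbs_dvd_natAbs.2 e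
      have := Nat.le_of_dvd (by omega) e1
      omega
    have h5 : ¬ w.p ∣ c := fun e => by
      have := Nat.le_of_dvd (Nat.pos_of_ne_zero hc.1) e
      omega
    have h6 := (pw_split hB.toCA ((D_le_GK hB.toCA (by omega) hf).2 hφ)).1
    rw [hF w φ (by omega) hφ hf, h1 _ (ad_pw.2 h5), h6,
      (hKC d hd).2.2.2.2.2.2.2.2.2.1 _ w.prime (by omega)]
    congr 1
    refine LA.ext ?_
    rw [(qz_frob hB.toCA h4 hf).1]
    simp [tz]
  rw [sd]
  split_ifs with h
  · rw [(qz_eq_zero hδ).2 h] at key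
    by_contra e
    rw [tz, if_neg (Ne.symm e)] at key
    exact one_ne_zero key
  · refine ((Int.eq_one_or_neg_one_of_mul_eq_one (h3 _).1).resolve_left fun e => h ?_).symm
    rw [tz, if_pos e] at key
    exact (qz_eq_zero hδ).1 key.symm

open ACHE1 in
open R2.THE1 (cosets ar_div ac_HP) in
theorem t_TOR (hKC : KC) (hARX : ARX) (hCHI : CHI) (hGEN2 : GEN2) : TOR := by
  refine ⟨fun D H k hN hy => ?_, fun P g hg => ?_⟩
  · obtain ⟨-, k1, k2, -⟩ := hKC D.m D.hy.sq
    have hd : R3.cd D.m ∣ D.ck [] k := (k2.trans (Nat.mul_dvd_mul_right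
      (pow_dvd_pow 2 (show 3 ≤ max k 1 + 2 by omega)) _)).mul_right _
    have hc : Cd (D.ck [] k) := by
      simp only [Dat.ck, List.map_nil, List.prod_nil, mul_one]
      exact ⟨mul_ne_zero (pow_ne_zero _ two_ne_zero) k1.pos.ne', trivial⟩
    simp only [Dat.PP]
    rw [← csum_sum (relIndex_ne_zero (H.on _).2 _), hN, hy]
    simp only [List.map_nil, List.prod_nil, one_smul, Finset.sum_ite_eq, Finset.mem_univ, if_true]
    generalize D.ck [] k = c at hc hd
    have h := hARX D.toPre c hc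
    have := finite_RC (l := D.l) hc.1
    obtain ⟨-, h2, h3, -⟩ := hCHI D.l D.m c D.hy.sq hd
    have m : ∀ i, Nrm.ro D.GK (NH D.toPre c) i ∈ D.GK := fun i => Nrm.ro_mem i
    refine ((finsum_congr fun i => ?_).trans (cosets (G := RC D.l c) (O := Od D.l c) (A := ⊤) le_top
      (fun i => ar D.l c (Nrm.ro D.GK (NH D.toPre c) i)) (fun _ => trivial)
      (fun i j e => Nrm.ro_inj ?_) (fun x _ => ?_) fun a => chi D.m a • HP a)).trans ?_
    · refine (congrArg₂ (· • ·) (hGEN2 D.toPre _ _ c D.hy.sq D.hdm hc hd _ (m i))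
        (ac_yH hc h (m i))).trans ?_
      rw [smul_finsum' _ (Set.toFinite _)]
      exact finsum_congr fun b => by rw [h2, (h3 _).2.1, (h3 b.1).2.2 b.2, mul_one]
    · exact (mem_NH hc h).2 ⟨D.GK.mul_mem (D.GK.inv_mem (m i)) (m j), by
        rwa [ar_div h (m i) (m j)]⟩
    · obtain ⟨g, h1, rfl⟩ := h.surj x
      obtain ⟨i, hi⟩ := Nrm.ro_surj (H' := NH D.toPre c) h1
      exact ⟨i, by rw [← ar_div h (m i) h1]; exact ((mem_NH hc h).1 hi).2⟩
    · exact finsum_eq_of_bijective Subtype.val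
        ⟨Subtype.val_injective, fun a => ⟨⟨a, trivial⟩, rfl⟩⟩ fun _ => rfl
  · have hc : Cd (R3.cd P.m) := ⟨(hKC P.m P.hy.sq).1, trivial⟩
    have h := hARX P.toPre _ hc
    have := finite_RC (l := P.l) hc.1
    obtain ⟨-, h2, h3, -⟩ := hCHI P.l P.m _ P.hy.sq dvd_rfl
    refine (congrArg₂ (· • ·) (hGEN2 P.toPre _ _ _ P.hy.sq P.hdm hc dvd_rfl g hg)
      ((ac g).map_finsum (Set.toFinite _))).trans ?_
    rw [smul_finsum' _ (Set.toFinite _)]
    refine finsum_eq_of_bijective (fun a => (ar P.l (R3.cd P.m) g)⁻¹ * a)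
      (Group.mulLeft_bijective _) fun a => ?_
    rw [map_zsmul, ac_HP h hg, smul_smul, h2, (h3 _).2.1]

end Pool.Agent.P.MP_8b7eba_nt.R2.G
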