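import Pool.Agent.P.MP_8b7eba_nt.R3.ACTRI

/-! Proof of TRB. -/

namespace Pool.Agent.P.MP_8b7eba_nt.R2.G

open scoped NNReal
open MP_9c97e9_nt (pm Is ap pm_injective)
open BSD15 (OO Good nm cj)
open _root_.Pool.Agent.P.MP_8b7eba_nt.Mod (M2 G0 xx al)
open R1 (emb Dl psi Pz KF U8 IntPt y1 uu_FI)
open ACTRI
open R2.TTRI (card_fibre finsum_fibre)

namespace ACTRB

theorem hecke {p : ℕ} {z : ℂ} (hp : p.Prime) (h15 : p ∣ 15) (hz : 0 < z.im) :
    ∑ i ∈ Finset.range p, Pz ((al p i).act z) = Mod.an p • Pz z := by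
  have h := Mod.hecke_FI hp hz
  rw [if_pos h15, add_zero] at h
  rw [← uu_FI hz, ← map_zsmul, zsmul_eq_mul, ← h, map_sum]
  refine Finset.sum_congr rfl fun i hi => ?_
  rw [← uu_FI (M2.im_act_pos (TFR.al_pos hp i) hz)]
  simp [al, Finset.mem_range.1 hi, M2.act, Mod.mob]

/-- the correspondence at a prime which divides the level -/
theorem core {L L' M : Lt} {z : ℂ} (h : At L L' z) {q : ℕ} (hq : q.Prime) (h15 : q ∣ 15)
    (m1 : L' ≤ M) (m2 : M ≤ L) (m3 : M.relIndex L = q) {ι : Type} [Fintype ι]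
    (hc : Nat.card ι = q) {N N' : ι → Lt} {y : ι → ℂ} (hN : Function.Injective N)
    (h1 : ∀ i, At (N i) (N' i) (y i) ∧ N i ≤ L ∧ N' i ≤ L' ∧ (N i).relIndex L = q)
    (hne : ∀ i, N i ≠ M) : ∑ i, Pz (y i) = Mod.an q • Pz z := by
  rw [← hecke hq h15 h.im]
  obtain ⟨a, b, h, h0, rfl⟩ := h
  have hM := LtA.diag h m2 (m1 h0.left.2) hq.ne_zero m3
  have key : ∀ i, ∃ k : Fin q, Pz (y i) = Pz ((al q k).act (a / b)) ∧
      Ob (N i) ((al q k).a * a + (al q k).b * b) ((al q k).c * a + (al q k).d * b) := fun i => by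
    obtain ⟨A, h3, -, h5, h6, h7⟩ := LtA.sub h h0 (h1 i).1 (h1 i).2.1 (h1 i).2.2.1
    obtain ⟨k, hk, γ, hγ, rfl⟩ := Mod.exists_al hq (h3.trans (by rw [(h1 i).2.2.2])) h5
      fun _ ⟨u, hu⟩ => by
        obtain ⟨v, hv⟩ := (Int.natCast_dvd_natCast.2 h15).trans h5
        have h8 : N i ≤ M := fun x hx => by
          obtain ⟨m, n, rfl⟩ := (h7.2 x).1 hx
          refine (hM.2 _).2 ⟨m * u + n * v, m * A.b + n * A.d, ?_⟩
          rw [hu, hv]
          push_cast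
          ring
        have h9 := AddSubgroup.relIndex_mul_relIndex _ _ _ h8 m2
        rw [m3, (h1 i).2.2.2, mul_eq_right₀ hq.ne_zero] at h9
        exact hne i (h8.antisymm (AddSubgroup.relIndex_eq_one.1 h9))
    refine ⟨⟨k, by simpa [Mod.hI, h15] using hk⟩, ?_, LtA.cancel hγ.1 h7⟩
    rw [h6, M2.act_mul hγ.det_pos.ne' (TFR.al_pos hq k) h.1,
      R1.Pz_act hγ (M2.im_act_pos (TFR.al_pos hq k) h.1)]
  choose k h2 h3 using key
  rw [Finset.sum_range]
  exact Fintype.sum_bijective k ((Nat.bijective_iff_injective_and_card k).2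
    ⟨fun i j e => hN ((h3 i).eq (e ▸ h3 j)), by rw [hc, Nat.card_fin]⟩) _ _ h2

theorem spec {l : ℕ} [Hl l] {p : ℕ} (hp : p.Prime) (h : p ∣ 15) : p ≠ 2 ∧ Odd (Mod.an p) ∧
    jacobiSym (-l) p = 1 ∧ nm (nI l p) = p ∧ (nI l p).IsPrime ∧ nI l 15 ≤ nI l p := by
  obtain ⟨h3, h5, -, e, p3, p5⟩ := nI_spec (l := l)
  obtain ⟨-, -, -, a3, -, a5⟩ := Mod.an_small
  rcases (hp.dvd_mul (m := 3) (n := 5)).1 h with h1 | h1
  · obtain rfl := (Nat.prime_dvd_prime_iff_eq hp Nat.prime_three).1 h1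
    exact ⟨by norm_num, by rw [a3]; decide, Hl.j3, h3, p3, e.trans_le Ideal.mul_le_left⟩
  · obtain rfl := (Nat.prime_dvd_prime_iff_eq hp Nat.prime_five).1 h1
    exact ⟨by norm_num, by rw [a5]; decide, Hl.j5, h5, p5, e.trans_le Ideal.mul_le_right⟩

end ACTRB

open ACTRB in
theorem t_TRB (hCE : CE) : TRB := by
  intro P c w hc h15 hqc
  have hA : CA := hCE.toCF.toCB.toCA
  obtain ⟨h2, ho, hj, n1, n2, n3⟩ := spec (l := P.l) w.prime h15
  have hD : w.D ≤ P.GK := (hCE.karith P).2.2.2.1 w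
    (((Int.natCast_dvd_natCast.2 h15).trans (by norm_num)).mul_right _)
  obtain ⟨s1, s2, s3⟩ := pw_split (P := P) hA hD
  have hp : Ad c (pw P.l w) := ad_pw.2 hqc
  have hcq : Cd (c * w.p) := ⟨mul_ne_zero hc.1 w.prime.ne_zero, trivial⟩
  obtain ⟨hn, hn', hx⟩ : Ad c (nI P.l w.p) ∧ nI P.l w.p ≠ cj (nI P.l w.p) ∧
      (cl c (cj (nI P.l w.p)) = cl c (pw P.l w) ∨
        cl c (cj (nI P.l w.p)) = (cl c (pw P.l w))⁻¹) := by
    have h1 : pw P.l w * cj (pw P.l w) ≤ nI P.l w.p := by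
      rw [s3, Ideal.span_singleton_le_iff_mem]
      exact Ideal.subset_span (Or.inl rfl)
    rcases n2.mul_le.1 h1 with h | h
    · rw [← PWA.max.eq_of_le n2.ne_top h]
      exact ⟨hp, s2, Or.inr (cl_cj hp)⟩
    · have h3 := (BSD15.genus_cj_isPrime (pw_prime P w).1).isMaximal hp.cj.1
      rw [← h3.eq_of_le n2.ne_top h, BSD15.cj_cj]
      exact ⟨hp.cj, s2.symm, Or.inl rfl⟩
  refine ⟨_, ho, _, hx, fun a => ?_⟩
  obtain ⟨I, hI, rfl⟩ := exists_rep hc.1 a w.prime.ne_zero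
  have hI' : Ad c I := hI.mono (Nat.dvd_mul_right _ _)
  obtain ⟨N, N', hinj, hN, hT, hμ⟩ := fibre hA.tau hcq hI
  have := finite_RC (l := P.l) hcq.1
  have := Fintype.ofFinite {b // pr (Nat.dvd_mul_right c w.p) b = cl c I}
  have hcard : Nat.card ({b // pr (Nat.dvd_mul_right c w.p) b = cl c I} ⊕ Unit) = w.p := by
    have := card_ker (l := P.l) hc.1 w.prime h2 hqc
    rw [hj, ← card_fibre hcq.1 (cl c I)] at this
    rw [Nat.card_sum, Nat.card_eq_fintype_card (α := Unit), Fintype.card_unit]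
    omega
  have hne : ∀ b J, Ad c J → N b ≠ Lc c J := fun b J hJ e => by
    obtain ⟨μ, h0, e'⟩ := hμ b
    have := Lc_cond hJ (rp_spec b.1).1 h0 (e.symm.trans e')
    have h5 := w.prime.one_lt
    have h6 := Nat.pos_of_ne_zero hc.1
    nlinarith
  have h4 := core (at_hz hc hI') w.prime h15 (M := Lc c (I * nI P.l w.p))
    (Lc_mono (Ideal.mul_mono_right n3) dvd_rfl) (Lc_mono Ideal.mul_le_left dvd_rfl)
    ((Lc_nI hI' _).trans n1) hcard
    (N := Sum.elim N fun _ => Lc c (I * cj (nI P.l w.p)))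
    (N' := Sum.elim N' fun _ => Lc c (I * cj (nI P.l w.p) * nI P.l 15))
    (y := Sum.elim (fun b => hz (c * w.p) (rp b.1)) fun _ => hz c (I * cj (nI P.l w.p)))
    (by
      rintro (b | t) (b' | t') e
      · rw [hinj e]
      · exact absurd e (hne b _ (hI'.mul hn.cj))
      · exact absurd e.symm (hne b' _ (hI'.mul hn.cj))
      · rfl)
    (by
      rintro (b | t)
      · exact hN b
      · exact ⟨at_hz hc (hI'.mul hn.cj), Lc_mono Ideal.mul_le_left dvd_rfl,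
          Lc_mono (Ideal.mul_mono_left Ideal.mul_le_left) dvd_rfl,
          (Lc_relIndex hc.1 hI' hn.cj).trans ((BSD15.nm_cj _).trans n1)⟩)
    (by
      rintro (b | t)
      · exact hne b _ (hI'.mul hn)
      · exact fun e => hn' (mul_left_cancel₀ hI'.1 (Lc_inj (hI'.mul hn.cj) (hI'.mul hn) e)).symm)
  rw [Fintype.sum_sum_type, Fintype.sum_unique (ι := Unit)] at h4
  simp only [Sum.elim_inl, Sum.elim_inr] at h4
  rw [finsum_fibre, finsum_eq_sum_of_fintype, eq_sub_iff_add_eq, mul_comm (cl c _),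
    ← cl_mul hI' hn.cj]
  refine pm_injective io ?_
  rw [map_add, map_sum, map_zsmul, HP_cl hA.tau hc hI', HP_cl hA.tau hc (hI'.mul hn.cj),
    Finset.sum_congr rfl fun b _ => hT b]
  exact h4

end Pool.Agent.P.MP_8b7eba_nt.R2.G
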