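import Pool.Agent.P.MP_8b7eba_nt.R3.AYCM
import Pool.Agent.P.MP_8b7eba_nt.R2.TTRI

/-! Proof of TRI, TRS. -/

namespace Pool.Agent.P.MP_8b7eba_nt.R2.G

open scoped NNReal
open MP_9c97e9_nt (pm Is ap)
open BSD15 (OO Good nm cj)
open _root_.Pool.Agent.P.MP_8b7eba_nt.Mod (M2 G0 xx al)
open R1 (emb Dl psi Pz KF U8 IntPt y1)

namespace ACTRI

variable {l : ℕ} [Hl l] {c q : ℕ}

theorem fibre (hT : TAU) (hc : Cd (c * q)) {I : Ideal (OO l)} (h : Ad (c * q) I) :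
    ∃ N N' : {b // pr (Nat.dvd_mul_right c q) b = cl c I} → Lt, Function.Injective N ∧
      (∀ b, At (N b) (N' b) (hz (c * q) (rp b.1)) ∧ N b ≤ Lc c I ∧ N' b ≤ Lc c (I * nI l 15) ∧
        (N b).relIndex (Lc c I) = q) ∧
      (∀ b : {b // pr (Nat.dvd_mul_right c q) b = cl c I},
        pm W15 io (HP b.1) = Pz (hz (c * q) (rp b.1))) ∧
      ∀ b, ∃ μ : ℂ, μ ≠ 0 ∧ N b = sc μ (Lc (c * q) (rp b.1)) := by
  obtain ⟨N, N', hN⟩ := exists_fibre hc h
  refine ⟨fun b => N b.1, fun b => N' b.1, fun b b' e => ?_, fun b => ?_, fun b => ?_,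
    fun b => (hN b.1 b.2).2.2.2.2⟩
  · obtain ⟨μ, hμ, e1⟩ := (hN b.1 b.2).2.2.2.2
    obtain ⟨ν, hν, e2⟩ := (hN b'.1 b'.2).2.2.2.2
    have e3 : sc μ (Lc (c * q) (rp b.1)) = sc ν (Lc (c * q) (rp b'.1)) := e1.symm.trans (e.trans e2)
    refine Subtype.ext ?_
    rw [← (rp_spec b.1).2, ← (rp_spec b'.1).2, cl_eq_iff_sc (rp_spec b.1).1 (rp_spec b'.1).1]
    refine ⟨ν⁻¹ * μ, mul_ne_zero (inv_ne_zero hν) hμ, ?_⟩
    rw [← sc_sc, e3, sc_sc, inv_mul_cancel₀ hν, sc_one]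
  · obtain ⟨h1, h2, h3, h4, -⟩ := hN b.1 b.2
    exact ⟨h1, h2, h3, h4⟩
  · have := HP_cl hT hc (rp_spec b.1).1
    rwa [(rp_spec b.1).2] at this

theorem side {P : Pre} {w : Pl} (hc : Cd c) (h : ¬ w.p ∣ 30 * P.l * c) :
    Cd (c * w.p) ∧ ¬ w.p ∣ 15 ∧ ¬ w.p ∣ 30 ∧ w.p ≠ 2 ∧ ¬ w.p ∣ c ∧ ¬ w.p ∣ 2 * P.l := by
  have h30 : ¬ w.p ∣ 30 := fun e => h ((e.mul_right _).mul_right _)
  have h15 : ¬ w.p ∣ 15 := fun e => h30 (e.trans (by norm_num))
  refine ⟨⟨mul_ne_zero hc.1 w.prime.ne_zero, trivial⟩, h15, h30,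
    fun e => h30 (by rw [e]; norm_num), fun e => h (e.mul_left _), fun e => h ?_⟩
  exact (e.trans ⟨15, by ring⟩).mul_right _

end ACTRI

open ACTRI
open R2.TTRI (core card_fibre ap_an' finsum_fibre)

theorem t_TRI (hCE : CE) : TRI := by
  intro P c w a hc hw hD
  have hA : CA := hCE.toCF.toCB.toCA
  obtain ⟨hcq, h15, h30, h2, hqc, hl⟩ := side hc hw
  obtain ⟨I, hI, rfl⟩ := exists_rep hc.1 a w.prime.ne_zero
  have hI' : Ad c I := hI.mono (Nat.dvd_mul_right _ _)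
  obtain ⟨N, N', hinj, hN, hT, -⟩ := fibre hA.tau hcq hI
  have := finite_RC (l := P.l) hcq.1
  have hcard : Nat.card {b // pr (Nat.dvd_mul_right c w.p) b = cl c I} = w.p + 1 := by
    have := card_ker (l := P.l) hc.1 w.prime h2 hqc
    rw [(D_le_iff hA hl).2.1 hD, ← card_fibre hcq.1 (cl c I)] at this
    omega
  have hat := at_hz hc hI'
  obtain ⟨S, e, h1, h3, h4⟩ := core hat w.prime h15 hcard hinj hN hT
  have hR := HP_cl hA.tau hc hI'
  refine ⟨?_, fun F hF hFF b hb => ?_⟩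
  · rw [finsum_fibre, h4, TFR.heckeE w.prime h15 hat.im hR h3, ap_an' w.prime h30]
  obtain ⟨i, -, k1, k2⟩ := TFR.kronE hA.pl hA.tau hCE.cong h15 hF hat.im (intPt_hz hc hI') hR h3
  have e1 : S (e ⟨b, hb⟩) = HP b := h1 ⟨b, hb⟩
  by_cases hi : (e ⟨b, hb⟩ : ℕ) = i
  · rw [← hi, e1] at k1
    have k3 := (TFR.EA hCE.e1g w).neg_mem (TFR.ac_mem hCE.e1g hF.1 k1)
    rwa [map_sub, hFF, neg_sub] at k3
  · rw [← e1]
    exact k2 _ (Nat.le_of_lt_succ (e ⟨b, hb⟩).2) hi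

theorem t_TRS (hCE : CE) : TRS := by
  intro P c w a hc hw hD
  have hA : CA := hCE.toCF.toCB.toCA
  obtain ⟨hcq, h15, h30, h2, hqc, hl⟩ := side hc hw
  obtain ⟨I, hI, rfl⟩ := exists_rep hc.1 a w.prime.ne_zero
  have hI' : Ad c I := hI.mono (Nat.dvd_mul_right _ _)
  obtain ⟨N, N', hinj, hN, hT, hμ⟩ := fibre hA.tau hcq hI
  have := finite_RC (l := P.l) hcq.1
  have hcard : Nat.card ({b // pr (Nat.dvd_mul_right c w.p) b = cl c I} ⊕ Bool) = w.p + 1 := by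
    have := card_ker (l := P.l) hc.1 w.prime h2 hqc
    rw [(D_le_iff hA hl).1.1 hD, ← card_fibre hcq.1 (cl c I)] at this
    rw [Nat.card_sum, Nat.card_eq_fintype_card (α := Bool), Fintype.card_bool]
    omega
  obtain ⟨s1, s2, -⟩ := pw_split (P := P) hA hD
  have hp : Ad c (pw P.l w) := ad_pw.2 hqc
  let Q : Bool → Ideal (OO P.l) := fun t => cond t (pw P.l w) (cj (pw P.l w))
  have hQ : ∀ t, Ad c (Q t) ∧ nm (Q t) = w.p := by
    rintro (_ | _)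
    · exact ⟨hp.cj, (BSD15.nm_cj _).trans s1⟩
    · exact ⟨hp, s1⟩
  have hQi : Function.Injective Q := by
    rintro (_ | _) (_ | _) e
    · rfl
    · exact absurd e.symm s2
    · exact absurd e s2
    · rfl
  have hat := at_hz hc hI'
  have hne : ∀ b t, N b ≠ Lc c (I * Q t) := fun b t e => by
    obtain ⟨μ, h0, e'⟩ := hμ b
    have := Lc_cond (hI'.mul (hQ t).1) (rp_spec b.1).1 h0 (e.symm.trans e')
    have h5 := w.prime.one_lt
    have h6 := Nat.pos_of_ne_zero hc.1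
    nlinarith
  obtain ⟨S, e, -, h3, h4⟩ := core hat w.prime h15 hcard
    (N := Sum.elim N fun t => Lc c (I * Q t)) (N' := Sum.elim N' fun t => Lc c (I * Q t * nI P.l 15))
    (y := Sum.elim (fun b => hz (c * w.p) (rp b.1)) fun t => hz c (I * Q t))
    (T := Sum.elim (fun b => HP b.1) fun t => HP (cl c (I * Q t)))
    (by
      rintro (b | t) (b' | t') e
      · rw [hinj e]
      · exact absurd e (hne b t')
      · exact absurd e.symm (hne b' t)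
      · rw [hQi (mul_left_cancel₀ hI'.1 (Lc_inj (hI'.mul (hQ t).1) (hI'.mul (hQ t').1) e))])
    (by
      rintro (b | t)
      · exact hN b
      · exact ⟨at_hz hc (hI'.mul (hQ t).1), Lc_mono Ideal.mul_le_left dvd_rfl,
          Lc_mono (Ideal.mul_mono_left Ideal.mul_le_left) dvd_rfl,
          (Lc_relIndex hc.1 hI' (hQ t).1).trans (hQ t).2⟩)
    (by
      rintro (b | t)
      · exact hT b
      · exact HP_cl hA.tau hc (hI'.mul (hQ t).1))
  rw [TFR.heckeE w.prime h15 hat.im (HP_cl hA.tau hc hI') h3, ← ap_an' w.prime h30] at h4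
  have := Fintype.ofFinite {b // pr (Nat.dvd_mul_right c w.p) b = cl c I}
  rw [finsum_fibre, ← h4, finsum_eq_sum_of_fintype, finsum_eq_sum_of_fintype, Fintype.sum_sum_type,
    Fintype.sum_bool]
  simp only [Sum.elim_inl, Sum.elim_inr, Q, cond_true, cond_false, cl_mul hI' hp, cl_mul hI' hp.cj,
    cl_cj hp, mul_comm (cl c I)]
  abel

end Pool.Agent.P.MP_8b7eba_nt.R2.G
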