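import Pool.Agent.P.MP_8b7eba_nt.R3.Def0

/-! The data of the Kolyvagin system for an arbitrary squarefree twist. -/

namespace Pool.Agent.P.MP_8b7eba_nt.R2.G

open scoped NNReal Matrix
open MP_9c97e9_nt (Pt pm Is ap)
open Filter Topology Polynomial

noncomputable section

/-- the arithmetic data: the twist is by `m`, the number `d` is auxiliary -/
structure Prg extends Pre where
  m : ℤ
  dm : Om
  hy : R3.Hy l m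
  hdm : dm ^ 2 = m
  sub : ∀ p : ℕ, p.Prime → (p : ℤ) ∣ m → ¬ p ∣ 30 → (p : ℤ) ∣ d

/-- the places of multiplicative reduction of the twist -/
def Prg.Bd (P : Prg) (w : Pl) : Prop := w.p ∣ 15 ∧ ¬ (w.p : ℤ) ∣ P.m

/-- the 2-primary system of Heegner points -/
structure Heeg (P : Prg) (a : GQ → ℤ_[2]) where
  N : ℕ → Subgroup GQ
  y : ℕ → EO
  on : ∀ c, ON (N c)
  le : ∀ c, N c ≤ P.GK
  one : N 1 = P.GK
  anti : ∀ c c', c ∣ c' → c'.Coprime P.l → c' ≠ 0 → N c' ≤ N c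
  ab : ∀ c, ∀ g ∈ P.GK, ∀ h ∈ P.GK, g * h * g⁻¹ * h⁻¹ ∈ N c
  two : ∀ c, ∀ g ∈ P.GK, ∃ k : ℕ, g ^ 2 ^ k ∈ N c
  dih : ∀ c g, g ∉ P.GK → g * g ∈ N c
  unr : ∀ c (w : Pl), w.p ≠ 2 → ¬ w.p ∣ c → w.I ⊓ P.GK ≤ N c
  fix : ∀ c, ∀ g ∈ N c, ac g (y c) = y c
  pow : ∀ (M : ℕ) g, g ∈ N (2 ^ (M + 2)) ↔ g ∈ P.GK ∧ 2 ^ M ∣ a g ∧ 4 ∣ (cyc g : ℤ_[2]) - 1
  gen : ∀ g ∈ N (8 * R3.od P.m), g P.dm = P.dm
  inert : ∀ c (w : Pl) (F : GQ), c.Coprime P.l → c ≠ 0 → ¬ w.p ∣ 30 * P.l * c →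
    w.IsFrob 1 F → F ∉ P.GK →
    (N (c * w.p)).relIndex (N c) = 2 ^ padicValNat 2 (w.p + 1) ∧
    (∀ g ∈ N c, ∃ i ∈ w.I, i⁻¹ * g ∈ N (c * w.p)) ∧
    csum (N c) (N (c * w.p)) (fun s => ac s (y (c * w.p))) = ap W15 w.p • y c ∧
    ∀ g ∈ P.GK, E1 w (ac (F * g) (y (c * w.p)) -
      ((w.p + 1) / 2 ^ padicValNat 2 (w.p + 1)) • ac g (y c))
  split : ∀ c (w : Pl) (F : GQ), c.Coprime P.l → 4 ∣ c → c ≠ 0 → ¬ w.p ∣ c →
    (w.p : ℤ) ∣ P.m → ¬ w.p ∣ 30 → w.IsFrob 1 F →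
    csum (N c) (N (c * w.p)) (fun s => ac s (y (c * w.p))) =
      ap W15 w.p • y c - ac F (y c) - ac F⁻¹ (y c)
  bad : ∀ c (w : Pl) (F : GQ), c ≠ 0 → ¬ w.p ∣ c → w.p ∣ 15 → w.IsFrob 1 F →
    ∃ t : ℤ, Odd t ∧ ∃ F', (F' = F ∨ F' = F⁻¹) ∧
      csum (N c) (N (c * w.p)) (fun s => ac s (y (c * w.p))) = t • y c - ac F' (y c)

/-- the Heegner points of 2-power conductor are far from being divisible by two -/
def JP {P : Prg} {a : GQ → ℤ_[2]} (H : Heeg P a) : Prop :=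
  ∃ M₀ : ℕ, ∀ M, M₀ ≤ M → ∀ γ ∈ P.w2.I, ∀ ι ∈ P.w2.I, IsUnit (a γ) → cyc ι = -1 →
    ¬ Kq {g | g ∈ P.w2.I ∧ 2 ^ M ∣ a g}
      ((fun R => ac γ R - R)^[2 ^ M - 3] (H.y (2 ^ (M + 2)) + ac ι (H.y (2 ^ (M + 2)))))

/-- all the data -/
structure Dat extends Prg where
  T : Tate w2
  a : GQ → ℤ_[2]
  an : Anti toPre a
  spD : ∀ w : Pl, (w.p : ℤ) ∣ 30 * m → w.D ≤ toPre.GK
  np : ℕ → ℕ
  hnp : ∀ (w : Pl) (φ : GQ), (w.p : ℤ) ∣ m → ¬ w.p ∣ 30 → w.IsFrob 1 φ → ‖a φ‖ = (2 ^ np w.p)⁻¹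
  z : GQ
  zK : z ∈ toPre.GK
  zd : z dm ≠ dm
  zr : T.rho z = 1
  za : a z = 0
  f2 : GQ
  fD : f2 ∈ w2.D
  fne : ∀ i, T.rd dm f2 i i ≠ 1
  fa : a f2 = 0
  gm : GQ
  gI : gm ∈ w2.I
  ga : a gm = 1
  span : ∀ B : Mt, B ∈ Submodule.span ℚ_[2]
    (T.rho '' {g | g ∈ toPre.GK ∧ a g = 0 ∧ g dm = dm})
  h0 : ∃ g ∈ toPre.GK, ∃ h ∈ toPre.GK, (T.rho (g * h * g⁻¹ * h⁻¹) - 1).det ≠ 0

/-- the primes of good reduction which divide the twist -/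
def Prg.gp (P : Prg) : Finset ℕ := P.m.natAbs.primeFactors.filter fun p => ¬ p ∣ 30

/-- the number of primes of bad reduction which divide the twist -/
def Prg.bb (P : Prg) : ℕ := (P.m.natAbs.primeFactors.filter fun p => p ∣ 15).card

/-- the number which governs the invariants -/
def Dat.sg (D : Dat) : ℕ := ∑ p ∈ D.gp, 2 ^ D.np p

/-- the elements which act trivially -/
def Dat.Z (D : Dat) (g : GQ) : Prop := g ∈ D.GK ∧ D.T.rho g = 1 ∧ D.a g = 0 ∧ g D.dm = D.dm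

/-- patched Kolyvagin primes -/
structure Kp (D : Dat) where
  w : ℕ → Pl
  F : GS
  t : GS
  big : ∀ k, ¬ ((w k).p : ℤ) ∣ 30 * D.l * D.m
  fr : ∀ k, (w k).IsFrob 1 (F k)
  out : ∀ k, F k ∉ D.GK
  tI : ∀ k, t k ∈ (w k).I
  mov : ∀ k (β : Om), β ^ 2 = (w k).p → t k β = -β
  rho : ∀ k i j, ‖(D.T.rho (F k) - D.T.rho tau) i j‖ ≤ (2 ^ (k + 1))⁻¹
  an : ∀ k, 2 ^ k ∣ D.a (tau * F k)
  sg : ∀ k, (tau * F k) D.dm = D.dm

/-- the Frobenius element over the quadratic field -/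
def Kp.ph {D : Dat} (l : Kp D) : GS := l.F * l.F

/-- lists of distinct Kolyvagin primes -/
def Ok {D : Dat} (n : List (Kp D)) : Prop := n.Pairwise fun l l' => ∀ k, (l.w k).p ≠ (l'.w k).p

/-! ### Coefficients -/

section

variable {A : Type} [NormedCommRing A] [NormedAlgebra ℚ_[2] A]

/-- the representation with coefficients in `A` -/
def Dat.r (D : Dat) (ψ : ℤ_[2] → A) (g : GQ) : (Fin 2 → A) →ₗ[ℚ_[2]] Fin 2 → A :=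
  (ψ (D.a g) • mv (D.T.rd D.dm g)).restrictScalars ℚ_[2]

/-- the diagonal characters at the place above two -/
def Dat.th (D : Dat) (ψ : ℤ_[2] → A) (i : Fin 2) (g : GQ) : A →ₗ[ℚ_[2]] A :=
  LinearMap.mul ℚ_[2] A (D.T.rd D.dm g i i • ψ (D.a g))

/-- the conjugate cocycle -/
def Dat.xt (D : Dat) (x : GS → Fin 2 → A) (g : GS) : Fin 2 → A :=
  mv (D.T.rho tau) (x (cs tau * g * cs tau))

open Classical in
/-- the global normalisation -/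
def Dat.nz (D : Dat) (ψ : ℤ_[2] → A) (x : GS → Fin 2 → A) (g : GS) : Fin 2 → A :=
  if g ∈ S1 D.GK then x g + (2⁻¹ : ℚ_[2]) • (rS (D.r ψ) g (x (cs D.z)) - x (cs D.z)) else 0

/-- the local normalisation -/
def Dat.ln (D : Dat) (ψ : ℤ_[2] → A) (x : GS → Fin 2 → A) (g : GS) : Fin 2 → A :=
  x g - (rS (D.r ψ) g (mv (D.T.rd D.dm D.f2 - 1)⁻¹ (x (cs D.f2))) -
    mv (D.T.rd D.dm D.f2 - 1)⁻¹ (x (cs D.f2)))

/-- the strict condition -/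
def Dat.Str (D : Dat) (ψ : ℤ_[2] → A) (x : GS → Fin 2 → A) : Prop :=
  ∀ g ∈ S1 D.w2.D, D.ln ψ x g = 0

/-- the ordinary condition -/
def Dat.Ord (D : Dat) (ψ : ℤ_[2] → A) (x : GS → Fin 2 → A) : Prop :=
  ∀ g ∈ S1 D.w2.D, D.ln ψ x g 1 = 0

/-- normalised cocycles with the local conditions away from two -/
structure Dat.Rel (D : Dat) (ψ : ℤ_[2] → A) (n : List (Kp D)) (x : GS → Fin 2 → A) : Prop where
  pz : PZ (fun _ => D.GK) (D.r ψ) x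
  off : ∀ g, g ∉ S1 D.GK → x g = 0
  nz : x (cs D.z) = 0
  unr : ∀ (w : ℕ → Pl) (g : GS), (∀ᶠ k in UF, g k ∈ (w k).I ⊓ D.GK ∧ ¬ ((w k).p : ℤ) ∣ 30 * D.m ∧
    ∀ l ∈ n, (w k).p ≠ (l.w k).p) → x g = 0
  bad : ∀ w : Pl, D.Bd w → Cob (S1 w.I) (D.r ψ) x
  tr : ∀ l ∈ n, x l.ph = 0

/-- the Selmer group which is ordinary at both places above two -/
def Dat.Sel (D : Dat) (ψ : ℤ_[2] → A) (n : List (Kp D)) (x : GS → Fin 2 → A) : Prop :=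
  D.Rel ψ n x ∧ D.Ord ψ x ∧ D.Ord (bar ψ) (D.xt x)

/-- the Selmer group which is strict at one place above two and relaxed at the other -/
def Dat.SS (D : Dat) (ψ : ℤ_[2] → A) (x : GS → Fin 2 → A) : Prop := D.Rel ψ [] x ∧ D.Str ψ x

/-- the normalised cochain attached to universal approximations -/
def Dat.kap (D : Dat) (ψ : ℤ_[2] → A) (v : KA) : GS → Fin 2 → A := D.nz ψ (raw ψ v)

end

/-! ### Derived points -/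

/-- the conductor at level `k` -/
def Dat.ck (D : Dat) (n : List (Kp D)) (k : ℕ) : ℕ :=
  2 ^ (max k 1 + 2) * R3.od D.m * (n.map fun l => (l.w k).p).prod

/-- the anticyclotomic logarithm at level `k` -/
def Dat.ak (D : Dat) (k : ℕ) (g : GQ) : ZMod (2 ^ k) := PadicInt.toZModPow k (D.a g)

/-- the derived Heegner points -/
def Dat.PP (D : Dat) (H : Heeg D.toPrg D.a) (n : List (Kp D)) (k : ℕ) (j : ZMod (2 ^ k)) : EO :=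
  csum D.GK (H.N (D.ck n k)) fun s => if D.ak k s = j then
    (n.map fun l => dlg (H.N (l.w k).p) (l.t k) s).prod • tac D.dm s (H.y (D.ck n k)) else 0

/-- `v` describes the Kolyvagin cocycles -/
def Dat.KD (D : Dat) (H : Heeg D.toPrg D.a) (n : List (Kp D)) (v : KA) : Prop :=
  ∀ k, Sm D.GK (v k) ∧ (∀ g j, ‖v k g j‖ ≤ 1) ∧
    ∃ (Q : ZMod (2 ^ k) → EO) (R : GQ → ZMod (2 ^ k) → EO), ∀ j, 2 ^ k • Q j = D.PP H n k j ∧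
      ∀ g ∈ D.GK, (∀ s ∈ H.N (D.ck n k), ac s (R g j) = R g j) ∧
        (tac D.dm g (D.PP H n k (j - D.ak k g)) = D.PP H n k j → R g j = 0) ∧
        D.T.pt ((2 ^ k : ℚ_[2])⁻¹ • v k g j.val) = tac D.dm g (Q (j - D.ak k g)) - Q j - R g j

/-- the properties of the Kolyvagin system -/
def Dat.Kol (D : Dat) (v : List (Kp D) → KA) : Prop :=
  (∀ n k g j, ‖v n k g j‖ ≤ 1) ∧
  ∀ (A : Type) [NormedCommRing A] [NormedAlgebra ℚ_[2] A] [IsUltrametricDist A]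
    [FiniteDimensional ℚ_[2] A] (ψ : ℤ_[2] → A), IsPsi ψ → ∀ n, Ok n →
    D.Sel ψ n (D.kap ψ (v n)) ∧ ∀ l, Ok (l :: n) →
      D.kap ψ (v (l :: n)) l.t = mv (D.T.rho tau) (D.kap ψ (v n) l.ph)

/-! ### The anticyclotomic tower -/

/-- the subgroup of the elements whose logarithm is divisible by `m` -/
def Dat.Gd (D : Dat) (m : ℤ_[2]) : Subgroup GQ where
  carrier := {g | g ∈ D.GK ∧ m ∣ D.a g}
  one_mem' := ⟨D.GK.one_mem, by simp [D.an.one]⟩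
  mul_mem' := fun {g h} hg hh => ⟨D.GK.mul_mem hg.1 hh.1, by
    rw [D.an.add g hg.1 h hh.1]
    exact dvd_add hg.2 hh.2⟩
  inv_mem' := fun {g} hg => ⟨D.GK.inv_mem hg.1, by
    rw [D.an.inv hg.1]
    exact hg.2.neg_right⟩

/-- approximate cocycles on a layer of the tower -/
structure Dat.Zm (D : Dat) (n i : ℕ) (c : GQ → V2) : Prop where
  sm : Sm (D.Gd (2 ^ n)) c
  int : ∀ g, ‖c g‖ ≤ 1
  co : ∀ g ∈ D.Gd (2 ^ n), ∀ h ∈ D.Gd (2 ^ n),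
    ‖c (g * h) - c g - D.T.rd D.dm g *ᵥ c h‖ ≤ (2 ^ i)⁻¹
  str : ∀ g ∈ D.w2.D ⊓ D.Gd (2 ^ n), ‖c g‖ ≤ (2 ^ i)⁻¹
  unr : ∀ w : Pl, ¬ (w.p : ℤ) ∣ 30 * D.m → ∀ g ∈ w.I ⊓ D.Gd (2 ^ n), ‖c g‖ ≤ (2 ^ i)⁻¹

/-- quadratic characters of a layer of the tower -/
structure Dat.Cq (D : Dat) (n : ℕ) (χ : GQ → ZMod 2) : Prop where
  ch : IsCh (D.Gd (2 ^ n)) χ
  off : ∀ g, g ∉ D.Gd (2 ^ n) → χ g = 0
  str : ∀ g ∈ D.w2.D ⊓ D.Gd (2 ^ n), χ g = 0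
  unr : ∀ w : Pl, ¬ (w.p : ℤ) ∣ 30 * D.m → ∀ g ∈ w.I ⊓ D.Gd (2 ^ n), χ g = 0

/-- rigid cocycles at the top of the tower -/
structure Dat.XC (D : Dat) (c : GQ → V2) : Prop where
  uc : Uc (D.Gd 0) c
  co : ∀ g ∈ D.Gd 0, ∀ h ∈ D.Gd 0, c (g * h) = c g + D.T.rd D.dm g *ᵥ c h
  off : ∀ g, g ∉ D.Gd 0 → c g = 0
  str : ∀ g ∈ D.w2.D, c g = 0
  unr : ∀ w : Pl, ¬ (w.p : ℤ) ∣ 30 * D.m → ∀ g ∈ w.I, c g = 0

/-- the operator `γ⁻¹ - 1` -/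
def Dat.Th (D : Dat) : Module.End ℚ_[2] (GQ → V2) :=
  LinearMap.pi (fun g => D.T.rq D.dm D.gm⁻¹ ∘ₗ LinearMap.proj (D.gm * g * D.gm⁻¹)) - LinearMap.id

end

end Pool.Agent.P.MP_8b7eba_nt.R2.G
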