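import Pool.Agent.P.MP_8b7eba_nt.SM.All

/-! The second diagonal entry of the Galois representation modulo eight. -/

namespace Pool.Agent.P.MP_8b7eba_nt.R3

open Finset R2 SM SM.TLATX Filter Topology
open scoped Matrix

namespace BAlpha

variable {w₂ : Pl} (T : Tate w₂)

theorem four : ‖(4 : ℚ_[2])⁻¹‖ = 4 := by
  rw [show (4 : ℚ_[2]) = 2 * 2 by norm_num, norm_inv, norm_mul, two]
  norm_num

theorem n11 (g : GQ) : ‖T.rho g 1 1 - 1‖ ≤ 4⁻¹ := by simpa using T.four g 1 1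

theorem n10 (g : GQ) : ‖T.rho g 1 0‖ ≤ 4⁻¹ := by simpa using T.four g 1 0

theorem n01 (g : GQ) : ‖T.rho g 0 1‖ ≤ 4⁻¹ := by simpa using T.four g 0 1

/-- a quarter of the second diagonal entry minus one -/
noncomputable def qa (g : GQ) : Z2 := ⟨4⁻¹ * (T.rho g 1 1 - 1), by
  rw [norm_mul, four]
  linarith [n11 T g]⟩

/-- its reduction -/
noncomputable def al (g : GQ) : F2 := PadicInt.toZMod (qa T g)

theorem al_zero {g : GQ} : al T g = 0 ↔ ‖T.rho g 1 1 - 1‖ < 4⁻¹ := by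
  rw [al, red_zero]
  show ‖4⁻¹ * (T.rho g 1 1 - 1)‖ < 1 ↔ _
  rw [norm_mul, four]
  constructor <;> intro h <;> linarith

theorem al_mul (g h : GQ) : al T (g * h) = al T g + al T h := by
  rw [← sub_eq_zero, al, al, al, ← map_add, ← map_sub, red_zero]
  have e : ((qa T (g * h) - (qa T g + qa T h) : Z2) : ℚ_[2]) =
      4⁻¹ * (T.rho g 1 0 * T.rho h 0 1 + (T.rho g 1 1 - 1) * (T.rho h 1 1 - 1)) := by
    rw [PadicInt.coe_sub, PadicInt.coe_add]
    simp only [qa, map_mul, Matrix.mul_apply, Fin.sum_univ_two]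
    ring
  have k : ∀ a b : ℚ_[2], ‖a‖ ≤ 4⁻¹ → ‖b‖ ≤ 4⁻¹ → ‖a * b‖ ≤ 4⁻¹ * 4⁻¹ := fun a b ha hb => by
    rw [norm_mul]
    exact mul_le_mul ha hb (norm_nonneg _) (by norm_num)
  have k' := (Padic.nonarchimedean _ _).trans
    (max_le (k _ _ (n10 T g) (n01 T h)) (k _ _ (n11 T g) (n11 T h)))
  rw [e, norm_mul, four]
  linarith

theorem isCh_al : IsCh ⊤ (al T) := by
  refine ⟨?_, fun g _ h _ => al_mul T g h⟩
  obtain ⟨N, hN, h⟩ := T.sm 8⁻¹ (by norm_num)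
  refine ⟨N, hN, fun g _ n _ hn => ?_⟩
  have k : ‖T.rho n 1 1 - 1‖ ≤ 8⁻¹ := by simpa using h n hn 1 1
  rw [al_mul, (al_zero T).2 (k.trans_lt (by norm_num)), add_zero]

theorem unit {z : ℚ_[2]} (k : ‖z - 1‖ < 1) : ‖z‖ = 1 := by
  have := Padic.add_eq_max_of_ne (q := z - 1) (r := 1) (by rw [norm_one]; exact k.ne)
  rwa [sub_add_cancel, norm_one, max_eq_right k.le] at this

/-- the shape of a unipotent matrix -/
theorem shape {A : Mt} {e : V2} (h3 : A *ᵥ e = e) (h4 : ∀ v, ∃ s : ℚ_[2], A *ᵥ v - v = s • e) :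
    ∃ s : V2, (∀ a b, (A - 1) a b = s b * e a) ∧ s 0 * e 0 * e 1 = -(s 1 * e 1 * e 1) := by
  choose s hs using fun b => h4 (Pi.single b 1)
  have hA : ∀ a b, (A - 1) a b = s b * e a := fun a b => by
    have := congrFun (hs b) a
    simpa [Matrix.one_apply, Pi.single_apply] using this
  refine ⟨s, hA, ?_⟩
  have k : ((A - 1) *ᵥ e) 1 = 0 := by
    rw [Matrix.sub_mulVec, h3, Matrix.one_mulVec, sub_self]
    rfl
  rw [Matrix.mulVec, dotProduct, Fin.sum_univ_two, hA, hA] at k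
  linear_combination k

theorem al_three : al T (tp 3) = 0 := by
  have h5 : (pl 3).p = 3 := pl_p (by norm_num)
  have ht : tp 3 ∈ (pl 3).I := tp_I (by norm_num) (by norm_num)
  obtain ⟨e, -, he, -, h1, -⟩ := HA.cf.unip _ T (pl 3) (by rw [h5]; norm_num)
  obtain ⟨s, hA, hz⟩ := shape (h1 _ ht).1 (h1 _ ht).2
  have e0 : ‖e 0‖ < 1 := by simpa using (norm_le_pi_norm _ 0).trans_lt (he h5)
  have e1 : ‖e 1‖ = 1 := unit (by simpa using (norm_le_pi_norm _ 1).trans_lt (he h5))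
  have a1 : ‖s 0‖ ≤ 4⁻¹ := by
    have k := n10 T (tp 3)
    have k' : T.rho (tp 3) 1 0 = s 0 * e 1 := by simpa using hA 1 0
    rwa [k', norm_mul, e1, mul_one] at k
  have a2 : ‖s 0‖ * ‖e 0‖ = ‖s 1‖ := by simpa [e1] using congrArg norm hz
  have a3 : T.rho (tp 3) 1 1 - 1 = s 1 * e 1 := by simpa using hA 1 1
  rw [al_zero, a3, norm_mul, e1, mul_one, ← a2]
  nlinarith [norm_nonneg (s 0), norm_nonneg (e 0)]

theorem al_five : al T (tp 5) ≠ 0 := by
  have h5 : (pl 5).p = 5 := pl_p (by norm_num)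
  have ht : tp 5 ∈ (pl 5).I := tp_I (by norm_num) (by norm_num)
  obtain ⟨e, -, -, he, h1, h2, -⟩ := HA.cf.unip _ T (pl 5) (by rw [h5]; norm_num)
  obtain ⟨⟨a₀, b₀, h0⟩, -⟩ := h2 _ ht (by rw [h5]; exact tp_mov (by norm_num) (by norm_num))
  obtain ⟨s, hA, hz⟩ := shape (h1 _ ht).1 (h1 _ ht).2
  have hn : ∀ a, ‖e a‖ = 1 := fun a => unit (by
    have := (norm_le_pi_norm (e - ![1, 1]) a).trans_lt (he h5)
    fin_cases a <;> simpa using this)
  have hs01 : ‖s 0‖ = ‖s 1‖ := by simpa [hn] using congrArg norm hz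
  have hall : ∀ b, ‖s b‖ = ‖s 1‖ := fun b => by
    fin_cases b
    · exact hs01
    · rfl
  have a3 : T.rho (tp 5) 1 1 - 1 = s 1 * e 1 := by simpa using hA 1 1
  rw [hA, norm_mul, hn, hall] at h0
  rw [Ne, al_zero, a3, norm_mul, hn, h0]
  exact lt_irrefl _

theorem al_eq (h2 : w₂.p = 2) : al T = qz 5 := by
  obtain ⟨m, hm, e⟩ := exists_qz hA (isCh_al T)
  have h4 : m % 4 = 1 := (qz_I_two_iff hA h2 hm).1 fun g hg => by
    rw [← e, al_zero, T.un g hg]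
    norm_num
  have key : ∀ p : ℕ, p.Prime → p ≠ 2 → (al T (tp p) = 0 ↔ ¬ (p : ℤ) ∣ m) := fun p hp p2 => by
    have := qz_gen hA (w := pl p) (by rwa [pl_p hp]) (tp_I hp p2)
      (by rw [pl_p hp]; exact tp_mov hp p2) hm
    rwa [pl_p hp, ← e] at this
  obtain ⟨k, rfl⟩ : ((5 : ℕ) : ℤ) ∣ m :=
    not_not.1 fun h => al_five T ((key 5 (by norm_num) (by norm_num)).2 h)
  have hk : k.natAbs = 1 := Nat.eq_one_iff_not_exists_prime_dvd.2 fun p hp h => by
    have h' : (p : ℤ) ∣ k := Int.natCast_dvd.2 h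
    have p2 : p ≠ 2 := by
      rintro rfl
      push_cast at h' h4
      omega
    refine (key p hp p2).1 ?_ (h'.mul_left _)
    by_cases p3 : p = 3
    · rw [p3]
      exact al_three T
    have p5 : p ≠ 5 := by
      rintro rfl
      have := Int.isUnit_iff.1 (hm _ (mul_dvd_mul_left _ h'))
      omega
    have h30 : ¬ (pl p).p ∣ 30 := by
      rw [pl_p hp]
      intro a
      have := Nat.le_of_dvd (by norm_num) a
      interval_cases p <;> first | omega | norm_num at hp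
    rw [al_zero, (HA.cf.tr _ T _ h30).1 _ (tp_I hp p2)]
    norm_num
  rw [e]
  congr 1
  push_cast at h4 ⊢
  omega

end BAlpha

open BAlpha

/-- the second diagonal entry is five modulo eight exactly on the elements moving `√5` -/
theorem alpha {w₂ : Pl} (T : Tate w₂) (h2 : w₂.p = 2) (g : GQ) :
    ‖T.rho g 1 1 - 1‖ < 4⁻¹ ↔ qz 5 g = 0 := by
  rw [← al_eq T h2, al_zero]

/-- an element of the decomposition group at two whose unit root is five modulo eight -/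
theorem exists_alpha {w₂ : Pl} (T : Tate w₂) (h2 : w₂.p = 2) :
    ∃ f ∈ w₂.D, 4 ∣ (cyc f : ℤ_[2]) - 1 ∧ ‖T.rho f 1 1 - 1‖ = 4⁻¹ := by
  obtain ⟨f, fD, f1, f2⟩ := Pl.exists_f2 hA h2 (rt_sq 5) (by norm_num)
  exact ⟨f, fD, f2, (n11 T f).eq_of_not_lt fun h =>
    f1 ((qz_eq_zero (rt_sq 5)).1 ((alpha T h2 f).1 h))⟩

/-- local cohomology vanishes if a generator of tame inertia has no fixed vector -/
theorem sah2 {W : Type} [NormedAddCommGroup W] [NormedSpace ℚ_[2] W] [IsUltrametricDist W]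
    [FiniteDimensional ℚ_[2] W] {r : GQ → W →ₗ[ℚ_[2]] W} {w : Pl} {t : GQ} {x : GS → W}
    (h2 : w.p ≠ 2) (hr : Rep w.D r) (ht : t ∈ w.I) (hβ : ∀ β : Om, β ^ 2 = w.p → t β = -β)
    (hneg : ∀ v, r t v = v → v = 0) (hx : PZ (fun _ => w.D) r x) : Cob (S1 w.D) r x := by
  have hCF := a_CF
  have inj : Function.Injective (r t - LinearMap.id : W →ₗ[ℚ_[2]] W) := by
    rw [injective_iff_map_eq_zero]
    exact fun v hv => hneg v (sub_eq_zero.1 hv)
  obtain ⟨u, hu⟩ := LinearMap.injective_iff_surjective.1 inj (x (cs t))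
  have hy := hx.sub hr (pz_cob hr (fun _ => le_rfl) u)
  refine ⟨u, fun g hg => ?_⟩
  generalize hv : (x - fun g => rS r g u - u) = y at hy
  have y0 : y (cs t) = 0 := by
    rw [← hv, Pi.sub_apply, rS_cs, ← hu]
    exact sub_self _
  have hle : w.I ⊓ ⊤ ≤ w.D := inf_le_left.trans w.I_le_D
  have yI := a_PTAME W ⊤ r (fun _ => w) (cs t) (fun _ => w.p) y isOpen_univ
    ⟨w.D, hr, fun _ => hle⟩ (Eventually.of_forall fun k => ⟨h2, by
      rw [inf_top_eq]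
      exact (hCF.res w _ w.loc_D).2.2.2.2.1, ⟨ht, trivial⟩, hβ⟩) (hy.mono fun _ => hle) y0
  have hz : cs t ∈ S1 w.D := cs_mem.2 (w.I_le_D ht)
  have e := hy.comm hr (fun _ => le_rfl) hg hz y0
  rw [yI (g * cs t * g⁻¹ * (cs t)⁻¹) (mem_St.2 ((mem_St.1 hg).mono fun k h =>
    ⟨Pl.comm_mem hCF.frob h (w.I_le_D ht), trivial⟩)), hr.rS_mul (mul_mem hg hz) (inv_mem hg),
    hr.rS_mul hg hz, rS_cs, eq_comm, sub_eq_zero] at e
  have e1 := congrArg (rS r g⁻¹) e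
  rw [← hr.rS_mul (inv_mem hg) hg, inv_mul_cancel, hr.rS_one] at e1
  have e2 := congrArg (rS r g) (hneg _ e1.symm)
  rw [← hr.rS_mul hg (inv_mem hg), mul_inv_cancel, hr.rS_one, rS_zero, ← hv] at e2
  exact sub_eq_zero.1 e2

end Pool.Agent.P.MP_8b7eba_nt.R3
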