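import Pool.Agent.P.MP_8b7eba_nt.R3.AIf
import Pool.Agent.P.MP_8b7eba_nt.R3.BAlpha

/-! Proofs of ALP and SAH2. -/

namespace Pool.Agent.P.MP_8b7eba_nt.R2.G

theorem t_ALP : G.ALP := by
  intro w T φ h2 hφ
  refine (R3.BAlpha.n11 T φ).eq_of_not_lt fun h => ?_
  obtain ⟨f, fD, f1, -⟩ := Pl.exists_f2 SM.hA h2 (rt_sq 5) (by norm_num)
  exact f1 ((SM.hA.sq2 w).2.2.1 w.D φ (rt 5) w.loc_D hφ.1 hφ
    (fun i hi => Pl.I_fix_two h2 (rt_sq 5) (by norm_num) hi.1)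
    ((qz_eq_zero (rt_sq 5)).1 ((R3.alpha T h2 φ).1 h)) f fD)

theorem t_SAH2 : G.SAH2 := fun _ _ _ _ _ _ _ _ _ h2 hr ht hβ hneg hx =>
  R3.sah2 h2 hr ht hβ hneg hx

end Pool.Agent.P.MP_8b7eba_nt.R2.G
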