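import Pool.Agent.P.MP_8b7eba_nt.R3.ASel
import Pool.Agent.P.MP_8b7eba_nt.R2.TDATX

/-! Proof of DATX for an arbitrary squarefree twist. -/

namespace Pool.Agent.P.MP_8b7eba_nt.R2.G

open scoped NNReal Matrix
open Filter Topology

namespace TDATX

theorem two : ‖(2 : ℚ_[2])‖ = 2⁻¹ := by simpa using Padic.norm_p (p := 2)

theorem ne {α β c s : ℚ_[2]} (hα : ‖α - 1‖ = 4⁻¹) (hc : ‖c - 1‖ ≤ 8⁻¹) (h : β * α = c)
    (hs : s = 1 ∨ s = -1) : s * β ≠ 1 ∧ s * α ≠ 1 := by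
  rcases hs with rfl | rfl
  · refine ⟨fun e => ?_, fun e => ?_⟩
    · rw [one_mul] at e
      rw [← h, e, one_mul, hα] at hc
      norm_num at hc
    · rw [one_mul] at e
      rw [e, sub_self, norm_zero] at hα
      norm_num at hα
  · refine ⟨fun e => ?_, fun e => ?_⟩
    · have k := Padic.nonarchimedean (α - 1) (c - 1)
      rw [show α - 1 + (c - 1) = -2 by linear_combination -h - α * e, norm_neg, two, hα] at k
      have := k.trans (max_le le_rfl (hc.trans (by norm_num)))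
      norm_num at this
    · rw [show α - 1 = -2 by linear_combination -e, norm_neg, two] at hα
      norm_num at hα

variable {P : Prg} {a : GQ → ℤ_[2]}

theorem spD (hCF : CF) (P : Prg) (w : Pl) (h : (w.p : ℤ) ∣ 30 * P.m) : w.D ≤ P.GK := by
  refine (hCF.karith P.toPre).2.2.2.1 w ?_
  by_cases h30 : w.p ∣ 30
  · exact (Int.natCast_dvd_natCast.2 h30).mul_right _
  · refine (P.sub _ w.prime ?_ h30).mul_left _
    exact ((Nat.prime_iff_prime_int.1 w.prime).dvd_or_dvd h).resolve_left fun e =>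
      h30 (Int.natCast_dvd_natCast.1 e)

theorem exz (hCF : CF) (T : Tate P.w2) (han : Anti P.toPre a) :
    ∃ z ∈ P.GK, z P.dm ≠ P.dm ∧ T.rho z = 1 ∧ a z = 0 := by
  obtain ⟨p, hp, h5, h1⟩ := P.hy.big
  obtain ⟨w, rfl⟩ := hCF.pl.1 p hp
  have h2 : w.p ≠ 2 := by omega
  obtain ⟨t, ht, hβ⟩ := Pl.exists_gen hCF.tame hCF.res h2
  have h3 := spD hCF P w (h1.mul_left 30) (w.I_le_D ht)
  obtain ⟨m, hm⟩ := id h1
  have h4 : ¬ (w.p : ℤ) ∣ m := fun h => hp.one_lt.ne' (by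
    simpa using Int.isUnit_iff_natAbs_eq.1 (P.hy.sq w.p (hm ▸ mul_dvd_mul_left _ h)))
  have h6 := Pl.gen_move hCF.tame hCF.res h2 ht hβ (δ := P.dm) (m := m)
    (by rw [P.hdm, hm]; push_cast; rfl) h4
  refine ⟨t, h3, fun h => P.dm_ne.1 ?_, (hCF.tr _ T w fun h => ?_).1 t ht, han.unr w h2 t ⟨ht, h3⟩⟩
  · rw [h6] at h
    linear_combination (-1 / 2 : Om) * h
  · have := Nat.le_of_dvd (by norm_num) h
    generalize w.p = q at hp h5 h this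
    interval_cases q <;> first | omega | norm_num at hp

theorem exf (hCF : CF) (hALP : ALP) (T : Tate P.w2) (han : Anti P.toPre a) (hS : S2 P.toPre a) :
    ∃ f ∈ P.w2.D, (∀ i, T.rd P.dm f i i ≠ 1) ∧ a f = 0 := by
  have hD := spD hCF P P.w2 (by rw [P.hw2]; exact Dvd.intro (15 * P.m) (by ring))
  obtain ⟨φ, hφ⟩ := Pl.exists_frob hCF.frob P.w2
  obtain ⟨u, hu, h3⟩ : ∃ u : ℤ_[2]ˣ, (u = 1 ∨ u = -1) ∧ 4 ∣ (cyc φ : ℤ_[2]) * u - 1 := by
    rcases (hCF.lg.1.dvd 0 (cyc φ)).1 (by simp) with h | h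
    · exact ⟨1, .inl rfl, by norm_num at h; simpa using h⟩
    · refine ⟨-1, .inr rfl, ?_⟩
      rw [Units.val_neg, Units.val_one, show (cyc φ : ℤ_[2]) * -1 - 1 = -(cyc φ + 1) by ring, dvd_neg]
      norm_num at h
      exact h
  obtain ⟨s, h4, h5, h6⟩ := han.surj hCF.toCA (-a φ) u hu
  have h7 := Pl.I_le_D _ h4
  have h8 : a (φ * s) = 0 := by rw [han.add _ (hD hφ.1) _ (hD h7), h5, add_neg_cancel]
  have h9 := mul_mem hφ.1 h7
  obtain ⟨k, hk⟩ := hS _ (hD h9) (by simp [h8]) (by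
    rw [hCF.ec.2.1, Units.val_mul, show (cyc φ : ℤ_[2]) * cyc s - 1 =
      cyc φ * (cyc s - u) + (cyc φ * u - 1) by ring]
    exact dvd_add (h6.mul_left _) h3)
  have hc : ‖cq (φ * s) - 1‖ ≤ 8⁻¹ := by
    have e : cq (φ * s) - 1 = 2 * 2 * 2 * (k : ℚ_[2]) := by
      have := congrArg (fun x : ℤ_[2] => (x : ℚ_[2])) hk
      simp only [PadicInt.coe_sub, PadicInt.coe_mul, PadicInt.coe_one] at this
      rw [cq, this, show (8 : ℤ_[2]) = 2 * 2 * 2 by norm_num]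
      rfl
    rw [e, norm_mul, norm_mul, norm_mul, two]
    have := k.2
    linarith
  have hα : ‖T.rho (φ * s) 1 1 - 1‖ = 4⁻¹ := by
    rw [← hALP _ T φ P.hw2 hφ, map_mul, Matrix.mul_apply, Fin.sum_univ_two, T.up φ hφ.1,
      T.un s h4, zero_mul, zero_add, mul_one]
  have hd : T.rho (φ * s) 0 0 * T.rho (φ * s) 1 1 = cq (φ * s) := by
    rw [← T.det, Matrix.det_fin_two, T.up _ h9, mul_zero, sub_zero]
  have := ne (s := sd P.dm (φ * s)) hα hc hd (by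
    rcases sd_cases P.dm (φ * s) with e | e <;> simp [e])
  refine ⟨_, h9, fun i => ?_, h8⟩
  fin_cases i
  · exact this.1
  · exact this.2

theorem bad (hCF : CF) (T : Tate P.w2) (han : Anti P.toPre a) {p : ℕ} (hp : p.Prime) (h : p ∣ 15) :
    ∃ (t : GQ) (e : V2), (t ∈ P.GK ∧ a t = 0 ∧ t P.dm = P.dm) ∧ (p = 3 → ‖e - ![0, 1]‖ < 1) ∧
      (p = 5 → ‖e - ![1, 1]‖ < 1) ∧ T.rho t *ᵥ e = e ∧
      (∀ v, ∃ s : ℚ_[2], T.rho t *ᵥ v - v = s • e) ∧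
      ∀ v, T.rho t *ᵥ v = v → ∃ s : ℚ_[2], v = s • e := by
  obtain ⟨w, rfl⟩ := hCF.pl.1 p hp
  have h2 : w.p ≠ 2 := fun e => by rw [e] at h; omega
  obtain ⟨t, ht, hβ⟩ := Pl.exists_gen hCF.tame hCF.res h2
  have ht2 := mul_mem ht ht
  have h3 := spD hCF P w
    ((Int.natCast_dvd_natCast.2 (h.mul_left 2)).mul_right _) (w.I_le_D ht2)
  obtain ⟨e, -, e1, e2, e3, e4, -⟩ := hCF.unip _ T w h
  refine ⟨t * t, e, ⟨h3, han.unr w h2 _ ⟨ht2, h3⟩, ?_⟩, e1, e2, (e3 _ ht2).1, (e3 _ ht2).2,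
    fun v hv => (e4 t ht hβ).2 v ?_⟩
  · rw [← sd_eq_one, sd_mul P.fix_dm, sd_sq]
  · obtain ⟨s, hs⟩ := (e3 t ht).2 v
    rw [sub_eq_iff_eq_add'] at hs
    rw [map_mul, ← Matrix.mulVec_mulVec, hs, Matrix.mulVec_add, hs, Matrix.mulVec_smul,
      (e3 t ht).1, add_assoc, add_eq_left, ← two_smul ℚ_[2], smul_eq_zero,
      or_iff_right two_ne_zero] at hv
    rw [hs, hv, add_zero]

theorem big (hCF : CF) (T : Tate P.w2) (han : Anti P.toPre a) :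
    (∀ B : Mt, B ∈ Submodule.span ℚ_[2]
      (T.rho '' {g | g ∈ P.GK ∧ a g = 0 ∧ g P.dm = P.dm})) ∧
    ∃ g ∈ P.GK, ∃ h ∈ P.GK, (T.rho (g * h * g⁻¹ * h⁻¹) - 1).det ≠ 0 := by
  obtain ⟨s, e, hs, e1, -, e2, e3, e4⟩ := bad hCF T han Nat.prime_three (by norm_num)
  obtain ⟨t, f, ht, -, f1, f2, f3, f4⟩ := bad hCF T han Nat.prime_five (by norm_num)
  have hd := R2.TDATX.det_ne (e1 rfl) (f1 rfl)
  obtain ⟨x, hx⟩ := e3 f
  obtain ⟨y, hy⟩ := f3 e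
  have hx0 : x ≠ 0 := by
    rintro rfl
    obtain ⟨c, rfl⟩ := e4 f (by rwa [zero_smul, sub_eq_zero] at hx)
    exact hd (by simp only [Pi.smul_apply, smul_eq_mul]; ring)
  have hy0 : y ≠ 0 := by
    rintro rfl
    obtain ⟨c, rfl⟩ := f4 e (by rwa [zero_smul, sub_eq_zero] at hy)
    exact hd (by simp only [Pi.smul_apply, smul_eq_mul]; ring)
  have hQ : (!![e 0, f 0; e 1, f 1] : Mt).det ≠ 0 := by rwa [Matrix.det_fin_two_of]
  have hA := R2.TDATX.up e2 hx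
  have hB := R2.TDATX.low f2 hy
  refine ⟨fun M => ?_, s, hs.1, t, ht.1, ?_⟩
  · obtain ⟨c₀, c₁, c₂, c₃, rfl⟩ := R2.TDATX.span hQ hx0 hy0 hA hB M
    refine add_mem (add_mem (add_mem ?_ ?_) ?_) ?_ <;>
      refine Submodule.smul_mem _ _ (Submodule.subset_span ?_)
    · exact ⟨1, ⟨one_mem _, han.one, rfl⟩, map_one _⟩
    · exact ⟨s, hs, rfl⟩
    · exact ⟨t, ht, rfl⟩
    · exact ⟨s * t, ⟨mul_mem hs.1 ht.1, by rw [han.add _ hs.1 _ ht.1, hs.2.1, ht.2.1, add_zero],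
        by rw [AlgEquiv.mul_apply, ht.2.2, hs.2.2]⟩, map_mul _ _ _⟩
  · rw [map_mul, map_mul, map_mul]
    exact R2.TDATX.comm hQ hx0 hy0 hA hB (by rw [← map_mul, inv_mul_cancel, map_one])
      (by rw [← map_mul, inv_mul_cancel, map_one])

end TDATX

theorem t_DATX (hCF : CF) (hALP : ALP) : G.DATX := by
  intro P T a han hS
  choose np hnp using R2.TDATX.np hCF han
  obtain ⟨z, z1, z2, z3, z4⟩ := TDATX.exz hCF T han
  obtain ⟨f, f1, f2, f3⟩ := TDATX.exf hCF hALP T han hS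
  obtain ⟨g, g1, g2, -⟩ := han.surj hCF.toCA 1 1 (.inl rfl)
  obtain ⟨h1, h2⟩ := TDATX.big hCF T han
  exact ⟨⟨P, T, a, han, TDATX.spD hCF P, np,
    fun w φ e1 e2 => hnp _ w φ rfl (P.sub _ w.prime e1 e2), z, z1, z2, z3, z4,
    f, f1, f2, f3, g, g1, g2, h1, h2⟩, rfl, rfl, HEq.rfl⟩

end Pool.Agent.P.MP_8b7eba_nt.R2.G
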