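import Pool.Agent.P.MP_8b7eba_nt.R3.ASel

/-! Proof of DLG. -/

namespace Pool.Agent.P.MP_8b7eba_nt.R2.G

open scoped NNReal Matrix
open MP_9c97e9_nt (Pt pm Is ap Sha Split)
open Filter Topology Polynomial Module

namespace TDLG

theorem ord {G : Type} [Group G] {A N : Subgroup G} [N.Normal] {t : G} (ht : t ∈ A)
    (h : ∀ g ∈ A, ∃ m : ℕ, (t ^ m)⁻¹ * g ∈ N) : orderOf (t : G ⧸ N) = N.relIndex A := by
  have e : orderOf ((⟨t, ht⟩ : A) : A ⧸ N.subgroupOf A) = N.relIndex A :=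
    orderOf_eq_card_of_forall_mem_powers fun x => by
      obtain ⟨g, rfl⟩ := QuotientGroup.mk_surjective x
      obtain ⟨m, hm⟩ := h g g.2
      exact ⟨m, (QuotientGroup.mk_pow _ _ m).symm.trans (QuotientGroup.eq.2 hm)⟩
  rw [← e, orderOf_eq_orderOf_iff]
  intro n
  rw [← QuotientGroup.mk_pow, ← QuotientGroup.mk_pow, QuotientGroup.eq_one_iff,
    QuotientGroup.eq_one_iff]
  rfl

theorem modEq {G : Type} [Group G] {N : Subgroup G} [N.Normal] {t : G} {n : ℕ}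
    (h : orderOf (t : G ⧸ N) = n) (a b : ℕ) : (t ^ a)⁻¹ * t ^ b ∈ N ↔ a ≡ b [MOD n] := by
  rw [← QuotientGroup.eq, QuotientGroup.mk_pow, QuotientGroup.mk_pow, pow_eq_pow_iff_modEq, h]

theorem red {G : Type} [Group G] {N : Subgroup G} [N.Normal] {t s : G} {n m : ℕ}
    (h : orderOf (t : G ⧸ N) = n) (hm : (t ^ m)⁻¹ * s ∈ N) : (t ^ (m % n))⁻¹ * s ∈ N := by
  simpa [mul_assoc] using N.mul_mem ((modEq h _ _).2 (Nat.mod_modEq m n)) hm

theorem sum {M : Type} [AddCommGroup M] {A N : Subgroup GQ} [N.Normal] {t : GQ} {n : ℕ}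
    (ht : t ∈ A) (h : ∀ g ∈ A, ∃ m : ℕ, (t ^ m)⁻¹ * g ∈ N) (ho : orderOf (t : GQ ⧸ N) = n)
    (hn : 0 < n) {f : GQ → M} (hf : RI A N f) : csum A N f = ∑ m ∈ Finset.range n, f (t ^ m) :=
  csum_eq_sum _ _ hf (fun m _ => A.pow_mem ht m)
    (fun i hi j hj e => ((modEq ho i j).1 e).eq_of_lt_of_lt (Finset.mem_range.1 hi)
      (Finset.mem_range.1 hj))
    fun g hg => let ⟨m, hm⟩ := h g hg; ⟨m % n, Finset.mem_range.2 (Nat.mod_lt m hn), red ho hm⟩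

theorem dvd {a : ℤ} {k : ℕ} (h : ‖(a : ℚ_[2])‖ ≤ (2 ^ k)⁻¹) : 2 ^ k ∣ a :=
  (Padic.norm_int_le_pow_iff_dvd (p := 2) a k).1 (by simpa using h)

theorem mat {A B : Mt} {ε : ℝ} (hA : ∀ i j, ‖A i j‖ ≤ 1) (hB : ∀ i j, ‖B i j‖ ≤ 1)
    (h : ∀ i j, ‖(A - B) i j‖ ≤ ε) : ‖A.det - B.det‖ ≤ ε ∧ ‖A.trace - B.trace‖ ≤ ε := by
  have m : ∀ i j {x : ℚ_[2]}, ‖x‖ ≤ 1 → ‖(A - B) i j * x‖ ≤ ε := fun i j x hx =>
    (norm_mul_le _ _).trans ((mul_le_of_le_one_right (norm_nonneg _) hx).trans (h i j))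
  constructor
  · refine (congrArg norm ?_).trans_le (Csum.add_le (Csum.add_le (m 0 0 (hA 1 1)) (m 1 1 (hB 0 0)))
      (Csum.add_le (m 0 1 ((norm_neg _).trans_le (hA 1 0))) (m 1 0 ((norm_neg _).trans_le (hB 0 1)))))
    simp only [Matrix.det_fin_two, Matrix.sub_apply]
    ring
  · refine (congrArg norm ?_).trans_le (Csum.add_le (h 0 0) (h 1 1))
    simp only [Matrix.trace_fin_two, Matrix.sub_apply]
    ring

theorem gen (hCF : CF) (D : Dat) (H : Heeg D.toPrg D.a) (l : Kp D) (k c : ℕ)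
    (h1 : c.Coprime D.l) (h2 : c ≠ 0) (h3 : ¬ (l.w k).p ∣ c) :
    l.t k ∈ H.N c ∧ (∀ g ∈ H.N c, ∃ m : ℕ, (l.t k ^ m)⁻¹ * g ∈ H.N (c * (l.w k).p)) ∧
      (H.N (c * (l.w k).p)).relIndex (H.N c) = 2 ^ padicValNat 2 ((l.w k).p + 1) := by
  have hp := (l.w k).prime
  have b : ¬ (l.w k).p ∣ 30 * D.l := fun h => l.big k (Dvd.dvd.mul_right (by exact_mod_cast h) _)
  have p2 : (l.w k).p ≠ 2 := fun h => b (h ▸ Dvd.dvd.mul_right (by norm_num) _)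
  have hI : (l.w k).I ≤ D.GK := fun g hg =>
    Pl.I_fix hCF.tame hCF.res p2 (m := -D.l) (by rw [D.hsk]; push_cast; rfl)
      (fun h => b (Dvd.dvd.mul_left (by exact_mod_cast dvd_neg.1 h) _)) hg
  obtain ⟨i1, i2, -⟩ := H.inert c (l.w k) (l.F k) h1 h2
    (fun h => ((Nat.Prime.dvd_mul hp).1 h).elim b h3) (l.fr k) (l.out k)
  refine ⟨H.unr c _ p2 h3 ⟨l.tI k, hI (l.tI k)⟩, fun g hg => ?_, i1⟩
  obtain ⟨i, hi, e⟩ := i2 g hg
  obtain ⟨m, r, hr, e1⟩ := (hCF.tame2 (l.w k) (l.w k).D (l.w k).p (l.t k) p2 (l.w k).loc_D (by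
    rw [inf_eq_left.2 (l.w k).I_le_D]
    exact (hCF.res _ _ (l.w k).loc_D).2.2.2.2.1) ⟨l.tI k, (l.tI k).1⟩ (l.mov k) _
    (H.on (c * (l.w k).p))).1 i ⟨hi, hi.1⟩
  obtain ⟨j, e2⟩ := H.two (c * (l.w k).p) _
    (hI (mul_mem hi (inv_mem (pow_mem (l.tI k) m))))
  have := (H.on (c * (l.w k).p)).1
  have e3 : i * (l.t k ^ m)⁻¹ ∈ H.N (c * (l.w k).p) := by
    rw [← QuotientGroup.eq_one_iff] at e1 e2 ⊢
    rw [QuotientGroup.mk_pow] at e1 e2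
    exact (pow_eq_one_iff_of_coprime
      (Nat.Coprime.pow_right j (Nat.coprime_two_right.2 hr))).1 ⟨e1, e2⟩
  refine ⟨m, ?_⟩
  simpa [mul_assoc] using mul_mem (this.conj_mem' _ e3 (l.t k ^ m)) e

end TDLG

open TDLG in
theorem t_DLG (hCF : CF) : DLG := by
  rintro D H l k c q v rfl rfl h1 h2 h3
  have hp := (l.w k).prime
  have b : ¬ (l.w k).p ∣ 30 * D.l := fun h => l.big k (Dvd.dvd.mul_right (by exact_mod_cast h) _)
  obtain ⟨a1, a2, a3⟩ := gen hCF D H l k c h1 h2 h3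
  obtain ⟨b1, b2, b3⟩ := gen hCF D H l k 1 (Nat.coprime_one_left _) one_ne_zero hp.not_dvd_one
  rw [one_mul, H.one] at b2 b3
  rw [H.one] at b1
  have n1 := (H.on (c * (l.w k).p)).1
  have n2 := (H.on (l.w k).p).1
  have o1 := (ord a1 a2).trans a3
  have o2 := (ord b1 b2).trans b3
  have hc : (c * (l.w k).p).Coprime D.l := Nat.Coprime.mul_left h1
    ((Nat.Prime.coprime_iff_not_dvd hp).2 fun h => b (h.mul_left _))
  have l1 := H.anti c _ (dvd_mul_right c _) hc (mul_ne_zero h2 hp.ne_zero)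
  have l2 := H.anti _ _ (dvd_mul_left _ c) hc (mul_ne_zero h2 hp.ne_zero)
  obtain ⟨t1, t2⟩ := (hCF.tr _ D.T (l.w k) fun h => b (h.mul_right _)).2 _ (l.fr k)
  obtain ⟨-, t3, t4⟩ := D.T.tau hCF.tau hCF.ec
  obtain ⟨m1, m2⟩ := mat (D.T.int _) (D.T.int _) (l.rho k)
  rw [t2, t3, sub_neg_eq_add] at m1
  rw [t1, t4, sub_zero] at m2
  have pos : 0 < 2 ^ padicValNat 2 ((l.w k).p + 1) := by positivity
  have e : H.N (c * (l.w k).p) = H.N c ⊓ H.N (l.w k).p := by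
    refine le_antisymm (le_inf l1 l2) fun g hg => ?_
    obtain ⟨m, hm⟩ := a2 g hg.1
    have : (l.t k ^ 0)⁻¹ * l.t k ^ m ∈ H.N (l.w k).p := by
      simpa using (H.N _).mul_mem hg.2 ((H.N _).inv_mem (l2 hm))
    simpa using mul_mem ((modEq o1 0 m).2 ((modEq o2 0 m).1 this)) hm
  have d : ∀ s ∈ D.GK, (l.t k ^ dlg (H.N (l.w k).p) (l.t k) s)⁻¹ * s ∈ H.N (l.w k).p :=
    fun s hs => Nat.sInf_mem (b2 s hs)
  refine ⟨(padicValNat_dvd_iff_le (Nat.succ_ne_zero _)).1 ?_, dvd m2, a1, e, fun m => ?_,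
    fun s hs => ⟨?_, d s hs, fun s' hs' => ?_⟩, fun M _ f hf => ?_⟩
  · exact_mod_cast dvd (a := (l.w k).p + 1) (by exact_mod_cast m1)
  · rw [← Nat.modEq_zero_iff_dvd, Nat.ModEq.comm, ← modEq o2, pow_zero, inv_one, one_mul]
  · have := red o2 (d s hs)
    exact (Nat.sInf_le (s := {m | (l.t k ^ m)⁻¹ * s ∈ H.N (l.w k).p}) this).trans_lt
      (Nat.mod_lt _ pos)
  · rw [← modEq o2, ← QuotientGroup.eq, pow_add, QuotientGroup.mk_mul, QuotientGroup.eq.2 (d s hs),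
      QuotientGroup.eq.2 (d s' hs'), QuotientGroup.eq.2 (d _ (mul_mem hs hs')),
      QuotientGroup.mk_mul]
  have r : ∀ s ∈ D.GK, ∀ c', RI (H.N c') (H.N (c * (l.w k).p)) fun u => f (s * u) :=
    fun s hs c' u hu g _ hg =>
      (congrArg f (mul_assoc s u g).symm).trans (hf _ (mul_mem hs (H.le c' hu)) g hg)
  have tr := fun c' h => csum_trans (f := f) (H.le c') h
    (relIndex_ne_zero (H.on (c * (l.w k).p)).2 _) fun s hs g _ hg => hf s hs g hg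
  refine ⟨(tr _ l2).trans (sum b1 b2 o2 pos fun s hs g _ hg => ?_),
    (tr _ l1).trans (csum_congr fun s hs => sum a1 a2 o1 pos (r s hs c)),
    sum a1 a2 o1 pos fun s hs g _ hg => hf s (H.le c hs) g hg, fun f' hf' => ?_⟩
  · simpa only [mul_assoc] using csum_left (r s hs _) hg
  · rw [e, inf_comm]
    refine csum_of_surj (H.le _) (fun g hg => ?_) fun s hs g _ hg => hf' s hs g hg
    obtain ⟨m, hm⟩ := b2 g hg
    exact ⟨g * (l.t k ^ m)⁻¹, by simpa [mul_assoc] using n2.conj_mem _ hm (l.t k ^ m),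
      by simpa using pow_mem a1 m⟩

end Pool.Agent.P.MP_8b7eba_nt.R2.G
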