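import Pool.Agent.P.MP_8b7eba_nt.R3.ASel

/-! Proof of INVP. -/

namespace Pool.Agent.P.MP_8b7eba_nt.R2.G

open scoped NNReal Matrix
open MP_9c97e9_nt (Pt pm Is ap Sha Split)
open Filter Topology Polynomial Module

namespace TINVP

variable {D : Dat} (H : Heeg D.toPrg D.a)

/-- the points fixed by `N` -/
noncomputable def FA (N : Subgroup GQ) : AddSubgroup EO where
  carrier := {P | ∀ s ∈ N, ac s P = P}
  zero_mem' := fun s _ => map_zero _
  add_mem' := fun ha hb s hs => by rw [map_add, ha s hs, hb s hs]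
  neg_mem' := fun ha s hs => by rw [map_neg, ha s hs]

/-- multiples of fixed points -/
noncomputable def FB (N : Subgroup GQ) (k : ℕ) : AddSubgroup EO :=
  (FA N).map (nsmulAddMonoidHom (2 ^ k))

theorem tac_mem {N : Subgroup GQ} (hN : ON N) (δ : Om) (s : GQ) {P : EO} (h : P ∈ FA N) :
    tac δ s P ∈ FA N := by
  refine (FA N).zsmul_mem (x := ac s P) (fun g hg => ?_) _
  rw [← ac_mul, show g * s = s * (s⁻¹ * g * s⁻¹⁻¹) by group, ac_mul, h _ (hN.1.conj_mem g hg _)]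

theorem smul_mem {N : Subgroup GQ} {k : ℕ} {z : ℤ} (hz : 2 ^ k ∣ z) {P : EO} (h : P ∈ FA N) :
    z • P ∈ FB N k := by
  obtain ⟨z, rfl⟩ := hz
  exact ⟨z • P, (FA N).zsmul_mem h z, by
    rw [nsmulAddMonoidHom_apply, mul_smul, ← natCast_zsmul]; push_cast; rfl⟩

/-- weighted sums of conjugates -/
noncomputable def Phi (c k : ℕ) (f : GQ → ℤ) (j : ZMod (2 ^ k)) : EO :=
  csum D.GK (H.N c) fun s => if D.ak k s = j then f s • tac D.dm s (H.y c) else 0

theorem Phi_add (c k : ℕ) (f f' : GQ → ℤ) (j : ZMod (2 ^ k)) :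
    Phi H c k (fun s => f s + f' s) j = Phi H c k f j + Phi H c k f' j := by
  rw [Phi, Phi, Phi, ← csum_add (relIndex_ne_zero (H.on c).2 _)]
  exact csum_congr fun s _ => by split_ifs <;> simp [add_smul]

/-- admissible conductors -/
def Cd (D : Dat) (k c : ℕ) : Prop :=
  c.Coprime D.l ∧ c ≠ 0 ∧ 2 ^ (k + 2) ∣ c ∧ 8 * R3.od D.m ∣ c

theorem Cd.triv {k c : ℕ} (h : Cd D k c) {g : GQ} (hg : g ∈ H.N c) :
    D.ak k g = 0 ∧ g D.dm = D.dm :=
  ⟨D.ak_eq_zero.2 ((H.pow k g).1 (H.anti _ _ h.2.2.1 h.1 h.2.1 hg)).2.1,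
    H.gen g (H.anti _ _ h.2.2.2 h.1 h.2.1 hg)⟩

theorem Cd.tac {k c : ℕ} (h : Cd D k c) {g : GQ} (hg : g ∈ H.N c) (P : EO) :
    tac D.dm g P = ac g P := by
  rw [tac_apply, sd_eq_one.2 (h.triv H hg).2, one_smul]

theorem Cd.ri {k c : ℕ} (h : Cd D k c) {f : GQ → ℤ} (j : ZMod (2 ^ k))
    (hf : ∀ s ∈ D.GK, ∀ g ∈ H.N c, f (s * g) = f s) (s : GQ) (hs : s ∈ D.GK) (g : GQ)
    (hg : g ∈ H.N c) :
    (if D.ak k (s * g) = j then f (s * g) • R2.tac D.dm (s * g) (H.y c) else 0) =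
      if D.ak k s = j then f s • R2.tac D.dm s (H.y c) else 0 := by
  rw [D.ak_mul k hs (H.le c hg), (h.triv H hg).1, add_zero, hf s hs g hg, tac_mul D.fix_dm,
    h.tac H hg, H.fix c g hg]

theorem cop (l : Kp D) (k : ℕ) : ¬ (l.w k).p ∣ 30 * D.l ∧ ¬ (l.w k).p ∣ R3.od D.m ∧
    (l.w k).p.Coprime D.l := by
  have h1 : ¬ (l.w k).p ∣ 30 * D.l := fun h => l.big k (Dvd.dvd.mul_right (by exact_mod_cast h) _)
  exact ⟨h1, fun h => l.big k (Dvd.dvd.mul_left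
    ((Int.natCast_dvd_natCast.2 h).trans D.od_spec.2.2.1) _),
    (l.w k).prime.coprime_iff_not_dvd.2 fun h => h1 (h.mul_left _)⟩

theorem key (hDLG : DLG) (l : Kp D) {k c : ℕ} (hc : Cd D k c) (hq : ¬ (l.w k).p ∣ c) (f : GQ → ℤ)
    (j : ZMod (2 ^ k)) (hf : ∀ s ∈ D.GK, ∀ g ∈ H.N (c * (l.w k).p), f (s * g) = f s)
    (ht : ∀ s ∈ D.GK, 2 ^ k ∣ f (s * l.t k) - f s) :
    Phi H (c * (l.w k).p) k f j ∈ FB (H.N (c * (l.w k).p)) k := by
  obtain ⟨-, h2, h3, h4, -, -, h7⟩ := hDLG D H l k c _ _ rfl rfl hc.1 hc.2.1 hq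
  have hc' : Cd D k (c * (l.w k).p) := ⟨Nat.Coprime.mul_left hc.1 (cop l k).2.2,
    mul_ne_zero hc.2.1 (l.w k).prime.ne_zero, hc.2.2.1.mul_right _, hc.2.2.2.mul_right _⟩
  have hy : H.y (c * (l.w k).p) ∈ FA (H.N (c * (l.w k).p)) := H.fix _
  have hy' : H.y c ∈ FA (H.N (c * (l.w k).p)) := fun g hg => H.fix c g (h4 ▸ hg).1
  have e1 := (h7 EO (fun s => ac s (H.y (c * (l.w k).p))) fun s _ g hg => by
    rw [ac_mul, H.fix _ g hg]).2.2.1
  rw [(H.inert c (l.w k) (l.F k) hc.1 hc.2.1 (fun h =>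
    (((l.w k).prime.dvd_mul).1 h).elim (cop l k).1 hq) (l.fr k) (l.out k)).2.2.1] at e1
  rw [Phi, (h7 EO _ (hc'.ri H j hf)).2.1]
  refine csum_mem _ fun s hs => ?_
  have hm : ∀ m : ℕ, l.t k ^ m ∈ H.N c := fun m => pow_mem h3 m
  have e2 : ∀ m : ℕ, D.ak k (s * l.t k ^ m) = D.ak k s := fun m => by
    rw [D.ak_mul k hs (H.le c (hm m)), (hc.triv H (hm m)).1, add_zero]
  have e3 : ∀ m : ℕ, 2 ^ k ∣ f (s * l.t k ^ m) - f s := fun m => by
    induction m with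
    | zero => simp
    | succ m ih =>
      have := (ht _ (mul_mem hs (H.le c (hm m)))).add ih
      rwa [sub_add_sub_cancel, mul_assoc, ← pow_succ] at this
  simp only [e2]
  split_ifs
  · have e4 : ∑ m ∈ Finset.range (2 ^ padicValNat 2 ((l.w k).p + 1)),
        f (s * l.t k ^ m) • tac D.dm (s * l.t k ^ m) (H.y (c * (l.w k).p)) =
        ∑ m ∈ Finset.range (2 ^ padicValNat 2 ((l.w k).p + 1)),
          (f (s * l.t k ^ m) - f s) • tac D.dm (s * l.t k ^ m) (H.y (c * (l.w k).p)) +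
          (f s * ap W15 (l.w k).p) • tac D.dm s (H.y c) := by
      rw [mul_smul, ← map_zsmul, e1, map_sum, Finset.smul_sum, ← Finset.sum_add_distrib]
      refine Finset.sum_congr rfl fun m _ => ?_
      rw [tac_mul D.fix_dm, hc.tac H (hm m), sub_smul, sub_add_cancel]
    rw [e4]
    exact add_mem (sum_mem fun m _ => smul_mem (e3 m) (tac_mem (H.on _) _ _ hy))
      (smul_mem (((pow_dvd_pow 2 k.le_succ).trans h2).mul_left _) (tac_mem (H.on _) _ _ hy'))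
  · rw [Finset.sum_const_zero]
    exact zero_mem _

theorem cd (n : List (Kp D)) (k : ℕ) : Cd D k (D.ck n k) := by
  refine ⟨Nat.Coprime.mul_left (Nat.Coprime.mul_left (Nat.Coprime.pow_left _ ?_) ?_) ?_,
    mul_ne_zero (mul_ne_zero (by positivity) D.od_spec.2.1.ne_zero) ?_,
    ((pow_dvd_pow 2 (by omega)).mul_right _).mul_right _,
    (mul_dvd_mul_right (pow_dvd_pow 2 (by omega : 3 ≤ max k 1 + 2)) _).mul_right _⟩
  · have := D.l16
    exact Nat.prime_two.coprime_iff_not_dvd.2 (by omega)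
  · exact Nat.isCoprime_iff_coprime.1 (D.mcop.of_isCoprime_of_dvd_left D.od_spec.2.2.1)
  · refine Nat.coprime_list_prod_left_iff.2 fun q hq => ?_
    obtain ⟨l, -, rfl⟩ := List.mem_map.1 hq
    exact (cop l k).2.2
  · refine List.prod_ne_zero fun h => ?_
    obtain ⟨l, -, e⟩ := List.mem_map.1 h
    exact (l.w k).prime.ne_zero e

theorem key' (hDLG : DLG) {n : List (Kp D)} (hn : Ok n) {l : Kp D} (hl : l ∈ n) (k : ℕ)
    (f : GQ → ℤ) (j : ZMod (2 ^ k)) (hf : ∀ s ∈ D.GK, ∀ g ∈ H.N (D.ck n k), f (s * g) = f s)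
    (ht : ∀ s ∈ D.GK, 2 ^ k ∣ f (s * l.t k) - f s) :
    Phi H (D.ck n k) k f j ∈ FB (H.N (D.ck n k)) k := by
  obtain ⟨a, b, rfl⟩ := List.append_of_mem hl
  have e : D.ck (a ++ l :: b) k = D.ck (a ++ b) k * (l.w k).p := by
    simp only [Dat.ck, List.map_append, List.map_cons, List.prod_append, List.prod_cons]
    ring
  rw [e] at hf ⊢
  refine key H hDLG l (cd _ k) (fun h => ?_) f j hf ht
  have hp := (l.w k).prime
  rcases hp.dvd_mul.1 h with h | h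
  · rcases hp.dvd_mul.1 h with h | h
    · exact (cop l k).1 ((hp.dvd_of_dvd_pow h).trans (Dvd.dvd.mul_right (by norm_num) _))
    · exact (cop l k).2.1 h
  · obtain ⟨q, hq, h⟩ := (Prime.dvd_prod_iff hp.prime).1 h
    obtain ⟨l', hl', rfl⟩ := List.mem_map.1 hq
    have e' := (Nat.prime_dvd_prime_iff_eq hp (l'.w k).prime).1 h
    obtain ⟨-, h2, h3⟩ := List.pairwise_append.1 hn
    rcases List.mem_append.1 hl' with hl' | hl'
    · exact h3 l' hl' l List.mem_cons_self k e'.symm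
    · exact (List.pairwise_cons.1 h2).1 l' hl' k e'

theorem dlg_mul {N : Subgroup GQ} (t s : GQ) {g : GQ} (hg : g ∈ N) : dlg N t (s * g) = dlg N t s := by
  simp only [dlg, ← mul_assoc, N.mul_mem_cancel_right hg]

/-- the weights -/
noncomputable def wt (n : List (Kp D)) (k : ℕ) (s : GQ) : ℤ :=
  ((n.map fun l => dlg (H.N (l.w k).p) (l.t k) s).prod : ℕ)

theorem wt_cons (l : Kp D) (n : List (Kp D)) (k : ℕ) (s : GQ) :
    wt H (l :: n) k s = dlg (H.N (l.w k).p) (l.t k) s * wt H n k s := by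
  simp [wt]

theorem wt_mul (n : List (Kp D)) (k : ℕ) (s : GQ) {g : GQ} (hg : ∀ l ∈ n, g ∈ H.N (l.w k).p) :
    wt H n k (s * g) = wt H n k s := by
  rw [wt, wt, List.map_congr_left fun l hl => dlg_mul _ s (hg l hl)]

theorem le_q {n : List (Kp D)} {l : Kp D} (hl : l ∈ n) (k : ℕ) :
    H.N (D.ck n k) ≤ H.N (l.w k).p :=
  H.anti _ _ (Dvd.dvd.mul_left (List.dvd_prod (List.mem_map_of_mem hl)) _) (cd n k).1 (cd n k).2.1

theorem t_mem (hDLG : DLG) {l l' : Kp D} {k : ℕ} (h : (l.w k).p ≠ (l'.w k).p) :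
    l.t k ∈ H.N (l'.w k).p :=
  (hDLG D H l k _ _ _ rfl rfl (cop l' k).2.2 (l'.w k).prime.ne_zero fun e =>
    h ((Nat.prime_dvd_prime_iff_eq (l.w k).prime (l'.w k).prime).1 e)).2.2.1

theorem tele (hDLG : DLG) {n : List (Kp D)} (hn : Ok n) (k : ℕ) (j : ZMod (2 ^ k)) {u : GQ}
    (hu : u ∈ D.GK) (n' : List (Kp D)) (h1 : n' ⊆ n) (h2 : Ok n') (h : GQ → ℤ)
    (hf : ∀ s ∈ D.GK, ∀ g ∈ H.N (D.ck n k), h (s * g) = h s)
    (ht : ∀ l ∈ n', ∀ s ∈ D.GK, h (s * l.t k) = h s) :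
    Phi H (D.ck n k) k (fun s => h s * (wt H n' k (u * s) - wt H n' k s)) j ∈
      FB (H.N (D.ck n k)) k := by
  induction n' generalizing h with
  | nil => exact csum_mem _ fun s _ => by simp [wt]
  | cons l n' ih =>
    obtain ⟨hl, h3⟩ := List.cons_subset.1 h1
    obtain ⟨h4, h5⟩ := List.pairwise_cons.1 h2
    have e : (fun s => h s * (wt H (l :: n') k (u * s) - wt H (l :: n') k s)) = fun s =>
        h s * (dlg (H.N (l.w k).p) (l.t k) (u * s) - dlg (H.N (l.w k).p) (l.t k) s) *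
          wt H n' k (u * s) +
        h s * dlg (H.N (l.w k).p) (l.t k) s * (wt H n' k (u * s) - wt H n' k s) := by
      funext s
      rw [wt_cons, wt_cons]
      ring
    rw [e, Phi_add]
    refine add_mem (key' H hDLG hn hl k _ j (fun s hs g hg => ?_) fun s hs => ?_)
      (ih h3 h5 _ (fun s hs g hg => ?_) fun l' hl' s hs => ?_)
    · simp only [← mul_assoc, hf s hs g hg, dlg_mul _ _ (le_q H hl k hg),
        wt_mul H n' k _ fun l' hl' => le_q H (h3 hl') k hg]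
    · obtain ⟨a1, -, a3, -, -, a6, -⟩ := hDLG D H l k 1 _ _ rfl rfl (Nat.coprime_one_left _)
        one_ne_zero (l.w k).prime.not_dvd_one
      have b : ∀ s ∈ D.GK, (2 : ℤ) ^ k ∣ (dlg (H.N (l.w k).p) (l.t k) (u * s) : ℤ) -
          dlg (H.N (l.w k).p) (l.t k) s - dlg (H.N (l.w k).p) (l.t k) u := fun s hs => by
        have := (((a6 u hu).2.2 s hs).of_dvd (pow_dvd_pow 2 (k.le_succ.trans a1))).symm.dvd
        push_cast at this
        rwa [← sub_sub, sub_right_comm] at this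
      rw [ht l List.mem_cons_self s hs, ← mul_assoc u s,
        wt_mul H n' k _ fun l' hl' => t_mem H hDLG (h4 l' hl' k), ← sub_mul, ← mul_sub, mul_assoc u]
      refine Dvd.dvd.mul_right (Dvd.dvd.mul_left ?_ _) _
      have := (b _ (mul_mem hs (H.le 1 a3))).sub (b s hs)
      rwa [sub_sub_sub_cancel_right] at this
    · simp only [hf s hs g hg, dlg_mul _ _ (le_q H hl k hg)]
    · simp only [ht l' (List.mem_cons_of_mem _ hl') s hs,
        dlg_mul _ _ (t_mem H hDLG (h4 l' hl' k).symm)]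

theorem PP_eq (n : List (Kp D)) (k : ℕ) (j : ZMod (2 ^ k)) :
    D.PP H n k j = Phi H (D.ck n k) k (wt H n k) j := by
  simp only [Dat.PP, Phi, wt, natCast_zsmul]

theorem tac_PP (n : List (Kp D)) (k : ℕ) (j : ZMod (2 ^ k)) {g : GQ} (hg : g ∈ D.GK) :
    tac D.dm g (D.PP H n k (j - D.ak k g)) =
      Phi H (D.ck n k) k (fun s => wt H n k (g⁻¹ * s)) j := by
  rw [PP_eq, Phi, map_csum (relIndex_ne_zero (H.on _).2 _), Phi]
  refine .trans (csum_congr fun s hs => ?_) (csum_left (fun s hs u _ hu =>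
    (cd n k).ri H j (f := fun s => wt H n k (g⁻¹ * s)) (fun s _ u hu => by
      rw [← mul_assoc, wt_mul H n k _ fun l hl => le_q H hl k hu]) s hs u hu) hg)
  rw [D.ak_mul k hg hs, inv_mul_cancel_left, tac_mul D.fix_dm]
  by_cases e : D.ak k s = j - D.ak k g
  · rw [if_pos e, if_pos (by rw [e, add_sub_cancel]), map_zsmul]
  · rw [if_neg e, if_neg fun e' => e (by rw [← e', add_sub_cancel_left]), map_zero]

theorem diff (hDLG : DLG) {n : List (Kp D)} (hn : Ok n) (k : ℕ) (j : ZMod (2 ^ k)) {g : GQ}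
    (hg : g ∈ D.GK) :
    tac D.dm g (D.PP H n k (j - D.ak k g)) - D.PP H n k j ∈ FB (H.N (D.ck n k)) k := by
  have h1 := tele H hDLG hn k j (inv_mem hg) n (List.Subset.refl _) hn (fun _ => 1)
    (fun _ _ _ _ => rfl) fun _ _ _ _ => rfl
  have h2 := Phi_add H (D.ck n k) k (fun s => 1 * (wt H n k (g⁻¹ * s) - wt H n k s)) (wt H n k) j
  simp only [one_mul, sub_add_cancel] at h1 h2
  rwa [tac_PP H n k j hg, PP_eq, h2, add_sub_cancel_right]

theorem kd (hDLG : DLG) {n : List (Kp D)} (hn : Ok n) : ∃ v, D.KD H n v := by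
  suffices h : ∀ k, ∃ u : GQ → ℕ → V2, Sm D.GK u ∧ (∀ g j, ‖u g j‖ ≤ 1) ∧
      ∃ (Q : ZMod (2 ^ k) → EO) (R : GQ → ZMod (2 ^ k) → EO), ∀ j, 2 ^ k • Q j = D.PP H n k j ∧
        ∀ g ∈ D.GK, (∀ s ∈ H.N (D.ck n k), ac s (R g j) = R g j) ∧
          (tac D.dm g (D.PP H n k (j - D.ak k g)) = D.PP H n k j → R g j = 0) ∧
          D.T.pt ((2 ^ k : ℚ_[2])⁻¹ • u g j.val) =
            tac D.dm g (Q (j - D.ak k g)) - Q j - R g j by
    choose v hv using h
    exact ⟨v, hv⟩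
  intro k
  choose Q hQ using fun j => exists_div (D.PP H n k j) k
  have h1 : ∀ P : EO, ∃ R ∈ FA (H.N (D.ck n k)), (P = 0 → R = 0) ∧
      (P ∈ FB (H.N (D.ck n k)) k → 2 ^ k • R = P) := fun P => by
    by_cases h0 : P = 0
    · exact ⟨0, zero_mem _, fun _ => rfl, fun _ => by rw [h0, smul_zero]⟩
    by_cases h : P ∈ FB (H.N (D.ck n k)) k
    · obtain ⟨R, hR, e⟩ := h
      exact ⟨R, hR, fun h => absurd h h0, fun _ => e⟩
    · exact ⟨0, zero_mem _, fun _ => rfl, fun h' => absurd h' h⟩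
  choose r r1 r2 r3 using h1
  have h2 : ∀ P : EO, ∃ v : V2, ‖v‖ ≤ 2 ^ k ∧ (2 ^ k • P = 0 → D.T.pt v = P) := fun P => by
    by_cases h : 2 ^ k • P = 0
    · obtain ⟨v, rfl⟩ := D.T.surj P k h
      exact ⟨v, D.T.pt_pow.1 h, fun _ => rfl⟩
    · exact ⟨0, by simp, fun h' => absurd h' h⟩
  choose sc s1 s2 using h2
  have hs : ∀ X : ZMod (2 ^ k) → EO, Sm D.GK fun g j => tac D.dm g (X j) := fun X =>
    Sm.pi fun j => (sm_sd D.dm).comp₂ (sm_ac (X j)) fun a b => a • b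
  have ha : Sm D.GK (D.ak k) := ⟨_, H.on (D.ck n k), fun g hg u hu hu' => by
    rw [D.ak_mul k hg hu, ((cd n k).triv H hu').1, add_zero]⟩
  refine ⟨fun g i => (2 ^ k : ℚ_[2]) • sc (tac D.dm g (Q (i - D.ak k g)) - Q i -
      r (tac D.dm g (D.PP H n k (i - D.ak k g)) - D.PP H n k i)),
    (((hs Q).comp₂ (hs (D.PP H n k)) Prod.mk).comp₂ ha fun p a (i : ℕ) =>
      (2 ^ k : ℚ_[2]) • sc (p.1 (i - a) - Q i - r (p.2 (i - a) - D.PP H n k i))), fun g i => ?_, Q,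
    fun g j => r (tac D.dm g (D.PP H n k (j - D.ak k g)) - D.PP H n k j), fun j =>
    ⟨hQ j, fun g hg => ⟨r1 _, fun e => r2 _ (sub_eq_zero.2 e), ?_⟩⟩⟩
  · rw [norm_smul, norm_pow, Csum.norm_two, inv_pow, inv_mul_le_one₀ (by positivity)]
    exact s1 _
  · beta_reduce
    rw [ZMod.natCast_zmod_val, inv_smul_smul₀ (pow_ne_zero _ two_ne_zero)]
    refine s2 _ ?_
    rw [smul_sub, smul_sub, ← map_nsmul, hQ, hQ, r3 _ (diff H hDLG hn k j hg), sub_self]

end TINVP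

theorem t_INVP (hCF : CF) (hDLG : DLG) : INVP := by
  intro D H n k hn
  have hc := TINVP.cd n k
  refine ⟨⟨hc.1, hc.2.1, fun g hg => hc.triv H hg⟩, fun j => ?_,
    fun g hg j => TINVP.diff H hDLG hn k j hg, ?_, TINVP.kd H hDLG hn⟩
  · rw [TINVP.PP_eq]
    refine csum_mem (TINVP.FA _) fun s _ => ?_
    split_ifs
    · exact zsmul_mem (TINVP.tac_mem (H.on _) _ _ (H.fix _)) _
    · exact zero_mem _
  · rintro rfl g hg j
    rw [TINVP.tac_PP H _ k j hg, TINVP.PP_eq]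
    rfl

end Pool.Agent.P.MP_8b7eba_nt.R2.G
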