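import Pool.Agent.P.MP_8b7eba_nt.R3.ATIW0A

/-! Proof of IW0. -/

namespace Pool.Agent.P.MP_8b7eba_nt.R2.G

open scoped NNReal Matrix
open MP_9c97e9_nt (Pt pm Is ap Sha Split)
open Filter Topology Polynomial Module

noncomputable section

namespace TIW0

variable {D : Dat} {g h s : GQ} {n : ℕ} {χ χ' : GQ → ZMod 2} {c : GQ → V2} {v : V2}

theorem le0 (m : ℤ_[2]) : D.Gd 0 ≤ D.Gd m := fun _ h => ⟨h.1, (dvd_zero m).trans h.2⟩

theorem le_pow {m : ℕ} (h : m ≤ n) : D.Gd (2 ^ n) ≤ D.Gd (2 ^ m) :=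
  fun _ hg => ⟨hg.1, (pow_dvd_pow 2 h).trans hg.2⟩

theorem conj {m : ℤ_[2]} (hs : s ∈ D.GK) : s * g * s⁻¹ ∈ D.Gd m ↔ g ∈ D.Gd m := by
  rw [Dat.mem_Gd, Dat.mem_Gd, D.GK.mul_mem_cancel_right (inv_mem hs), D.GK.mul_mem_cancel_left hs]
  exact and_congr_right fun hg => by rw [D.an.conj hs hg]

theorem unr0 {w : Pl} (hw : ¬ (w.p : ℤ) ∣ 30 * D.m) (hg : g ∈ w.I) (hK : g ∈ D.GK) : g ∈ D.Gd 0 :=
  ⟨hK, by
    rw [D.an.unr w (fun e => hw (by rw [e]; exact Dvd.dvd.mul_right (by norm_num) _)) g ⟨hg, hK⟩]⟩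

theorem gK : D.gm ∈ D.GK := D.D_le (D.w2.I_le_D D.gI)

theorem rep (D : Dat) (H : Subgroup GQ) : Rep H (D.T.rq D.dm) := (D.T.rep D.fix_dm).mono le_top

theorem r_le {r : ℝ} (hv : ‖v‖ ≤ r) : ‖D.T.rd D.dm g *ᵥ v‖ ≤ r := ((rep D ⊤).le g v).trans hv

theorem unit_sub {u : ℚ_[2]} (hu : ‖u‖ = 1) : ‖u - 1‖ ≤ 2⁻¹ := by
  refine (rz_eq hu.le norm_one.le).1 ((by decide : ∀ a b : ZMod 2, a ≠ 0 → b ≠ 0 → a = b) _ _ ?_ ?_)
  · rw [Ne, rz_eq_zero hu.le, hu]; norm_num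
  · rw [Ne, rz_eq_zero norm_one.le, norm_one]; norm_num

theorem r_sub (hv : ‖v‖ ≤ 1) : ‖D.T.rd D.dm g *ᵥ v - v‖ ≤ 2⁻¹ := by
  have h1 : ‖(sd D.dm g : ℚ_[2])‖ = 1 := by unfold sd; split_ifs <;> simp
  have h2 : ‖cq g‖ = 1 := PadicInt.norm_units (cyc g)
  have h3 : ∀ i j, ‖(D.T.rd D.dm g - 1) i j‖ ≤ 2⁻¹ := fun i j => by
    rw [show D.T.rd D.dm g - 1 = (sd D.dm g : ℚ_[2]) • (D.T.rho g - !![cq g, 0; 0, 1]) +
      ((sd D.dm g : ℚ_[2]) • !![cq g, 0; 0, 1] - 1) by rw [smul_sub, sub_add_sub_cancel]; rfl,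
      Matrix.add_apply]
    refine le_add ?_ ?_
    · rw [Matrix.smul_apply, norm_smul, h1, one_mul]
      exact (D.T.four g i j).trans (by norm_num)
    · fin_cases i <;> fin_cases j
      · simpa using unit_sub (u := sd D.dm g * cq g) (by rw [norm_mul, h1, h2, one_mul])
      · simp
      · simp
      · simpa using unit_sub h1
  have h4 : ∀ i j, ‖(D.T.rd D.dm g - 1) i j * v j‖ ≤ 2⁻¹ := fun i j => by
    rw [norm_mul]
    exact (mul_le_of_le_one_right (norm_nonneg _) ((norm_le_pi_norm v j).trans hv)).trans (h3 i j)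
  rw [show D.T.rd D.dm g *ᵥ v - v = (D.T.rd D.dm g - 1) *ᵥ v by
    rw [Matrix.sub_mulVec, Matrix.one_mulVec]]
  refine (pi_norm_le_iff_of_nonneg (by norm_num)).2 fun i => ?_
  rw [Matrix.mulVec, dotProduct, Fin.sum_univ_two]
  exact le_add (h4 i 0) (h4 i 1)

theorem rz_r (hv : ‖v‖ ≤ 1) (i : Fin 2) : rz ((D.T.rd D.dm g *ᵥ v) i) = rz (v i) :=
  (rz_eq ((norm_le_pi_norm _ i).trans (r_le hv)) ((norm_le_pi_norm _ i).trans hv)).2
    ((norm_le_pi_norm (D.T.rd D.dm g *ᵥ v - v) i).trans (r_sub hv))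

/-! ### Characters -/

open Classical in
/-- extension by zero -/
def cut {A : Type} [Zero A] (H : Subgroup GQ) (χ : GQ → A) (g : GQ) : A := if g ∈ H then χ g else 0

theorem cut_pos {A : Type} [Zero A] {H : Subgroup GQ} {χ : GQ → A} (h : g ∈ H) : cut H χ g = χ g :=
  if_pos h

theorem cut_neg {A : Type} [Zero A] {H : Subgroup GQ} {χ : GQ → A} (h : g ∉ H) : cut H χ g = 0 :=
  if_neg h

/-- the restrictions of the characters of a layer -/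
def CC (D : Dat) (n : ℕ) : Set (GQ → ZMod 2) := cut (D.Gd 0) '' {χ | D.Cq n χ}

theorem card (hL : LAY) (hZ : ZONE) (hn : ∀ p ∈ D.gp, D.np p ≤ n) :
    (CC D n).ncard = 2 ^ (4 + 2 * D.sg) := by
  rw [← hZ D n hn]
  refine Set.InjOn.ncard_image fun χ (h : D.Cq n χ) χ' (h' : D.Cq n χ') e => funext fun g => ?_
  by_cases hg : g ∈ D.Gd (2 ^ n)
  · obtain ⟨s, hs, h0⟩ := (hL D n).2.2.2.2.1 g hg
    have := congrFun e (g * s⁻¹)
    rw [cut_pos h0, cut_pos h0] at this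
    rw [← inv_mul_cancel_right g s, h.ch.2 _ (le0 _ h0) _ hs.2, h'.ch.2 _ (le0 _ h0) _ hs.2, this,
      h.str s ⟨hs.1.1, hs.2⟩, h'.str s ⟨hs.1.1, hs.2⟩]
  · rw [h.off g hg, h'.off g hg]

theorem CC_sub {m : ℕ} (hm : n ≤ m) : CC D n ⊆ CC D m := by
  rintro _ ⟨χ, h : D.Cq n χ, rfl⟩
  have l := le_pow (D := D) hm
  refine ⟨cut (D.Gd (2 ^ m)) χ, ⟨⟨(h.ch.1.mono l).congr fun g hg => cut_pos hg, fun g hg k hk => ?_⟩,
    fun g => cut_neg, fun g hg => ?_, fun w hw g hg => ?_⟩, funext fun g => ?_⟩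
  · rw [cut_pos hg, cut_pos hk, cut_pos (mul_mem hg hk), h.ch.2 g (l hg) k (l hk)]
  · rw [cut_pos hg.2, h.str g ⟨hg.1, l hg.2⟩]
  · rw [cut_pos hg.2, h.unr w hw g ⟨hg.1, l hg.2⟩]
  · by_cases hg : g ∈ D.Gd 0
    · rw [cut_pos hg, cut_pos hg, cut_pos (le0 _ hg)]
    · rw [cut_neg hg, cut_neg hg]

theorem mem_CC (hL : LAY) (hZ : ZONE) (hn : ∀ p ∈ D.gp, D.np p ≤ n)
    (h1 : IsCh (D.Gd 0) χ) (h2 : ∀ g, g ∉ D.Gd 0 → χ g = 0) (h3 : ∀ g ∈ D.w2.D, χ g = 0)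
    (h4 : ∀ w : Pl, ¬ (w.p : ℤ) ∣ 30 * D.m → ∀ g ∈ w.I, χ g = 0) : χ ∈ CC D n := by
  obtain ⟨N, hN, h5⟩ := h1.1
  obtain ⟨m, hm⟩ := (hL D n).2.2.2.2.2.1 N hN
  have hn' : ∀ p ∈ D.gp, D.np p ≤ n + m := fun p hp => (hn p hp).trans (by omega)
  rw [Set.eq_of_subset_of_ncard_le (CC_sub (Nat.le_add_right n m))
    (by rw [card hL hZ hn, card hL hZ hn'])
    (Set.finite_of_ncard_ne_zero (by rw [card hL hZ hn']; positivity))]
  choose! t ht h0 using fun g hg => hm g (le_pow (Nat.le_add_left m n) hg)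
  have tD : ∀ g ∈ D.Gd (2 ^ (n + m)), t g ∈ D.w2.D := fun g hg => (ht g hg).1.1
  have key : ∀ g ∈ D.Gd (2 ^ (n + m)), ∀ s ∈ D.w2.D, g * s⁻¹ ∈ D.Gd 0 →
      cut (D.Gd (2 ^ (n + m))) (fun g => χ (g * (t g)⁻¹)) g = χ (g * s⁻¹) := fun g hg s hs h => by
    have e : g * (t g)⁻¹ = g * s⁻¹ * (s * (t g)⁻¹) := by group
    rw [cut_pos hg, e, h1.2 _ h _ ((D.Gd 0).mul_mem_cancel_left h |>.1 (e ▸ h0 g hg)),
      h3 _ (mul_mem hs (inv_mem (tD g hg))), add_zero]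
  have hz : ∀ g ∈ D.Gd 0, g ∈ N → χ g = 0 := fun g hg m => by
    simpa [h1.one] using h5 1 (one_mem _) g hg m
  have add : ∀ g ∈ D.Gd (2 ^ (n + m)), ∀ k ∈ D.Gd (2 ^ (n + m)),
      cut (D.Gd (2 ^ (n + m))) (fun g => χ (g * (t g)⁻¹)) (g * k) =
        χ (g * (t g)⁻¹) + χ (k * (t k)⁻¹) := fun g hg k hk => by
    have e : g * k * (t g * t k)⁻¹ = g * (t g)⁻¹ * (t g * (k * (t k)⁻¹) * (t g)⁻¹) := by group
    have e' : t g * (k * (t k)⁻¹) * (t g)⁻¹ =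
      k * (t k)⁻¹ * ((k * (t k)⁻¹)⁻¹ * t g * (k * (t k)⁻¹) * (t g)⁻¹) := by group
    have m1 := (conj (D.D_le (tD g hg))).2 (h0 k hk)
    rw [key _ (mul_mem hg hk) _ (mul_mem (tD g hg) (tD k hk)) (e ▸ mul_mem (h0 g hg) m1), e,
      h1.2 _ (h0 g hg) _ m1, e', h5 _ (h0 k hk) _
        ((D.Gd 0).mul_mem_cancel_left (h0 k hk) |>.1 (e' ▸ m1))
        (mul_mem (hN.1.conj_mem' _ (ht g hg).2 _) (inv_mem (ht g hg).2))]
  refine ⟨cut (D.Gd (2 ^ (n + m))) fun g => χ (g * (t g)⁻¹), ⟨⟨⟨N, hN, fun g hg k hk m => ?_⟩,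
    fun g hg k hk => ?_⟩, fun g => cut_neg, fun g hg => ?_, fun w hw g hg => ?_⟩, funext fun g => ?_⟩
  · rw [add g hg k hk, cut_pos hg, hz _ (h0 k hk) (mul_mem m (inv_mem (ht k hk).2)), add_zero]
  · rw [add g hg k hk, cut_pos hg, cut_pos hk]
  · rw [key g hg.2 g hg.1 (by simp), mul_inv_cancel, h1.one]
  · rw [key g hg.2 1 (one_mem _) (by simpa using unr0 hw hg.1 hg.2.1), inv_one, mul_one,
      h4 w hw g hg.1]
  · by_cases hg : g ∈ D.Gd 0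
    · rw [cut_pos hg, key g (le0 _ hg) 1 (one_mem _) (by simpa using hg), inv_one, mul_one]
    · rw [cut_neg hg, h2 g hg]

/-- the difference operator -/
def dif (s : GQ) (χ : GQ → ZMod 2) (g : GQ) : ZMod 2 := χ (s * g * s⁻¹) - χ g

theorem dif_iter (s : GQ) (k : ℕ) (χ : GQ → ZMod 2) : (dif s)^[2 ^ k] χ = dif (s ^ 2 ^ k) χ := by
  induction k generalizing χ with
  | zero => simp
  | succ k ih =>
    rw [pow_succ, mul_two, Function.iterate_add_apply, ih, ih, pow_add]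
    funext g
    simp only [dif, mul_inv_rev, mul_assoc]
    exact (by decide : ∀ a b c : ZMod 2, a - b - (b - c) = a - c) _ _ _

theorem dif_CC (h : χ ∈ CC D n) : (dif D.gm)^[2 ^ n] χ = 0 := by
  obtain ⟨χ, h : D.Cq n χ, rfl⟩ := h
  have hs : D.gm ^ 2 ^ n ∈ D.Gd (2 ^ n) := ⟨pow_mem gK _, by rw [D.an.pow gK, D.ga]; simp⟩
  rw [dif_iter]
  funext g
  by_cases hg : g ∈ D.Gd 0
  · rw [dif, cut_pos hg, cut_pos ((conj hs.1).2 hg), h.ch.2 _ (mul_mem hs (le0 _ hg)) _ (inv_mem hs),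
      h.ch.2 _ hs _ (le0 _ hg), h.ch.inv hs, Pi.zero_apply]
    ring
  · rw [dif, cut_neg hg, cut_neg (mt (conj hs.1).1 hg)]
    simp

/-! ### Cocycles -/

/-- the rigid cocycles -/
def XX (D : Dat) : Submodule ℚ_[2] (GQ → V2) where
  carrier := {c | D.XC c}
  zero_mem' := ⟨(Sm.const 0).uc, by simp, by simp, by simp, by simp⟩
  add_mem' := fun {c c'} h h' => ⟨h.uc.add h'.uc, fun g hg k hk => by
      simp only [Pi.add_apply, h.co g hg k hk, h'.co g hg k hk, Matrix.mulVec_add]; abel,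
    fun g hg => by simp [h.off g hg, h'.off g hg], fun g hg => by simp [h.str g hg, h'.str g hg],
    fun w hw g hg => by simp [h.unr w hw g hg, h'.unr w hw g hg]⟩
  smul_mem' := fun a c h => ⟨h.uc.map (a • LinearMap.id), fun g hg k hk => by
      simp only [Pi.smul_apply, h.co g hg k hk, Matrix.mulVec_smul, smul_add],
    fun g hg => by simp [h.off g hg], fun g hg => by simp [h.str g hg],
    fun w hw g hg => by simp [h.unr w hw g hg]⟩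

theorem bdd (h : c ∈ XX D) : ∃ B : ℝ, ∀ g, ‖c g‖ ≤ B := by
  obtain ⟨B, hB⟩ := h.uc.bdd
  refine ⟨B, fun g => ?_⟩
  by_cases hg : g ∈ D.Gd 0
  · exact hB g hg
  · rw [h.off g hg, norm_zero]
    exact (norm_nonneg _).trans (hB 1 (one_mem _))

theorem th_apply (c : GQ → V2) (g : GQ) :
    D.Th c g = D.T.rd D.dm D.gm⁻¹ *ᵥ c (D.gm * g * D.gm⁻¹) - c g := rfl

theorem th_mem (h : c ∈ XX D) : D.Th c ∈ XX D := by
  refine (XX D).sub_mem (x := fun g => D.T.rd D.dm D.gm⁻¹ *ᵥ c (D.gm * g * D.gm⁻¹))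
    ⟨(h.uc.conj _ _ (mul_inv_cancel _) fun g => (conj gK).2).map (D.T.rq D.dm D.gm⁻¹),
      fun g hg k hk => ?_, fun g hg => ?_, fun g hg => ?_, fun w hw g hg => ?_⟩ h
  · rw [show D.gm * (g * k) * D.gm⁻¹ = D.gm * g * D.gm⁻¹ * (D.gm * k * D.gm⁻¹) by group,
      h.co _ ((conj gK).2 hg) _ ((conj gK).2 hk), Matrix.mulVec_add, Matrix.mulVec_mulVec,
      Matrix.mulVec_mulVec, ← D.T.rd_mul D.fix_dm, ← D.T.rd_mul D.fix_dm]
    congr 3
    group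
  · rw [h.off _ (mt (conj gK).1 hg), Matrix.mulVec_zero]
  · rw [h.str _ (mul_mem (mul_mem D.gI.1 hg) (inv_mem D.gI.1)), Matrix.mulVec_zero]
  · rw [h.unr (D.gm • w) hw _ (Pl.mem_I_smul.2 (by simpa [mul_assoc] using hg)), Matrix.mulVec_zero]

theorem th_pow (h : c ∈ lat (XX D)) (k : ℕ) : (D.Th ^ k) c ∈ lat (XX D) ∧
    red ((D.Th ^ k) c) = ((dif D.gm)^[k] (red c).1, (dif D.gm)^[k] (red c).2) := by
  induction k with
  | zero => exact ⟨h, rfl⟩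
  | succ k ih =>
    have e : ∀ g i, rz (D.Th ((D.Th ^ k) c) g i) = dif D.gm (fun g => rz ((D.Th ^ k) c g i)) g :=
      fun g i => by
        rw [th_apply, Pi.sub_apply, rz_sub ((norm_le_pi_norm _ i).trans (r_le (ih.1.2 _)))
          (co_le ih.1 g i), rz_r (ih.1.2 _), dif]
    rw [pow_succ', End.mul_apply, Function.iterate_succ_apply', Function.iterate_succ_apply',
      ← show _ = (dif D.gm)^[k] (red c).1 from congrArg Prod.fst ih.2,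
      ← show _ = (dif D.gm)^[k] (red c).2 from congrArg Prod.snd ih.2]
    exact ⟨⟨th_mem ih.1.1, fun g => le_sub (r_le (ih.1.2 _)) (ih.1.2 g)⟩,
      Prod.ext (funext fun g => e g 0) (funext fun g => e g 1)⟩

theorem red_mem (hL : LAY) (hZ : ZONE) (hn : ∀ p ∈ D.gp, D.np p ≤ n)
    (h : c ∈ lat (XX D)) (i : Fin 2) : (fun g => rz (c g i)) ∈ CC D n := by
  refine mem_CC hL hZ hn ⟨h.1.uc.sm (fun v => rz (v i)) (ε := 2⁻¹) (by norm_num)
    fun v v' e => ?_, fun g hg k hk => ?_⟩ (fun g hg => ?_) (fun g hg => ?_) fun w hw g hg => ?_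
  · have e' : ‖v i - v' i‖ ≤ 2⁻¹ := (norm_le_pi_norm (v - v') i).trans e
    by_cases h1 : ‖v i‖ ≤ 1
    · exact (rz_eq h1 (by simpa using le_sub h1 (e'.trans (by norm_num)))).2 e'
    · rw [rz, rz, dif_neg h1, dif_neg fun h2 : ‖v' i‖ ≤ 1 => h1 (by
        simpa using le_add (e'.trans (by norm_num)) h2)]
  · beta_reduce
    rw [h.1.co g hg k hk, Pi.add_apply, rz_add (co_le h g i)
      ((norm_le_pi_norm _ i).trans (r_le (h.2 k))), rz_r (h.2 k)]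
  · rw [h.1.off g hg, Pi.zero_apply, rz_zero]
  · rw [h.1.str g hg, Pi.zero_apply, rz_zero]
  · rw [h.1.unr w hw g hg, Pi.zero_apply, rz_zero]

theorem lift (hO : OBS) (hn : ∀ p ∈ D.gp, D.np p ≤ n) (h : D.Zm n 1 c) :
    ∃ x ∈ lat (XX D), ∀ g ∈ D.Gd 0, ‖x g - c g‖ ≤ 2⁻¹ := by
  choose! F h1 h2 using fun k c => hO D (n + k) (1 + k) c fun p hp => (hn p hp).trans (by omega)
  let u : ℕ → GQ → V2 := fun k => Nat.rec c F k
  have hu : ∀ k, D.Zm (n + k) (1 + k) (u k) := fun k => by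
    induction k with
    | zero => exact h
    | succ k ih => exact h1 k _ ih
  have mono : ∀ {k l : ℕ}, k ≤ l → ((2 : ℝ) ^ l)⁻¹ ≤ (2 ^ k)⁻¹ := fun h =>
    inv_anti₀ (by positivity) (pow_le_pow_right₀ one_le_two h)
  have h3 : ∀ g ∈ D.Gd 0, ∀ k l, k ≤ l → ‖u l g - u k g‖ ≤ (2 ^ (1 + k))⁻¹ := fun g hg k l hl => by
    induction l, hl using Nat.le_induction with
    | base => simp
    | succ l hl ih =>
      simpa using le_add ((h2 l _ (hu l) g (le0 _ hg)).trans (mono (by omega))) ih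
  have small : ∀ ε : ℝ, 0 < ε → ∃ k : ℕ, ((2 : ℝ) ^ (1 + k))⁻¹ < ε := fun ε hε => by
    obtain ⟨k, hk⟩ := pow_unbounded_of_one_lt ε⁻¹ (one_lt_two (α := ℝ))
    exact ⟨k, (mono (by omega)).trans_lt (inv_lt_of_inv_lt₀ hε hk)⟩
  choose! y hy using fun g (hg : g ∈ D.Gd 0) => cauchySeq_tendsto_of_complete
    (Metric.cauchySeq_iff'.2 fun ε hε => (small ε hε).imp fun k hk l hl =>
      (dist_eq_norm (u l g) _).trans_lt ((h3 g hg k l hl).trans_lt hk))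
  have h4 : ∀ g ∈ D.Gd 0, ∀ k, ‖cut (D.Gd 0) y g - u k g‖ ≤ (2 ^ (1 + k))⁻¹ := fun g hg k => by
    rw [cut_pos hg]
    exact le_of_tendsto ((hy g hg).sub_const _).norm (eventually_atTop.2 ⟨k, h3 g hg k⟩)
  have h5 : ∀ g, (∀ k, g ∈ D.Gd (2 ^ (n + k)) → ‖u k g‖ ≤ (2 ^ (1 + k))⁻¹) →
      cut (D.Gd 0) y g = 0 := fun g h => by
    by_cases hg : g ∈ D.Gd 0
    · exact eq_zero fun k => (by simpa using le_add (h4 g hg k) (h k (le0 _ hg)) :
        _ ≤ ((2 : ℝ) ^ (1 + k))⁻¹).trans (mono (by omega))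
    · exact cut_neg hg
  refine ⟨cut (D.Gd 0) y, ⟨⟨fun ε hε => ?_, fun g hg s hs => ?_, fun g => cut_neg,
    fun g hg => h5 g fun k m => (hu k).str g ⟨hg, m⟩,
    fun w hw g hg => h5 g fun k m => (hu k).unr w hw g ⟨hg, m⟩⟩, fun g => ?_⟩,
    fun g hg => (h4 g hg 0).trans_eq (by norm_num)⟩
  · obtain ⟨k, hk⟩ := small ε hε
    obtain ⟨N, hN, e⟩ := (hu k).sm
    refine ⟨N, hN, fun g hg s hs m => le_trans ?_ hk.le⟩
    have := le_sub (h4 _ (mul_mem hg hs) k) (h4 g hg k)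
    rwa [e g (le0 _ hg) s (le0 _ hs) m, sub_sub_sub_cancel_right] at this
  · refine sub_eq_zero.1 (eq_zero fun k => le_trans ?_ (mono (Nat.le_add_left k 1)))
    have := le_add (le_sub (le_sub (h4 _ (mul_mem hg hs) k) (h4 g hg k))
      (r_le (D := D) (g := g) (h4 s hs k))) ((hu k).co g (le0 _ hg) s (le0 _ hs))
    rw [Matrix.mulVec_sub] at this
    exact le_of_eq_of_le (congrArg norm (by abel)) this
  · by_cases hg : g ∈ D.Gd 0
    · simpa using le_add ((h4 g hg 0).trans (by norm_num)) ((hu 0).int g)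
    · simp [cut_neg hg]

theorem red_surj (hO : OBS) (hn : ∀ p ∈ D.gp, D.np p ≤ n) (h : D.Cq n χ)
    (h' : D.Cq n χ') : ∃ x ∈ lat (XX D), red x = (cut (D.Gd 0) χ, cut (D.Gd 0) χ') := by
  let f : Fin 2 → GQ → ZMod 2 := ![χ, χ']
  have hf : ∀ i, D.Cq n (f i) := Fin.forall_fin_two.2 ⟨h, h'⟩
  let c : GQ → V2 := fun g i => ((f i g).val : ℕ)
  have h1 : ∀ g, ‖c g‖ ≤ 1 := fun g => (pi_norm_le_iff_of_nonneg zero_le_one).2 fun i => norm_val _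
  have h0 : ∀ g, (∀ i, f i g = 0) → ‖c g‖ ≤ (2 ^ 1)⁻¹ := fun g e =>
    (pi_norm_le_iff_of_nonneg (by norm_num)).2 fun i => by simp [c, e i]
  obtain ⟨x, hx, e⟩ := lift (c := c) hO hn
    ⟨Sm.pi fun i => (hf i).ch.1.comp fun a => ((a.val : ℕ) : ℚ_[2]), h1, fun g hg k hk => by
      rw [pow_one, show c (g * k) - c g - D.T.rd D.dm g *ᵥ c k =
        c (g * k) - (c g + c k) - (D.T.rd D.dm g *ᵥ c k - c k) by abel]
      refine le_sub ((pi_norm_le_iff_of_nonneg (by norm_num)).2 fun i =>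
        (rz_eq (norm_val _) (le_add (norm_val _) (norm_val _))).1 ?_) (r_sub (h1 k))
      rw [rz_add (norm_val _) (norm_val _), rz_val, rz_val, rz_val, (hf i).ch.2 g hg k hk],
    fun g hg => h0 g fun i => (hf i).str g hg, fun w hw g hg => h0 g fun i => (hf i).unr w hw g hg⟩
  have h2 : ∀ i g, rz (x g i) = cut (D.Gd 0) (f i) g := fun i g => by
    by_cases hg : g ∈ D.Gd 0
    · rw [cut_pos hg, ← rz_val (f i g)]
      exact (rz_eq (co_le hx g i) (norm_val _)).2 ((norm_le_pi_norm (x g - c g) i).trans (e g hg))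
    · rw [cut_neg hg, hx.1.off g hg, Pi.zero_apply, rz_zero]
  exact ⟨x, hx, Prod.ext (funext (h2 0)) (funext (h2 1))⟩

end TIW0

end

open TIW0 in
theorem t_IW0 (hCF : CF) (hLAY : LAY) (hZONE : ZONE) (hOBS : OBS) : IW0 := by
  intro D
  obtain ⟨n, hn⟩ : ∃ n, ∀ p ∈ D.gp, D.np p ≤ n :=
    ⟨_, fun p hp => Finset.le_sup hp⟩
  have h1 : red '' (lat (XX D) : Set (GQ → V2)) = CC D n ×ˢ CC D n := by
    refine Set.Subset.antisymm ?_ ?_
    · rintro _ ⟨c, hc, rfl⟩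
      exact ⟨red_mem hLAY hZONE hn hc 0, red_mem hLAY hZONE hn hc 1⟩
    · rintro ⟨_, _⟩ ⟨⟨χ, h, rfl⟩, χ', h', rfl⟩
      exact red_surj hOBS hn h h'
  obtain ⟨h2, h3, h4⟩ := main (X := XX D) (s := 8 + 4 * D.sg) (fun c => bdd)
    (by rw [h1, Set.ncard_prod, card hLAY hZONE hn, ← pow_add]; congr 1; ring) (T := D.Th)
    (Nat.two_pow_pos n) fun c hc => ⟨(th_pow hc _).1, by
      rw [(th_pow hc _).2]
      exact Prod.ext (dif_CC (red_mem hLAY hZONE hn hc 0)) (dif_CC (red_mem hLAY hZONE hn hc 1))⟩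
  exact ⟨XX D, h2, h3, fun c => Iff.rfl, fun c => th_mem, h4⟩

end Pool.Agent.P.MP_8b7eba_nt.R2.G
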