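import Pool.Agent.P.MP_8b7eba_nt.R3.ASel

/-! Proof of KPZ. -/

namespace Pool.Agent.P.MP_8b7eba_nt.R2.G

open scoped NNReal Matrix
open MP_9c97e9_nt (Pt pm Is ap Sha Split)
open Filter Topology Polynomial Module

namespace TKPZ

/-- the torsion over the ring class fields is bounded -/
theorem tors (D : Dat) (H : Heeg D.toPrg D.a) : ∃ e : ℕ, ∀ (c i : ℕ) (P : EO),
    (∀ s ∈ H.N c, ac s P = P) → 2 ^ i • P = 0 → 2 ^ e • P = 0 := by
  obtain ⟨g, hg, h, hh, hd⟩ := D.h0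
  obtain ⟨C, hC, hL⟩ := PatA.bound (Matrix.toLin' (D.T.rho (g * h * g⁻¹ * h⁻¹) - 1)⁻¹)
  obtain ⟨e, he⟩ := pow_unbounded_of_one_lt C (one_lt_two (α := ℝ))
  refine ⟨e, fun c i P hP h0 => ?_⟩
  obtain ⟨v, rfl⟩ := D.T.surj P i h0
  have h1 := hP _ (H.ab c g hg h hh)
  rw [D.T.gal, D.T.pt_eq] at h1
  have h2 := hL ((D.T.rho (g * h * g⁻¹ * h⁻¹) - 1) *ᵥ v)
  rw [Matrix.toLin'_apply, Matrix.mulVec_mulVec, Matrix.nonsing_inv_mul _ (Ne.isUnit hd),
    Matrix.one_mulVec, Matrix.sub_mulVec, Matrix.one_mulVec] at h2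
  rw [D.T.pt_pow]
  exact h2.trans ((mul_le_of_le_one_right hC.le h1).trans he.le)

/-- the approximate cocycle relation -/
theorem coc {D : Dat} {H : Heeg D.toPrg D.a} {n : List (Kp D)} {v : KA} (hv : D.KD H n v) {e : ℕ}
    (he : ∀ (c i : ℕ) (P : EO), (∀ s ∈ H.N c, ac s P = P) → 2 ^ i • P = 0 → 2 ^ e • P = 0)
    (k : ℕ) {g h : GQ} (hg : g ∈ D.GK) (hh : h ∈ D.GK) (j : ZMod (2 ^ k)) :
    ‖v k (g * h) j.val - v k g j.val - D.T.rd D.dm g *ᵥ v k h (j - D.ak k g).val‖ ≤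
      2 ^ e / 2 ^ k := by
  obtain ⟨-, hb, Q, R, hQ⟩ := hv k
  obtain ⟨f1, -, e1⟩ := (hQ j).2 _ (D.GK.mul_mem hg hh)
  obtain ⟨f2, -, e2⟩ := (hQ j).2 _ hg
  obtain ⟨f3, -, e3⟩ := (hQ (j - D.ak k g)).2 _ hh
  have n2 : ∀ u : V2, ‖(2 ^ k : ℚ_[2])⁻¹ • u‖ = 2 ^ k * ‖u‖ := fun u => by
    rw [norm_smul, norm_inv, norm_pow, Csum.norm_two, inv_pow, inv_inv]
  generalize hu : v k (g * h) j.val - v k g j.val - D.T.rd D.dm g *ᵥ v k h (j - D.ak k g).val = u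
  have h1 : ‖u‖ ≤ 1 := by
    rw [← hu, sub_sub, sub_eq_add_neg]
    refine (IsUltrametricDist.norm_add_le_max _ _).trans (max_le (hb _ _) ?_)
    rw [norm_neg]
    exact (IsUltrametricDist.norm_add_le_max _ _).trans (max_le (hb _ _)
      (((D.T.rep D.fix_dm).le g _).trans (hb _ _)))
  have h2 : D.T.pt ((2 ^ k : ℚ_[2])⁻¹ • u) =
      R g j + tac D.dm g (R h (j - D.ak k g)) - R (g * h) j := by
    rw [← hu, smul_sub, smul_sub, map_sub, map_sub, ← Matrix.mulVec_smul, ← D.T.tgal, e1, e2, e3,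
      D.ak_mul k hg hh, tac_mul D.fix_dm, map_sub, map_sub, sub_sub j]
    abel
  have h3 := he (D.ck n k) k (D.T.pt ((2 ^ k : ℚ_[2])⁻¹ • u)) (fun s hs => by
    rw [h2, map_sub, map_add, f1 s hs, f2 s hs, tac_apply, map_zsmul, ← ac_mul,
      show s * g = g * (g⁻¹ * s * g) by group, ac_mul, f3 _ ((H.on _).1.conj_mem' s hs g)])
    (by rw [D.T.pt_pow, n2]; exact mul_le_of_le_one_right (by positivity) h1)
  rw [D.T.pt_pow, n2] at h3
  exact (le_div_iff₀' (by positivity)).2 h3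

theorem sum_val {M : Type} [AddCommMonoid M] (m : ℕ) [NeZero m] (f : ℕ → M) :
    ∑ j ∈ Finset.range m, f j = ∑ j : ZMod m, f j.val :=
  Finset.sum_nbij' (fun j => (j : ZMod m)) ZMod.val (fun _ _ => Finset.mem_univ _)
    (fun j _ => Finset.mem_range.2 j.val_lt)
    (fun _ hj => ZMod.val_cast_of_lt (Finset.mem_range.1 hj)) (fun j _ => j.natCast_zmod_val)
    fun _ hj => by rw [ZMod.val_cast_of_lt (Finset.mem_range.1 hj)]

variable {A : Type} [NormedCommRing A] [NormedAlgebra ℚ_[2] A]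

theorem mv_sum {ι : Type} (s : Finset ι) (B : Mt) (u : ι → V2) (p : ι → A) (i : Fin 2) :
    mv B (fun i => ∑ j ∈ s, u j i • p j) i = ∑ j ∈ s, (B *ᵥ u j) i • p j := by
  rw [mv_apply, Finset.smul_sum, Finset.smul_sum, ← Finset.sum_add_distrib]
  refine Finset.sum_congr rfl fun j _ => ?_
  rw [smul_smul, smul_smul, ← add_smul, Matrix.mulVec, dotProduct, Fin.sum_univ_two]

theorem smul_le {u : V2} {p : A} {a b : ℝ} (i : Fin 2) (hu : ‖u‖ ≤ a) (hp : ‖p‖ ≤ b) :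
    ‖u i • p‖ ≤ a * b := by
  rw [norm_smul]
  exact mul_le_mul ((norm_le_pi_norm u i).trans hu) hp (norm_nonneg _) ((norm_nonneg _).trans hu)

end TKPZ

open TKPZ in
theorem t_KPZ (hF : CF) (hINVP : INVP) : KPZ := by
  intro D H n v _ hv
  obtain ⟨e, he⟩ := tors D H
  refine ⟨⟨e, he⟩, fun A _ _ _ _ ψ hψ => ?_⟩
  have hap : Ap (fun _ => D.GK) (fun k g i => ∑ j ∈ Finset.range (2 ^ k), v k g j i • ψ j)
      (raw ψ v) :=
    ap_ul (B := 1) (fun k g => (pi_norm_le_iff_of_nonneg zero_le_one).2 fun i =>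
      IsUltrametricDist.norm_sum_le_of_forall_le_of_nonneg zero_le_one fun j _ =>
        (smul_le i ((hv k).2.1 g j) (hψ.le _)).trans_eq (one_mul _))
      fun k => ((hv k).1.comp fun u i => ∑ j ∈ Finset.range (2 ^ k), u j i • ψ j).uc
  refine ⟨hap, pz_of_ac (D.rep hψ) hap fun ε hε => ?_⟩
  obtain ⟨m, hm⟩ := hψ.near hε
  obtain ⟨m', hm'⟩ := pow_unbounded_of_one_lt (2 ^ e / ε) (one_lt_two (α := ℝ))
  filter_upwards [ev_ge m, ev_ge m'] with k h1 h2 g hg h hh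
  have h3 : (2 : ℝ) ^ e / 2 ^ k ≤ ε := by
    rw [div_le_comm₀ (by positivity) hε]
    exact hm'.le.trans (pow_le_pow_right₀ one_le_two h2)
  refine (pi_norm_le_iff_of_nonneg hε.le).2 fun i => ?_
  rw [Pi.sub_apply, Pi.sub_apply, Dat.r_apply, Pi.smul_apply, mv_sum, sum_val, sum_val, sum_val,
    Finset.smul_sum, ← (Equiv.subRight (D.ak k g)).sum_comp fun j =>
      ψ (D.a g) • ((D.T.rd D.dm g *ᵥ v k h j.val) i • ψ j.val),
    ← Finset.sum_sub_distrib, ← Finset.sum_sub_distrib]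
  refine IsUltrametricDist.norm_sum_le_of_forall_le_of_nonneg hε.le fun j _ => ?_
  have h4 : v k (g * h) j.val i • ψ j.val - v k g j.val i • ψ j.val -
      ψ (D.a g) • ((D.T.rd D.dm g *ᵥ v k h (j - D.ak k g).val) i • ψ (j - D.ak k g).val) =
      (v k (g * h) j.val - v k g j.val - D.T.rd D.dm g *ᵥ v k h (j - D.ak k g).val) i • ψ j.val +
        (D.T.rd D.dm g *ᵥ v k h (j - D.ak k g).val) i •
          (ψ j.val - ψ (D.a g + (j - D.ak k g).val)) := by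
    rw [hψ.add, smul_eq_mul, mul_smul_comm, Pi.sub_apply, Pi.sub_apply, sub_smul, sub_smul, smul_sub]
    abel
  rw [Equiv.subRight_apply, h4]
  refine (IsUltrametricDist.norm_add_le_max _ _).trans (max_le
    ((smul_le i ((coc hv he k hg hh j).trans h3) (hψ.le _)).trans_eq (mul_one _))
    ((smul_le i (((D.T.rep D.fix_dm).le g _).trans ((hv k).2.1 h _))
      (hm _ _ ((pow_dvd_pow _ h1).trans ?_))).trans_eq (one_mul _)))
  have h5 : PadicInt.toZModPow k ((j.val : ℤ_[2]) - (D.a g + ((j - D.ak k g).val : ℤ_[2]))) = 0 := by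
    rw [map_sub, map_add, map_natCast, map_natCast, ZMod.natCast_zmod_val, ZMod.natCast_zmod_val]
    exact sub_eq_zero.2 (add_sub_cancel _ _).symm
  rwa [← RingHom.mem_ker, PadicInt.ker_toZModPow, Ideal.mem_span_singleton] at h5

theorem t_KOLY (hF : CF) (hKTRIV : KTRIV) (hINVP : INVP) (hKPZ : KPZ) (hKLOC : KLOC)
    (hKREL : KREL) : KOLY := by
  intro D H
  have h0 : ∀ n : List (Kp D), ∃ v : KA, (∀ k g j, ‖v k g j‖ ≤ 1) ∧ (Ok n → D.KD H n v) := fun n => by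
    by_cases h : Ok n
    · obtain ⟨v, hv⟩ := (hINVP D H n 0 h).2.2.2.2
      exact ⟨v, fun k => (hv k).2.1, fun _ => hv⟩
    · exact ⟨0, fun _ _ _ => by simp, fun h' => absurd h' h⟩
  choose v hb hv using h0
  refine ⟨v, hv [] List.Pairwise.nil, hb, fun A _ _ _ _ ψ hψ n hn => ?_⟩
  obtain ⟨l1, l2, l3, l4⟩ := hKLOC D H n _ hn (hv n hn) A ψ hψ
  obtain ⟨r1, r2⟩ := hKREL D H n _ hn (hv n hn) A ψ hψ
  have hph : ∀ (l : Kp D) (x : GS → Fin 2 → A), D.nz ψ x l.ph = x l.ph := fun l x =>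
    Dat.nz_of_triv (Dat.rS_ph hF.toCA hψ l 0).1 fun u => (Dat.rS_ph hF.toCA hψ l u).2
  refine ⟨⟨⟨((hKPZ D H n _ hn (hv n hn)).2 A ψ hψ).2.nzG hψ, fun g hg => if_neg hg,
    Dat.nz_z hψ _, fun w g hg => ?_, fun w hw => ?_, fun l hl => (hph l _).trans (r1 l hl)⟩,
    fun g hg => ?_, fun g hg => ?_⟩, fun l hl => ?_⟩
  · exact (Dat.nz_of_triv (hg.mono fun k a => a.1.2)
      (Dat.rS_unr hF hψ (hg.mono fun k a => ⟨a.1, a.2.1⟩))).trans (l1 w g hg)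
  · obtain ⟨u, hu⟩ := D.nz_eq (raw ψ (v n)) hψ
    obtain ⟨u', hu'⟩ := (l2 w hw).add (D.rep hψ) (y := fun g => rS (D.r ψ) g u - u) ⟨u, fun _ _ => rfl⟩
    refine ⟨u', fun g hg => (hu g (S1_mono (w.I_le_D.trans (D.spD w ?_)) hg)).trans (hu' g hg)⟩
    exact ((Int.natCast_dvd_natCast.2 hw.1).trans (by norm_num)).mul_right _
  · exact (congrFun (Dat.ln_nz hψ hg) 1).trans (l3 g hg)
  · exact (congrFun (Dat.ln_xt_nz hF.toCB hψ hg) 1).trans (l4 g hg)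
  · obtain ⟨t1, -, t2, -⟩ := hKTRIV D l A ψ hψ
    refine (Dat.nz_of_triv (t2.mono fun k a => a.2)
      (t1 _ (t2.mono fun k a => ⟨a.1.1, a.2⟩))).trans ((r2 l _ hl (hv _ hl)).trans ?_)
    rw [Dat.kap, hph]

end Pool.Agent.P.MP_8b7eba_nt.R2.G
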