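import Pool.Agent.P.MP_8b7eba_nt.R3.ASel

/-! Proof of KREL. -/

namespace Pool.Agent.P.MP_8b7eba_nt.R2.G

open scoped NNReal Matrix
open MP_9c97e9_nt (Pt pm Is ap Sha Split)
open Filter Topology Polynomial Module

namespace TKREL

/-- the kernel of reduction as a subgroup -/
noncomputable def EE (h : E1G) (w : Pl) : AddSubgroup EO where
  carrier := {P | E1 w P}
  zero_mem' := (h w).1
  add_mem' := fun {P Q} => (h w).2.2.1 P Q
  neg_mem' := fun {P} => (h w).2.1 P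

theorem EE_ac (h : E1G) {w : Pl} {g : GQ} (hg : g ∈ w.D) {P : EO} (hP : P ∈ EE h w) :
    ac g P ∈ EE h w := by
  have := ((h w).2.2.2.1 g P).2 hP
  rwa [show g • w = w from hg] at this

theorem EE_div (h : E1G) {w : Pl} (k : ℕ) {P : EO} (hP : P ∈ EE h w) :
    ∃ Q ∈ EE h w, 2 ^ k • Q = P := by
  induction k generalizing P with
  | zero => exact ⟨P, hP, by simp⟩
  | succ k ih =>
    obtain ⟨R, hR, rfl⟩ := (h w).2.2.2.2.1 P hP
    obtain ⟨Q, hQ, rfl⟩ := ih (P := R) hR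
    exact ⟨Q, hQ, by rw [pow_succ', mul_nsmul']⟩

theorem EE_pt (h : E1G) {w w₂ : Pl} (T : Tate w₂) (h2 : w.p ≠ 2) {x : V2} (hx : T.pt x ∈ EE h w) :
    ‖x‖ ≤ 1 := by
  obtain ⟨k, hk⟩ := T.tors x
  exact (T.ker x).1 ((h w).2.2.2.2.2 h2 _ k hx hk)

theorem mvle {B : Mt} {x : V2} {a b : ℝ} (hB : ∀ i j, ‖B i j‖ ≤ a) (hx : ‖x‖ ≤ b) :
    ‖B *ᵥ x‖ ≤ a * b := by
  have ha : 0 ≤ a := (norm_nonneg _).trans (hB 0 0)
  have e : ∀ i j, ‖B i j * x j‖ ≤ a * b := fun i j => (norm_mul_le _ _).trans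
    (mul_le_mul (hB i j) ((norm_le_pi_norm x j).trans hx) (norm_nonneg _) ha)
  refine (pi_norm_le_iff_of_nonneg (mul_nonneg ha ((norm_nonneg _).trans hx))).2 fun i => ?_
  rw [Matrix.mulVec, dotProduct, Fin.sum_univ_two]
  exact Csum.add_le (e i 0) (e i 1)

theorem sc (k : ℕ) (x : V2) : ‖(2 ^ k : ℚ_[2]) • x‖ = ‖x‖ * (2 ^ k)⁻¹ := by
  rw [norm_smul, norm_pow, Csum.norm_two, inv_pow, mul_comm]

theorem tel {M : Type} [AddCommGroup M] (a : ℕ → M) (N : ℕ) :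
    ∑ m ∈ Finset.range N, m • a (m + 1) - ∑ m ∈ Finset.range N, m • a m +
      ∑ m ∈ Finset.range N, a m = N • a N - a N + a 0 := by
  induction N with
  | zero => simp
  | succ N ih =>
    simp only [Finset.sum_range_succ]
    rw [succ_nsmul, eq_sub_of_add_eq ih.symm.symm |> eq_add_of_sub_eq]
    abel

variable {D : Dat} {H : Heeg D.toPrg D.a} {n n' : List (Kp D)} {l : Kp D} {k : ℕ}

theorem comm {c : ℕ} {P : EO} (hP : ∀ s ∈ H.N c, ac s P = P) {g h : GQ} (hg : g ∈ D.GK)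
    (hh : h ∈ D.GK) : ac g (ac h P) = ac h (ac g P) := by
  rw [← ac_mul, ← ac_mul, show g * h = h * g * (g⁻¹ * h⁻¹ * g⁻¹⁻¹ * h⁻¹⁻¹) by group, ac_mul,
    hP _ (H.ab c _ (inv_mem hg) _ (inv_mem hh))]

theorem perm (e : n.Perm n') {v : KA} (h : D.KD H n v) : D.KD H n' v := by
  have e1 : D.ck n = D.ck n' := funext fun k => by rw [Dat.ck, Dat.ck, (e.map _).prod_eq]
  have e2 : D.PP H n = D.PP H n' := funext₂ fun k j => by
    rw [Dat.PP, Dat.PP, e1]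
    exact csum_congr fun s _ => by rw [(e.map _).prod_eq]
  rwa [Dat.KD, e1, e2] at h

theorem ok_perm (e : n.Perm n') (h : Ok n) : Ok n' :=
  (e.pairwise_iff fun h k => (h k).symm).1 h

theorem ck_cons : D.ck (l :: n) k = D.ck n k * (l.w k).p := by
  rw [Dat.ck, Dat.ck, List.map_cons, List.prod_cons]
  ring

theorem ndvd (h : Ok (l :: n)) :
    ¬ (l.w k).p ∣ D.ck n k ∧ ¬ (l.w k).p ∣ 30 * D.l := by
  have hp := (l.w k).prime
  have h1 : ¬ (l.w k).p ∣ 30 * D.l * D.m.natAbs := fun e => l.big k (by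
    rw [← Int.dvd_natAbs, Int.natCast_dvd_natCast]
    simpa [Int.natAbs_mul] using e)
  refine ⟨fun e => ?_, fun e => h1 (e.mul_right _)⟩
  rcases (hp.dvd_mul).1 e with e | e
  · rcases (hp.dvd_mul).1 e with e | e
    · exact h1 ((((hp.dvd_of_dvd_pow e).trans (by norm_num)).mul_right _).mul_right _)
    · exact h1 ((e.trans (Int.natCast_dvd.1 D.od_spec.2.2.1)).mul_left _)
  · obtain ⟨a, ha, e⟩ := hp.prime.dvd_prod_iff.1 e
    obtain ⟨l', hl', rfl⟩ := List.mem_map.1 ha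
    exact (List.pairwise_cons.1 h).1 l' hl' k
      ((Nat.prime_dvd_prime_iff_eq hp (l'.w k).prime).1 e)

/-- the coefficients of the derived points -/
noncomputable def co (H : Heeg D.toPrg D.a) (n : List (Kp D)) (k : ℕ) (j : ZMod (2 ^ k))
    (s : GQ) : ℤ :=
  if D.ak k s = j then (n.map fun l => dlg (H.N (l.w k).p) (l.t k) s).prod * sd D.dm s else 0

theorem PP_eq (j : ZMod (2 ^ k)) : D.PP H n k j =
    csum D.GK (H.N (D.ck n k)) fun s => co H n k j s • ac s (H.y (D.ck n k)) :=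
  csum_congr fun s _ => by
    rw [co]
    split_ifs
    · rw [mul_smul, natCast_zsmul, tac_apply]
    · rw [zero_smul]

theorem co_cons (j : ZMod (2 ^ k)) (s : GQ) :
    co H (l :: n) k j s = dlg (H.N (l.w k).p) (l.t k) s * co H n k j s := by
  rw [co, co]
  split_ifs
  · rw [List.map_cons, List.prod_cons, Nat.cast_mul, mul_assoc]
  · rw [mul_zero]

theorem co_mul (hI : INVP) (h : Ok n) (j : ZMod (2 ^ k)) {s g : GQ} (hs : s ∈ D.GK)
    (hg : g ∈ H.N (D.ck n k)) : co H n k j (s * g) = co H n k j s := by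
  obtain ⟨⟨h1, h2, h3⟩, -⟩ := hI D H n k h
  have e : (n.map fun l => dlg (H.N (l.w k).p) (l.t k) (s * g)) =
      n.map fun l => dlg (H.N (l.w k).p) (l.t k) s := List.map_congr_left fun l hl => by
    have : g ∈ H.N (l.w k).p := H.anti _ _
      ((List.dvd_prod (List.mem_map_of_mem (f := fun l : Kp D => (l.w k).p) hl)).mul_left _)
      h1 h2 hg
    simp only [dlg, ← mul_assoc, Subgroup.mul_mem_cancel_right _ this]
  rw [co, co, e, D.ak_mul k hs (H.le _ hg), (h3 g hg).1, add_zero, sd_mul D.fix_dm,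
    sd_eq_one.2 (h3 g hg).2, mul_one]

theorem struct (hCF : CF) (hD : DLG) (hI : INVP) (h : Ok (l :: n)) (j : ZMod (2 ^ k)) :
    ∃ (P : EO) (v r : ℕ), k + 1 ≤ v ∧ 2 ^ v * r = (l.w k).p + 1 ∧
      D.PP H (l :: n) k j = ∑ m ∈ Finset.range (2 ^ v), m • ac (l.t k ^ m) P ∧
      ∑ m ∈ Finset.range (2 ^ v), ac (l.t k ^ m) P = ap W15 (l.w k).p • D.PP H n k j ∧
      (∀ s ∈ H.N (D.ck (l :: n) k), ac s P = P) ∧ ac (l.t k ^ 2 ^ v) P = P ∧
      ac (l.F k) P - r • D.PP H n k j ∈ EE hCF.e1g (l.w k) := by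
  have hn : Ok n := (List.pairwise_cons.1 h).2
  obtain ⟨⟨c1, c2, -⟩, -⟩ := hI D H n k hn
  obtain ⟨⟨c3, c4, -⟩, -⟩ := hI D H (l :: n) k h
  obtain ⟨q1, q2⟩ := ndvd (k := k) h
  obtain ⟨d1, -, d2, d3, d4, d5, d6⟩ := hD D H l k (D.ck n k) _ _ rfl rfl c1 c2 q1
  obtain ⟨-, -, i1, i2⟩ := H.inert (D.ck n k) (l.w k) (l.F k) c1 c2
    (fun e => ((l.w k).prime.dvd_mul.1 e).elim q2 q1) (l.fr k) (l.out k)
  have k0 := fun s g (hs : s ∈ D.GK) (hg : g ∈ H.N (D.ck (l :: n) k)) => co_mul hI h j hs hg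
  have k1 := fun s g (hs : s ∈ D.GK) (hg : g ∈ H.N (D.ck n k)) => co_mul hI hn j hs hg
  rw [PP_eq, PP_eq, ck_cons]
  rw [ck_cons] at k0
  have k2 := co_cons (H := H) (n := n) (l := l) j
  generalize D.ck n k = c at *
  generalize co H n k j = a at *
  generalize co H (l :: n) k j = a' at *
  generalize l.t k = t at *
  generalize l.F k = F at *
  generalize l.w k = w at *
  have hx := relIndex_ne_zero (H.on (c * w.p)).2 (H.N w.p)
  have hy := H.fix (c * w.p)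
  have tm : ∀ m : ℕ, t ^ m ∈ H.N c := fun m => pow_mem d2 m
  have k3 : ∀ (m : ℕ), ∀ s ∈ D.GK, a (t ^ m * s) = a s := fun m s hs => by
    rw [show t ^ m * s = s * (s⁻¹ * t ^ m * s⁻¹⁻¹) by group]
    exact k1 _ _ hs ((H.on c).1.conj_mem _ (tm m) _)
  have f4 := (d6 EO (fun _ => 0) fun _ _ _ _ => rfl).2.2.2 (fun s => a s • ac s (H.y c))
    fun s hs g hg => by rw [k1 _ _ hs hg, ac_mul, H.fix c g hg]
  have hP : ∀ s ∈ H.N (c * w.p), ac s (csum (H.N w.p) (H.N (c * w.p))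
      fun s => a s • ac s (H.y (c * w.p))) = csum (H.N w.p) (H.N (c * w.p))
      fun s => a s • ac s (H.y (c * w.p)) := fun s hs => by
    rw [map_csum hx]
    exact csum_congr fun u hu => by rw [map_zsmul, comm hy (H.le _ hs) (H.le _ hu), hy s hs]
  refine ⟨_, padicValNat 2 (w.p + 1), _, d1, Nat.mul_div_cancel' pow_padicValNat_dvd, ?_, ?_, hP,
    hP _ (d3 ▸ ⟨tm _, (d4 _).2 dvd_rfl⟩), ?_⟩
  · rw [(d6 EO (fun s => a' s • ac s (H.y (c * w.p))) fun s hs g hg => by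
      rw [k0 _ _ hs hg, ac_mul, hy g hg]).1]
    refine Finset.sum_congr rfl fun m hm => ?_
    refine (csum_congr fun s hs => ?_).trans (map_csum hx (m • ac (t ^ m)) _).symm
    have e1 : dlg (H.N w.p) t (t ^ m * s) ≤ m := Nat.sInf_le (by simpa using hs)
    have e2 := (d5 _ (mul_mem (H.le _ (tm m)) (H.le _ hs))).2.1
    rw [← mul_assoc, Subgroup.mul_mem_cancel_right _ hs] at e2
    have e3 := (d4 (m - dlg (H.N w.p) t (t ^ m * s))).1 (by
      rwa [pow_sub _ e1, (Commute.refl t).pow_pow _ _ |>.inv_right.eq])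
    have e4 := Nat.eq_zero_of_dvd_of_lt e3 ((Nat.sub_le _ _).trans_lt (Finset.mem_range.1 hm))
    rw [k2, k3 m s (H.le _ hs), le_antisymm e1 (Nat.sub_eq_zero_iff_le.1 e4), ac_mul, mul_smul,
      natCast_zsmul, AddMonoidHom.nsmul_apply, map_zsmul]
  · have e := (d6 EO (fun s => ac s (H.y (c * w.p))) fun s hs g hg => by
      rw [ac_mul, hy g hg]).2.2.1
    rw [← f4]
    simp only [map_csum hx]
    rw [← csum_sum hx]
    refine (csum_congr fun s hs => ?_).trans (map_csum hx (zsmulAddGroupHom (ap W15 w.p))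
      fun s => a s • ac s (H.y c)).symm
    simp only [map_zsmul, fun m => comm hy (H.le _ (tm m)) (H.le _ hs)]
    rw [← Finset.smul_sum, ← map_sum, ← e, i1, map_zsmul]
    rfl
  · rw [← f4, map_csum hx]
    refine (congrArg (· ∈ EE hCF.e1g w) ?_).mp (csum_mem (H := H.N w.p) (H' := H.N (c * w.p))
      (EE hCF.e1g w) fun s hs => zsmul_mem (show _ ∈ EE hCF.e1g w from i2 s (H.le _ hs)) (a s))
    simp only [smul_sub, ac_mul, map_zsmul]
    rw [csum_sub hx]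
    congr 1
    refine (csum_congr fun s hs => ?_).trans (map_csum hx (nsmulAddMonoidHom _)
      fun s => a s • ac s (H.y c)).symm
    exact smul_comm _ _ _

theorem kd_eq (hI : INVP) (h : Ok n) {v : KA} (hv : D.KD H n v) (k : ℕ) :
    ∃ Q : ZMod (2 ^ k) → EO, ∀ j, 2 ^ k • Q j = D.PP H n k j ∧ ∀ g ∈ H.N (D.ck n k),
      D.T.pt ((2 ^ k : ℚ_[2])⁻¹ • v k g j.val) = ac g (Q j) - Q j := by
  obtain ⟨-, -, Q, R, e⟩ := hv k
  obtain ⟨⟨-, -, h3⟩, h4, -⟩ := hI D H n k h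
  refine ⟨Q, fun j => ⟨(e j).1, fun g hg => ?_⟩⟩
  obtain ⟨-, e1, e2⟩ := (e j).2 g (H.le _ hg)
  simp only [(h3 g hg).1, sub_zero, tac_apply, sd_eq_one.2 (h3 g hg).2, one_smul] at e1 e2
  rw [e2, e1 (h4 j g hg), sub_zero]

theorem unsc (k : ℕ) (x : V2) : (2 ^ k : ℚ_[2]) • (2 ^ k : ℚ_[2])⁻¹ • x = x :=
  smul_inv_smul₀ (pow_ne_zero _ two_ne_zero) x

theorem trans (hCF : CF) (hD : DLG) (hI : INVP) (h : Ok (l :: n)) {v : KA}
    (hv : D.KD H (l :: n) v) (j : ZMod (2 ^ k)) : ‖v k (l.ph k) j.val‖ ≤ 2 * (2 ^ k)⁻¹ := by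
  obtain ⟨P, m, r, h1, -, h2, -, h3, -, -⟩ := struct (H := H) (k := k) hCF hD hI h j
  obtain ⟨Q, hQ⟩ := kd_eq hI h hv k
  obtain ⟨q1, q2⟩ := hQ j
  obtain ⟨-, n1⟩ := ndvd (k := k) h
  have hph : l.ph k ∈ H.N (D.ck (l :: n) k) := H.dih _ _ (l.out k)
  have hD : l.ph k ∈ (l.w k).D := mul_mem (l.fr k).1 (l.fr k).1
  have p2 : (l.w k).p ≠ 2 := fun e => n1 (e ▸ Dvd.dvd.mul_right (by norm_num) _)
  have hc := (hCF.cong (l.w k) fun e => n1 ((e.trans (by norm_num)).mul_right _)).2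
  obtain ⟨μ, hμ⟩ : 2 ^ k ∣ ∑ i ∈ Finset.range (2 ^ m), i := by
    refine Nat.dvd_of_mul_dvd_mul_right two_pos ?_
    rw [Finset.sum_range_id_mul_two, ← pow_succ]
    exact (pow_dvd_pow 2 h1).mul_right _
  have e1 : D.PP H (l :: n) k j - 2 ^ k • μ • P ∈ EE hCF.e1g (l.w k) := by
    rw [h2, ← mul_nsmul', ← hμ, Finset.sum_smul, ← Finset.sum_sub_distrib]
    refine sum_mem fun i _ => ?_
    rw [← smul_sub]
    exact nsmul_mem (show _ ∈ EE hCF.e1g (l.w k) from hc _ (pow_mem (l.tI k) i) P) i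
  obtain ⟨E, e2, e3⟩ := EE_div hCF.e1g k e1
  have e4 : 2 ^ k • (Q j - μ • P - E) = 0 := by rw [smul_sub, smul_sub, q1, e3, sub_self]
  obtain ⟨u, hu⟩ := D.T.surj _ k e4
  rw [← hu, D.T.pt_pow] at e4
  have e5 : ‖(2 ^ k : ℚ_[2])⁻¹ • v k (l.ph k) j.val - (D.T.rho (l.ph k) - 1) *ᵥ u‖ ≤ 1 := by
    refine EE_pt hCF.e1g D.T p2 ?_
    rw [map_sub, q2 _ hph, Matrix.sub_mulVec, Matrix.one_mulVec, map_sub, ← D.T.gal, hu, map_sub,
      map_sub, map_nsmul, h3 _ hph]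
    have := sub_mem (EE_ac hCF.e1g hD e2) e2
    convert this using 1
    abel
  have e6 : D.T.rho (l.ph k) - 1 = D.T.rho (l.F k) * (D.T.rho (l.F k) - D.T.rho tau) +
      (D.T.rho (l.F k) - D.T.rho tau) * D.T.rho tau := by
    rw [← (D.T.tau hCF.tau hCF.ec).1, show l.ph k = l.F k * l.F k from rfl, map_mul]
    noncomm_ring
  have e7 : ‖(D.T.rho (l.ph k) - 1) *ᵥ u‖ ≤ 1 := by
    rw [e6, Matrix.add_mulVec, ← Matrix.mulVec_mulVec, ← Matrix.mulVec_mulVec]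
    refine (norm_add_le_of_le (mvle (D.T.int _) (mvle (l.rho k) e4))
      (mvle (l.rho k) (mvle (D.T.int _) e4))).trans (le_of_eq ?_)
    field_simp
    ring
  rw [← unsc k (v k _ _), sc]
  refine mul_le_mul_of_nonneg_right ?_ (by positivity)
  have := norm_add_le_of_le e5 e7
  rw [sub_add_cancel] at this
  linarith

theorem rel (hCF : CF) (hD : DLG) (hI : INVP) (h : Ok (l :: n)) {v v' : KA} (hv : D.KD H n v)
    (hv' : D.KD H (l :: n) v') {e : ℕ} (he : ∀ (c i : ℕ) (P : EO), (∀ s ∈ H.N c, ac s P = P) →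
      2 ^ i • P = 0 → 2 ^ e • P = 0) (j : ZMod (2 ^ k)) :
    ‖v' k (l.t k) j.val - D.T.rho tau *ᵥ v k (l.ph k) j.val‖ ≤ (2 + 2 ^ e) * (2 ^ k)⁻¹ := by
  have hn : Ok n := (List.pairwise_cons.1 h).2
  obtain ⟨P, m, r, h1, hr, h2, h4, h3, h5, h6⟩ := struct (H := H) (k := k) hCF hD hI h j
  obtain ⟨Q, hQ⟩ := kd_eq hI hn hv k
  obtain ⟨q1, q2⟩ := hQ j
  obtain ⟨n0, n1⟩ := ndvd (k := k) h
  obtain ⟨⟨c1, c2, c5⟩, c6, -⟩ := hI D H n k hn
  obtain ⟨⟨c3, c4, -⟩, -⟩ := hI D H (l :: n) k h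
  obtain ⟨-, ⟨b, hb⟩, d2, -⟩ := hD D H l k (D.ck n k) _ _ rfl rfl c1 c2 n0
  obtain ⟨-, hb', Q', R, hQ'⟩ := hv' k
  obtain ⟨q3, q4⟩ := hQ' j
  obtain ⟨q4, -, q5⟩ := q4 _ (H.le _ d2)
  simp only [(c5 _ d2).1, sub_zero, tac_apply, sd_eq_one.2 (c5 _ d2).2, one_smul] at q5
  have p2 : (l.w k).p ≠ 2 := fun e => n1 (e ▸ Dvd.dvd.mul_right (by norm_num) _)
  have hc : ac (l.t k) (Q' j) - Q' j ∈ EE hCF.e1g (l.w k) :=
    (hCF.cong (l.w k) fun e => n1 ((e.trans (by norm_num)).mul_right _)).2 _ (l.tI k) _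
  have hF : _ ∈ EE hCF.e1g (l.w k) :=
    hCF.fr (l.w k) _ (fun e => n1 (e.mul_right _)) (l.fr k) (Q j)
  obtain ⟨d, rfl⟩ := Nat.exists_eq_add_of_le (Nat.le_of_succ_le h1)
  have hx : ‖(2 ^ k : ℚ_[2])⁻¹ • v' k (l.t k) j.val‖ ≤ 2 ^ k := by
    have := hb' (l.t k) j.val
    rwa [← unsc k (v' _ _ _), sc, mul_inv_le_iff₀ (by positivity), one_mul] at this
  have e1 : 2 ^ k • R (l.t k) j = 2 ^ (k + d) • P - ap W15 (l.w k).p • D.PP H n k j := by
    have a1 := congrArg (2 ^ k • ·) q5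
    simp only [smul_sub] at a1
    rw [D.T.pt_pow.2 hx, ← map_nsmul, q3, h2, map_sum] at a1
    have a2 := tel (fun i => ac (l.t k ^ i) P) (2 ^ (k + d))
    simp only [h5, pow_zero, ac_one, h4, pow_succ', ac_mul] at a2
    simp only [map_nsmul] at a1
    linear_combination (norm := abel) a1 + a2
  have e2 : 2 ^ e • (R (l.t k) j - 2 ^ d • P + (2 * b) • D.PP H n k j) = 0 := by
    refine he (D.ck (l :: n) k) k _ (fun s hs => ?_) ?_
    · rw [map_add, map_sub, map_nsmul, map_zsmul, q4 s hs, h3 s hs,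
        c6 j s (H.anti _ _ (ck_cons ▸ dvd_mul_right _ _) c3 c4 hs)]
    · rw [smul_add, smul_sub, e1, hb, ← mul_nsmul', ← pow_add, ← natCast_zsmul _ (2 ^ k), smul_smul]
      push_cast
      rw [show (2 : ℤ) ^ k * (2 * b) = 2 ^ (k + 1) * b by ring]
      abel
  obtain ⟨u, hu⟩ := D.T.surj _ e e2
  rw [← hu, D.T.pt_pow] at e2
  have e3 : ‖D.T.rho (l.F k) *ᵥ ((2 ^ k : ℚ_[2])⁻¹ • v' k (l.t k) j.val + u) -
      (2 ^ k : ℚ_[2])⁻¹ • v k (l.ph k) j.val‖ ≤ 1 := by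
    refine EE_pt hCF.e1g D.T p2 ?_
    rw [map_sub, q2 (l.ph k) (H.dih _ _ (l.out k)), ← D.T.gal, map_add, q5, hu,
      show l.ph k = l.F k * l.F k from rfl, ac_mul]
    have := sub_mem (sub_mem (EE_ac hCF.e1g (l.fr k).1 hc) (nsmul_mem h6 (2 ^ d))) hF
    have a1 : (2 ^ d) • r • 2 ^ k • Q j = (l.w k).p • Q j + Q j := by
      rw [← mul_nsmul', ← mul_nsmul', ← succ_nsmul, ← hr]
      congr 1
      ring
    have a2 : (2 * b) • 2 ^ k • ac (l.F k) (Q j) = ap W15 (l.w k).p • ac (l.F k) (Q j) := by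
      rw [hb, ← natCast_zsmul, smul_smul]
      congr 1
      push_cast
      ring
    rw [← q1, smul_sub, a1, ← a2] at this
    rw [← q1]
    simp only [map_add, map_sub, map_nsmul, map_zsmul] at this ⊢
    convert this using 1
    abel
  rw [← unsc k (v' k _ _), ← unsc k (v k _ _), Matrix.mulVec_smul, ← smul_sub, sc]
  refine mul_le_mul_of_nonneg_right ?_ (by positivity)
  have e4 := norm_sub_le_of_le (norm_sub_le_of_le (mvle (D.T.int tau) e3)
    (mvle (D.T.int tau) (mvle (l.rho k) hx))) (mvle (D.T.int tau) (mvle (D.T.int (l.F k)) e2))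
  simp only [Matrix.mulVec_sub, Matrix.mulVec_add, Matrix.sub_mulVec] at e4
  rw [Matrix.mulVec_mulVec _ (D.T.rho tau) (D.T.rho tau), (D.T.tau hCF.tau hCF.ec).1,
    Matrix.one_mulVec] at e4
  refine (le_of_eq (congrArg norm (by abel))).trans (e4.trans ?_)
  rw [pow_succ, mul_inv_rev, mul_assoc, inv_mul_cancel₀ (by positivity)]
  linarith

theorem lim {A : Type} [NormedCommRing A] [NormedAlgebra ℚ_[2] A] [IsUltrametricDist A]
    {ψ : ℤ_[2] → A} (h : IsPsi ψ) {a : ℕ → ℕ → V2} {C : ℝ}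
    (ha : ∀ (k : ℕ) (j : ZMod (2 ^ k)), ‖a k j.val‖ ≤ C * (2 ^ k)⁻¹) :
    Tendsto (fun k i => ∑ j ∈ Finset.range (2 ^ k), a k j i • ψ j) UF (𝓝 0) := by
  refine squeeze_zero_norm (a := fun k : ℕ => C * (2 ^ k)⁻¹) (fun k => ?_) ?_
  · have h0 := (norm_nonneg _).trans (ha k 0)
    refine (pi_norm_le_iff_of_nonneg h0).2 fun i =>
      IsUltrametricDist.norm_sum_le_of_forall_le_of_nonneg h0 fun j hj => ?_
    have := ha k j
    rw [ZMod.val_natCast_of_lt (Finset.mem_range.1 hj)] at this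
    rw [norm_smul]
    exact (mul_le_of_le_one_right (norm_nonneg _) (h.le _)).trans
      ((norm_le_pi_norm _ i).trans this)
  · rw [← mul_zero C]
    exact ((tendsto_pow_atTop_atTop_of_one_lt one_lt_two).inv_tendsto_atTop.mono_left
      UF_le).const_mul C

end TKREL

open TKREL in
theorem t_KREL (hCF : CF) (hDLG : DLG) (hINVP : INVP) (hKPZ : KPZ) : KREL := by
  intro D H n v hn hv A _ _ _ _ ψ hψ
  refine ⟨fun l hl => ?_, fun l v' hl hv' => ?_⟩
  · obtain ⟨s, t, rfl⟩ := List.append_of_mem hl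
    exact ul_eq (lim hψ (a := fun k j => v k (l.ph k) j) fun k j => trans hCF hDLG hINVP
      (ok_perm List.perm_middle hn) (perm List.perm_middle hv) j)
  · obtain ⟨e, he⟩ := (hKPZ D H n v hn hv).1
    have h1 := lim hψ (a := fun k j => v' k (l.t k) j - D.T.rho tau *ᵥ v k (l.ph k) j)
      fun k j => rel hCF hDLG hINVP hl hv hv' he j
    have h2 := (((mv (A := A) (D.T.rho tau)).restrictScalars ℚ_[2]
      ).continuous_of_finiteDimensional.tendsto _).comp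
      (tendsto_raw hψ (fun k => (hv k).2.1) l.ph)
    refine ul_eq ((zero_add (mv (D.T.rho tau) (raw ψ v l.ph)) ▸ h1.add h2).congr fun k => ?_)
    funext i
    simp only [Pi.add_apply, Function.comp_apply, LinearMap.restrictScalars_apply, mv_apply,
      Finset.smul_sum, ← Finset.sum_add_distrib, Pi.sub_apply, Matrix.mulVec, dotProduct,
      Fin.sum_univ_two, smul_smul, ← add_smul, sub_add_cancel]

end Pool.Agent.P.MP_8b7eba_nt.R2.G
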