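import Pool.Agent.P.MP_8b7eba_nt.R3.ASel

/-! Proof of LAY. -/

namespace Pool.Agent.P.MP_8b7eba_nt.R2.G

open scoped NNReal Matrix
open MP_9c97e9_nt (Pt pm Is ap Sha Split)
open Filter Topology Polynomial Module

namespace TLAY

theorem tau_not (hA : CA) (P : Pre) : tau ∉ P.GK := fun h => by
  have h1 := hA.tau.1 P.sk
  rw [show tau P.sk = P.sk from h] at h1
  have h2 : io P.sk ^ 2 = -P.l := by rw [← map_pow, P.hsk, map_neg, map_natCast]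
  obtain ⟨r, hr⟩ := Complex.conj_eq_iff_real.1 h1.symm
  rw [hr] at h2
  have h3 : r ^ 2 = -P.l := by exact_mod_cast h2
  have h4 : (0 : ℝ) < P.l := Nat.cast_pos.2 P.lp.pos
  nlinarith [sq_nonneg r]

theorem tc (hA : CA) (P : Pre) : TC P.GK := fun g h => tau_not hA P (by
  simpa [mul_assoc] using P.on.1.conj_mem _ h g⁻¹)

theorem idxK (hA : CA) (P : Pre) : P.GK.index = 2 :=
  Subgroup.index_eq_two_iff.2 ⟨tau, fun b => by
    by_cases hb : b ∈ P.GK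
    · exact Or.inr ⟨hb, fun h => tau_not hA P ((P.GK.mul_mem_cancel_left hb).1 h)⟩
    · exact Or.inl ⟨P.mul_mem hb (tau_not hA P), hb⟩⟩

variable (D : Dat)

theorem conj (g : GQ) {h : GQ} (hh : h ∈ D.GK) :
    D.a (g * h * g⁻¹) = D.a h ∨ D.a (g * h * g⁻¹) = -D.a h := by
  by_cases hg : g ∈ D.GK
  · exact Or.inl (D.an.conj hg hh)
  · exact Or.inr (D.an.dih g hg h hh)

theorem on (n : ℕ) : ON (D.Gd (2 ^ n)) := by
  refine ⟨⟨fun h hh g => ⟨D.on.1.conj_mem h hh.1 g, ?_⟩⟩, ?_⟩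
  · rcases conj D g hh.1 with e | e <;> rw [e]
    exacts [hh.2, hh.2.neg_right]
  · obtain ⟨N, hN, h⟩ := D.an.sm n
    exact open_of_le (hN.inf D.on).2 fun g hg => ⟨hg.2, h g hg.2 hg.1⟩

theorem sub {g h : GQ} (hg : g ∈ D.GK) (hh : h ∈ D.GK) : D.a (g * h⁻¹) = D.a g - D.a h := by
  rw [D.an.add g hg _ (inv_mem hh), D.an.inv hh, sub_eq_add_neg]

theorem surj (hA : CA) (b : ℤ_[2]) : ∃ s ∈ D.w2.I, s ∈ D.GK ∧ D.a s = b := by
  obtain ⟨s, hs, h, -⟩ := D.an.surj hA b 1 (Or.inl rfl)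
  exact ⟨s, hs, D.D_le hs.1, h⟩

theorem idx (hA : CA) (n : ℕ) : (D.Gd (2 ^ n)).index = 2 ^ (n + 1) := by
  have h1 : IsCh D.GK (D.ak n) := ⟨⟨_, on D n, fun g hg m hm h => by
    rw [D.ak_mul n hg hm, D.ak_eq_zero.2 h.2, add_zero]⟩, fun g hg h hh => D.ak_mul n hg hh⟩
  have h2 : IsKer D.GK (D.Gd (2 ^ n)) (D.ak n) := fun g => and_congr Iff.rfl D.ak_eq_zero.symm
  have h3 : D.ak n '' D.GK = Set.univ := Set.eq_univ_of_forall fun z => by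
    obtain ⟨s, -, hs, h⟩ := surj D hA (z.val : ℤ_[2])
    exact ⟨s, hs, by rw [Dat.ak, h, map_natCast, ZMod.natCast_zmod_val]⟩
  rw [← Subgroup.relIndex_mul_index (H := D.Gd (2 ^ n)) (K := D.GK) fun g hg => hg.1, h2.relIndex h1, h3, idxK hA,
    Set.ncard_univ, Nat.card_zmod, pow_succ]

/-- the image of the decomposition group is generated by `2 ^ k` -/
def Im (w : Pl) (k : ℕ) : Prop :=
  w.D ≤ D.Gd (2 ^ k) ∧ ∃ φ ∈ w.D, ∃ u : ℤ_[2]ˣ, D.a φ = u * 2 ^ k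

variable {D}

theorem Im.appr {w : Pl} {k : ℕ} (h : Im D w k) (n : ℕ) {g : GQ} (hg : g ∈ D.Gd (2 ^ k)) :
    ∃ d ∈ w.D, g * d⁻¹ ∈ D.Gd (2 ^ n) := by
  obtain ⟨h1, φ, hφ, u, hu⟩ := h
  obtain ⟨hg, c, hc⟩ := hg
  have hK := pow_mem (h1 hφ).1 (PadicInt.appr (c * ((u⁻¹ : ℤ_[2]ˣ) : ℤ_[2])) n)
  refine ⟨_, pow_mem hφ _, mul_mem hg (inv_mem hK), ?_⟩
  have e := Ideal.mem_span_singleton.1 (PadicInt.appr_spec n (c * ((u⁻¹ : ℤ_[2]ˣ) : ℤ_[2])))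
  rw [sub D hg hK, D.an.pow (h1 hφ).1, hu, hc]
  refine (e.mul_left (u * 2 ^ k)).trans (Dvd.intro 1 ?_)
  have := u.mul_inv
  linear_combination 2 ^ k * c * this

theorem Gd_le {k n : ℕ} (h : k ≤ n) : D.Gd (2 ^ n) ≤ D.Gd (2 ^ k) :=
  fun _ hg => ⟨hg.1, (pow_dvd_pow 2 h).trans hg.2⟩

theorem Im.rel {w : Pl} {k n : ℕ} (h : Im D w k) (hk : k ≤ n) :
    (D.Gd (2 ^ n)).relIndex w.D * (D.Gd (2 ^ k)).index = (D.Gd (2 ^ n)).index := by
  have := (on D n).1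
  have e : D.Gd (2 ^ n) ⊔ w.D = D.Gd (2 ^ k) := le_antisymm (sup_le (Gd_le hk) h.1) fun g hg => by
    obtain ⟨d, h1, h2⟩ := h.appr n hg
    simpa using Subgroup.mul_mem_sup h2 h1
  rw [← Subgroup.relIndex_sup_left, e, Subgroup.relIndex_mul_index (Gd_le hk)]

theorem Im.not_le {w : Pl} {k n : ℕ} (h : Im D w k) (hk : k ≤ n) :
    ¬ w.D ⊓ D.Gd (2 ^ n) ≤ D.Gd (2 ^ (n + 1)) := fun hle => by
  obtain ⟨h1, φ, hφ, u, hu⟩ := h
  have e : D.a (φ ^ 2 ^ (n - k)) = u * 2 ^ n := by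
    rw [D.an.pow (h1 hφ).1, hu, ← Nat.sub_add_cancel hk, Nat.add_sub_cancel]
    push_cast
    ring
  have h2 := (hle (x := φ ^ 2 ^ (n - k))
    ⟨pow_mem hφ _, pow_mem (h1 hφ).1 _, e ▸ Dvd.intro_left _ rfl⟩).2
  rw [e, pow_succ', mul_dvd_mul_iff_right (pow_ne_zero n two_ne_zero)] at h2
  exact PadicInt.prime_p.not_isUnit (isUnit_of_dvd_unit h2 u.isUnit)

theorem Im.lim {w : Pl} (h : Im D w 0) {g : GQ} (hg : g ∈ D.GK) : ∃ d ∈ w.D, g * d⁻¹ ∈ D.Gd 0 := by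
  have hc : ∀ n, IsClosed ((w.D : Set GQ) ∩ (fun d => g * d⁻¹) ⁻¹' (D.Gd (2 ^ n))) := fun n =>
    w.closed_D.inter ((closed_of_open (on D n).2).preimage (by fun_prop))
  obtain ⟨d, hd⟩ := IsCompact.nonempty_iInter_of_sequence_nonempty_isCompact_isClosed
    (fun n => (w.D : Set GQ) ∩ (fun d => g * d⁻¹) ⁻¹' (D.Gd (2 ^ n)))
    (fun n d hd => ⟨hd.1, Gd_le n.le_succ hd.2⟩) (fun n => h.appr n ⟨hg, by simp⟩)
    (hc 0).isCompact hc
  rw [Set.mem_iInter] at hd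
  exact ⟨d, (hd 0).1, (hd 0).2.1, zero_dvd_iff.2 (PadicInt.ext_of_toZModPow.1 fun n =>
    (D.ak_eq_zero.2 (hd n).2.2).trans (map_zero _).symm)⟩

theorem im_zero {w : Pl} (h : (w.p : ℤ) ∣ 30 * D.m) {φ : GQ} (hφ : φ ∈ w.D) (hu : IsUnit (D.a φ)) :
    Im D w 0 :=
  ⟨fun g hg => ⟨D.spD w h hg, by simp⟩, φ, hφ, hu.unit, by simp⟩

theorem im_two (hA : CA) {w : Pl} (h : w.p = 2) : Im D w 0 := by
  obtain ⟨σ, rfl⟩ := hA.pl.2.1 D.w2 w (D.hw2.trans h.symm)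
  refine im_zero (φ := σ * D.gm * σ⁻¹) (h ▸ Dvd.dvd.mul_right (by norm_num) _)
    (Pl.mem_D_smul.2 (by simpa [mul_assoc] using D.gI.1)) ?_
  rcases conj D σ (D.D_le D.gI.1) with e | e <;> simp [e, D.ga]

theorem im_odd (hA : CA) {w : Pl} (h : w.p ∣ 15) : Im D w 0 := by
  obtain ⟨φ, hφ⟩ := w.exists_frob hA.frob
  exact im_zero (Dvd.dvd.mul_right ((Int.natCast_dvd_natCast.2 h).trans (by norm_num)) _) hφ.1
    (D.an.odd w φ h hφ)

theorem im_d (hA : CA) {w : Pl} (h : (w.p : ℤ) ∣ D.m) (h30 : ¬ w.p ∣ 30) : Im D w (D.np w.p) := by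
  obtain ⟨f, φ, -, -, hφ, hf, -, hd⟩ := hA.frob w w.D w.loc_D
  obtain rfl := hf rfl
  have h1 := D.hnp w φ h h30 hφ
  have hK := D.spD w (h.mul_left 30)
  have h2 : w.p ≠ 2 := fun e => h30 (e ▸ by norm_num)
  obtain ⟨c, hc⟩ := Ideal.mem_span_singleton'.1
    ((PadicInt.norm_le_pow_iff_mem_span_pow (D.a φ) (D.np w.p)).1 (by simp [h1]))
  have h3 : ‖c‖ = 1 := by
    rw [← hc, norm_mul, PadicInt.norm_p_pow] at h1
    simpa using h1
  refine ⟨fun g hg => ⟨hK hg, ?_⟩, φ, hφ.1, (PadicInt.isUnit_iff.2 h3).unit, hc.symm⟩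
  obtain ⟨N, hN, h4⟩ := D.an.sm (D.np w.p)
  obtain ⟨m, i, hi, n, hn, rfl⟩ := hd N hN g hg
  rw [D.an.add _ (hK (mul_mem (pow_mem hφ.1 m) hi.2)) _ (hK hn.2),
    D.an.add _ (hK (pow_mem hφ.1 m)) _ (hK hi.2), D.an.unr w h2 i ⟨hi.1, hK hi.2⟩, add_zero,
    D.an.pow (hK hφ.1), ← hc]
  exact dvd_add (Dvd.dvd.mul_left (Dvd.intro_left c rfl) _) (h4 n (hK hn.2) hn.1)

theorem orb (hA : CA) {U : Subgroup GQ} (hU : IsOpen (U : Set GQ)) (P : Finset ℕ) :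
    ∃ R : Finset Pl, Sep U R ∧ (∀ w, Out U R w ↔ w.p ∉ P) ∧ (∀ w ∈ R, w.p ∈ P) ∧
      R.card = nOrb U R ∧ nOrb U R = nOrb U {w | w.p ∈ P} := by
  obtain ⟨R₀, -, h0⟩ := (hA.orb U hU).2.1 P
  obtain ⟨R, -, h1, h2, -⟩ := (hA.orb U hU).1 R₀ R₀.finite_toSet
  have h3 : ∀ w, Out U R w ↔ w.p ∉ P := fun w => (h2 w).trans (h0 w)
  have h4 : ∀ w ∈ R, w.p ∈ P := fun w hw => by
    by_contra h
    exact (h3 w).2 h 1 (one_mem U) (by rwa [one_smul])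
  refine ⟨R, h1, h3, h4, ?_, congrArg Set.ncard (Set.Subset.antisymm (Set.image_mono h4) ?_)⟩
  · rw [nOrb, Set.InjOn.ncard_image, Set.ncard_coe_finset]
    intro w hw w' hw' e
    obtain ⟨u, rfl⟩ := MulAction.orbit_eq_iff.1 e
    exact h1 w' hw' u u.2 hw
  · rintro _ ⟨w, hw, rfl⟩
    obtain ⟨u, hu, m⟩ : ∃ u ∈ U, u • w ∈ R := by
      by_contra! h
      exact (h3 w).1 h hw
    exact ⟨_, m, MulAction.orbit_smul (⟨u, hu⟩ : U) w⟩

theorem count (hA : CA) {n : ℕ} (P : Finset ℕ) (k : ℕ → ℕ) (hp : ∀ p ∈ P, p.Prime ∧ k p ≤ n)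
    (h : ∀ w : Pl, w.p ∈ P → Im D w (k w.p)) :
    nOrb (D.Gd (2 ^ n)) {w | w.p ∈ P} = ∑ p ∈ P, 2 ^ (k p + 1) := by
  classical
  have hU := (on D n).2
  obtain ⟨R, h1, h2, h3, h4, h5⟩ := orb hA hU P
  rw [← h5, ← h4, Finset.card_eq_sum_card_fiberwise (f := Pl.p) (t := P) h3]
  refine Finset.sum_congr rfl fun p hP => ?_
  obtain ⟨w₀, rfl⟩ := hA.pl.1 p (hp p hP).1
  choose! s hs using fun w : Pl => hA.pl.2.1 w w₀
  have h6 := ((hA.orb _ hU).2.2 w₀ (R.filter fun w => w.p = w₀.p) s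
    (fun w hw u hu m => h1 w (Finset.mem_filter.1 hw).1 u hu (Finset.mem_filter.1 m).1)
    (fun w => ⟨fun a e => (h2 w).1 (fun u hu m => a u hu (Finset.mem_filter.2 ⟨m, e⟩)) (e ▸ hP),
      fun a u _ m => a (Finset.mem_filter.1 m).2⟩)
    fun w hw => hs w (Finset.mem_filter.1 hw).2).1
  have h7 := congrArg (· * (D.Gd (2 ^ k w₀.p)).index) h6
  simp only [Finset.sum_mul] at h7
  rw [Finset.sum_congr rfl fun w hw => by
    have e := (Finset.mem_filter.1 hw).2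
    rw [← e, (h w (e ▸ hP)).rel (e ▸ (hp _ hP).2)], Finset.sum_const, smul_eq_mul, idx D hA,
    idx D hA, mul_comm] at h7
  exact Nat.eq_of_mul_eq_mul_left (Nat.two_pow_pos _) h7

theorem dvd15 {p : ℕ} (hp : p.Prime) (h : p ∣ 15) : p = 3 ∨ p = 5 :=
  ((Nat.Prime.dvd_mul hp (m := 3) (n := 5)).1 h).imp
    (Nat.prime_dvd_prime_iff_eq hp Nat.prime_three).1
    (Nat.prime_dvd_prime_iff_eq hp Nat.prime_five).1

theorem dvd30 {p : ℕ} (hp : p.Prime) : p ∣ 30 ↔ p ∈ ({2, 3, 5} : Finset ℕ) := by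
  refine ⟨fun h => ?_, fun h => ?_⟩
  · simpa using (hp.dvd_mul.1 (show p ∣ 2 * 15 from h)).imp
      (Nat.prime_dvd_prime_iff_eq hp Nat.prime_two).1 (dvd15 hp)
  · simp only [Finset.mem_insert, Finset.mem_singleton] at h
    rcases h with h | h | h <;> rw [h] <;> norm_num

theorem bad {w : Pl} : (w.p : ℤ) ∣ 30 * D.m ↔ w.p ∈ ({2, 3, 5} : Finset ℕ) ∪ D.gp := by
  rw [(Nat.prime_iff_prime_int.1 w.prime).dvd_mul, Finset.mem_union, Prg.mem_gp, ← dvd30 w.prime,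
    show (30 : ℤ) = (30 : ℕ) from rfl, Int.natCast_dvd_natCast, and_iff_right w.prime]
  tauto

theorem im_bad (hA : CA) {w : Pl} (h : w.p ∈ ({2, 3, 5} : Finset ℕ) ∪ D.gp) :
    Im D w (if w.p ∣ 30 then 0 else D.np w.p) := by
  split_ifs with hd
  · have h1 := (dvd30 w.prime).1 hd
    simp only [Finset.mem_insert, Finset.mem_singleton] at h1
    rcases h1 with h1 | h1 | h1
    · exact im_two hA h1
    · exact im_odd hA (h1 ▸ by norm_num)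
    · exact im_odd hA (h1 ▸ by norm_num)
  · exact im_d hA (Prg.mem_gp.1 ((Finset.mem_union.1 h).resolve_left fun h =>
      hd ((dvd30 w.prime).2 h))).2.1 hd

theorem last (hA : CA) {w₀ w : Pl} (h0 : w₀.p ∣ 15) (h : w.p = w₀.p) :
    ∃ u ∈ D.Gd 0, u • w = w₀ ∨ u • w = tau • w₀ := by
  have key : ∀ g ∈ D.GK, ∃ u ∈ D.Gd 0, u • w = g • w := fun g hg => by
    obtain ⟨d, h1, h2⟩ := (im_odd hA (w := w) (h ▸ h0)).lim hg
    exact ⟨_, h2, by rw [mul_smul, show d⁻¹ • w = w from inv_mem h1]⟩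
  obtain ⟨σ, rfl⟩ := hA.pl.2.1 w w₀ h
  by_cases hσ : σ ∈ D.GK
  · obtain ⟨u, h1, h2⟩ := key σ hσ
    exact ⟨u, h1, Or.inl h2⟩
  · obtain ⟨u, h1, h2⟩ := key _ (D.mul_mem (tau_not hA _) hσ)
    exact ⟨u, h1, Or.inr (h2.trans (mul_smul _ _ _))⟩

end TLAY

open TLAY in
theorem t_LAY (hCF : CF) : LAY := by
  classical
  have hA : CA := hCF.toCA
  intro D n
  have hk : (∀ p ∈ D.gp, D.np p ≤ n) → ∀ p ∈ ({2, 3, 5} : Finset ℕ) ∪ D.gp,
      p.Prime ∧ (if p ∣ 30 then 0 else D.np p) ≤ n := fun hn p hp => by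
    rcases Finset.mem_union.1 hp with h | h
    · simp only [Finset.mem_insert, Finset.mem_singleton] at h
      rcases h with rfl | rfl | rfl <;> norm_num
    · rw [if_neg (Prg.mem_gp.1 h).2.2]
      exact ⟨(Prg.mem_gp.1 h).1, hn p h⟩
  refine ⟨on D n, (tc hA _).mono fun g hg => hg.1, idx D hA n, ?_, fun g hg => ?_, fun N hN => ?_,
    ?_, fun hn => ⟨?_, fun w hw => (im_bad hA (bad.1 hw)).not_le (hk hn _ (bad.1 hw)).2⟩,
    fun P => ?_, ?_⟩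
  · have h := (im_two (D := D) hA D.hw2).rel n.zero_le
    rw [idx D hA, idx D hA, pow_succ 2 n] at h
    exact Nat.eq_of_mul_eq_mul_right two_pos h
  · obtain ⟨s, h1, h2, h3⟩ := surj D hA (D.a g)
    exact ⟨s, ⟨h1, h2, h3 ▸ hg.2⟩, mul_mem hg.1 (inv_mem h2), by rw [sub D hg.1 h2, h3, sub_self]⟩
  · have := hN.1
    have h0 : (N.index : ℤ_[2]) ≠ 0 := Nat.cast_ne_zero.2 (Basic.fi hN.2).index_ne_zero
    refine ⟨(N.index : ℤ_[2]).valuation, fun g hg => ?_⟩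
    obtain ⟨b, hb⟩ : (N.index : ℤ_[2]) ∣ D.a g := by
      rw [PadicInt.unitCoeff_spec h0]
      exact Units.mul_left_dvd.2 hg.2
    obtain ⟨s, h1, h2, h3⟩ := surj D hA b
    exact ⟨s ^ N.index, ⟨pow_mem h1 _, N.pow_index_mem s⟩, mul_mem hg.1 (inv_mem (pow_mem h2 _)),
      by rw [sub D hg.1 (pow_mem h2 _), D.an.pow h2, h3, hb, sub_self]⟩
  · simpa using count (D := D) hA (n := n) {2} (fun _ => 0) (by simp [Nat.prime_two])
      fun w hw => im_two hA (Finset.mem_singleton.1 hw)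
  · have h := count hA _ _ (hk hn) fun w hw => im_bad hA hw
    simp only [← bad] at h
    rw [h, Finset.sum_union (Finset.disjoint_left.2 fun p hp h =>
      (Prg.mem_gp.1 h).2.2 ((dvd30 (Prg.mem_gp.1 h).1).2 hp)), Dat.sg, Finset.mul_sum]
    congr 1
    exact Finset.sum_congr rfl fun p hp => by rw [if_neg (Prg.mem_gp.1 hp).2.2, pow_succ']
  · obtain ⟨R, -, h2, h3, -, h5⟩ := orb hA (on D n).2 P
    exact ⟨R, R.finite_toSet, h3, h2, h5⟩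
  · have : Nonempty Pl := ⟨D.w2⟩
    choose! pl hpl using hA.pl.1
    have h35 : ∀ p ∈ ({3, 5} : Finset ℕ), p.Prime ∧ p ∣ 15 := by decide
    refine ⟨(({3, 5} : Finset ℕ).filter fun p : ℕ => ¬ (p : ℤ) ∣ D.m).biUnion fun p => {pl p, tau • pl p},
      ?_, fun w hw => ?_, fun w hw => ?_⟩
    · have h1 := Finset.card_biUnion_le_card_mul (({3, 5} : Finset ℕ).filter fun p : ℕ => ¬ (p : ℤ) ∣ D.m)
        (fun p => ({pl p, tau • pl p} : Finset Pl)) 2 fun _ _ => Finset.card_le_two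
      have h2 := Finset.card_filter_add_card_filter_not (s := ({3, 5} : Finset ℕ))
        fun p : ℕ => (p : ℤ) ∣ D.m
      have h3 : D.bb ≤ (({3, 5} : Finset ℕ).filter fun p : ℕ => (p : ℤ) ∣ D.m).card :=
        Finset.card_le_card fun p hp => by
          obtain ⟨a, b⟩ := Finset.mem_filter.1 hp
          exact Finset.mem_filter.2 ⟨by simpa using dvd15 (Nat.prime_of_mem_primeFactors a) b,
            Int.natCast_dvd.2 (Nat.dvd_of_mem_primeFactors a)⟩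
      rw [Finset.card_pair (by norm_num)] at h2
      omega
    · obtain ⟨p, hp, hw⟩ := Finset.mem_biUnion.1 hw
      obtain ⟨a, b⟩ := Finset.mem_filter.1 hp
      have e : w.p = p := by
        simp only [Finset.mem_insert, Finset.mem_singleton] at hw
        rcases hw with rfl | rfl <;> simp [hpl p (h35 p a).1]
      exact ⟨e ▸ (h35 p a).2, e ▸ b⟩
    · obtain ⟨u, h1, h2⟩ := last (D := D) hA (w₀ := pl w.p) (by rw [hpl _ w.prime]; exact hw.1)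
        (hpl _ w.prime).symm
      exact ⟨u, h1, Finset.mem_biUnion.2 ⟨w.p, Finset.mem_filter.2
        ⟨by simpa using dvd15 w.prime hw.1, hw.2⟩, by rcases h2 with e | e <;> simp [e]⟩⟩

end Pool.Agent.P.MP_8b7eba_nt.R2.G
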