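import Pool.Agent.P.MP_8b7eba_nt.R3.ASel

/-! Proof of LB. -/

namespace Pool.Agent.P.MP_8b7eba_nt.R2.G

open scoped NNReal Matrix
open MP_9c97e9_nt (Pt pm Is ap Sha Split)
open Filter Topology Polynomial Module

namespace TLB

theorem mat_dvd {R n : Type} [CommRing R] [Fintype n] [DecidableEq n] (M : Matrix n n R) (p : R[X])
    (h : aeval M p = 0) : M.charpoly ∣ p ^ Fintype.card n := by
  let φ : Matrix n n R →ₐ[R] Matrix n n R[X] := AlgHom.mapMatrix CAlgHom
  have h1 : aeval (φ M) p = 0 := by rw [aeval_algHom_apply, h, map_zero]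
  have h2 : aeval (algebraMap R[X] (Matrix n n R[X]) X) p = algebraMap R[X] (Matrix n n R[X]) p := by
    rw [aeval_algebraMap_apply, aeval_X_left_apply]
  have h3 : M.charmatrix = algebraMap R[X] (Matrix n n R[X]) X - φ M := rfl
  have h4 : M.charmatrix ∣ algebraMap R[X] (Matrix n n R[X]) p := by
    rw [← sub_zero (algebraMap R[X] (Matrix n n R[X]) p), ← h1, ← h2, aeval_eq_sum_range,
      aeval_eq_sum_range, ← Finset.sum_sub_distrib, h3]
    refine Finset.dvd_sum fun i _ => ?_
    rw [← smul_sub]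
    obtain ⟨c, hc⟩ := (Algebra.commute_algebraMap_left (X : R[X]) (φ M)).sub_dvd_pow_sub_pow i
    exact ⟨p.coeff i • c, by rw [hc, mul_smul_comm]⟩
  obtain ⟨c, hc⟩ := h4
  refine ⟨c.det, ?_⟩
  rw [Matrix.charpoly, ← Matrix.det_mul, ← hc, Matrix.algebraMap_eq_diagonal, Matrix.det_diagonal]
  simp

variable {K V : Type} [Field K] [AddCommGroup V] [Module K V]

theorem char_dvd [FiniteDimensional K V] (f : Module.End K V) (p : K[X]) (h : aeval f p = 0) :
    f.charpoly ∣ p ^ finrank K V := by
  let b := Module.finBasis K V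
  have := mat_dvd (LinearMap.toMatrixAlgEquiv b f) p (by
    rw [← AlgEquiv.coe_toAlgHom, aeval_algHom_apply, h, map_zero])
  rw [Fintype.card_fin] at this
  rw [← f.charpoly_toMatrix b]
  exact this

theorem aeval_res (f : Module.End K V) (W : Submodule K V) (hW : ∀ x ∈ W, f x ∈ W) (p : K[X])
    (x : W) : ((aeval (f.restrict hW) p x : W) : V) = aeval f p x := by
  induction p using Polynomial.induction_on' with
  | add p q hp hq => simp [hp, hq]
  | monomial n a =>
    have : (((f.restrict hW ^ n) x : W) : V) = (f ^ n) x := by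
      rw [Module.End.pow_restrict]
      rfl
    simp [aeval_monomial, this]

theorem ker_inv (f : Module.End K V) (p : K[X]) :
    ∀ x ∈ LinearMap.ker (aeval f p), f x ∈ LinearMap.ker (aeval f p) := by
  intro x hx
  rw [LinearMap.mem_ker] at hx ⊢
  have : aeval f p * f = f * aeval f p := by
    have := congrArg (aeval f) (mul_comm p X)
    simpa using this
  rw [← Module.End.mul_apply, this, Module.End.mul_apply, hx, map_zero]

theorem char_mul [FiniteDimensional K V] (f : Module.End K V) {W W' : Submodule K V}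
    (h : IsCompl W W') (hW : ∀ x ∈ W, f x ∈ W) (hW' : ∀ x ∈ W', f x ∈ W') :
    f.charpoly = (f.restrict hW).charpoly * (f.restrict hW').charpoly := by
  rw [← LinearMap.charpoly_prodMap, ← (W.prodEquivOfIsCompl W' h).charpoly_conj]
  congr 1
  refine LinearMap.ext fun x => ?_
  obtain ⟨y, rfl⟩ := (W.prodEquivOfIsCompl W' h).surjective x
  simp [LinearEquiv.conj_apply, Submodule.coe_prodEquivOfIsCompl']

theorem dim_ker [FiniteDimensional K V] (f : Module.End K V) {q : K[X]} (hq : Irreducible q)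
    {k j : ℕ} (hk : q ^ k ∣ f.charpoly) (hj : finrank K V ≤ j) :
    k * q.natDegree ≤ finrank K (LinearMap.ker (aeval f (q ^ j))) := by
  have h0 : f.charpoly ≠ 0 := f.charpoly_monic.ne_zero
  obtain ⟨m, s, hs, e⟩ := WfDvdMonoid.max_power_factor h0 hq
  have hc : IsCoprime q s := hq.coprime_iff_not_dvd.2 hs
  have hs0 : s ≠ 0 := fun h => hs (h ▸ dvd_zero q)
  have hm : m ≤ j := by
    have h1 := f.charpoly_natDegree
    rw [e, natDegree_mul (pow_ne_zero _ hq.ne_zero) hs0, natDegree_pow] at h1
    have h2 := hq.natDegree_pos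
    nlinarith
  have hI : IsCompl (LinearMap.ker (aeval f (q ^ m))) (LinearMap.ker (aeval f s)) := by
    refine ⟨disjoint_ker_aeval_of_isCoprime f hc.pow_left, codisjoint_iff.2 ?_⟩
    rw [sup_ker_aeval_eq_ker_aeval_mul_of_coprime f hc.pow_left, ← e, f.aeval_self_charpoly,
      LinearMap.ker_zero]
  rw [char_mul f hI (ker_inv f _) (ker_inv f _)] at hk
  have h2 := char_dvd (f.restrict (ker_inv f s)) s (LinearMap.ext fun x => Subtype.ext (by
    rw [aeval_res]
    exact x.2))
  have h3 := (hc.pow_left (m := k)).pow_right.of_isCoprime_of_dvd_right h2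
  have h4 := natDegree_le_of_dvd (h3.dvd_of_dvd_mul_right hk) (LinearMap.charpoly_monic _).ne_zero
  rw [natDegree_pow, LinearMap.charpoly_natDegree] at h4
  refine h4.trans (Submodule.finrank_mono fun x hx => ?_)
  obtain ⟨d, rfl⟩ := Nat.exists_eq_add_of_le' hm
  rw [LinearMap.mem_ker] at hx ⊢
  rw [pow_add, map_mul, Module.End.mul_apply, hx, map_zero]

theorem coeff_it (G : K[X]) (b n : ℕ) : (divX^[b] G).coeff n = G.coeff (n + b) := by
  induction b generalizing n with
  | zero => rfl
  | succ b ih => rw [Function.iterate_succ_apply', coeff_divX, ih, add_assoc, add_comm 1]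

theorem it_zero (G : K[X]) : divX^[G.natDegree + 1] G = 0 := by
  ext n
  rw [coeff_it, coeff_zero]
  exact coeff_eq_zero_of_natDegree_lt (by omega)

theorem step (f : Module.End K V) (G : K[X]) (b : ℕ) (c : V) :
    f (aeval f (divX^[b + 1] G) c) = aeval f (divX^[b] G) c - G.coeff b • c := by
  have h := X_mul_divX_add (divX^[b] G)
  rw [coeff_it, zero_add, ← Function.iterate_succ_apply' divX] at h
  rw [← h]
  simp

variable {A : Type} [CommRing A] [Algebra K A]

theorem horner (f : Module.End K V) {G : K[X]} {T : A} {c : V} (hT : aeval T G = 0)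
    (hc : aeval f G c = 0) (l : V →ₗ[K] K) :
    ∑ b ∈ Finset.range (G.natDegree + 1), l (f (aeval f (divX^[b + 1] G) c)) • T ^ b =
      T * ∑ b ∈ Finset.range (G.natDegree + 1), l (aeval f (divX^[b + 1] G) c) • T ^ b := by
  have key : ∀ n, ∑ b ∈ Finset.range n, l (f (aeval f (divX^[b + 1] G) c)) • T ^ b =
      T * ∑ b ∈ Finset.range n, l (aeval f (divX^[b + 1] G) c) • T ^ b -
        l (aeval f (divX^[n] G) c) • T ^ n - l c • ∑ b ∈ Finset.range n, G.coeff b • T ^ b := by
    intro n
    induction n with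
    | zero => simp [hc]
    | succ n ih =>
      rw [Finset.sum_range_succ, Finset.sum_range_succ, Finset.sum_range_succ, ih, step]
      simp only [map_sub, map_smul, Algebra.smul_def, Algebra.algebraMap_self, RingHom.id_apply,
        map_mul]
      ring
  rw [key, ← aeval_eq_sum_range, hT, it_zero]
  simp

theorem inj (f : Module.End K V) {G : K[X]} (hG : G ≠ 0) {T : A} (hT : ∀ p, aeval T p = 0 → G ∣ p)
    {c : V} (hc : aeval f G c = 0) {ι : Type} (l : ι → V →ₗ[K] K)
    (hl : ∀ v, (∀ i, l i v = 0) → v = 0)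
    (h : ∀ i, ∑ b ∈ Finset.range (G.natDegree + 1),
      l i (aeval f (divX^[b + 1] G) c) • T ^ b = 0) : c = 0 := by
  have h1 : ∀ b, b ≤ G.natDegree + 1 → aeval f (divX^[b] G) c = 0 := by
    rintro (_ | b) hb
    · exact hc
    refine hl _ fun i => ?_
    let p : K[X] := ∑ b ∈ Finset.range (G.natDegree + 1),
      monomial b (l i (aeval f (divX^[b + 1] G) c))
    have hp : ∀ n, p.coeff n =
        if n < G.natDegree + 1 then l i (aeval f (divX^[n + 1] G) c) else 0 := fun n => by
      simp only [p, finsetSum_coeff, coeff_monomial, Finset.sum_ite_eq', Finset.mem_range]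
    have h2 : p = 0 := by
      refine eq_zero_of_dvd_of_degree_lt (hT p ?_) ?_
      · rw [← h i, map_sum]
        simp only [aeval_monomial, Algebra.smul_def]
      · rw [degree_eq_natDegree hG, degree_lt_iff_coeff_zero]
        intro n hn
        rw [hp]
        split_ifs with h3
        · rw [show n = G.natDegree by omega, it_zero]
          simp
        · rfl
    have := hp b
    rw [h2, if_pos (by omega)] at this
    exact this.symm
  have h2 := step f G G.natDegree c
  rw [h1 _ le_rfl, h1 _ (by omega), map_zero, zero_sub, eq_comm, neg_eq_zero, smul_eq_zero] at h2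
  exact h2.resolve_left (leadingCoeff_ne_zero.2 hG)

theorem th_conj (D : Dat) (c : GQ → V2) (g : GQ) :
    D.T.rd D.dm D.gm *ᵥ D.Th c g = c (D.gm * g * D.gm⁻¹) - D.T.rd D.dm D.gm *ᵥ c g := by
  have h1 : D.Th c g = D.T.rd D.dm D.gm⁻¹ *ᵥ c (D.gm * g * D.gm⁻¹) - c g := rfl
  have h2 : D.T.rd D.dm 1 = 1 := by simp [Tate.rd, sd]
  rw [h1, Matrix.mulVec_sub, Matrix.mulVec_mulVec, ← D.T.rd_mul D.fix_dm, mul_inv_cancel, h2,
    Matrix.one_mulVec]

end TLB

open TLB in
theorem t_LB (hCP : CP) (hIW : IW) (hDESC : DESC) : LB := by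
  intro D
  obtain ⟨Y, hfd, hdim, hY, F0, hF0, hF0Y⟩ := hIW D
  have hinv : ∀ c ∈ Y, D.Th c ∈ Y := fun c hc => (hY c hc).2.1
  obtain ⟨-, hmul, hdvd, -, hone, -⟩ := hCP.afx
  have hpow : ∀ n : ℕ, Dist (F0 ^ n) := fun n => by
    induction n with
    | zero => simpa using hone
    | succ n ih => exact pow_succ F0 n ▸ hmul _ _ ih hF0
  refine ⟨(D.Th.restrict hinv).charpoly, hdvd _ _ (hpow _) (LinearMap.charpoly_monic _)
    (char_dvd _ F0 (LinearMap.ext fun x => Subtype.ext ?_)), ?_, ?_⟩
  · rw [aeval_res]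
    exact hF0Y _ x.2
  · rw [LinearMap.charpoly_natDegree]
    exact hdim
  intro q k j hq hk hj A _ _ _ _ ψ hψ
  rw [LinearMap.charpoly_natDegree] at hj
  have hd := dim_ker _ hq hk hj
  have hG : q ^ j ≠ 0 := pow_ne_zero _ hq.ne_zero
  generalize q ^ j = G at hd hG hψ
  let M0 : Submodule A (GQ → Fin 2 → A) :=
    { carrier := {ξ | (∀ t : A →ₗ[ℚ_[2]] ℚ_[2], (fun g i => t (ξ g i)) ∈ Y) ∧
        ∀ g, ξ (D.gm * g * D.gm⁻¹) = D.r ψ D.gm (ξ g)}
      zero_mem' := ⟨fun t => by
        simp only [Pi.zero_apply, map_zero]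
        exact Y.zero_mem, fun g => by simp⟩
      add_mem' := fun {x y} hx hy => ⟨fun t => by
        simp only [Pi.add_apply, map_add]
        exact Y.add_mem (hx.1 t) (hy.1 t), fun g => by rw [Pi.add_apply, Pi.add_apply, map_add, hx.2, hy.2]⟩
      smul_mem' := fun a x hx => ⟨fun t => hx.1 (t ∘ₗ LinearMap.mul ℚ_[2] A a), fun g => by
        rw [Pi.smul_apply, Pi.smul_apply, hx.2, Dat.r_apply, Dat.r_apply, map_smul, smul_comm]⟩ }
  obtain ⟨L, hL, hS⟩ := hDESC D A ψ hψ.1 M0 fun ξ hξ => ⟨fun t => ⟨(hY _ (hξ.1 t)).1,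
    (hY _ (hξ.1 t)).2.2⟩, hξ.2⟩
  have hM0 : FiniteDimensional ℚ_[2] M0 := by
    let b := Module.finBasis ℚ_[2] A
    let e : M0 →ₗ[ℚ_[2]] Fin (finrank ℚ_[2] A) → Y :=
      { toFun := fun ξ s => ⟨_, ξ.2.1 (b.coord s)⟩
        map_add' := fun x y => by
          ext s g i
          simp
        map_smul' := fun a x => by
          ext s g i
          simp }
    refine FiniteDimensional.of_injective e ((injective_iff_map_eq_zero e).2 fun ξ hξ => ?_)
    ext g i
    exact b.forall_coord_eq_zero_iff.1 fun s =>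
      congrFun (congrFun (congrArg Subtype.val (congrFun hξ s)) g) i
  have hM : FiniteDimensional ℚ_[2] (LinearMap.range L) :=
    Module.Finite.of_surjective (L.rangeRestrict.restrictScalars ℚ_[2]) L.surjective_rangeRestrict
  refine ⟨LinearMap.range L, hM, ?_, hd.trans ?_⟩
  · rintro _ ⟨ξ, rfl⟩
    exact hS ξ
  have hk : ∀ c : LinearMap.ker (aeval (D.Th.restrict hinv) G), aeval D.Th G c.1.1 = 0 :=
    fun c => by
      rw [← aeval_res _ _ hinv, LinearMap.mem_ker.1 c.2]
      rfl
  let Φ : LinearMap.ker (aeval (D.Th.restrict hinv) G) →ₗ[ℚ_[2]] M0 :=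
    { toFun := fun c => ⟨fun g i => ∑ b ∈ Finset.range (G.natDegree + 1),
        aeval D.Th (divX^[b + 1] G) c.1.1 g i • (ψ 1 - 1) ^ b, fun t => by
          have := Y.sum_mem fun b (_ : b ∈ Finset.range (G.natDegree + 1)) => Y.smul_mem
            (t ((ψ 1 - 1) ^ b)) (aeval (D.Th.restrict hinv) (divX^[b + 1] G) c.1).2
          simp only [aeval_res] at this
          refine (congrArg (· ∈ Y) ?_).mp this
          ext g i
          simp [mul_comm], fun g => by
          ext i
          have := horner D.Th ((hψ.2.2 G).2 dvd_rfl) (hk c) (LinearMap.proj i ∘ₗ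
            (D.T.rd D.dm D.gm).mulVecLin ∘ₗ LinearMap.proj g)
          simp only [LinearMap.comp_apply, LinearMap.proj_apply, Matrix.mulVecLin_apply, th_conj,
            Pi.sub_apply, sub_smul, Finset.sum_sub_distrib] at this
          refine (sub_eq_iff_eq_add.1 this).trans ?_
          rw [Dat.r_apply, D.ga, Pi.smul_apply, mv_apply]
          simp only [Matrix.mulVec, dotProduct, Fin.sum_univ_two, add_smul, Finset.sum_add_distrib,
            Finset.smul_sum, mul_smul, smul_eq_mul]
          ring⟩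
      map_add' := fun x y => by
        ext g i
        simp [add_smul, Finset.sum_add_distrib]
      map_smul' := fun a x => by
        ext g i
        simp [mul_smul, Finset.smul_sum] }
  have hΦ : Function.Injective Φ := fun x y h => by
    refine Subtype.ext (Subtype.ext (sub_eq_zero.1 (inj D.Th hG (fun p => (hψ.2.2 p).1)
      (by rw [map_sub, hk, hk, sub_zero])
      (fun s : GQ × Fin 2 => LinearMap.proj s.2 ∘ₗ LinearMap.proj s.1)
      (fun v hv => ?_) fun s => ?_)))
    · ext g i
      simpa using hv (g, i)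
    have h' := congrFun (congrFun (congrArg Subtype.val h) s.1) s.2
    simp only [Φ, LinearMap.coe_mk, AddHom.coe_mk] at h'
    simp only [map_sub, sub_smul, Finset.sum_sub_distrib, LinearMap.comp_apply,
      LinearMap.proj_apply, h', sub_self]
  exact LinearMap.finrank_le_finrank_of_injective
    (f := L.rangeRestrict.restrictScalars ℚ_[2] ∘ₗ Φ) ((L.injective_rangeRestrict_iff.2 hL).comp hΦ)

end Pool.Agent.P.MP_8b7eba_nt.R2.G
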