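import Pool.Agent.P.MP_8b7eba_nt.R3.ASel
import Pool.Agent.P.MP_8b7eba_nt.R2.TNV1

/-! Proof of NV1 and NV for an arbitrary squarefree twist. -/

namespace Pool.Agent.P.MP_8b7eba_nt.R2.G

open scoped NNReal Matrix
open MP_9c97e9_nt (Pt pm Is ap Sha Split)
open Filter Topology Polynomial Module
open R2.TNV1 (frob alg choose_mod sum_lt op op_pow iter ind J two_mul_mem appr exists_r)

namespace ATNV1

theorem alg2 {R : Type} [CommRing R] (h2 : (2 : R) = 0) {x w b : R} {m r : ℕ}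
    (h3 : x ^ (m * r) = x ^ 1) (h : w * (b + b + 1 - x ^ m) = 0) : w * (x - 1) = 0 := by
  obtain ⟨c, hc⟩ := sub_one_dvd_pow_sub_one (x ^ m) r
  rw [← pow_mul, h3, pow_one] at hc
  rw [hc]
  linear_combination (-c) * h + c * w * b * h2

variable (D : Dat) (k : ℕ)

/-- the local subgroup -/
def SS : Set GQ := {g | g ∈ D.w2.I ∧ 2 ^ k ∣ D.a g}

theorem gK : D.gm ∈ D.GK := D.D_le (D.w2.I_le_D D.gI)

theorem hS : ∀ g ∈ SS D k, D.gm⁻¹ * g * D.gm ∈ SS D k := fun g hg => by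
  have h1 := D.GK.inv_mem (gK D)
  have := D.an.conj h1 (D.D_le (D.w2.I_le_D hg.1))
  rw [inv_inv] at this
  exact ⟨mul_mem (mul_mem (inv_mem D.gI) hg.1) D.gI, this ▸ hg.2⟩

theorem a_pow (m : ℕ) : D.a (D.gm ^ m) = m := by rw [D.an.pow (gK D), D.ga, mul_one]

variable {D k}

theorem SS_le {g : GQ} (hg : g ∈ SS D k) : g ∈ D.Gd (2 ^ k) :=
  ⟨D.D_le (D.w2.I_le_D hg.1), hg.2⟩

theorem act {P : EO} (hP : ∀ g ∈ D.Gd (2 ^ k), ac g P = P) {g : GQ} (hg : g ∈ D.GK) {m : ℕ}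
    (h : 2 ^ k ∣ D.a g - m) : ac g P = (op D.gm ^ m) P := by
  have h1 := D.GK.pow_mem (gK D) m
  have h2 : (D.gm ^ m)⁻¹ * g ∈ D.Gd (2 ^ k) := ⟨mul_mem (inv_mem h1) hg, by
    rw [D.an.add _ (inv_mem h1) _ hg, D.an.inv h1, a_pow, neg_add_eq_sub]; exact h⟩
  rw [op_pow, ← congrArg (ac (D.gm ^ m)) (hP _ h2), ← ac_mul, mul_inv_cancel_left]

theorem pow_mem {P : EO} (hP : ∀ g ∈ D.Gd (2 ^ k), ac g P = P) {i j : ℕ}
    (h : (2 : ℤ_[2]) ^ k ∣ i - j) : X ^ i - X ^ j ∈ J (hS D k) P := by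
  have h1 := D.GK.pow_mem (gK D) i
  show Kq _ _
  rw [map_sub, map_pow, map_pow, aeval_X, LinearMap.sub_apply, ← act hP h1 (m := j) (by rwa [a_pow]),
    op_pow, sub_self]
  simpa using kq_two (P := 0) fun g _ => map_zero _

variable (H : Heeg D.toPrg D.a)

theorem ri (G : Subgroup GQ) (c : ℕ) : RI G (H.N c) fun s => ac s (H.y c) :=
  fun s _ g _ hg => by simp only [ac_mul, H.fix c g hg]

theorem rel (G : Subgroup GQ) (c : ℕ) : (H.N c).relIndex G ≠ 0 := relIndex_ne_zero (H.on c).2 G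

theorem Y_fix (c : ℕ) : ∀ g ∈ D.Gd (2 ^ k), ac g (D.Yt H k c) = D.Yt H k c := fun g hg => by
  rw [Dat.Yt, map_csum (rel H _ c), ← csum_left (ri H _ c) hg]
  simp only [ac_mul]

theorem Y_comm (c : ℕ) {F : GQ} (hF : F ∈ D.GK) :
    csum (D.Gd (2 ^ k)) (H.N c) (fun s => ac s (ac F (H.y c))) = ac F (D.Yt H k c) := by
  rw [Dat.Yt, map_csum (rel H _ c)]
  refine csum_congr fun s hs => ?_
  rw [← ac_mul, show s * F = F * s * (s⁻¹ * F⁻¹ * s⁻¹⁻¹ * F⁻¹⁻¹) by group, ac_mul,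
    H.fix c _ (H.ab c _ (inv_mem hs.1) _ (inv_mem hF)), ac_mul]

theorem N_le {c : ℕ} (h2 : 2 ^ (k + 2) ∣ c) (h5 : c.Coprime D.l) (h4 : c ≠ 0) :
    H.N c ≤ D.Gd (2 ^ k) := fun g hg =>
  let a := (H.pow k g).1 (H.anti _ _ h2 h5 h4 hg); ⟨a.1, a.2.1⟩

theorem step (hF : CF) {c p : ℕ} (hp : p.Prime) (hd : (p : ℤ) ∣ D.m) (h7 : ¬ p ∣ 30) (h1 : ¬ p ∣ c)
    (h2 : 2 ^ (k + 2) ∣ c) (h3 : (c * p).Coprime D.l) (h4 : c ≠ 0) {s : ℕ}
    (h : (X - 1) ^ s ∈ J (hS D k) (D.Yt H k (c * p))) :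
    (X - 1) ^ (s + 2 * 2 ^ D.np p) ∈ J (hS D k) (D.Yt H k c) := by
  obtain ⟨w, rfl⟩ := hF.pl.1 p hp
  obtain ⟨F, hf⟩ := w.exists_frob hF.frob
  have hK : F ∈ D.GK := D.spD w (hd.mul_left 30) hf.1
  have h5 : c.Coprime D.l := h3.coprime_dvd_left (dvd_mul_right _ _)
  have h6 := N_le H h2 h5 h4
  obtain ⟨b, hb⟩ := (hF.apb _ hp h7).2
  obtain ⟨m, hm⟩ := appr (D.a F) k
  obtain ⟨m', hm'⟩ := appr (D.a F⁻¹) k
  obtain ⟨r, hr⟩ := exists_r (D.hnp w F hd h7 hf) k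
  have e : D.Yt H k (c * w.p) = aeval (op D.gm) (C b + C b - X ^ m - X ^ m') (D.Yt H k c) := by
    rw [Dat.Yt, csum_trans h6 (H.anti _ _ (dvd_mul_right _ _) h3 (mul_ne_zero h4 hp.ne_zero))
      (rel H _ _) (ri H _ _)]
    simp only [ac_mul, ← map_csum (rel H _ _), map_sub, map_zsmul, csum_sub (rel H _ _),
      H.split c w F h5 ((pow_dvd_pow 2 (by omega : 2 ≤ k + 2)).trans h2) h4 h1 hd h7 hf]
    rw [Y_comm H c hK, Y_comm H c (inv_mem hK), act (Y_fix H c) hK hm,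
      act (Y_fix H c) (inv_mem hK) hm', ← C_add, ← hb]
    simp only [map_pow, aeval_X, aeval_C, LinearMap.sub_apply, Module.algebraMap_end_apply]
    congr 2
    exact (map_csum (rel H _ _) (zsmulAddGroupHom (ap W15 w.p) : EO →+ EO) _).symm
  have h8 : (X - 1) ^ s * (C b + C b - X ^ m - X ^ m') ∈ J (hS D k) (D.Yt H k c) := by
    show Kq _ _
    rw [map_mul, Module.End.mul_apply, ← e]
    exact h
  rw [D.an.inv hK] at hm'
  have a1 := pow_mem (Y_fix H c) (i := m + m') (j := 0) (k := k) (by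
    have := (dvd_add hm hm').neg_right
    push_cast
    ring_nf at this ⊢
    exact this)
  have a2 := pow_mem (Y_fix H c) (i := 2 * m * r) (j := 2 ^ (D.np w.p + 1)) (k := k) (by
    have := dvd_sub (hr.mul_left 2) (hm.mul_left (2 * r))
    push_cast
    ring_nf at this ⊢
    exact this)
  have a3 := two_mul_mem (hS D k) fun g hg => Y_fix H c g (SS_le hg)
  rw [← Ideal.Quotient.eq_zero_iff_mem] at h8 a3 ⊢
  rw [← Ideal.Quotient.eq] at a1 a2
  simp only [map_pow, map_mul, map_sub, map_add, map_one, map_ofNat] at h8 a1 a2 a3 ⊢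
  rw [pow_add, ← pow_succ']
  exact alg a3 a1 a2 h8

theorem step' (hF : CF) {c p : ℕ} (hp : p.Prime) (h7 : p ∣ 15) (h1 : ¬ p ∣ c)
    (h2 : 2 ^ (k + 2) ∣ c) (h3 : (c * p).Coprime D.l) (h4 : c ≠ 0) {s : ℕ}
    (h : (X - 1) ^ s ∈ J (hS D k) (D.Yt H k (c * p))) :
    (X - 1) ^ (s + 1) ∈ J (hS D k) (D.Yt H k c) := by
  obtain ⟨w, rfl⟩ := hF.pl.1 p hp
  obtain ⟨F, hf⟩ := w.exists_frob hF.frob
  have hK : F ∈ D.GK :=
    D.spD w (((Int.natCast_dvd_natCast.2 h7).trans (by norm_num)).mul_right _) hf.1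
  have h5 : c.Coprime D.l := h3.coprime_dvd_left (dvd_mul_right _ _)
  have h6 := N_le H h2 h5 h4
  obtain ⟨t, ⟨b, hb⟩, F', hF', hy⟩ := H.bad c w F h4 h1 h7 hf
  have hu : F' ∈ D.GK ∧ IsUnit (D.a F') := by
    have := D.an.odd w F h7 hf
    rcases hF' with rfl | rfl
    · exact ⟨hK, this⟩
    · exact ⟨inv_mem hK, D.an.inv hK ▸ this.neg⟩
  obtain ⟨m, hm⟩ := appr (D.a F') k
  obtain ⟨r, hr⟩ := exists_r (n := 0) (by simpa using PadicInt.isUnit_iff.1 hu.2) k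
  have e : D.Yt H k (c * w.p) = aeval (op D.gm) (C b + C b + 1 - X ^ m) (D.Yt H k c) := by
    rw [Dat.Yt, csum_trans h6 (H.anti _ _ (dvd_mul_right _ _) h3 (mul_ne_zero h4 hp.ne_zero))
      (rel H _ _) (ri H _ _)]
    simp only [ac_mul, ← map_csum (rel H _ _), map_sub, map_zsmul, csum_sub (rel H _ _), hy]
    rw [Y_comm H c hu.1, act (Y_fix H c) hu.1 hm, ← C_add, ← C_1, ← C_add, ← two_mul, ← hb]
    simp only [map_pow, aeval_X, aeval_C, LinearMap.sub_apply, Module.algebraMap_end_apply]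
    congr 1
    exact (map_csum (rel H _ _) (zsmulAddGroupHom t : EO →+ EO) _).symm
  have h8 : (X - 1) ^ s * (C b + C b + 1 - X ^ m) ∈ J (hS D k) (D.Yt H k c) := by
    show Kq _ _
    rw [map_mul, Module.End.mul_apply, ← e]
    exact h
  have a2 := pow_mem (Y_fix H c) (i := m * r) (j := 1) (k := k) (by
    have := dvd_sub hr (hm.mul_left r)
    push_cast
    ring_nf at this ⊢
    exact this)
  have a3 := two_mul_mem (hS D k) fun g hg => Y_fix H c g (SS_le hg)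
  rw [← Ideal.Quotient.eq_zero_iff_mem] at h8 a3 ⊢
  rw [← Ideal.Quotient.eq] at a2
  simp only [map_pow, map_mul, map_sub, map_add, map_one, map_ofNat] at h8 a2 a3 ⊢
  rw [pow_succ]
  exact alg2 a3 a2 h8

open Classical in
/-- sums over the elements with given logarithm and given sign -/
noncomputable def Gs (k c : ℕ) (j : ZMod (2 ^ k)) (ε : ℤ) : EO :=
  csum D.GK (H.N c) fun s => if D.ak k s = j ∧ sd D.dm s = ε then ac s (H.y c) else 0

variable {H} {c : ℕ}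

theorem Gs_act (hc : ∀ g ∈ H.N c, D.ak k g = 0 ∧ g D.dm = D.dm) {g : GQ} (hg : g ∈ D.GK)
    (j : ZMod (2 ^ k)) (ε : ℤ) : ac g (Gs H k c j ε) = Gs H k c (D.ak k g + j) (sd D.dm g * ε) := by
  classical
  have h0 : sd D.dm g ≠ 0 := by rcases sd_cases D.dm g with h | h <;> simp [h]
  rw [Gs, Gs, map_csum (rel H _ _), ← csum_left (g := g) (f := fun s =>
    if D.ak k s = D.ak k g + j ∧ sd D.dm s = sd D.dm g * ε then ac s (H.y c) else 0)
    (fun s hs n hn hN => by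
      simp only [D.ak_mul k hs hn, sd_mul D.fix_dm, (hc n hN).1, sd_eq_one.2 (hc n hN).2, add_zero,
        mul_one, ac_mul, H.fix c n hN]) hg]
  refine csum_congr fun s hs => ?_
  simp only [D.ak_mul k hg hs, sd_mul D.fix_dm, add_right_inj, mul_right_inj' h0, ac_mul,
    apply_ite (ac g), map_zero]

theorem Yt_eq (hc : ∀ g ∈ H.N c, D.ak k g = 0 ∧ g D.dm = D.dm) :
    D.Yt H k c = Gs H k c 0 1 + Gs H k c 0 (-1) := by
  classical
  rw [Dat.Yt, ← csum_ite (H := D.GK) (H' := D.Gd (2 ^ k)) (fun _ h => h.1)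
    (fun g hg => ⟨H.le _ hg, D.ak_eq_zero.1 (hc g hg).1⟩) (rel H _ _) (ri H _ _), Gs, Gs,
    ← csum_add (rel H _ _)]
  refine csum_congr fun s hs => ?_
  rcases sd_cases D.dm s with h | h <;> simp [D.ak_eq_zero, Dat.mem_Gd, hs, h]

theorem PP_eq (j : ZMod (2 ^ k)) :
    D.PP H [] k j = Gs H k (D.ck [] k) j 1 - Gs H k (D.ck [] k) j (-1) := by
  classical
  rw [Dat.PP, Gs, Gs, ← csum_sub (rel H _ _)]
  refine csum_congr fun s _ => ?_
  rcases sd_cases D.dm s with h | h <;> by_cases e : D.ak k s = j <;> simp [tac_apply, e, h]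

theorem half (hc : ∀ g ∈ H.N c, D.ak k g = 0 ∧ g D.dm = D.dm) {g : GQ} (hg : g ∈ D.Gd (2 ^ k))
    {j : ZMod (2 ^ k)} {Q : EO} (hQ : 2 • Q = Gs H k c j 1 - Gs H k c j (-1)) :
    ac g (Q + Gs H k c j (-1)) - (Q + Gs H k c j (-1)) = tac D.dm g Q - Q := by
  have a := fun ε => Gs_act hc hg.1 j ε
  have b := congrArg (ac g) hQ
  simp only [D.ak_eq_zero.2 hg.2, zero_add] at a
  rw [map_nsmul, map_sub, a, a] at b
  rw [map_add, a, tac_apply]
  rcases sd_cases D.dm g with h | h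
  · rw [h, one_mul, one_smul]
    abel
  · simp only [h, mul_one, mul_neg, neg_neg] at b ⊢
    linear_combination (norm := module) b

end ATNV1

open ATNV1

theorem t_NV1 (hF : CF) (hINVP : INVP) : NV1 := by
  classical
  intro D H ⟨M₀, hM⟩
  refine ⟨max M₀ 1, fun k hk s hs h1 => ?_⟩
  obtain ⟨⟨c1, c2, -⟩, -⟩ := hINVP D H [] k List.Pairwise.nil
  obtain ⟨o1, o2, o3, -⟩ := D.od_spec
  have hc : D.ck [] k = 2 ^ (k + 2) * ∏ p ∈ (R3.od D.m).primeFactors, p := by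
    rw [Nat.prod_primeFactors_of_squarefree o2]
    simp [Dat.ck, max_eq_left (le_of_max_le_right hk)]
  have ho : ∀ p ∈ (R3.od D.m).primeFactors, p.Prime ∧ (p : ℤ) ∣ D.m ∧ p ≠ 2 := fun p hp =>
    have h := Nat.mem_primeFactors.1 hp
    ⟨h.1, (Int.natCast_dvd_natCast.2 h.2.1).trans o3, fun e => o1.not_two_dvd_nat (e ▸ h.2.1)⟩
  have h30 : ∀ p ∈ (R3.od D.m).primeFactors, ¬ p ∣ 15 → ¬ p ∣ 30 := fun p hp h e =>
    (((ho p hp).1.dvd_mul (m := 2) (n := 15)).1 e).elim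
      (fun e => (ho p hp).2.2 ((Nat.prime_dvd_prime_iff_eq (ho p hp).1 Nat.prime_two).1 e)) h
  rw [iter] at h1
  have key : ∀ t ⊆ (R3.od D.m).primeFactors, ∀ s,
      (X - 1) ^ s ∈ J (hS D k) (D.Yt H k (2 ^ (k + 2) * ∏ p ∈ t, p)) →
      (X - 1) ^ (s + ∑ p ∈ t, if p ∣ 15 then 1 else 2 * 2 ^ D.np p) ∈
        J (hS D k) (D.Yt H k (2 ^ (k + 2))) := fun t => by
    induction t using Finset.induction_on with
    | empty => intro _ s h; simpa using h
    | insert p t hp ih =>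
      intro ht s h
      have h0 := ht (Finset.mem_insert_self p t)
      have h2 := ho p h0
      have h3 := (Finset.subset_insert p t).trans ht
      have h4 : 2 ^ (k + 2) * ∏ q ∈ insert p t, q ∣ D.ck [] k :=
        hc ▸ mul_dvd_mul_left _ (Finset.prod_dvd_prod_of_subset _ _ _ ht)
      rw [Finset.prod_insert hp, mul_comm p, ← mul_assoc] at h h4
      rw [Finset.sum_insert hp, ← add_assoc]
      have h5 : ¬ p ∣ 2 ^ (k + 2) * ∏ q ∈ t, q := fun h5 => by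
        rcases h2.1.dvd_mul.1 h5 with h5 | h5
        · exact h2.2.2 ((Nat.prime_dvd_prime_iff_eq h2.1 Nat.prime_two).1 (h2.1.dvd_of_dvd_pow h5))
        · obtain ⟨q, hq, h6⟩ := (h2.1.prime.dvd_finsetProd_iff _).1 h5
          exact hp ((Nat.prime_dvd_prime_iff_eq h2.1 (ho q (h3 hq)).1).1 h6 ▸ hq)
      have h6 := c1.coprime_dvd_left h4
      have h7 := left_ne_zero_of_mul (ne_zero_of_dvd_ne_zero c2 h4)
      refine ih h3 _ ?_
      split_ifs with e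
      · exact step' H hF h2.1 e h5 (dvd_mul_right _ _) h6 h7 h
      · exact step H hF h2.1 h2.2.1 (h30 p h0 e) h5 (dvd_mul_right _ _) h6 h7 h
  have hle : (∑ p ∈ (R3.od D.m).primeFactors, if p ∣ 15 then 1 else 2 * 2 ^ D.np p) ≤
      D.bb + 2 * D.sg := by
    rw [Finset.sum_ite, Dat.sg, Finset.mul_sum, ← Finset.card_eq_sum_ones]
    refine add_le_add (Finset.card_le_card fun p hp => ?_)
      (Finset.sum_le_sum_of_subset fun p hp => ?_)
    · obtain ⟨a, b⟩ := Finset.mem_filter.1 hp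
      exact Finset.mem_filter.2 ⟨Nat.mem_primeFactors.2 ⟨(ho p a).1, Int.natCast_dvd.1 (ho p a).2.1,
        Int.natAbs_ne_zero.2 D.dm_ne.2.2⟩, b⟩
    · obtain ⟨a, b⟩ := Finset.mem_filter.1 hp
      exact Prg.mem_gp.2 ⟨(ho p a).1, (ho p a).2.1, h30 p a b⟩
  obtain ⟨ι, hι, hm⟩ := hF.ec2 D.w2 D.hw2 (-1)
  refine hM k (le_of_max_le_left hk) D.gm D.gI ι hι (D.ga ▸ isUnit_one) hm ?_
  have l0 : D.a ι = 0 := by
    obtain ⟨u, hu⟩ := D.an.two
    have a1 := hF.lg.1.mul 1 1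
    have a2 := hF.lg.1.mul (-1) (-1)
    rw [mul_one] at a1
    rw [neg_mul_neg, mul_one] at a2
    have : 2 * lg (-1) = 0 := by linear_combination -a2 - a1
    rw [hu ι hι, hm, (mul_eq_zero.1 this).resolve_left two_ne_zero, mul_zero]
  have lK : ι ∈ D.Gd (2 ^ k) := ⟨D.D_le (D.w2.I_le_D hι), by simp [l0]⟩
  have lN : ι ∉ H.N (2 ^ (k + 2)) := fun h => by
    have a1 := ((H.pow k ι).1 h).2.2
    have a2 : ((2 : ℕ) : ℤ_[2]) ^ 2 ∣ ((-2 : ℤ) : ℤ_[2]) := by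
      rw [hm] at a1
      norm_num at a1 ⊢
      exact a1
    exact absurd ((PadicInt.pow_p_dvd_int_iff 2 (-2)).1 a2) (by decide)
  have e2 : D.Yt H k (2 ^ (k + 2)) = H.y (2 ^ (k + 2)) + ac ι (H.y (2 ^ (k + 2))) := by
    rw [Dat.Yt, csum_eq_sum Finset.univ ![1, ι] (ri H _ _) (fun i _ => by fin_cases i <;> simp [lK])
      (fun i _ j _ => by fin_cases i <;> fin_cases j <;> simp [lN]) fun g hg => ?_]
    · simp [ac_one]
    rcases (hF.lg.1.dvd 0 (cyc g)).1 (by simp) with h | h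
    · exact ⟨0, Finset.mem_univ _, by simpa using (H.pow k g).2 ⟨hg.1, hg.2, by norm_num at h; exact h⟩⟩
    · have a1 := mul_mem (inv_mem lK) hg
      refine ⟨1, Finset.mem_univ _, (H.pow k (ι⁻¹ * g)).2 ⟨a1.1, a1.2, ?_⟩⟩
      have a2 := hF.ec.2.1 ι (ι⁻¹ * g)
      rw [mul_inv_cancel_left, hm] at a2
      rw [a2] at h
      have := h.neg_right
      norm_num at this
      rwa [neg_add_eq_sub] at this
  have h2 := key _ subset_rfl s (hc ▸ h1)
  generalize (∑ p ∈ (R3.od D.m).primeFactors, if p ∣ 15 then 1 else 2 * 2 ^ D.np p) = u at hle h2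
  rw [← e2, iter, show 2 ^ k - 3 = 2 ^ k - 3 - (s + u) + (s + u) by omega, pow_add]
  exact (J (hS D k) _).mul_mem_left _ h2

theorem t_NV (_hF : CF) (hINVP : INVP) (hKPZ : KPZ) (hKLOC : KLOC) (hNV1 : NV1) (hNV2 : NV2) :
    NV := by
  intro D H v hJ hv A _ _ _ _ ψ f h1 h2 h3 h4 h5
  obtain ⟨M₀, hM⟩ := hNV1 D H hJ
  have ok : Ok ([] : List (Kp D)) := List.Pairwise.nil
  obtain ⟨k, ⟨k1, k2⟩, k3⟩ := (((ev_ge M₀).and (ev_ge f.natDegree)).and (hNV2 D v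
    (fun k => (hv k).2.1) (fun k => (hv k).1)
    (fun A _ _ _ _ ψ h => ⟨((hKPZ D H [] v ok hv).2 A ψ h).2, (hKLOC D H [] v ok hv A ψ h).2.2.1⟩)
    A ψ f h1 h2 h3 h5)).exists
  have k4 : f.natDegree ≤ 2 ^ k := k2.trans Nat.lt_two_pow_self.le
  refine hM k k1 (2 ^ k - f.natDegree) (by omega) ?_
  obtain ⟨⟨-, -, c3⟩, -, -, c4, -⟩ := hINVP D H [] k ok
  obtain ⟨-, hn, Q, R, hQ⟩ := hv k
  have hT : ∀ m : ℕ, (op D.gm ^ m) (D.Yt H k (D.ck [] k)) =
      Gs H k (D.ck [] k) m 1 + Gs H k (D.ck [] k) m (-1) := fun m => by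
    have hg := D.GK.pow_mem (gK D) m
    rw [op_pow, Yt_eq c3, map_add, Gs_act c3 hg, Gs_act c3 hg, Dat.ak, a_pow, map_natCast, add_zero]
    rcases sd_cases D.dm (D.gm ^ m) with h | h <;> simp [h, add_comm]
  obtain ⟨k, rfl⟩ : ∃ k', k = k' + 1 := ⟨k - 1, by omega⟩
  set s := 2 ^ (k + 1) - f.natDegree with hs
  have hQ2 : ∀ m : ZMod (2 ^ (k + 1)), 2 • 2 ^ k • Q m =
      Gs H (k + 1) (D.ck [] (k + 1)) m 1 - Gs H (k + 1) (D.ck [] (k + 1)) m (-1) := fun m => by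
    rw [smul_smul, ← pow_succ', (hQ m).1, PP_eq]
  have h6 : (X + 1) ^ s ∈ J (hS D (k + 1)) (D.Yt H (k + 1) (D.ck [] (k + 1))) := by
    refine ⟨∑ m ∈ Finset.range (2 ^ (k + 1)),
      s.choose m • (2 ^ k • Q m + Gs H (k + 1) (D.ck [] (k + 1)) m (-1)), ?_, fun g hg => ?_⟩
    · rw [aeval_eq_sum_range' (n := 2 ^ (k + 1)), Finset.smul_sum, LinearMap.sum_apply]
      · refine Finset.sum_congr rfl fun m _ => ?_
        rw [coeff_X_add_one_pow, LinearMap.smul_apply, hT, natCast_zsmul, smul_comm, smul_add 2, hQ2,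
          two_smul, ← add_assoc, sub_add_cancel]
      · refine natDegree_pow_le.trans_lt ?_
        rw [← C_1, natDegree_X_add_C]
        omega
    · have e : ac g (∑ m ∈ Finset.range (2 ^ (k + 1)),
          s.choose m • (2 ^ k • Q m + Gs H (k + 1) (D.ck [] (k + 1)) m (-1))) -
          ∑ m ∈ Finset.range (2 ^ (k + 1)),
            s.choose m • (2 ^ k • Q m + Gs H (k + 1) (D.ck [] (k + 1)) m (-1)) =
          D.T.pt ((2⁻¹ : ℚ_[2]) • ∑ m ∈ Finset.range (2 ^ (k + 1)), s.choose m • v (k + 1) g m) := by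
        rw [map_sum, ← Finset.sum_sub_distrib, Finset.smul_sum, map_sum]
        refine Finset.sum_congr rfl fun m hm => ?_
        obtain ⟨-, a1, a2⟩ := (hQ m).2 g (SS_le hg).1
        rw [a1 (c4 rfl g (SS_le hg).1 m), D.ak_eq_zero.2 hg.2, sub_zero, sub_zero,
          ZMod.val_cast_of_lt (Finset.mem_range.1 hm)] at a2
        rw [map_nsmul, ← smul_sub, half c3 (SS_le hg) (hQ2 m), map_nsmul, ← smul_sub, ← a2,
          smul_comm (2⁻¹ : ℚ_[2]), map_nsmul, ← map_nsmul D.T.pt (2 ^ k),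
          ← Nat.cast_smul_eq_nsmul ℚ_[2] (2 ^ k), smul_smul]
        congr 3
        push_cast
        field_simp
        ring
      rw [e, D.T.kq (IsUltrametricDist.norm_sum_le_of_forall_le_of_nonneg zero_le_one
        fun m _ => (IsUltrametricDist.norm_nsmul_le _ _).trans (hn g m))]
      have := sum_lt (by omega) k4 (fun j => ⟨v (k + 1) g j 0 + v (k + 1) g j 1,
        (IsUltrametricDist.norm_add_le_max _ _).trans (max_le ((norm_le_pi_norm _ 0).trans (hn g j))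
          ((norm_le_pi_norm _ 1).trans (hn g j)))⟩) (k3 g hg.1 hg.2)
      simp only [Finset.sum_apply, Pi.smul_apply]
      simpa only [nsmul_eq_mul, mul_add, Finset.sum_add_distrib] using this
  obtain ⟨c, hc⟩ := sub_dvd_pow_sub_pow (X + 1 : ℤ[X]) (X - 1) s
  rw [iter, show (X - 1 : ℤ[X]) ^ s = (X + 1) ^ s - c * 2 by linear_combination -hc]
  exact (J (hS D _) _).sub_mem h6
    ((J (hS D _) _).mul_mem_left c (two_mul_mem _ fun g hg => Y_fix H _ g (SS_le hg)))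

end Pool.Agent.P.MP_8b7eba_nt.R2.G
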