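import Pool.Agent.P.MP_8b7eba_nt.R3.ATNV2B

/-! Proof of NV2. -/

namespace Pool.Agent.P.MP_8b7eba_nt.R2.G

open scoped NNReal Matrix
open Filter Topology Polynomial
open TNV2 (ev ev_C ev_X ev_U ev_apply ev_ker lat red red_X red_two red_four tz_iff tz_norm
  lift univ red_eq_zero)
open AN

theorem t_NV2 (hCP : CP) (hALP : ALP) (hVAL : VAL) : NV2 := by
  intro D v hv _ hPZ A _ _ _ _ ψ f hAF hf hX hStr
  obtain ⟨s, F, h, hs, hm, rfl, hF⟩ := lift hf hX
  have hr : red F = X ^ (s + 1) := by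
    simp only [hF, map_add, map_mul, map_pow, red_two, red_X, zero_mul, add_zero]
  have hψ := hAF.1
  obtain ⟨w0, hw0⟩ := (Dat.str_iff hψ).1 hStr
  obtain ⟨w1, hw1⟩ := Dat.nz_eq (D := D) (raw ψ v) hψ
  obtain ⟨w, hw⟩ : ∃ w, ∀ g ∈ S1 D.w2.D, raw ψ v g = rS (D.r ψ) g w - w := ⟨w0 - w1, fun g hg => by
    rw [(D.rep hψ).rS_sub, eq_sub_iff_add_eq.2 ((hw1 g (S1_mono D.D_le hg)).symm.trans (hw0 g hg))]
    abel⟩
  obtain ⟨U, hU⟩ := ord_ev hCP.afx ⟨hv, hPZ⟩ hf hAF (u := w 1)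
    (by rw [hw _ SelB.f2_mem, Pi.sub_apply, Dat.rS_one hψ SelB.f2_mem])
  obtain ⟨ι, i1, i2, i3, i4⟩ := iota hCP.toCA D
  have half : ∀ z : ℤ_[2], ∀ {b c : ℚ_[2]} {y : ℕ → ℚ_[2]}, Tendsto y UF (𝓝 (b + 2 * z)) →
      Tendsto y UF (𝓝 c) → c = b → z = 0 := fun z _ _ _ h1 h2 e => by
    simpa [e] using tendsto_nhds_unique h1 h2
  have int : sd D.dm ι = 1 → ∃ W, w 0 = ev ψ W := fun e => by
    have val : ∀ g ∈ D.w2.I, ∃ (z : Fin 2 → ℤ_[2]) (P : ℤ_[2][X]),
        D.T.rd D.dm g 0 0 = 1 + 2 * z 0 ∧ ev ψ P =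
          ψ (D.a g) * (w 0 + 2 * (ev ψ (C (z 0)) * w 0 + ev ψ (C (z 1) * U))) - w 0 := fun g hg => by
      obtain ⟨a, z, h1, h2, h3⟩ := lim D (cs g)
      obtain ⟨P, hP⟩ := raw_ev hf.1 hAF hv (cs g) 0
      refine ⟨z 0, P, tendsto_nhds_unique tendsto_const_nhds (h2 0 0), ?_⟩
      rw [← hP, hw _ (cs_mem.2 (D.w2.I_le_D hg)), Pi.sub_apply, h3 A ψ hψ, hU, map_mul,
        show a = D.a g from tendsto_nhds_unique h1 tendsto_const_nhds]
    obtain ⟨M, hM⟩ : ∃ M, 2 * w 0 = ev ψ M := by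
      obtain ⟨z, P, h1, h2⟩ := val ι i1
      have : z 0 = -1 := Subtype.ext (by
        rw [(rdI D i1).1, e, cq, i2] at h1
        push_cast at h1 ⊢
        linear_combination -2⁻¹ * h1)
      rw [i3, hψ.zero, this, map_neg, C_1, map_neg, map_one] at h2
      exact ⟨2 * (C (z 1) * U) - P, by
        rw [map_sub, map_mul, map_ofNat]
        linear_combination h2⟩
    obtain ⟨z, P, -, h2⟩ := val _ D.gI
    obtain ⟨q, hq⟩ := ev_ker hm hAF (p := X * M - 2 * (P - (1 + X) * (C (z 0) * M +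
      2 * (C (z 1) * U)))) (by
        rw [D.ga] at h2
        simp only [map_sub, map_mul, map_add, map_ofNat, map_one, ev_X, ← hM] at h2 ⊢
        linear_combination -2 * h2)
    have h3 : red M = X ^ s * red q := mul_left_cancel₀ X_ne_zero (by
      have := congrArg red hq
      simp only [map_sub, map_mul, red_two, red_X, zero_mul, sub_zero, hr] at this
      rw [this]
      ring)
    have h4 : ev ψ (M - F * divX q) = 2 * w 0 := by
      rw [map_sub, map_mul, ev_apply F, (hAF.2.2 _).2 dvd_rfl, zero_mul, sub_zero, hM]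
    have h5 : red (M - F * divX q) = C (PadicInt.toZMod (q.coeff 0)) * X ^ s := by
      have := congrArg red (X_mul_divX_add q)
      rw [map_add, map_mul, red_X, TNV2.red_C] at this
      rw [map_sub, map_mul, hr, h3, ← this]
      ring
    rcases TNV2.z2 (PadicInt.toZMod (q.coeff 0)) with e' | e' <;> rw [e'] at h5
    · obtain ⟨W, hW⟩ := red_eq_zero (h5.trans (by simp))
      rw [hW, map_mul, map_ofNat, ← sub_eq_zero, ← mul_sub, ← map_ofNat (algebraMap ℚ_[2] A) 2,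
        ← Algebra.smul_def, smul_eq_zero, sub_eq_zero] at h4
      exact ⟨W, (h4.resolve_left two_ne_zero).symm⟩
    · exact (no_top hCP hALP hVAL ⟨hv, hPZ⟩ hm hr hf hAF hw (fun g hg e' =>
        (i4 g hg 0 (by simpa using e')).elim And.right fun e'' => e''.2.trans e)
        (h5.trans (by simp)) h4.symm).elim
  choose P _ P2 P3 using univ hv
  refine ev_forall (H := fun _ => D.w2.I) fun g hg => ?_
  by_cases hd : ∀ᶠ k in UF, 2 ^ k ∣ D.a (g k)
  swap
  · exact (ev_not.1 hd).mono fun k h h' => (h h').elim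
  have hg' := S1_mono D.w2.I_le_D hg
  obtain ⟨a, z, h1, h2, h3⟩ := lim D g
  obtain rfl := tendsto_nhds_unique (tend0 hd) h1
  have z1 : z 1 0 = 0 := half _ (h2 1 0) (tendsto_const_nhds.congr'
    (Eventually.mono hg' fun k hk => (R2.SelA.rd_up D.T D.dm hk).symm)) (by simp)
  obtain ⟨W, hW⟩ : ∃ W, ev ψ (C (z 0 0)) * w 0 = ev ψ W := by
    rcases sd_cases D.dm ι with e | e
    · obtain ⟨W, hW⟩ := int e
      exact ⟨_, by rw [hW, ← map_mul]⟩
    have h4 : Tendsto (fun k => sd D.dm (g k) * (cyc (g k) : ℤ_[2]) - 1) UF (𝓝 0) := by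
      refine tend0 ?_
      filter_upwards [mem_St.1 hg, hd, ev_ge 1] with k h4 h5 h6
      obtain ⟨n, rfl⟩ := Nat.exists_eq_add_of_le' h6
      have h7 : (2 : ℤ_[2]) ^ (n + 1) ∣ 2 ^ (n + 3) := pow_dvd_pow 2 (by omega)
      rcases i4 _ h4 n h5 with e' | e'
      · rw [e'.2, Int.cast_one, one_mul]
        exact h7.trans e'.1
      · rw [e'.2, e, Int.cast_neg, Int.cast_one, neg_one_mul, ← neg_add', dvd_neg]
        exact h7.trans e'.1
    have h5 : Tendsto (fun k => D.T.rd D.dm (g k) 0 0) UF (𝓝 (((0 : ℤ_[2]) : ℚ_[2]) + 1)) :=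
      (((continuous_subtype_val.tendsto _).comp h4).add_const 1).congr'
        (Eventually.mono hg fun k hk => (sub_add_cancel _ _).trans (rdI D hk).1.symm)
    exact ⟨0, by rw [half _ (h2 0 0) h5 (by simp), C_0, map_zero, zero_mul]⟩
  have h4 : raw ψ v g 0 + raw ψ v g 1 = ev ψ (2 * (W + (C (z 0 1) + C (z 1 1)) * U)) := by
    rw [hw g hg', Pi.sub_apply, Pi.sub_apply, h3 A ψ hψ, h3 A ψ hψ, hW, z1, hψ.zero, hU]
    simp only [map_mul, map_add, map_ofNat, map_zero]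
    ring
  have h5 := tendsto_pi_nhds.1 (tendsto_raw hψ hv g)
  filter_upwards [near hf.1 hAF ((h5 0).add (h5 1))] with k ⟨p, hp⟩ _ i hi
  have e1 := map_dvd red (ev_ker hm hAF (p := P k (g k) 0 + P k (g k) 1 + 4 * p -
    2 * (W + (C (z 0 1) + C (z 1 1)) * U)) (by
      rw [map_sub, ← h4, hp, map_add, map_add, P3 k A ψ hψ, P3 k A ψ hψ, sub_self]))
  rw [map_sub, map_add, map_mul, map_mul, red_two, red_four, zero_mul, zero_mul, add_zero, sub_zero,
    hr] at e1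
  have e2 := X_pow_dvd_iff.1 e1 i (hs ▸ hi)
  rw [coe_mapRingHom, coeff_map, tz_norm, PadicInt.norm_def, coeff_add, PadicInt.coe_add,
    P2, P2, ← Finset.sum_add_distrib] at e2
  simpa only [mul_add] using e2

end Pool.Agent.P.MP_8b7eba_nt.R2.G
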