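import Pool.Agent.P.MP_8b7eba_nt.R3.ASel
import Pool.Agent.P.MP_8b7eba_nt.R2.TUPERPA
import Pool.Agent.P.MP_8b7eba_nt.R2.TTATE

/-! Proof of PKOL. -/

namespace Pool.Agent.P.MP_8b7eba_nt.R2.G

open scoped NNReal Matrix
open MP_9c97e9_nt (Pt pm Is ap Sha Split)
open Filter Topology Polynomial Module

namespace TPKOL

open TTATE (n2)

theorem ec_eq (h : IsEc ec) {x y : ℚ_[2]} : ec x = ec y ↔ ‖x - y‖ ≤ 1 := by
  have h0 : ec y ≠ 0 := left_ne_zero_of_mul_eq_one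
    (by rw [← h.add, add_neg_cancel, h.eq_one]; simp : ec y * ec (-y) = 1)
  rw [← h.eq_one, ← mul_eq_right₀ h0, ← h.add, sub_add_cancel]

theorem ec_nat (h : IsEc ec) (n : ℕ) (x : ℚ_[2]) : ec (n * x) = ec x ^ n := by
  induction n with
  | zero => simp [h.eq_one]
  | succ n ih => rw [Nat.cast_succ, add_mul, h.add, ih, one_mul, pow_succ]

theorem small {x : ℚ_[2]} {k : ℕ} (h : ‖x / 2 ^ k‖ ≤ 1) : ‖x‖ ≤ (2 ^ k)⁻¹ := by
  rwa [norm_div, n2, div_le_one (by positivity)] at h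

theorem ev_small {ε : ℝ} (h : 0 < ε) : ∀ᶠ k in UF, ((2 : ℝ) ^ k)⁻¹ ≤ ε :=
  UF_le (tendsto_inv_atTop_zero.comp (tendsto_pow_atTop_atTop_of_one_lt one_lt_two)
    (Iic_mem_nhds h))

/-- approximate homomorphisms -/
structure Gd (H : ℕ → Subgroup GQ) (c : ℕ → GQ → ℚ_[2]) : Prop where
  bd : ∀ k g, ‖c k g‖ ≤ 1
  sm : ∀ k, Sm (H k) (c k)
  ad : ∀ k, ∀ g ∈ H k, ∀ h ∈ H k, ‖c k (g * h) - c k g - c k h‖ ≤ (2 ^ k)⁻¹

/-- the limit -/
noncomputable def X (c : ℕ → GQ → ℚ_[2]) (g : GS) : ℚ_[2] := ul fun k => c k (g k)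

variable {H : ℕ → Subgroup GQ} {c d : ℕ → GQ → ℚ_[2]} {w : ℕ → Pl}

theorem Gd.ap (h : Gd H c) : Ap H c (X c) := ap_ul h.bd fun k => (h.sm k).uc

theorem Gd.pz (h : Gd H c) : PZ H (fun _ => LinearMap.id) (X c) :=
  pz_of_ac (G := ⊤) rep_id h.ap fun _ e =>
    (ev_small e).mono fun k hk g hg g' hg' => (h.ad k g hg g' hg').trans hk

theorem Gd.add (h : Gd H c) {g g' : GS} (hg : g ∈ St H) (hg' : g' ∈ St H) :
    X c (g * g') = X c g + X c g' := by rw [h.pz.2 g hg g' hg', rS_id]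

theorem Gd.ap2 (h : Gd H c) (h' : Gd H d) :
    Ap2 H (fun k g g' => c k g * d k g') fun g g' => X c g * X d g' :=
  (ap2_cup (β := LinearMap.mul ℚ_[2] ℚ_[2]) (G := ⊤) rep_id (fun _ => le_top) h.ap h'.ap).congr
    fun g _ g' _ => by simp [cupS, rS_id]

theorem Gd.pz2 (h : Gd H c) (h' : Gd H d) (h1 : ∀ g ∈ St H, cS g = 1) :
    PZ2 H fun g g' => X c g * X d g' :=
  ⟨⟨_, h.ap2 h'⟩, fun g hg g' hg' l hl => by
    simp only [h1 g hg, h.add hg hg', h'.add hg' hl]; ring⟩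

theorem Gd.sym (hP : PIX) (hw : ∀ k, (w k).Loc (H k)) (h : Gd H c) (h' : Gd H d)
    (h1 : ∀ g ∈ St H, cS g = 1) :
    PI w H (fun g g' => X d g * X c g') = -PI w H fun g g' => X c g * X d g' := by
  rw [eq_neg_iff_add_eq_zero, ← (hP w H hw _ (h'.pz2 h h1)).2.2.2.1 _ (h.pz2 h' h1)]
  refine (hP w H hw _ ((h'.pz2 h h1).add (h.pz2 h' h1))).2.2.2.2.2.1
    ⟨fun g => -(X c g * X d g), ⟨fun k g => -(c k g * d k g), ⟨1, fun k g => ?_⟩,
      fun k => ((h.sm k).comp₂ (h'.sm k) fun a b => -(a * b)).uc,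
      fun g hg => ((h.ap.lim g hg).mul (h'.ap.lim g hg)).neg⟩, fun g hg g' hg' => ?_⟩
  · rw [norm_neg, norm_mul]; exact mul_le_one₀ (h.bd k g) (norm_nonneg _) (h'.bd k g)
  · simp only [Pi.add_apply, h1 g hg, h.add hg hg', h'.add hg hg']
    ring

theorem loc (hA : CA) {D : Dat} (l : Kp D) (k : ℕ) : (l.w k).p ≠ 2 ∧ (l.w k).I ≤ D.GK ∧
    l.ph k ∈ D.GK ∧ (l.w k).IsFrob 2 (l.ph k) ∧
    2 * D.GK.relIndex (l.w k).I = D.GK.relIndex (l.w k).D ∧
    2 * ((l.w k).D ⊓ D.GK).relIndex (l.w k).I = ((l.w k).D ⊓ D.GK).relIndex (l.w k).D ∧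
    ∀ g ∈ (l.w k).D ⊓ D.GK, 2 ^ k ∣ (cyc g : ℤ_[2]) - 1 := by
  have h2 : (l.w k).p ≠ 2 := fun e => l.big k (by rw [e]; exact ⟨15 * D.l * D.m, by push_cast; ring⟩)
  have h3 : (l.w k).I ≤ D.GK := fun g hg => Pl.I_fix hA.tame hA.res h2 (m := -D.l)
    (by rw [D.hsk]; simp) (fun e => l.big k ((dvd_neg.1 e).mul_left 30 |>.mul_right _)) hg
  have h4 : l.ph k ∈ D.GK := D.mul_mem (l.out k) (l.out k)
  have h5 : (l.w k).IsFrob 2 (l.ph k) := (l.fr k).mul (l.fr k)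
  have h6 : D.GK.relIndex (l.w k).D = 2 := Subgroup.relIndex_eq_two_iff_exists_notMem_and.2
    ⟨_, (l.fr k).1, l.out k, fun b _ => or_iff_not_imp_right.2 fun e => D.mul_mem e (l.out k)⟩
  have h7 : 2 * ((l.w k).D ⊓ D.GK).relIndex (l.w k).I = ((l.w k).D ⊓ D.GK).relIndex (l.w k).D := by
    rw [Subgroup.inf_relIndex_left, h6, Subgroup.relIndex_eq_one.2 (le_inf (Pl.I_le_D _) h3)]
  refine ⟨h2, h3, h4, h5, by rw [h6, Subgroup.relIndex_eq_one.2 h3], h7, fun g hg => ?_⟩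
  obtain ⟨N, h8, h9⟩ := hA.ec.2.2.2.2.1 k
  obtain ⟨m, i, hi, n, hn, rfl⟩ :=
    TUPERPA.frob hA.frob (Pl.loc_inf _ D.on.2) ⟨h5.1, h4⟩ h5 h7 h8 hg
  refine (h9 _).1 (mul_mem (mul_mem (pow_mem ((h9 _).2 ?_) m) ((h9 _).2 ?_)) hn.1)
  · have a1 : ‖cq (l.F k) - cq tau‖ ≤ (2 ^ (k + 1))⁻¹ := by
      have a2 := l.rho k
      have a3 := D.T.int (l.F k)
      have a4 := D.T.int tau
      rw [← D.T.det, ← D.T.det]
      generalize D.T.rho (l.F k) = A, D.T.rho tau = B at *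
      rw [show A.det - B.det = ((A - B) 0 0 * A 1 1 + (A - B) 1 1 * B 0 0) +
        (-((A - B) 0 1 * A 1 0) + -((A - B) 1 0 * B 0 1)) by simp [Matrix.det_fin_two]; ring]
      have a5 : ∀ i j (x : ℚ_[2]), ‖x‖ ≤ 1 → ‖(A - B) i j * x‖ ≤ (2 ^ (k + 1))⁻¹ := fun i j x e =>
        by rw [norm_mul]; exact (mul_le_of_le_one_right (norm_nonneg _) e).trans (a2 i j)
      refine (Padic.nonarchimedean _ _).trans (max_le ?_ ?_) <;>
        refine (Padic.nonarchimedean _ _).trans (max_le ?_ ?_) <;> (try rw [norm_neg]) <;>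
        apply a5 <;> solve_by_elim
    have a2 : 2 ^ (k + 1) ∣ (cyc (l.F k) : ℤ_[2]) + 1 := by
      refine Ideal.mem_span_singleton.1 ((PadicInt.norm_le_pow_iff_mem_span_pow _ (k + 1)).1 ?_)
      rw [zpow_neg, zpow_natCast, PadicInt.norm_def]
      simpa [cq, hA.ec.2.2.2.2.2.2.2] using a1
    rw [show l.ph k = l.F k * l.F k from rfl, hA.ec.2.1, Units.val_mul, mul_self_sub_one]
    exact ((pow_dvd_pow 2 k.le_succ).trans a2).mul_right _
  · simp [hA.ec.2.2.2.2.2.2.1 _ h2 i hi.1]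

theorem gd_val {χ : ∀ k : ℕ, GQ → ZMod (2 ^ k)} (h : ∀ k, IsCh (H k) (χ k)) :
    Gd H fun k g => (χ k g).val :=
  ⟨fun _ _ => IsUltrametricDist.norm_natCast_le_one _ _, fun k => (h k).1.comp fun a => (a.val : ℚ_[2]),
    fun k g hg g' hg' => small (by
      rw [(h k).2 g hg g' hg']
      exact_mod_cast (TEC.norm_iff k (((χ k g + χ k g').val : ℤ) - (χ k g).val - (χ k g').val)).2
        ((ZMod.intCast_zmod_eq_zero_iff_dvd _ _).1 (by simp)))⟩

theorem kum (hE : IsEc ec) {q : ℕ → Om} (h0 : ∀ k, q k ≠ 0) (hq : ∀ k, Fix ⊤ (q k))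
    (h : ∀ k, ∀ g ∈ H k, ∀ z : Om, z ^ 2 ^ k = 1 → g z = z) :
    ∃ b, Gd H b ∧ ∀ i j, ∃ β : Om, β ^ 2 ^ i = q (i + j) ∧
      ∀ g : GQ, ec (b (i + j) g / 2 ^ i) = g β / β := by
  choose β hβ using fun k => exists_root (q k) (n := 2 ^ k) (by positivity)
  have b0 : ∀ k, β k ≠ 0 := fun k e => h0 k (by rw [← hβ, e, zero_pow (by positivity)])
  have h1 : ∀ k (g : GQ), (g (β k) / β k) ^ 2 ^ k = 1 := fun k g => by
    rw [div_pow, ← map_pow, hβ, hq k g trivial, div_self (h0 k)]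
  have h2 : ∀ (k : ℕ) (z : Om), ∃ m : ℤ, z ^ 2 ^ k = 1 → z = ec (m / 2 ^ k) := fun k z => by
    by_cases e : z ^ 2 ^ k = 1
    · exact (hE.surj k z e).imp fun _ a _ => a
    · exact ⟨0, fun a => absurd a e⟩
  choose L hL using h2
  refine ⟨fun k g => L k (g (β k) / β k), ⟨fun _ _ => Padic.norm_int_le_one _,
    fun k => (sm_apply (β k)).comp fun z => (L k (z / β k) : ℚ_[2]),
    fun k g hg g' _ => small ?_⟩, fun i j => ⟨β (i + j) ^ 2 ^ j, ?_, fun g => ?_⟩⟩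
  · rw [sub_sub, sub_div, ← ec_eq hE, add_div, hE.add, ← hL _ _ (h1 _ _), ← hL _ _ (h1 _ _),
      ← hL _ _ (h1 _ _), ← h k g hg _ (h1 k g'), map_div₀, AlgEquiv.mul_apply]
    have := b0 k
    have : g (β k) ≠ 0 := by simpa
    field_simp
  · rw [← pow_mul, ← pow_add, add_comm j, hβ]
  · rw [map_pow, ← div_pow, hL _ _ (h1 _ g), ← ec_nat hE]
    congr 1
    push_cast
    field_simp
    ring

end TPKOL

open TPKOL in
theorem t_PKOL (hCF : CF) (hPTAME : PTAME) (hPFROB : PFROB) (hPIX : PIX) : PKOL := by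
  intro D l
  have hA := hCF.toCA
  have hE := hA.ec.1
  choose l1 l2 l3 l4 l5 l6 l7 using loc hA l
  have un : ∀ k, (l.w k).Unif (l.w k).I (l.w k).p := fun k =>
    (hA.res _ _ (Pl.loc_D _)).2.2.2.2.1
  set H := fun k => (l.w k).D ⊓ D.GK with hH
  have hw : ∀ k, (l.w k).Loc (H k) := fun k => Pl.loc_inf _ D.on.2
  have hI : ∀ k, (l.w k).I ⊓ D.GK ≤ H k := fun k => inf_le_inf_right _ (Pl.I_le_D _)
  have hph : ∀ k, l.ph k ∈ H k := fun k => ⟨(l4 k).1, l3 k⟩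
  have mph : l.ph ∈ St H := Eventually.of_forall hph
  have mt : l.t ∈ St H := Eventually.of_forall fun k => hI k ⟨l.tI k, l2 k (l.tI k)⟩
  have h1 : ∀ g ∈ St H, cS g = 1 := fun g hg => by
    refine tendsto_nhds_unique (tendsto_cS g) (Metric.tendsto_nhds.2 fun ε e => ?_)
    filter_upwards [hg, ev_small (half_pos e)] with k a1 a2
    rw [dist_eq_norm]
    exact ((small (by simpa [cq] using TTATE.co (m := 1) (by simpa using l7 k _ a1))).trans a2).trans_lt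
      (half_lt_self e)
  have fx : ∀ k, ∀ g ∈ H k, ∀ z : Om, z ^ 2 ^ k = 1 → g z = z := fun k g hg z e => by
    simpa using hA.ec.2.2.1 g k 1 z e (by simpa using l7 k g hg)
  have q0 : ∀ k, ((l.w k).p : Om) ≠ 0 := fun k => (un k).2.1
  choose χ c1 c2 c3 using fun k => TUPERPA.chi hA.frob (hw k) (hph k) (l4 k) (l6 k) hA.uch k
  have ga := gd_val c1
  obtain ⟨b, gb, hb⟩ := kum hE q0 (fun _ => fix_nat _) fx
  have ab : PI l.w H (fun g g' => X (fun k g => (χ k g).val) g * X b g') = 1 := by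
    have h2 := (hPIX _ H hw _ (ga.pz2 gb h1)).1 _ (ga.ap2 gb)
    generalize PI l.w H _ = t at h2
    refine sub_eq_zero.1 (norm_le_zero_iff.1 (le_of_forall_pos_le_add fun ε e => ?_))
    obtain ⟨i, hi⟩ := (ev_small e).exists
    obtain ⟨k, h3, h4⟩ := ((h2 i).and (ev_ge i)).exists
    obtain ⟨j, rfl⟩ := Nat.exists_eq_add_of_le h4
    obtain ⟨β, b1, b2⟩ := hb i j
    let χ' := fun g => ZMod.castHom (pow_dvd_pow 2 h4) (ZMod (2 ^ i)) (χ _ g)
    have d1 : IsCh (H (i + j)) χ' :=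
      ⟨(c1 _).1.comp _, fun g hg g' hg' => by simp only [χ', (c1 _).2 g hg g' hg', map_add]⟩
    obtain ⟨d2, d3, -, -, -, -, d4⟩ :=
      hA.cup (H (i + j)) _ (fix_nat _) (q0 (i + j)) _ χ' (by positivity) d1
    have d5 := (d4 β b1).2.congr (f' := cup χ' (l.w (i + j)).p / fun g h =>
        ec ((χ (i + j) g).val * b (i + j) h / 2 ^ i)) fun g hg h _ => by
      have d6 : (h β / β) ^ 2 ^ i = 1 := by rw [div_pow, ← map_pow, b1, map_natCast, div_self (q0 _)]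
      simp only [Pi.div_apply, χ', ZMod.castHom_apply, ZMod.cast_eq_val, ZMod.val_natCast]
      rw [mul_div_assoc, ec_nat hE, b2, ← pow_eq_pow_mod _ (by rw [← map_pow, d6, map_one]),
        fx _ g hg _ (by rw [pow_add, pow_mul, d6, one_pow])]
    rw [← hA.inv2.1 _ _ _ _ (hw _) ⟨d2, i, d3⟩ ((d2.div d5.co2).congr fun g hg h hh =>
        (div_div_cancel₀ (d2.ne g hg h hh)).symm) d5,
      hCF.locv _ _ i 2 χ' _ _ _ 1 (l1 _) (hw _) d1 (fun g hg => by simp only [χ', c2 _ g hg, map_zero])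
        (hph _) (l4 _) (l6 _) ⟨fix_nat _, q0 _, (un _).2.2.1, fun x hx =>
          (un _).2.2.2 x (hx.mono (le_inf (Pl.I_le_D _) (l2 _)))⟩ (fix_nat _) (q0 _)
        (zpow_one _).symm, ec_eq hE, ← sub_div] at h3
    have d7 := (TEC.norm_iff i (1 - (χ' (l.ph (i + j))).val * 1)).2
      ((ZMod.intCast_zmod_eq_zero_iff_dvd _ _).1 (by simp only [χ', c3, map_one]; simp))
    rw [zero_add, ← norm_neg]
    refine (small (k := i) ?_).trans hi
    have d8 := TTATE.ultra h3 d7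
    rwa [← add_div, Int.cast_sub, sub_add_sub_cancel', Int.cast_one, ← neg_sub] at d8
  have a1 : X (fun k g => (χ k g).val) l.ph = 1 :=
    ul_eq (tendsto_const_nhds.congr' ((ev_ge 1).mono fun k hk => by
      simp only [c3]
      rw [ZMod.val_one_eq_one_mod, Nat.mod_eq_of_lt (Nat.one_lt_two_pow (by omega)), Nat.cast_one]))
  have a2 : X (fun k g => (χ k g).val) l.t = 0 :=
    ul_eq (tendsto_const_nhds.congr fun k => by
      simp [c2 k _ ⟨l.tI k, hI k ⟨l.tI k, l2 k (l.tI k)⟩⟩])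
  have u0 : X b l.t ≠ 0 := by
    refine norm_pos_iff.1 (lt_of_lt_of_le (by norm_num : (0 : ℝ) < 2⁻¹)
      (ge_of_tendsto (gb.ap.lim _ mt).norm ((ev_ge 1).mono fun k hk => ?_)))
    obtain ⟨j, rfl⟩ := Nat.exists_eq_add_of_le hk
    obtain ⟨β, b1, b2⟩ := hb 1 j
    refine not_lt.1 fun e => ?_
    have h2 := (hE.eq_one (b (1 + j) (l.t (1 + j)) / 2 ^ 1)).2 (by
      rw [norm_div, TTATE.n2, div_le_one (by positivity), pow_one]; exact e.le)
    rw [b2, l.mov _ β b1, neg_div_self fun e => q0 _ (by rw [← b1, e]; simp)] at h2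
    norm_num at h2
  generalize (fun k g => ((χ k g).val : ℚ_[2])) = a at *
  have key : ∀ (W : Type) [NormedAddCommGroup W] [NormedSpace ℚ_[2] W] [IsUltrametricDist W]
      [FiniteDimensional ℚ_[2] W] (x : GS → W), PZ H (fun _ => LinearMap.id) x → ∀ g ∈ St H,
      x g = X a g • (x l.ph - X b l.ph • (X b l.t)⁻¹ • x l.t) + X b g • (X b l.t)⁻¹ • x l.t := by
    intro W _ _ _ _ x hx g hg
    have m : ∀ {c} (v : W), Gd H c → PZ H (fun _ => LinearMap.id) fun g => X c g • v :=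
      fun v h => h.pz.map (LinearMap.toSpanSingleton _ _ v) fun _ _ _ _ => by simp only [rS_id]
    have z := (hx.sub (G := ⊤) rep_id (m (x l.ph - X b l.ph • (X b l.t)⁻¹ • x l.t) ga)).sub
      (G := ⊤) rep_id (m ((X b l.t)⁻¹ • x l.t) gb)
    rw [← sub_eq_zero, ← sub_sub]
    exact hPFROB W _ _ l.w l.ph (fun _ => 2) _ D.on.2 ⟨⊤, rep_id, fun _ => le_top⟩
      (.of_forall fun k => ⟨l3 k, l4 k, l5 k⟩) z (by simp [a1])
      (hPTAME W _ _ l.w l.t (fun k => (l.w k).p) _ D.on.2 ⟨⊤, rep_id, fun _ => le_top⟩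
        (.of_forall fun k => ⟨l1 k, by rw [inf_of_le_left (l2 k)]; exact un k,
          ⟨l.tI k, l2 k (l.tI k)⟩, l.mov k⟩) (z.mono hI) (by simp [a2, u0])) g hg
  refine ⟨h1, (X b l.t)⁻¹, inv_ne_zero u0, fun W W' _ _ _ _ _ _ _ _ β x y hx hy => ?_⟩
  have kx := key W x hx
  have ky := key W' y hy
  generalize hA : x l.ph - _ = A at kx
  generalize hA' : y l.ph - _ = A' at ky
  generalize hB : (X b l.t)⁻¹ • x l.t = B at kx hA
  generalize hB' : (X b l.t)⁻¹ • y l.t = B' at ky hA'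
  have p1 := ga.pz2 ga h1
  have p2 := ga.pz2 gb h1
  have p3 := gb.pz2 ga h1
  have p4 := gb.pz2 gb h1
  have q1 := p1.smul (β A A')
  have q2 := q1.add (p2.smul (β A B'))
  have q3 := q2.add (p3.smul (β B A'))
  have ad := fun B h => (hPIX _ H hw B h).2.2.2.1
  have sm := fun B h => (hPIX _ H hw B h).2.2.2.2.1
  rw [(hPIX _ H hw _ (q3.add (p4.smul (β B B')))).2.2.1 _ fun g hg h hh => by
      simp only [kx g hg, ky h hh, map_add, map_smul, LinearMap.add_apply, LinearMap.smul_apply,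
        Pi.add_apply, Pi.smul_apply, smul_eq_mul]
      ring,
    ad _ q3 _ (p4.smul _), ad _ q2 _ (p3.smul _), ad _ q1 _ (p2.smul _), sm _ p1, sm _ p2, sm _ p3,
    sm _ p4, self_eq_neg.1 (ga.sym hPIX hw ga h1), self_eq_neg.1 (gb.sym hPIX hw gb h1),
    ga.sym hPIX hw gb h1, ab, ← hA, ← hA', ← hB, ← hB']
  simp only [map_sub, map_smul, LinearMap.sub_apply, LinearMap.smul_apply, smul_eq_mul]
  ring

end Pool.Agent.P.MP_8b7eba_nt.R2.G
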