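import Pool.Agent.P.MP_8b7eba_nt.R3.ASel

/-! Proof of UNL. -/

namespace Pool.Agent.P.MP_8b7eba_nt.R2.G

open scoped NNReal Matrix
open MP_9c97e9_nt (Pt pm Is ap)
open Filter Topology Polynomial Module

theorem t_UNL (hCP : CP) (_hKTRIV : KTRIV) : UNL := by
  intro D l y hy h0
  refine ⟨⟨hy.1.pz, hy.1.off, hy.1.nz, fun w g hg => ?_, hy.1.bad, by simp⟩, hy.2⟩
  have R := D.rep isPsi_one
  by_cases hp : ∀ᶠ k in UF, (w k).p = (l.w k).p
  swap
  · exact hy.1.unr w g ((hg.and (ev_not.1 hp)).mono fun k hk =>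
      ⟨hk.1.1, hk.1.2.1, by simpa using hk.2⟩)
  have hu : ∀ k, ∃ u ∈ D.GK, (w k).p = (l.w k).p → u • l.w k = w k := fun k => by
    by_cases e : (w k).p = (l.w k).p
    · obtain ⟨σ, hσ⟩ := hCP.pl.2.1 (l.w k) (w k) e.symm
      by_cases hs : σ ∈ D.GK
      · exact ⟨σ, hs, fun _ => hσ⟩
      · exact ⟨σ * l.F k, D.mul_mem hs (l.out k), fun _ => by
          rw [mul_smul, show l.F k • l.w k = l.w k from (l.fr k).1, hσ]⟩
    · exact ⟨1, one_mem _, fun h => (e h).elim⟩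
  choose u hu hu' using hu
  have huS : u ∈ S1 D.GK := Eventually.of_forall hu
  have hg' : u⁻¹ * g * u ∈ St fun k => (l.w k).I ⊓ D.GK := (hg.and hp).mono fun k hk =>
    ⟨Pl.mem_I_smul.1 (by rw [hu' k hk.2]; exact hk.1.1.1),
      D.GK.mul_mem (D.GK.mul_mem (D.GK.inv_mem (hu k)) hk.1.1.2) (hu k)⟩
  have h2 : ∀ k, (l.w k).p ≠ 2 := fun k e => l.big k (by
    rw [e]
    exact ⟨15 * D.l * D.m, by push_cast; ring⟩)
  have hI : ∀ k, (l.w k).I ≤ D.GK := fun k g hg =>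
    Pl.I_fix hCP.tame hCP.res (h2 k) (m := -D.l) (by rw [D.hsk]; push_cast; rfl)
      (fun e => l.big k (((dvd_neg.1 e).mul_left _).mul_right _)) hg
  have hz := hCP.ptame V2 D.GK (D.r fun _ => (1 : ℚ_[2])) l.w l.t (fun k => (l.w k).p) y D.on.2
    ⟨D.GK, R, fun k => inf_le_right⟩ (Eventually.of_forall fun k => ⟨h2 k, by
      rw [inf_eq_left.2 (hI k)]
      exact (hCP.res _ _ (l.w k).loc_D).2.2.2.2.1, ⟨l.tI k, hI k (l.tI k)⟩, l.mov k⟩)
    (hy.1.pz.mono fun k => inf_le_right) h0 _ hg'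
  have e : u * (u⁻¹ * g * u) * u⁻¹ = g := by group
  have h3 := hy.1.pz.conj R (fun _ => le_rfl) huS
    (St_mono (Eventually.of_forall fun k => inf_le_right) hg')
  rwa [e, hz, rS_zero, add_zero,
    Dat.rS_unr hCP.toCF isPsi_one (hg.mono fun k hk => ⟨hk.1, hk.2.1⟩), sub_self] at h3

end Pool.Agent.P.MP_8b7eba_nt.R2.G
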