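import Pool.Agent.P.MP_8b7eba_nt.R3.ASel
import Pool.Agent.P.MP_8b7eba_nt.R2.TKLDA

/-! The character of the square root of two does not lift to a twisted Kummer cocycle. -/

namespace Pool.Agent.P.MP_8b7eba_nt.R2.G

open scoped NNReal
open Filter Topology TKLD

namespace ATVAL

theorem n8 : ‖(8 : ℚ_[2])‖ = 8⁻¹ := by
  have := n2 3
  norm_num at this ⊢
  exact this

theorem ec8 (h : IsEc ec) {x y : ℚ_[2]} (e : ‖x - y‖ ≤ 8⁻¹) : ec (x / 8) = ec (y / 8) := by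
  rw [ec_eq h, ← sub_div, norm_div, n8, div_le_one (by norm_num)]
  exact e

theorem ec_half (h : IsEc ec) {x : ℚ_[2]} (hx : ‖x‖ ≤ 1) :
    (‖x‖ < 1 → ec (x / 8) ^ 4 = 1) ∧ (¬ ‖x‖ < 1 → ec (x / 8) ^ 4 = -1) := by
  have e : ec (x / 8) ^ 4 = ec (x / 2) := by
    rw [← ec_nat h]
    congr 1
    push_cast
    ring
  have n : ‖x / 2‖ = 2 * ‖x‖ := by
    rw [norm_div, Csum.norm_two]
    ring
  rw [e]
  refine ⟨fun a => (h.eq_one _).2 ?_, fun a => ?_⟩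
  · have := (Padic.norm_le_pow_iff_norm_lt_pow_add_one x (-1)).2 (by simpa using a)
    rw [n]
    norm_num at this
    linarith
  · have b : ec (x / 2) ^ 2 = 1 := by
      rw [← ec_nat h]
      refine (h.eq_one _).2 (le_of_eq_of_le (congrArg norm ?_) hx)
      push_cast
      ring
    refine (sq_eq_one_iff.1 b).resolve_left fun c => ?_
    have := (h.eq_one _).1 c
    rw [n] at this
    exact a (by linarith)

theorem core (hCP : CP) {w : Pl} {φ : GQ} {η : ℚ_[2]} {s : Om} {c : GQ → ℚ_[2]} (hw : w.p = 2)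
    (hs : s ^ 2 = 2) (hφ : φ ∈ w.D) (hη : ‖η‖ ≤ 1) (uc : Uc w.D c) (le : ∀ g ∈ w.D, ‖c g‖ ≤ 1)
    (c1 : ∀ g ∈ w.I, ∀ h ∈ w.D, ‖c (g * h) - (c g + cq g * c h)‖ ≤ 8⁻¹)
    (c2 : ∀ h ∈ w.D, ‖c (φ * h) - (c φ + cq φ * η * c h)‖ ≤ 8⁻¹)
    (hq : ∀ g ∈ w.I, ‖c g‖ < 1 ↔ g s = s) : ‖η - 1‖ ≤ 8⁻¹ := by
  have hE : IsEc ec := hCP.ec.1
  have gal : ∀ (g : GQ) (x : ℚ_[2]), g (ec (x / 8)) = ec (cq g * x / 8) := fun g x => by
    rw [hE.gal, mul_div_assoc]
    rfl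
  obtain ⟨y, y0, hy⟩ := (hCP.gal w.I w.closed_I).2.1 (fun g => ec (c g / 8))
    ((uc.mono w.I_le_D).sm (fun v => ec (v / 8)) (ε := 8⁻¹) (by norm_num) fun _ _ e => ec8 hE e)
    (fun g _ => ec_ne hE _) fun g hg h hh => by
      rw [gal, ← hE.add, ← add_div]
      exact ec8 hE (c1 g hg h (w.I_le_D hh))
  have hU : w.Unif w.I w.p := (hCP.res w w.D w.loc_D).2.2.2.2.1
  have s0 : s ≠ 0 := fun e => by
    rw [e] at hs
    norm_num at hs
  have vs : w.v s ^ 2 = w.v w.p := by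
    rw [← map_pow, hs, hw]
    rfl
  have p0 : w.v w.p ≠ 0 := w.v.ne_zero_iff.2 hU.2.1
  have v0 : w.v y ≠ 0 := w.v.ne_zero_iff.2 y0
  obtain ⟨m, hm⟩ := hU.2.2.2 (y ^ 4 * s) (fun g hg => by
    have a := ec_half hE (le g (w.I_le_D hg))
    rw [map_mul, map_pow, ← hy g hg, mul_pow]
    by_cases e : ‖c g‖ < 1
    · rw [a.1 e, (hq g hg).1 e, one_mul]
    · have b : g s ^ 2 = s ^ 2 := by rw [← map_pow, hs, map_ofNat]
      rw [a.2 e, (sq_eq_sq_iff_eq_or_eq_neg.1 b).resolve_left fun x => e ((hq g hg).2 x)]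
      ring) (mul_ne_zero (pow_ne_zero _ y0) s0)
  have h8 : w.v y ^ (8 : ℤ) = w.v w.p ^ (2 * m - 1) := by
    rw [zpow_sub_one₀ p0, mul_comm 2 m, zpow_mul, ← hm, map_mul, map_pow, mul_zpow, zpow_ofNat,
      zpow_ofNat, zpow_ofNat, vs, mul_inv_cancel_right₀ p0, ← pow_mul]
  obtain ⟨e, he⟩ := PadicInt.denseRange_natCast.exists_dist_lt (⟨η, hη⟩ : ℤ_[2])
    (show (0 : ℝ) < 8⁻¹ by norm_num)
  have he' : ‖η - e‖ ≤ 8⁻¹ := by
    rw [dist_eq_norm, PadicInt.norm_def] at he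
    simpa using he.le
  have z0 := ec_ne hE (c φ / 8)
  have vz : w.v (ec (c φ / 8)) = 1 := Pl.v_root (n := 8) (by norm_num) (by
    rw [← ec_nat hE]
    refine (hE.eq_one _).2 (le_of_eq_of_le (congrArg norm ?_) (le φ hφ))
    push_cast
    ring)
  obtain ⟨j, hj⟩ := hU.2.2.2 (φ y ^ e / (y * ec (c φ / 8))) (fun g hg => by
    have g1 : φ⁻¹ * g * φ ∈ w.I := by simpa using Pl.conj_mem_I (w.D.inv_mem hφ) hg
    have g2 : g * φ = φ * (φ⁻¹ * g * φ) := by group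
    have a1 : g (φ y) = ec (cq φ * c (φ⁻¹ * g * φ) / 8) * φ y := by
      rw [← gal, ← map_mul, hy _ g1]
      exact congrArg (fun σ : GQ => σ y) g2
    have a2 : ec (cq φ * c (φ⁻¹ * g * φ) / 8) ^ e * ec (c φ / 8) =
        ec (c g / 8) * ec (cq g * c φ / 8) := by
      rw [← ec_nat hE, ← hE.add, ← hE.add, ← mul_div_assoc, ← add_div, ← add_div,
        ← ec8 hE (c1 g hg φ hφ), g2, ec8 hE (c2 _ (w.I_le_D g1))]
      refine ec8 hE ?_
      have : (e : ℚ_[2]) * (cq φ * c (φ⁻¹ * g * φ)) + c φ - (c φ + cq φ * η * c (φ⁻¹ * g * φ)) =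
          -(cq φ * (η - e) * c (φ⁻¹ * g * φ)) := by ring
      rw [this, norm_neg, norm_mul, norm_mul, show ‖cq φ‖ = 1 from PadicInt.norm_units (cyc φ),
        one_mul]
      exact (mul_le_of_le_one_right (norm_nonneg _) (le _ (w.I_le_D g1))).trans he'
    have b1 := ec_ne hE (c g / 8)
    have b2 := ec_ne hE (cq g * c φ / 8)
    rw [map_div₀, map_pow, map_mul, a1, ← hy g hg, gal, mul_pow,
      div_eq_div_iff (mul_ne_zero (mul_ne_zero b1 y0) b2) (mul_ne_zero y0 z0)]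
    linear_combination (φ y ^ e * y) * a2)
    (div_ne_zero (pow_ne_zero _ ((map_ne_zero φ).2 y0)) (mul_ne_zero y0 z0))
  rw [map_div₀, map_pow, map_mul, vz, mul_one, Pl.mem_D.1 hφ, ← zpow_natCast, div_eq_mul_inv,
    ← zpow_sub_one₀ v0] at hj
  have key : (2 * m - 1) * ((e : ℤ) - 1) = j * 8 := hU.zpow_inj (by
    rw [zpow_mul, zpow_mul, ← h8, ← hj, ← zpow_mul, ← zpow_mul, mul_comm])
  have d : (8 : ℤ) ∣ (e : ℤ) - 1 := by
    have c8 : IsCoprime (8 : ℤ) (2 * m - 1) := by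
      have : IsCoprime (2 : ℤ) (2 * m - 1) := ⟨m, -1, by ring⟩
      simpa using this.pow_left (m := 3)
    exact c8.dvd_of_dvd_mul_left ⟨j, by rw [key, mul_comm]⟩
  obtain ⟨t, ht⟩ := d
  have f : ‖(e : ℚ_[2]) - 1‖ ≤ 8⁻¹ := by
    have : (e : ℚ_[2]) - 1 = 8 * (t : ℚ_[2]) := by exact_mod_cast congrArg (Int.cast : ℤ → ℚ_[2]) ht
    rw [this, norm_mul, n8]
    exact mul_le_of_le_one_right (by norm_num) (Padic.norm_int_le_one t)
  rw [← sub_add_sub_cancel η e 1]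
  exact (IsUltrametricDist.norm_add_le_max _ _).trans (max_le he' f)

end ATVAL

theorem t_VAL (hCP : CP) : VAL := by
  intro w φ η s r y hw hs hr hI hφ hrφ hη hy hle H
  obtain ⟨c, hc⟩ := hy.1
  have near : ∀ g ∈ S1 w.D, ∀ᶠ k in UF, ‖c k (g k) - y g‖ < 1 := fun g hg =>
    (Metric.tendsto_nhds.1 (hc.lim g hg) 1 one_pos).mono fun k h => by rwa [dist_eq_norm] at h
  have e1 : ∀ᶠ k in UF, ∀ g ∈ w.D, ‖c k g‖ ≤ 1 :=
    ev_forall (H := fun _ => w.D) (p := fun k g => ‖c k g‖ ≤ 1) fun g hg =>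
      (near g hg).mono fun k h => by
        rw [← sub_add_cancel (c k (g k)) (y g)]
        exact (IsUltrametricDist.norm_add_le_max _ _).trans (max_le h.le (hle g hg))
  have e2 : ∀ᶠ k in UF, ∀ g ∈ w.I, (‖c k g‖ < 1 ↔ g s = s) :=
    ev_forall (H := fun _ => w.I) (p := fun k g => ‖c k g‖ < 1 ↔ g s = s) fun g hg => by
      have a := near g (S1_mono w.I_le_D hg)
      by_cases b : ‖y g‖ < 1
      · refine (a.and ((H g hg).1 b)).mono fun k h => iff_of_true ?_ h.2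
        rw [← sub_add_cancel (c k (g k)) (y g)]
        exact (IsUltrametricDist.norm_add_le_max _ _).trans_lt (max_lt h.1 b)
      · refine (a.and (ev_not.1 fun x => b ((H g hg).2 x))).mono fun k h =>
          iff_of_false (fun x => b ?_) h.2
        rw [← sub_sub_cancel (c k (g k)) (y g), sub_eq_add_neg]
        exact (IsUltrametricDist.norm_add_le_max _ _).trans_lt (max_lt x (by rw [norm_neg]; exact h.1))
  obtain ⟨k, k1, k2, k3⟩ := (e1.and (e2.and (hy.ac hr hc (ε := 8⁻¹) (by norm_num)))).exists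
  have n1 : ‖η‖ ≤ 1 := by
    have := hr.le φ 1
    rwa [hrφ, mul_one, norm_mul, show ‖cq φ‖ = 1 from PadicInt.norm_units (cyc φ), one_mul,
      norm_one] at this
  refine absurd (ATVAL.core hCP hw hs hφ.1 n1 (hc.uc k) k1 (fun g hg h hh => ?_) (fun h hh => ?_) k2)
    (not_le.2 hη)
  · rw [← sub_sub, ← hI g hg]
    exact k3 g (w.I_le_D hg) h hh
  · rw [← sub_sub, ← hrφ]
    exact k3 φ hφ.1 h hh

end Pool.Agent.P.MP_8b7eba_nt.R2.G
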