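import Pool.Agent.P.MP_8b7eba_nt.R3.ASel

/-! Proof of VN. -/

namespace Pool.Agent.P.MP_8b7eba_nt.R2.G

open scoped NNReal Matrix
open MP_9c97e9_nt (Pt pm Is ap Sha Split)
open Filter Topology Polynomial Module

namespace TVN

/-- square roots which are fixed by the decomposition group at two and by odd inertia -/
structure Bd (D : Dat) (U : Subgroup GQ) (β : Om) : Prop where
  ne : β ≠ 0
  sq : Fix U (β ^ 2)
  two : Fix (D.w2.D ⊓ U) β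
  odd : ∀ w : Pl, w.p ≠ 2 → Fix (w.I ⊓ U) β

variable {D : Dat} {U : Subgroup GQ} {β : Om}

theorem fix_conj {H H' : Subgroup GQ} {x : Om} (s : GQ) (h : Fix H x)
    (e : ∀ g ∈ H', s⁻¹ * g * s ∈ H) : Fix H' (s x) := fun g hg => by
  have h1 := congrArg s (h _ (e g hg))
  rw [← AlgEquiv.mul_apply, ← mul_assoc, ← mul_assoc, mul_inv_cancel, one_mul,
    AlgEquiv.mul_apply] at h1
  exact h1

theorem conj_mem (hU : U.Normal) (s : GQ) {g : GQ} (hg : g ∈ U) : s⁻¹ * g * s ∈ U := by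
  simpa using hU.conj_mem g hg s⁻¹

theorem Bd.step (hU : U.Normal) (h : Bd D U β) {s : GQ} (hs : s ∈ D.w2.D) : Bd D U (s β / β) where
  ne := div_ne_zero ((_root_.map_ne_zero s).2 h.ne) h.ne
  sq := by
    rw [div_pow, ← map_pow]
    exact (fix_conj s h.sq fun g hg => conj_mem hU s hg).div h.sq
  two := (fix_conj s h.two fun g (hg : g ∈ D.w2.D ⊓ U) => ⟨D.w2.D.mul_mem
    (D.w2.D.mul_mem (D.w2.D.inv_mem hs) hg.1) hs, conj_mem hU s hg.2⟩).div h.two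
  odd := fun w hw => (fix_conj s (h.odd (s⁻¹ • w) hw) fun g (hg : g ∈ w.I ⊓ U) =>
    ⟨Pl.mem_I_smul.2 (by simpa [mul_assoc] using hg.1), conj_mem hU s hg.2⟩).div (h.odd w hw)

theorem descend (hU : U.Normal) {γ : GQ} (hγ : γ ∈ D.w2.D)
    (base : ∀ β, Bd D U β → Fix U (γ β / β) → Fix U β) (k : ℕ) :
    ∀ β, Bd D U β → Fix U ((γ ^ 2 ^ k) β / β) → Fix U β := by
  induction k with
  | zero => simpa using base
  | succ k ih =>
    intro β h hf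
    refine ih β h (ih _ (h.step hU (D.w2.D.pow_mem hγ _)) ?_)
    have h0 := h.ne
    have h1 : (γ ^ 2 ^ k) β ≠ 0 := (_root_.map_ne_zero _).2 h.ne
    have e : (γ ^ 2 ^ k) ((γ ^ 2 ^ k) β / β) / ((γ ^ 2 ^ k) β / β) =
        (γ ^ 2 ^ (k + 1)) β / β * (β ^ 2 / (γ ^ 2 ^ k) (β ^ 2)) := by
      rw [pow_succ 2 k, pow_mul, sq (γ ^ 2 ^ k), AlgEquiv.mul_apply, map_div₀, map_pow]
      field_simp
    rw [e]
    exact hf.mul (h.sq.div (fix_conj _ h.sq fun g hg => conj_mem hU _ hg))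

theorem gm_mem (D : Dat) : D.gm ∈ D.w2.D := D.w2.I_le_D D.gI

theorem ak_pow (D : Dat) (n m : ℕ) : D.ak n (D.gm ^ m) = m := by
  rw [Dat.ak, D.an.pow (D.D_le (gm_mem D)), D.ga, mul_one, map_natCast]

theorem dec (D : Dat) (n : ℕ) {g : GQ} (hg : g ∈ D.GK) :
    (D.gm ^ (D.ak n g).val)⁻¹ * g ∈ D.Gd (2 ^ n) := by
  have h1 : D.gm ^ (D.ak n g).val ∈ D.GK := D.GK.pow_mem (D.D_le (gm_mem D)) _
  have h2 := D.GK.mul_mem (D.GK.inv_mem h1) hg
  refine Dat.mem_Gd.2 ⟨h2, D.ak_eq_zero.1 ?_⟩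
  have h3 := D.ak_mul n h1 h2
  rw [mul_inv_cancel_left, ak_pow, ZMod.natCast_zmod_val] at h3
  exact left_eq_add.1 h3

theorem pow_mod {γ : GQ} {N : ℕ} (h : (γ ^ N) β = β) (m : ℕ) : (γ ^ (m % N)) β = (γ ^ m) β := by
  have h1 : γ ^ N ∈ MulAction.stabilizer GQ β := h
  have h2 : ((γ ^ N) ^ (m / N)) β = β := (MulAction.stabilizer GQ β).pow_mem h1 _
  conv_rhs => rw [← Nat.mod_add_div m N, pow_add, pow_mul, AlgEquiv.mul_apply, h2]

theorem fix_pow (hU : U.Normal) {γ : GQ} (h0 : β ≠ 0) (h : Fix U (γ β / β)) (m : ℕ) :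
    Fix U ((γ ^ m) β / β) := by
  induction m with
  | zero => simpa [h0] using (fix_one : Fix U 1)
  | succ m ih =>
    have h1 : γ β ≠ 0 := (_root_.map_ne_zero _).2 h0
    have e : (γ ^ (m + 1)) β / β = γ ((γ ^ m) β / β) * (γ β / β) := by
      rw [pow_succ', AlgEquiv.mul_apply, map_div₀]
      field_simp
    rw [e]
    exact (fix_conj γ ih fun g hg => conj_mem hU γ hg).mul h

theorem gm_pow_mem (D : Dat) (n : ℕ) : D.gm ^ 2 ^ n ∈ D.w2.D ⊓ D.Gd (2 ^ n) :=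
  ⟨D.w2.D.pow_mem (gm_mem D) _, Dat.mem_Gd.2 ⟨D.GK.pow_mem (D.D_le (gm_mem D)) _,
    D.ak_eq_zero.1 (by rw [ak_pow, ZMod.natCast_self])⟩⟩

theorem fix_up (D : Dat) (n : ℕ) {H : Subgroup GQ} {x : Om} (hH : H ≤ D.GK) (hγ : D.gm ∈ H)
    (h : Fix (H ⊓ D.Gd (2 ^ n)) x) (h' : D.gm x = x) : Fix H x := fun g hg => by
  have h1 : (D.gm ^ (D.ak n g).val) x = x :=
    (MulAction.stabilizer GQ x).pow_mem (show D.gm ∈ MulAction.stabilizer GQ x from h') _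
  have h2 := h _ ⟨H.mul_mem (H.inv_mem (H.pow_mem hγ (D.ak n g).val)) hg, dec D n (hH hg)⟩
  have h3 := congrArg (D.gm ^ (D.ak n g).val) h2
  rw [← AlgEquiv.mul_apply, mul_inv_cancel_left, h1] at h3
  exact h3

theorem base (hCF : CF) (D : Dat) (n : ℕ) (hU : ON (D.Gd (2 ^ n))) (β : Om)
    (h : Bd D (D.Gd (2 ^ n)) β) (hy : Fix (D.Gd (2 ^ n)) (D.gm β / β)) :
    Fix (D.Gd (2 ^ n)) β := by
  have hK := D.toPre.on
  have hN : (D.gm ^ 2 ^ n) β = β := h.two _ (gm_pow_mem D n)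
  have h0 := h.ne
  have hz : ∀ g ∈ D.Gd (2 ^ n), D.ak n g = 0 := fun g hg => D.ak_eq_zero.2 hg.2
  obtain ⟨t, t0, ht⟩ := (hCF.gal D.GK (closed_of_open hK.2)).2.1
    (fun g => (D.gm ^ (D.ak n g).val) β / β)
    ⟨_, hU, fun g hg m hm hm' => by simp only [D.ak_mul n hg hm, hz m hm', add_zero]⟩
    (fun g _ => div_ne_zero ((_root_.map_ne_zero _).2 h0) h0) (fun g hg k hk => by
      have h1 := fix_pow hU.1 h0 hy (D.ak n k).val _ (dec D n hg)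
      have h2 := congrArg (D.gm ^ (D.ak n g).val) h1
      rw [← AlgEquiv.mul_apply, mul_inv_cancel_left] at h2
      have h3 : (D.gm ^ (D.ak n g).val) β ≠ 0 := (_root_.map_ne_zero _).2 h0
      rw [h2, D.ak_mul n hg hk, ZMod.val_add, pow_mod hN, pow_add, AlgEquiv.mul_apply, map_div₀]
      field_simp)
  have tU : Fix (D.Gd (2 ^ n)) t := fun g hg => by
    have h1 := ht g hg.1
    simp only [hz g hg, ZMod.val_zero, pow_zero, AlgEquiv.one_apply, div_self h0, one_mul] at h1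
    exact h1.symm
  have tg : D.gm (β / t) = β / t := by
    have h1 := ht D.gm (D.D_le (gm_mem D))
    have h2 := ak_pow D n 1
    have h3 : D.gm β ≠ 0 := (_root_.map_ne_zero _).2 h0
    rw [pow_one] at h2
    simp only [h2, ZMod.val_natCast, pow_mod hN, pow_one] at h1
    rw [map_div₀, ← h1]
    field_simp
  have b0 : β / t ≠ 0 := div_ne_zero h0 t0
  have f1 : Fix D.GK ((β / t) ^ 2) := fix_up D n le_rfl (D.D_le (gm_mem D))
    (by rw [div_pow]; exact (h.sq.div (tU.pow 2)).mono inf_le_right) (by rw [map_pow, tg])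
  have f2 : Fix D.w2.D (β / t) := fix_up D n D.D_le (gm_mem D)
    (h.two.div (tU.mono inf_le_right)) tg
  have f3 : Sq D.GK ((β / t) ^ 2) := by
    refine (hCF.karith D.toPre).2.2.2.2.2.2 _ f1 (pow_ne_zero 2 b0) (fun w hw => ?_) ⟨_, f2, rfl⟩
    obtain ⟨π, -, p1, p2, -⟩ := hCF.unif w D.GK hK.2
    have hle : w.I ⊓ D.GK ≤ w.I ⊓ D.Gd (2 ^ n) := fun g hg =>
      ⟨hg.1, Dat.mem_Gd.2 ⟨hg.2, by rw [D.an.unr w hw g hg]; exact dvd_zero _⟩⟩
    obtain ⟨k, hk⟩ := p2.2.2.2 (β / t) (((h.odd w hw).div (tU.mono inf_le_right)).mono hle) b0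
    exact ⟨π ^ k, p1.1.zpow k, by rw [map_pow, hk, map_zpow₀]⟩
  have f4 := (((sq_iff f1).1 f3).mono fun g (hg : g ∈ D.Gd (2 ^ n)) => hg.1).mul tU
  rwa [div_mul_cancel₀ _ t0] at f4

theorem one (hCF : CF) (D : Dat) (n : ℕ) (hU : ON (D.Gd (2 ^ n))) (x : Om)
    (hx : Fix (D.Gd (2 ^ n)) x) (h0 : x ≠ 0)
    (hw : ∀ w : Pl, w.p ≠ 2 → w.Ev (w.D ⊓ D.Gd (2 ^ n)) x) (h2 : Sq (D.w2.D ⊓ D.Gd (2 ^ n)) x) :
    Sq (D.Gd (2 ^ n)) x := by
  obtain ⟨β, rfl⟩ := exists_root x two_ne_zero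
  have hb : Bd D (D.Gd (2 ^ n)) β := ⟨fun e => h0 (by simp [e]), hx,
    (sq_iff (hx.mono inf_le_right)).1 h2, fun w h => by
      obtain ⟨y, y1, y2⟩ := hw w h
      exact (sq_iff (hx.mono inf_le_right)).1 ((hCF.sq2 w).2.1 _ inf_le_left h _
        (hx.mono inf_le_right) ⟨y, y1.mono (inf_le_inf_right _ w.I_le_D), y2⟩)⟩
  refine ⟨β, descend hU.1 (gm_mem D) (base hCF D n hU) n β hb ?_, rfl⟩
  rw [hb.two _ (gm_pow_mem D n), div_self hb.ne]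
  exact fix_one

theorem count {G : Type} [CommGroup G] {A B A2 B2 : Subgroup G} (h1 : A ≤ B) (h2 : B2 ≤ B)
    (h3 : B2 ⊓ A = A2 ⊓ A) (h4 : B2.relIndex B ≠ 0) (h5 : B2.relIndex B ≤ A2.relIndex A) :
    B ≤ A ⊔ B2 := by
  have e1 : B2.relIndex (A ⊔ B2) = A2.relIndex A := by
    rw [Subgroup.relIndex_sup_right, ← Subgroup.inf_relIndex_right, h3, Subgroup.inf_relIndex_right]
  have e2 := Subgroup.relIndex_mul_relIndex B2 (A ⊔ B2) B le_sup_right (sup_le h1 h2)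
  rw [e1] at e2
  rw [← Subgroup.relIndex_eq_one]
  have e3 : (A ⊔ B2).relIndex B ≠ 0 := fun e => h4 (by rw [← e2, e, mul_zero])
  have e4 : 0 < A2.relIndex A := lt_of_lt_of_le (Nat.pos_of_ne_zero h4) h5
  have e5 : A2.relIndex A * (A ⊔ B2).relIndex B ≤ A2.relIndex A * 1 := by omega
  have e6 := Nat.le_of_mul_le_mul_left e5 e4
  omega

theorem v_one {w : Pl} {s : Om} (h : w.v (s ^ 2) = 1) : w.v s = 1 := by
  rw [map_pow] at h
  exact (pow_eq_one_iff_of_nonneg zero_le two_ne_zero).1 h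

theorem two (hCF : CF) (hLAY : LAY) (D : Dat) (n : ℕ) (y : Om)
    (hy : Fix (D.w2.D ⊓ D.Gd (2 ^ n)) y) (h0 : y ≠ 0) : ∃ x, Fix (D.Gd (2 ^ n)) x ∧ x ≠ 0 ∧
      (∀ w : Pl, w.p ≠ 2 → w.v x = 1) ∧ Sq (D.w2.D ⊓ D.Gd (2 ^ n)) (x * y) := by
  obtain ⟨hU, hT, hi, hr, -, -, ho, -, hP, -⟩ := hLAY D n
  obtain ⟨R, r1, -, r2, r3⟩ := hP {2}
  simp only [Finset.mem_singleton] at r2 r3
  have s1 := (hCF.sun _ R hU.2 hT r1).2.2
  rw [r3, ho, hi, pow_succ 2 n, Nat.mul_div_cancel _ two_pos] at s1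
  obtain ⟨q1, q2⟩ := hCF.sq1 D.w2 _ (D.w2.loc_inf hU.2)
  rw [if_pos D.hw2, Subgroup.inf_relIndex_left, hr] at q2
  have hle : FU (D.w2.D ⊓ D.Gd (2 ^ n)) ≤ SU (D.Gd (2 ^ n)) R ⊔
      (FU (D.w2.D ⊓ D.Gd (2 ^ n))).map (powMonoidHom 2) := by
    refine count (A2 := (SU (D.Gd (2 ^ n)) R).map (powMonoidHom 2))
      (fun x hx => hx.1.mono inf_le_right) ?_ (le_antisymm ?_ ?_) q1 ?_
    · rintro _ ⟨x, hx, rfl⟩
      exact (FU _).pow_mem hx 2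
    · rintro _ ⟨⟨x, hx, rfl⟩, h⟩
      obtain ⟨s, s1, s2⟩ := one hCF D n hU _ h.1 (Units.ne_zero _)
        (fun w hw => ⟨1, fix_one, by rw [h.2 w ((r2 w).2 hw), map_one, one_pow]⟩) ⟨x, hx, rfl⟩
      have s0 : s ≠ 0 := fun e => Units.ne_zero _ (s2.trans (by simp [e]))
      exact ⟨⟨Units.mk0 s s0, ⟨s1, fun w hw => v_one (by rw [Units.val_mk0, ← s2, h.2 w hw])⟩,
        Units.ext s2.symm⟩, h⟩
    · rintro _ ⟨⟨x, hx, rfl⟩, h⟩
      exact ⟨⟨x, hx.1.mono inf_le_right, rfl⟩, h⟩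
    · refine q2.trans (le_of_eq ?_)
      rw [show Subgroup.relIndex _ _ = _ from s1]
      ring
  obtain ⟨a, ha, _, ⟨b, hb, rfl⟩, e⟩ := Subgroup.mem_sup.1 (hle (show Units.mk0 y h0 ∈ _ from hy))
  refine ⟨a, ha.1, a.ne_zero, fun w hw => ha.2 w ((r2 w).2 hw), a * b,
    (ha.1.mono inf_le_right).mul hb, ?_⟩
  have e1 : (a : Om) * b ^ 2 = y := congrArg Units.val e
  rw [← e1]
  ring

theorem three (hCF : CF) (hLAY : LAY) (D : Dat) (n : ℕ) (w : Pl) (hw : w.p ≠ 2) :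
    ∃ x, Fix (D.Gd (2 ^ n)) x ∧ x ≠ 0 ∧ ¬ w.Ev (w.D ⊓ D.Gd (2 ^ n)) x ∧
      ∀ w' : Pl, w'.p ≠ 2 → Out (D.Gd (2 ^ n)) {w} w' → w'.v x = 1 := by
  have hU := (hLAY D n).1
  obtain ⟨π, p0, p1, -⟩ := hCF.unif w _ hU.2
  obtain ⟨h, h0, hh⟩ := (hCF.cls _ hU.2).1
  obtain ⟨x, x1, x2, x3⟩ := hh w π p1
  replace x3 : ∀ w' : Pl, w'.p ≠ 2 → Out (D.Gd (2 ^ n)) {w} w' → w'.v x = 1 :=
    fun w' _ => x3 w'
  clear hh
  induction h using Nat.strong_induction_on generalizing x with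
  | _ h ih =>
    have x0 : x ≠ 0 := fun e => p1.2.1 (by
      rw [e, map_zero] at x2
      exact w.v.zero_iff.1 (pow_eq_zero_iff h0.ne' |>.1 x2.symm))
    obtain ⟨k, rfl | rfl⟩ := Nat.even_or_odd' h
    · obtain ⟨u, u1, u2, u3, u4⟩ := two hCF hLAY D n x (x1.mono inf_le_right) x0
      obtain ⟨s, s1, s2⟩ := one hCF D n hU (u * x) (u1.mul x1) (mul_ne_zero u2 x0)
        (fun w' h' => by
          by_cases ho : Out (D.Gd (2 ^ n)) {w} w'
          · exact ⟨1, fix_one, by rw [map_mul, u3 w' h', x3 w' h' ho, map_one, one_pow, one_mul]⟩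
          · simp only [Out, not_forall, Set.mem_singleton_iff, not_not] at ho
            obtain ⟨g, hg, rfl⟩ := ho
            refine ⟨π ^ k, (p0.pow k).mono inf_le_right, ?_⟩
            rw [← x1 g hg, ← p0 g hg, Pl.smul_v_apply, Pl.smul_v_apply] at x2
            rw [map_mul, u3 w' h', one_mul, x2, map_pow, ← pow_mul, mul_comm]) u4
      refine ih k (by omega) (by omega) s s1 ?_ fun w' h' ho =>
        v_one (by rw [← s2, map_mul, u3 w' h', x3 w' h' ho, one_mul])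
      refine (pow_left_inj₀ zero_le zero_le two_ne_zero).1 ?_
      rw [← map_pow, ← s2, map_mul, u3 w hw, one_mul, x2, ← pow_mul, mul_comm]
    · refine ⟨x, x1, x0, ?_, x3⟩
      rintro ⟨y, y1, y2⟩
      have y0 : y ≠ 0 := fun e => x0 (w.v.zero_iff.1 (by simp [y2, e]))
      obtain ⟨j, hj⟩ := p1.2.2.2 y y1 y0
      rw [x2, hj, ← zpow_natCast, ← zpow_natCast, ← zpow_mul] at y2
      have := p1.zpow_inj y2
      omega

end TVN

theorem t_VN (hCF : CF) (hLAY : LAY) : VN := by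
  rintro D n _ rfl
  exact ⟨TVN.one hCF D n (hLAY D n).1, TVN.two hCF hLAY D n, TVN.three hCF hLAY D n⟩

end Pool.Agent.P.MP_8b7eba_nt.R2.G
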