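import Pool.Agent.P.MP_8b7eba_nt.R2.AllE
import Pool.Agent.P.MP_8b7eba_nt.R3.ACARL
import Pool.Agent.P.MP_8b7eba_nt.R3.ACARX
import Pool.Agent.P.MP_8b7eba_nt.R3.ACCHI
import Pool.Agent.P.MP_8b7eba_nt.R3.ACH2
import Pool.Agent.P.MP_8b7eba_nt.R3.ACHEX
import Pool.Agent.P.MP_8b7eba_nt.R3.ACPRG
import Pool.Agent.P.MP_8b7eba_nt.R3.ACREP1
import Pool.Agent.P.MP_8b7eba_nt.R3.ACREP2
import Pool.Agent.P.MP_8b7eba_nt.R3.ACREPS
import Pool.Agent.P.MP_8b7eba_nt.R3.ACTOR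
import Pool.Agent.P.MP_8b7eba_nt.R3.ACTRB

/-! The statements on Heegner points of arbitrary conductor hold. -/

namespace Pool.Agent.P.MP_8b7eba_nt.R2.G

theorem g_KC : KC := t_KC

theorem g_PRG : PRG := t_PRG

theorem g_FRB : FRB := t_FRB a_CE

theorem g_ARX : ARX := t_ARX a_CE g_FRB

theorem g_ARL : ARL := t_ARL a_CB g_ARX a_LGC a_SEP2

theorem g_TRI : TRI := t_TRI a_CE

theorem g_TRS : TRS := t_TRS a_CE

theorem g_TRB : TRB := t_TRB a_CE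

theorem g_HE1 : HE1 := t_HE1 a_CE g_ARX

theorem g_H2A : H2A := t_H2A a_CE

theorem g_H2B : H2B := t_H2B a_CE

theorem g_CHI : CHI := t_CHI g_KC

theorem g_TR2 : TR2 := t_TR2 g_KC g_H2A g_H2B

theorem g_GEN2 : GEN2 := t_GEN2 a_CB g_KC g_ARX g_CHI

theorem g_TOR : TOR := t_TOR g_KC g_ARX g_CHI g_GEN2

theorem g_HEX : HEX :=
  t_HEX a_CE g_KC g_ARX g_ARL g_CHI g_GEN2 g_TRI g_TRS g_TRB g_HE1 a_HEX a_JPX

theorem g_REP1 : REP1 := t_REP1 g_KC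

theorem g_REP2 : REP2 := t_REP2 g_KC

theorem g_REPS : REPS := t_REPS a_CE g_KC g_REP1 g_REP2 t_REP3

end Pool.Agent.P.MP_8b7eba_nt.R2.G
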