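import Pool.Agent.P.MP_8b7eba_nt.R3.Defs
import Pool.Agent.P.MP_8b7eba_nt.R3.AllAY
import Pool.Agent.P.MP_8b7eba_nt.R3.ATALP
import Pool.Agent.P.MP_8b7eba_nt.R3.ATCH2
import Pool.Agent.P.MP_8b7eba_nt.R3.ATDATX
import Pool.Agent.P.MP_8b7eba_nt.R3.ATDLG
import Pool.Agent.P.MP_8b7eba_nt.R3.ATHB
import Pool.Agent.P.MP_8b7eba_nt.R3.ATINVP
import Pool.Agent.P.MP_8b7eba_nt.R3.ATIW0
import Pool.Agent.P.MP_8b7eba_nt.R3.ATKLOC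
import Pool.Agent.P.MP_8b7eba_nt.R3.ATKPZ
import Pool.Agent.P.MP_8b7eba_nt.R3.ATKREL
import Pool.Agent.P.MP_8b7eba_nt.R3.ATKTRIV
import Pool.Agent.P.MP_8b7eba_nt.R3.ATKZ
import Pool.Agent.P.MP_8b7eba_nt.R3.ATLAY
import Pool.Agent.P.MP_8b7eba_nt.R3.ATLB
import Pool.Agent.P.MP_8b7eba_nt.R3.ATNV1
import Pool.Agent.P.MP_8b7eba_nt.R3.ATNV2
import Pool.Agent.P.MP_8b7eba_nt.R3.ATOBS
import Pool.Agent.P.MP_8b7eba_nt.R3.ATPAR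
import Pool.Agent.P.MP_8b7eba_nt.R3.ATPKOL
import Pool.Agent.P.MP_8b7eba_nt.R3.ATQB
import Pool.Agent.P.MP_8b7eba_nt.R3.ATRESK
import Pool.Agent.P.MP_8b7eba_nt.R3.ATSB
import Pool.Agent.P.MP_8b7eba_nt.R3.ATUNL
import Pool.Agent.P.MP_8b7eba_nt.R3.ATVAL
import Pool.Agent.P.MP_8b7eba_nt.R3.ATVN
import Pool.Agent.P.MP_8b7eba_nt.R3.ATZONE

/-! Block A follows from global duality and the two statements on descent. -/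

namespace Pool.Agent.P.MP_8b7eba_nt.R2.G

theorem g_DATX : DATX := t_DATX a_CF t_ALP

theorem g_PKOL : PKOL := t_PKOL a_CF a_PTAME a_PFROB a_PIX

theorem g_KTRIV : KTRIV := t_KTRIV a_CP

theorem g_CH2 : CH2 := t_CH2 a_CP (t_CHEB0 a_CP)

theorem g_DLG : DLG := t_DLG a_CF

theorem g_INVP : INVP := t_INVP a_CF g_DLG

theorem g_KPZ : KPZ := t_KPZ a_CF g_INVP

theorem g_KLOC : KLOC := t_KLOC a_CF g_INVP g_KPZ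

theorem g_KOLY : KOLY :=
  t_KOLY a_CF g_KTRIV g_INVP g_KPZ g_KLOC (t_KREL a_CF g_DLG g_INVP g_KPZ)

theorem g_NV : NV :=
  t_NV a_CF g_INVP g_KPZ g_KLOC (t_NV1 a_CF g_INVP) (t_NV2 a_CP t_ALP (t_VAL a_CP))

theorem g_LAY : LAY := t_LAY a_CF

theorem g_VN : VN := t_VN a_CF g_LAY

theorem g_IW0 : IW0 := t_IW0 a_CF g_LAY (t_ZONE a_CF g_LAY g_VN) (t_OBS a_CF g_LAY g_VN)

theorem g_PAR1 : PAR1 := t_PAR1 a_CP (t_SPLIT a_CP t_SAH2)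

theorem ck_nil (D : Dat) (k : ℕ) : ∃ j : ℕ, D.ck [] k = 2 ^ j * R3.cd D.m := by
  obtain ⟨j, hj⟩ : ∃ j, max k 1 = j + 1 := ⟨max k 1 - 1, by omega⟩
  rw [Dat.ck, hj, List.map_nil, List.prod_nil, mul_one]
  rcases (g_KC D.m D.hy.sq).2.2.2.2.2.1 with e | e | e <;> rw [e]
  · exact ⟨_, rfl⟩
  · exact ⟨j + 1, by ring⟩
  · exact ⟨j, by ring⟩

theorem core (hD : DUAL) (hI : IW) (hE : DESC) (P : Prg) (T : Tate P.w2) (r1 : R3.Rk1 T P.dm P.m)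
    (r2 : R3.Rk1 T (P.dm * P.sk) (-P.l * P.m)) :
    ¬ IsOfFinAddOrder (ZC P.l P.m (R3.cd P.m)) ∧ ∀ x y, R3.SelQ T P.dm P.m x →
      R3.SelQ T (P.dm * P.sk) (-P.l * P.m) y →
      Cob ⊤ (T.rq P.dm) x ∨ Cob ⊤ (T.rq (P.dm * P.sk)) y := by
  obtain ⟨a, ha, hp⟩ := a_ANT P.toPre
  obtain ⟨hS, H, hN, hy, hJ⟩ := g_HEX P a ha hp
  obtain ⟨D, rfl, rfl, e⟩ := g_DATX P T a ha hS
  obtain rfl := eq_of_heq e
  obtain ⟨v, h1, h2⟩ := g_KOLY D H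
  have nv := g_NV D H _ hJ h1
  have rk := t_PAR a_CP g_KTRIV hD g_CH2 (t_UNL a_CP g_KTRIV) D v h2 nv (g_PAR1 D r1 r2)
  refine ⟨fun hf => ?_, fun x y hx hy => ?_⟩
  · refine t_TOP a_CP (t_QB a_CP (t_HB a_CP g_KTRIV hD g_CH2 a_H1 a_H2) (t_HB0 a_CP)
      (t_SB a_CP hD)) D v h2 rk (t_KZ a_CP g_INVP D H _ h1 fun k => ?_) (t_LB a_CP hI hE D) nv
    obtain ⟨j, hj⟩ := ck_nil D k
    rw [g_TOR.1 D H k hN hy]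
    exact g_TR2 D.l _ D.hy.sq hf j _ hj
  · by_contra h
    exact t_RESK a_CP D x y hx (fun e => h (.inl e)) hy (fun e => h (.inr e)) rk

theorem t_HEEG (hD : DUAL) (hI : IW) (hE : DESC) : R3.HEEG := by
  intro w T l d dl sk hw hy hdl hsk r1 r2
  obtain ⟨P, rfl, rfl, rfl, rfl, rfl⟩ := g_PRG w l d dl sk hw hy hdl hsk
  obtain ⟨h1, h2⟩ := core hD hI hE P T r1 r2
  obtain ⟨ρ, S, h3, h4⟩ := g_REPS P.l P.m hy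
  exact ⟨⟨_, ρ, S, h1, fun g hg => g_TOR.2 P g hg, h3, h4⟩, h2⟩

end Pool.Agent.P.MP_8b7eba_nt.R2.G
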