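import Pool.Agent.P.MP_8b7eba_nt.R3.ADefs

/-! Statements on Kolyvagin systems and Iwasawa invariants for an arbitrary squarefree twist. -/

namespace Pool.Agent.P.MP_8b7eba_nt.R2.G

open scoped NNReal Matrix
open MP_9c97e9_nt (Pt pm Is ap Sha)
open Filter Topology Polynomial Module

/-! ### New local statements -/

/-- the unit root of Frobenius at two is five modulo eight -/
def ALP : Prop :=
  ∀ (w : Pl) (T : Tate w) (φ : GQ), w.p = 2 → w.IsFrob 1 φ → ‖T.rho φ 1 1 - 1‖ = 4⁻¹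

/-- local cohomology vanishes when a generator of tame inertia has no fixed vector -/
def SAH2 : Prop :=
  ∀ (W : Type) [NormedAddCommGroup W] [NormedSpace ℚ_[2] W] [IsUltrametricDist W]
    [FiniteDimensional ℚ_[2] W] (r : GQ → W →ₗ[ℚ_[2]] W) (w : Pl) (t : GQ) (x : GS → W),
    w.p ≠ 2 → Rep w.D r → t ∈ w.I → (∀ β : Om, β ^ 2 = w.p → t β = -β) →
    (∀ v, r t v = v → v = 0) → PZ (fun _ => w.D) r x → Cob (S1 w.D) r x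

/-- the character of the square root of two does not lift to a twisted Kummer cocycle -/
def VAL : Prop :=
  ∀ (w : Pl) (φ : GQ) (η : ℚ_[2]) (s : Om) (r : GQ → ℚ_[2] →ₗ[ℚ_[2]] ℚ_[2]) (y : GS → ℚ_[2]),
    w.p = 2 → s ^ 2 = 2 → Rep w.D r → (∀ g ∈ w.I, ∀ v, r g v = cq g * v) → w.IsFrob 1 φ →
    (∀ v, r φ v = cq φ * η * v) → 8⁻¹ < ‖η - 1‖ → PZ (fun _ => w.D) r y →
    (∀ g ∈ S1 w.D, ‖y g‖ ≤ 1) → ¬ ∀ g ∈ S1 w.I, (‖y g‖ < 1 ↔ ∀ᶠ k in UF, g k s = s)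

/-- the first layer of the tower is generated by the square root of two -/
def S2 (P : Pre) (a : GQ → ℤ_[2]) : Prop :=
  ∀ g ∈ P.GK, 2 ∣ a g → 4 ∣ (cyc g : ℤ_[2]) - 1 → 8 ∣ (cyc g : ℤ_[2]) - 1

/-- construction of the data -/
def DATX : Prop :=
  ∀ (P : Prg) (T : Tate P.w2) (a : GQ → ℤ_[2]), Anti P.toPre a → S2 P.toPre a →
    ∃ D : Dat, D.toPrg = P ∧ D.a = a ∧ HEq D.T T

/-! ### The statements of the project R2 -/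

/-- the local pairing at a Kolyvagin prime -/
def PKOL : Prop :=
  ∀ (D : Dat) (l : Kp D), (∀ g ∈ St fun k => (l.w k).D ⊓ D.GK, cS g = 1) ∧ ∃ u : ℚ_[2], u ≠ 0 ∧
    ∀ (W W' : Type) [NormedAddCommGroup W] [NormedSpace ℚ_[2] W] [IsUltrametricDist W]
      [FiniteDimensional ℚ_[2] W] [NormedAddCommGroup W'] [NormedSpace ℚ_[2] W']
      [IsUltrametricDist W'] [FiniteDimensional ℚ_[2] W'] (β : W →ₗ[ℚ_[2]] W' →ₗ[ℚ_[2]] ℚ_[2])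
      (x : GS → W) (y : GS → W'), PZ (fun k => (l.w k).D ⊓ D.GK) (fun _ => LinearMap.id) x →
      PZ (fun k => (l.w k).D ⊓ D.GK) (fun _ => LinearMap.id) y →
      PI l.w (fun k => (l.w k).D ⊓ D.GK) (fun g h => β (x g) (y h)) =
        u * (β (x l.ph) (y l.t) - β (x l.t) (y l.ph))

/-- local properties at a Kolyvagin prime -/
def KTRIV : Prop :=
  ∀ (D : Dat) (l : Kp D) (A : Type) [NormedCommRing A] [NormedAlgebra ℚ_[2] A] [IsUltrametricDist A]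
    [FiniteDimensional ℚ_[2] A] (ψ : ℤ_[2] → A), IsPsi ψ →
    (∀ g ∈ St fun k => (l.w k).D ⊓ D.GK, ∀ v, rS (D.r ψ) g v = v) ∧
    l.ph ∈ St (fun k => (l.w k).D ⊓ D.GK) ∧ l.t ∈ St (fun k => (l.w k).I ⊓ D.GK) ∧
    ∀ x, PZ (fun _ => D.GK) (D.r ψ) x → D.xt x l.ph = mv (D.T.rho tau) (x l.ph) ∧
      D.xt x l.t = -mv (D.T.rho tau) (x l.t) ∧
      ∀ n, D.Rel ψ n x → (∀ l' ∈ n, ∀ k, (l.w k).p ≠ (l'.w k).p) → x l.t = 0 ∧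
        (x l.ph = 0 → D.Rel ψ (l :: n) x)

/-- global duality, as a formula for the sum of the two kinds of local terms -/
def DUAL : Prop :=
  ∀ (D : Dat) (A : Type) [NormedCommRing A] [NormedAlgebra ℚ_[2] A] [IsUltrametricDist A]
    [FiniteDimensional ℚ_[2] A] (ψ : ℤ_[2] → A), IsPsi ψ →
    (∀ l n x y, Ok (l :: n) → D.Sel ψ n x → D.Sel ψ (l :: n) y →
      x l.ph 0 * mv (D.T.rho tau) (y l.t) 1 = x l.ph 1 * mv (D.T.rho tau) (y l.t) 0) ∧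
    ∀ s y, D.SS ψ s → D.Sel ψ [] y → ∀ t : A →ₗ[ℚ_[2]] ℚ_[2],
      PI (fun _ => D.w2) (fun _ => D.w2.D) (cupS ((LinearMap.mul ℚ_[2] A).compr₂ t) (D.th ψ 0)
        (fun g => D.ln (bar ψ) (D.xt s) g 1) fun g => D.ln ψ y g 0) = 0

/-- the Chebotarev theorem for patched classes -/
def CHEB0 : Prop :=
  ∀ (D : Dat) (n : List (Kp D)) (A : Type) [NormedCommRing A] [NormedAlgebra ℚ_[2] A]
    [IsUltrametricDist A] [FiniteDimensional ℚ_[2] A] (ψ : ℤ_[2] → A) (x y : GS → Fin 2 → A)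
    (g : GS), IsPsi ψ → PZ (fun _ => D.GK) (D.r ψ) x → PZ (fun _ => D.GK) (D.r ψ) y →
    (∀ k, D.Z (g k)) → ∃ l : Kp D, (∀ l' ∈ n, ∀ k, (l.w k).p ≠ (l'.w k).p) ∧ ∃ u : ℚ_[2], u ≠ 0 ∧
      x l.ph = u • (x g + mv (D.T.rho tau) (D.xt x g)) ∧
      y l.ph = u • (y g + mv (D.T.rho tau) (D.xt y g))

/-- choice of Kolyvagin primes -/
def CH2 : Prop :=
  ∀ (D : Dat) (n : List (Kp D)) (A : Type) [NormedCommRing A] [NormedAlgebra ℚ_[2] A]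
    [IsUltrametricDist A] [FiniteDimensional ℚ_[2] A] (ψ : ℤ_[2] → A) (x y : GS → Fin 2 → A),
    IsPsi ψ → D.Rel ψ n x → D.Rel ψ n y →
    (∀ (π : A) (j e : ℕ), Chain π j e → IsUnit (ψ 2 - 1) → π • x = 0 → π • y = 0 →
      (∀ a b : A, a • x + b • y = 0 → π ∣ a ∧ π ∣ b) →
      ∃ l : Kp D, (∀ l' ∈ n, ∀ k, (l.w k).p ≠ (l'.w k).p) ∧
        ∀ a b : A, a • x l.ph + b • y l.ph = 0 → π ∣ a ∧ π ∣ b) ∧
    ∀ ε ε' : A, (ε = 1 ∨ ε = -1) → (ε' = 1 ∨ ε' = -1) → x ≠ 0 → y ≠ 0 →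
      D.nz ψ (D.xt x) = ε • x → D.nz ψ (D.xt y) = ε' • y →
      ∃ l : Kp D, (∀ l' ∈ n, ∀ k, (l.w k).p ≠ (l'.w k).p) ∧ x l.ph ≠ 0 ∧ y l.ph ≠ 0

/-- the Kolyvagin bound -/
def HB : Prop :=
  ∀ (D : Dat) (v : List (Kp D) → KA), D.Kol v → ∀ (q : ℚ_[2][X]) (j m α : ℕ), Irreducible q →
    q.Monic → q ≠ X → α < m →
    ∀ (A : Type) [NormedCommRing A] [NormedAlgebra ℚ_[2] A] [IsUltrametricDist A]
      [FiniteDimensional ℚ_[2] A] (ψ : ℤ_[2] → A) (A' : Type) [NormedCommRing A']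
      [NormedAlgebra ℚ_[2] A'] [IsUltrametricDist A'] [FiniteDimensional ℚ_[2] A'] (ψ' : ℤ_[2] → A'),
      IsAF ψ (q ^ (j + m)) → IsAF ψ' (q ^ j) →
      aeval (ψ 1 - 1) q ^ (j + m - α - 1) • D.kap ψ (v []) ≠ 0 →
      ∀ M : Submodule A' (GS → Fin 2 → A'), FiniteDimensional ℚ_[2] M → (∀ x ∈ M, D.Sel ψ' [] x) →
        finrank ℚ_[2] M ≤ q.natDegree * (j + 2 * α)

/-- the Selmer group over the quadratic field has rank at most one -/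
def RkK (D : Dat) : Prop :=
  ∀ x y, D.Sel (fun _ => (1 : ℚ_[2])) [] x → D.Sel (fun _ => (1 : ℚ_[2])) [] y →
    ∃ a b : ℚ_[2], (a ≠ 0 ∨ b ≠ 0) ∧ a • x + b • y = 0

/-- the bound at the trivial character -/
def HB0 : Prop :=
  ∀ D : Dat, RkK D → ∀ (j : ℕ) (A : Type) [NormedCommRing A] [NormedAlgebra ℚ_[2] A]
    [IsUltrametricDist A] [FiniteDimensional ℚ_[2] A] (ψ : ℤ_[2] → A), IsAF ψ (X ^ j) →
    ∀ M : Submodule A (GS → Fin 2 → A), FiniteDimensional ℚ_[2] M → (∀ x ∈ M, D.Sel ψ [] x) →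
      finrank ℚ_[2] M ≤ j

/-- comparison of the two Selmer groups -/
def SB : Prop :=
  ∀ (D : Dat) (A : Type) [NormedCommRing A] [NormedAlgebra ℚ_[2] A] [IsUltrametricDist A]
    [FiniteDimensional ℚ_[2] A] (ψ : ℤ_[2] → A) (π : A) (j e b R : ℕ) (κ : GS → Fin 2 → A),
    IsPsi ψ → Chain π j e → b < j → D.Sel ψ [] κ → ¬ D.Str ψ (π ^ (j - b - 1) • κ) →
    (∀ M : Submodule A (GS → Fin 2 → A), FiniteDimensional ℚ_[2] M → (∀ x ∈ M, D.Sel ψ [] x) →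
      finrank ℚ_[2] M ≤ e * j + R) →
    ∀ M : Submodule A (GS → Fin 2 → A), FiniteDimensional ℚ_[2] M → (∀ x ∈ M, D.SS ψ x) →
      finrank ℚ_[2] M ≤ R + 2 * e * b

/-- the bound at one prime of the Iwasawa algebra -/
def QB : Prop :=
  ∀ (D : Dat) (v : List (Kp D) → KA), D.Kol v → RkK D → D.kap (fun _ => (1 : ℚ_[2])) (v []) = 0 →
    ∀ (q : ℚ_[2][X]) (j m i : ℕ), Irreducible q → q.Monic → i < m → m ≤ j →
    ∀ (A : Type) [NormedCommRing A] [NormedAlgebra ℚ_[2] A] [IsUltrametricDist A]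
      [FiniteDimensional ℚ_[2] A] (ψ : ℤ_[2] → A) (A' : Type) [NormedCommRing A']
      [NormedAlgebra ℚ_[2] A'] [IsUltrametricDist A'] [FiniteDimensional ℚ_[2] A'] (ψ' : ℤ_[2] → A'),
      IsAF ψ (q ^ (j + m)) → IsAF ψ' (q ^ j) →
      ¬ D.Str ψ (aeval (ψ 1 - 1) q ^ (j + m - i - 1) • D.kap ψ (v [])) →
      ∀ M : Submodule A' (GS → Fin 2 → A'), FiniteDimensional ℚ_[2] M → (∀ x ∈ M, D.SS ψ' x) →
        finrank ℚ_[2] M ≤ 2 * i * q.natDegree ∧ (q = X → finrank ℚ_[2] M + 2 ≤ 2 * i)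

/-- the lower bound for the Selmer group -/
def LBd (D : Dat) : Prop :=
  ∃ F, Dist F ∧ 4 + 4 * D.sg + 2 * D.bb ≤ F.natDegree ∧ ∀ (q : ℚ_[2][X]) (k j : ℕ), Irreducible q →
    q ^ k ∣ F → F.natDegree ≤ j →
    ∀ (A : Type) [NormedCommRing A] [NormedAlgebra ℚ_[2] A] [IsUltrametricDist A]
      [FiniteDimensional ℚ_[2] A] (ψ : ℤ_[2] → A), IsAF ψ (q ^ j) →
      ∃ M : Submodule A (GS → Fin 2 → A), FiniteDimensional ℚ_[2] M ∧ (∀ x ∈ M, D.SS ψ x) ∧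
        k * q.natDegree ≤ finrank ℚ_[2] M

/-- the localisation of the Heegner class does not vanish -/
def NVd (D : Dat) (v : KA) : Prop :=
  ∀ (A : Type) [NormedCommRing A] [NormedAlgebra ℚ_[2] A] [IsUltrametricDist A]
    [FiniteDimensional ℚ_[2] A] (ψ : ℤ_[2] → A) (f : ℚ_[2][X]), IsAF ψ f → Dist f → X ∣ f →
    3 + 2 * D.sg + D.bb ≤ f.natDegree → ¬ D.Str ψ (D.kap ψ v)

/-- the comparison of the invariants -/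
def TOP : Prop :=
  ∀ (D : Dat) (v : List (Kp D) → KA), D.Kol v → RkK D → D.kap (fun _ => (1 : ℚ_[2])) (v []) = 0 →
    LBd D → NVd D (v []) → False

/-- the Galois groups of the ring class fields at an inert prime -/
def DLG : Prop :=
  ∀ (D : Dat) (H : Heeg D.toPrg D.a) (l : Kp D) (k c q v : ℕ), q = (l.w k).p →
    v = padicValNat 2 (q + 1) → c.Coprime D.l → c ≠ 0 → ¬ q ∣ c →
    k + 1 ≤ v ∧ 2 ^ (k + 1) ∣ ap W15 q ∧ l.t k ∈ H.N c ∧ H.N (c * q) = H.N c ⊓ H.N q ∧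
    (∀ m : ℕ, l.t k ^ m ∈ H.N q ↔ 2 ^ v ∣ m) ∧
    (∀ s ∈ D.GK, dlg (H.N q) (l.t k) s < 2 ^ v ∧ (l.t k ^ dlg (H.N q) (l.t k) s)⁻¹ * s ∈ H.N q ∧
      ∀ s' ∈ D.GK, dlg (H.N q) (l.t k) (s * s') ≡
        dlg (H.N q) (l.t k) s + dlg (H.N q) (l.t k) s' [MOD 2 ^ v]) ∧
    ∀ (M : Type) [AddCommGroup M] (f : GQ → M), (∀ s ∈ D.GK, ∀ g ∈ H.N (c * q), f (s * g) = f s) →
      csum D.GK (H.N (c * q)) f =
        ∑ m ∈ Finset.range (2 ^ v), csum (H.N q) (H.N (c * q)) (fun s => f (l.t k ^ m * s)) ∧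
      csum D.GK (H.N (c * q)) f =
        csum D.GK (H.N c) (fun s => ∑ m ∈ Finset.range (2 ^ v), f (s * l.t k ^ m)) ∧
      csum (H.N c) (H.N (c * q)) f = ∑ m ∈ Finset.range (2 ^ v), f (l.t k ^ m) ∧
      ∀ f' : GQ → M, (∀ s ∈ D.GK, ∀ g ∈ H.N c, f' (s * g) = f' s) →
        csum (H.N q) (H.N (c * q)) f' = csum D.GK (H.N c) f'

/-- the derived points are invariant modulo a power of two -/
def INVP : Prop :=
  ∀ (D : Dat) (H : Heeg D.toPrg D.a) (n : List (Kp D)) (k : ℕ), Ok n →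
    ((D.ck n k).Coprime D.l ∧ D.ck n k ≠ 0 ∧
      ∀ g ∈ H.N (D.ck n k), D.ak k g = 0 ∧ g D.dm = D.dm) ∧
    (∀ j, ∀ s ∈ H.N (D.ck n k), ac s (D.PP H n k j) = D.PP H n k j) ∧
    (∀ g ∈ D.GK, ∀ j, ∃ R, (∀ s ∈ H.N (D.ck n k), ac s R = R) ∧
      2 ^ k • R = tac D.dm g (D.PP H n k (j - D.ak k g)) - D.PP H n k j) ∧
    (n = [] → ∀ g ∈ D.GK, ∀ j, tac D.dm g (D.PP H n k (j - D.ak k g)) = D.PP H n k j) ∧
    ∃ v, D.KD H n v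

/-- the Kolyvagin cochains are cocycles -/
def KPZ : Prop :=
  ∀ (D : Dat) (H : Heeg D.toPrg D.a) (n : List (Kp D)) (v : KA), Ok n → D.KD H n v →
    (∃ e : ℕ, ∀ (c i : ℕ) (P : EO), (∀ s ∈ H.N c, ac s P = P) → 2 ^ i • P = 0 → 2 ^ e • P = 0) ∧
    ∀ (A : Type) [NormedCommRing A] [NormedAlgebra ℚ_[2] A] [IsUltrametricDist A]
      [FiniteDimensional ℚ_[2] A] (ψ : ℤ_[2] → A), IsPsi ψ →
      Ap (fun _ => D.GK) (fun k g i => ∑ j ∈ Finset.range (2 ^ k), v k g j i • ψ j) (raw ψ v) ∧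
      PZ (fun _ => D.GK) (D.r ψ) (raw ψ v)

/-- the local conditions away from the Kolyvagin primes -/
def KLOC : Prop :=
  ∀ (D : Dat) (H : Heeg D.toPrg D.a) (n : List (Kp D)) (v : KA), Ok n → D.KD H n v →
    ∀ (A : Type) [NormedCommRing A] [NormedAlgebra ℚ_[2] A] [IsUltrametricDist A]
      [FiniteDimensional ℚ_[2] A] (ψ : ℤ_[2] → A), IsPsi ψ →
      (∀ (w : ℕ → Pl) (g : GS), (∀ᶠ k in UF, g k ∈ (w k).I ⊓ D.GK ∧ ¬ ((w k).p : ℤ) ∣ 30 * D.m ∧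
        ∀ l ∈ n, (w k).p ≠ (l.w k).p) → raw ψ v g = 0) ∧
      (∀ w : Pl, D.Bd w → Cob (S1 w.I) (D.r ψ) (raw ψ v)) ∧
      D.Ord ψ (raw ψ v) ∧ D.Ord (bar ψ) (D.xt (raw ψ v))

/-- the local conditions at the Kolyvagin primes -/
def KREL : Prop :=
  ∀ (D : Dat) (H : Heeg D.toPrg D.a) (n : List (Kp D)) (v : KA), Ok n → D.KD H n v →
    ∀ (A : Type) [NormedCommRing A] [NormedAlgebra ℚ_[2] A] [IsUltrametricDist A]
      [FiniteDimensional ℚ_[2] A] (ψ : ℤ_[2] → A), IsPsi ψ →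
      (∀ l ∈ n, raw ψ v l.ph = 0) ∧ ∀ l v', Ok (l :: n) → D.KD H (l :: n) v' →
        raw ψ v' l.t = mv (D.T.rho tau) (raw ψ v l.ph)

/-- existence of the Kolyvagin system -/
def KOLY : Prop :=
  ∀ (D : Dat) (H : Heeg D.toPrg D.a), ∃ v : List (Kp D) → KA, D.KD H [] (v []) ∧ D.Kol v

/-- the traces of the Heegner points -/
noncomputable def Dat.Yt (D : Dat) (H : Heeg D.toPrg D.a) (k c : ℕ) : EO :=
  csum (D.Gd (2 ^ k)) (H.N c) fun s => ac s (H.y c)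

/-- removing the primes of the twist -/
def NV1 : Prop :=
  ∀ (D : Dat) (H : Heeg D.toPrg D.a), JP H → ∃ M₀ : ℕ, ∀ k, M₀ ≤ k → ∀ s,
    s + 2 * D.sg + D.bb + 3 ≤ 2 ^ k → ¬ Kq {g | g ∈ D.w2.I ∧ 2 ^ k ∣ D.a g}
      ((fun R => ac D.gm R - R)^[s] (D.Yt H k (D.ck [] k)))

/-- a cochain with values in the group ring of a cyclic group modulo two which is divisible -/
def NV2 : Prop :=
  ∀ (D : Dat) (v : KA), (∀ k g j, ‖v k g j‖ ≤ 1) → (∀ k, Sm D.GK (v k)) →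
    (∀ (A : Type) [NormedCommRing A] [NormedAlgebra ℚ_[2] A] [IsUltrametricDist A]
      [FiniteDimensional ℚ_[2] A] (ψ : ℤ_[2] → A), IsPsi ψ →
      PZ (fun _ => D.GK) (D.r ψ) (raw ψ v) ∧ D.Ord ψ (raw ψ v)) →
    ∀ (A : Type) [NormedCommRing A] [NormedAlgebra ℚ_[2] A] [IsUltrametricDist A]
      [FiniteDimensional ℚ_[2] A] (ψ : ℤ_[2] → A) (f : ℚ_[2][X]), IsAF ψ f → Dist f → X ∣ f →
      D.Str ψ (D.kap ψ v) → ∀ᶠ k in UF, ∀ g ∈ D.w2.I, 2 ^ k ∣ D.a g → ∀ i < f.natDegree,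
        ‖∑ j ∈ Finset.range (2 ^ k), (j.choose i : ℚ_[2]) * (v k g j 0 + v k g j 1)‖ < 1

/-- the non-vanishing -/
def NV : Prop :=
  ∀ (D : Dat) (H : Heeg D.toPrg D.a) (v : KA), JP H → D.KD H [] v → NVd D v

/-- the layers of the tower -/
def LAY : Prop :=
  ∀ (D : Dat) (n : ℕ), ON (D.Gd (2 ^ n)) ∧ TC (D.Gd (2 ^ n)) ∧ (D.Gd (2 ^ n)).index = 2 ^ (n + 1) ∧
    (D.Gd (2 ^ n)).relIndex D.w2.D = 2 ^ n ∧
    (∀ g ∈ D.Gd (2 ^ n), ∃ s ∈ D.w2.I ⊓ D.Gd (2 ^ n), g * s⁻¹ ∈ D.Gd 0) ∧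
    (∀ N, ON N → ∃ m : ℕ, ∀ g ∈ D.Gd (2 ^ m), ∃ s ∈ D.w2.I ⊓ N, g * s⁻¹ ∈ D.Gd 0) ∧
    nOrb (D.Gd (2 ^ n)) {w | w.p = 2} = 2 ∧
    ((∀ p ∈ D.gp, D.np p ≤ n) →
      nOrb (D.Gd (2 ^ n)) {w | (w.p : ℤ) ∣ 30 * D.m} = 6 + 2 * D.sg ∧
      ∀ w : Pl, (w.p : ℤ) ∣ 30 * D.m → ¬ w.D ⊓ D.Gd (2 ^ n) ≤ D.Gd (2 ^ (n + 1))) ∧
    (∀ P : Finset ℕ, ∃ R : Set Pl, R.Finite ∧ (∀ w ∈ R, w.p ∈ P) ∧
      (∀ w, Out (D.Gd (2 ^ n)) R w ↔ w.p ∉ P) ∧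
      nOrb (D.Gd (2 ^ n)) R = nOrb (D.Gd (2 ^ n)) {w | w.p ∈ P}) ∧
    ∃ R : Finset Pl, R.card + 2 * D.bb ≤ 4 ∧ (∀ w ∈ R, D.Bd w) ∧
      ∀ w : Pl, D.Bd w → ∃ u ∈ D.Gd 0, u • w ∈ R

/-- the 2-units of a layer are the local square classes, and the 2-class number is odd -/
def VN : Prop :=
  ∀ (D : Dat) (n : ℕ) (U : Subgroup GQ), U = D.Gd (2 ^ n) →
    (∀ x, Fix U x → x ≠ 0 → (∀ w : Pl, w.p ≠ 2 → w.Ev (w.D ⊓ U) x) → Sq (D.w2.D ⊓ U) x → Sq U x) ∧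
    (∀ y, Fix (D.w2.D ⊓ U) y → y ≠ 0 → ∃ x, Fix U x ∧ x ≠ 0 ∧ (∀ w : Pl, w.p ≠ 2 → w.v x = 1) ∧
      Sq (D.w2.D ⊓ U) (x * y)) ∧
    ∀ w : Pl, w.p ≠ 2 → ∃ x, Fix U x ∧ x ≠ 0 ∧ ¬ w.Ev (w.D ⊓ U) x ∧
      ∀ w' : Pl, w'.p ≠ 2 → Out U {w} w' → w'.v x = 1

/-- the number of quadratic characters -/
def ZONE : Prop :=
  ∀ (D : Dat) (n : ℕ), (∀ p ∈ D.gp, D.np p ≤ n) →
    {χ | D.Cq n χ}.ncard = 2 ^ (4 + 2 * D.sg)

/-- the obstruction to lifting vanishes in the next layer -/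
def OBS : Prop :=
  ∀ (D : Dat) (n i : ℕ) (c : GQ → V2), (∀ p ∈ D.gp, D.np p ≤ n) →
    D.Zm n i c → ∃ c', D.Zm (n + 1) (i + 1) c' ∧
      ∀ g ∈ D.Gd (2 ^ (n + 1)), ‖c' g - c g‖ ≤ (2 ^ i)⁻¹

/-- the module of rigid cocycles -/
def IW0 : Prop :=
  ∀ D : Dat, ∃ X : Submodule ℚ_[2] (GQ → V2), FiniteDimensional ℚ_[2] X ∧
    finrank ℚ_[2] X = 8 + 4 * D.sg ∧ (∀ c, c ∈ X ↔ D.XC c) ∧ (∀ c ∈ X, D.Th c ∈ X) ∧
    ∃ F, Dist F ∧ ∀ c ∈ X, aeval D.Th F c = 0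

/-- the submodule with the local conditions at the bad primes -/
def IW : Prop :=
  ∀ D : Dat, ∃ X : Submodule ℚ_[2] (GQ → V2), FiniteDimensional ℚ_[2] X ∧
    4 + 4 * D.sg + 2 * D.bb ≤ finrank ℚ_[2] X ∧ (∀ c ∈ X, D.XC c ∧ D.Th c ∈ X ∧ ∀ w : Pl, D.Bd w →
      ∃ v, ∀ g ∈ w.I, c g = D.T.rho g *ᵥ v - v) ∧ ∃ F, Dist F ∧ ∀ c ∈ X, aeval D.Th F c = 0

/-- descent from the top of the tower -/
def DESC : Prop :=
  ∀ (D : Dat) (A : Type) [NormedCommRing A] [NormedAlgebra ℚ_[2] A] [IsUltrametricDist A]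
    [FiniteDimensional ℚ_[2] A] (ψ : ℤ_[2] → A), IsPsi ψ →
    ∀ M : Submodule A (GQ → Fin 2 → A), (∀ ξ ∈ M,
      (∀ t : A →ₗ[ℚ_[2]] ℚ_[2], D.XC (fun g i => t (ξ g i)) ∧ ∀ w : Pl, D.Bd w →
        ∃ v, ∀ g ∈ w.I, (fun i => t (ξ g i)) = D.T.rho g *ᵥ v - v) ∧
      ∀ g, ξ (D.gm * g * D.gm⁻¹) = D.r ψ D.gm (ξ g)) →
      ∃ L : M →ₗ[A] GS → Fin 2 → A, Function.Injective L ∧ ∀ ξ, D.SS ψ (L ξ)

/-- the lower bound -/
def LB : Prop := ∀ D : Dat, LBd D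

/-- decomposition of the Selmer group over the quadratic field -/
def SPLIT : Prop :=
  ∀ (D : Dat) (x : GS → V2), D.Sel (fun _ => (1 : ℚ_[2])) [] x → ∃ xp xm,
    R3.SelQ D.T D.dm D.m xp ∧ R3.SelQ D.T (D.dm * D.sk) (-D.l * D.m) xm ∧ ∀ g ∈ S1 D.GK,
      xp g = x g + D.nz (fun _ => (1 : ℚ_[2])) ((sd D.dm tau : ℚ_[2]) • D.xt x) g ∧
      xm g = x g - D.nz (fun _ => (1 : ℚ_[2])) ((sd D.dm tau : ℚ_[2]) • D.xt x) g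

/-- the class of a torsion point vanishes -/
def KZ : Prop :=
  ∀ (D : Dat) (H : Heeg D.toPrg D.a) (v : KA), D.KD H [] v →
    (∀ k, IsOfFinAddOrder (∑ j, D.PP H [] k j)) → D.kap (fun _ => (1 : ℚ_[2])) v = 0

/-- the two eigenspaces of the Selmer group -/
def Eig (D : Dat) : Prop :=
  ∀ ε : ℚ_[2], (ε = 1 ∨ ε = -1) → ∀ x y, D.Sel (fun _ => (1 : ℚ_[2])) [] x →
    D.Sel (fun _ => (1 : ℚ_[2])) [] y → D.nz (fun _ => (1 : ℚ_[2])) (D.xt x) = ε • x →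
    D.nz (fun _ => (1 : ℚ_[2])) (D.xt y) = ε • y → ∃ a b : ℚ_[2], (a ≠ 0 ∨ b ≠ 0) ∧ a • x + b • y = 0

/-- both eigenspaces have rank at most one -/
def PAR1 : Prop :=
  ∀ D : Dat, R3.Rk1 D.T D.dm D.m → R3.Rk1 D.T (D.dm * D.sk) (-D.l * D.m) → Eig D

/-- a class which is not ramified at a Kolyvagin prime -/
def UNL : Prop :=
  ∀ (D : Dat) (l : Kp D) (y : GS → V2), D.Sel (fun _ => (1 : ℚ_[2])) [l] y → y l.t = 0 →
    D.Sel (fun _ => (1 : ℚ_[2])) [] y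

/-- parity -/
def PAR : Prop :=
  ∀ (D : Dat) (v : List (Kp D) → KA), D.Kol v → NVd D (v []) → Eig D → RkK D

/-- restriction to the quadratic field -/
def RESK : Prop :=
  ∀ (D : Dat) (x y : GS → V2), R3.SelQ D.T D.dm D.m x → ¬ Cob ⊤ (D.T.rq D.dm) x →
    R3.SelQ D.T (D.dm * D.sk) (-D.l * D.m) y → ¬ Cob ⊤ (D.T.rq (D.dm * D.sk)) y → ¬ RkK D

end Pool.Agent.P.MP_8b7eba_nt.R2.G
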