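import Pool.Agent.P.MP_8b7eba_nt.R3.ASel

/-! Tame inertia at the odd primes of the twist. -/

namespace Pool.Agent.P.MP_8b7eba_nt.R2.G

open scoped NNReal Matrix

theorem unip_sq (hC : CF) {w₂ w : Pl} (T : Tate w₂) (h2 : w.p ≠ 2) {s : GQ} (hs : s ∈ w.I) :
    (T.rho s - 1) * (T.rho s - 1) = 0 := by
  by_cases a15 : w.p ∣ 15
  · obtain ⟨e, -, -, -, h, -⟩ := hC.unip _ T w a15
    refine Matrix.ext_iff_mulVec.2 fun v => ?_
    obtain ⟨c, hc⟩ := (h s hs).2 v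
    rw [← Matrix.mulVec_mulVec, Matrix.sub_mulVec _ _ v, Matrix.one_mulVec, hc, Matrix.mulVec_smul,
      Matrix.sub_mulVec, (h s hs).1, Matrix.one_mulVec, sub_self, smul_zero, Matrix.zero_mulVec]
  · have h30 : ¬ w.p ∣ 30 := fun a => by
      rcases (Nat.Prime.dvd_mul w.prime).1 (show w.p ∣ 2 * 15 from a) with a | a
      · exact h2 ((Nat.prime_dvd_prime_iff_eq w.prime Nat.prime_two).1 a)
      · exact a15 a
    rw [(hC.tr _ T _ h30).1 _ hs, sub_self, mul_zero]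

/-- a generator of tame inertia moves the square root of a squarefree multiple of the prime -/
theorem gen_sd (hC : CF) {w : Pl} {δ : Om} {m : ℤ} (hδ : δ ^ 2 = m) (hm : Squarefree m)
    (h2 : w.p ≠ 2) (hw : (w.p : ℤ) ∣ m) {s : GQ} (hs : s ∈ w.I)
    (hs' : ∀ β : Om, β ^ 2 = w.p → s β = -β) : sd δ s = -1 := by
  have hp : Prime (w.p : ℤ) := Nat.prime_iff_prime_int.1 w.prime
  obtain ⟨n, hn⟩ := hw
  have h3 : s δ = -δ := Pl.gen_move hC.tame hC.res h2 hs hs' (m := n)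
    (by rw [hδ, hn]; push_cast; rfl) fun e => hp.not_isUnit (hm _ (hn ▸ mul_dvd_mul_left _ e))
  refine sd_eq_neg.2 fun e => hm.ne_zero ?_
  have h4 : δ = 0 := by
    rw [e] at h3
    linear_combination (1 / 2 : Om) * h3
  rw [h4, zero_pow two_ne_zero] at hδ
  exact_mod_cast hδ.symm

variable {A : Type} [NormedCommRing A] [NormedAlgebra ℚ_[2] A]

theorem neg_fix {B : Mt} (hB : (B - 1) * (B - 1) = 0) {v : Fin 2 → A} (h : mv B v = -v) : v = 0 := by
  have h1 : mv (B - 1) v = (-2 : ℚ_[2]) • v := by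
    rw [← SelB.mv_sub_one, h]
    module
  have h2 := mv_mul (B - 1) (B - 1) v
  rw [hB, h1, LinearMap.map_smul_of_tower, h1, smul_smul, ← zero_smul ℚ_[2] (1 : Mt), mv_smul,
    zero_smul] at h2
  exact (smul_eq_zero.1 h2.symm).resolve_left (by norm_num)

theorem rd_ram (hC : CF) {w₂ w : Pl} (T : Tate w₂) {δ : Om} {m : ℤ} (hδ : δ ^ 2 = m)
    (hm : Squarefree m) (h2 : w.p ≠ 2) (hw : (w.p : ℤ) ∣ m) {s : GQ} (hs : s ∈ w.I)
    (hs' : ∀ β : Om, β ^ 2 = w.p → s β = -β) {v : Fin 2 → A} (h : mv (T.rd δ s) v = v) : v = 0 := by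
  rw [Tate.rd, gen_sd hC hδ hm h2 hw hs hs', mv_smul] at h
  refine neg_fix (unip_sq hC T h2 hs) ?_
  rw [← neg_eq_iff_eq_neg]
  simpa using h

end Pool.Agent.P.MP_8b7eba_nt.R2.G
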