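import Pool.Agent.P.MP_8b7eba_nt.R3.AIf
import Pool.Agent.P.MP_8b7eba_nt.R2.SelB

/-! The representations and formal properties of the Selmer groups. -/

namespace Pool.Agent.P.MP_8b7eba_nt.R2.G

open scoped NNReal Matrix
open Filter Topology

theorem Prg.fix_dm (P : Prg) : Fix ⊤ (P.dm ^ 2) := by
  rw [P.hdm]
  exact fix_int _

theorem Prg.dm_ne (P : Prg) : P.dm ≠ 0 ∧ P.sk ≠ 0 ∧ P.m ≠ 0 := by
  have hd : P.m ≠ 0 := P.hy.sq.ne_zero
  refine ⟨fun h => hd ?_, P.dl_ne.2.1, hd⟩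
  have := P.hdm
  rw [h, zero_pow two_ne_zero] at this
  exact_mod_cast this.symm

theorem Prg.mcop (P : Prg) : IsCoprime P.m P.l := by
  refine ((Nat.prime_iff_prime_int.1 P.lp).coprime_iff_not_dvd.2 fun hl => ?_).symm
  have := P.hy.spl P.l P.lp (by have := P.l16; omega) (hl.mul_left 15)
  rw [jacobiSym.mod_left, Int.emod_eq_zero_of_dvd (dvd_neg.2 dvd_rfl),
    jacobiSym.zero_left P.lp.one_lt] at this
  exact zero_ne_one this

theorem Prg.mem_gp {P : Prg} {p : ℕ} : p ∈ P.gp ↔ p.Prime ∧ (p : ℤ) ∣ P.m ∧ ¬ p ∣ 30 := by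
  rw [Prg.gp, Finset.mem_filter, Nat.mem_primeFactors, ← Int.natCast_dvd, and_assoc, and_assoc,
    and_iff_right (Int.natAbs_ne_zero.2 P.dm_ne.2.2)]

/-- the odd part of the twist -/
theorem Prg.od_spec (P : Prg) : Odd (R3.od P.m) ∧ Squarefree (R3.od P.m) ∧
    (R3.od P.m : ℤ) ∣ P.m ∧ ∀ p : ℕ, p.Prime → p ≠ 2 → (p : ℤ) ∣ P.m → p ∣ R3.od P.m := by
  have h := Int.squarefree_natAbs.2 P.hy.sq
  have h4 : ¬ 2 * 2 ∣ P.m.natAbs := fun e => by simpa using h 2 e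
  simp only [Int.natCast_dvd, R3.od]
  split_ifs with e
  · obtain ⟨k, hk⟩ : 2 ∣ P.m.natAbs := by omega
    rw [hk] at h h4 ⊢
    rw [Nat.mul_div_cancel_left _ two_pos]
    exact ⟨Nat.odd_iff.2 (by omega), h.of_mul_right, dvd_mul_left _ _, fun p hp h2 e =>
      (hp.dvd_mul.1 e).resolve_left fun e' => h2 ((Nat.prime_dvd_prime_iff_eq hp Nat.prime_two).1 e')⟩
  · exact ⟨Nat.odd_iff.2 (by omega), h, dvd_rfl, fun _ _ _ e => e⟩

theorem Dat.det_ne (D : Dat) : (D.T.rd D.dm D.f2 - 1).det ≠ 0 := by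
  rw [Matrix.det_fin_two, Matrix.sub_apply _ _ 1 0, SelA.rd_up D.T D.dm D.fD]
  simpa [sub_eq_zero] using ⟨D.fne 0, D.fne 1⟩

theorem Dat.mem_Gd {D : Dat} {m : ℤ_[2]} {g : GQ} : g ∈ D.Gd m ↔ g ∈ D.GK ∧ m ∣ D.a g := Iff.rfl

theorem Dat.D_le (D : Dat) : D.w2.D ≤ D.GK := by
  refine D.spD _ ?_
  rw [D.hw2]
  exact Dvd.dvd.mul_right (by norm_num) _

theorem Dat.ak_mul (D : Dat) (k : ℕ) {g h : GQ} (hg : g ∈ D.GK) (hh : h ∈ D.GK) :
    D.ak k (g * h) = D.ak k g + D.ak k h := by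
  rw [Dat.ak, D.an.add g hg h hh, map_add]
  rfl

theorem Dat.ak_eq_zero (D : Dat) {k : ℕ} {g : GQ} : D.ak k g = 0 ↔ 2 ^ k ∣ D.a g := by
  rw [Dat.ak, ← RingHom.mem_ker, PadicInt.ker_toZModPow, Ideal.mem_span_singleton]
  rfl

variable {A A' : Type} [NormedCommRing A] [NormedAlgebra ℚ_[2] A] [NormedCommRing A']
  [NormedAlgebra ℚ_[2] A'] {ψ : ℤ_[2] → A} {ψ' : ℤ_[2] → A'} {D : Dat} {n : List (Kp D)}
  {x y : GS → Fin 2 → A}

theorem Dat.r_apply (g : GQ) (v : Fin 2 → A) : D.r ψ g v = ψ (D.a g) • mv (D.T.rd D.dm g) v := rfl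

theorem Dat.r_one (D : Dat) : D.r (fun _ => (1 : ℚ_[2])) = D.T.rq D.dm := by
  funext g
  exact LinearMap.ext fun v => by rw [Dat.r_apply, one_smul, mv_rat, Tate.rq_apply]

theorem Dat.xt_add (x y : GS → Fin 2 → A) : D.xt (x + y) = D.xt x + D.xt y :=
  funext fun _ => map_add (mv _) _ _

theorem Dat.xt_smul (a : A) (x : GS → Fin 2 → A) : D.xt (a • x) = a • D.xt x :=
  funext fun _ => map_smul (mv _) _ _

theorem Dat.xt_xt (hA : CA) (x : GS → Fin 2 → A) : D.xt (D.xt x) = x := by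
  funext g
  rw [Dat.xt, Dat.xt, ← mv_mul, (D.T.tau hA.tau hA.ec).1, mv_one]
  congr 1
  funext k
  change tau * (tau * g k * tau) * tau = g k
  rw [← mul_assoc, ← mul_assoc, hA.tau.2.1, one_mul, mul_assoc, hA.tau.2.1, mul_one]

theorem SelA.th_apply (i : Fin 2) (g : GQ) (a : A) :
    D.th ψ i g a = (D.T.rd D.dm g i i • ψ (D.a g)) * a := rfl

theorem SelA.psi_sm (D : Dat) (h : IsPsi ψ) {ε : ℝ} (hε : 0 < ε) : ∃ N, ON N ∧ ∀ g ∈ D.GK, g ∈ N →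
    ‖ψ (D.a g) - 1‖ ≤ ε ∧ ∀ i j, ‖(D.T.rd D.dm g - 1) i j‖ ≤ ε := by
  obtain ⟨k, hk⟩ := h.near hε
  obtain ⟨N, h1, h2⟩ := D.an.sm k
  obtain ⟨N', h3, h4⟩ := SelA.rd_sm D.T D.dm hε
  exact ⟨_, h1.inf h3, fun g hg m =>
    ⟨h.zero ▸ hk _ _ (by simpa using h2 g hg m.1), h4 g m.2⟩⟩

theorem SelA.psi_pow (D : Dat) (h : IsPsi ψ) {g : GQ} (hg : g ∈ D.GK) {ε : ℝ} (hε : 0 < ε) :
    ∃ k : ℕ, ‖ψ (D.a (g ^ 2 ^ k)) - 1‖ ≤ ε ∧ ∀ i j, ‖(D.T.rd D.dm (g ^ 2 ^ k) - 1) i j‖ ≤ ε := by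
  obtain ⟨k, hk⟩ := h.near hε
  obtain ⟨m, h1, h2⟩ := ((eventually_ge_atTop k).and (SelA.rd_pow D.T D.fix_dm g hε)).exists
  refine ⟨m, h.zero ▸ hk _ _ ?_, h2⟩
  rw [D.an.pow hg, sub_zero]
  push_cast
  exact (pow_dvd_pow _ h1).mul_right _

variable [IsUltrametricDist A] [FiniteDimensional ℚ_[2] A] [IsUltrametricDist A']
  [FiniteDimensional ℚ_[2] A']

theorem Dat.rep (D : Dat) (h : IsPsi ψ) : Rep D.GK (D.r ψ) := by
  refine ⟨fun v => by rw [Dat.r_apply, SelA.rd_fix D.T rfl, map_one, mv_one, D.an.one, h.zero,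
    one_smul], fun g hg g' hg' v => ?_, fun g v => ?_, fun ε hε => ?_, fun g hg ε hε => ?_⟩
  · simp only [Dat.r_apply, D.T.rd_mul D.fix_dm, mv_mul, D.an.add g hg g' hg', h.add, map_smul,
      mul_smul]
  · exact (norm_smul_le _ _).trans ((mul_le_of_le_one_left (norm_nonneg _) (h.le _)).trans
      (by simpa using SelA.mv_le (SelA.rd_le D.T D.dm g) v))
  · obtain ⟨N, h1, h2⟩ := SelA.psi_sm D h hε
    exact ⟨N, h1, fun n hn m => SelA.near (h.le _) (h2 n hn m).1 (h2 n hn m).2⟩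
  · obtain ⟨k, h1, h2⟩ := SelA.psi_pow D h hg hε
    exact ⟨k, SelA.near (h.le _) h1 h2⟩

theorem Dat.rep_th (D : Dat) (h : IsPsi ψ) (i : Fin 2) : Rep D.w2.D (D.th ψ i) := by
  refine ⟨fun v => by simp [SelA.th_apply, SelA.rd_fix D.T (g := 1) rfl, D.an.one, h.zero],
    fun g hg g' hg' v => ?_, fun g v => ?_, fun ε hε => ?_, fun g hg ε hε => ?_⟩
  · have : D.T.rd D.dm (g * g') i i = D.T.rd D.dm g i i * D.T.rd D.dm g' i i := by
      rw [D.T.rd_mul D.fix_dm, Matrix.mul_apply, Fin.sum_univ_two]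
      fin_cases i <;> simp [SelA.rd_up D.T D.dm hg, SelA.rd_up D.T D.dm hg']
    simp only [SelA.th_apply, this, D.an.add g (D.D_le hg) g' (D.D_le hg'), h.add, ← mul_assoc,
      smul_mul_smul_comm]
  · refine (norm_mul_le _ _).trans (mul_le_of_le_one_left (norm_nonneg _) ?_)
    rw [norm_smul]
    exact mul_le_one₀ (SelA.rd_le _ _ _ _ _) (norm_nonneg _) (h.le _)
  · obtain ⟨N, h1, h2⟩ := SelA.psi_sm D h hε
    exact ⟨N, h1, fun n hn m => SelA.near' (h.le _) (h2 n (D.D_le hn) m).1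
      (by simpa using (h2 n (D.D_le hn) m).2 i i)⟩
  · obtain ⟨k, h1, h2⟩ := SelA.psi_pow D h (D.D_le hg) hε
    exact ⟨k, SelA.near' (h.le _) h1 (by simpa using h2 i i)⟩

theorem Dat.th_equiv (D : Dat) (h : IsPsi ψ) {g : GQ} (hg : g ∈ D.w2.D) (a b : A) :
    D.th (bar ψ) 1 g a * D.th ψ 0 g b = cq g • (a * b) := by
  have h1 : D.T.rd D.dm g 1 1 * D.T.rd D.dm g 0 0 = cq g := by
    rw [← D.T.det, Matrix.det_fin_two, D.T.up g hg]
    rcases sd_cases D.dm g with e | e <;> simp [Tate.rd, e, mul_comm]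
  rw [SelA.th_apply, SelA.th_apply, mul_mul_mul_comm, smul_mul_smul_comm, h1, bar, ← h.add,
    neg_add_cancel, h.zero, smul_mul_assoc, one_mul]

theorem Dat.rS_smul (h : IsPsi ψ) (g : GS) (a : A) (v : Fin 2 → A) :
    rS (D.r ψ) g (a • v) = a • rS (D.r ψ) g v :=
  ((D.rep h).rS_map ((a • LinearMap.id (R := A)).restrictScalars ℚ_[2]) (.of_forall fun k => by
    simp only [LinearMap.restrictScalars_apply, LinearMap.smul_apply, LinearMap.id_apply,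
      Dat.r_apply, map_smul])).symm

theorem Dat.rS_z (h : IsPsi ψ) (v : Fin 2 → A) : rS (D.r ψ) (cs D.z) v = -v := by
  rw [rS_cs, Dat.r_apply, D.za, h.zero, one_smul, Tate.rd, sd_eq_neg.2 D.zd, D.zr, mv_smul, mv_one]
  simp

theorem Dat.rS_f2 (h : IsPsi ψ) (v : Fin 2 → A) :
    rS (D.r ψ) (cs D.f2) v = mv (D.T.rd D.dm D.f2) v := by
  rw [rS_cs, Dat.r_apply, D.fa, h.zero, one_smul]

/-- sequences which act trivially in the limit -/
theorem Dat.rS_triv (h : IsPsi ψ) {g : GS}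
    (h1 : ∀ i j, Tendsto (fun k => D.T.rho (g k) i j) UF (𝓝 ((1 : Mt) i j)))
    (h2 : Tendsto (fun k => D.a (g k)) UF (𝓝 0)) (h3 : ∀ᶠ k in UF, g k D.dm = D.dm)
    (v : Fin 2 → A) : rS (D.r ψ) g v = v := by
  refine ul_eq (tendsto_pi_nhds.2 fun i => ?_)
  have := ((h.cont.tendsto 0).comp h2).mul (((h1 i 0).smul_const (v 0)).add
    ((h1 i 1).smul_const (v 1)))
  rw [← mv_apply, mv_one, h.zero, one_mul] at this
  refine this.congr' (h3.mono fun k hk => ?_)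
  simp only [Dat.r_apply, SelA.rd_fix D.T hk, Pi.smul_apply, mv_apply, smul_eq_mul,
    Function.comp_apply]

theorem Dat.rS_Z (h : IsPsi ψ) {g : GS} (hg : ∀ᶠ k in UF, D.Z (g k)) (v : Fin 2 → A) :
    rS (D.r ψ) g v = v :=
  Dat.rS_triv h (fun _ _ => tendsto_const_nhds.congr' (hg.mono fun k hk => by simp only [hk.2.1]))
    (tendsto_const_nhds.congr' (hg.mono fun _ hk => hk.2.2.1.symm)) (hg.mono fun _ hk => hk.2.2.2) v

theorem Dat.rS_one (h : IsPsi ψ) {g : GS} (hg : g ∈ S1 D.w2.D) (v : Fin 2 → A) :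
    rS (D.r ψ) g v 1 = rS (D.th ψ 1) g (v 1) :=
  (D.rep h).rS_map (LinearMap.proj 1) (Eventually.mono hg fun k hk => by
    simp [Dat.r_apply, SelA.th_apply, mv_apply, SelA.rd_up D.T D.dm hk])

theorem Dat.rS_zero (h : IsPsi ψ) {g : GS} {v : Fin 2 → A} (hv : v 1 = 0) :
    rS (D.r ψ) g v 0 = rS (D.th ψ 0) g (v 0) :=
  (D.rep h).rS_map (LinearMap.proj 0) (.of_forall fun k => by
    simp [Dat.r_apply, SelA.th_apply, mv_apply, hv])

theorem Dat.rS_tau (hA : CB) (h : IsPsi ψ) {g : GS} (hg : g ∈ S1 D.GK) (v : Fin 2 → A) :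
    mv (D.T.rho tau) (rS (D.r ψ) (cs tau * g * cs tau) v) =
      rS (D.r (bar ψ)) g (mv (D.T.rho tau) v) := by
  refine (D.rep h).rS_map ((mv (D.T.rho tau)).restrictScalars ℚ_[2])
    (Eventually.mono hg fun k hk => ?_)
  have h1 : tau⁻¹ = tau := inv_eq_of_mul_eq_one_right hA.tau.2.1
  have h2 := D.an.dih tau (hA.karith D.toPre).2.1 _ hk
  have h3 : sd D.dm (tau * g k * tau) = sd D.dm (g k) := by
    rw [sd_mul D.fix_dm, sd_mul D.fix_dm, mul_right_comm, sd_sq, one_mul]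
  rw [h1] at h2
  change mv _ (D.r ψ (tau * g k * tau) v) = D.r (bar ψ) (g k) (mv _ v)
  rw [Dat.r_apply, Dat.r_apply, h2, map_smul, ← mv_mul, ← mv_mul, Tate.rd, Tate.rd, h3,
    mul_smul_comm, smul_mul_assoc, ← map_mul, ← map_mul, ← mul_assoc, ← mul_assoc, hA.tau.2.1,
    one_mul, bar]

theorem Dat.rS_map (h : IsPsi ψ) (ν : A →ₗ[ℚ_[2]] A') (V : Ideal A)
    (hν : ∀ a, ∀ y ∈ V, ν (ψ a * y) = ψ' a * ν y) (g : GS) {v : Fin 2 → A} (hv : ∀ i, v i ∈ V) :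
    (fun i => ν (rS (D.r ψ) g v i)) = rS (D.r ψ') g (fun i => ν (v i)) ∧
      ∀ i, rS (D.r ψ) g v i ∈ V := by
  have h1 : ∀ B i, mv B v i ∈ V := fun B i => mv_apply B v i ▸
    V.add_mem (V.smul_of_tower_mem _ (hv _)) (V.smul_of_tower_mem _ (hv _))
  refine ⟨(D.rep h).rS_map (ν.compLeft (Fin 2)) (.of_forall fun k => funext fun i => ?_),
    fun i => (D.rep h).rS_mem (Submodule.pi Set.univ fun _ => V.restrictScalars ℚ_[2])
      (.of_forall fun k i _ => V.mul_mem_left _ (h1 _ i)) i trivial⟩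
  exact (hν _ _ (h1 _ i)).trans (congrArg _ (congrFun (mv_map ν _ v) i))

theorem _root_.Pool.Agent.P.MP_8b7eba_nt.R2.PZ.smulG {H : ℕ → Subgroup GQ} (h : IsPsi ψ) (hx : PZ H (D.r ψ) x) (a : A) :
    PZ H (D.r ψ) (a • x) :=
  hx.map ((a • LinearMap.id (R := A)).restrictScalars ℚ_[2]) fun g _ _ _ =>
    (Dat.rS_smul h g a _).symm

namespace SelB

open R2.SelB (tt conj_I pm mv_sub_one mv_mem)

theorem conj_mem (hA : CA) {g : GQ} (hg : g ∈ D.GK) : tau * g * tau ∈ D.GK := by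
  have := D.on.1.conj_mem g hg tau
  rwa [inv_eq_of_mul_eq_one_right (tt hA)] at this

theorem conj_S1 (hA : CA) {g : GS} (hg : g ∈ S1 D.GK) : cs tau * g * cs tau ∈ S1 D.GK :=
  hg.mono fun _ h => conj_mem hA h

theorem f2_mem : cs D.f2 ∈ S1 D.w2.D := cs_mem.2 D.fD

theorem DK : S1 D.w2.D ≤ S1 D.GK := S1_mono D.D_le

theorem unit (D : Dat) : IsUnit (D.T.rd D.dm D.f2 - 1).det := D.det_ne.isUnit

theorem right_inv (h : IsPsi ψ) (v : Fin 2 → A) :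
    rS (D.r ψ) (cs D.f2) (mv (D.T.rd D.dm D.f2 - 1)⁻¹ v) - mv (D.T.rd D.dm D.f2 - 1)⁻¹ v = v := by
  rw [Dat.rS_f2 h, mv_sub_one, ← mv_mul, Matrix.mul_nonsing_inv _ (unit D), mv_one]

theorem left_inv (h : IsPsi ψ) (v : Fin 2 → A) :
    mv (D.T.rd D.dm D.f2 - 1)⁻¹ (rS (D.r ψ) (cs D.f2) v - v) = v := by
  rw [Dat.rS_f2 h, mv_sub_one, ← mv_mul, Matrix.nonsing_inv_mul _ (unit D), mv_one]

theorem th_f2 (h : IsPsi ψ) (a : A) :
    rS (D.th ψ 1) (cs D.f2) a = D.T.rd D.dm D.f2 1 1 • a := by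
  simp [rS_cs, Dat.th, D.fa, h.zero]

omit [IsUltrametricDist A] [FiniteDimensional ℚ_[2] A] in
theorem eq_zero {a : A} (e : D.T.rd D.dm D.f2 1 1 • a = a) : a = 0 := by
  have : (D.T.rd D.dm D.f2 1 1 - 1) • a = 0 := by rw [sub_smul, e, one_smul, sub_self]
  exact (smul_eq_zero.1 this).resolve_left (sub_ne_zero.2 (D.fne 1))

omit [IsUltrametricDist A] [FiniteDimensional ℚ_[2] A] in
theorem ln_zero : D.ln ψ 0 = 0 := by
  funext g
  simp [Dat.ln, rS_zero]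

omit [IsUltrametricDist A] [FiniteDimensional ℚ_[2] A] in
theorem xt_zero : D.xt (0 : GS → Fin 2 → A) = 0 := by
  funext g
  simp [Dat.xt]

theorem bad_le {w : Pl} (hw : w.p ∣ 15) : w.I ≤ D.GK :=
  w.I_le_D.trans (D.spD w (((Int.natCast_dvd_natCast.2 hw).trans (by norm_num)).mul_right _))

end SelB

open SelB
open R2.SelB (tt conj_I pm mv_sub_one mv_mem)

/-! ### Normalisations -/

theorem Dat.nz_add (h : IsPsi ψ) (x y : GS → Fin 2 → A) :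
    D.nz ψ (x + y) = D.nz ψ x + D.nz ψ y := by
  funext g
  simp only [Dat.nz, Pi.add_apply, (D.rep h).rS_add]
  split_ifs
  · module
  · exact (add_zero _).symm

theorem Dat.nz_smul (h : IsPsi ψ) (a : A) (x : GS → Fin 2 → A) :
    D.nz ψ (a • x) = a • D.nz ψ x := by
  funext g
  simp only [Dat.nz, Pi.smul_apply, Dat.rS_smul h]
  split_ifs
  · rw [smul_add, ← smul_sub, smul_comm]
  · exact (smul_zero _).symm

theorem Dat.nz_z (h : IsPsi ψ) (x : GS → Fin 2 → A) : D.nz ψ x (cs D.z) = 0 := by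
  rw [Dat.nz, if_pos (cs_mem.2 D.zK), Dat.rS_z h]
  module

theorem Dat.nz_eq (x : GS → Fin 2 → A) (h : IsPsi ψ) :
    ∃ v, ∀ g ∈ S1 D.GK, D.nz ψ x g = x g + (rS (D.r ψ) g v - v) :=
  ⟨(2⁻¹ : ℚ_[2]) • x (cs D.z), fun g hg => by
    rw [Dat.nz, if_pos hg, (D.rep h).rS_smul, smul_sub]⟩

theorem Dat.nz_of_triv {g : GS} (hg : g ∈ S1 D.GK) (h1 : ∀ v, rS (D.r ψ) g v = v) :
    D.nz ψ x g = x g := by
  rw [Dat.nz, if_pos hg, h1, sub_self, smul_zero, add_zero]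

theorem Dat.nz_congr (h : IsPsi ψ) (e : Cob (S1 D.GK) (D.r ψ) (x - y)) : D.nz ψ x = D.nz ψ y := by
  obtain ⟨v, hv⟩ := e
  have hz := eq_add_of_sub_eq (hv _ (cs_mem.2 D.zK))
  funext g
  unfold Dat.nz
  split_ifs with hg
  · rw [hz, eq_add_of_sub_eq (hv g hg), Dat.rS_z h, (D.rep h).rS_add, (D.rep h).rS_sub,
      (D.rep h).rS_neg]
    module
  · rfl

theorem Dat.nz_self (h1 : x (cs D.z) = 0) (h2 : ∀ g, g ∉ S1 D.GK → x g = 0) : D.nz ψ x = x := by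
  funext g
  unfold Dat.nz
  split_ifs with hg
  · rw [h1, R2.rS_zero, sub_self, smul_zero, add_zero]
  · exact (h2 g hg).symm

theorem _root_.Pool.Agent.P.MP_8b7eba_nt.R2.PZ.nzG (h : IsPsi ψ) (hx : PZ (fun _ => D.GK) (D.r ψ) x) :
    PZ (fun _ => D.GK) (D.r ψ) (D.nz ψ x) :=
  (Dat.nz_eq x h).elim fun v hv =>
    (hx.add (D.rep h) (pz_cob (D.rep h) (fun _ => le_rfl) v)).congr hv

theorem _root_.Pool.Agent.P.MP_8b7eba_nt.R2.PZ.xtG (hA : CB) (h : IsPsi ψ) (hx : PZ (fun _ => D.GK) (D.r ψ) x) :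
    PZ (fun _ => D.GK) (D.r (bar ψ)) (D.xt x) := by
  obtain ⟨⟨c, hc⟩, h2⟩ := hx
  have hc' : Ap (fun _ => D.GK) (fun k g => c k (tau * g * tau))
      fun g => x (cs tau * g * cs tau) :=
    ⟨hc.bd.imp fun _ hB _ _ => hB _ _, fun k => (hc.uc k).conj _ _ (tt hA.toCA)
      fun _ => conj_mem hA.toCA, fun g hg => hc.lim _ (conj_S1 hA.toCA hg)⟩
  refine ⟨⟨_, hc'.map ((mv (D.T.rho tau)).restrictScalars ℚ_[2])⟩, fun g hg g' hg' => ?_⟩
  have e : cs tau * (g * g') * cs tau = cs tau * g * cs tau * (cs tau * g' * cs tau) := by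
    rw [mul_assoc _ (cs tau) (_ * _), ← mul_assoc (cs tau) (_ * _), ← mul_assoc (cs tau) (cs tau),
      ← cs_mul, tt hA.toCA, cs_one, one_mul, ← mul_assoc, ← mul_assoc]
  rw [Dat.xt, e, h2 _ (conj_S1 hA.toCA hg) _ (conj_S1 hA.toCA hg'), map_add, Dat.rS_tau hA h hg]
  rfl

theorem _root_.Pool.Agent.P.MP_8b7eba_nt.R2.Cob.xtG (hA : CB) (h : IsPsi ψ) {S S' : Subgroup GS} (hS : S' ≤ S1 D.GK)
    (e : ∀ g ∈ S', cs tau * g * cs tau ∈ S) (hx : Cob S (D.r ψ) x) :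
    Cob S' (D.r (bar ψ)) (D.xt x) :=
  hx.elim fun v hv => ⟨mv (D.T.rho tau) v, fun g hg => by
    rw [Dat.xt, hv _ (e g hg), map_sub, Dat.rS_tau hA h (hS hg)]⟩

theorem Dat.ln_add (h : IsPsi ψ) (x y : GS → Fin 2 → A) :
    D.ln ψ (x + y) = D.ln ψ x + D.ln ψ y := by
  funext g
  simp only [Dat.ln, Pi.add_apply, map_add, (D.rep h).rS_add]
  abel

theorem Dat.ln_smul (h : IsPsi ψ) (a : A) (x : GS → Fin 2 → A) :
    D.ln ψ (a • x) = a • D.ln ψ x := by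
  funext g
  simp only [Dat.ln, Pi.smul_apply, map_smul, Dat.rS_smul h, smul_sub]

theorem Dat.ln_f2 (h : IsPsi ψ) (x : GS → Fin 2 → A) : D.ln ψ x (cs D.f2) = 0 := by
  rw [Dat.ln, right_inv h, sub_self]

theorem Dat.ln_congr (h : IsPsi ψ) (e : Cob (S1 D.w2.D) (D.r ψ) (x - y)) {g : GS}
    (hg : g ∈ S1 D.w2.D) : D.ln ψ x g = D.ln ψ y g := by
  obtain ⟨v, hv⟩ := e
  rw [Dat.ln, Dat.ln, eq_add_of_sub_eq (hv g hg), eq_add_of_sub_eq (hv _ f2_mem), map_add,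
    left_inv h, (D.rep h).rS_add]
  abel

theorem Dat.ln_nz (h : IsPsi ψ) {g : GS} (hg : g ∈ S1 D.w2.D) :
    D.ln ψ (D.nz ψ x) g = D.ln ψ x g :=
  (Dat.nz_eq x h).elim fun v hv =>
    Dat.ln_congr h ⟨v, fun g hg => sub_eq_of_eq_add' (hv g (DK hg))⟩ hg

theorem Dat.ln_xt_nz (hA : CB) (h : IsPsi ψ) {g : GS} (hg : g ∈ S1 D.w2.D) :
    D.ln (R2.bar ψ) (D.xt (D.nz ψ x)) g = D.ln (R2.bar ψ) (D.xt x) g := by
  obtain ⟨v, hv⟩ := Dat.nz_eq (D := D) x h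
  obtain ⟨u, hu⟩ := Cob.xtG (x := D.nz ψ x - x) hA h DK (fun g hg => conj_S1 hA.toCA (DK hg))
    ⟨v, fun g hg => sub_eq_of_eq_add' (hv g hg)⟩
  exact Dat.ln_congr h.bar ⟨u, fun g hg => (map_sub (mv _) _ _).symm.trans (hu g hg)⟩ hg

theorem _root_.Pool.Agent.P.MP_8b7eba_nt.R2.PZ.lnG {H : ℕ → Subgroup GQ} (h : IsPsi ψ) (hH : ∀ k, H k ≤ D.GK) (hx : PZ H (D.r ψ) x) :
    PZ H (D.r ψ) (D.ln ψ x) :=
  hx.sub (D.rep h) (pz_cob (D.rep h) hH _)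

theorem Dat.str_iff (h : IsPsi ψ) : D.Str ψ x ↔ Cob (S1 D.w2.D) (D.r ψ) x :=
  ⟨fun e => ⟨_, fun g hg => sub_eq_zero.1 (e g hg)⟩, fun e g hg =>
    (Dat.ln_congr (y := 0) h (by rwa [sub_zero]) hg).trans (congrFun ln_zero g)⟩

theorem Dat.ord_iff (h : IsPsi ψ) :
    D.Ord ψ x ↔ ∃ v, ∀ g ∈ S1 D.w2.D, (x g - (rS (D.r ψ) g v - v)) 1 = 0 := by
  refine ⟨fun e => ⟨_, e⟩, fun ⟨v, hv⟩ g hg => ?_⟩
  rw [Dat.ln_congr (y := fun g => x g - (rS (D.r ψ) g v - v)) h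
    ⟨v, fun _ _ => sub_sub_cancel _ _⟩ hg]
  have e := congrFun (right_inv (D := D) h (x (cs D.f2) - (rS (D.r ψ) (cs D.f2) v - v))) 1
  rw [hv _ f2_mem, Pi.sub_apply, Dat.rS_one h f2_mem, th_f2 h, sub_eq_zero] at e
  rw [Dat.ln, Pi.sub_apply, hv g hg, Pi.sub_apply, Dat.rS_one h hg, eq_zero e, R2.rS_zero,
    sub_self, sub_self]

/-- the ordinary condition may be tested on commutators -/
theorem Dat.ord_of_comm (h : IsPsi ψ) (hx : PZ (fun _ => D.w2.D) (D.r ψ) x)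
    (e : ∀ g ∈ S1 D.w2.D, x (g * cs D.f2 * g⁻¹ * (cs D.f2)⁻¹) 1 = 0) : D.Ord ψ x := by
  intro g hg
  have R := D.rep_th h 1
  have hi := inv_mem hg
  have h1 := mul_mem (mul_mem hg f2_mem) hi
  have h2 : ∀ a, rS (D.th ψ 1) (g * cs D.f2 * g⁻¹) a = D.T.rd D.dm D.f2 1 1 • a := fun a => by
    rw [R.rS_mul (mul_mem hg f2_mem) hi, R.rS_mul hg f2_mem, th_f2 h, R.rS_smul, ← R.rS_mul hg hi,
      mul_inv_cancel, R.rS_one]
  have h3 := congrFun ((hx.lnG h fun _ => D.D_le).comm (D.rep h) (fun _ => D.D_le) hg f2_mem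
    (Dat.ln_f2 h x)) 1
  rw [Pi.sub_apply, Dat.rS_one h h1, h2, Dat.ln, Pi.sub_apply, e g hg, Pi.sub_apply,
    Dat.rS_one h (mul_mem h1 (inv_mem f2_mem)), R.rS_mul h1 (inv_mem f2_mem), h2, ← th_f2 h,
    ← R.rS_mul f2_mem (inv_mem f2_mem), mul_inv_cancel, R.rS_one, sub_self, sub_self] at h3
  exact eq_zero (sub_eq_zero.1 h3.symm).symm

theorem _root_.Pool.Agent.P.MP_8b7eba_nt.R2.PZ.one_thG (h : IsPsi ψ) (hx : PZ (fun _ => D.w2.D) (D.r ψ) x) :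
    PZ (fun _ => D.w2.D) (D.th ψ 1) fun g => x g 1 :=
  hx.map (LinearMap.proj 1) fun _ hg _ _ => Dat.rS_one h hg _

theorem _root_.Pool.Agent.P.MP_8b7eba_nt.R2.PZ.zero_thG (h : IsPsi ψ) (hx : PZ (fun _ => D.w2.D) (D.r ψ) x)
    (e : ∀ g ∈ S1 D.w2.D, x g 1 = 0) : PZ (fun _ => D.w2.D) (D.th ψ 0) fun g => x g 0 :=
  hx.map (LinearMap.proj 0) fun _ _ g' hg' => Dat.rS_zero h (e g' hg')

/-- a normalised cocycle is determined by its values on the elements which act trivially -/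
theorem Dat.Rel.eq_zero (h : IsPsi ψ) (hx : D.Rel ψ n x) (e : ∀ g : GS, (∀ k, D.Z (g k)) → x g = 0) :
    x = 0 := by
  funext g
  by_cases hg : g ∈ S1 D.GK
  swap
  · exact hx.off g hg
  obtain ⟨g', h1, h2⟩ := St_exists hg
  have R := D.rep h
  have hg' : g' ∈ S1 D.GK := Eventually.of_forall h1
  have hz : cs D.z ∈ S1 D.GK := cs_mem.2 D.zK
  have h3 := hx.pz.comm R (fun _ => le_rfl) hg' hz hx.nz
  rw [R.rS_mul (mul_mem hg' hz) (inv_mem hg'), R.rS_mul hg' hz, Dat.rS_z h, R.rS_neg,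
    ← R.rS_mul hg' (inv_mem hg'), mul_inv_cancel, R.rS_one, hx.pz.germ hg h2, sub_neg_eq_add,
    ← two_smul ℚ_[2], e, eq_comm, smul_eq_zero] at h3
  · exact h3.resolve_left two_ne_zero
  intro k
  have hc := mul_mem (mul_mem (h1 k) D.zK) (inv_mem (h1 k))
  refine ⟨mul_mem hc (inv_mem D.zK), ?_, ?_, ?_⟩
  · change D.T.rho (g' k * D.z * (g' k)⁻¹ * D.z⁻¹) = 1
    rw [map_mul, map_mul, map_mul, D.zr, mul_one, ← map_mul, mul_inv_cancel, map_one, ← D.zr,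
      ← map_mul, mul_inv_cancel, map_one, D.zr]
  · change D.a (g' k * D.z * (g' k)⁻¹ * D.z⁻¹) = 0
    rw [D.an.add _ hc _ (inv_mem D.zK), D.an.conj (h1 k) D.zK, D.an.inv D.zK, add_neg_cancel]
  · change g' k (D.z ((g' k)⁻¹ (D.z⁻¹ D.dm))) = D.dm
    obtain a | a := pm D.fix_dm (g' k) <;> obtain b | b := pm D.fix_dm D.z <;>
      simp only [a.1, a.2, b.1, b.2, map_neg, neg_neg]

/-! ### Modules -/

theorem Dat.rel_zero (h : IsPsi ψ) : D.Rel ψ n 0 :=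
  ⟨pz_zero, fun _ _ => rfl, rfl, fun _ _ _ => rfl,
    fun _ _ => ⟨0, fun g _ => by rw [R2.rS_zero, sub_self]; rfl⟩, fun _ _ => rfl⟩

theorem Dat.Rel.add (h : IsPsi ψ) (hx : D.Rel ψ n x) (hy : D.Rel ψ n y) : D.Rel ψ n (x + y) :=
  ⟨hx.pz.add (D.rep h) hy.pz, fun g hg => by rw [Pi.add_apply, hx.off g hg, hy.off g hg, add_zero],
    by rw [Pi.add_apply, hx.nz, hy.nz, add_zero],
    fun w g hg => by rw [Pi.add_apply, hx.unr w g hg, hy.unr w g hg, add_zero],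
    fun w hw => (hx.bad w hw).add (D.rep h) (hy.bad w hw),
    fun l hl => by rw [Pi.add_apply, hx.tr l hl, hy.tr l hl, add_zero]⟩

theorem Dat.Rel.smul (h : IsPsi ψ) (hx : D.Rel ψ n x) (a : A) : D.Rel ψ n (a • x) :=
  ⟨hx.pz.smulG h a, fun g hg => by rw [Pi.smul_apply, hx.off g hg, smul_zero],
    by rw [Pi.smul_apply, hx.nz, smul_zero],
    fun w g hg => by rw [Pi.smul_apply, hx.unr w g hg, smul_zero],
    fun w hw => (hx.bad w hw).elim fun v hv => ⟨a • v, fun g hg => by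
      rw [Pi.smul_apply, hv g hg, Dat.rS_smul h, smul_sub]⟩,
    fun l hl => by rw [Pi.smul_apply, hx.tr l hl, smul_zero]⟩

theorem Dat.exists_sel (h : IsPsi ψ) (n : List (Kp D)) :
    ∃ M : Submodule A (GS → Fin 2 → A), ∀ x, x ∈ M ↔ D.Sel ψ n x := by
  have add : ∀ {φ : ℤ_[2] → A} {x y}, IsPsi φ → D.Ord φ x → D.Ord φ y → D.Ord φ (x + y) :=
    fun h hx hy g hg => by
      rw [Dat.ln_add h, Pi.add_apply, Pi.add_apply, hx g hg, hy g hg, add_zero]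
  have smul : ∀ {φ : ℤ_[2] → A} {x} (a : A), IsPsi φ → D.Ord φ x → D.Ord φ (a • x) :=
    fun a h hx g hg => by rw [Dat.ln_smul h, Pi.smul_apply, Pi.smul_apply, hx g hg, smul_zero]
  exact ⟨⟨⟨⟨{x | D.Sel ψ n x}, fun hx hy => ⟨hx.1.add h hy.1, add h hx.2.1 hy.2.1,
    Dat.xt_add (A := A) (D := D) _ _ ▸ add h.bar hx.2.2 hy.2.2⟩⟩, Dat.rel_zero h,
    fun g _ => by rw [ln_zero]; rfl, fun g _ => by rw [xt_zero, ln_zero]; rfl⟩, fun a x hx =>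
    ⟨hx.1.smul h a, smul a h hx.2.1, Dat.xt_smul (D := D) a x ▸ smul a h.bar hx.2.2⟩⟩,
    fun _ => Iff.rfl⟩

theorem Dat.exists_ss (D : Dat) (h : IsPsi ψ) :
    ∃ M : Submodule A (GS → Fin 2 → A), ∀ x, x ∈ M ↔ D.SS ψ x :=
  ⟨⟨⟨⟨{x | D.SS ψ x}, fun hx hy => ⟨hx.1.add h hy.1, fun g hg => by
    rw [Dat.ln_add h, Pi.add_apply, hx.2 g hg, hy.2 g hg, add_zero]⟩⟩, Dat.rel_zero h,
    fun g _ => by rw [ln_zero]; rfl⟩, fun a x hx => ⟨hx.1.smul h a, fun g hg => by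
    rw [Dat.ln_smul h, Pi.smul_apply, hx.2 g hg, smul_zero]⟩⟩, fun _ => Iff.rfl⟩

theorem Dat.exists_str (D : Dat) (h : IsPsi ψ) :
    ∃ M : Submodule A (GS → Fin 2 → A), ∀ x, x ∈ M ↔ D.Str ψ x :=
  ⟨⟨⟨⟨{x | D.Str ψ x}, fun hx hy g hg => by
    rw [Dat.ln_add h, Pi.add_apply, hx g hg, hy g hg, add_zero]⟩, fun g _ => by rw [ln_zero]; rfl⟩,
    fun a x hx g hg => by rw [Dat.ln_smul h, Pi.smul_apply, hx g hg, smul_zero]⟩, fun _ => Iff.rfl⟩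

/-- unramified sequences act trivially -/
theorem Dat.rS_unr (hA : CF) (h : IsPsi ψ) {w : ℕ → Pl} {g : GS}
    (hg : ∀ᶠ k in UF, g k ∈ (w k).I ⊓ D.GK ∧ ¬ ((w k).p : ℤ) ∣ 30 * D.m) (v : Fin 2 → A) :
    rS (D.r ψ) g v = v := by
  have h30 : ∀ {p : ℕ}, ¬ (p : ℤ) ∣ 30 * D.m → ¬ p ∣ 30 := fun hp hd =>
    hp ((Int.natCast_dvd_natCast.2 hd).mul_right _)
  have h2 : ∀ {p : ℕ}, ¬ (p : ℤ) ∣ 30 * D.m → p ≠ 2 := fun hp hd => h30 hp (by rw [hd]; norm_num)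
  refine Dat.rS_triv h (fun i j => tendsto_const_nhds.congr' (hg.mono fun k hk => ?_))
    (tendsto_const_nhds.congr' (hg.mono fun k hk => (D.an.unr _ (h2 hk.2) _ hk.1).symm))
    (hg.mono fun k hk => Pl.I_fix hA.tame hA.res (h2 hk.2) D.hdm
      (fun hd => hk.2 (hd.mul_left _)) hk.1.1) v
  simp only [(hA.tr _ D.T _ (h30 hk.2)).1 _ hk.1.1]

theorem Dat.rS_ph (hA : CA) (h : IsPsi ψ) (l : Kp D) (v : Fin 2 → A) :
    l.ph ∈ S1 D.GK ∧ rS (D.r ψ) l.ph v = v := by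
  refine ⟨Eventually.of_forall fun k => D.mul_mem (l.out k) (l.out k), Dat.rS_triv h ?_
    (tendsto_const_nhds.congr fun k => (D.an.sq (l.out k)).symm) (Eventually.of_forall fun k => ?_) v⟩
  · have h1 : Tendsto (fun k => D.T.rho (l.F k)) UF (𝓝 (D.T.rho tau)) := by
      refine tendsto_pi_nhds.2 fun i => tendsto_pi_nhds.2 fun j =>
        tendsto_iff_norm_sub_tendsto_zero.2 (squeeze_zero (fun _ => norm_nonneg _)
          (fun k => l.rho k i j) (Tendsto.mono_left ?_ UF_le))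
      exact tendsto_inv_atTop_zero.comp ((tendsto_pow_atTop_atTop_of_one_lt one_lt_two).comp
        (tendsto_add_atTop_nat 1))
    have h2 := h1.mul h1
    rw [← map_mul, tt hA, map_one] at h2
    exact fun i j => (tendsto_pi_nhds.1 (tendsto_pi_nhds.1 h2 i) j).congr fun k =>
      congrFun₂ (map_mul D.T.rho (l.F k) (l.F k)).symm i j
  · change l.F k (l.F k D.dm) = D.dm
    obtain a | a := pm D.fix_dm (l.F k) <;> simp only [a.1, map_neg, neg_neg]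

/-- on inertia at the bad primes the character is trivial -/
theorem Dat.r_bad (hA : CA) (h : IsPsi ψ) {w : Pl} (hw : D.Bd w) {g : GQ} (hg : g ∈ w.I)
    (v : Fin 2 → A) : D.r ψ g v = mv (D.T.rho g) v := by
  have h2 : w.p ≠ 2 := fun e => by have := hw.1; rw [e] at this; norm_num at this
  rw [Dat.r_apply, D.an.unr w h2 g ⟨hg, bad_le hw.1 hg⟩, h.zero, one_smul, Tate.rd, sd,
    if_pos (Pl.I_fix hA.tame hA.res h2 D.hdm hw.2 hg), Int.cast_one, one_smul]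

/-- conjugation preserves the local conditions -/
theorem Dat.Rel.xt (hA : CF) (h : IsPsi ψ) (hx : D.Rel ψ n x) :
    D.Rel (R2.bar ψ) n (D.nz (R2.bar ψ) (D.xt x)) := by
  have hC := hA.toCA
  refine ⟨(hx.pz.xtG hA.toCB h).nzG h.bar, fun g hg => if_neg hg, Dat.nz_z h.bar _,
    fun w g hg => ?_, fun w hw => ?_, fun l hl => ?_⟩
  · rw [Dat.nz_of_triv (hg.mono fun _ hk => hk.1.2)
      (Dat.rS_unr hA h.bar (hg.mono fun _ hk => ⟨hk.1, hk.2.1⟩)), Dat.xt,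
      hx.unr (fun k => tau • w k) (cs tau * g * cs tau)
        (hg.mono fun _ hk => ⟨⟨conj_I hC hk.1.1, conj_mem hC hk.1.2⟩, hk.2⟩), map_zero]
  · obtain ⟨v, hv⟩ := Dat.nz_eq (D := D) (D.xt x) h.bar
    obtain ⟨u, hu⟩ := ((hx.bad (tau • w) hw).xtG hA.toCB h (S1_mono (bad_le hw.1)) fun g hg =>
      hg.mono fun _ => conj_I hC).add (D.rep h.bar) ⟨v, fun _ _ => rfl⟩
    exact ⟨u, fun g hg => (hv g (S1_mono (bad_le hw.1) hg)).trans (hu g hg)⟩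
  · have R := D.rep h
    have hp := (Dat.rS_ph hC h l 0).1
    have hg : cs tau * l.F ∈ S1 D.GK :=
      Eventually.of_forall fun k => D.mul_mem (hA.karith _).2.1 (l.out k)
    have e : cs tau * l.ph * cs tau = cs tau * l.F * l.ph * (cs tau * l.F)⁻¹ := by
      rw [mul_inv_rev, ← cs_inv, inv_eq_of_mul_eq_one_right (tt hC), Kp.ph]
      group
    rw [Dat.nz_of_triv hp fun v => (Dat.rS_ph hC h.bar l v).2, Dat.xt, e,
      hx.pz.conj R (fun _ => le_rfl) hg hp, hx.tr l hl, R2.rS_zero, add_zero,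
      R.rS_mul (mul_mem hg hp) (inv_mem hg), R.rS_mul hg hp, (Dat.rS_ph hC h l _).2,
      ← R.rS_mul hg (inv_mem hg), mul_inv_cancel, R.rS_one, sub_self, map_zero]

theorem Dat.Sel.xt (hA : CF) (h : IsPsi ψ) (hx : D.Sel ψ n x) :
    D.Sel (R2.bar ψ) n (D.nz (R2.bar ψ) (D.xt x)) :=
  ⟨hx.1.xt hA h, fun g hg => by rw [Dat.ln_nz h.bar hg, hx.2.2 g hg], fun g hg => by
    rw [Dat.ln_xt_nz hA.toCB h.bar hg, Dat.xt_xt hA.toCA, bar_bar, hx.2.1 g hg]⟩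

/-! ### Change of coefficients -/

section

variable (h : IsPsi ψ) (h' : IsPsi ψ') (ν : A →ₗ[ℚ_[2]] A') (V : Ideal A)
  (hν : ∀ a, ∀ y ∈ V, ν (ψ a * y) = ψ' a * ν y) (hx : ∀ g i, x g i ∈ V)

include h h' hν hx

theorem _root_.Pool.Agent.P.MP_8b7eba_nt.R2.PZ.mapG {H : ℕ → Subgroup GQ} (hz : PZ H (D.r ψ) x) :
    PZ H (D.r ψ') fun g i => ν (x g i) :=
  hz.map (ν.compLeft (Fin 2)) fun g _ g' _ => (Dat.rS_map h ν V hν g (hx g')).1

theorem Dat.nz_map : D.nz ψ' (fun g i => ν (x g i)) = (fun g i => ν (D.nz ψ x g i)) ∧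
    ∀ g i, D.nz ψ x g i ∈ V := by
  have e := fun g => Dat.rS_map (D := D) h ν V hν g (hx (cs D.z))
  refine ⟨funext fun g => funext fun i => ?_, fun g i => ?_⟩ <;> unfold Dat.nz <;> split_ifs
  · simp only [← (e g).1, Pi.add_apply, Pi.smul_apply, Pi.sub_apply, map_add, map_smul, map_sub]
  · exact ν.map_zero.symm
  · exact V.add_mem (hx g i) (V.smul_of_tower_mem _ (V.sub_mem ((e g).2 i) (hx _ i)))
  · exact V.zero_mem

theorem Dat.ln_map : D.ln ψ' (fun g i => ν (x g i)) = (fun g i => ν (D.ln ψ x g i)) ∧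
    ∀ g i, D.ln ψ x g i ∈ V := by
  have m := mv_mem (D.T.rd D.dm D.f2 - 1)⁻¹ V (hx (cs D.f2))
  have e := fun g => Dat.rS_map (D := D) h ν V hν g m
  refine ⟨funext fun g => funext fun i => ?_,
    fun g i => V.sub_mem (hx g i) (V.sub_mem ((e g).2 i) (m i))⟩
  simp only [Dat.ln, ← mv_map, ← (e g).1, Pi.sub_apply, map_sub]

theorem Dat.Rel.map (hA : CA) (hz : D.Rel ψ n x) : D.Rel ψ' n fun g i => ν (x g i) := by
  have z : ∀ {g}, x g = 0 → (fun i => ν (x g i)) = 0 := fun e => funext fun i => by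
    rw [e]; exact ν.map_zero
  refine ⟨hz.pz.mapG h h' ν V hν hx, fun g hg => z (hz.off g hg), z hz.nz,
    fun w g hg => z (hz.unr w g hg), fun w hw => (hz.bad w hw).elim fun v hv =>
      ⟨fun i => ν (v i), fun g hg => ?_⟩, fun l hl => z (hz.tr l hl)⟩
  simp only [hv g hg]
  refine (map_sub (ν.compLeft (Fin 2)) _ _).trans (congrArg (· - _)
    ((D.rep h).rS_map _ (hg.mono fun k hk => ?_)))
  rw [Dat.r_bad hA h hw hk, Dat.r_bad hA h' hw hk]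
  exact mv_map ν _ v

theorem Dat.Sel.map (hA : CA) (hz : D.Sel ψ n x) : D.Sel ψ' n fun g i => ν (x g i) := by
  refine ⟨hz.1.map h h' ν V hν hx hA, fun g hg => ?_, fun g hg => ?_⟩
  · rw [(Dat.ln_map h h' ν V hν hx).1]
    exact (congrArg ν (hz.2.1 g hg)).trans ν.map_zero
  · have e : D.xt (fun g i => ν (x g i)) = fun g i => ν (D.xt x g i) :=
      funext fun g => (mv_map ν _ _).symm
    rw [e, (Dat.ln_map (x := D.xt x) h.bar h'.bar ν V (fun a => hν (-a))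
      fun g => mv_mem _ V (hx _)).1]
    exact (congrArg ν (hz.2.2 g hg)).trans ν.map_zero

end

theorem Dat.xt_map (ν : A →ₗ[ℚ_[2]] A') (x : GS → Fin 2 → A) :
    D.xt (fun g i => ν (x g i)) = fun g i => ν (D.xt x g i) :=
  funext fun _ => (mv_map ν _ _).symm

theorem Dat.kap_map (h : IsPsi ψ) (h' : IsPsi ψ') (μ : A →ₗ[ℚ_[2]] A')
    (hμ : ∀ a y, μ (ψ a * y) = ψ' a * μ y) {v : KA} (hv : ∀ k g j, ‖v k g j‖ ≤ 1) :
    (fun g i => μ (D.kap ψ v g i)) = μ 1 • D.kap ψ' v := by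
  rw [Dat.kap, Dat.kap, ← Dat.nz_smul h', ← raw_map h h' μ hμ hv]
  exact (Dat.nz_map h h' μ ⊤ (fun a y _ => hμ a y) fun _ _ => trivial).1.symm

end Pool.Agent.P.MP_8b7eba_nt.R2.G
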