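import Pool.Agent.P.MP_8b7eba_nt.R3.ASel

/-! Lattices of bounded functions with a finite reduction modulo two. -/

namespace Pool.Agent.P.MP_8b7eba_nt.R2.G

open Filter Topology Polynomial Module

noncomputable section

namespace TIW0

/-- the reduction modulo two -/
def rz (x : ℚ_[2]) : ZMod 2 := if h : ‖x‖ ≤ 1 then PadicInt.toZMod (⟨x, h⟩ : ℤ_[2]) else 0

theorem rz_coe (a : ℤ_[2]) : rz a = PadicInt.toZMod a := dif_pos a.2

theorem rz_add {x y : ℚ_[2]} (hx : ‖x‖ ≤ 1) (hy : ‖y‖ ≤ 1) : rz (x + y) = rz x + rz y := by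
  obtain ⟨x, rfl⟩ : ∃ a : ℤ_[2], (a : ℚ_[2]) = x := ⟨⟨x, hx⟩, rfl⟩
  obtain ⟨y, rfl⟩ : ∃ a : ℤ_[2], (a : ℚ_[2]) = y := ⟨⟨y, hy⟩, rfl⟩
  rw [← PadicInt.coe_add, rz_coe, rz_coe, rz_coe, map_add]

theorem rz_sub {x y : ℚ_[2]} (hx : ‖x‖ ≤ 1) (hy : ‖y‖ ≤ 1) : rz (x - y) = rz x - rz y := by
  obtain ⟨x, rfl⟩ : ∃ a : ℤ_[2], (a : ℚ_[2]) = x := ⟨⟨x, hx⟩, rfl⟩
  obtain ⟨y, rfl⟩ : ∃ a : ℤ_[2], (a : ℚ_[2]) = y := ⟨⟨y, hy⟩, rfl⟩
  rw [← PadicInt.coe_sub, rz_coe, rz_coe, rz_coe, map_sub]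

theorem rz_mul (a : ℤ_[2]) {y : ℚ_[2]} (hy : ‖y‖ ≤ 1) :
    rz (a * y) = PadicInt.toZMod a * rz y := by
  obtain ⟨y, rfl⟩ : ∃ a : ℤ_[2], (a : ℚ_[2]) = y := ⟨⟨y, hy⟩, rfl⟩
  rw [← PadicInt.coe_mul, rz_coe, rz_coe, map_mul]

theorem lt_iff {x : ℚ_[2]} : ‖x‖ < 1 ↔ ‖x‖ ≤ 2⁻¹ := by
  simpa using Padic.norm_lt_pow_iff_norm_le_pow_sub_one x 0

theorem rz_eq_zero {x : ℚ_[2]} (hx : ‖x‖ ≤ 1) : rz x = 0 ↔ ‖x‖ ≤ 2⁻¹ := by
  obtain ⟨x, rfl⟩ : ∃ a : ℤ_[2], (a : ℚ_[2]) = x := ⟨⟨x, hx⟩, rfl⟩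
  rw [rz_coe, ← RingHom.mem_ker, PadicInt.ker_toZMod, IsLocalRing.mem_maximalIdeal,
    PadicInt.mem_nonunits, ← lt_iff, PadicInt.norm_def]

theorem rz_eq {x y : ℚ_[2]} (hx : ‖x‖ ≤ 1) (hy : ‖y‖ ≤ 1) : rz x = rz y ↔ ‖x - y‖ ≤ 2⁻¹ := by
  rw [← sub_eq_zero, ← rz_sub hx hy, rz_eq_zero]
  rw [sub_eq_add_neg]
  exact (IsUltrametricDist.norm_add_le_max _ _).trans (max_le hx (by rwa [norm_neg]))

theorem rz_zero : rz 0 = 0 := (rz_eq_zero (by simp)).2 (by simp)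

theorem norm_val (a : ZMod 2) : ‖((a.val : ℕ) : ℚ_[2])‖ ≤ 1 := IsUltrametricDist.norm_natCast_le_one _ _

theorem rz_val (a : ZMod 2) : rz (a.val : ℕ) = a := by
  rw [← PadicInt.coe_natCast, rz_coe, map_natCast, ZMod.natCast_zmod_val]

theorem norm_two : ‖(2 : ℚ_[2])‖ = 2⁻¹ := by simpa using Padic.norm_p (p := 2)

theorem le_sub {E : Type} [SeminormedAddCommGroup E] [IsUltrametricDist E] {x y : E} {r : ℝ}
    (hx : ‖x‖ ≤ r) (hy : ‖y‖ ≤ r) : ‖x - y‖ ≤ r := by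
  rw [sub_eq_add_neg]
  exact (IsUltrametricDist.norm_add_le_max _ _).trans (max_le hx (by rwa [norm_neg]))

theorem le_add {E : Type} [SeminormedAddCommGroup E] [IsUltrametricDist E] {x y : E} {r : ℝ}
    (hx : ‖x‖ ≤ r) (hy : ‖y‖ ≤ r) : ‖x + y‖ ≤ r :=
  (IsUltrametricDist.norm_add_le_max _ _).trans (max_le hx hy)

theorem eq_zero {E : Type} [NormedAddCommGroup E] {x : E} (h : ∀ k : ℕ, ‖x‖ ≤ (2 ^ k)⁻¹) :
    x = 0 := by
  refine norm_le_zero_iff.1 (ge_of_tendsto' (f := fun k : ℕ => ((2 : ℝ) ^ k)⁻¹) (x := atTop) ?_ h)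
  exact tendsto_inv_atTop_zero.comp (tendsto_pow_atTop_atTop_of_one_lt one_lt_two)

variable {α : Type}

/-- the lattice of the functions of norm at most one -/
def lat (X : Submodule ℚ_[2] (α → V2)) : Submodule ℤ_[2] (α → V2) where
  carrier := {c | c ∈ X ∧ ∀ g, ‖c g‖ ≤ 1}
  zero_mem' := ⟨X.zero_mem, fun g => by simp⟩
  add_mem' := fun ha hb => ⟨X.add_mem ha.1 hb.1, fun g => le_add (ha.2 g) (hb.2 g)⟩
  smul_mem' := fun a c hc => ⟨X.smul_mem (a : ℚ_[2]) hc.1, fun g => by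
    change ‖(a : ℚ_[2]) • c g‖ ≤ 1
    rw [norm_smul]
    exact mul_le_one₀ a.2 (norm_nonneg _) (hc.2 g)⟩

/-- the reduction of a function -/
def red (c : α → V2) : (α → ZMod 2) × (α → ZMod 2) := (fun g => rz (c g 0), fun g => rz (c g 1))

variable {X : Submodule ℚ_[2] (α → V2)} {c c' : α → V2}

theorem co_le (h : c ∈ lat X) (g : α) (i : Fin 2) : ‖c g i‖ ≤ 1 := (norm_le_pi_norm _ i).trans (h.2 g)

theorem red_add (h : c ∈ lat X) (h' : c' ∈ lat X) : red (c + c') = red c + red c' :=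
  Prod.ext (funext fun g => rz_add (co_le h g 0) (co_le h' g 0))
    (funext fun g => rz_add (co_le h g 1) (co_le h' g 1))

theorem red_smul (a : ℤ_[2]) (h : c ∈ lat X) : red (a • c) = PadicInt.toZMod a • red c :=
  Prod.ext (funext fun g => rz_mul a (co_le h g 0)) (funext fun g => rz_mul a (co_le h g 1))

theorem red_zero : red (0 : α → V2) = 0 :=
  Prod.ext (funext fun _ => rz_zero) (funext fun _ => rz_zero)

theorem red_eq (h : c ∈ lat X) (h' : c' ∈ lat X) (e : red c = red c') (g : α) :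
    ‖c g - c' g‖ ≤ 2⁻¹ := by
  refine (pi_norm_le_iff_of_nonneg (by norm_num)).2 (Fin.forall_fin_two.2 ⟨?_, ?_⟩)
  · exact (rz_eq (co_le h g 0) (co_le h' g 0)).1 (congrFun (congrArg Prod.fst e) g)
  · exact (rz_eq (co_le h g 1) (co_le h' g 1)).1 (congrFun (congrArg Prod.snd e) g)

theorem red_sum {s : ℕ} {e : Fin s → α → V2} (he : ∀ i, e i ∈ lat X) (a : Fin s → ℤ_[2]) :
    red (∑ i, a i • e i) = ∑ i, PadicInt.toZMod (a i) • red (e i) := by
  have : ∀ t : Finset (Fin s), red (∑ i ∈ t, a i • e i) =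
      ∑ i ∈ t, PadicInt.toZMod (a i) • red (e i) := fun t => by
    induction t using Finset.induction_on with
    | empty => simpa using red_zero
    | insert i t hi ih =>
      rw [Finset.sum_insert hi, Finset.sum_insert hi, red_add (Submodule.smul_mem _ _ (he i))
        (Submodule.sum_mem _ fun j _ => Submodule.smul_mem _ _ (he j)), ih, red_smul _ (he i)]
  exact this _

theorem div_mem (h : c ∈ X) {k : ℕ} (e : ∀ g, ‖c g‖ ≤ (2 ^ k)⁻¹) :
    ((2 : ℚ_[2]) ^ k)⁻¹ • c ∈ lat X :=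
  ⟨X.smul_mem _ h, fun g => by
    rw [Pi.smul_apply, norm_smul, norm_inv, norm_pow, norm_two, inv_pow, inv_inv]
    exact (mul_le_mul_of_nonneg_left (e g) (by positivity)).trans_eq (mul_inv_cancel₀ (by positivity))⟩

theorem exists_mul (hb : ∃ B : ℝ, ∀ g, ‖c g‖ ≤ B) (h : c ∈ X) :
    ∃ k : ℕ, (2 : ℚ_[2]) ^ k • c ∈ lat X := by
  obtain ⟨B, hB⟩ := hb
  obtain ⟨k, hk⟩ := pow_unbounded_of_one_lt B (one_lt_two (α := ℝ))
  refine ⟨k, X.smul_mem _ h, fun g => ?_⟩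
  rw [Pi.smul_apply, norm_smul, norm_pow, norm_two, inv_pow, inv_mul_le_iff₀ (by positivity), mul_one]
  exact (hB g).trans hk.le

theorem span {s : ℕ} {e : Fin s → α → V2} (he : ∀ i, e i ∈ lat X)
    (h : ∀ c ∈ lat X, ∃ a : Fin s → ℤ_[2], ∀ g, ‖c g - (∑ i, a i • e i) g‖ ≤ 2⁻¹)
    (hc : c ∈ lat X) : ∃ a : Fin s → ℤ_[2], ∑ i, a i • e i = c := by
  have hm : ∀ a : Fin s → ℤ_[2], ∑ i, a i • e i ∈ lat X := fun a =>
    Submodule.sum_mem _ fun j _ => Submodule.smul_mem _ _ (he j)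
  have h1 : ∀ k : ℕ, ∃ a : Fin s → ℤ_[2], ∀ g, ‖c g - (∑ i, a i • e i) g‖ ≤ (2 ^ k)⁻¹ := fun k => by
    induction k with
    | zero => exact ⟨0, fun g => by simpa using hc.2 g⟩
    | succ k ih =>
      obtain ⟨a, ha⟩ := ih
      obtain ⟨b, hb⟩ := h _ (div_mem (X.sub_mem hc.1 (hm a).1) ha)
      refine ⟨a + (2 : ℤ_[2]) ^ k • b, fun g => ?_⟩
      have e1 : c g - (∑ i, (a + (2 : ℤ_[2]) ^ k • b) i • e i) g = (2 : ℚ_[2]) ^ k •
          ((((2 : ℚ_[2]) ^ k)⁻¹ • (c - ∑ i, a i • e i)) g - (∑ i, b i • e i) g) := by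
        have : ∑ i, (a + (2 : ℤ_[2]) ^ k • b) i • e i =
            ∑ i, a i • e i + (2 : ℚ_[2]) ^ k • ∑ i, b i • e i := by
          rw [Finset.smul_sum, ← Finset.sum_add_distrib]
          refine Finset.sum_congr rfl fun i _ => ?_
          rw [Pi.add_apply, add_smul, Pi.smul_apply, smul_assoc]
          rfl
        rw [this, smul_sub, Pi.smul_apply, smul_inv_smul₀ (by norm_num), Pi.add_apply, Pi.sub_apply,
          Pi.smul_apply, sub_sub]
      rw [e1, norm_smul, norm_pow, norm_two, inv_pow, pow_succ, mul_inv]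
      exact mul_le_mul_of_nonneg_left (hb g) (by positivity)
  have h2 : ∀ k : ℕ, IsClosed {a : Fin s → ℤ_[2] | ∀ g, ‖c g - (∑ i, a i • e i) g‖ ≤ (2 ^ k)⁻¹} :=
    fun k => by
      rw [Set.ofPred_forall]
      refine isClosed_iInter fun g => isClosed_le (Continuous.norm (continuous_const.sub ?_))
        continuous_const
      simp only [Finset.sum_apply]
      refine continuous_finsetSum _ fun i _ => ?_
      change Continuous fun x : Fin s → ℤ_[2] => (x i : ℚ_[2]) • e i g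
      have : Continuous fun x : ℤ_[2] => (x : ℚ_[2]) := continuous_subtype_val
      exact (this.comp (continuous_apply i)).smul continuous_const
  obtain ⟨a, ha⟩ := IsCompact.nonempty_iInter_of_sequence_nonempty_isCompact_isClosed
    (fun k : ℕ => {a : Fin s → ℤ_[2] | ∀ g, ‖c g - (∑ i, a i • e i) g‖ ≤ (2 ^ k)⁻¹})
    (fun k a ha g => (ha g).trans (inv_anti₀ (by positivity)
      (pow_le_pow_right₀ one_le_two k.le_succ))) h1 (h2 0).isCompact h2
  exact ⟨a, funext fun g => (sub_eq_zero.1 (eq_zero fun k => Set.mem_iInter.1 ha k g)).symm⟩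

theorem indep {s : ℕ} {e : Fin s → α → V2} (he : ∀ i, e i ∈ lat X)
    (h : LinearIndependent (ZMod 2) fun i => red (e i)) : LinearIndependent ℚ_[2] e := by
  refine Fintype.linearIndependent_iff.2 fun a ha i => by_contra fun hi => ?_
  obtain ⟨j, -, hj⟩ := Finset.univ.exists_max_image (fun j => ‖a j‖) ⟨i, Finset.mem_univ i⟩
  have h0 : 0 < ‖a j‖ := (norm_pos_iff.2 hi).trans_le (hj i (Finset.mem_univ i))
  have h1 : a j ≠ 0 := norm_pos_iff.1 h0
  let b : Fin s → ℤ_[2] := fun l => ⟨(a j)⁻¹ * a l, by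
    rw [norm_mul, norm_inv, inv_mul_le_iff₀ h0, mul_one]; exact hj l (Finset.mem_univ l)⟩
  have h2 : ∑ l, b l • e l = 0 := by
    rw [← smul_zero (a j)⁻¹, ← ha, Finset.smul_sum]
    exact Finset.sum_congr rfl fun l _ => mul_smul (a j)⁻¹ (a l) (e l)
  have h3 := Fintype.linearIndependent_iff.1 h (fun l => PadicInt.toZMod (b l))
    (by rw [← red_sum he, h2, red_zero]) j
  rw [show b j = 1 from Subtype.ext (inv_mul_cancel₀ h1), map_one] at h3
  exact one_ne_zero h3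

theorem basis {s : ℕ} (h : (red '' (lat X : Set (α → V2))).ncard = 2 ^ s) :
    ∃ e : Fin s → α → V2, (∀ i, e i ∈ lat X) ∧ LinearIndependent ℚ_[2] e ∧
      ∀ c ∈ lat X, ∃ a : Fin s → ℤ_[2], ∑ i, a i • e i = c := by
  let Q : Submodule (ZMod 2) ((α → ZMod 2) × (α → ZMod 2)) :=
    { carrier := red '' (lat X : Set (α → V2))
      zero_mem' := ⟨0, (lat X).zero_mem, red_zero⟩
      add_mem' := by
        rintro _ _ ⟨c, hc, rfl⟩ ⟨c', hc', rfl⟩
        exact ⟨c + c', (lat X).add_mem hc hc', red_add hc hc'⟩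
      smul_mem' := by
        rintro a _ ⟨c, hc, rfl⟩
        exact ⟨(a.val : ℤ_[2]) • c, (lat X).smul_mem _ hc, by
          rw [red_smul _ hc, map_natCast, ZMod.natCast_zmod_val]⟩ }
  have h1 : Nat.card Q = 2 ^ s := h
  have : Finite Q := Nat.finite_of_card_ne_zero (by rw [h1]; positivity)
  have h2 : finrank (ZMod 2) Q = s := by
    rw [Module.natCard_eq_pow_finrank (K := ZMod 2), Nat.card_zmod] at h1
    exact Nat.pow_right_injective le_rfl h1
  let b := finBasisOfFinrankEq (ZMod 2) Q h2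
  choose e he hb using fun i => (b i).2
  refine ⟨e, he, indep he ?_, fun c => span he fun c hc => ?_⟩
  · simp only [hb]
    exact b.linearIndependent.map' Q.subtype Q.ker_subtype
  · let q : Q := ⟨red c, c, hc, rfl⟩
    refine ⟨fun i => ((b.repr q i).val : ℤ_[2]), red_eq hc
      (Submodule.sum_mem _ fun j _ => Submodule.smul_mem _ _ (he j)) ?_⟩
    rw [red_sum he]
    have := congrArg Subtype.val (b.sum_repr q)
    simp only [map_natCast, ZMod.natCast_zmod_val, hb]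
    rw [Submodule.coe_sum] at this
    exact this.symm

theorem main {s : ℕ} (hb : ∀ c ∈ X, ∃ B : ℝ, ∀ g, ‖c g‖ ≤ B)
    (h : (red '' (lat X : Set (α → V2))).ncard = 2 ^ s) {T : Module.End ℚ_[2] (α → V2)} {m : ℕ}
    (hm : 0 < m) (hT : ∀ c ∈ lat X, (T ^ m) c ∈ lat X ∧ red ((T ^ m) c) = 0) :
    FiniteDimensional ℚ_[2] X ∧ finrank ℚ_[2] X = s ∧ ∃ F, Dist F ∧ ∀ c ∈ X, aeval T F c = 0 := by
  obtain ⟨e, he, hi, hs⟩ := basis h
  have hX : X = Submodule.span ℚ_[2] (Set.range e) := by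
    refine le_antisymm (fun c hc => ?_) (Submodule.span_le.2 (Set.range_subset_iff.2 fun i => (he i).1))
    obtain ⟨k, hk⟩ := exists_mul (hb c hc) hc
    obtain ⟨a, ha⟩ := hs _ hk
    rw [← Submodule.smul_mem_iff _ (show (2 : ℚ_[2]) ^ k ≠ 0 by norm_num), ← ha]
    exact Submodule.sum_mem _ fun i _ =>
      Submodule.smul_mem _ (a i : ℚ_[2]) (Submodule.subset_span ⟨i, rfl⟩)
  have hL : Module.Finite ℤ_[2] (lat X) := by
    rw [show lat X = Submodule.span ℤ_[2] (Set.range e) from le_antisymm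
      (fun c hc => (Submodule.mem_span_range_iff_exists_fun _).2 (hs c hc))
      (Submodule.span_le.2 (Set.range_subset_iff.2 he))]
    exact Module.Finite.span_of_finite _ (Set.finite_range e)
  refine ⟨hX ▸ Module.Finite.span_of_finite _ (Set.finite_range e),
    by rw [hX, finrank_span_eq_card hi, Fintype.card_fin], ?_⟩
  let f : Module.End ℤ_[2] (lat X) :=
    ((T ^ m).restrictScalars ℤ_[2]).restrict fun c hc => (hT c hc).1
  have hf : ∀ (n : ℕ) (c : lat X), ((f ^ n) c : α → V2) = ((T ^ m) ^ n) c := fun n => by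
    induction n with
    | zero => exact fun c => rfl
    | succ n ih => exact fun c => by rw [pow_succ, pow_succ, End.mul_apply, End.mul_apply, ih]; rfl
  obtain ⟨p, h1, -, h2, h3⟩ :=
    LinearMap.exists_monic_and_natDegree_eq_and_coeff_mem_pow_and_aeval_eq_zero ℤ_[2] f
      (Ideal.span {2}) (by
        rintro _ ⟨c, rfl⟩
        have h4 := div_mem (k := 1) (hT c c.2).1.1 fun g => by
          simpa using red_eq (hT c c.2).1 (lat X).zero_mem ((hT c c.2).2.trans red_zero.symm) g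
        rw [show f c = (2 : ℤ_[2]) • ⟨_, h4⟩ from Subtype.ext (by
          change (T ^ m) c = (2 : ℚ_[2]) • ((2 : ℚ_[2]) ^ 1)⁻¹ • (T ^ m) c
          rw [pow_one, smul_inv_smul₀ two_ne_zero])]
        exact Submodule.smul_mem_smul (Ideal.mem_span_singleton_self _) trivial)
  have h5 := h1.natDegree_map (algebraMap ℤ_[2] ℚ_[2])
  refine ⟨expand _ m (p.map (algebraMap ℤ_[2] ℚ_[2])), ⟨(h1.map _).expand hm, fun i hi => ?_⟩,
    fun c hc => ?_⟩
  · rw [natDegree_expand, h5] at hi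
    rw [coeff_expand hm]
    split_ifs
    · have h6 : i / m < p.natDegree := Nat.div_lt_of_lt_mul (mul_comm m _ ▸ hi)
      obtain ⟨a, ha⟩ := Ideal.mem_span_singleton.1
        (Ideal.pow_le_self (by omega) (h2 (i / m)))
      rw [coeff_map, ha, lt_iff]
      change ‖(2 : ℚ_[2]) * a‖ ≤ _
      rw [norm_mul, norm_two]
      exact mul_le_of_le_one_right (by norm_num) a.2
    · simp
  · obtain ⟨k, hk⟩ := exists_mul (hb c hc) hc
    rw [← smul_eq_zero_iff_right (show (2 : ℚ_[2]) ^ k ≠ 0 by norm_num), ← map_smul, expand_aeval,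
      aeval_eq_sum_range, h5]
    have h7 := congrArg (fun φ : Module.End ℤ_[2] (lat X) => (φ ⟨_, hk⟩ : α → V2)) h3
    simp only [aeval_eq_sum_range, LinearMap.sum_apply, LinearMap.smul_apply, Submodule.coe_sum,
      Submodule.coe_smul, hf, LinearMap.zero_apply, Submodule.coe_zero] at h7
    rw [LinearMap.sum_apply, ← h7]
    exact Finset.sum_congr rfl fun i _ => by rw [coeff_map]; rfl

end TIW0

end

end Pool.Agent.P.MP_8b7eba_nt.R2.G
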