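import Pool.Agent.P.MP_8b7eba_nt.R3.ASel
import Pool.Agent.P.MP_8b7eba_nt.R2.TNV2

/-! Lemmas for NV2: the twist at two, limits and lattices. -/

namespace Pool.Agent.P.MP_8b7eba_nt.R2.G.AN

open scoped NNReal Matrix
open Filter Topology Polynomial
open TNV2 (ev ev_C ev_X ev_U ev_apply ev_ker lat red red_X red_two tz_iff univ)

/-- inertia elements which fix the roots of unity of order eight fix the twist -/
theorem chi8 (hE : EC) (D : Dat) {g : GQ} (hg : g ∈ D.w2.I)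
    (h8 : 2 ^ 3 ∣ (cyc g : ℤ_[2]) - 1) : sd D.dm g = 1 := by
  obtain ⟨z, hz⟩ := exists_root (-1 : Om) four_ne_zero
  have gz : g z = z := by
    simpa using hE.2.2.1 g 3 1 z (by linear_combination (z ^ 4 - 1) * hz) (by simpa using h8)
  have key : ∀ (t : Om) (e n : ℤ), t ^ 2 = e → g t = t → D.m = e * n → n % 4 = 1 →
      sd D.dm g = 1 := by
    intro t e n h1 h2 h3 h4
    have h0 : (e : Om) ≠ 0 := Int.cast_ne_zero.2 (left_ne_zero_of_mul (h3 ▸ D.dm_ne.2.2))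
    have h5 := Pl.I_fix_two D.hw2 (δ := D.dm / t) (m := n) (by
      rw [div_pow, D.hdm, h1, h3, Int.cast_mul, mul_div_cancel_left₀ _ h0]) h4 hg
    rw [map_div₀, h2, div_left_inj' fun e' => h0 (by rw [← h1, e', zero_pow two_ne_zero])] at h5
    exact sd_eq_one.2 h5
  have h4 : ¬ 2 * 2 ∣ D.m := fun e => by
    have := Int.isUnit_iff.1 (D.hy.sq 2 e)
    omega
  obtain e | e | e | e : D.m % 4 = 1 ∨ D.m % 4 = 3 ∨ D.m % 8 = 2 ∨ D.m % 8 = 6 := by omega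
  · exact key 1 1 D.m (by simp) (map_one g) (one_mul _).symm e
  · exact key (z ^ 2) (-1) (-D.m) (by push_cast; linear_combination hz) (by rw [map_pow, gz])
      (by ring) (by omega)
  · exact key (z - z ^ 3) 2 (D.m / 2) (by push_cast; linear_combination (z ^ 2 - 2) * hz)
      (by rw [map_sub, map_pow, gz]) (by omega) (by omega)
  · exact key (z + z ^ 3) (-2) (-(D.m / 2)) (by push_cast; linear_combination (z ^ 2 + 2) * hz)
      (by rw [map_add, map_pow, gz]) (by omega) (by omega)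

theorem rdI (D : Dat) {g : GQ} (hg : g ∈ D.w2.I) :
    D.T.rd D.dm g 0 0 = sd D.dm g * cq g ∧ D.T.rd D.dm g 1 1 = sd D.dm g := by
  have := D.T.det g
  rw [Matrix.det_fin_two, D.T.up g (D.w2.I_le_D hg), D.T.un g hg, mul_one, mul_zero,
    sub_zero] at this
  simp [Tate.rd, this, D.T.un g hg]

/-- an inertia element on which the cyclotomic character is `-1` -/
theorem iota (hA : CA) (D : Dat) : ∃ ι ∈ D.w2.I, cyc ι = -1 ∧ D.a ι = 0 ∧ ∀ g ∈ D.w2.I, ∀ n : ℕ,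
    2 ^ (n + 1) ∣ D.a g → 2 ^ (n + 3) ∣ (cyc g : ℤ_[2]) - 1 ∧ sd D.dm g = 1 ∨
      2 ^ (n + 3) ∣ (cyc g : ℤ_[2]) + 1 ∧ sd D.dm g = sd D.dm ι := by
  obtain ⟨ι, h1, h2⟩ := hA.ec2 D.w2 D.hw2 (-1)
  obtain ⟨u, hu⟩ := D.an.two
  refine ⟨ι, h1, h2, ?_, fun g hg n hn => ?_⟩
  · have l1 := hA.lg.1.mul 1 1
    have l2 := hA.lg.1.mul (-1) (-1)
    rw [one_mul] at l1
    rw [neg_mul_neg, one_mul, left_eq_add.1 l1] at l2
    rw [hu ι h1, h2, add_self_eq_zero.1 l2.symm, mul_zero]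
  rw [hu g hg, u.isUnit.dvd_mul_left, hA.lg.1.dvd] at hn
  have h3 : (2 : ℤ_[2]) ^ 3 ∣ 2 ^ (n + 1 + 2) := pow_dvd_pow 2 (by omega)
  refine hn.imp (fun e => ⟨e, chi8 hA.ec D hg (h3.trans e)⟩) fun e => ⟨e, ?_⟩
  have := chi8 hA.ec D (mul_mem hg h1) (by
    rw [hA.ec.2.1, h2, Units.val_mul, Units.val_neg, Units.val_one, mul_neg, mul_one, ← neg_add',
      dvd_neg]
    exact h3.trans e)
  rw [sd_mul D.fix_dm] at this
  rw [← mul_one (sd D.dm g), ← sd_sq D.dm ι, ← mul_assoc, this, one_mul]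

theorem tend0 {b : ℕ → ℤ_[2]} (h : ∀ᶠ k in UF, 2 ^ k ∣ b k) : Tendsto b UF (𝓝 0) := by
  refine squeeze_zero_norm' (h.mono fun k ⟨c, hc⟩ => ?_) ((tendsto_pow_atTop_nhds_zero_of_lt_one
    (norm_nonneg (2 : ℤ_[2])) ((PadicInt.norm_lt_one_iff_dvd _).2 dvd_rfl)).mono_left UF_le)
  rw [hc, norm_mul, norm_pow]
  exact mul_le_of_le_one_right (by positivity) c.norm_le_one

/-- the action of a sequence -/
theorem lim (D : Dat) (g : GS) : ∃ (a : ℤ_[2]) (z : Fin 2 → Fin 2 → ℤ_[2]),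
    Tendsto (fun k => D.a (g k)) UF (𝓝 a) ∧
    (∀ i j, Tendsto (fun k => D.T.rd D.dm (g k) i j) UF (𝓝 ((1 : Mt) i j + 2 * z i j))) ∧
    ∀ (A : Type) [NormedCommRing A] [NormedAlgebra ℚ_[2] A] (ψ : ℤ_[2] → A), IsPsi ψ → ∀ v i,
      rS (D.r ψ) g v i = ψ a * (v i + 2 * (ev ψ (C (z i 0)) * v 0 + ev ψ (C (z i 1)) * v 1)) := by
  have h0 : ∀ (s : GQ) i j, ∃ z : ℤ_[2], D.T.rd D.dm s i j = (1 : Mt) i j + 2 * z := fun s i j => by
    have h1 : ‖2⁻¹ * (D.T.rho s - 1) i j‖ ≤ 1 := by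
      rw [norm_mul, norm_inv, R2.SelA.two]
      have := D.T.two s i j
      linarith
    obtain ⟨t, ht⟩ : ∃ t : ℤ_[2], (t : ℚ_[2]) = 2⁻¹ * (D.T.rho s - 1) i j := ⟨⟨_, h1⟩, rfl⟩
    rcases sd_cases D.dm s with e | e
    · exact ⟨t, by simp [Tate.rd, e, ht]⟩
    · refine ⟨-t - if i = j then 1 else 0, ?_⟩
      by_cases h : i = j <;> simp [Tate.rd, e, Matrix.one_apply, h, ht]
      ring
  choose z hz using h0
  have h1 : ∀ i j, Tendsto (fun k => D.T.rd D.dm (g k) i j) UF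
      (𝓝 ((1 : Mt) i j + 2 * (ul fun k => z (g k) i j : ℤ_[2]))) := fun i j => by
    simp only [hz]
    exact (((continuous_subtype_val.tendsto _).comp (tendsto_ul_int _)).const_mul 2).const_add _
  refine ⟨_, fun i j => ul fun k => z (g k) i j, tendsto_ul_int _, h1, fun A _ _ ψ h v i => ?_⟩
  have := ul_eq (tendsto_pi_nhds.2 fun i => ((h.cont.tendsto _).comp (tendsto_ul_int
    fun k => D.a (g k))).mul (((h1 i 0).smul_const (v 0)).add ((h1 i 1).smul_const (v 1))))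
  refine (congrFun ((congrArg ul (funext₂ fun k i => ?_)).trans this) i).trans ?_
  · rw [Dat.r_apply, Pi.smul_apply, mv_apply, smul_eq_mul, Function.comp_apply]
  · congr 1
    rw [ev_C, ev_C, ← map_ofNat (algebraMap ℚ_[2] A) 2, ← Algebra.smul_def]
    rw [add_smul, add_smul, add_add_add_comm, ← mv_apply, mv_one, smul_add, mul_smul, mul_smul]

/-- the root of the linear factor -/
noncomputable def cc (D : Dat) : ℤ_[2] := sd D.dm D.gm - 1

theorem cc_two (D : Dat) : 2 ∣ cc D := by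
  rcases sd_cases D.dm D.gm with e | e <;> rw [cc, e]
  · simp
  · exact ⟨-1, by norm_num⟩

variable {A : Type} [NormedCommRing A] [NormedAlgebra ℚ_[2] A] {ψ : ℤ_[2] → A} {D : Dat} {v : KA}
  {F : ℤ_[2][X]}

theorem ev_cc : ev ψ (X - C (cc D)) = ψ 1 - sd D.dm D.gm := by
  rw [cc, map_sub C, map_intCast, C_1, map_sub, map_sub, map_intCast, map_one, ev_X]
  ring

/-- multiples of the socle -/
theorem socle (h : IsAF ψ ((F * (X - C (cc D))).map PadicInt.Coe.ringHom)) (y : A) :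
    ∃ t : ℚ_[2], y * ev ψ F = t • ev ψ F := by
  obtain ⟨q, rfl⟩ := h.2.1 y
  refine ⟨q.eval (cc D : ℚ_[2]), ?_⟩
  rw [Algebra.smul_def, ← aeval_C (ψ 1 - 1), ev_apply, ← sub_eq_zero, ← sub_mul, ← map_sub,
    ← map_mul, h.2.2, Polynomial.map_mul, mul_comm, Polynomial.map_sub, map_X, map_C]
  exact mul_dvd_mul_right X_sub_C_dvd_sub_C_eval _

/-- integral multiples of the socle -/
theorem top {s : ℕ} (hm : F.Monic) (hr : red F = X ^ s)
    (h : IsAF ψ ((F * (X - C (cc D))).map PadicInt.Coe.ringHom)) {t : ℚ_[2]} {p : ℤ_[2][X]}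
    (e : t • ev ψ F = ev ψ p) : ∃ z : ℤ_[2], t = z ∧ PadicInt.toZMod z = (red p).coeff s := by
  rw [Algebra.smul_def, ← aeval_C (ψ 1 - 1), ev_apply, ev_apply, ← map_mul, ← sub_eq_zero,
    ← map_sub, h.2.2, Polynomial.map_mul] at e
  obtain ⟨q, rfl⟩ := (map_dvd_map _ Subtype.val_injective hm).1
    ((dvd_sub_right (dvd_mul_left _ _)).1 ((dvd_mul_right _ _).trans e))
  rw [Polynomial.map_mul, mul_comm (C t), ← mul_sub, mul_dvd_mul_iff_left (hm.map _).ne_zero,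
    Polynomial.map_sub, map_X, map_C, dvd_iff_isRoot, IsRoot, eval_sub, eval_C, sub_eq_zero,
    eval_map, eval₂_hom] at e
  refine ⟨_, e, ?_⟩
  rw [map_mul, hr, ← eval₂_hom, (tz_iff _).2 (cc_two D), eval₂_at_zero]
  simpa using (coeff_X_pow_mul (red q) s 0).symm

variable [FiniteDimensional ℚ_[2] A]

theorem near {G : ℚ_[2][X]} (hG : G.Monic) (h : IsAF ψ G) {y : ℕ → A} {b : A}
    (e : Tendsto y UF (𝓝 b)) : ∀ᶠ k in UF, ∃ p, b = y k + ev ψ (4 * p) := by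
  obtain ⟨ε, hε, L⟩ := lat hG h
  exact (PatA.near tendsto_const_nhds e hε).mono fun k hk =>
    (L _ hk).imp fun p hp => eq_add_of_sub_eq' hp

theorem psi_ev {G : ℚ_[2][X]} (hG : G.Monic) (h : IsAF ψ G) (a : ℤ_[2]) :
    ∃ (m : ℕ) (p : ℤ_[2][X]), ψ a = ev ψ ((1 + X) ^ m + 4 * p) ∧ PadicInt.toZMod a = m := by
  obtain ⟨ε, hε, L⟩ := lat hG h
  obtain ⟨k, hk⟩ := h.1.near hε
  have h1 : (2 : ℤ_[2]) ^ (k + 1) ∣ a - a.appr (k + 1) :=
    Ideal.mem_span_singleton.1 (PadicInt.appr_spec (k + 1) a)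
  obtain ⟨p, hp⟩ := L _ (hk a _ ((pow_dvd_pow 2 k.le_succ).trans h1))
  refine ⟨_, p, by rw [map_add, ev_U h.1, ← hp, add_sub_cancel], ?_⟩
  rw [← sub_eq_zero, ← map_natCast PadicInt.toZMod, ← map_sub, tz_iff]
  exact (dvd_pow_self 2 k.succ_ne_zero).trans h1

variable [IsUltrametricDist A]

theorem raw_ev {G : ℚ_[2][X]} (hG : G.Monic) (h : IsAF ψ G) (hv : ∀ k g j, ‖v k g j‖ ≤ 1)
    (g : GS) (i : Fin 2) : ∃ p, raw ψ v g i = ev ψ p := by
  obtain ⟨k, p, hp⟩ := (near hG h (tendsto_pi_nhds.1 (tendsto_raw h.1 hv g) i)).exists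
  obtain ⟨P, -, -, P3⟩ := univ hv k
  exact ⟨P (g k) i + 4 * p, by rw [map_add, P3 A ψ h.1, hp]⟩

/-- the hypothesis on the cochain -/
def Hyp (D : Dat) (v : KA) : Prop :=
  (∀ k g j, ‖v k g j‖ ≤ 1) ∧ ∀ (A : Type) [NormedCommRing A] [NormedAlgebra ℚ_[2] A]
    [IsUltrametricDist A] [FiniteDimensional ℚ_[2] A] (ψ : ℤ_[2] → A), IsPsi ψ →
    PZ (fun _ => D.GK) (D.r ψ) (raw ψ v) ∧ D.Ord ψ (raw ψ v)

/-- one more linear factor -/
theorem up (hX : AFX) (H : Hyp D v) (hF : Dist (F.map PadicInt.Coe.ringHom))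
    (h : IsAF ψ (F.map PadicInt.Coe.ringHom)) {u : A}
    (hu : raw ψ v (cs D.f2) 1 = rS (D.th ψ 1) (cs D.f2) u - u) :
    ∃ (A' : Type) (_ : NormedCommRing A') (_ : NormedAlgebra ℚ_[2] A') (_ : IsUltrametricDist A')
      (_ : FiniteDimensional ℚ_[2] A') (ψ' : ℤ_[2] → A') (μ : A' →ₗ[ℚ_[2]] A) (u' : A'),
      IsAF ψ' ((F * (X - C (cc D))).map PadicInt.Coe.ringHom) ∧
      Dist ((F * (X - C (cc D))).map PadicInt.Coe.ringHom) ∧
      (∀ p : ℚ_[2][X], μ (aeval (ψ' 1 - 1) p) = aeval (ψ 1 - 1) p) ∧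
      (∀ a y, μ (ψ' a * y) = ψ a * μ y) ∧
      (∀ g i, μ (raw ψ' v g i) = raw ψ v g i) ∧
      (∀ g ∈ S1 D.w2.D, raw ψ' v g 1 = rS (D.th ψ' 1) g u' - u') ∧ μ u' = u := by
  have hd : Dist ((F * (X - C (cc D))).map PadicInt.Coe.ringHom) := by
    rw [Polynomial.map_mul, Polynomial.map_sub, map_X, map_C]
    refine hX.2.1 _ _ hF ⟨monic_X_sub_C _, fun i hi => ?_⟩
    rw [natDegree_X_sub_C, Nat.lt_one_iff] at hi
    rw [hi, coeff_sub, coeff_X_zero, coeff_C_zero, zero_sub, norm_neg]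
    exact (PadicInt.norm_lt_one_iff_dvd (cc D)).2 (cc_two D)
  obtain ⟨A', _, _, _, _, ψ', h'⟩ := hX.1 _ hd
  obtain ⟨μ, m1, m2⟩ := ((hX.2.2.2.2.2.2 A' ψ' _ h').2 A ψ _ 1 h).1 (by
    rw [one_mul, Polynomial.map_mul]
    exact dvd_mul_right _ _)
  simp only [one_mul] at m1
  obtain ⟨w, hw⟩ := (Dat.ord_iff h'.1).1 (H.2 A' ψ' h'.1).2
  have m3 : ∀ g i, μ (raw ψ' v g i) = raw ψ v g i := fun g i => by
    have := congrFun (congrFun (raw_map h'.1 h.1 μ m2 H.1) g) i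
    rwa [← map_one (aeval (ψ' 1 - 1) : ℚ_[2][X] →ₐ[ℚ_[2]] A'), m1, map_one, one_smul] at this
  have m4 : ∀ g ∈ S1 D.w2.D, raw ψ' v g 1 = rS (D.th ψ' 1) g (w 1) - w 1 := fun g hg => by
    rw [← Dat.rS_one h'.1 hg]
    exact sub_eq_zero.1 (hw g hg)
  refine ⟨A', _, _, inferInstance, inferInstance, ψ', μ, w 1, h', hd, m1, m2, m3, m4,
    sub_eq_zero.1 (SelB.eq_zero (D := D) ?_)⟩
  rw [← m3, m4 _ SelB.f2_mem, SelB.th_f2 h'.1, SelB.th_f2 h.1, map_sub, map_smul] at hu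
  rw [smul_sub]
  linear_combination hu

/-- the vector which splits the second coordinate is integral -/
theorem ord_ev (hX : AFX) (H : Hyp D v) (hF : Dist (F.map PadicInt.Coe.ringHom))
    (h : IsAF ψ (F.map PadicInt.Coe.ringHom)) {u : A}
    (hu : raw ψ v (cs D.f2) 1 = rS (D.th ψ 1) (cs D.f2) u - u) : ∃ p, u = ev ψ p := by
  obtain ⟨A', _, _, _, _, ψ', μ, u', h', hd, m1, -, -, m4, rfl⟩ := up hX H hF h hu
  obtain ⟨P, hP⟩ := raw_ev hd.1 h' H.1 (cs D.gm) 1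
  obtain ⟨q, rfl⟩ := h'.2.1 u'
  rw [m4 _ (cs_mem.2 (D.w2.I_le_D D.gI)), rS_cs, SelA.th_apply, (rdI D D.gI).2, D.ga,
    Int.cast_smul_eq_zsmul, zsmul_eq_mul] at hP
  have e : ((F * (X - C (cc D))).map PadicInt.Coe.ringHom) ∣
      (X - C (cc D)).map PadicInt.Coe.ringHom * q - (sd D.dm D.gm * P).map PadicInt.Coe.ringHom := by
    rw [← h'.2.2, map_sub, map_mul, ← ev_apply, ← ev_apply, ev_cc, map_mul, map_intCast, ← hP]
    have : (sd D.dm D.gm : A') * sd D.dm D.gm = 1 := by rw [← Int.cast_mul, sd_sq, Int.cast_one]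
    linear_combination (-ψ' 1 * aeval (ψ' 1 - 1) q) * this
  rw [Polynomial.map_mul] at e
  obtain ⟨p, hp⟩ := (map_dvd_map _ Subtype.val_injective (monic_X_sub_C _)).1
    ((dvd_sub_right (dvd_mul_right _ _)).1 ((dvd_mul_left _ _).trans e))
  rw [hp, Polynomial.map_mul, ← mul_sub, mul_comm,
    mul_dvd_mul_iff_left ((monic_X_sub_C _).map _).ne_zero, ← h.2.2, map_sub, sub_eq_zero] at e
  exact ⟨p, (m1 q).trans e⟩

end Pool.Agent.P.MP_8b7eba_nt.R2.G.AN
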