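import Pool.Agent.P.MP_8b7eba_nt.R3.ATNV2A

/-! Lemmas for NV2: the half of the socle does not occur. -/

namespace Pool.Agent.P.MP_8b7eba_nt.R2.G.AN

open scoped NNReal Matrix
open Filter Topology Polynomial
open TNV2 (ev ev_C ev_X ev_U ev_apply ev_ker lat red red_X red_two red_four tz_iff tz_norm
  sqrt_two)

variable {A : Type} [NormedCommRing A] [NormedAlgebra ℚ_[2] A] {ψ : ℤ_[2] → A} {D : Dat} {v : KA}
  {F : ℤ_[2][X]} [FiniteDimensional ℚ_[2] A]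

/-- the character on the socle -/
theorem sigma {s : ℕ} (hm : F.Monic) (hr : red F = X ^ s)
    (h : IsAF ψ ((F * (X - C (cc D))).map PadicInt.Coe.ringHom)) :
    ∃ (l : A →ₗ[ℚ_[2]] ℚ_[2]) (σ : ℤ_[2] → ℚ_[2]), l (ev ψ F) = 1 ∧ IsPsi σ ∧
      (∀ a, ψ a * ev ψ F = σ a • ev ψ F) ∧ σ 1 = sd D.dm D.gm ∧ ∀ a, 2 ∣ a → σ a = 1 := by
  have h0 : ev ψ F ≠ 0 := fun e => by
    obtain ⟨z, h1, h2⟩ := top hm hr h (t := 1) (p := 0) (by rw [e, smul_zero, map_zero])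
    rw [show z = 1 from Subtype.ext h1.symm, map_one, map_zero, coeff_zero] at h2
    exact one_ne_zero h2
  obtain ⟨l, hl⟩ := Module.Projective.exists_dual_eq_one ℚ_[2] h0
  have h1 : ∀ a, ψ a * ev ψ F = l (ψ a * ev ψ F) • ev ψ F := fun a => by
    obtain ⟨t, ht⟩ := socle h (ψ a)
    rw [ht, map_smul, hl, smul_eq_mul, mul_one]
  have h2 : IsPsi fun a => l (ψ a * ev ψ F) := by
    refine ⟨by rw [h.1.zero, one_mul, hl], fun a b => ?_,
      l.continuous_of_finiteDimensional.comp (h.1.cont.mul continuous_const), fun a => ?_⟩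
    · rw [h.1.add, mul_assoc, h1 b, mul_smul_comm, map_smul, smul_eq_mul, mul_comm, ← h1 b]
    · refine le_of_mul_le_mul_right ?_ (norm_pos_iff.2 h0)
      rw [← norm_smul, ← h1]
      exact (norm_mul_le _ _).trans (mul_le_mul_of_nonneg_right (h.1.le a) (norm_nonneg _))
  have h3 : l (ψ 1 * ev ψ F) = sd D.dm D.gm := by
    have := (h.2.2 _).2 dvd_rfl
    rw [← ev_apply, map_mul, ev_cc, mul_comm, sub_mul, sub_eq_zero] at this
    rw [this, ← zsmul_eq_mul, map_zsmul, hl, zsmul_eq_mul, mul_one]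
  refine ⟨l, _, hl, h2, h1, h3, ?_⟩
  rintro _ ⟨b, rfl⟩
  refine PadicInt.denseRange_natCast.induction_on b
    (isClosed_eq (h2.cont.comp (continuous_const.mul continuous_id)) continuous_const) fun n => ?_
  have := h2.nat (2 * n)
  rw [pow_mul, h3, sq, ← Int.cast_mul, sd_sq, Int.cast_one, one_pow] at this
  exact_mod_cast this

theorem eta (hALP : ALP) (D : Dat) {φ : GQ} (hφ : D.w2.IsFrob 1 φ) {t : ℚ_[2]} (ht : t * t = 1) :
    ∃ η : ℚ_[2], D.T.rd D.dm φ 0 0 * t = cq φ * η ∧ 8⁻¹ < ‖η - 1‖ := by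
  have h1 := hALP _ D.T φ D.hw2 hφ
  have h2 := D.T.det φ
  rw [Matrix.det_fin_two, D.T.up φ hφ.1, mul_zero, sub_zero] at h2
  have h0 : D.T.rho φ 1 1 ≠ 0 := fun e => by norm_num [e] at h1
  have h3 : sd D.dm φ * t = 1 ∨ sd D.dm φ * t = -1 := mul_self_eq_one_iff.1 (by
    rw [mul_mul_mul_comm, ht, ← Int.cast_mul, sd_sq, Int.cast_one, one_mul])
  refine ⟨sd D.dm φ * t / D.T.rho φ 1 1, ?_, not_le.1 fun e => ?_⟩
  · rw [← h2, Tate.rd, Matrix.smul_apply, smul_eq_mul]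
    field_simp
  have h4 : ‖sd D.dm φ * t - D.T.rho φ 1 1‖ ≤ 8⁻¹ := by
    rw [← div_mul_cancel₀ (sd D.dm φ * t) h0, ← sub_one_mul, norm_mul]
    exact (mul_le_of_le_one_right (norm_nonneg _) (D.T.int φ 1 1)).trans e
  rcases h3 with e' | e' <;> rw [e'] at h4
  · rw [norm_sub_rev, h1] at h4
    norm_num at h4
  · have := R2.SelA.add (h4.trans (show (8⁻¹ : ℝ) ≤ 4⁻¹ by norm_num)) h1.le
    rw [show -1 - D.T.rho φ 1 1 + (D.T.rho φ 1 1 - 1) = -2 by ring, norm_neg, R2.SelA.two] at this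
    norm_num at this

variable [IsUltrametricDist A]

theorem no_top (hCP : CP) (hALP : ALP) (hVAL : VAL) (H : Hyp D v) {s : ℕ} (hm : F.Monic)
    (hr : red F = X ^ (s + 1)) (hF : Dist (F.map PadicInt.Coe.ringHom))
    (h : IsAF ψ (F.map PadicInt.Coe.ringHom)) {w : Fin 2 → A}
    (hw : ∀ g ∈ S1 D.w2.D, raw ψ v g = rS (D.r ψ) g w - w)
    (hc : ∀ g ∈ D.w2.I, 2 ∣ D.a g → sd D.dm g = 1) {M : ℤ_[2][X]} (hM : red M = X ^ s)
    (h0 : 2 * w 0 = ev ψ M) : False := by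
  obtain ⟨A', _, _, _, _, ψ', μ, u, h', hd, m1, m2, m3, m4, m5⟩ := up hCP.afx H hF h (u := w 1)
    (by rw [hw _ SelB.f2_mem, Pi.sub_apply, Dat.rS_one h.1 SelB.f2_mem])
  obtain ⟨U, rfl⟩ := ord_ev hCP.afx H hd h' (m4 _ SelB.f2_mem)
  obtain ⟨l, σ, hl, hσ, s1, s2, s3⟩ := sigma hm hr h'
  obtain ⟨w', w0, w1⟩ : ∃ w' : Fin 2 → A', w' 0 = (2⁻¹ : ℚ_[2]) • ev ψ' M ∧ w' 1 = ev ψ' U :=
    ⟨![_, _], rfl, rfl⟩
  have two : ∀ (B : Type) [NormedCommRing B] [NormedAlgebra ℚ_[2] B] (b : B),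
      (2 : ℚ_[2]) • b = 2 * b := fun B _ _ b => by rw [two_smul, two_mul]
  have w2 : (fun i => μ (w' i)) = w := by
    refine funext (Fin.forall_fin_two.2 ⟨?_, w1 ▸ m5⟩)
    rw [w0, map_smul, ev_apply, m1, ← ev_apply, ← h0, ← two, inv_smul_smul₀ two_ne_zero]
  have w3 : 2 * w' 0 = ev ψ' M := by rw [w0, ← two, smul_inv_smul₀ two_ne_zero]
  obtain ⟨y, hy⟩ : ∃ y, y = raw ψ' v - fun g => rS (D.r ψ') g w' - w' := ⟨_, rfl⟩
  have y0 : PZ (fun _ => D.w2.D) (D.r ψ') y := hy ▸ ((H.2 A' ψ' h'.1).1.mono fun _ => D.D_le).sub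
    (D.rep h'.1) (pz_cob (D.rep h'.1) (fun _ => D.D_le) w')
  have y1 : ∀ g ∈ S1 D.w2.D, y g 1 = 0 := fun g hg => by
    rw [hy, Pi.sub_apply, Pi.sub_apply, Pi.sub_apply, Dat.rS_one h'.1 hg, m4 g hg, w1, sub_self]
  have y2 : ∀ g ∈ S1 D.w2.D, ∃ t : ℚ_[2], y g 0 = t • ev ψ' F := fun g hg => by
    have e : μ (y g 0) = 0 := by
      rw [hy, Pi.sub_apply, Pi.sub_apply, Pi.sub_apply, map_sub, map_sub, m3, hw g hg,
        congrFun (Dat.rS_map h'.1 μ ⊤ (fun a y _ => m2 a y) g (v := w') fun _ => trivial).1 0, w2,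
        congrFun w2 0, Pi.sub_apply, sub_self]
    obtain ⟨q, hq⟩ := h'.2.1 (y g 0)
    rw [← hq, m1, h.2.2] at e
    obtain ⟨q, rfl⟩ := e
    rw [← hq, map_mul, ← ev_apply, mul_comm]
    exact socle h' _
  have y3 : PZ (fun _ => D.w2.D) (D.th σ 0) fun g => ((2 : ℚ_[2]) • l) (y g 0) :=
    (y0.zero_thG h'.1 y1).map _ fun g _ g' hg' => (D.rep_th h'.1 0).rS_map _ (.of_forall fun k => by
      obtain ⟨t, ht⟩ := y2 g' hg'
      simp only [ht, SelA.th_apply, smul_mul_assoc, s1, LinearMap.smul_apply,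
        map_smul, hl, smul_eq_mul]
      ring)
  have y4 : ∀ g ∈ S1 D.w2.D, ∃ a z : ℤ_[2], Tendsto (fun k => D.a (g k)) UF (𝓝 a) ∧
      ((2 : ℚ_[2]) • l) (y g 0) = z ∧ PadicInt.toZMod z = PadicInt.toZMod a := fun g hg => by
    obtain ⟨a, z, h1, -, h2⟩ := lim D g
    obtain ⟨t, ht⟩ := y2 g hg
    obtain ⟨P, hP⟩ := raw_ev hd.1 h' H.1 g 0
    obtain ⟨m, p, hp, ha⟩ := psi_ev hd.1 h' a
    obtain ⟨c, c1, c2⟩ := top hm hr h' (t := 2 * t) (p := 2 * P - (((1 + X) ^ m + 4 * p) *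
      (M + 2 * (C (z 0 0) * M + 2 * C (z 0 1) * U)) - M)) (by
        rw [mul_smul, ← ht, hy, Pi.sub_apply, Pi.sub_apply, Pi.sub_apply, h2 A' ψ' h'.1, hP, hp, w1,
          two]
        simp only [map_sub, map_mul, map_add (ev ψ') M, map_add (ev ψ') (_ * M), map_ofNat, ← w3]
        ring)
    refine ⟨a, c, h1, by rw [ht, ← c1]; simp [hl, mul_comm], ?_⟩
    rw [c2, ha]
    simp only [map_sub, map_mul, map_add, map_pow, map_one, red_two, red_four, red_X, hM, zero_mul,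
      add_zero, zero_sub, coeff_sub, CharTwo.neg_eq]
    rw [add_comm s, coeff_mul_X_pow, coeff_one_add_X_pow, coeff_X_pow, if_neg (by omega),
      Nat.choose_one_right, sub_zero]
  obtain ⟨r, hr2, hs⟩ := sqrt_two hCP.ec hCP.lg
  obtain ⟨f, φ, -, -, hφ, hf, -⟩ := hCP.frob D.w2 _ D.w2.loc_D
  rw [hf rfl] at hφ
  obtain ⟨η, e1, e2⟩ := eta hALP D hφ (t := σ (D.a φ)) (by
    rw [← hσ.add, s3 _ ⟨_, (two_mul _).symm⟩])
  have par : ∀ a : ℤ_[2], ¬ 2 ∣ a → 2 ∣ a - 1 := fun a e => by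
    rw [← tz_iff] at e ⊢
    rw [map_sub, map_one, (TNV2.z2 _).resolve_left e, sub_self]
  refine hVAL D.w2 φ η r _ _ D.hw2 hr2 (D.rep_th hσ 0) (fun g hg x => ?_) hφ
    (fun x => by rw [SelA.th_apply, smul_eq_mul, e1]) e2 y3 (fun g hg => ?_) fun g hg => ?_
  · rw [SelA.th_apply, smul_eq_mul, (rdI D hg).1, mul_right_comm (sd _ _ : ℚ_[2])]
    by_cases e : 2 ∣ D.a g
    · rw [hc g hg e, s3 _ e, Int.cast_one, one_mul, one_mul]
    have hK := D.D_le (D.w2.I_le_D D.gI)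
    have := hc _ (mul_mem hg (inv_mem D.gI)) (by
      rw [D.an.add _ (D.D_le (D.w2.I_le_D hg)) _ (inv_mem hK), D.an.inv hK, D.ga, ← sub_eq_add_neg]
      exact par _ e)
    rw [sd_mul D.fix_dm, sd_inv] at this
    rw [← sub_add_cancel (D.a g) 1, hσ.add, s3 _ (par _ e), s2, one_mul, ← Int.cast_mul, this,
      Int.cast_one, one_mul]
  · obtain ⟨a, z, -, e, -⟩ := y4 g hg
    exact e ▸ z.2
  · obtain ⟨a, z, h1, e, e'⟩ := y4 g (S1_mono D.w2.I_le_D hg)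
    obtain ⟨u, hu⟩ := D.an.two
    have h2 : ∀ᶠ k in UF, (g k r = r ↔ 2 ∣ a) := by
      filter_upwards [mem_St.1 hg, (tendsto_iff_norm_sub_tendsto_zero.1 h1).eventually_lt_const
        one_pos] with k h3 h4
      rw [hs, ← u.isUnit.dvd_mul_left, ← hu _ h3]
      exact dvd_iff_dvd_of_dvd_sub ((PadicInt.norm_lt_one_iff_dvd _).1 h4)
    rw [eventually_congr h2, eventually_const, e, ← tz_iff, ← e', tz_norm]
    rfl

end Pool.Agent.P.MP_8b7eba_nt.R2.G.AN
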