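import Pool.Agent.P.MP_8b7eba_nt.R3.ASel

/-! Quadratic characters with prescribed ramification. -/

namespace Pool.Agent.P.MP_8b7eba_nt.R2.G.TOBS

open scoped NNReal

/-- locally constant characters with values `1` and `-1` -/
structure Sg (K : Subgroup GQ) (b : GQ → Om) : Prop where
  sm : Sm K b
  sq : ∀ g ∈ K, b g ^ 2 = 1
  mul : ∀ g ∈ K, ∀ h ∈ K, b (g * h) = b g * b h

variable {K K' U : Subgroup GQ} {b b' : GQ → Om}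

theorem ne0 {x : Om} (h : x ^ 2 = 1) : x ≠ 0 := fun e => by simp [e] at h

theorem gal {x : Om} (h : x ^ 2 = 1) (g : GQ) : g x = x := by
  rcases sq_eq_one_iff.1 h with rfl | rfl <;> simp

theorem Sg.one (h : Sg K b) : b 1 = 1 := by
  have := h.mul 1 K.one_mem 1 K.one_mem
  rw [one_mul] at this
  exact (mul_eq_left₀ (ne0 (h.sq 1 K.one_mem))).1 this.symm

theorem Sg.pow (h : Sg K b) {g : GQ} (hg : g ∈ K) (r : ℕ) : b (g ^ r) = b g ^ r := by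
  induction r with
  | zero => simpa using h.one
  | succ r ih => rw [pow_succ, h.mul _ (K.pow_mem hg r) _ hg, ih, pow_succ]

theorem Sg.mono (h : Sg K b) (h' : K' ≤ K) : Sg K' b :=
  ⟨h.sm.mono h', fun g hg => h.sq g (h' hg), fun g hg k hk => h.mul g (h' hg) k (h' hk)⟩

theorem Sg.conj (h : Sg K b) {u j : GQ} (hu : u ∈ K) (hj : j ∈ K) : b (u * j * u⁻¹) = b j := by
  have e := h.mul _ (K.mul_mem (K.mul_mem hu hj) (K.inv_mem hu)) u hu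
  rw [inv_mul_cancel_right, h.mul u hu j hj, mul_comm] at e
  exact (mul_right_cancel₀ (ne0 (h.sq u hu)) e).symm

theorem sg_root {δ : Om} (h0 : δ ≠ 0) (h : Fix K (δ ^ 2)) : Sg K fun g => g δ / δ := by
  have s : ∀ g ∈ K, (g δ / δ) ^ 2 = 1 := fun g hg => by
    rw [div_pow, ← map_pow, h g hg, div_self (pow_ne_zero 2 h0)]
  refine ⟨(sm_apply δ).comp (· / δ), s, fun g hg k hk => ?_⟩
  have := gal (s k hk) g
  rw [map_div₀, div_eq_iff ((map_ne_zero g).2 h0)] at this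
  rw [AlgEquiv.mul_apply, this]
  ring

theorem Sg.det (h : Sg K b) : ∃ N, ON N ∧ ∀ t ∈ K, ∀ g ∈ K, ∀ m r : ℕ, Odd r →
    (g * (t ^ m)⁻¹) ^ r ∈ N → b g = b t ^ m := by
  obtain ⟨N, hN, e⟩ := h.sm
  refine ⟨N, hN, fun t ht g hg m r ⟨k, hr⟩ hm => ?_⟩
  have h1 := K.mul_mem hg (K.inv_mem (K.pow_mem ht m))
  have h2 := e 1 K.one_mem _ (K.pow_mem h1 r) hm
  rw [one_mul, h.one, h.pow h1, hr, pow_succ, pow_mul, h.sq _ h1, one_pow, one_mul] at h2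
  rw [← h.pow ht, ← inv_mul_cancel_right g (t ^ m), h.mul _ h1 _ (K.pow_mem ht m), h2, one_mul]

theorem uniq (hA : CA) {w : Pl} (h2 : w.p ≠ 2) (hU : IsOpen (U : Set GQ)) (h : Sg (w.I ⊓ U) b)
    (h' : Sg (w.I ⊓ U) b') (e : ∃ g ∈ w.I ⊓ U, b g ≠ 1) (e' : ∃ g ∈ w.I ⊓ U, b' g ≠ 1) :
    ∀ g ∈ w.I ⊓ U, b g = b' g := by
  obtain ⟨π, -, -, hπ, -⟩ := hA.unif w U hU
  have k : w.I ⊓ (w.D ⊓ U) = w.I ⊓ U := by rw [← inf_assoc, inf_eq_left.2 w.I_le_D]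
  obtain ⟨⟨t, ht, hβ⟩, -⟩ := hA.tame w _ π h2 (w.loc_inf hU) (k.symm ▸ hπ)
  obtain ⟨N, hN, d⟩ := h.det
  obtain ⟨N', hN', d'⟩ := h'.det
  have q := (hA.tame2 w _ π t h2 (w.loc_inf hU) (k.symm ▸ hπ) ht hβ _ (hN.inf hN')).1
  rw [k] at q ht
  have z : ∀ {c : GQ → Om}, Sg (w.I ⊓ U) c → (∃ g ∈ w.I ⊓ U, c g ≠ 1) →
      (∀ g ∈ w.I ⊓ U, ∃ m : ℕ, c g = c t ^ m) → c t = -1 := fun hc ⟨g, hg, h1⟩ a =>
    (sq_eq_one_iff.1 (hc.sq t ht)).resolve_left fun h3 => by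
      obtain ⟨m, hm⟩ := a g hg
      exact h1 (by rw [hm, h3, one_pow])
  intro g hg
  obtain ⟨m, r, hr, hm⟩ := q g hg
  rw [d t ht g hg m r hr hm.1, d' t ht g hg m r hr hm.2,
    z h e fun g hg => let ⟨m, r, hr, hm⟩ := q g hg; ⟨m, d t ht g hg m r hr hm.1⟩,
    z h' e' fun g hg => let ⟨m, r, hr, hm⟩ := q g hg; ⟨m, d' t ht g hg m r hr hm.2⟩]

theorem unr (hA : CA) {w : Pl} (h2 : w.p ≠ 2) {δ : Om} (hf : Fix U (δ ^ 2)) (hv : w.v (δ ^ 2) = 1)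
    {g : GQ} (hg : g ∈ w.I ⊓ U) : g δ / δ = 1 := by
  have h1 : w.v δ = 1 := (pow_eq_one_iff_of_nonneg zero_le two_ne_zero).1 (by rwa [← map_pow])
  rw [(GrpA.tame hA.tame hA.res h2).2.1 g hg.1 1 δ h1
    (hf.mono (Subgroup.zpowers_le_of_mem hg.2)), div_self fun e => by simp [e] at h1]

theorem conj_mem {w : Pl} {u j : GQ} (hu : u ∈ U) (hj : j ∈ w.I ⊓ U) :
    u * j * u⁻¹ ∈ (u • w).I ⊓ U :=
  ⟨Pl.mem_I_smul.2 (by simpa [mul_assoc] using hj.1), U.mul_mem (U.mul_mem hu hj.2) (U.inv_mem hu)⟩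

theorem odd {d : ℤ} {w : Pl} (h : ¬ (w.p : ℤ) ∣ 30 * d) : w.p ≠ 2 := fun e =>
  h (by rw [e]; exact Dvd.dvd.mul_right (by norm_num) _)

section

variable (hA : CA) (hVN : VN) (D : Dat) {n : ℕ} (hU : U = D.Gd (2 ^ n)) (ho : IsOpen (U : Set GQ))
  (h1 : ∀ w : Pl, ¬ (w.p : ℤ) ∣ 30 * D.m → Sg (w.I ⊓ U) b)
  (h2 : ∀ w : Pl, ¬ (w.p : ℤ) ∣ 30 * D.m → ∀ u ∈ U, ∀ j ∈ w.I ⊓ U, b (u * j * u⁻¹) = b j)
include hA hVN hU ho h1 h2

theorem one_place (w : Pl) : ∃ δ : Om, δ ≠ 0 ∧ Fix U (δ ^ 2) ∧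
    ∀ w' : Pl, ¬ (w'.p : ℤ) ∣ 30 * D.m → ∀ j ∈ w'.I ⊓ U,
      (Out U {w} w' → j δ / δ = 1) ∧ ∀ u ∈ U, u • w' = w → j δ / δ = b j := by
  by_cases hw : ¬ (w.p : ℤ) ∣ 30 * D.m ∧ ∃ g ∈ w.I ⊓ U, b g ≠ 1
  · obtain ⟨x, hx, x0, xe, xv⟩ := (hVN D n U hU).2.2 w (odd hw.1)
    obtain ⟨δ, rfl⟩ := exists_root x two_ne_zero
    have d0 : δ ≠ 0 := fun e => x0 (by simp [e])
    refine ⟨δ, d0, hx, fun w' hw' j hj => ⟨fun h => unr hA (odd hw') hx (xv w' (odd hw') h) hj, ?_⟩⟩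
    rintro u hu rfl
    have s := sg_root d0 hx
    rw [← h2 w' hw' u hu j hj]
    refine (s.conj hu hj.2).symm.trans (uniq hA (odd hw.1) ho (s.mono inf_le_right) (h1 _ hw.1) ?_
      hw.2 _ (conj_mem hu hj))
    by_contra hc
    obtain ⟨π, hπ, -, hp, -⟩ := hA.unif (u • w') U ho
    obtain ⟨k, hk⟩ := hp.2.2.2 δ
      (fun g hg => (div_eq_one_iff_eq d0).1 (not_not.1 fun h => hc ⟨g, hg, h⟩)) d0
    exact xe ⟨π ^ k, (hπ.zpow k).mono inf_le_right, by rw [map_pow, hk, map_zpow₀]⟩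
  · refine ⟨1, one_ne_zero, by simpa using fix_one, fun w' hw' j hj => ⟨fun _ => by simp, ?_⟩⟩
    rintro u hu rfl
    rw [← h2 w' hw' u hu j hj, map_one, div_one]
    exact (not_not.1 fun h => hw ⟨hw', _, conj_mem hu hj, h⟩).symm

theorem adjust (hs : Sm U b) (h0 : b 1 = 1) (h3 : Sg (D.w2.D ⊓ U) b) :
    ∃ χ, Sg U χ ∧ (∀ j ∈ D.w2.D ⊓ U, χ j = b j) ∧
      ∀ w : Pl, ¬ (w.p : ℤ) ∣ 30 * D.m → ∀ j ∈ w.I ⊓ U, χ j = b j := by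
  classical
  obtain ⟨N, hN, e⟩ := hs
  obtain ⟨B, hB⟩ := hA.genp.2.1 N hN
  obtain ⟨R, hR, hP⟩ := (hA.orb U ho).2.1 (Finset.range (B + 1))
  choose δ d0 df dv using one_place hA hVN D hU ho h1 h2
  have y0 : ∏ w ∈ R, δ w ≠ 0 := Finset.prod_ne_zero_iff.2 fun w _ => d0 w
  have yf : Fix U ((∏ w ∈ R, δ w) ^ 2) := by
    rw [← Finset.prod_pow]
    exact Fix.prod fun w _ => df w
  have s := sg_root y0 yf
  have s1 : ∀ w : Pl, ¬ (w.p : ℤ) ∣ 30 * D.m → ∀ j ∈ w.I ⊓ U,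
      j (∏ w ∈ R, δ w) / ∏ w ∈ R, δ w = b j := by
    intro w hw j hj
    rw [map_prod, ← Finset.prod_div_distrib]
    by_cases h : Out U R w
    · have := e 1 U.one_mem j hj.2 (hB w (by simpa using (hP w).1 h) hj.1)
      rw [one_mul, h0] at this
      rw [this]
      exact Finset.prod_eq_one fun w' hw' => (dv w' w hw j hj).1 (h.mono (by simpa using hw'))
    · obtain ⟨u, hu, h⟩ : ∃ u ∈ U, u • w ∈ R := by simpa [Out] using h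
      rw [Finset.prod_eq_single_of_mem _ h fun w' hw' ne => (dv w' w hw j hj).1 fun u' hu' q => ?_]
      · exact (dv _ w hw j hj).2 u hu rfl
      · have q' : (u' * u⁻¹) • u • w = w' := by rw [smul_smul, inv_mul_cancel_right]; exact q
        exact ne (q'.symm.trans (hR _ h _ (U.mul_mem hu' (U.inv_mem hu)) (q' ▸ hw')))
  have s' := s.mono (inf_le_right : D.w2.D ⊓ U ≤ U)
  have q : ∀ g ∈ D.w2.D ⊓ U, (b g * (g (∏ w ∈ R, δ w) / ∏ w ∈ R, δ w)) ^ 2 = 1 := fun g hg => by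
    rw [mul_pow, h3.sq g hg, s'.sq g hg, one_mul]
  obtain ⟨y, hy, ey⟩ := (hA.gal _ (D.w2.loc_inf ho).closed).2.1 _ (h3.sm.comp₂ s'.sm (· * ·))
    (fun g hg => ne0 (q g hg)) fun g hg k hk => by
      rw [gal (q k hk), h3.mul g hg k hk, s'.mul g hg k hk]
      ring
  have yy : Fix (D.w2.D ⊓ U) (y ^ 2) := fun g hg => by
    rw [map_pow, ← ey g hg, mul_pow, q g hg, one_mul]
  obtain ⟨x, hx, x0, xv, z, hz, ez⟩ := (hVN D n U hU).2.1 _ yy (pow_ne_zero 2 hy)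
  obtain ⟨η, rfl⟩ := exists_root x two_ne_zero
  have e0 : η ≠ 0 := fun e => x0 (by simp [e])
  have t := sg_root e0 hx
  refine ⟨fun g => g η / η * (g (∏ w ∈ R, δ w) / ∏ w ∈ R, δ w), ⟨t.sm.comp₂ s.sm (· * ·),
    fun g hg => by rw [mul_pow, t.sq g hg, s.sq g hg, one_mul],
    fun g hg k hk => by rw [t.mul g hg k hk, s.mul g hg k hk]; ring⟩, fun j hj => ?_,
    fun w hw j hj => by beta_reduce; rw [unr hA (odd hw) hx (xv w (odd hw)) hj, one_mul, s1 w hw j hj]⟩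
  rw [← mul_pow] at ez
  have f := (sq_iff (ez ▸ hz.pow 2)).1 ⟨z, hz, ez⟩ j hj
  rw [map_mul, ← ey j hj, ← mul_assoc, mul_left_inj' hy] at f
  have g := h3.sq j hj
  beta_reduce
  rw [div_mul_eq_mul_div, div_eq_iff e0]
  linear_combination b j * f - j η * (j (∏ w ∈ R, δ w) / ∏ w ∈ R, δ w) * g

end

end Pool.Agent.P.MP_8b7eba_nt.R2.G.TOBS
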