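import Pool.Agent.P.MP_8b7eba_nt.R3.AIf
import Pool.Agent.P.MP_8b7eba_nt.R2.DefsH

/-! Heegner points of arbitrary conductor: definitions and statements. -/

namespace Pool.Agent.P.MP_8b7eba_nt.R2.G

open scoped NNReal
open MP_9c97e9_nt (pm Is ap)
open BSD15 (OO Good nm cj)
open _root_.Pool.Agent.P.MP_8b7eba_nt.Mod (M2 G0 xx al)
open R1 (QF Hg uu emb Dl psi Pz KF U8 IntPt)

noncomputable section

/-- admissible conductors: all positive integers -/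
def Cd (c : ℕ) : Prop := c ≠ 0 ∧ True

open Classical in
/-- the Galois group of the 2-part of the ring class field -/
def NH (P : Pre) (c : ℕ) : Subgroup GQ :=
  if Cd c then Subgroup.closure {g | g ∈ P.GK ∧ ar P.l c g ∈ Od P.l c} else P.GK

open Classical in
/-- the trace of the Heegner point -/
def yH (l : ℕ) [Hl l] (c : ℕ) : EO := if Cd c then ∑ᶠ a : Od l c, HP a.1 else 0

/-- the genus character -/
def chi {l : ℕ} [Hl l] (d : ℤ) {c : ℕ} (a : RC l c) : ℤ := R3.kc d (nm (rp a))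

/-- the twisted Heegner point -/
def ZC (l : ℕ) [Hl l] (d : ℤ) (c : ℕ) : EO := ∑ᶠ a : RC l c, chi d a • HP a

end

/-- the action of Frobenius elements -/
def FRB : Prop :=
  ∀ (P : Pre) (c : ℕ), Cd c → ∃ B : ℕ, ∀ (w : Pl) (φ : GQ), B < w.p → φ ∈ P.GK → w.IsFrob 1 φ →
    ∀ a : RC P.l c, ac φ (HP (cl c (pw P.l w) * a)) = HP a ∧ φ (JO (cl c (pw P.l w) * a)) = JO a

/-- the main theorem of complex multiplication -/
def ARX : Prop := ∀ (P : Pre) (c : ℕ), Cd c → IsAr P c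

/-- the local behaviour of the Artin map -/
def ARL : Prop :=
  ∀ (P : Pre) (c : ℕ) (w : Pl), Cd c →
    (¬ w.p ∣ c → ∀ g ∈ w.I ⊓ P.GK, ar P.l c g ∈ Od P.l c) ∧
    (¬ w.p ∣ 2 * c * P.l → ∀ φ ∈ P.GK, w.IsFrob 1 φ →
      (ar P.l c φ)⁻¹ * cl c (pw P.l w) ∈ Od P.l c) ∧
    (¬ w.p ∣ 30 * P.l * c → ¬ w.D ≤ P.GK → ∀ x : RC P.l (c * w.p),
      pr (Nat.dvd_mul_right c w.p) x ∈ Od P.l c →
      ∃ i ∈ w.I, (ar P.l (c * w.p) i)⁻¹ * x ∈ Od P.l (c * w.p))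

/-- the Hecke relation at an inert prime -/
def TRI : Prop :=
  ∀ (P : Pre) (c : ℕ) (w : Pl) (a : RC P.l c), Cd c → ¬ w.p ∣ 30 * P.l * c → ¬ w.D ≤ P.GK →
    ∑ᶠ b ∈ {b | pr (Nat.dvd_mul_right c w.p) b = a}, HP b = ap W15 w.p • HP a ∧
    ∀ F, w.IsFrob 1 F → ac F (ac F (HP a)) = HP a →
      ∀ b, pr (Nat.dvd_mul_right c w.p) b = a → E1 w (ac F (HP b) - HP a)

/-- the Hecke relation at a split prime -/
def TRS : Prop :=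
  ∀ (P : Pre) (c : ℕ) (w : Pl) (a : RC P.l c), Cd c → ¬ w.p ∣ 30 * P.l * c → w.D ≤ P.GK →
    ∑ᶠ b ∈ {b | pr (Nat.dvd_mul_right c w.p) b = a}, HP b =
      ap W15 w.p • HP a - HP (cl c (pw P.l w) * a) - HP ((cl c (pw P.l w))⁻¹ * a)

/-- the groups and the traces -/
def HE1 : Prop :=
  ∀ (P : Pre) (c : ℕ), Cd c → (∀ g, g ∈ NH P c ↔ g ∈ P.GK ∧ ar P.l c g ∈ Od P.l c) ∧ ON (NH P c) ∧
    (∀ g ∈ P.GK, ac g (yH P.l c) = ∑ᶠ a : Od P.l c, HP ((ar P.l c g)⁻¹ * a.1)) ∧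
    ∀ (q : ℕ), Cd (c * q) → NH P (c * q) ≤ NH P c ∧
      (NH P (c * q)).relIndex (NH P c) =
        2 ^ padicValNat 2 (Nat.card (pr (l := P.l) (Nat.dvd_mul_right c q)).ker) ∧
      csum (NH P c) (NH P (c * q)) (fun s => ac s (yH P.l (c * q))) =
        ∑ᶠ a : Od P.l c, ∑ᶠ b ∈ {b | pr (Nat.dvd_mul_right c q) b = a.1}, HP b ∧
      ∀ (M : Type) [AddCommGroup M] (f : RC P.l c → M) (x : RC P.l (c * q)),
        ∑ᶠ b : Od P.l (c * q), f (pr (Nat.dvd_mul_right c q) (x * b.1)) =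
        (Nat.card (pr (l := P.l) (Nat.dvd_mul_right c q)).ker /
          2 ^ padicValNat 2 (Nat.card (pr (l := P.l) (Nat.dvd_mul_right c q)).ker)) •
          ∑ᶠ a : Od P.l c, f (pr (Nat.dvd_mul_right c q) x * a.1)

/-- the Hecke relation at two, first step -/
def H2A : Prop :=
  ∀ (l : ℕ) [Hl l] (c : ℕ), Cd c → Odd c → ∃ x : RC l c, ∀ a : RC l c,
    ∑ᶠ b ∈ {b | pr (Nat.dvd_mul_right c 2) b = a}, HP b =
      Mod.an 2 • HP a - HP (x * a) - HP (x⁻¹ * a)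

/-- the Hecke relation at two, further steps -/
def H2B : Prop :=
  ∀ (l : ℕ) [Hl l] (c : ℕ), Cd c → ∀ a : RC l (c * 2),
    ∑ᶠ b ∈ {b | pr (Nat.dvd_mul_right (c * 2) 2) b = a}, HP b =
      Mod.an 2 • HP a - HP (pr (Nat.dvd_mul_right c 2) a)

/-- the Hecke relation at a prime of bad reduction -/
def TRB : Prop :=
  ∀ (P : Pre) (c : ℕ) (w : Pl), Cd c → w.p ∣ 15 → ¬ w.p ∣ c → ∃ t : ℤ, Odd t ∧ ∃ x : RC P.l c,
    (x = cl c (pw P.l w) ∨ x = (cl c (pw P.l w))⁻¹) ∧ ∀ a : RC P.l c,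
      ∑ᶠ b ∈ {b | pr (Nat.dvd_mul_right c w.p) b = a}, HP b = t • HP a - HP (x * a)

/-- arithmetic of the Kronecker symbol -/
def KC : Prop :=
  ∀ d : ℤ, Squarefree d → R3.cd d ≠ 0 ∧ Odd (R3.od d) ∧ R3.cd d ∣ 8 * R3.od d ∧
    (∀ p : ℕ, p.Prime → p ≠ 2 → (p ∣ R3.od d ↔ (p : ℤ) ∣ d)) ∧ Squarefree (R3.od d) ∧
    (R3.cd d = R3.od d ∨ R3.cd d = 4 * R3.od d ∨ R3.cd d = 8 * R3.od d) ∧
    (∀ x y, R3.kc d (x * y) = R3.kc d x * R3.kc d y) ∧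
    (∀ x y, (R3.cd d : ℤ) ∣ x - y → R3.kc d x = R3.kc d y) ∧
    (∀ x, IsCoprime x (R3.cd d) → R3.kc d x * R3.kc d x = 1) ∧
    (∀ p : ℕ, p.Prime → p ≠ 2 → R3.kc d p = jacobiSym d p) ∧
    (2 ∣ R3.cd d → ∀ x, (R3.cd d : ℤ) ∣ x - (1 + (R3.cd d / 2 : ℕ)) → R3.kc d x = -1)

/-- the genus character -/
def CHI : Prop :=
  ∀ (l : ℕ) [Hl l] (d : ℤ) (c : ℕ), Squarefree d → R3.cd d ∣ c →
    (∀ I : Ideal (OO l), Ad c I → chi d (cl c I) = R3.kc d (nm I)) ∧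
    (∀ a b : RC l c, chi d (a * b) = chi d a * chi d b) ∧
    (∀ a : RC l c, chi d a * chi d a = 1 ∧ chi d a⁻¹ = chi d a ∧ (a ∈ Od l c → chi d a = 1)) ∧
    ∀ (c' : ℕ) (h : c ∣ c') (b : RC l c'), chi d (pr h b) = chi d b

/-- genus theory -/
def GEN2 : Prop :=
  ∀ (P : Pre) (d : ℤ) (δ : Om) (c : ℕ), Squarefree d → δ ^ 2 = d → Cd c → R3.cd d ∣ c →
    ∀ g ∈ P.GK, sd δ g = chi d (ar P.l c g)

/-- torsion goes up -/
def TR2 : Prop :=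
  ∀ (l : ℕ) [Hl l] (d : ℤ), Squarefree d → IsOfFinAddOrder (ZC l d (R3.cd d)) →
    ∀ k c : ℕ, c = 2 ^ k * R3.cd d → IsOfFinAddOrder (ZC l d c)

/-- the Heegner system -/
def HEX : Prop :=
  ∀ (P : Prg) (a : GQ → ℤ_[2]), Anti P.toPre a → Pw P.toPre a → S2 P.toPre a ∧
    ∃ H : Heeg P a, H.N = NH P.toPre ∧ H.y = yH P.l ∧ JP H

/-- the trace of the Heegner point -/
def TOR : Prop :=
  (∀ (D : Dat) (H : Heeg D.toPrg D.a) (k : ℕ), H.N = NH D.toPre → H.y = yH D.l →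
    ∑ j, D.PP H [] k j = ZC D.l D.m (D.ck [] k)) ∧
  ∀ P : Prg, ∀ g ∈ P.GK, tac P.dm g (ZC P.l P.m (R3.cd P.m)) = ZC P.l P.m (R3.cd P.m)

/-- the form attached to an ideal -/
def REP1 : Prop :=
  ∀ (l : ℕ) [Hl l] (d : ℤ), R3.Hy l d → ∀ I : Ideal (OO l), Ad (R3.cd d) I →
    ∃ Q, Hg (l * R3.cd d ^ 2) (rH l (R3.cd d)) Q ∧ Q.tau = hz (R3.cd d) I ∧
      R3.hw l d (rH l (R3.cd d)) Q = R3.kc d (nm I)

/-- the ideal attached to a form -/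
def REP2 : Prop :=
  ∀ (l : ℕ) [Hl l] (d : ℤ), R3.Hy l d → ∀ Q, Hg (l * R3.cd d ^ 2) (rH l (R3.cd d)) Q →
    R3.hw l d (rH l (R3.cd d)) Q ≠ 0 → (∀ g : M2, g.det = 1 → Q.cmp g = Q → g = 1 ∨ g = -1) ∧
    ∃ I : Ideal (OO l), Ad (R3.cd d) I ∧ ∃ g, G0 g ∧ g.act (hz (R3.cd d) I) = Q.tau

/-- the Heegner point in terms of forms -/
def REPS : Prop :=
  ∀ (l : ℕ) [Hl l] (d : ℤ), R3.Hy l d → ∃ (ρ : ℤ) (S : Finset QF),
    R3.Rs (l * R3.cd d ^ 2) ρ (R3.hw l d ρ) S ∧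
      pm W15 io (ZC l d (R3.cd d)) = uu (R3.ZS S (R3.hw l d ρ))

/-- the auxiliary data exist -/
def PRG : Prop :=
  ∀ (w : Pl) (l : ℕ) (d : ℤ) (dl sk : Om), w.p = 2 → R3.Hy l d → dl ^ 2 = d → sk ^ 2 = -l →
    ∃ P : Prg, P.l = l ∧ P.m = d ∧ P.dm = dl ∧ P.sk = sk ∧ P.w2 = w

end Pool.Agent.P.MP_8b7eba_nt.R2.G
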