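import Pool.Agent.P.MP_8b7eba_nt.R3.AY
import Pool.Agent.P.MP_8b7eba_nt.R2.CMA

/-! Heegner points of arbitrary conductor are integral. -/

namespace Pool.Agent.P.MP_8b7eba_nt.R1.G

open Complex Filter Topology MeasureTheory Metric Finset Asymptotics PowerSeries
open scoped Real UpperHalfPlane MatrixGroups ComplexConjugate
open _root_.Pool.Agent.P.MP_8b7eba_nt.Mod (M2 G0 FI L0 om lv xx yy qq UH atI ex mT)

theorem Int_exp {m : ℕ} (hm : ∀ a, m ≠ a * a) (h1 : 1 < m) {t : ℕ × ℕ × ℕ} (ht : t ∈ IntR m) :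
    ∃ (N : ℕ) (T : Zb⟦X⟧), 0 < N ∧ IsUnit (constantCoeff T) ∧
      QE m N T fun z => xx z - xx ((IntM t).act z) := by
  obtain ⟨a, b, d⟩ := t
  obtain ⟨h2, h3⟩ := (Int_mem (by omega)).1 ht
  simp only at h2 h3
  have a0 : 0 < a := Nat.pos_of_ne_zero (by rintro rfl; omega)
  obtain ⟨A, hA, hx⟩ := exists_xx
  have q1 := hx.expand_one (w := m) (by omega)
  have q2 := (hx.subst (w := m) (e := a * a) (b : ℤ) a0 (show 0 < d by omega) (by omega)
    (by positivity) (by rw [← h2]; ring)).congr (H := fun z => xx ((IntM (a, b, d)).act z))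
    fun z _ => by simp [IntM, M2.act, Mod.mob]
  have c0 : constantCoeff (zs A) = 1 := by
    rw [← coeff_zero_eq_constantCoeff_apply, coeff_map, coeff_zero_eq_constantCoeff_apply, hA,
      map_one]
  rcases lt_trichotomy m (a * a) with h | h | h
  · have q3 := q1.shift (a * a * 2 - m * 2)
    rw [show m * 2 + (a * a * 2 - m * 2) = a * a * 2 by omega] at q3
    refine ⟨_, _, by omega, ?_, q3.sub q2⟩
    rw [map_sub, map_mul, map_mul, map_pow, constantCoeff_X, zero_pow (by omega), zero_mul,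
      zero_sub, constantCoeff_C, constantCoeff_expand, ← coeff_zero_eq_constantCoeff_apply,
      coeff_rescale, coeff_zero_eq_constantCoeff_apply, c0, pow_zero, mul_one, mul_one]
    exact (isUnit_ze _ _).neg
  · exact absurd h (hm a)
  · have q3 := q2.shift (m * 2 - a * a * 2)
    rw [show a * a * 2 + (m * 2 - a * a * 2) = m * 2 by omega] at q3
    refine ⟨_, _, by omega, ?_, q1.sub q3⟩
    rw [map_sub, map_mul, map_pow, constantCoeff_X, zero_pow (by omega), zero_mul, sub_zero,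
      constantCoeff_expand, c0]
    exact isUnit_one

theorem intPt_of_fix {m : ℕ} (hm : ∀ a, m ≠ a * a) (h1 : 1 < m) (h15 : m.Coprime 15) {M : M2}
    (hM : M.det = m) (hc : 15 ∣ M.c) {z : ℂ} (hz : 0 < z.im) (h : M.act z = z) : IntPt z := by
  have m0 : 0 < m := by omega
  have hd : ∀ t ∈ IntR m, 0 < (IntM t).det := fun t ht => by rw [Int_det m0 ht]; omega
  choose! N T hN hT hq using fun t (ht : t ∈ IntR m) => Int_exp hm h1 ht
  obtain ⟨t₀, ht₀, γ, hγ, e⟩ := Int_exists m0 h15 hM hc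
  have q := QE.prod m0 (IntR m) hq
  have hi : ∀ g, G0 g → ∀ z : ℂ, 0 < z.im →
      (fun z => ∏ t ∈ IntR m, (xx z - xx ((IntM t).act z))) (g.act z) =
        (fun z => ∏ t ∈ IntR m, (xx z - xx ((IntM t).act z))) z :=
    fun g hg z hz => Int_inv m0 h15 hg hz
  have hp : ∀ z : ℂ, 0 < z.im → (fun z => ∏ t ∈ IntR m, (xx z - xx ((IntM t).act z))) (z + 1) =
      (fun z => ∏ t ∈ IntR m, (xx z - xx ((IntM t).act z))) z := fun z hz => by
    have := hi _ (Mod.G0_mT 1) z hz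
    rwa [Mod.act_mT, Int.cast_one] at this
  have hu : IsUnit (coeff 0 (∏ t ∈ IntR m, T t)) := by
    rw [coeff_zero_eq_constantCoeff_apply, map_prod]
    exact IsUnit.prod_iff.2 hT
  obtain ⟨k, hk⟩ := q.dvd_of_periodic m0 hp hu.ne_zero
  have k0 : 0 < k := Nat.pos_of_ne_zero (by
    rintro rfl
    have := (sum_eq_zero_iff.1 hk) t₀ ht₀
    have := hN t₀ ht₀
    omega)
  rw [hk] at q
  refine qp_int (HB.prod _ fun t ht => hb_xx.sub (hb_xx.comp (hd t ht) ?_ (by simp [IntM]))) hi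
    (q.periodic m0 hp).2 k0 (by rwa [coeff_mk, mul_zero]) hz (prod_eq_zero ht₀ ?_)
  · rw [Int_det m0 ht]
    exact Nat.isCoprime_iff_coprime.2 h15
  · rw [← Mod.xx_inv γ hγ _ (Mod.M2.im_act_pos (hd _ ht₀) hz),
      ← Mod.M2.act_mul hγ.det_pos.ne' (hd _ ht₀) hz, ← e, h, sub_self]

end Pool.Agent.P.MP_8b7eba_nt.R1.G

namespace Pool.Agent.P.MP_8b7eba_nt.R2.G

open scoped NNReal
open MP_9c97e9_nt (pm Is ap)
open BSD15 (OO Good nm cj)
open _root_.Pool.Agent.P.MP_8b7eba_nt.Mod (M2 G0 xx al)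
open R1 (emb Dl psi Pz KF U8 IntPt y1)
open R2.CMA

variable {l : ℕ} [Hl l] {c c' : ℕ} {I J : Ideal (OO l)} {α β : OO l} {μ : ℂ}

theorem cd_two_pow (n : ℕ) : Cd (2 ^ n) := ⟨by positivity, trivial⟩

/-- the index does not depend on the conductor when the quotient is generated by one -/
theorem Lc_idx (h : Ad c I) (h' : ∀ x : OO l, ∃ n : ℤ, x - n ∈ J) :
    (Lc c (I * J)).relIndex (Lc c I) = nm J := by
  have h1 : (I * J).toAddSubgroup ≤ I.toAddSubgroup := fun x hx => Ideal.mul_le_left hx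
  have h2 : (I * J).toAddSubgroup ⊔ I.toAddSubgroup ⊓ Or l c = I.toAddSubgroup := by
    refine le_antisymm (sup_le h1 inf_le_left) fun x hx => ?_
    obtain ⟨u, v, d⟩ := dec (l := l) h.2
    obtain ⟨n, hn⟩ := h' x
    have e : x = u • ((nm I : OO l) * (x - n)) + (u • ((n : OO l) * nm I) + v • ((c : OO l) * x)) := by
      rw [← add_assoc, ← smul_add, mul_comm (n : OO l), ← mul_add, sub_add_cancel]
      exact d x
    rw [e]
    exact AddSubgroup.add_mem_sup (zsmul_mem (Ideal.mul_mem_mul (nm_mem I) hn) _)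
      (add_mem (zsmul_mem (AddSubgroup.mem_inf.2 ⟨I.mul_mem_left _ (nm_mem I), mem_Or.2 (by
        rw [im_int]; simp)⟩) _) (zsmul_mem (AddSubgroup.mem_inf.2
        ⟨I.mul_mem_left _ hx, mem_Or.2 (im_nat c x ▸ dvd_mul_right _ _)⟩) _))
  rw [Lc_eq, Lc_eq, AddSubgroup.relIndex_map_map_of_injective _ _ (R1.emb_injective l),
    ← inf_of_le_left h1, inf_assoc, AddSubgroup.inf_relIndex_right,
    ← AddSubgroup.relIndex_sup_left, h2]
  refine mul_right_cancel₀ (mt BSD15.nm_eq_zero.1 h.1) ?_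
  rw [mul_comm (nm J), ← BSD15.nm_mul]
  exact AddSubgroup.relIndex_mul_index h1

theorem Lc_nI (h : Ad c I) (e : ℕ) : (Lc c (I * nI l e)).relIndex (Lc c I) = nm (nI l e) := by
  refine Lc_idx h fun x => ?_
  rw [nI]
  generalize (Classical.epsilon _ : ℤ) = r
  refine ⟨x.re + r * x.im, Ideal.mem_span_pair.2 ⟨0, x.im, QuadraticAlgebra.ext ?_ ?_⟩⟩ <;> simp
  ring

theorem at_hz (hc : Cd c) (h : Ad c I) : At (Lc c I) (Lc c (I * nI l 15)) (hz c I) := by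
  exact Classical.epsilon_spec ((isL_Lc hc.1 h.1).exists_at (Lc_mono Ideal.mul_le_left dvd_rfl)
    ((Lc_nI h 15).trans nI_spec.2.2.1))

theorem hz_cl (hc : Cd c) (h : Ad c I) (h' : Ad c J) (e : cl c I = cl c J) :
    ∃ γ, G0 γ ∧ hz c J = γ.act (hz c I) := by
  obtain ⟨μ, hμ, e⟩ := exists_sc h h' e
  have h1 := (at_hz hc h).sc hμ
  rw [← e c _ dvd_rfl, ← Ideal.mul_top I, ← e c _ dvd_rfl, Ideal.mul_top, Ideal.mul_top] at h1
  exact h1.unique (at_hz hc h')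

theorem intPt_hz (hc : Cd c) (h : Ad c I) : IntPt (hz c I) := by
  have h1 := at_hz hc h
  have hl := (Hl.lp (l := l)).pos
  have h4 := BSD15.qring_four (n := l)
  obtain ⟨s, hs⟩ : ∃ s : ℕ, s = 15 * c := ⟨_, rfl⟩
  have s0 : 0 < s := by have := hc.1; omega
  obtain ⟨D, hD⟩ : ∃ D : ℕ, D = l * s ^ 2 := ⟨_, rfl⟩
  have D0 : 0 < D := by rw [hD]; positivity
  obtain ⟨β, hβ, e⟩ : ∃ β : OO l, (s : ℤ) ∣ β.im ∧ β.norm = ((D + 1) ^ 2 + D : ℕ) :=
    ⟨⟨D + 1 - s, 2 * s⟩, dvd_mul_left _ _, by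
      rw [QuadraticAlgebra.norm_def, hD]
      push_cast at h4 ⊢
      linear_combination (s : ℤ) ^ 2 * h4⟩
  have cop : ((D + 1) ^ 2 + D).Coprime s := by
    rw [show (D + 1) ^ 2 + D = 1 + (l * s * (D + 3)) * s by rw [hD]; ring]
    simp
  have d : Oc c β := ⟨fun e0 => by
      rw [e0, QuadraticAlgebra.norm_zero, eq_comm, Nat.cast_eq_zero] at e
      omega, (Int.natCast_dvd_natCast.2 ⟨15, by rw [hs, mul_comm]⟩).trans hβ,
    e ▸ Nat.isCoprime_iff_coprime.2 (cop.coprime_dvd_right ⟨15, by rw [hs, mul_comm]⟩)⟩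
  have hm : ∀ K : Ideal (OO l), sc (emb l β) (Lc c K) ≤ Lc c K := fun K => by
    rw [← Lc_span d]
    exact Lc_mono Ideal.mul_le_right dvd_rfl
  obtain ⟨A, h2, -, h3, h5, -⟩ := h1.sub (h1.sc (emb_ne d.1)) (hm _) (hm _)
  rw [← Lc_span d, mul_comm, Lc_relIndex hc.1 h d.ad, BSD15.nm_span, e] at h2
  refine R1.G.intPt_of_fix (fun a ha => ?_) (by nlinarith) (cop.coprime_dvd_right ⟨c, hs⟩) h2 h3
    h1.im h5.symm
  have a1 : D + 1 < a := by
    by_contra! a2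
    nlinarith
  nlinarith

theorem HP_cl (hT : TAU) (hc : Cd c) (h : Ad c I) : pm W15 io (HP (cl c I)) = Pz (hz c I) := by
  have h1 := rp_spec (cl c I)
  obtain ⟨γ, hγ, e⟩ := hz_cl hc h h1.1 h1.2.symm
  rw [← R1.Pz_act hγ (at_hz hc h).im, ← e]
  exact Classical.epsilon_spec (TFR.exists_pt' hT (at_hz hc h1.1).im (intPt_hz hc h1.1))

theorem XO_cl (hT : TAU) (hc : Cd c) (h : Ad c I) : io (XO (cl c I)) = xx (hz c I) := by
  have h1 := rp_spec (cl c I)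
  obtain ⟨γ, hγ, e⟩ := hz_cl hc h h1.1 h1.2.symm
  rw [← Mod.xx_inv γ hγ _ (at_hz hc h).im, ← e]
  exact io_ii hT ((intPt_hz hc h1.1).1.tower_top (A := ℚ)).isAlgebraic

theorem xx24 (hc : Cd c) (h : Ad c I) : xx (hz c I) ^ 24 = DL (Lc c (I * nI l 3)) *
    DL (Lc c (I * nI l 5)) ^ 5 / (DL (Lc c I) * DL (Lc c (I * nI l 15)) ^ 5) ∧ xx (hz c I) ≠ 0 := by
  obtain ⟨h3, h5, -, e, -⟩ := nI_spec (l := l)
  exact (at_hz hc h).xx24 (Lc_mono (Ideal.mul_mono_right (e.trans_le Ideal.mul_le_left)) dvd_rfl)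
    (Lc_mono Ideal.mul_le_left dvd_rfl) ((Lc_nI h 3).trans h3)
    (Lc_mono (Ideal.mul_mono_right (e.trans_le Ideal.mul_le_right)) dvd_rfl)
    (Lc_mono Ideal.mul_le_left dvd_rfl) ((Lc_nI h 5).trans h5)

theorem is_HP (hT : TAU) (hc : Cd c) (a : RC l c) : XO a ≠ 0 ∧ ∃ η, Is (HP a) (4 * XO a) η := by
  obtain ⟨h, e⟩ := rp_spec a
  have h1 := XO_cl hT hc h
  have h2 := HP_cl hT hc h
  rw [e] at h1 h2
  obtain ⟨x, y, -, -, h3, -, h4⟩ := TFR.is_pt hT (at_hz hc h).im (intPt_hz hc h) h2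
  exact ⟨fun h0 => (xx24 hc h).2 (by rw [← h1, h0, map_zero]), _,
    io.injective (h3.trans h1.symm) ▸ h4⟩

theorem JO_cl (hT : TAU) (hJ : JF) (hc : Cd c) (h : Ad c I) :
    io (JO (cl c I)) = JL (Lc c I) ∧ JL (Lc c I) = jf (hz c I) := by
  obtain ⟨h1, e⟩ := rp_spec (cl c I)
  obtain ⟨μ, hμ, e⟩ := (cl_eq_iff_sc h1 h).1 e
  refine ⟨?_, (at_hz hc h).JL hJ⟩
  rw [e, (isL_Lc hc.1 h1.1).JL_sc hJ hμ]
  refine io_ii hT ?_
  have h2 := at_hz hc h1
  have h3 : ∀ f, KF 0 f → IsAlgebraic ℚ (f (hz c (rp (cl c I)))) := fun f hf => by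
    obtain ⟨N, A, hA⟩ := hf.exp
    exact ((R1.InP.top.1 (R1.qp ⊤ hf.hb (by simpa using hf.inv) hA (fun _ => trivial) h2.im
      (intPt_hz hc h1))).tower_top (A := ℚ)).isAlgebraic
  have h4 := (h3 _ hJ.2.2.2).mul ((h3 _ hJ.2.2.1).pow 2).inv
  rwa [mul_comm, inv_mul_cancel_left₀ (pow_ne_zero 2 (hJ.2.1 _ h2.im).2.2), ← h2.JL hJ] at h4

theorem JO_inj (hT : TAU) (hJ : JF) (hI : JINJ) (hc : Cd c) : Function.Injective (JO : RC l c → Om) := by
  intro a b e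
  obtain ⟨h1, e1⟩ := rp_spec a
  obtain ⟨h2, e2⟩ := rp_spec b
  have h3 := (JO_cl hT hJ hc h1).1
  have h4 := (JO_cl hT hJ hc h2).1
  rw [e1] at h3
  rw [e2, ← e, h3] at h4
  rw [← e1, ← e2]
  exact (cl_eq_iff_sc h1 h2).2 ((isL_Lc hc.1 h1.1).exists_sc hJ hI (isL_Lc hc.1 h2.1) h4)

/-- the lattices attached to the fibres of the change of conductor -/
theorem exists_fibre (hc : Cd (c * c')) (h : Ad (c * c') I) : ∃ (N N' : RC l (c * c') → Lt),
    ∀ b, pr (Nat.dvd_mul_right c c') b = cl c I → At (N b) (N' b) (hz (c * c') (rp b)) ∧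
      N b ≤ Lc c I ∧ N' b ≤ Lc c (I * nI l 15) ∧ (N b).relIndex (Lc c I) = c' ∧
      ∃ μ : ℂ, μ ≠ 0 ∧ N b = sc μ (Lc (c * c') (rp b)) := by
  have h0 := Nat.dvd_mul_right c c'
  have h1 : ∀ b : RC l (c * c'), ∃ N N' : Lt, pr h0 b = cl c I →
      At N N' (hz (c * c') (rp b)) ∧ N ≤ Lc c I ∧ N' ≤ Lc c (I * nI l 15) ∧
      N.relIndex (Lc c I) = c' ∧ ∃ μ : ℂ, μ ≠ 0 ∧ N = sc μ (Lc (c * c') (rp b)) := fun b => by
    by_cases e : pr h0 b = cl c I
    · obtain ⟨h2, e2⟩ := rp_spec b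
      rw [← e2, pr_cl h0 h2] at e
      obtain ⟨μ, hμ, h3⟩ := exists_sc (h2.mono h0) (h.mono h0) e
      have h4 := h3 c ⊤ dvd_rfl
      rw [Ideal.mul_top, Ideal.mul_top] at h4
      rw [h3 c _ dvd_rfl, h4]
      exact ⟨_, _, fun _ => ⟨(at_hz hc h2).sc hμ, sc_mono (Lc_mono le_rfl h0),
        sc_mono (Lc_mono le_rfl h0), (sc_relIndex hμ _ _).trans (Lc_relIndex' hc.1 h2), μ, hμ, rfl⟩⟩
    · exact ⟨⊥, ⊥, fun e' => absurd e' e⟩
  choose N N' h2 using h1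
  exact ⟨N, N', h2⟩

end Pool.Agent.P.MP_8b7eba_nt.R2.G
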