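import Pool.Agent.P.MP_8b7eba_nt.R3.AHeeg
import Pool.Agent.P.MP_8b7eba_nt.R3.ATDUAL
import Pool.Agent.P.MP_8b7eba_nt.R3.ATIW

/-! Block A of the project R3. -/

namespace Pool.Agent.P.MP_8b7eba_nt.R3

open R2 R2.G in
theorem a_HEEG : HEEG :=
  G.t_HEEG (G.t_DUAL a_CP G.t_SAH2 G.g_PKOL G.g_KTRIV) (G.t_IW a_CP G.g_LAY G.g_IW0)
    (G.t_DESC a_CP G.g_LAY)

end Pool.Agent.P.MP_8b7eba_nt.R3
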