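import Pool.Agent.P.MP_8b7eba_nt.R3.Defs

/-! Squarefree numbers in residue classes. -/

namespace Pool.Agent.P.MP_8b7eba_nt.R3

open Finset SM.TTK

theorem t_SQD : SQD := by
  intro q a hq ha
  have q0 : (0 : ℝ) < q := by exact_mod_cast Nat.pos_of_ne_zero hq
  refine ⟨1 / (8 * q), by positivity, 16 * q * (16 * q), fun X hX => ?_⟩
  set A := (Icc 1 X).filter fun n => n % q = a % q with hA
  set Q := (Icc 1 X).filter fun n => Squarefree n ∧ n % q = a % q with hQ
  set s := Nat.sqrt X with hs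
  have a0 := Nat.mod_lt a (Nat.pos_of_ne_zero hq)
  have h1 : X / q - 1 ≤ A.card := by
    rw [← card_range (X / q - 1)]
    refine Finset.card_le_card_of_injOn (fun k => a % q + q * (k + 1)) (fun k hk => ?_)
      fun k _ k' _ e => ?_
    · have k1 : k + 2 ≤ X / q := by have := mem_range.1 (mem_coe.1 hk); omega
      have k2 := (Nat.mul_le_mul_left q k1).trans (Nat.mul_div_le X q)
      refine mem_coe.2 (mem_filter.2 ⟨mem_Icc.2 ⟨?_, ?_⟩, ?_⟩)
      · exact le_add_left (Nat.mul_pos (Nat.pos_of_ne_zero hq) k.succ_pos)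
      · simp only
        nlinarith
      · simp
    · simp only at e
      have := Nat.eq_of_mul_eq_mul_left (Nat.pos_of_ne_zero hq) (Nat.add_left_cancel e)
      omega
  set P := (Ioc 1 s).filter fun p => p.Prime ∧ ¬ p ∣ q with hP
  have h2 : A ⊆ Q ∪ P.biUnion fun p => A.filter (p * p ∣ ·) := by
    intro n hn
    obtain ⟨n1, n2⟩ := mem_filter.1 hn
    by_cases hq : Squarefree n
    · exact mem_union_left _ (mem_filter.2 ⟨n1, hq, n2⟩)
    · rw [Nat.squarefree_iff_prime_squarefree] at hq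
      push Not at hq
      obtain ⟨p, pp, hp⟩ := hq
      refine mem_union_right _ (mem_biUnion.2 ⟨p, mem_filter.2 ⟨mem_Ioc.2 ⟨pp.one_lt, ?_⟩, pp,
        fun pq => ?_⟩, mem_filter.2 ⟨hn, hp⟩⟩)
      · exact Nat.le_sqrt.2 ((Nat.le_of_dvd (mem_Icc.1 n1).1 hp).trans (mem_Icc.1 n1).2)
      · have pn : p ∣ n := (Dvd.intro _ rfl).trans hp
        have : p ∣ a := by
          rw [← Nat.dvd_mod_iff pq, ← n2, Nat.dvd_mod_iff pq]; exact pn
        exact pp.one_lt.ne' (Nat.eq_one_of_dvd_coprimes ha this pq)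
  have h3 : ∀ p ∈ P, ((A.filter (p * p ∣ ·)).card : ℝ) ≤ X / q * ((p : ℝ) ^ 2)⁻¹ + 1 := by
    intro p hp
    obtain ⟨-, pp, pq⟩ := mem_filter.1 hp
    have c : Nat.Coprime q p := ((Nat.Prime.coprime_iff_not_dvd pp).2 pq).symm
    have := cls (A.filter (p * p ∣ ·)) X (q * (p * p))
      (fun n hn => (mem_Icc.1 (mem_filter.1 (mem_filter.1 hn).1).1).2) (by
        intro n hn n' hn'
        refine (Nat.modEq_and_modEq_iff_modEq_mul (c.mul_right c)).1 ⟨?_, ?_⟩
        · exact (mem_filter.1 (mem_filter.1 hn).1).2.trans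
            (mem_filter.1 (mem_filter.1 hn').1).2.symm
        · exact ((Nat.modEq_zero_iff_dvd).2 (mem_filter.1 hn).2).trans
            ((Nat.modEq_zero_iff_dvd).2 (mem_filter.1 hn').2).symm)
    refine this.trans (le_of_eq ?_)
    push_cast
    have : (p : ℝ) ≠ 0 := by exact_mod_cast pp.ne_zero
    field_simp
  have s6 : 16 * q ≤ s := Nat.le_sqrt.2 hX
  have s2 : 2 ≤ s := by omega
  have h4 : ∑ p ∈ P, ((A.filter (p * p ∣ ·)).card : ℝ) ≤ X / q * (3 / 4) + s := by
    refine (Finset.sum_le_sum h3).trans ?_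
    refine (Finset.sum_le_sum_of_subset_of_nonneg (filter_subset _ _)
      fun _ _ _ => by positivity).trans ?_
    rw [Finset.sum_add_distrib, ← Finset.mul_sum]
    have b := sum_Ioc_inv_sq_le_sub (α := ℝ) (k := 2) (n := s) (by norm_num) s2
    have c : (0 : ℝ) ≤ (s : ℝ)⁻¹ := by positivity
    refine add_le_add (mul_le_mul_of_nonneg_left ?_ (by positivity)) ?_
    · rw [← Finset.sum_Ioc_consecutive _ (by norm_num : 1 ≤ 2) s2]
      have e : Ioc 1 2 = {2} := by decide
      rw [e, sum_singleton]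
      push_cast at b ⊢
      linarith
    · simp only [sum_const, Nat.card_Ioc, nsmul_eq_mul, mul_one]
      exact_mod_cast Nat.sub_le _ _
  have h5 := (card_le_card h2).trans ((card_union_le _ _).trans (add_le_add le_rfl card_biUnion_le))
  have h6 : (A.card : ℝ) ≤ Q.card + ∑ p ∈ P, ((A.filter (p * p ∣ ·)).card : ℝ) := by
    exact_mod_cast h5
  have h7 : (X : ℝ) / q ≤ A.card + 2 := by
    rw [div_le_iff₀ q0]
    have k1 := Nat.lt_mul_div_succ X (Nat.pos_of_ne_zero hq)
    have k2 := Nat.mul_le_mul_left q (show X / q + 1 ≤ A.card + 2 by omega)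
    have : X ≤ (A.card + 2) * q := by nlinarith
    exact_mod_cast this
  have h8 : (16 : ℝ) * s ≤ X / q := by
    rw [le_div_iff₀ q0]
    have k := (Nat.mul_le_mul_right s s6).trans (Nat.sqrt_le X)
    have : 16 * s * q ≤ X := by nlinarith
    exact_mod_cast this
  have h9 : (2 : ℝ) ≤ s := by exact_mod_cast s2
  have e : 1 / (8 * (q : ℝ)) * X = X / q / 8 := by field_simp
  rw [e]
  linarith

end Pool.Agent.P.MP_8b7eba_nt.R3
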