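import Pool.Agent.P.MP_8b7eba_nt.R3.BDens
import Pool.Agent.P.MP_8b7eba_nt.R3.BSqd
import Pool.Agent.P.MP_8b7eba_nt.R3.BKum

/-! Block B of the project R3. -/

namespace Pool.Agent.P.MP_8b7eba_nt.R3

theorem a_DENSB : DENSB := t_DENSB

theorem a_SQD : SQD := t_SQD

theorem a_KUM : KUM := t_KUM

end Pool.Agent.P.MP_8b7eba_nt.R3
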