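import Pool.Agent.P.MP_8b7eba_nt.R3.CFin

/-! Block C. -/

namespace Pool.Agent.P.MP_8b7eba_nt.R3

theorem a_DENSN : DENSN := nul_auxN

end Pool.Agent.P.MP_8b7eba_nt.R3
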