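import Pool.Agent.P.MP_8b7eba_nt.R3.IfD
import Pool.Agent.P.MP_8b7eba_nt.R2.TARI

/-! Proof of ARI. -/

namespace Pool.Agent.P.MP_8b7eba_nt.R3

open R1 (st cnt jac_st)
open BSD15 (Adm Xp XJ Rn cfid_I cfid_CM)
open Finset

namespace DARI

theorem cm_one {χ : ℕ → ℤ} (hχ : cfid_CM χ) : ∀ d : ℕ, d ≠ 0 →
    (∀ r : ℕ, r.Prime → r ∣ d → χ r = 1) → χ d = 1 := by
  intro d
  induction d using induction_on_primes with
  | zero => exact fun h => absurd rfl h
  | one => exact fun _ _ => hχ.1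
  | prime_mul p a hp ih =>
    intro h0 h
    have ha : a ≠ 0 := fun h1 => h0 (by rw [h1, mul_zero])
    rw [hχ.2 _ _ hp.ne_zero ha, h p hp (dvd_mul_right _ _),
      ih ha fun r hr h1 => h r hr (h1.mul_left _), one_mul]

theorem loc_N {n p e f : ℕ} (hn : Squarefree n) (hp : p ∈ n.primeFactors) (h15 : ¬p ∣ 15)
    (he : e ≠ 0) (hf : f ≠ 0) (h2 : ¬p * p ∣ e * f)
    (h3 : p ∣ e * f → Xp n p (15 * (e * f)) = 1) :
    (if p ∣ e then jacobiSym (f : ℕ) p else jacobiSym (15 * e : ℕ) p) =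
      jacobiSym 15 p * Xp n p e := by
  have hp' := Nat.prime_of_mem_primeFactors hp
  rw [R2.TARI.loc_m hn hp h15 he hf]
  congr 1
  split_ifs with h
  · rw [h3 h]
    by_cases h4 : p ∣ e
    · rw [show cfid_I p e = 0 from if_pos h4,
        BSD15.cfid_I_of fun h5 => h2 (Nat.mul_dvd_mul h4 h5)]
      ring
    · rw [BSD15.cfid_I_of h4, show cfid_I p f = 0 from if_pos ((hp'.dvd_mul.1 h).resolve_left h4)]
      ring
  · ring

/-- removing a square factor -/
theorem jac_sq {p : ℕ} (hp : p.Prime) {x y : ℤ} (hy : ¬(p : ℤ) ∣ y) :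
    jacobiSym (x * y ^ 2) p = jacobiSym x p := by
  rw [jacobiSym.mul_left, jacobiSym.sq_one' (BSD15.cfid_gcd hp hy), mul_one]

theorem recip {p k : ℕ} (h : p * k % 8 = 7) (hc : p.Coprime k) :
    jacobiSym k p * jacobiSym p k = 1 := by
  have ho : Odd (p * k) := Nat.odd_iff.2 (by omega)
  have hp : Odd p := (Nat.odd_mul.1 ho).1
  have hk : Odd k := (Nat.odd_mul.1 ho).2
  have h1 : jacobiSym k p = jacobiSym p k := by
    by_cases h4 : p % 4 = 1
    · exact (jacobiSym.quadratic_reciprocity_one_mod_four h4 hk).symm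
    · refine jacobiSym.quadratic_reciprocity_one_mod_four ?_ hp
      have h5 : p % 4 = 3 := by
        have := Nat.odd_iff.1 hp
        omega
      have h6 : p * k % 4 = 3 := by omega
      have h7 : k % 4 = 1 ∨ k % 4 = 3 := by
        have := Nat.odd_iff.1 hk
        omega
      refine h7.resolve_right fun h8 => ?_
      rw [Nat.mul_mod, h5, h8] at h6
      omega
  rw [h1, ← sq]
  exact jacobiSym.sq_one (by rw [Int.gcd_natCast_natCast]; exact hc)

theorem sq8 {g : ℕ} (h : Odd g) : ((g : ℤ) ^ 2) % 8 = 1 := by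
  have h1 := Nat.odd_iff.1 h
  have h2 : (g : ℤ) % 8 = 1 ∨ (g : ℤ) % 8 = 3 ∨ (g : ℤ) % 8 = 5 ∨ (g : ℤ) % 8 = 7 := by omega
  rw [sq, Int.mul_emod]
  rcases h2 with h2 | h2 | h2 | h2 <;> rw [h2] <;> norm_num

end DARI

theorem t_ARI : ARI := by
  intro m₁ m₂ m₃ F M B hT hF0 hF hM hB
  obtain ⟨g, a, c, hac, rfl, rfl⟩ : ∃ g a c : ℕ, a.Coprime c ∧ m₁ = g * a ∧ m₂ = g * c := by
    have h := Nat.gcd_pos_of_pos_left m₂ (Nat.pos_of_ne_zero hT.a1.1.ne_zero)
    obtain ⟨a, c, h1, h2, h3⟩ := Nat.exists_coprime m₁ m₂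
    exact ⟨_, a, c, h1, h2.trans (mul_comm _ _), h3.trans (mul_comm _ _)⟩
  have hs1 := hT.a1.1
  have hs2 := hT.a2.1
  have hs3 := hT.a3.1
  have hga : g.Coprime a := Nat.coprime_of_squarefree_mul hs1
  have hgc : g.Coprime c := Nat.coprime_of_squarefree_mul hs2
  have hg0 : g ≠ 0 := left_ne_zero_of_mul hs1.ne_zero
  have ha0 : a ≠ 0 := right_ne_zero_of_mul hs1.ne_zero
  have hc0 : c ≠ 0 := right_ne_zero_of_mul hs2.ne_zero
  have hN : Squarefree (a * c) :=
    (Nat.squarefree_mul hac).2 ⟨hs1.of_mul_right, hs2.of_mul_right⟩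
  have h30 : ∀ p m : ℕ, p.Prime → Adm m → p ∣ m → ¬p ∣ 30 := fun p m hp hm h1 h2 =>
    hp.one_lt.ne' (Nat.eq_one_of_dvd_coprimes hm.2 h1 h2)
  have hg30 : ∀ p : ℕ, p.Prime → p ∣ g → ¬p ∣ 30 := fun p hp h =>
    h30 p _ hp hT.a1 (h.mul_right _)
  have hN30 : ∀ p : ℕ, p.Prime → p ∣ a * c → ¬p ∣ 30 := fun p hp h =>
    (hp.dvd_mul.1 h).elim (fun h => h30 p _ hp hT.a1 (h.mul_left _))
      fun h => h30 p _ hp hT.a2 (h.mul_left _)
  have hgN : ∀ p : ℕ, p.Prime → p ∣ a * c → ¬p ∣ g := fun p hp h h1 =>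
    hp.one_lt.ne' (Nat.eq_one_of_dvd_coprimes (hga.mul_right hgc) h1 h)
  have h3 : ∀ p : ℕ, p.Prime → p ∣ m₃ → ¬p ∣ g * a * (g * c) := fun p hp h h1 => by
    have h2 := hT.inert p hp h
    rw [BSD15.cfid_jac_zero hp (dvd_neg.2 (by exact_mod_cast h1))] at h2
    exact absurd h2 (by norm_num)
  have hc23 : (g * c).Coprime m₃ := Nat.coprime_of_dvd fun p hp h1 h2 =>
    h3 p hp h2 (h1.mul_left _)
  have hn : Squarefree (g * c * m₃) := (Nat.squarefree_mul hc23).2 ⟨hs2, hs3⟩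
  have hM' : (60 * M : ℤ) = B ^ 2 + a * c * (F * g * m₃) ^ 2 := by
    rw [hM]
    push_cast
    ring
  have hM0 : M ≠ 0 := by
    rintro rfl
    have h1 : (0 : ℤ) < a * c * (F * g * m₃) ^ 2 := by
      have := Nat.pos_of_ne_zero hs3.ne_zero
      positivity
    have h2 := sq_nonneg B
    push_cast at hM'
    omega
  have hdB : ∀ p : ℕ, p.Prime → p ∣ a * c * (F * g * m₃) → p ∣ M → (p : ℤ) ∣ B :=
    fun p hp h1 h2 => by
    refine (Nat.prime_iff_prime_int.1 hp).dvd_of_dvd_pow (n := 2) ?_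
    have h3 : (p : ℤ) ∣ 60 * M := (Int.natCast_dvd_natCast.2 h2).mul_left _
    have h4 : (p : ℤ) ∣ a * c * (F * g * m₃) := by exact_mod_cast h1
    rw [hM', sq ((F : ℤ) * g * m₃), ← mul_assoc] at h3
    exact (dvd_add_left (h4.mul_right _)).1 h3
  have h3M : ∀ p : ℕ, p.Prime → p ∣ m₃ → ¬p ∣ M := fun p hp h h1 =>
    (Nat.prime_iff_prime_int.1 hp).not_isUnit (hB.isUnit_of_dvd'
      (hdB p hp ((h.mul_left _).mul_left _) h1) (Int.natCast_dvd_natCast.2 h))
  have hgo : Odd g := Nat.odd_iff.2 (by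
    by_contra h
    exact hg30 2 Nat.prime_two (by omega) (by norm_num))
  have hcast : (-((g * a : ℕ) * (g * c : ℕ)) : ℤ) = -(a * c : ℕ) * (g : ℤ) ^ 2 := by
    push_cast
    ring
  have hN8 : a * c % 8 = 7 := by
    have h1 := hT.s12.1
    have h2 := DARI.sq8 hgo
    rw [hcast, Int.mul_emod, h2] at h1
    omega
  have hNo : Odd (a * c) := Nat.odd_iff.2 (by omega)
  -- primes away from `a c`
  have hr : ∀ r : ℕ, r.Prime → r ∣ M → ¬r ∣ a * c → jacobiSym r (a * c) = 1 := by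
    intro r hr h1 h2
    have hr' := Nat.prime_iff_prime_int.1 hr
    rcases hr.eq_two_or_odd' with rfl | ho
    · rw [Nat.cast_ofNat, jacobiSym.at_two hNo, ZMod.χ₈_nat_eq_if_mod_eight, if_neg (by omega),
        if_pos (Or.inr hN8)]
    rw [← jac_st hNo ho, st, if_neg (by omega)]
    by_cases h4 : r ∣ g
    · obtain ⟨k, rfl⟩ := h4
      have h5 := hT.split r hr ((dvd_mul_right _ _).mul_right _) ((dvd_mul_right _ _).mul_right _)
      have h6 : ¬(r : ℤ) ∣ k := fun h => by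
        have h7 : r * r ∣ r * k * a :=
          (Nat.mul_dvd_mul_left r (Int.natCast_dvd_natCast.1 h)).mul_right _
        exact hr.one_lt.ne' (Nat.isUnit_iff.1 (hs1 r h7))
      rw [mul_assoc, mul_assoc, Nat.mul_div_cancel_left _ hr.pos,
        Nat.mul_div_cancel_left _ hr.pos] at h5
      rw [← DARI.jac_sq hr h6, ← h5]
      congr 1
      push_cast
      ring
    have h4' : ¬(r : ℤ) ∣ g := fun h => h4 (Int.natCast_dvd_natCast.1 h)
    by_cases h5 : r ∣ 30
    · have h6 : r = 3 ∨ r = 5 := by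
        have h7 := Nat.le_of_dvd (by norm_num) h5
        have h8 := Nat.odd_iff.1 ho
        interval_cases r <;> first | omega | exact absurd hr (by norm_num)
      rw [← DARI.jac_sq hr h4', ← hcast, jacobiSym.mod_left]
      rcases h6 with rfl | rfl
      · rw [Nat.cast_ofNat, hT.s12.2.1]
        norm_num
      · rw [Nat.cast_ofNat]
        rcases hT.s12.2.2 with h | h <;> rw [h] <;> norm_num
    have h6 : ¬(r : ℤ) ∣ F * g * m₃ := fun h => by
      rcases hr'.dvd_or_dvd h with h | h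
      · rcases hr'.dvd_or_dvd h with h | h
        · exact h5 (hF r hr (Int.natCast_dvd_natCast.1 h))
        · exact h4' h
      · exact h3M r hr (Int.natCast_dvd_natCast.1 h) h1
    obtain ⟨k, hk⟩ := Int.natCast_dvd_natCast.2 h1
    have h7 : ¬(r : ℤ) ∣ B := fun h => by
      have h8 : (a : ℤ) * c * (F * g * m₃) ^ 2 = r * (60 * k) - B ^ 2 := by
        rw [hk] at hM'
        linear_combination -hM'
      have h9 : (r : ℤ) ∣ a * c * (F * g * m₃) ^ 2 := by
        rw [h8]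
        exact dvd_sub (dvd_mul_right _ _) (dvd_pow h two_ne_zero)
      rcases hr'.dvd_or_dvd h9 with h | h
      · exact h2 (by exact_mod_cast h)
      · exact h6 (hr'.dvd_of_dvd_pow h)
    rw [← jacobiSym.sq_one' (BSD15.cfid_gcd hr h7), ← DARI.jac_sq hr h6]
    refine jacobiSym.mod_left' (Int.modEq_iff_dvd.2 ⟨60 * k, ?_⟩)
    rw [hk] at hM'
    push_cast
    linear_combination -hM'
  have hX : ∀ e : ℕ, e ∣ M → XJ (a * c) (a * c).primeFactors e = 1 := fun e he =>
    DARI.cm_one (BSD15.cfid_CM_prod _ _ fun p _ => BSD15.cfid_Xp_CM (a * c) p) e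
      (ne_zero_of_dvd_ne_zero hM0 he) fun r h1 h2 => by
      by_cases h : r ∣ a * c
      · exact BSD15.cfid_chi_of_dvd hN (Nat.mem_primeFactors.2 ⟨h1, h, hN.ne_zero⟩)
      · exact (BSD15.cfid_chi_of_not_dvd hN h1 h).trans (hr r h1 (h2.trans he) h)
  -- primes of `a c`
  have hq : ∀ p ∈ (a * c).primeFactors, p ∣ M → ¬p * p ∣ M ∧ Xp (a * c) p (15 * M) = 1 := by
    intro p hpN h1
    have hp := Nat.prime_of_mem_primeFactors hpN
    have hp' := Nat.prime_iff_prime_int.1 hp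
    have h2 := Nat.dvd_of_mem_primeFactors hpN
    have hcop := BSD15.cfid_cop hN hpN
    obtain ⟨C, hC⟩ := hdB p hp (h2.mul_right _) h1
    have h6 : ¬(p : ℤ) ∣ F * g * m₃ := fun h => by
      rcases hp'.dvd_or_dvd h with h | h
      · rcases hp'.dvd_or_dvd h with h | h
        · exact hN30 p hp h2 (hF p hp (Int.natCast_dvd_natCast.1 h))
        · exact hgN p hp h2 (Int.natCast_dvd_natCast.1 h)
      · exact h3M p hp (Int.natCast_dvd_natCast.1 h) h1
    have h7 : ¬(p : ℤ) ∣ 2 := fun h =>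
      hN30 p hp h2 ((Int.natCast_dvd_natCast.1 h).trans (by norm_num))
    obtain ⟨k, hk⟩ := h2
    obtain ⟨u, rfl⟩ := h1
    rw [hk, Nat.mul_div_cancel_left _ hp.pos] at hcop
    have hk' : (a : ℤ) * c = p * k := by exact_mod_cast hk
    have h8 : (60 * u : ℤ) = p * C ^ 2 + k * (F * g * m₃) ^ 2 := by
      refine mul_left_cancel₀ hp'.ne_zero ?_
      rw [hC, hk'] at hM'
      push_cast at hM'
      linear_combination hM'
    have h9 : jacobiSym (15 * u : ℕ) p = jacobiSym k p := by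
      rw [← DARI.jac_sq hp h7, ← DARI.jac_sq (x := k) hp h6]
      refine jacobiSym.mod_left' (Int.modEq_iff_dvd.2 ⟨-C ^ 2, ?_⟩)
      push_cast
      linear_combination -h8
    have h10 := DARI.recip (hk ▸ hN8) hcop
    have h11 : ¬p ∣ 15 * u := fun h => by
      rw [← h9, BSD15.cfid_jac_zero hp (Int.natCast_dvd_natCast.2 h)] at h10
      simp at h10
    refine ⟨fun h => h11 ((Nat.dvd_of_mul_dvd_mul_left hp.pos h).mul_left _), ?_⟩
    rw [show 15 * (p * u) = 15 * u * p by ring, (BSD15.cfid_Xp_CM _ p).2 _ _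
      (fun h => h11 (by rw [h]; exact dvd_zero _)) hp.ne_zero, BSD15.cfid_Xp_of_not_dvd _ h11,
      BSD15.cfid_Xp_self _ hp, hk, Nat.mul_div_cancel_left _ hp.pos, h9, h10]
  have hG : (Int.gcd B (g * c * m₃ : ℕ)).primeFactors =
      (g * c * m₃).primeFactors.filter (· ∣ M) := by
    ext p
    simp only [Nat.mem_primeFactors, mem_filter]
    constructor
    · rintro ⟨hp, h, -⟩
      have hp' := Nat.prime_iff_prime_int.1 hp
      have h' := Int.natCast_dvd_natCast.2 h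
      have hpB : (p : ℤ) ∣ B := h'.trans (Int.gcd_dvd_left _ _)
      have h2 : p ∣ g * c * m₃ := Int.natCast_dvd_natCast.1 (h'.trans (Int.gcd_dvd_right _ _))
      have hpa : p ∣ g * c := (hp.dvd_mul.1 h2).resolve_right fun h3 =>
        hp'.not_isUnit (hB.isUnit_of_dvd' hpB (Int.natCast_dvd_natCast.2 h3))
      refine ⟨⟨hp, h2, hn.ne_zero⟩, ?_⟩
      have h4 : (p : ℤ) ∣ 60 * M := by
        have h5 : (p : ℤ) ∣ g * c := by exact_mod_cast hpa
        rw [hM', show (a : ℤ) * c * (F * g * m₃) ^ 2 = g * c * (a * g * (F * m₃) ^ 2) by ring]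
        exact dvd_add (dvd_pow hpB two_ne_zero) (h5.mul_right _)
      have h5 : p ∣ 60 * M := by exact_mod_cast h4
      exact (hp.dvd_mul.1 h5).resolve_left fun h6 => h30 p _ hp hT.a2 hpa
        (hp.dvd_of_dvd_pow (n := 2) (h6.trans (by norm_num)))
    · rintro ⟨⟨hp, h, -⟩, hpa⟩
      refine ⟨hp, Int.natCast_dvd_natCast.1 (Int.dvd_coe_gcd
        (hdB p hp (h.trans ⟨a * F, by ring⟩) hpa) (Int.natCast_dvd_natCast.2 h)), fun h0 => ?_⟩
      have := (Int.gcd_eq_zero_iff.1 h0).2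
      exact hn.ne_zero (by exact_mod_cast this)
  rw [cnt, hG, ← R2.TARI.key hn hM0, mul_sum]
  refine sum_congr rfl fun e he => ?_
  have hXe := hX e (Nat.dvd_of_mem_divisors he)
  obtain ⟨f, rfl⟩ := Nat.dvd_of_mem_divisors he
  have he0 : e ≠ 0 := left_ne_zero_of_mul hM0
  have hf0 : f ≠ 0 := right_ne_zero_of_mul hM0
  have h15 : ∀ {p : ℕ}, ¬p ∣ 30 → ¬p ∣ 15 := fun h h1 => h (h1.trans (by norm_num))
  have hL : ∀ p ∈ (a * c).primeFactors,
      (if p ∣ e then jacobiSym (f : ℕ) p else jacobiSym (15 * e : ℕ) p) =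
        jacobiSym 15 p * Xp (a * c) p e := fun p hp =>
    DARI.loc_N hN hp (h15 (hN30 p (Nat.prime_of_mem_primeFactors hp)
      (Nat.dvd_of_mem_primeFactors hp))) he0 hf0
      (fun h => (hq p hp ((dvd_mul_right _ _).trans h)).1 h) fun h => (hq p hp h).2
  rw [XJ, prod_filter, ← prod_mul_distrib, R2.UM,
    Nat.mul_div_cancel_left _ (Nat.pos_of_ne_zero he0), BSD15.cfid_jac_sqf 15 hs1]
  set L : ℕ → ℤ := fun p => Xp (g * c * m₃) p e * if p ∣ e * f then cfid_I p e +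
    Xp (g * c * m₃) p (15 * (e * f)) * cfid_I p f else 1 with hLd
  have e3 : ∏ p ∈ m₃.primeFactors, L p = jacobiSym e m₃ := by
    rw [BSD15.cfid_jac_sqf _ hs3]
    refine prod_congr rfl fun p hp => ?_
    have h := h3M p (Nat.prime_of_mem_primeFactors hp) (Nat.dvd_of_mem_primeFactors hp)
    simp only [hLd]
    rw [if_neg h, BSD15.cfid_Xp_of_not_dvd _ fun h1 => h (h1.mul_right _), mul_one]
  have hLm : ∀ p : ℕ, p.Prime → p ∣ g * c →
      (if p ∣ e then jacobiSym (f : ℕ) p else jacobiSym (15 * e : ℕ) p) = jacobiSym 15 p * L p :=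
    fun p hp h => R2.TARI.loc_m hn (Nat.mem_primeFactors.2 ⟨hp, h.mul_right _, hn.ne_zero⟩)
      (h15 (h30 p _ hp hT.a2 h)) he0 hf0
  have eg : ∏ p ∈ g.primeFactors,
      (if p ∣ e then jacobiSym (f : ℕ) p else jacobiSym (15 * e : ℕ) p) =
      (∏ p ∈ g.primeFactors, jacobiSym 15 p) * ∏ p ∈ g.primeFactors, L p := by
    rw [← prod_mul_distrib]
    exact prod_congr rfl fun p hp => hLm p (Nat.prime_of_mem_primeFactors hp)
      ((Nat.dvd_of_mem_primeFactors hp).mul_right _)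
  have ea : ∏ p ∈ a.primeFactors,
      (if p ∣ e then jacobiSym (f : ℕ) p else jacobiSym (15 * e : ℕ) p) =
      (∏ p ∈ a.primeFactors, jacobiSym 15 p) * ∏ p ∈ a.primeFactors, Xp (a * c) p e := by
    rw [← prod_mul_distrib]
    exact prod_congr rfl fun p hp => hL p (Nat.mem_primeFactors.2
      ⟨Nat.prime_of_mem_primeFactors hp, (Nat.dvd_of_mem_primeFactors hp).mul_right _, hN.ne_zero⟩)
  have hcN : ∀ p ∈ c.primeFactors, p ∈ (a * c).primeFactors := fun p hp => Nat.mem_primeFactors.2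
    ⟨Nat.prime_of_mem_primeFactors hp, (Nat.dvd_of_mem_primeFactors hp).mul_left _, hN.ne_zero⟩
  have ec : ∏ p ∈ c.primeFactors, L p = ∏ p ∈ c.primeFactors, Xp (a * c) p e := by
    refine prod_congr rfl fun p hp => ?_
    have hp' := Nat.prime_of_mem_primeFactors hp
    have h1 := (Nat.dvd_of_mem_primeFactors hp).mul_left g
    have h2 : jacobiSym 15 p ≠ 0 := jacobiSym.ne_zero (BSD15.cfid_gcd hp' fun h =>
      h15 (h30 p _ hp' hT.a2 h1) (Int.natCast_dvd_natCast.1 h))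
    exact mul_left_cancel₀ h2 ((hLm p hp' h1).symm.trans (hL p (hcN p hp)))
  have e2 : (∏ p ∈ c.primeFactors, Xp (a * c) p e) * ∏ p ∈ c.primeFactors, Xp (a * c) p e = 1 := by
    rw [← prod_mul_distrib]
    exact prod_eq_one fun p hp => BSD15.cfid_Xp_sq hN (hcN p hp) he0
  rw [XJ, hac.primeFactors_mul, prod_union hac.disjoint_primeFactors] at hXe
  conv_rhs => rw [hc23.primeFactors_mul, prod_union hc23.disjoint_primeFactors,
    hgc.primeFactors_mul, prod_union hgc.disjoint_primeFactors]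
  rw [hga.primeFactors_mul, prod_union hga.disjoint_primeFactors,
    prod_union hga.disjoint_primeFactors, e3, eg, ea, ec]
  generalize ∏ p ∈ c.primeFactors, Xp (a * c) p e = y at *
  generalize ∏ p ∈ a.primeFactors, Xp (a * c) p e = x at *
  have : x = y := by linear_combination y * hXe - x * e2
  rw [this]
  ring

end Pool.Agent.P.MP_8b7eba_nt.R3
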