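import Pool.Agent.P.MP_8b7eba_nt.R3.IfD

/-! Proof of AWAY. -/

namespace Pool.Agent.P.MP_8b7eba_nt.R3

open _root_.Pool.Agent.P.MP_8b7eba_nt.Mod (M2 G0 FI L0 om lv)
open R1 (QF Hg Lv st Rq uu VV lf wf cnt Wt VB Dual gg dualB_F dualB_M)
open BSD15 (Adm Prim dt)
open Filter Topology Finset
open scoped Real ComplexConjugate

namespace DAWAY

theorem odd {m : ℕ} (h : Adm m) : Odd m :=
  Nat.coprime_two_right.1 (h.2.coprime_dvd_right (by norm_num))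

theorem ds_st {m : ℕ} (h : Adm m) : ds (1 * st m) = st m := by
  rw [one_mul, ds, if_pos (R1.st_emod (odd h))]

theorem cop {m : ℕ} (h : Adm m) : IsCoprime (st m) 30 := by
  have : IsCoprime (m : ℤ) 30 := Nat.isCoprime_iff_coprime.2 h.2
  unfold st
  split_ifs
  · exact this
  · exact this.neg_left

theorem j15 {m n : ℕ} (hm : Adm m) (hn : Adm n) (h : Sq120 (m * n)) :
    jacobiSym 15 n * jacobiSym 15 m = 1 := by
  have h1 := (odd hm).mul (odd hn)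
  have h2 : m * n % 60 = 1 ∨ m * n % 60 = 49 := by
    obtain ⟨a, b, c⟩ := h
    rw [← Nat.cast_mul] at a b c
    omega
  have h3 := jacobiSym.mod_right' 15 h1
  rw [mul_comm, ← jacobiSym.mul_right' _ hm.1.ne_zero hn.1.ne_zero]
  refine h3.trans ?_
  rcases h2 with e | e <;> rw [show 4 * 15 = 60 from rfl, e] <;> norm_num

theorem ext {a b c : ℤ} (ha : IsCoprime a 30) (h1 : Sq120 (a * b)) (h2 : Sq120 (a * c)) :
    ∃ t : ℤ, IsCoprime t 30 ∧ 120 ∣ c - t ^ 2 * b ∧ 120 ∣ t ^ 4 - 1 := by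
  have h3 : IsCoprime (120 : ℤ) a :=
    (ha.pow_right (n := 3)).symm.of_isCoprime_of_dvd_left (by norm_num)
  obtain ⟨x1, x2, x3⟩ := h1
  obtain ⟨y1, y2, y3⟩ := h2
  by_cases e : 120 ∣ a * c - a * b
  · exact ⟨1, isCoprime_one_left, h3.dvd_of_dvd_mul_left (by
      rwa [show a * (c - 1 ^ 2 * b) = a * c - a * b by ring]), by norm_num⟩
  · refine ⟨7, by norm_num, h3.dvd_of_dvd_mul_left ?_, by norm_num⟩
    rw [show a * (c - 7 ^ 2 * b) = a * c - 49 * (a * b) by ring]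
    omega

theorem swap (Δ₁ B Δ₂ : ℚ) (x : QQ × QQ) : Gr Δ₂ B Δ₁ x.swap ↔ Gr Δ₁ B Δ₂ x := by
  have : x.2.pair x.1 = x.1.pair x.2 := by
    simp only [QQ.pair]
    ring
  simp only [Gr, Prod.fst_swap, Prod.snd_swap, this]
  tauto

theorem w2_swap (Δ₁ B Δ₂ : ℚ) (ρ₁ ρ₂ d : ℤ) (x : QQ × QQ) :
    W2 Δ₂ B Δ₁ ρ₂ ρ₁ d x.swap = W2 Δ₁ B Δ₂ ρ₁ ρ₂ d x := by
  have := swap Δ₁ B Δ₂ x
  simp only [W2, Prod.fst_swap, Prod.snd_swap]
  by_cases h : Gr Δ₁ B Δ₂ x ∧ LR ρ₁ x.1 ∧ LR ρ₂ x.2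
  · rw [if_pos h, if_pos ⟨this.2 h.1, h.2.2, h.2.1⟩, mul_comm]
  · rw [if_neg h, if_neg fun e => h ⟨this.1 e.1, e.2.2, e.2.1⟩]

end DAWAY

open DAWAY in
theorem t_AWAY (hKC : KC) (hRSX : RSX) (hCSE : CSE) (hINV2 : INV2) (hLOC : LOC) (hNFAC : NFAC)
    (hPOS : POS) (hEVS : EVS) (hNPR : NPR) (hARI : ARI) : AWAY := by
  intro m₁ m₂ m₃ F B hT hF hp
  have F0 : F ≠ 0 := fun e => by
    have := hp 7 (by norm_num) (e ▸ dvd_zero 7)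
    omega
  have o1 := odd hT.a1
  have o2 := odd hT.a2
  have o3 := odd hT.a3
  have p1 := o1.pos
  have p2 := o2.pos
  have p3 := o3.pos
  have x8 : m₁ * m₂ % 8 = 7 := by
    have := hT.s12.1
    rw [← Nat.cast_mul] at this
    omega
  have y8 : m₁ * m₃ % 8 = 1 := by
    have := hT.s13.1
    rw [← Nat.cast_mul] at this
    omega
  have s12 : st m₁ * st m₂ = -(m₁ * m₂) := by
    rw [← R1.st_mul o1 o2, st, if_neg (by omega), Nat.cast_mul]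
  have s13 : st m₁ * st m₃ = m₁ * m₃ := by
    rw [← R1.st_mul o1 o3, st, if_pos (by omega), Nat.cast_mul]
  have s23 : st m₂ * st m₃ = -(m₂ * m₃) := by
    refine mul_left_cancel₀ (a := (m₁ : ℤ) ^ 2) (by positivity) ?_
    rw [← R1.st_sq m₁]
    nth_rewrite 2 [R1.st_sq m₁]
    linear_combination st m₁ * st m₃ * s12 - (m₁ * m₂ : ℤ) * s13
  have s33 : st m₃ * st m₃ = (m₃ : ℤ) ^ 2 := by rw [← R1.st_sq, sq]
  have d1 : D0 1 := ⟨squarefree_one, one_dvd _⟩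
  have e1 : ((ds 1 : ℤ) : ℚ) = 1 := by norm_num [ds]
  obtain ⟨f, hf⟩ := id hF
  have m4 : ∀ x : ℤ, M4 (F ^ 2 * x) := fun x => .inl (Int.emod_eq_zero_of_dvd
    ⟨225 * f ^ 2 * x, by rw [hf]; push_cast; ring⟩)
  have m23 : M4 (-(m₂ * m₃)) := .inr (by
    rw [← s23, ← R1.st_mul o2 o3]
    exact R1.st_emod (o2.mul o3))
  obtain ⟨M, hM⟩ : ∃ M : ℕ, (60 * M : ℤ) = (30 * B) ^ 2 + F ^ 2 * (m₁ * m₂) * m₃ ^ 2 :=
    ⟨15 * (B.natAbs ^ 2 + f ^ 2 * (m₁ * m₂) * m₃ ^ 2), by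
      rw [hf]
      push_cast
      rw [sq_abs]
      ring⟩
  obtain ⟨t, t1, t2, t3⟩ := ext (cop hT.a1) (s12 ▸ hT.s12) (s13 ▸ hT.s13)
  obtain ⟨S, hS⟩ := hRSX _ F (m₁ * m₂) 0 F0 rfl x8
  have A1 := hNFAC 1 (F ^ 2 * st m₂) (st m₃) 0 (st m₃) (30 * B) m₁ m₃ _ S d1 hT.a1 hT.a3 hT.s13
    (m4 _) (.inr (R1.st_emod o3)) (by positivity) (by
      rw [ds_st hT.a1]
      push_cast
      linear_combination -(F : ℤ) ^ 2 * s12) (by rw [ds_st hT.a3, s33]; positivity) (hS _)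
  rw [ds_st hT.a3, s33, one_mul, one_mul, hKC.pl _ _ _ o1, hKC.pl _ _ _ o3,
    hEVS m₁ m₂ m₃ F M _ S hT hF hp (dvd_mul_right _ _) (hS _) hM] at A1
  have hP : Lv (-(F ^ 2 * (m₁ * m₂) : ℕ)) 0 ⟨15, 0, 15 * f ^ 2 * (m₁ * m₂)⟩ :=
    ⟨by rw [QF.disc, hf]; push_cast; ring, dvd_rfl, by simp⟩
  have hQ : Lv (m₃ ^ 2) (st m₃) ⟨0, st m₃, -B⟩ := ⟨by simp [QF.disc, R1.st_sq], by simp, by simp⟩
  have A2 := hPOS _ F (m₁ * m₂) 0 (st m₃) (m₃ ^ 2) (30 * B) _ _ F0 rfl x8 (by positivity)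
    (by simp [QF.pair]) hP hQ
  obtain ⟨S', hS', A3⟩ := hNPR m₁ m₂ m₃ F M (30 * B) (t ^ 3 * st m₃) hT hF hp (dvd_mul_right _ _) (by
    obtain ⟨u, hu⟩ := t2
    obtain ⟨v, hv⟩ := t3
    exact ⟨2 * st m₃ * (t ^ 6 * u + (t ^ 4 + 1) * v * st m₂), by
      linear_combination s23 + t ^ 6 * st m₃ * hu + (t ^ 4 + 1) * st m₂ * st m₃ * hv⟩) hM
  have s31 : st m₁ * (F ^ 2 * st m₃) = F ^ 2 * (m₁ * m₃) := by linear_combination (F : ℤ) ^ 2 * s13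
  have A4 := hNFAC 1 (st m₂) (F ^ 2 * st m₃) (t ^ 3 * st m₃) 0 (30 * B) m₃ m₁ (m₂ * m₃) S' d1 hT.a3
    hT.a1 (mul_comm (m₁ : ℤ) m₃ ▸ hT.s13) (.inr (R1.st_emod o2)) (m4 _) (by positivity) (by
      rw [ds_st hT.a3]
      push_cast
      linear_combination -s23) (by rw [ds_st hT.a1, s31]; positivity) (by
      rwa [one_mul, hKC.pl _ _ _ o3])
  rw [ds_st hT.a1, s31, one_mul, one_mul, hKC.pl _ _ _ o1, hKC.pl _ _ _ o3, A3] at A4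
  have A5 := A1.symm.trans ((if_ctx_congr Iff.rfl (fun c => by
    rw [hARI m₁ m₂ m₃ F M _ hT F0 hp hM c, mul_assoc, ← mul_assoc (jacobiSym 15 m₃),
      j15 hT.a1 hT.a3 hT.s13, one_mul]) fun _ => rfl).trans A4)
  push_cast at A2 A5
  refine mul_right_cancel₀ A2 (A5.trans ?_)
  by_cases hx : ∃ x, Gr (-(m₂ * m₃)) (30 * B) (F ^ 2 * (m₁ * m₃)) x
  · congr 1
    obtain ⟨x, hx⟩ := hx
    have A6 := hINV2 (F ^ 2 * (m₁ * m₃)) (-(m₂ * m₃)) 0 (t ^ 3 * st m₃) 1 (30 * B) d1 (m4 _) m23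
    have A7 := hCSE _ _ H1 (Equiv.prodComm QQ QQ) _ 1 (fun _ _ => rfl) A6
    have A8 := hLOC 1 (-(F ^ 2 * (m₁ * m₂))) (m₃ ^ 2) (F ^ 2 * (m₁ * m₃)) (-(m₂ * m₃)) (30 * B) 0
      (st m₃) 0 (t ^ 3 * st m₃) (st m₂) (st m₃) t d1 (m4 _) m23 (neg_ne_zero.2 (by positivity))
      (fun e => by
        have h1 : (0 : ℤ) < F ^ 2 * (m₁ * m₂) * m₃ ^ 2 := by positivity
        rw [show ds 1 = 1 by norm_num [ds]] at e
        nlinarith [sq_nonneg (30 * B)])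
      (by linear_combination (F : ℤ) ^ 2 * st m₃ * s12 - (F : ℤ) ^ 2 * st m₂ * s13) (by rw [← s23, ← s33]; ring) (cop hT.a2) t1 t2 (fun e => by
        have h1 := e.nonneg
        have h2 : (0 : ℤ) < m₂ * m₃ := by positivity
        omega) (by simp) (by
        obtain ⟨v, hv⟩ := t3
        exact ⟨-4 * v * st m₃, by linear_combination -st m₃ * hv⟩)
      ⟨(toQ ⟨15, 0, 15 * f ^ 2 * (m₁ * m₂)⟩, toQ ⟨0, st m₃, -B⟩), by
        have h1 : ((st m₃ : ℤ) : ℚ) ^ 2 = (m₃ : ℚ) ^ 2 := by exact_mod_cast R1.st_sq m₃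
        refine ⟨?_, ?_, ?_⟩ <;> simp only [toQ, QQ.disc, QQ.pair, e1, hf] <;> push_cast
        · ring
        · ring
        · linear_combination h1⟩
      ⟨x.swap, (swap _ _ _ x).2 (by
        rw [e1]
        push_cast
        rwa [one_mul, one_mul])⟩
    simp only [e1, one_mul, Equiv.prodComm_apply, w2_swap] at A7 A8
    push_cast at A7 A8
    exact A7.trans A8.symm
  · have : W1 (-(m₂ * m₃)) (30 * B) (F ^ 2 * (m₁ * m₃)) m₃ m₁ = fun _ => 0 :=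
      funext fun x => if_neg fun e => hx ⟨x, e.1⟩
    simp [this, cs]

end Pool.Agent.P.MP_8b7eba_nt.R3
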