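import Pool.Agent.P.MP_8b7eba_nt.R3.DBaseK

/-! Explicit central values. -/

namespace Pool.Agent.P.MP_8b7eba_nt.R3.DBase

theorem c_15 : Chk 15 [3, 5] [[7], [11], [23], [71], [83], [7, 13], [151], [163]] := by
  decide +kernel

theorem c_m15 : Chk (-15) [3, 5] [[13], [17], [29], [41], [53], [61], [73], [409]] := by
  decide +kernel

theorem c_30 : Chk 30 [3, 5] [[7], [11], [19], [31], [47], [67], [83], [191]] := by
  decide +kernel

end Pool.Agent.P.MP_8b7eba_nt.R3.DBase
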