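import Pool.Agent.P.MP_8b7eba_nt.R3.DBaseK

/-! Explicit central values. -/

namespace Pool.Agent.P.MP_8b7eba_nt.R3.DBase

theorem c_m30 : Chk (-30) [3, 5] [[13], [17], [29], [41], [61], [73], [241], [317]] := by
  decide +kernel

end Pool.Agent.P.MP_8b7eba_nt.R3.DBase
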