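import Pool.Agent.P.MP_8b7eba_nt.R3.DBase1
import Pool.Agent.P.MP_8b7eba_nt.R3.DBase2
import Pool.Agent.P.MP_8b7eba_nt.R3.DBase3

/-! Proof of BASE. -/

namespace Pool.Agent.P.MP_8b7eba_nt.R3

theorem DBase.cases30 {d : ℤ} (h : d ∣ 30) : d = -30 ∨ d = -15 ∨ d = -10 ∨ d = -6 ∨ d = -5 ∨ d = -3 ∨ d = -2 ∨ d = -1 ∨
    d = 1 ∨ d = 2 ∨ d = 3 ∨ d = 5 ∨ d = 6 ∨ d = 10 ∨ d = 15 ∨ d = 30 := by
  have h1 := Int.le_of_dvd (by norm_num) h
  have h2 := Int.le_of_dvd (by norm_num) (neg_dvd.2 h)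
  have key : ∀ k : ℕ, k < 61 → ((k : ℤ) - 30) ∣ 30 → (k : ℤ) - 30 ∈ ([-30, -15, -10, -6, -5, -3, -2, -1, 1, 2, 3, 5, 6, 10, 15, 30] : List ℤ) := by
    decide +kernel
  have := key (d + 30).toNat (by omega) (by rwa [show (((d + 30).toNat : ℕ) : ℤ) - 30 = d by omega])
  rw [show (((d + 30).toNat : ℕ) : ℤ) - 30 = d by omega] at this
  simpa using this

open DBase in
theorem t_BASE (hKC : KC) : BASE := by
  intro d h
  rcases cases30 h.dvd with rfl | rfl | rfl | rfl | rfl | rfl | rfl | rfl | rfl | rfl | rfl | rfl | rfl | rfl | rfl | rfl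
  · exact base_of hKC c_m30 h
  · exact base_of hKC c_m15 h
  · exact base_of hKC c_m10 h
  · exact base_of hKC c_m6 h
  · exact base_of hKC c_m5 h
  · exact base_of hKC c_m3 h
  · exact base_of hKC c_m2 h
  · exact base_of hKC c_m1 h
  · exact base_of hKC c_1 h
  · exact base_of hKC c_2 h
  · exact base_of hKC c_3 h
  · exact base_of hKC c_5 h
  · exact base_of hKC c_6 h
  · exact base_of hKC c_10 h
  · exact base_of hKC c_15 h
  · exact base_of hKC c_30 h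

end Pool.Agent.P.MP_8b7eba_nt.R3
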