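import Pool.Agent.P.MP_8b7eba_nt.R3.DGINV

/-! Proof of CHQ. -/

namespace Pool.Agent.P.MP_8b7eba_nt.R3

open _root_.Pool.Agent.P.MP_8b7eba_nt.Mod (M2)
open R1 (QF)

namespace DCHQ

variable {p : ℕ} (hp : p.Prime)

include hp

theorem clr {x : ℚ} (hx : x ∈ RP p) : ¬ (p : ℤ) ∣ x.den ∧ (x.den : ℤ) * x = x.num :=
  ⟨fun h => hx p hp (Int.natCast_dvd_natCast.1 h) rfl, by
    rw [Int.cast_natCast, Rat.den_mul_eq_num]⟩

theorem nd {a b : ℤ} (ha : ¬ (p : ℤ) ∣ a) (hb : ¬ (p : ℤ) ∣ b) : ¬ (p : ℤ) ∣ a * b := fun h =>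
  ((Nat.prime_iff_prime_int.1 hp).dvd_or_dvd h).elim ha hb

theorem clr4 {x y z w : ℚ} (hx : x ∈ RP p) (hy : y ∈ RP p) (hz : z ∈ RP p) (hw : w ∈ RP p) :
    ∃ n a b c d : ℤ, ¬ (p : ℤ) ∣ n ∧ n * x = a ∧ n * y = b ∧ n * z = c ∧ n * w = d := by
  obtain ⟨a1, a2⟩ := clr hp hx
  obtain ⟨b1, b2⟩ := clr hp hy
  obtain ⟨c1, c2⟩ := clr hp hz
  obtain ⟨d1, d2⟩ := clr hp hw
  generalize (x.den : ℤ) = i, (y.den : ℤ) = j, (z.den : ℤ) = k, (w.den : ℤ) = l at *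
  refine ⟨i * j * (k * l), x.num * j * (k * l), i * y.num * (k * l), i * j * (z.num * l),
    i * j * (k * w.num), nd hp (nd hp a1 b1) (nd hp c1 d1), ?_, ?_, ?_, ?_⟩ <;> push_cast
  · rw [← a2]
    ring
  · rw [← b2]
    ring
  · rw [← c2]
    ring
  · rw [← d2]
    ring

variable {χ : ℤ → ℤ} (mul : ∀ x y, χ (x * y) = χ x * χ y)
  (sq : ∀ a, ¬ (p : ℤ) ∣ a → χ a * χ a = 1)

include mul sq

theorem val {x : ℚ} {n a : ℤ} (hn : ¬ (p : ℤ) ∣ n) (h : n * x = a) :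
    χ (x.num * x.den) = χ n * χ a ∧ ((p : ℤ) ∣ x.num ↔ (p : ℤ) ∣ a) := by
  have hp' := Nat.prime_iff_prime_int.1 hp
  have e : n * x.num = a * x.den := by
    have : (n : ℚ) * x.num = a * x.den := by rw [← h, ← Rat.mul_den_eq_num]; ring
    exact_mod_cast this
  have hd : ¬ (p : ℤ) ∣ x.den := fun k => hn (k.trans
    ((Int.isCoprime_iff_gcd_eq_one.2 (show x.num.gcd x.den = 1 from x.reduced)).symm.dvd_of_dvd_mul_right ⟨a, by rw [e]; ring⟩))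
  refine ⟨?_, fun k => (hp'.dvd_or_dvd (e ▸ k.mul_left n)).resolve_right hd,
    fun k => (hp'.dvd_or_dvd (e ▸ k.mul_right x.den : (p : ℤ) ∣ n * x.num)).resolve_left hn⟩
  have h1 := congrArg χ e
  rw [mul, mul] at h1
  rw [mul]
  linear_combination χ n * χ x.den * h1 - χ x.num * χ x.den * sq n hn + χ n * χ a * sq _ hd

theorem gen (zero : ∀ a, (p : ℤ) ∣ a → χ a = 0) {g : GM} {k : ℚ} {Q : QQ} (ha : k * g.a ∈ RP p)
    (hb : k * g.b ∈ RP p) (hc : k * g.c ∈ RP p) (hd : k * g.d ∈ RP p)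
    (hu : (k ^ 2 * g.det)⁻¹ ∈ RP p) (hk : k ≠ 0) (hQ : In (RP p) Q)
    (hO : ∀ (R : QF) (N : ℤ), ¬ (p : ℤ) ∣ N → (R.disc : ℚ) = N ^ 2 * Q.disc → ∀ x y,
      ¬ (p : ℤ) ∣ R.ev x y → χ (R.ev x y) = if (p : ℤ) ∣ R.A then χ R.C else χ R.A) :
    (if (p : ℤ) ∣ (g • Q).A.num then χ ((g • Q).C.num * (g • Q).C.den)
      else χ ((g • Q).A.num * (g • Q).A.den)) =
      χ ((k ^ 2 * g.det).num * (k ^ 2 * g.det).den) *
        if (p : ℤ) ∣ Q.A.num then χ (Q.C.num * Q.C.den) else χ (Q.A.num * Q.A.den) := by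
  have hp' := Nat.prime_iff_prime_int.1 hp
  obtain ⟨n, a, b, c, d, hn, e1, e2, e3, e4⟩ := clr4 hp ha hb hc hd
  obtain ⟨N, A, B, C, -, hN, f1, f2, f3, -⟩ := clr4 hp hQ.1 hQ.2.1 hQ.2.2 hQ.1
  obtain ⟨u1, u2⟩ := clr hp hu
  have g0 := g.det_ne
  have hδ : ((n * n : ℤ) : ℚ) * (k ^ 2 * g.det) = (a * d - c * b : ℤ) := by
    push_cast
    rw [← e1, ← e2, ← e3, ← e4, GM.det]
    ring
  have h1 : ¬ (p : ℤ) ∣ a * d - c * b := fun h => nd hp (nd hp hn hn) u1 (by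
    have : ((n * n * ((k ^ 2 * g.det)⁻¹.den : ℤ) : ℤ) : ℚ) =
        ((k ^ 2 * g.det)⁻¹.num * (a * d - c * b) : ℤ) := by
      rw [Int.cast_mul, Int.cast_mul _ (a * d - c * b), ← hδ, ← u2]
      field_simp
    rw [Int.cast_injective this]
    exact h.mul_left _)
  have h2 : (((⟨A, B, C⟩ : QF).disc : ℤ) : ℚ) = N ^ 2 * Q.disc := by
    simp only [QF.disc, QQ.disc]
    push_cast
    rw [← f1, ← f2, ← f3]
    ring
  have h3 := DGINV.core hp' χ mul zero (k := 1) (g := ⟨a, c, b, d⟩) (Q := ⟨A, B, C⟩)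
    (P := (⟨A, B, C⟩ : QF).cmp ⟨a, c, b, d⟩)
    (hO _ (N * (a * d - c * b)) (nd hp hN h1) (by
      rw [QF.disc_cmp, Int.cast_mul, h2, M2.det]
      push_cast
      ring)) (hO _ N hN h2) (by rwa [one_mul]) (by simp only [one_mul])
  have h4 : ∀ x y : ℚ, ∀ s t : ℤ, n * (k * x) = s → n * (k * y) = t →
      ((N * (a * d - c * b) : ℤ) : ℚ) * ((Q.A * x ^ 2 + Q.B * x * y + Q.C * y ^ 2) / g.det) =
        ((⟨A, B, C⟩ : QF).ev s t : ℤ) := fun x y s t hs ht => by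
    rw [Int.cast_mul, ← hδ, QF.ev]
    push_cast
    rw [← hs, ← ht, ← f1, ← f2, ← f3]
    field_simp
  obtain ⟨a1, a2⟩ := val hp mul sq (x := (g • Q).A) (nd hp hN h1) (h4 _ _ _ _ e1 e2)
  obtain ⟨a3, -⟩ := val hp mul sq (x := (g • Q).C) (nd hp hN h1) (h4 _ _ _ _ e3 e4)
  obtain ⟨b1, b2⟩ := val hp mul sq hN f1
  have h5 : χ 1 = 1 := by
    have := sq 1 hp'.not_dvd_one
    rwa [← mul, one_mul] at this
  rw [h5, one_mul] at h3
  rw [a1, a3, b1, (val hp mul sq hN f3).1, (val hp mul sq (nd hp hn hn) hδ).1, mul n, sq n hn,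
    one_mul, mul N, if_congr a2 rfl rfl, if_congr b2 rfl rfl, ← mul_ite, ← mul_ite]
  rw [mul_right_comm, mul_comm]
  exact congrArg (fun z => χ (a * d - c * b) * (χ N * z)) h3.symm

end DCHQ

theorem t_CHQ : CHQ := by
  refine ⟨fun p g k Q hp h2 ha hb hc hd hu hk hQ hD => ?_,
    fun e E g k Q he hE ha hb hc hd hu hk hQ hD => ?_⟩
  · refine DCHQ.gen hp (χ := fun x => jacobiSym x p) (fun x y => jacobiSym.mul_left x y p)
      (fun a h => by rw [← sq, jacobiSym.sq_one (BSD15.cfid_gcd hp h)])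
      (fun a h => BSD15.cfid_jac_zero hp h) ha hb hc hd hu hk hQ
      fun R N _ hR x y h => QF.chip_eq hp h2 ?_ h
    obtain ⟨u1, u2⟩ := DCHQ.clr hp hD
    refine ((Nat.prime_iff_prime_int.1 hp).dvd_or_dvd (b := R.disc)
      ⟨N ^ 2 * (Q.disc / p).num, Int.cast_injective (α := ℚ) ?_⟩).resolve_left u1
    have : (p : ℚ) ≠ 0 := Nat.cast_ne_zero.2 hp.ne_zero
    rw [Int.cast_mul, hR, Int.cast_mul, Int.cast_mul, ← u2]
    push_cast
    field_simp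
  · refine DCHQ.gen Nat.prime_two (χ := c2 e) (DGINV.c2_mul e) (fun a => DGINV.c2_sq e)
      (DGINV.c2_zero he) ha hb hc hd hu hk hQ fun R N hN hR =>
        DGINV.ch2_eq he (E := N ^ 2 * E) (DGINV.m4_mul ?_ hE) (Int.cast_injective (α := ℚ) ?_)
    · obtain ⟨t, rfl⟩ : ∃ t, N = 2 * t + 1 := ⟨N / 2, by push_cast at hN; omega⟩
      rw [show (2 * t + 1) ^ 2 = 1 + 4 * (t ^ 2 + t) by ring, Int.add_mul_emod_self_left]
      rfl
    · rw [hR, hD]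
      push_cast
      ring

end Pool.Agent.P.MP_8b7eba_nt.R3
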