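import Pool.Agent.P.MP_8b7eba_nt.R3.IfD
import Pool.Agent.P.MP_8b7eba_nt.ModAL

/-! Proof of CONJG. -/

namespace Pool.Agent.P.MP_8b7eba_nt.R3

open _root_.Pool.Agent.P.MP_8b7eba_nt.Mod (M2 G0 FI L0 om lv AL sl ff)
open R1 (QF Hg Lv st Rq uu VV lf wf cnt Wt VB Dual gg dualB_F dualB_M)
open BSD15 (Adm Prim dt)
open Filter Topology Finset
open scoped Real ComplexConjugate

namespace DCONJG

/-- the reflection -/
def J : M2 := ⟨1, 0, 0, -1⟩

/-- multiples of a form -/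
def sc (e : ℤ) (Q : QF) : QF := ⟨e * Q.A, e * Q.B, e * Q.C⟩

theorem det_J (w : M2) : (J * w).det = -w.det := by
  simp [J, M2.det]
  ring

theorem sc_cmp (e : ℤ) (Q : QF) (g : M2) : (sc e Q).cmp g = sc e (Q.cmp g) := by
  ext <;> simp only [sc, QF.cmp, QF.ev] <;> ring

theorem cmp_inj {P Q : QF} {g : M2} (hg : g.det ≠ 0) (h : P.cmp g = Q.cmp g) : P = Q := by
  have e : ∀ R : QF, (R.cmp g).cmp g.adj = sc (g.det ^ 2) R := fun R => by
    ext <;> simp only [sc, QF.cmp, QF.ev, M2.det, M2.adj_a, M2.adj_b, M2.adj_c, M2.adj_d] <;> ring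
  have h1 := e P
  rw [h, e Q] at h1
  have h2 := pow_ne_zero 2 hg
  simp only [sc, QF.mk.injEq] at h1
  exact QF.ext (mul_left_cancel₀ h2 h1.1).symm (mul_left_cancel₀ h2 h1.2.1).symm
    (mul_left_cancel₀ h2 h1.2.2).symm

variable {N : ℕ} {ρ e k : ℤ} {P P' Q : QF} {w w' : M2}

theorem neg_disc (hN : 0 < N) (h : Hg N ρ P) : P.disc < 0 := by
  rw [h.1.1]
  omega

theorem ex (hN : 0 < N) (he : 0 < e) (hk : e * k = 15) (hw : AL e w) (h : Hg N ρ P)
    (hB : k ∣ P.B) : ∃ Q, Hg N ρ Q ∧ P.cmp (J * w) = sc e Q := by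
  have hpos : 0 < (P.cmp (J * w)).A :=
    QF.cmp_A_pos h.2 (neg_disc hN h) (by rw [det_J, hw.1]; omega)
  have hdisc := QF.disc_cmp P (J * w)
  rw [det_J, hw.1, h.1.1] at hdisc
  obtain ⟨A, B, C⟩ := P
  obtain ⟨a0, b, c0, d0⟩ := w
  obtain ⟨h1, ⟨c, hc⟩, ⟨a, ha⟩, ⟨d, hd⟩⟩ := hw
  obtain ⟨⟨-, ⟨A', hA⟩, ⟨r, hr⟩⟩, -⟩ := h
  obtain ⟨B', hB'⟩ := hB
  simp only [M2.det] at h1 hc ha hd hA hr hB'
  subst hc ha hd hA
  have h2 : e * a * d - k * b * c = 1 := by
    apply mul_left_cancel₀ he.ne'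
    linear_combination h1 - b * c * hk
  have key : (QF.mk (15 * A') B C).cmp (J * ⟨e * a, b, 15 * c, e * d⟩) =
      sc e ⟨15 * (A' * e * a ^ 2 - B * a * c + k * C * c ^ 2),
        30 * (A' * a * b + C * c * d) - B * (e * a * d + k * b * c),
        k * A' * b ^ 2 - B * b * d + C * e * d ^ 2⟩ := by
    ext <;> simp only [sc, QF.cmp, QF.ev, J, M2.mul_a, M2.mul_b, M2.mul_c, M2.mul_d]
    · linear_combination -15 * C * c ^ 2 * hk
    · linear_combination B * b * c * hk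
    · linear_combination -A' * b ^ 2 * hk
  rw [key] at hpos hdisc
  refine ⟨_, ⟨⟨?_, dvd_mul_right _ _, ⟨A' * a * b + C * c * d - B' * a * d + r, ?_⟩⟩, ?_⟩, key⟩
  · apply mul_left_cancel₀ (pow_ne_zero 2 he.ne')
    simp only [sc, QF.disc] at hdisc ⊢
    linear_combination hdisc
  · simp only
    linear_combination hr + B * h2 - 2 * e * a * d * hB' - 2 * B' * a * d * hk
  · exact (mul_pos_iff_of_pos_left he).1 hpos

theorem tau_rel (hN : 0 < N) (he : 0 < e) (hw : AL e w) (h : Hg N ρ P) (h' : Hg N ρ Q)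
    (hr : P.cmp (J * w) = sc e Q) : w.act Q.tau = -conj P.tau := by
  have e1 : P.cmp J = ⟨P.A, -P.B, P.C⟩ := by
    ext <;> simp [J, QF.cmp, QF.ev]
  have d1 : (P.cmp J).disc = P.disc := by
    rw [e1]
    simp [QF.disc]
  have a1 : 0 < (P.cmp J).A := by
    rw [e1]
    exact h.2
  have h1 := QF.act_tau a1 (d1 ▸ neg_disc hN h) (hw.1 ▸ he : 0 < w.det)
  rw [← QF.cmp_mul, hr] at h1
  have a2 : 0 < (sc e Q).A := mul_pos he h'.2
  have d2 : (sc e Q).disc < 0 := by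
    rw [show (sc e Q).disc = e ^ 2 * Q.disc by simp only [sc, QF.disc]; ring]
    exact mul_neg_of_pos_of_neg (by positivity) (neg_disc hN h')
  have h2 : Q.tau = (sc e Q).tau := by
    refine QF.eq_tau a2 d2 (QF.tau_im_pos h'.2 (neg_disc hN h')) ?_
    have := QF.tau_root h'.2 (neg_disc hN h')
    simp only [sc]
    push_cast
    linear_combination (e : ℂ) * this
  rw [h2, h1]
  apply Complex.ext
  · simp [QF.tau, e1, neg_div]
  · simp only [QF.tau, d1, Complex.neg_im, Complex.conj_im, neg_neg]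
    rw [e1]

theorem rel_inj (he : e ∣ 15) (h0 : e ≠ 0) (hw : AL e w) (hw' : AL e w')
    (hr : P.cmp (J * w) = P'.cmp (J * w')) : ∃ g, G0 g ∧ P.cmp g = P' := by
  obtain ⟨γ, hγ, rfl⟩ := hw.exists_G0 he h0 hw'
  refine ⟨J * γ * J, ⟨?_, ?_⟩, cmp_inj (g := J * w') (by rw [det_J, hw'.1]; omega) ?_⟩
  · rw [M2.det_mul, det_J, hγ.1]
    rfl
  · simpa [J] using hγ.2
  · rw [← QF.cmp_mul, ← hr]
    congr 1
    ext <;> simp [J, add_comm]

theorem data (d : ℤ) : ∃ (k : ℤ) (W : M2), 0 < el d ∧ el d * k = 15 ∧ AL (el d) W ∧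
    (∀ B : ℤ, (3 ∣ d → 3 ∣ B) → (5 ∣ d → 5 ∣ B) → k ∣ B) ∧
    ∀ w, AL (el d) w → ∀ z : ℂ, 0 < z.im → sl ff w z = (es d : ℂ) * ff z := by
  unfold el es
  by_cases h3 : 3 ∣ d <;> by_cases h5 : 5 ∣ d <;> simp only [h3, h5, if_true, if_false]
  · refine ⟨15, 1, by norm_num, by norm_num, by decide, fun B a b => ?_, fun w hw z hz => ?_⟩
    · have := a trivial
      have := b trivial
      omega
    · simpa using (Mod.ff_inv w ⟨hw.1, hw.2.1⟩).sl_eq hw.1 hz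
  · refine ⟨3, ⟨10, 3, 15, 5⟩, by norm_num, by norm_num, by decide, fun B a _ => a trivial,
      fun w hw z hz => ?_⟩
    simpa using Mod.sl_AL5 hw hz
  · refine ⟨5, ⟨3, 1, 15, 6⟩, by norm_num, by norm_num, by decide, fun B _ b => b trivial,
      fun w hw z hz => ?_⟩
    simpa using Mod.sl_AL3 hw hz
  · refine ⟨1, ⟨0, -1, 15, 0⟩, by norm_num, by norm_num, by decide, fun B _ _ => one_dvd _,
      fun w hw z hz => ?_⟩
    simpa using Mod.sl_AL15 hw hz

theorem dvd_B {d E p : ℤ} (hp : Prime p) (h15 : p ∣ 15) (hE : -(N : ℤ) = ds d * E) (h : Hg N ρ P)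
    (hd : p ∣ d) : p ∣ P.B := by
  have h1 : p ∣ ds d := by
    unfold ds
    split_ifs
    · exact hd
    · exact hd.mul_left _
  refine hp.dvd_of_dvd_pow (n := 2) ?_
  rw [show P.B ^ 2 = P.disc + P.A * (4 * P.C) by simp only [QF.disc]; ring, h.1.1, hE]
  exact dvd_add (h1.mul_right _) ((h15.trans h.1.2.1).mul_right _)

end DCONJG

open DCONJG in
theorem t_CONJG (hKC : KC) (hGINV : GINV) : CONJG := by
  classical
  intro d E ρ N S hd hN hE hM hS
  obtain ⟨k, W, he, hk, hW, hB, hsl⟩ := data d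
  have h15 : el d ∣ 15 := ⟨k, hk.symm⟩
  set u := wg (-N) ρ d with hu
  have hch : ∀ {P Q : QF} {w : M2}, AL (el d) w → Hg N ρ P → Hg N ρ Q →
      P.cmp (J * w) = sc (el d) Q → u P = kc d (el d) * u Q := by
    intro P Q w hw hP hQ hr
    rw [hu, wg, wg, if_pos hP.1, if_pos hQ.1]
    refine hGINV d E E (el d) Q P (J * w) hd hM hM (hP.1.1.trans hE) (hQ.1.1.trans hE) ?_ hr
    rw [det_J, hw.1]
    exact (hKC.root d hd).2.mul_left (hKC.root d hd).2.neg_left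
  have hex : ∀ P : QF, ∃ x : M2 × QF, P ∈ S → u P ≠ 0 →
      AL (el d) x.1 ∧ x.2 ∈ S ∧ P.cmp (J * x.1) = sc (el d) x.2 := by
    intro P
    by_cases hP : P ∈ S ∧ u P ≠ 0
    · have h1 := hS.hg P hP.1
      obtain ⟨Q, hQ, hr⟩ := ex hN he hk hW h1 (hB _ (dvd_B Int.prime_three (by norm_num) hE h1)
        (dvd_B (Nat.prime_iff_prime_int.1 Nat.prime_five) (by norm_num) hE h1))
      obtain ⟨g, hg, hg'⟩ := hS.all Q hQ fun h0 => hP.2 (by rw [hch hW h1 hQ hr, h0, mul_zero])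
      exact ⟨(W * g, Q.cmp g), fun _ _ => ⟨hW.mul_G0 h15 hg, hg', by
        rw [← mul_assoc, QF.cmp_mul, hr, sc_cmp]⟩⟩
    · exact ⟨(1, P), fun a b => absurd ⟨a, b⟩ hP⟩
  choose x hx using hex
  set T := S.filter fun P => u P ≠ 0 with hT
  have hux : ∀ P ∈ T, u P = kc d (el d) * u (x P).2 := by
    intro P hP
    obtain ⟨h1, h2⟩ := Finset.mem_filter.1 hP
    obtain ⟨h3, h4, h5⟩ := hx P h1 h2
    exact hch h3 (hS.hg P h1) (hS.hg _ h4) h5
  have hinj : Set.InjOn (fun P => (x P).2) T := by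
    intro P hP P' hP' e
    obtain ⟨h1, h2⟩ := Finset.mem_filter.1 hP
    obtain ⟨h3, h4⟩ := Finset.mem_filter.1 hP'
    have e' : (x P).2 = (x P').2 := e
    obtain ⟨g, k1, k2⟩ := rel_inj (P := P) (P' := P') h15 he.ne' (hx P h1 h2).1 (hx P' h3 h4).1
      (by rw [(hx P h1 h2).2.2, (hx P' h3 h4).2.2, e'])
    rcases hS.inj P h1 g k1 (k2 ▸ h3) with rfl | rfl
    · simpa using k2
    · simpa using k2
  have him : T.image (fun P => (x P).2) = T := by
    refine Finset.eq_of_subset_of_card_le (fun Q hQ => ?_) (Finset.card_image_of_injOn hinj).ge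
    obtain ⟨P, hP, rfl⟩ := Finset.mem_image.1 hQ
    obtain ⟨h1, h2⟩ := Finset.mem_filter.1 hP
    exact Finset.mem_filter.2 ⟨(hx P h1 h2).2.1, fun h0 => h2 (by rw [hux P hP, h0, mul_zero])⟩
  have z1 : ZS S u = ∑ P ∈ T, u P * FI P.tau := by
    rw [hT, ZS]
    refine (Finset.sum_filter_of_ne fun P _ h => ?_).symm
    intro h0
    exact h (by rw [h0, Int.cast_zero, zero_mul])
  have z2 : rn d * d.sign = -(es d * kc d (el d)) := by
    have h1 : d.sign * d.sign = 1 := by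
      rcases lt_trichotomy d 0 with h | h | h
      · rw [Int.sign_eq_neg_one_of_neg h]
        norm_num
      · exact absurd h hd.ne_zero
      · rw [Int.sign_eq_one_of_pos h]
        norm_num
    rw [(hKC.root d hd).1, ← neg_one_mul (el d), hKC.mul, hKC.neg d hd]
    linear_combination -(es d * kc d (el d)) * h1
  have z3 : (rn d : ℂ) * d.sign = -(es d * kc d (el d)) := by exact_mod_cast z2
  refine ⟨(∑ P ∈ T, u P * Mod.nP (x P).1.a (x P).1.c : ℤ),
    (∑ P ∈ T, u P * Mod.nM (x P).1.a (x P).1.c : ℤ), ?_⟩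
  rw [z3, z1, map_sum]
  nth_rw 2 [← him]
  rw [Finset.sum_image hinj]
  push_cast
  simp only [Finset.mul_sum, Finset.sum_mul, ← Finset.sum_add_distrib]
  refine Finset.sum_congr rfl fun P hP => ?_
  obtain ⟨h1, h2⟩ := Finset.mem_filter.1 hP
  obtain ⟨h3, h4, h5⟩ := hx P h1 h2
  have h6 := Mod.FI_act (h3.1 ▸ he : 0 < (x P).1.det) (hsl _ h3)
    (QF.tau_im_pos (hS.hg _ h4).2 (neg_disc hN (hS.hg _ h4)))
  rw [tau_rel hN he h3 (hS.hg P h1) (hS.hg _ h4) h5,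
    Mod.FI_conj (QF.tau_im_pos (hS.hg P h1).2 (neg_disc hN (hS.hg P h1))), Mod.lv_eq] at h6
  have h7 : (u P : ℂ) = kc d (el d) * u (x P).2 := by exact_mod_cast hux P hP
  rw [map_mul, map_intCast]
  linear_combination (u P : ℂ) * h6 + es d * FI (x P).2.tau * h7

end Pool.Agent.P.MP_8b7eba_nt.R3
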