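import Pool.Agent.P.MP_8b7eba_nt.R3.IfD

/-! Proof of DFAM. -/

namespace Pool.Agent.P.MP_8b7eba_nt.R3

open _root_.Pool.Agent.P.MP_8b7eba_nt.Mod (M2 G0 FI L0 om lv)
open R1 (QF Hg Lv st Rq uu VV lf wf cnt Wt VB Dual gg dualB_F dualB_M sn jj)
open BSD15 (Adm Prim dt)
open Filter Topology Finset
open scoped Real ComplexConjugate

namespace DDFAM

theorem side {e κ : ℤ} (he : e * e = 1) (hκ : 0 < κ) {F : QF} {y₁ y₂ : BSD15.V}
    (hd : dt y₁ y₂ < 0) (hF : ∀ x : BSD15.V, F.ev x.1 x.2 = -e * κ * (dt x y₁ * dt x y₂))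
    (h : BSD15.Gam) (x : BSD15.V) : BSD15.side (h.act y₁) (h.act y₂) x =
      e * ((F.cmp (dualB_M h)).ev x.1 x.2).sign := by
  have e1 : (F.cmp (dualB_M h)).ev x.1 x.2 =
      -e * κ * (dt x (h.act y₁) * dt x (h.act y₂)) := by
    rw [QF.ev_cmp]
    refine (hF (_, _)).trans ?_
    simp only [dualB_M, dt, BSD15.Gam.act]
    ring
  rw [BSD15.side, BSD15.paircore_dt_act, e1, Int.sign_eq_neg_one_of_neg hd, Int.sign_mul,
    Int.sign_mul, Int.sign_mul, Int.sign_eq_one_of_pos hκ]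
  rcases Int.eq_one_or_neg_one_of_mul_eq_one he with rfl | rfl <;> simp

theorem cross {e κ : ℤ} (he : e * e = 1) (hκ : 0 < κ) {F : QF} {y₁ y₂ : BSD15.V}
    (hd : dt y₁ y₂ < 0) (hF : ∀ x : BSD15.V, F.ev x.1 x.2 = -e * κ * (dt x y₁ * dt x y₂))
    (h : BSD15.Gam) {x y : BSD15.V} (hx : (F.cmp (dualB_M h)).ev x.1 x.2 ≠ 0)
    (hy : (F.cmp (dualB_M h)).ev y.1 y.2 ≠ 0) :
    (sn ((F.cmp (dualB_M h)).ev x.1 x.2) - sn ((F.cmp (dualB_M h)).ev y.1 y.2)) / 2 =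
      -e * BSD15.cross x y (h.act y₁) (h.act y₂) := by
  rw [BSD15.cross, side he hκ hd hF, side he hκ hd hF, R1.dualB_sn, R1.dualB_sn]
  generalize (F.cmp (dualB_M h)).ev x.1 x.2 = u at hx
  generalize (F.cmp (dualB_M h)).ev y.1 y.2 = v at hy
  rcases Int.eq_one_or_neg_one_of_mul_eq_one he with rfl | rfl <;>
    rcases hx.lt_or_gt with h1 | h1 <;> rcases hy.lt_or_gt with h2 | h2 <;>
    simp only [Int.sign_eq_neg_one_of_neg, Int.sign_eq_one_of_pos, h1, h2] <;> norm_num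

theorem jj_eq {e D : ℤ} (he : e * e = 1) {w : QF → ℤ} (hw : Wt D w) {n : ℕ} {F : ℕ → QF}
    (hU : Unf w n F) {y₁ : ℕ → BSD15.V} {y₂ : BSD15.V}
    (hs : ∀ c < n, w (F c) ≠ 0 → dt (y₁ c) y₂ < 0 ∧
      ∃ κ : ℤ, 0 < κ ∧ ∀ x : BSD15.V, (F c).ev x.1 x.2 = -e * κ * (dt x (y₁ c) * dt x y₂))
    {g : M2} (hg : G0 g) : jj w g = -e * ∑ c ∈ range n, w (F c) *
      ((BSD15.crossSum (g.a + 3 * g.b, g.c + 3 * g.d) (1, 3) (y₁ c) y₂ : ℝ) / 2) := by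
  have hne : ∀ Q, w Q ≠ 0 → Q.ev (g.a + 3 * g.b) (g.c + 3 * g.d) ≠ 0 := fun Q hQ => by
    have := hw.ne (Q.cmp g) (by rwa [hw.inv Q g hg])
    rwa [QF.ev_cmp, mul_one, mul_one, mul_comm g.b, mul_comm g.d] at this
  have hw0 : ∀ Q, (w Q : ℝ) * ((sn (Q.ev (g.a + 3 * g.b) (g.c + 3 * g.d)) - sn (Q.ev 1 3)) / 2) ≠
      0 → w Q ≠ 0 := fun Q hQ h => hQ (by simp [h])
  have e1 := hU (fun Q =>
    (w Q : ℝ) * ((sn (Q.ev (g.a + 3 * g.b) (g.c + 3 * g.d)) - sn (Q.ev 1 3)) / 2))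
    ((R1.finite_cusps hw.pos (g.a + 3 * g.b) (g.c + 3 * g.d) 1 3).subset fun Q hQ =>
      ⟨hw.disc Q (hw0 Q hQ), hne Q (hw0 Q hQ), hw.ne Q (hw0 Q hQ), fun h => hQ (by simp [h])⟩)
    hw0
  refine mul_left_cancel₀ two_ne_zero ?_
  rw [jj, ← e1, mul_sum, mul_sum]
  refine sum_congr rfl fun c hc => ?_
  have e2 := (Int.castAddHom ℝ).map_finsum
    (BSD15.cross_finite (g.a + 3 * g.b, g.c + 3 * g.d) (1, 3) (y₁ c) y₂)
  simp only [Int.coe_castAddHom] at e2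
  rw [BSD15.crossSum, e2, show ∀ a b s : ℝ, 2 * (a * (b * (s / 2))) = b * a * s by intros; ring,
    mul_finsum]
  refine finsum_congr fun h => ?_
  by_cases h0 : w (F c) = 0
  · simp [hw.inv _ _ (R1.dualB_G0 h), h0]
  · have h1 : w ((F c).cmp (dualB_M h)) ≠ 0 := by rwa [hw.inv _ _ (R1.dualB_G0 h)]
    obtain ⟨hd, κ, hκ, hF⟩ := hs c (mem_range.1 hc) h0
    rw [cross he hκ hd hF h (x := (g.a + 3 * g.b, g.c + 3 * g.d)) (y := (1, 3)) (hne _ h1)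
      (hw.ne _ h1), hw.inv _ _ (R1.dualB_G0 h), mul_assoc]

theorem II_eq {g : M2} (hg : G0 g) {y y' : BSD15.V} (hy : Int.gcd y.2 15 ≠ 3)
    (hy' : Int.gcd y'.2 15 ≠ 3) :
    ((BSD15.II (g.a + 3 * g.b, g.c + 3 * g.d) (1, 3) y y' : ℚ) : ℝ) =
      (BSD15.crossSum (g.a + 3 * g.b, g.c + 3 * g.d) (1, 3) y y' : ℝ) / 2 := by
  have h1 : Int.gcd ((g.a + 3 * g.b, g.c + 3 * g.d) : BSD15.V).2 15 = 3 := by
    have := BSD15.paircore_gcd_act ⟨g.a, g.b, g.c, g.d, hg.1, hg.2⟩ (1, 3)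
    simp only [BSD15.Gam.act, mul_one, mul_comm g.d] at this
    exact this
  have h2 : Int.gcd ((1, 3) : BSD15.V).2 15 = 3 := by decide
  have key : ∀ x x' z z' : BSD15.V, Int.gcd x.2 15 ≠ Int.gcd z.2 15 → BSD15.endT x x' z z' = 0 :=
    fun x x' z z' h => BSD15.endT_of_not x' z' fun ⟨k, hk⟩ =>
      h (hk ▸ BSD15.paircore_gcd_act k z)
  rw [BSD15.II, BSD15.endSum, key _ _ _ _ (by omega), key _ _ _ _ (by omega),
    key _ _ _ _ (by omega), key _ _ _ _ (by omega)]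
  push_cast
  ring

theorem base_eq {a b : ℤ} (h : Int.gcd a 15 = Int.gcd b 15) : BSD15.ms_base a = BSD15.ms_base b := by
  have k : ∀ p : ℤ, p ∣ 15 → (p ∣ a ↔ p ∣ b) := fun p hp => by
    have e : ∀ x : ℤ, p ∣ x ↔ p ∣ (Int.gcd x 15 : ℤ) := fun x =>
      ⟨fun hx => Int.dvd_coe_gcd hx hp, fun hx => hx.trans (Int.gcd_dvd_left _ _)⟩
    rw [e a, e b, h]
  simp only [BSD15.ms_base, k 3 (by norm_num), k 5 (by norm_num)]

theorem periods {n γ : ℕ} {c : ℕ → ℤ} {y : ℕ → BSD15.V} (h0 : ∑ i ∈ range n, c i = 0)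
    (h : ∀ i < n, c i ≠ 0 → Prim (y i) ∧ Int.gcd (y i).2 15 = γ) :
    ∃ U W : ℤ, ∀ ψ : BSD15.V → ℂ, BSD15.IsMS ψ →
      ∑ i ∈ range n, (c i : ℂ) * ψ (y i) = U * BSD15.msA ψ + W * BSD15.msB ψ := by
  have k : ∀ i, ∃ u v : ℤ, i < n → c i ≠ 0 → ∀ ψ : BSD15.V → ℂ, BSD15.IsMS ψ →
      ψ (y i) = ψ (BSD15.ms_base γ) + u * BSD15.msA ψ + v * BSD15.msB ψ := fun i => by
    by_cases hi : i < n ∧ c i ≠ 0
    · obtain ⟨h1, h2⟩ := h i hi.1 hi.2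
      obtain ⟨u, v, huv⟩ := BSD15.ms_R_all _ (y i) rfl h1
      refine ⟨u, v, fun _ _ ψ hψ => ?_⟩
      rw [huv ψ hψ, base_eq (a := (y i).2) (b := γ)]
      rw [← h2]
      simp [Int.gcd_eq_natAbs]
    · exact ⟨0, 0, fun h1 h2 => absurd ⟨h1, h2⟩ hi⟩
  choose u v huv using k
  refine ⟨∑ i ∈ range n, c i * u i, ∑ i ∈ range n, c i * v i, fun ψ hψ => ?_⟩
  have h1 : ∑ i ∈ range n, (c i : ℂ) * ψ (BSD15.ms_base γ) = 0 := by
    rw [← sum_mul, ← Int.cast_sum, h0, Int.cast_zero, zero_mul]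
  push_cast
  rw [sum_mul, sum_mul, ← sum_add_distrib, ← zero_add (∑ i ∈ range n, (_ + _)), ← h1,
    ← sum_add_distrib]
  refine sum_congr rfl fun i hi => ?_
  by_cases hc : c i = 0
  · simp [hc]
  · rw [huv i (mem_range.1 hi) hc ψ hψ]
    ring

theorem pair_sum {n : ℕ} {c : ℕ → ℤ} {y : ℕ → BSD15.V} {y₂ a b : BSD15.V}
    (h0 : ∑ i ∈ range n, c i = 0) (h : ∀ i < n, c i ≠ 0 → Prim (y i)) (h2 : Prim y₂)
    (ha : Prim a) (hb : Prim b)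
    (hf : BSD15.PairlamFam (univ : Finset Unit) (fun _ => 1) (fun _ => a) (fun _ => b)) :
    ∑ i ∈ range n, (c i : ℚ) * BSD15.II a b (y i) y₂ =
      -∑ i ∈ range n, (c i : ℚ) * BSD15.II (y i) (1, 0) a b := by
  have h1 : ∑ i ∈ range n, (c i : ℚ) * BSD15.II y₂ (1, 0) a b = 0 := by
    rw [← sum_mul, ← Int.cast_sum, h0, Int.cast_zero, zero_mul]
  rw [← zero_sub, ← h1, ← sum_sub_distrib]
  simp only [← mul_sub]
  refine BSD15.pairlam_congr fun i hi hc => ?_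
  have hp := h i (mem_range.1 hi) (by exact_mod_cast hc)
  have e := hf.sub hp h2
  simp only [univ_unique, sum_singleton, one_mul] at e
  rw [BSD15.II_antisymm ha hb hp h2, ← e]
  ring

end DDFAM

theorem t_DFAM : DFAM := by
  intro D e w n γ F y₁ y₂ he hw hU h2 hg2 hγ h0 hs
  have p12 : Prim (1, 2) := isCoprime_one_left
  have p01 : Prim (0, 1) := isCoprime_one_right
  have p14 : Prim (-1, 4) := BSD15.pairlam_prim (by decide)
  have fam : BSD15.PairlamFam (range n) (fun c => (w (F c) : ℚ)) y₁ (fun _ => y₂) := by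
    refine ⟨fun c hc h => ?_, fun x₁ x₂ x₃ h₁ h₂ h₃ => ?_⟩
    · obtain ⟨a, -, b, -⟩ := hs c (mem_range.1 hc) (by exact_mod_cast h)
      exact ⟨a, h2, b.ne⟩
    · by_cases hex : ∃ c < n, w (F c) ≠ 0
      · obtain ⟨c₀, k1, k2⟩ := hex
        rw [BSD15.pairlam_congr (g := fun _ => BSD15.dfct x₁ x₂ x₃ (y₁ c₀) -
          BSD15.dfct x₁ x₂ x₃ y₂), ← sum_mul, ← Int.cast_sum, h0, Int.cast_zero, zero_mul]
        intro c hc h
        obtain ⟨a, b, -⟩ := hs c (mem_range.1 hc) (by exact_mod_cast h)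
        obtain ⟨a', b', -⟩ := hs c₀ k1 k2
        rw [BSD15.pairlam_dfct h₁ h₂ h₃ a a' (b.trans b'.symm)]
      · push Not at hex
        exact sum_eq_zero fun c hc => by rw [hex c (mem_range.1 hc)]; simp
  obtain ⟨U, W, hUW⟩ := DDFAM.periods (c := fun c => w (F c)) (y := y₁) h0
    fun c hc h => ⟨(hs c hc h).1, (hs c hc h).2.1⟩
  have hp : ∀ c < n, w (F c) ≠ 0 → Prim (y₁ c) := fun c hc h => (hs c hc h).1
  have eB : ∑ c ∈ range n, (w (F c) : ℚ) * BSD15.II (0, 1) (-1, 4) (y₁ c) y₂ = U := by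
    rw [DDFAM.pair_sum h0 hp h2 p01 p14 R1.dualB_one]
    have e1 := hUW _ R1.dualB_one.isMS
    have e2 := R1.dualB_one.sub p01 p14
    have e3 := BSD15.II_antisymm p01 p14 p01 p14
    rw [BSD15.msA, BSD15.msB, ← Rat.cast_sub, ← Rat.cast_sub, e2] at e1
    simp only [univ_unique, sum_singleton, one_mul, R1.dualB_A] at e1
    rw [show BSD15.II (0, 1) (-1, 4) (0, 1) (-1, 4) = 0 by linarith] at e1
    have e4 : ∑ c ∈ range n, (w (F c) : ℚ) * BSD15.II (y₁ c) (1, 0) (0, 1) (-1, 4) =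
        U * -1 + W * 0 := by exact_mod_cast e1
    rw [e4]; ring
  have eA : ∑ c ∈ range n, (w (F c) : ℚ) * BSD15.II (1, 2) (0, 1) (y₁ c) y₂ = -W := by
    rw [DDFAM.pair_sum h0 hp h2 p12 p01 BSD15.pairlam_fam']
    have e1 := hUW _ BSD15.pairlam_fam'.isMS
    have e2 := BSD15.pairlam_fam'.sub p01 p14
    have e2' := BSD15.pairlam_fam'.sub p12 p01
    have e3 := BSD15.II_antisymm p12 p01 p12 p01
    rw [BSD15.msA, BSD15.msB, ← Rat.cast_sub, ← Rat.cast_sub, e2, e2'] at e1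
    simp only [univ_unique, sum_singleton, one_mul, BSD15.II_AB] at e1
    rw [show BSD15.II (1, 2) (0, 1) (1, 2) (0, 1) = 0 by linarith] at e1
    have e4 : ∑ c ∈ range n, (w (F c) : ℚ) * BSD15.II (y₁ c) (1, 0) (1, 2) (0, 1) =
        U * 0 + W * 1 := by exact_mod_cast e1
    rw [e4]; ring
  refine ⟨_, _, R1.dualB_fam fam (-e) fun g hg => ?_, ?_⟩
  · rw [DDFAM.jj_eq he hw hU (fun c hc h => (hs c hc h).2.2) hg]
    push_cast
    congr 1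
    refine sum_congr rfl fun c hc => ?_
    by_cases h : w (F c) = 0
    · simp [h]
    · rw [DDFAM.II_eq hg ((hs c (mem_range.1 hc) h).2.1 ▸ hγ) hg2]
  · rw [eA, eB, hUW _ BSD15.euler_isMS, BSD15.euler_msA, BSD15.euler_msB]
    have he' : (e : ℂ) * e = 1 := by exact_mod_cast he
    push_cast
    linear_combination (4 * U * L0 - 2 * W * om * Complex.I) * he'

end Pool.Agent.P.MP_8b7eba_nt.R3
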