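import Pool.Agent.P.MP_8b7eba_nt.R3.IfD

/-! Proof of DUNF. -/

namespace Pool.Agent.P.MP_8b7eba_nt.R3

open _root_.Pool.Agent.P.MP_8b7eba_nt.Mod (M2 G0 FI L0 om lv mT)
open R1 (QF Hg Lv st Rq uu VV lf wf cnt Wt VB Dual gg dualB_F dualB_M dualB_P)
open BSD15 (Adm Prim dt)
open Filter Topology Finset
open scoped Real ComplexConjugate

namespace DDUNF

theorem root {κ : ℤ} (hκ : κ ≠ 0) {Q : QF} (h1 : Q.disc = κ ^ 2) : ∃ x y : ℤ, IsCoprime x y ∧
    2 * Q.A * x + (Q.B + κ) * y = 0 ∧ (Q.B - κ) * x + 2 * Q.C * y = 0 := by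
  simp only [QF.disc] at h1
  by_cases h0 : Q.B + κ = 0
  · have h0' : κ - Q.B ≠ 0 := by omega
    obtain ⟨x, y, hxy, hx, hy⟩ := Int.exists_gcd_one (Int.gcd_pos_of_ne_zero_right (2 * Q.C) h0')
    have ht : (((2 * Q.C).gcd (κ - Q.B) : ℕ) : ℤ) ≠ 0 := by
      exact_mod_cast (Int.gcd_pos_of_ne_zero_right _ h0').ne'
    generalize (((2 * Q.C).gcd (κ - Q.B) : ℕ) : ℤ) = t at hx hy ht
    refine ⟨x, y, Int.isCoprime_iff_gcd_eq_one.2 hxy, mul_right_cancel₀ ht ?_, ?_⟩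
    · linear_combination -h1 - 2 * Q.A * hx - (Q.B + κ) * hy
    · linear_combination y * hx - x * hy
  · obtain ⟨x, y, hxy, hx, hy⟩ := Int.exists_gcd_one (Int.gcd_pos_of_ne_zero_left (-(2 * Q.A)) h0)
    have ht : (((Q.B + κ).gcd (-(2 * Q.A)) : ℕ) : ℤ) ≠ 0 := by
      exact_mod_cast (Int.gcd_pos_of_ne_zero_left _ h0).ne'
    generalize (((Q.B + κ).gcd (-(2 * Q.A)) : ℕ) : ℤ) = t at hx hy ht
    refine ⟨x, y, Int.isCoprime_iff_gcd_eq_one.2 hxy, ?_, mul_right_cancel₀ ht ?_⟩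
    · linear_combination y * hx - x * hy
    · linear_combination h1 - (Q.B - κ) * hx - 2 * Q.C * hy

theorem vert {κ : ℤ} (hκ : κ ≠ 0) {Q : QF} (hQ : Lv (κ ^ 2) κ Q) :
    ∃ (g : M2) (C : ℤ), g.det = 1 ∧ Q.cmp g = ⟨0, κ, C⟩ ∧ (IsCoprime C κ → G0 g) := by
  obtain ⟨h1, ⟨a, h2⟩, ⟨b, h3⟩⟩ := hQ
  obtain ⟨x, y, ⟨v, u, huv⟩, e1, e2⟩ := root hκ h1
  have hg : M2.det ⟨x, -u, y, v⟩ = 1 := by
    simp only [M2.det]
    linear_combination huv
  have hC : Q.cmp ⟨x, -u, y, v⟩ = ⟨0, κ, Q.ev (-u) v⟩ := by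
    refine QF.ext ?_ ?_ rfl
    · simp only [QF.cmp, QF.ev]
      refine mul_left_cancel₀ two_ne_zero ?_
      linear_combination x * e1 + y * e2
    · simp only [QF.cmp]
      linear_combination -u * e1 + v * e2 + κ * huv
  refine ⟨_, _, hg, hC, fun ⟨s, t, hst⟩ => ⟨hg, ?_⟩⟩
  have h4 := congrArg QF.A (QF.cmp_adj hg Q)
  rw [hC] at h4
  generalize Q.ev (-u) v = C at h4 hst
  simp only [QF.cmp, QF.ev, M2.adj] at h4
  have h5 : (15 : ℤ) ∣ 2 * y ^ 2 :=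
    ⟨2 * s * a + (s * v + t * y) * (-(2 * a * x) - 2 * b * y), by
      linear_combination (-2 * y ^ 2) * hst + 2 * s * h4 + 2 * s * h2 +
        (s * v + t * y) * (e1 - 2 * x * h2 - y * h3)⟩
  have p3 : (3 : ℤ) ∣ y := Int.prime_three.dvd_of_dvd_pow (n := 2) (by omega)
  have p5 : (5 : ℤ) ∣ y :=
    (Int.prime_iff_natAbs_prime.2 (by norm_num) : Prime (5 : ℤ)).dvd_of_dvd_pow (n := 2) (by omega)
  change (15 : ℤ) ∣ y
  omega

theorem red {e : ℤ} (he : e * e = 1) {n : ℕ} (hn : 0 < n) {Q : QF} {g : M2} (hg : G0 g) {C : ℤ}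
    (hC : Q.cmp g = ⟨0, e * n, C⟩) : ∃ g, G0 g ∧ ∃ c < n, Q.cmp g = dualB_F e n c := by
  have hn' : (0 : ℤ) < n := by exact_mod_cast hn
  have h1 := Int.emod_nonneg (-(e * C)) hn'.ne'
  have h2 := Int.emod_lt_of_pos (-(e * C)) hn'
  have h3 := Int.emod_add_mul_ediv (-(e * C)) n
  obtain ⟨c, hc⟩ := Int.eq_ofNat_of_zero_le h1
  rw [hc] at h2 h3
  generalize -(e * C) / n = t at h3
  refine ⟨g * mT t, hg.mul (Mod.G0_mT t), c, by exact_mod_cast h2, ?_⟩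
  rw [QF.cmp_mul, hC]
  ext <;> simp only [QF.cmp, QF.ev, mT, dualB_F]
  · ring
  · ring
  · linear_combination e * h3 - C * he

theorem surj {e : ℤ} {n : ℕ} (b : Bool) {Q : QF}
    (h : ∃ g, G0 g ∧ ∃ c < n, Q.cmp g = dualB_F e n c) : (b, Q) ∈ Set.range (dualB_P e n) := by
  obtain ⟨u, h5, c, h2, h4⟩ := h
  have key : ∀ u : M2, G0 u → Q.cmp u = dualB_F e n c → b = decide (0 < u.d) →
      (b, Q) ∈ Set.range (dualB_P e n) := fun u h5 h4 hb =>
    ⟨(⟨c, h2⟩, ⟨u.a, u.b, u.c, u.d, h5.1, h5.2⟩), Prod.ext hb.symm (by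
      simp only [dualB_P]
      rw [← h4]
      exact QF.cmp_adj h5.1 Q)⟩
  by_cases hb : b = decide (0 < u.d)
  · exact key u h5 h4 hb
  · refine key (-u) h5.neg (by rw [QF.cmp_neg, h4]) ?_
    have := R1.dualB_d_ne ⟨u.a, u.b, u.c, u.d, h5.1, h5.2⟩
    simp only at this
    cases b <;> simp at hb ⊢ <;> omega

theorem unf {e : ℤ} (he : e * e = 1) {n : ℕ} {w : QF → ℤ}
    (hw : ∀ Q, w Q ≠ 0 → ∃ g, G0 g ∧ ∃ c < n, Q.cmp g = dualB_F e n c) :
    Unf w n (dualB_F e n) := by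
  intro f hf hs
  have hi := R1.dualB_inj he n
  have f1 : Function.HasFiniteSupport fun q : Bool × QF => f q.2 :=
    ((Set.finite_univ (α := Bool)).prod hf).subset fun q hq => ⟨trivial, hq⟩
  have f2 : Function.HasFiniteSupport fun p => f (dualB_P e n p).2 := f1.preimage hi.injOn
  have e1 := finsum_mem_range (f := fun q : Bool × QF => f q.2) hi
  rw [finsum_mem_inter_support_eq' _ _ Set.univ fun q hq =>
    ⟨fun _ => trivial, fun _ => surj q.1 (hw _ (hs _ hq))⟩, finsum_mem_univ,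
    finsum_curry _ f1, finsum_curry _ f2, finsum_eq_sum_of_fintype, finsum_eq_sum_of_fintype,
    Fintype.sum_bool] at e1
  rw [two_mul, e1, ← Fin.sum_univ_eq_sum_range
    (fun c => ∑ᶠ h : BSD15.Gam, f ((dualB_F e n c).cmp (dualB_M h))) n]
  rfl

theorem gch_vert (hKC : KC) {d : ℤ} (hd : Squarefree d) (B C : ℤ) : gch d ⟨0, B, C⟩ = kc d C := by
  simp only [gch, ch2, QF.chip, dvd_zero, if_true, kc]
  rw [BSD15.cfid_jac_sqf _ (hKC.par d hd).2.1, mul_comm]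

theorem sign_cd {d : ℤ} (hd : d ≠ 0) : d.sign * d.sign = 1 ∧ d.sign * (cd d : ℤ) = ds d ∧
    0 < cd d ∧ M4 (ds d) := by
  unfold cd ds M4
  rcases hd.lt_or_gt with h | h
  · rw [Int.sign_eq_neg_one_of_neg h]
    split_ifs <;> omega
  · rw [Int.sign_eq_one_of_pos h]
    split_ifs <;> omega

end DDUNF

open DDUNF in
theorem t_DUNF (hKC : KC) (hGINV : GINV) : DUNF := by
  intro d hd
  obtain ⟨he, hn, hpos, h4⟩ := sign_cd hd.ne_zero
  have hκ : ds d ≠ 0 := fun h => by simp [cd, h] at hpos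
  have three : ∀ Q, wg (ds d ^ 2) (ds d) d Q ≠ 0 →
      ∃ g, G0 g ∧ ∃ c < cd d, Q.cmp g = dualB_F d.sign (cd d) c := by
    intro Q hQ
    have hL : Lv (ds d ^ 2) (ds d) Q := by
      by_contra h
      exact hQ (if_neg h)
    rw [wg, if_pos hL] at hQ
    obtain ⟨g, C, hg, hC, hG⟩ := vert hκ hL
    have h5 := hGINV d (ds d) (ds d) 1 ⟨0, ds d, C⟩ Q g hd h4 h4 (by rw [hL.1, sq])
      (by simp only [QF.disc]; ring) (by rw [hg, one_mul]; exact isCoprime_one_left)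
      (by rw [hC]; simp)
    rw [hKC.one, one_mul, gch_vert hKC hd] at h5
    rw [h5] at hQ
    have h6 : IsCoprime C (ds d) := ((hKC.tri d C hd).resolve_right fun h => hQ h.2).1
    exact red he hpos (hG h6) (by rw [hC, hn])
  refine ⟨unf he three, fun c => ?_, three⟩
  have hL : Lv (ds d ^ 2) (ds d) (dualB_F d.sign (cd d) c) := by
    refine ⟨?_, dvd_zero _, ?_⟩
    · simp only [QF.disc, dualB_F, hn]; ring
    · simp only [dualB_F, hn, sub_self, dvd_zero]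
  rw [wg, if_pos hL, dualB_F, gch_vert hKC hd, ← neg_mul, hKC.mul]
  have h7 : kc d (-d.sign) = 1 := by
    rcases hd.ne_zero.lt_or_gt with h | h
    · rw [Int.sign_eq_neg_one_of_neg h, neg_neg, hKC.one]
    · have := hKC.neg d hd
      rw [Int.sign_eq_one_of_pos h] at this ⊢
      exact this
  rw [h7, one_mul]

end Pool.Agent.P.MP_8b7eba_nt.R3
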