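import Pool.Agent.P.MP_8b7eba_nt.R3.IfD
import Pool.Agent.P.MP_8b7eba_nt.R2.TEVS
import Pool.Agent.P.MP_8b7eba_nt.R2.TUNF

/-! Proof of EVS. -/

namespace Pool.Agent.P.MP_8b7eba_nt.R3

open R1
open BSD15 (Adm)

theorem t_EVS : EVS := by
  intro m m₂ b F M B S hT h30 hF hB hR hM
  have hb := hT.a3
  have c30 : IsCoprime (b : ℤ) 30 := by exact_mod_cast Nat.isCoprime_iff_coprime.2 hb.2
  have cm : IsCoprime (b : ℤ) m := Nat.isCoprime_iff_coprime.2 (Nat.coprime_of_dvd fun p hp h h' => by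
    have := hT.inert p hp h
    rw [BSD15.cfid_jac_zero hp (dvd_neg.2 ((Int.natCast_dvd_natCast.2 h').mul_right _))] at this
    omega)
  have odd : ∀ {n : ℕ}, Adm n → Odd n := fun h =>
    (Nat.Coprime.coprime_dvd_right (by norm_num) h.2).odd_of_right
  have F0 : F ≠ 0 := by
    rintro rfl
    exact absurd (hF 7 (by norm_num) (dvd_zero _)) (by norm_num)
  have hN : m ∣ F ^ 2 * (m * m₂) := (dvd_mul_right _ _).mul_left _
  refine (R2.t_UNF (F ^ 2 * (m * m₂)) 0 m S (st b) _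
    (Nat.pos_of_ne_zero (mul_ne_zero (pow_ne_zero _ F0)
      (mul_ne_zero hT.a1.1.ne_zero hT.a2.1.ne_zero))) (odd hT.a1) hN ⟨hR.hg, hR.all, hR.inj⟩
    (NSq_cop_st (IsCoprime.of_mul_right_right (y := 2) (z := 15) (by simpa using c30)))
    (fun Q h => by
      rw [st_sq]
      by_contra h'
      exact h (if_neg h'))
    (fun Q g hg => wf_cmp (odd hb) (dvd_pow_self _ two_ne_zero) Q hg) B).trans ?_
  simp only [NSq_wf hb.1]
  have h60 : B ^ 2 + (F ^ 2 * (m * m₂) : ℕ) * st b ^ 2 = 60 * M := by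
    rw [st_sq, hM]
    push_cast
    rfl
  rw [h60, Int.mul_ediv_cancel_left _ (by norm_num), Int.toNat_natCast]
  split_ifs with h2
  · rw [Finset.mul_sum]
    refine Finset.sum_congr rfl fun e he => ?_
    have he0 := Nat.pos_of_mem_divisors he
    have heM := Nat.dvd_of_mem_divisors he
    have ce : IsCoprime (b : ℤ) (e : ℤ) := by
      obtain ⟨N, rfl⟩ := heM
      have c1 := (h2.symm.pow_right (n := 2)).add_mul_left_right ((F ^ 2 * (m * m₂) : ℕ) * b)
      rw [show B ^ 2 + b * ((F ^ 2 * (m * m₂) : ℕ) * b) = e * (60 * N) by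
        rw [st_sq, Nat.cast_mul e] at h60
        linear_combination h60] at c1
      exact c1.of_mul_right_left
    rw [← mul_assoc (_ * jacobiSym 15 b), ← NSq_inner (ρ := 0) (NSq_dvd_st b) (Int.natCast_pos.2 he0)
      (NSq_cop_st (c30.mul_right ce)) (c30.mul_right ce) (by simpa using hB) h60
      (Int.natCast_dvd_natCast.2 heM), Finset.sum_mul]
    refine Finset.sum_congr rfl fun B₁ _ => ?_
    split_ifs with h3
    · rw [R2.TEVS.uw_eq hT.a1.2 hN (NSq_cop_st cm) he0.ne' heM h60 h3.1 h3.2.1 h3.2.2, mul_comm]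
    · rw [zero_mul]
  · refine Finset.sum_eq_zero fun e he => Finset.sum_eq_zero fun B₁ _ => ?_
    split_ifs with h'
    · obtain ⟨h1, -, ⟨C, hC⟩⟩ := h'
      rw [Int.isCoprime_iff_gcd_eq_one] at h2
      obtain ⟨p, hp, hpd⟩ := Nat.exists_prime_and_dvd h2
      have hpB : (p : ℤ) ∣ B := (Int.natCast_dvd_natCast.2 hpd).trans (Int.gcd_dvd_left _ _)
      have hpb : (p : ℤ) ∣ b := (Int.natCast_dvd_natCast.2 hpd).trans (Int.gcd_dvd_right _ _)
      have hpb' := Int.natCast_dvd_natCast.1 hpb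
      have hp' := Nat.prime_iff_prime_int.1 hp
      have h5 : (p : ℤ) ∣ 30 * e * C := hC ▸ dvd_sub ((hpb.trans (NSq_dvd_st b)).mul_left _) hpB
      have h0 : (30 * e : ℤ) ≠ 0 := by
        have := Nat.pos_of_mem_divisors he
        positivity
      have n30 : ¬ (p : ℤ) ∣ 30 := fun h7 => hp'.not_isUnit (c30.isUnit_of_dvd' hpb h7)
      rcases hp'.dvd_or_dvd h5 with h6 | h6
      · refine absurd ?_ (NSq_jac_ne hp
          ((((hp'.dvd_or_dvd h6).resolve_left n30).mul_left 60).trans h1))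
        rw [Nat.cast_mul, ← mul_neg, jacobiSym.mul_left, Nat.cast_mul, hT.inert p hp hpb',
          Nat.cast_pow, jacobiSym.pow_left, jacobiSym.sq_one, one_mul]
        exact (hp.coprime_iff_not_dvd.2 fun k =>
          n30 (Int.natCast_dvd_natCast.2 (hF p hp k))).symm
      · rw [hC, Int.mul_ediv_cancel_left _ h0,
          NSq_jac_zero hb.1 (Nat.mem_primeFactors.2 ⟨hp, hpb', hb.1.ne_zero⟩) h6, mul_zero]
    · rfl

end Pool.Agent.P.MP_8b7eba_nt.R3
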