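import Pool.Agent.P.MP_8b7eba_nt.R3.IfD

/-! Proof of GAM and HH. -/

namespace Pool.Agent.P.MP_8b7eba_nt.R3

open _root_.Pool.Agent.P.MP_8b7eba_nt.Mod (M2)

theorem nat_fac {m : ℕ} (hm : m ≠ 0) : ∃ a b : ℕ, m = a * b ∧ (∀ p : ℕ, p.Prime → p ∣ a → ¬ p ∣ 30) ∧
    ∀ p : ℕ, p.Prime → p ∣ b → p ∣ 30 := by
  induction m using induction_on_primes with
  | zero => exact absurd rfl hm
  | one => exact ⟨1, 1, rfl, fun p hp h => absurd (Nat.dvd_one.1 h) hp.ne_one,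
      fun p hp h => absurd (Nat.dvd_one.1 h) hp.ne_one⟩
  | prime_mul q n hq ih =>
    obtain ⟨a, b, rfl, h1, h2⟩ := ih (right_ne_zero_of_mul hm)
    by_cases h : q ∣ 30
    · exact ⟨a, q * b, by ring, h1, fun p hp k => (hp.dvd_mul.1 k).elim
        (fun k => (Nat.prime_dvd_prime_iff_eq hp hq).1 k ▸ h) (h2 p hp)⟩
    · exact ⟨q * a, b, by ring, fun p hp k => (hp.dvd_mul.1 k).elim
        (fun k => (Nat.prime_dvd_prime_iff_eq hp hq).1 k ▸ h) (h1 p hp), h2⟩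

theorem div_mem_Zl {T : ℕ → Prop} (n : ℤ) {m : ℕ} (h : ∀ p : ℕ, p.Prime → p ∣ m → T p) :
    (n / m : ℚ) ∈ Zl T := fun p hp k => h p hp (k.trans (by
      have := Rat.den_dvd n m
      rw [Rat.divInt_eq_div] at this
      exact_mod_cast this))

theorem rat_fac {r : ℚ} (hr : r ≠ 0) :
    ∃ x y : ℚ, r = x * y ∧ x ∈ RR ∧ x⁻¹ ∈ RR ∧ y ∈ SS ∧ y⁻¹ ∈ SS := by
  obtain ⟨a, b, e, h1, h2⟩ := nat_fac (Int.natAbs_ne_zero.2 (Rat.num_ne_zero.2 hr))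
  obtain ⟨c, d, f, h3, h4⟩ := nat_fac r.den_nz
  have k : ∀ s : ℚ, s = r.num.natAbs / r.den →
      ∃ x y : ℚ, s = x * y ∧ x ∈ RR ∧ x⁻¹ ∈ RR ∧ y ∈ SS ∧ y⁻¹ ∈ SS := fun s hs =>
    ⟨(a : ℤ) / c, (b : ℤ) / d, by rw [hs, e, f]; push_cast; ring, div_mem_Zl _ h3,
      by rw [inv_div]; exact div_mem_Zl c h1, div_mem_Zl _ h4,
      by rw [inv_div]; exact div_mem_Zl d h2⟩
  rcases Int.natAbs_eq r.num with h | h
  · exact k r (by rw [← Int.cast_natCast, ← h, Rat.num_div_den])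
  · obtain ⟨x, y, e, h1, h2, h3, h4⟩ := k (-r) (by
      rw [← Int.cast_natCast, ← neg_eq_iff_eq_neg.2 h, Int.cast_neg, neg_div, Rat.num_div_den])
    exact ⟨x, -y, by rw [mul_neg, ← e, neg_neg], h1, h2, neg_mem h3,
      by rw [inv_neg]; exact neg_mem h4⟩

theorem rat_add (r : ℚ) : ∃ x ∈ RR, ∃ y ∈ SS, r = x + y := by
  obtain ⟨c, d, f, h3, h4⟩ := nat_fac r.den_nz
  obtain ⟨u, v, h⟩ : IsCoprime (c : ℤ) d := Nat.isCoprime_iff_coprime.2
    (Nat.coprime_of_dvd fun p hp a b => h3 p hp a (h4 p hp b))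
  have h0 := r.den_nz
  rw [f, mul_ne_zero_iff] at h0
  refine ⟨_, div_mem_Zl (r.num * v) h3, _, div_mem_Zl (r.num * u) h4, ?_⟩
  have h' : (u : ℚ) * c + v * d = 1 := by exact_mod_cast h
  have := Nat.cast_ne_zero (R := ℚ).2 h0.1
  have := Nat.cast_ne_zero (R := ℚ).2 h0.2
  conv_lhs => rw [← r.num_div_den, f]
  push_cast
  field_simp
  linear_combination -r.num * h'

theorem int_of_mem {x : ℚ} (h1 : x ∈ RR) (h2 : x ∈ SS) : ∃ n : ℤ, x = n :=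
  ⟨x.num, ((Rat.den_eq_one_iff x).1 (Nat.eq_one_iff_not_exists_prime_dvd.2
    fun p hp h => h1 p hp h (h2 p hp h))).symm⟩

theorem mem_KK {A : Subring ℚ} {N : ℕ} {g : GM} {k : ℚ} {γ : M2} (h : γ.det = 1 ∨ γ.det = -1)
    (hN : (N : ℤ) ∣ γ.c) (a : g.a = k * γ.a) (b : g.b = k * γ.c) (c : g.c = k * γ.b)
    (d : g.d = k * γ.d) : g ∈ KK A N := by
  have k0 : k ≠ 0 := fun e => g.ne (by rw [a, b, e]; ring)
  obtain ⟨y, hy⟩ := hN
  refine ⟨k⁻¹, ?_, ⟨y, intCast_mem A y, ?_⟩, ?_, ?_, γ.det, intCast_mem A _, ?_⟩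
  · rw [a, inv_mul_cancel_left₀ k0]
    exact intCast_mem A _
  · rw [b, inv_mul_cancel_left₀ k0, hy]
    push_cast
    rfl
  · rw [c, inv_mul_cancel_left₀ k0]
    exact intCast_mem A _
  · rw [d, inv_mul_cancel_left₀ k0]
    exact intCast_mem A _
  · have : k⁻¹ ^ 2 * g.det = γ.det := by
      rw [GM.det, a, b, c, d, M2.det]
      push_cast
      field_simp
    rw [this]
    rcases h with h | h <;> simp [h]

theorem t_GAM : GAM := by
  refine fun g => ⟨?_, fun ⟨k, γ, h, hN, a, b, c, d⟩ =>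
    ⟨mem_KK h hN a b c d, mem_KK h (by simp) a b c d⟩⟩
  rintro ⟨⟨k, a, ⟨y, hy, b⟩, c, d, e, he, f⟩, ⟨k', a', ⟨y', hy', b'⟩, c', d', e', he', f'⟩⟩
  have k0 : k ≠ 0 := fun h => by simp [h] at f
  have k1 : k' ≠ 0 := fun h => by simp [h] at f'
  obtain ⟨r, s, h, r1, r2, s1, s2⟩ := rat_fac (div_ne_zero k0 k1)
  have r0 : r ≠ 0 := left_ne_zero_of_mul (h ▸ div_ne_zero k0 k1)
  have s0 : s ≠ 0 := right_ne_zero_of_mul (h ▸ div_ne_zero k0 k1)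
  have j : r⁻¹ * k = s * k' := by
    rw [div_eq_iff k1] at h
    rw [h]
    field_simp
  have key : ∀ x, k * x ∈ RR → k' * x ∈ SS → ∃ n : ℤ, s * k' * x = n := fun x h1 h2 =>
    int_of_mem (by rw [← j, mul_assoc]; exact mul_mem r2 h1)
      (by rw [mul_assoc]; exact mul_mem s1 h2)
  obtain ⟨A, hA⟩ := key _ a a'
  obtain ⟨C, hC⟩ := key _ c c'
  obtain ⟨D, hD⟩ := key _ d d'
  obtain ⟨B, hB⟩ := key (g.b / 15) (by rw [← mul_div_assoc, b]; simpa using hy) (by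
    rw [← mul_div_assoc, b', Nat.cast_one, one_mul, div_eq_mul_one_div]
    exact mul_mem hy' (div_mem_Zl 1 (m := 15) fun p _ h => h.trans (by norm_num)))
  obtain ⟨E, hE⟩ : ∃ n : ℤ, ((s * k') ^ 2 * g.det)⁻¹ = n := by
    have := g.det_ne
    refine int_of_mem ?_ ?_
    · rw [show ((s * k') ^ 2 * g.det)⁻¹ = r ^ 2 * e by
        rw [← j, eq_div_of_mul_eq (by positivity) f]; field_simp]
      exact mul_mem (pow_mem r1 2) he
    · rw [show ((s * k') ^ 2 * g.det)⁻¹ = s⁻¹ ^ 2 * e' by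
        rw [eq_div_of_mul_eq (by positivity) f']; field_simp]
      exact mul_mem (pow_mem s2 2) he'
  refine ⟨(s * k')⁻¹, ⟨A, C, 15 * B, D⟩, Int.isUnit_iff.1 (IsUnit.of_mul_eq_one E ?_), ⟨B, rfl⟩,
    ?_, ?_, ?_, ?_⟩
  · have := g.det_ne
    apply Int.cast_injective (α := ℚ)
    simp only [M2.det]
    push_cast
    rw [← hA, ← hB, ← hC, ← hD, ← hE]
    field_simp
    rw [GM.det]
    ring
  all_goals
    push_cast
    first | rw [← hA] | rw [← hB] | rw [← hC] | rw [← hD]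
    field_simp

theorem t_HH : HH := by
  intro g
  obtain ⟨u, v, ⟨x, y, h1⟩, h2⟩ : ∃ u v : ℤ, IsCoprime u v ∧ g.a * u + g.b * v = 0 := by
    by_cases h : g.a = 0
    · exact ⟨1, 0, isCoprime_one_left, by simp [h]⟩
    · refine ⟨(-g.b / g.a).num, (-g.b / g.a).den,
        Int.isCoprime_iff_gcd_eq_one.2 (-g.b / g.a).reduced, ?_⟩
      rw [← Rat.mul_den_eq_num]
      push_cast
      field_simp
      ring
  have h3 : (x : ℚ) * u + y * v = 1 := by exact_mod_cast h1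
  let γ : GM := ⟨y, u, -x, v, by rw [show (y : ℚ) * v - u * -x = 1 by linear_combination h3]; simp⟩
  have h4 : γ ∈ H2 := mem_KK (k := 1) (γ := ⟨y, -x, u, v⟩)
    (.inl (by simp only [M2.det]; linear_combination h1)) (by simp) (by simp [γ]) (by simp [γ])
    (by simp [γ]) (by simp [γ])
  have h5 : (g * γ).b = 0 := h2
  have h6 := (g * γ).ne
  rw [h5, zero_mul, sub_zero, mul_ne_zero_iff] at h6
  obtain ⟨a, a', e1, a1, a2, a3, a4⟩ := rat_fac h6.1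
  obtain ⟨d, d', e2, d1, d2, d3, d4⟩ := rat_fac h6.2
  obtain ⟨c, c1, c', c2, e3⟩ := rat_add ((g * γ).c / (a' * d))
  rw [e1, e2, mul_ne_zero_iff, mul_ne_zero_iff] at h6
  obtain ⟨⟨n1, n2⟩, n3, n4⟩ := h6
  refine ⟨⟨a, 0, c * d, d, by simp [n1, n3]⟩, ⟨1, by simpa, ⟨0, zero_mem _, by simp⟩,
    by simpa using mul_mem c1 d1, by simpa, a⁻¹ * d⁻¹, mul_mem a2 d2, ?_⟩,
    ⟨a', 0, c' * a', d', by simp [n2, n4]⟩ * γ⁻¹, mul_mem ⟨1, by simpa, ⟨0, zero_mem _, by simp⟩,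
    by simpa using mul_mem c2 a3, by simpa, a'⁻¹ * d'⁻¹, mul_mem a4 d4, ?_⟩ (inv_mem h4), ?_⟩
  · simp only [GM.det]
    field_simp
    ring
  · simp only [GM.det]
    field_simp
    ring
  · rw [← mul_assoc, eq_mul_inv_iff_mul_eq]
    rw [div_eq_iff (mul_ne_zero n2 n3)] at e3
    ext
    · rw [e1]; simp
    · rw [h5]; simp
    · rw [e3]; simp; ring
    · rw [e2]; simp

end Pool.Agent.P.MP_8b7eba_nt.R3
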