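import Pool.Agent.P.MP_8b7eba_nt.R3.IfD
import Pool.Agent.P.MP_8b7eba_nt.BSD15.Jac

/-! Proof of GAUSS. -/

namespace Pool.Agent.P.MP_8b7eba_nt.R3

open _root_.Pool.Agent.P.MP_8b7eba_nt.Mod (M2 G0 FI L0 om lv)
open R1 (QF Hg Lv st Rq uu VV lf wf cnt Wt VB Dual gg dualB_F dualB_M)
open BSD15 (Adm Prim dt)
open Filter Topology Finset
open scoped Real ComplexConjugate

namespace DGAUSS

theorem gauss {n : ℕ} (hn : 1 < n) (χ : ℕ → ℂ) (hmul : ∀ x y, χ (x * y) = χ x * χ y)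
    (hone : χ 1 = 1) (hper : ∀ a b, a ≡ b [MOD n] → χ a = χ b)
    (hsq : ∀ m, m.Coprime n → χ m * χ m = 1) (hzero : ∀ m, ¬ m.Coprime n → χ m = 0)
    (hpr : ∀ p : ℕ, p.Prime → p ∣ n → ∃ u : ℕ, u.Coprime n ∧ u ≡ 1 [MOD n / p] ∧ χ u = -1) :
    ∃ τ : ℂ, τ ≠ 0 ∧ ∀ m : ℕ,
      ∑ a ∈ range n, χ a * Complex.exp (2 * π * Complex.I * (a * m / n)) = χ m * τ := by
  have hn0 : n ≠ 0 := by omega
  obtain ⟨ζ, hζ⟩ : ∃ ζ, ζ = Complex.exp (2 * π * Complex.I / n) := ⟨_, rfl⟩
  have hprim : IsPrimitiveRoot ζ n := hζ ▸ Complex.isPrimitiveRoot_exp n hn0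
  have he : ∀ a m : ℕ, Complex.exp (2 * π * Complex.I * (a * m / n)) = ζ ^ (a * m) := by
    intro a m
    rw [hζ, ← Complex.exp_nat_mul]
    congr 1
    push_cast
    ring
  have hz : ∀ a b : ℕ, a ≡ b [MOD n] → ζ ^ a = ζ ^ b := by
    intro a b h
    rw [← Nat.mod_add_div a n, ← Nat.mod_add_div b n, pow_add, pow_add, pow_mul, pow_mul,
      hprim.pow_eq_one, one_pow, one_pow, h]
  simp only [he]
  have hG : ∀ m : ℕ, ∑ a ∈ range n, χ a * ζ ^ (a * m) = χ m * ∑ a ∈ range n, χ a * ζ ^ a := by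
    intro m
    by_cases hm : m.Coprime n
    · have h := BSD15.jac_perm hm (fun a => χ a * ζ ^ a) fun a b h => by
        simp only [hper a b h, hz a b h]
      rw [← h, Finset.mul_sum]
      refine Finset.sum_congr rfl fun a _ => ?_
      simp only [hmul]
      rw [← mul_assoc, ← mul_assoc, hsq m hm, one_mul, mul_comm m a]
    · have h0 := hzero m hm
      obtain ⟨p, hp, hpm, hpn⟩ := Nat.Prime.not_coprime_iff_dvd.1 hm
      obtain ⟨u, hu, hu1, hJ⟩ := hpr p hp hpn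
      have h := BSD15.jac_perm hu (fun a => χ a * ζ ^ (a * m)) fun a b h => by
        simp only [hper a b h, hz _ _ (h.mul_right m)]
      have h3 : ∀ a : ℕ, ζ ^ (u * a * m) = ζ ^ (a * m) := by
        intro a
        obtain ⟨m', rfl⟩ := hpm
        refine hz _ _ ?_
        have h4 := (hu1.mul_right' p).mul_right (a * m')
        rw [Nat.div_mul_cancel hpn] at h4
        calc u * a * (p * m') = u * p * (a * m') := by ring
          _ ≡ 1 * p * (a * m') [MOD n] := h4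
          _ = a * (p * m') := by ring
      simp only [hmul, hJ, h3, neg_mul, one_mul, Finset.sum_neg_distrib] at h
      rw [h0, zero_mul]
      linear_combination (-1 / 2 : ℂ) * h
  refine ⟨_, fun h0 => ?_, hG⟩
  have h1 : ∑ m ∈ range n, (∑ a ∈ range n, χ a * ζ ^ (a * m)) * ζ ^ ((n - 1) * m) = 0 := by
    simp only [hG, h0, mul_zero, zero_mul, Finset.sum_const_zero]
  simp only [Finset.sum_mul] at h1
  rw [Finset.sum_comm, Finset.sum_eq_single 1] at h1
  · have h2 : ∀ m : ℕ, χ 1 * ζ ^ (1 * m) * ζ ^ ((n - 1) * m) = 1 := by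
      intro m
      rw [mul_assoc, ← pow_add, ← add_mul, show 1 + (n - 1) = n by omega, pow_mul,
        hprim.pow_eq_one, hone]
      simp
    simp only [h2, Finset.sum_const, Finset.card_range, nsmul_eq_mul, mul_one] at h1
    exact hn0 (by exact_mod_cast h1)
  · intro a ha ha1
    have ha' := Finset.mem_range.1 ha
    have h2 : ∀ m : ℕ, χ a * ζ ^ (a * m) * ζ ^ ((n - 1) * m) =
        χ a * (ζ ^ (a + (n - 1))) ^ m := by
      intro m
      rw [mul_assoc, ← pow_add, ← add_mul, pow_mul]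
    simp only [h2]
    rw [← Finset.mul_sum]
    have h3 : ζ ^ (a + (n - 1)) ≠ 1 := by
      rw [Ne, hprim.pow_eq_one_iff_dvd]
      rintro ⟨c, hc⟩
      rcases c with _ | _ | c
      · omega
      · omega
      · have : n * (c + 1 + 1) = n * c + 2 * n := by ring
        omega
    have h4 := mul_geom_sum (ζ ^ (a + (n - 1))) n
    rw [← pow_mul, mul_comm (a + (n - 1)) n, pow_mul, hprim.pow_eq_one, one_pow, sub_self] at h4
    rw [(mul_eq_zero.1 h4).resolve_left (sub_ne_zero.2 h3), mul_zero]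
  · intro h
    exact absurd (Finset.mem_range.2 hn) h

theorem cop_iff (d : ℤ) (m : ℕ) : IsCoprime (m : ℤ) (ds d) ↔ m.Coprime (cd d) := by
  rw [Int.isCoprime_iff_gcd_eq_one, Int.gcd, Int.natAbs_natCast]
  rfl

end DGAUSS

theorem t_GAUSS (hKC : KC) : GAUSS := by
  intro d hd
  have hd0 : d ≠ 0 := hd.ne_zero
  have hper : ∀ a b : ℕ, a ≡ b [MOD cd d] → kc d a = kc d b := by
    intro a b h
    refine hKC.per d a b hd ?_
    have h1 : ((cd d : ℕ) : ℤ) ∣ (a : ℤ) - b := h.symm.dvd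
    exact Int.natAbs_dvd.1 h1
  have hc0 : cd d ≠ 0 := by
    unfold cd ds
    split_ifs <;> simpa using hd0
  by_cases hn : 1 < cd d
  · refine DGAUSS.gauss hn (fun a => (kc d a : ℂ)) (fun x y => ?_) ?_ (fun a b h => ?_)
      (fun m hm => ?_) (fun m hm => ?_) (fun p hp hpn => ?_)
    · simp only [Nat.cast_mul, hKC.mul, Int.cast_mul]
    · simp only [Nat.cast_one, hKC.one, Int.cast_one]
    · simp only [hper a b h]
    · rcases hKC.tri d m hd with ⟨-, h | h⟩ | ⟨h, -⟩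
      · simp [h]
      · simp [h]
      · exact absurd ((DGAUSS.cop_iff d m).2 hm) h
    · rcases hKC.tri d m hd with ⟨h, -⟩ | ⟨-, h⟩
      · exact absurd ((DGAUSS.cop_iff d m).1 h) hm
      · simp [h]
    · obtain ⟨u, h1, h2, h3⟩ := hKC.prim d p hd hp hpn
      exact ⟨u, h1, h2, by simp [h3]⟩
  · have h1 : cd d = 1 := by omega
    have h2 : ∀ a : ℕ, kc d a = 1 := by
      intro a
      have h := hper a 1 (by rw [h1]; exact Nat.modEq_one)
      rw [h, Nat.cast_one, hKC.one]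
    refine ⟨1, one_ne_zero, fun n => ?_⟩
    rw [h1, Finset.sum_range_one, h2 0, h2 n]
    simp

end Pool.Agent.P.MP_8b7eba_nt.R3
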