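import Pool.Agent.P.MP_8b7eba_nt.R3.IfD
import Pool.Agent.P.MP_8b7eba_nt.R1.Basic

/-! Proof of GINV. -/

namespace Pool.Agent.P.MP_8b7eba_nt.R3

open _root_.Pool.Agent.P.MP_8b7eba_nt.Mod (M2 G0 FI L0 om lv)
open R1 (QF Hg Lv st Rq uu VV lf wf cnt Wt VB Dual gg dualB_F dualB_M)
open BSD15 (Adm Prim dt)
open Filter Topology Finset
open scoped Real ComplexConjugate

namespace DGINV

/-- the local statement for an abstract character -/
theorem core {p : ℤ} (hp : Prime p) (χ : ℤ → ℤ) (mul : ∀ x y, χ (x * y) = χ x * χ y)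
    (zero : ∀ a, p ∣ a → χ a = 0) {P Q : QF} {g : M2} {k : ℤ}
    (hP : ∀ x y, ¬ p ∣ P.ev x y → χ (P.ev x y) = if p ∣ P.A then χ P.C else χ P.A)
    (hQ : ∀ x y, ¬ p ∣ Q.ev x y → χ (Q.ev x y) = if p ∣ Q.A then χ Q.C else χ Q.A)
    (hk : ¬ p ∣ k * g.det) (h : Q.cmp g = ⟨k * P.A, k * P.B, k * P.C⟩) :
    (if p ∣ Q.A then χ Q.C else χ Q.A) = χ k * if p ∣ P.A then χ P.C else χ P.A := by
  have e : ∀ x y, Q.ev (g.a * x + g.b * y) (g.c * x + g.d * y) = k * P.ev x y := fun x y => by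
    rw [← QF.ev_cmp, h]
    simp only [QF.ev]
    ring
  by_cases hx : ∃ x y, ¬ p ∣ P.ev x y
  · obtain ⟨x, y, hx⟩ := hx
    have h1 : ¬ p ∣ k * P.ev x y := fun h1 =>
      (hp.dvd_or_dvd h1).elim (fun h2 => hk (h2.mul_right _)) hx
    rw [← hQ _ _ (by rw [e]; exact h1), e, mul, hP x y hx]
  · push Not at hx
    have z : ∀ R : QF, (∀ x y, p ∣ R.ev x y) → (if p ∣ R.A then χ R.C else χ R.A) = 0 :=
      fun R hR => by
        have h1 := hR 1 0
        have h2 := hR 0 1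
        simp only [QF.ev] at h1 h2
        rw [if_pos (by simpa using h1)]
        exact zero _ (by simpa using h2)
    rw [z P hx, mul_zero]
    refine z Q fun x y => ?_
    have h1 := e (g.d * x - g.b * y) (-g.c * x + g.a * y)
    have h2 : g.det ^ 2 * Q.ev x y = k * P.ev (g.d * x - g.b * y) (-g.c * x + g.a * y) := by
      rw [← h1]
      simp only [QF.ev, M2.det]
      ring
    have h3 : p ∣ g.det ^ 2 * Q.ev x y := by
      rw [h2]
      exact (hx _ _).mul_left _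
    exact (hp.dvd_or_dvd h3).resolve_left fun h4 => hk ((hp.dvd_of_dvd_pow h4).mul_left _)

theorem c2_mul (e x y : ℤ) : c2 e (x * y) = c2 e x * c2 e y := by
  unfold c2
  split_ifs <;> simp only [mul_one, Int.cast_mul, map_mul]

theorem cast_eq {n : ℕ} {x y : ℤ} (h : (n : ℤ) ∣ x - y) : (x : ZMod n) = (y : ZMod n) :=
  ((ZMod.intCast_eq_intCast_iff_dvd_sub y x n).2 h).symm

theorem c2_mod (e x : ℤ) : c2 e x = c2 e (x % 8) := by
  unfold c2
  rw [cast_eq (n := 4) (x := x) (y := x % 8) (by omega),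
    cast_eq (n := 8) (x := x) (y := x % 8) (by omega)]

theorem c2_sq (e : ℤ) {x : ℤ} (h : ¬ 2 ∣ x) : c2 e x * c2 e x = 1 := by
  rw [c2_mod]
  have : x % 8 = 1 ∨ x % 8 = 3 ∨ x % 8 = 5 ∨ x % 8 = 7 := by omega
  unfold c2
  rcases this with h | h | h | h <;> rw [h] <;> split_ifs <;> decide

theorem c2_zero {e : ℤ} (he : e = -1 ∨ e = 2 ∨ e = -2) (x : ℤ) (h : 2 ∣ x) : c2 e x = 0 := by
  rw [c2_mod]
  have : x % 8 = 0 ∨ x % 8 = 2 ∨ x % 8 = 4 ∨ x % 8 = 6 := by omega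
  rcases he with rfl | rfl | rfl <;> rcases this with h | h | h | h <;> rw [h] <;> decide

theorem sq8 (u : ℤ) : u ^ 2 % 8 = 0 ∨ u ^ 2 % 8 = 1 ∨ u ^ 2 % 8 = 4 := by
  have : u % 8 = 0 ∨ u % 8 = 1 ∨ u % 8 = 2 ∨ u % 8 = 3 ∨ u % 8 = 4 ∨ u % 8 = 5 ∨ u % 8 = 6 ∨
    u % 8 = 7 := by omega
  rcases this with h | h | h | h | h | h | h | h <;> simp [pow_two, Int.mul_emod, h]

theorem c2_norm {e E : ℤ} (he : e = -1 ∨ e = 2 ∨ e = -2) (hE : M4 E) (u y : ℤ)
    (h : ¬ 2 ∣ u ^ 2 - e * E * y ^ 2) : c2 e (u ^ 2 - e * E * y ^ 2) = 1 := by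
  obtain ⟨t, r, hr, rfl⟩ : ∃ t r : ℤ, (r = 0 ∨ r = 1) ∧ E = 4 * t + r :=
    ⟨E / 4, E % 4, hE, by omega⟩
  have h1 := sq8 u
  have h2 := sq8 y
  have e1 : e * (4 * t + r) * y ^ 2 = 4 * e * (t * y ^ 2) + e * r * y ^ 2 := by ring
  rw [e1] at h ⊢
  generalize t * y ^ 2 = w at *
  generalize u ^ 2 = U at *
  generalize y ^ 2 = Y at *
  rw [c2_mod]
  rcases he with rfl | rfl | rfl
  · have : (U - (4 * -1 * w + -1 * r * Y)) % 8 = 1 ∨ (U - (4 * -1 * w + -1 * r * Y)) % 8 = 5 := by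
      rcases hr with rfl | rfl <;> omega
    rcases this with h | h <;> rw [h] <;> decide
  · have : (U - (4 * 2 * w + 2 * r * Y)) % 8 = 1 ∨ (U - (4 * 2 * w + 2 * r * Y)) % 8 = 7 := by
      rcases hr with rfl | rfl <;> omega
    rcases this with h | h <;> rw [h] <;> decide
  · have : (U - (4 * -2 * w + -2 * r * Y)) % 8 = 1 ∨ (U - (4 * -2 * w + -2 * r * Y)) % 8 = 3 := by
      rcases hr with rfl | rfl <;> omega
    rcases this with h | h <;> rw [h] <;> decide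

theorem ch2_eq {e E : ℤ} (he : e = -1 ∨ e = 2 ∨ e = -2) (hE : M4 E) {Q : QF}
    (hD : Q.disc = 4 * e * E) (x y : ℤ) (h : ¬ 2 ∣ Q.ev x y) :
    c2 e (Q.ev x y) = if 2 ∣ Q.A then c2 e Q.C else c2 e Q.A := by
  obtain ⟨b, hb⟩ : 2 ∣ Q.B := Int.prime_two.dvd_of_dvd_pow (n := 2)
    ⟨2 * (e * E + Q.A * Q.C), by rw [QF.disc] at hD; linear_combination hD⟩
  have hD' : e * E = b ^ 2 - Q.A * Q.C := by
    rw [QF.disc, hb] at hD
    linarith
  have key : ∀ a u v : ℤ, ¬ 2 ∣ a → a * Q.ev x y = u ^ 2 - e * E * v ^ 2 →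
      c2 e (Q.ev x y) = c2 e a := fun a u v ha e1 => by
    have h1 := c2_norm he hE u v (by
      rw [← e1]
      exact fun h2 => (Int.prime_two.dvd_or_dvd h2).elim ha h)
    rw [← e1, c2_mul] at h1
    have h2 := c2_sq e ha
    linear_combination c2 e a * h1 - c2 e (Q.ev x y) * h2
  split_ifs with hA
  · refine key Q.C (b * x + Q.C * y) x (fun hC => h ?_) ?_
    · rw [QF.ev, hb]
      exact ((hA.mul_right _).add ⟨b * x * y, by ring⟩).add (hC.mul_right _)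
    · rw [hD', QF.ev, hb]
      ring
  · refine key Q.A (Q.A * x + b * y) y hA ?_
    rw [hD', QF.ev, hb]
    ring

theorem m4_mul {s E : ℤ} (hs : s % 4 = 1) (hE : M4 E) : M4 (s * E) := by
  unfold M4 at *
  rw [Int.mul_emod, hs]
  omega

end DGINV

open DGINV in
theorem t_GINV (hKC : KC) : GINV := by
  intro d E E' k P Q g hd hE hE' hQ hP hk h
  obtain ⟨ho, hsq, -, hc⟩ := hKC.par d hd
  have nd : ∀ p : ℤ, Prime p → p ∣ ds d → ¬ p ∣ k * g.det := fun p hp h1 h2 =>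
    hp.not_isUnit (hk.isUnit_of_dvd' h2 h1)
  have h2 : ch2 (e2 d) Q = c2 (e2 d) k * ch2 (e2 d) P := by
    rcases hc with ⟨a, -⟩ | ⟨a, b⟩
    · simp [ch2, c2, a]
    · have hs := R1.st_emod ho
      exact core Int.prime_two (c2 (e2 d)) (c2_mul _) (c2_zero a)
        (ch2_eq a (m4_mul hs hE') (by rw [hP, b]; ring))
        (ch2_eq a (m4_mul hs hE) (by rw [hQ, b]; ring))
        (nd 2 Int.prime_two ⟨2 * e2 d * st (od d), by rw [b]; ring⟩) h
  have hod : (od d : ℤ) ∣ ds d := by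
    have : (od d : ℤ) ∣ st (od d) := by
      unfold st
      split_ifs <;> simp
    rcases hc with ⟨-, b⟩ | ⟨-, b⟩ <;> rw [b]
    · exact this
    · exact this.mul_left _
  have h3 : ∀ p ∈ (od d).primeFactors, Q.chip p = jacobiSym k p * P.chip p := fun p hp => by
    have hp1 := Nat.prime_of_mem_primeFactors hp
    have hp2 := Nat.dvd_of_mem_primeFactors hp
    have hp3 : p ≠ 2 := by
      rintro rfl
      exact (Nat.not_even_iff_odd.2 ho) (even_iff_two_dvd.2 hp2)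
    have hp4 : (p : ℤ) ∣ ds d := (Int.natCast_dvd_natCast.2 hp2).trans hod
    have hp5 := Nat.prime_iff_prime_int.1 hp1
    exact core hp5 (fun x => jacobiSym x p) (fun x y => jacobiSym.mul_left x y p)
      (fun a ha => BSD15.cfid_jac_zero hp1 ha)
      (fun x y hx => QF.chip_eq hp1 hp3 (by rw [hP]; exact hp4.mul_right _) hx)
      (fun x y hx => QF.chip_eq hp1 hp3 (by rw [hQ]; exact hp4.mul_right _) hx)
      (nd p hp5 hp4) h
  rw [gch, gch, kc, h2, prod_congr rfl h3, prod_mul_distrib, BSD15.cfid_jac_sqf k hsq]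
  ring

end Pool.Agent.P.MP_8b7eba_nt.R3
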