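import Pool.Agent.P.MP_8b7eba_nt.R3.DSTEP

/-! Proof of LFUN, CONJ, GKN. -/

namespace Pool.Agent.P.MP_8b7eba_nt.R3

open R1 (QF st)
open BSD15 (Adm)
open DSTEP

namespace DGK2

theorem one_lt {T : R2.Tate (SM.pl 2)} {k m : ℕ} {d₀ : ℤ} (h0 : D0 d₀)
    (h : NiceN T k (d₀ * st m)) : 1 < m := by
  obtain ⟨B₀, h1⟩ := h.2.2
  obtain ⟨l, -, h4, -⟩ := h1 1 0 isCoprime_one_left (by simp)
  obtain ⟨p, p1, p2, p3⟩ := h4.big
  rcases (Nat.prime_iff_prime_int.1 p1).dvd_mul.1 p3 with e | e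
  · have e2 : p ∣ 2 * 3 * 5 := by exact_mod_cast e.trans h0.dvd
    simp only [p1.dvd_mul] at e2
    rcases e2 with (e | e) | e <;> have := Nat.le_of_dvd (by norm_num) e <;> omega
  · rw [Int.natCast_dvd, R1.natAbs_st] at e
    have m0 : m ≠ 0 := by
      rintro rfl
      exact h.1.ne_zero (by simp [st])
    have := Nat.le_of_dvd (by omega) e
    omega

theorem cop {d₀ : ℤ} {b m : ℕ} (h0 : D0 d₀) (h1 : b.Coprime 30) (h2 : b.Coprime m) :
    IsCoprime (b : ℤ) (30 * (d₀ * st m)) := by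
  have h3 : IsCoprime (b : ℤ) 30 := Nat.isCoprime_iff_coprime.2 h1
  refine h3.mul_right ((h3.of_isCoprime_of_dvd_right h0.dvd).mul_right ?_)
  rw [Int.isCoprime_iff_gcd_eq_one, Int.gcd, R1.natAbs_st]
  exact h2

theorem c120 {m : ℕ} (h : m.Coprime 30) : m.Coprime 120 :=
  (h.pow_right 3).coprime_dvd_right (by norm_num)

theorem ex (hH : HEEG) (hE : EXM) (T : R2.Tate (SM.pl 2)) {d₀ : ℤ} (h0 : D0 d₀) {u v a b n : ℕ}
    (hu : 120 ∣ u) (u0 : u ≠ 0) (v0 : v ≠ 0) (huv : u.Coprime v) (ha : a.Coprime u)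
    (hb : b.Coprime v) (hn : n ∣ u * v) (h30 : n.Coprime 30) :
    ∃ m, Adm m ∧ 1 < m ∧ m ≡ a [MOD u] ∧ m ≡ b [MOD v] ∧ m.Coprime (u * v) ∧
      Hb (d₀ * st m) n := by
  obtain ⟨c, c1, c2⟩ := Nat.chineseRemainder huv a b
  have c3 : c.Coprime (u * v) := Nat.Coprime.mul_right (by rwa [Nat.Coprime, c1.gcd_eq])
    (by rwa [Nat.Coprime, c2.gcd_eq])
  obtain ⟨m, m1, m2⟩ := hE T n.primeFactors.card d₀ (u * v) c h0.sq h0.dvd (hu.mul_right v)
    (mul_ne_zero u0 v0) c3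
  have m3 : m ≡ c [MOD u * v] := m1
  have m4 : m.Coprime (u * v) := by rwa [Nat.Coprime, m3.gcd_eq]
  obtain ⟨B₀, h⟩ := irx hH m2
  refine ⟨m, ⟨?_, m4.coprime_dvd_right (((by norm_num : 30 ∣ 120).trans hu).mul_right v)⟩,
    one_lt h0 m2, (m3.of_mul_right v).trans c1, (m3.of_mul_left u).trans c2, m4,
    h n (cop h0 h30 (m4.coprime_dvd_right hn).symm) (Finset.card_filter_le _ _)⟩
  rw [← R1.natAbs_st m, Int.squarefree_natAbs]
  exact m2.1.of_mul_right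

theorem step (hH : HEEG) (hE : EXM) (hS : STEP) (T : R2.Tate (SM.pl 2)) {d₀ : ℤ} (h0 : D0 d₀)
    {m n : ℕ} (hm : Adm m) (hn : Adm n) (m1 : 1 < m) (n1 : 1 < n) (hc : m.Coprime n) (h : Cl m n)
    (hb : Hb (d₀ * st m) n) (hr : rn (d₀ * st m) = 1) (hL : Lam (d₀ * st n) ≠ 0) :
    Lam (d₀ * st m) ≠ 0 := by
  have k : n.Coprime (120 * m) := (c120 hn.2).mul_right hc.symm
  obtain ⟨m', a1, a2, a3, a4, -, a5⟩ := ex hH hE T h0 (u := 120 * m) (v := n) (a := n) (b := m)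
    (n := m * n) (dvd_mul_right _ _) (by omega) (by omega) k.symm k hc
    (mul_assoc 120 m n ▸ dvd_mul_left _ _) (adm_mul hm hn hc).2
  exact hS d₀ m n m' h0 hm hn a1 m1 n1 a2 hc h a3 a4 hb a5 hr hL

end DGK2

open DGK2

theorem u_LFUN (hLEX : LEX) (hLZ : LZ) : LFUN := fun d h1 h2 =>
  ⟨(hLEX d h1).1, (hLEX d h1).2, fun h => by
    have := (hLZ d h1 h2).1
    rw [h] at this
    push_cast at this
    linear_combination this / 2⟩

theorem u_CONJ (hC : CONJG) : CONJ := by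
  intro l d ρ S h hS
  have l8 := h.l16
  have := cd_ne h.sq.ne_zero
  have := h.lp.pos
  exact hC d (-l * ds d) ρ (l * cd d ^ 2) S h.sq (by positivity)
    (by push_cast; rw [cd_sq]; ring) (by
      have h1 : (-l : ℤ) % 4 = 1 := by omega
      rw [M4, Int.mul_emod, h1]
      rcases m4 d with h2 | h2 <;> rw [h2] <;> decide) hS

theorem u_GKN (hH : HEEG) (hE : EXM) (hKC : KC) (hBASE : BASE) (hS : STEP) : GKN := by
  intro T d hd hr
  obtain ⟨d₀, m, h0, hm, rfl⟩ := hKC.dec d hd.1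
  have m1 := one_lt h0 hd
  obtain ⟨B₀, hB⟩ := irx hH hd
  obtain ⟨n, hn, n1, ⟨c4, t, ht, c5⟩, hL⟩ := hBASE d₀ h0 m hm.2 hr
  set R := ∏ p ∈ (Finset.range (B₀ + 1)).filter fun p => p.Prime ∧ p.Coprime 30, p with hR
  have r0 : R ≠ 0 := Finset.prod_ne_zero_iff.2 fun p hp => (Finset.mem_filter.1 hp).2.1.ne_zero
  have r1 : R.Coprime 30 := Nat.Coprime.prod_left fun p hp => (Finset.mem_filter.1 hp).2.2
  obtain ⟨b, a1, a2, a3, -, a4, a5⟩ := ex hH hE T h0 (u := 120) (v := n * m * R) (a := m) (b := 1)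
    (n := n) dvd_rfl (by norm_num) (by positivity)
    (c120 ((hn.2.mul_left hm.2).mul_left r1)).symm (c120 hm.2) (Nat.coprime_one_left _)
    (((dvd_mul_right n m).mul_right R).mul_left 120) hn.2
  have a6 := a4.coprime_mul_left_right
  have a7 : b % 4 = m % 4 := a3.of_dvd (by norm_num)
  have a8 := st_congr a3
  have bm : b.Coprime m := a6.coprime_mul_right_right.coprime_mul_left_right
  refine step hH hE hS T h0 hm a1 m1 a2 bm.symm ⟨a7.symm, 1, isCoprime_one_left, by omega⟩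
    (hB b (cop h0 a1.2 bm) ?_) hr (step hH hE hS T h0 a1 hn a2 n1
      a6.coprime_mul_right_right.coprime_mul_right_right ⟨a7.trans c4, t, ht,
        dv (c5.add (a8.mul_left (t ^ 2))) (by ring)⟩ a5
      ((rn_congr (by omega) (by omega) a3).trans hr) hL)
  rw [Nat.le_zero, Finset.card_eq_zero, Finset.filter_eq_empty_iff]
  intro p hp h
  obtain ⟨p1, p2, -⟩ := Nat.mem_primeFactors.1 hp
  exact p1.ne_one (Nat.eq_one_of_dvd_coprimes a6.coprime_mul_left_right p2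
    (Finset.dvd_prod_of_mem _ (Finset.mem_filter.2 ⟨Finset.mem_range.2 (by omega), p1,
      a1.2.coprime_dvd_left p2⟩)))

end Pool.Agent.P.MP_8b7eba_nt.R3
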