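import Pool.Agent.P.MP_8b7eba_nt.R3.IfD
import Pool.Agent.P.MP_8b7eba_nt.R1.Basic

/-! Proof of IDC. -/

namespace Pool.Agent.P.MP_8b7eba_nt.R3

open _root_.Pool.Agent.P.MP_8b7eba_nt.Mod (M2 G0 FI L0 om lv)
open R1 (QF Hg Lv st Rq uu VV lf wf cnt Wt VB Dual gg dualB_F dualB_M)
open BSD15 (Adm Prim dt)
open Filter Topology Finset
open scoped Real ComplexConjugate

namespace DIDC

theorem odd_of_adm {m : ℕ} (h : Adm m) : Odd m :=
  Nat.coprime_two_right.1 (h.2.coprime_dvd_right (by norm_num))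

theorem ne_one (hKC : KC) {d₀ : ℤ} {m : ℕ} (h0 : D0 d₀) (h : Adm m) (h1 : 1 < m) :
    d₀ * st m ≠ 1 := by
  intro e
  have h2 := (hKC.tw d₀ m h0 h).2.1
  rw [e, show od 1 = 1 by decide] at h2
  have := Nat.eq_one_of_mul_eq_one_left h2.symm
  omega

theorem m4_ds (d : ℤ) : M4 (ds d) := by
  unfold M4 ds
  split_ifs with h
  · exact Or.inr h
  · left
    omega

theorem cd_sq (d : ℤ) : ((cd d : ℕ) : ℤ) ^ 2 = ds d ^ 2 := by
  rw [cd, Int.natAbs_sq]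

theorem ds_ne {d : ℤ} (h : d ≠ 0) : ds d ≠ 0 := by
  unfold ds
  split_ifs <;> omega

theorem wg_disc {D ρ d : ℤ} {Q : QF} (h : wg D ρ d Q ≠ 0) : Q.disc = D := by
  unfold wg at h
  split_ifs at h with h1
  · exact h1.1
  · exact absurd rfl h

theorem wg_le (hKC : KC) (D ρ d : ℤ) (Q : QF) : |wg D ρ d Q| ≤ 4 := by
  unfold wg
  split_ifs
  · exact (hKC.abs d Q).trans (by norm_num)
  · simp

theorem side (hCONJG : CONJG) {d E ρ s : ℤ} {N : ℕ} {S : Finset QF} (hd : Squarefree d)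
    (hN : 0 < N) (hE : -(N : ℤ) = ds d * E) (h4 : M4 E) (hR : Rs N ρ (wg (-N) ρ d) S)
    (hr : rn d = 1) (hs : 0 < s * d) (α β : ℚ) :
    ∃ r : ℚ, lf α β (ZS S (wg (-N) ρ d)) = r + cf s α β * tZ s (ZS S (wg (-N) ρ d)) := by
  obtain ⟨u, v, h⟩ := hCONJG d E ρ N S hd hN hE h4 hR
  generalize ZS S (wg (-N) ρ d) = Z at h ⊢
  have l0 := Mod.L0_ne
  have o0 := Mod.om_ne
  rw [hr] at h
  rcases pos_and_pos_or_neg_and_neg_of_mul_pos hs with ⟨h1, h2⟩ | ⟨h1, h2⟩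
  · rw [Int.sign_eq_one_of_pos h2] at h
    have h3 := congrArg Complex.re h
    simp at h3
    refine ⟨α * u / 8, ?_⟩
    simp only [lf, cf, tZ, if_pos h1]
    push_cast
    field_simp
    linear_combination (8 * α * om) * h3
  · rw [Int.sign_eq_neg_one_of_neg h2] at h
    have h3 := congrArg Complex.im h
    simp at h3
    refine ⟨-(β * v / 4), ?_⟩
    simp only [lf, cf, tZ, if_neg (not_lt.2 h1.le)]
    push_cast
    field_simp
    linear_combination (-2 * β * L0) * h3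

end DIDC

open DIDC in
theorem t_IDC (hKC : KC) (hCONJG : CONJG) (hSUM0 : SUM0) (hHSUM : HSUM) (hIDN : IDN) : IDC := by
  intro d₀ t ρ ρ' m₁ m₂ m₃ N N' S S' α β α' β' h0 hT h1 h2 ht h120 h30 hN hN' hR hR' r1 r3 L3 L1
  have o1 := odd_of_adm hT.a1
  have o2 := odd_of_adm hT.a2
  have o3 := odd_of_adm hT.a3
  have h3 := hT.one
  have s12 : st m₁ * st m₂ = -(m₁ * m₂ : ℤ) := by
    have := hT.s12.1
    rw [← R1.st_mul o1 o2, st, if_neg, Nat.cast_mul]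
    intro e
    have e' : ((m₁ * m₂ : ℕ) : ℤ) % 4 = 1 := by exact_mod_cast e
    push_cast at e'
    omega
  have s13 : st m₁ * st m₃ = (m₁ * m₃ : ℤ) := by
    have := hT.s13.1
    rw [← R1.st_mul o1 o3, st, if_pos, Nat.cast_mul]
    have e' : ((m₁ * m₃ : ℕ) : ℤ) % 4 = 1 := by
      push_cast
      omega
    exact_mod_cast e'
  have p1 : (0 : ℤ) < m₁ := by exact_mod_cast zero_lt_one.trans h1
  have p2 : (0 : ℤ) < m₂ := by exact_mod_cast zero_lt_one.trans h2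
  have p3 : (0 : ℤ) < m₃ := by exact_mod_cast zero_lt_one.trans h3
  have s32 : st m₃ * st m₂ = -(m₂ * m₃ : ℤ) := by
    refine mul_left_cancel₀ (pow_ne_zero 2 p1.ne') ?_
    have := R1.st_sq m₁
    linear_combination (-(st m₃ * st m₂)) * this + (st m₁ * st m₃) * s12 - (m₁ * m₂ : ℤ) * s13
  obtain ⟨q1, -, -, e1, -⟩ := hKC.tw d₀ m₁ h0 hT.a1
  obtain ⟨q2, -, -, e2, -⟩ := hKC.tw d₀ m₂ h0 hT.a2
  obtain ⟨q3, -, -, e3, -⟩ := hKC.tw d₀ m₃ h0 hT.a3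
  have n0 : d₀ ≠ 0 := h0.sq.ne_zero
  have n1 := ds_ne n0
  have c2 := cd_sq d₀
  have zN : (N : ℤ) = ds d₀ ^ 2 * (m₁ * m₂) := by
    rw [hN, ← c2]
    push_cast
    ring
  have zN' : (N' : ℤ) = ds d₀ ^ 2 * (m₂ * m₃) := by
    rw [hN', ← c2]
    push_cast
    ring
  have pN : 0 < N := by
    have : (0 : ℤ) < N := by rw [zN]; positivity
    exact_mod_cast this
  have pN' : 0 < N' := by
    have : (0 : ℤ) < N' := by rw [zN']; positivity
    exact_mod_cast this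
  have eN : -(N : ℤ) = ds (d₀ * st m₁) * ds (d₀ * st m₂) := by
    rw [zN, e1, e2]
    linear_combination (-(ds d₀ ^ 2)) * s12
  have eN' : -(N' : ℤ) = ds (d₀ * st m₃) * ds (d₀ * st m₂) := by
    rw [zN', e3, e2]
    linear_combination (-(ds d₀ ^ 2)) * s32
  have z1 := hSUM0 _ _ ρ N S q1 q2 (ne_one hKC h0 hT.a1 h1) (ne_one hKC h0 hT.a2 h2) pN eN hR
  have z3 := hSUM0 _ _ ρ' N' S' q3 q2 (ne_one hKC h0 hT.a3 h3) (ne_one hKC h0 hT.a2 h2) pN' eN' hR'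
  have im : ∀ {n : ℕ} {r : ℤ} {P : QF}, 0 < n → Hg n r P → 0 < P.tau.im := fun hn hP =>
    R1.QF.tau_im_pos hP.2 (by rw [hP.1.1]; omega)
  obtain ⟨a, ta⟩ := L3 S _ QF.tau (fun P hP => im pN (hR.hg P hP)) z1
  obtain ⟨b, tb⟩ := L1 S' _ QF.tau (fun P hP => im pN' (hR'.hg P hP)) z3
  have pD : 0 < ds (d₀ * st m₃) ^ 2 := by
    have := ds_ne q3.ne_zero
    positivity
  have pD' : 0 < ds d₀ ^ 2 * (m₁ * m₃ : ℤ) := by positivity
  have eD : (N : ℝ) * ((ds (d₀ * st m₃) ^ 2 : ℤ) : ℝ) =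
      (N' : ℝ) * ((ds d₀ ^ 2 * (m₁ * m₃) : ℤ) : ℝ) := by
    have : (N : ℤ) * ds (d₀ * st m₃) ^ 2 = N' * (ds d₀ ^ 2 * (m₁ * m₃)) := by
      rw [zN, zN', e3, mul_pow, R1.st_sq]
      ring
    exact_mod_cast this
  have key := mul_left_cancel₀ Real.pi_ne_zero (tendsto_nhds_unique_of_eventuallyEq ta tb (by
    filter_upwards [Ioc_mem_nhdsGT (show (1 : ℝ) < 2 by norm_num)] with s hs
    have a1 := hHSUM N ρ _ S (wg (-N) ρ (d₀ * st m₁)) _ s pN hR.hg pD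
      (fun Q h => wg_disc (ρ := ds (d₀ * st m₃)) (d := d₀ * st m₃) h) (wg_le hKC _ _ _) hs.1 hs.2
    have a2 := hHSUM N' ρ' _ S' (wg (-N') ρ' (d₀ * st m₃)) _ s pN' hR'.hg pD'
      (fun Q h => wg_disc (ρ := t * ds (d₀ * st m₁)) (d := d₀ * st m₁) h) (wg_le hKC _ _ _)
      hs.1 hs.2
    simp only [hIDN d₀ t ρ ρ' _ m₁ m₂ m₃ N N' S S' h0 hT ht h120 h30 hN hN' hR hR', eD] at a1
    exact a1.unique a2))
  obtain ⟨r, hr⟩ := side hCONJG (s := d₀ * st m₁) q1 pN eN (m4_ds _) hR r1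
    (mul_self_pos.2 q1.ne_zero) α β
  obtain ⟨r', hr'⟩ := side hCONJG (s := d₀ * st m₁) q3 pN' eN' (m4_ds _) hR' r3 (by
    rw [show d₀ * st m₁ * (d₀ * st m₃) = d₀ ^ 2 * (st m₁ * st m₃) by ring, s13]
    positivity) α' β'
  refine ⟨a - b - r + r', ?_⟩
  change (a : ℝ) - lf α β (ZS S _) = b - lf α' β' (ZS S' _) at key
  rw [hr, hr'] at key
  push_cast
  linear_combination -key

end Pool.Agent.P.MP_8b7eba_nt.R3
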