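import Pool.Agent.P.MP_8b7eba_nt.R3.IfD
import Pool.Agent.P.MP_8b7eba_nt.R1.Basic

/-! Proof of IDN. -/

namespace Pool.Agent.P.MP_8b7eba_nt.R3

open _root_.Pool.Agent.P.MP_8b7eba_nt.Mod (M2 G0 FI L0 om lv)
open R1 (QF Hg Lv st Rq uu VV lf wf cnt Wt VB Dual gg dualB_F dualB_M)
open BSD15 (Adm Prim dt)
open Filter Topology Finset
open scoped Real ComplexConjugate

namespace DIDN

theorem ds_m4 (d : ℤ) : M4 (ds d) := by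
  unfold ds M4
  split_ifs with h
  · exact .inr h
  · left; omega

theorem m4_mul {D x : ℤ} (hD : M4 D) (hx : x % 4 = 1) : M4 (D * x) := by
  unfold M4 at *
  rw [Int.mul_emod, hx]
  rcases hD with h | h <;> rw [h] <;> simp

theorem cd_sq (d : ℤ) : ds d ^ 2 = (cd d : ℤ) ^ 2 := by
  unfold cd
  rw [Int.natCast_natAbs, sq_abs]

theorem cd_ne {d : ℤ} (h : D0 d) : cd d ≠ 0 := by
  have h0 : d ≠ 0 := h.sq.ne_zero
  unfold cd ds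
  split_ifs <;> omega

theorem cd_prime {d : ℤ} (h : D0 d) (p : ℕ) (hp : p.Prime) (hd : p ∣ cd d) : p ∣ 30 := by
  have h1 : cd d ∣ 120 := by
    obtain ⟨k, hk⟩ := h.dvd
    unfold cd
    rw [← Int.natCast_dvd_natCast, Int.natCast_natAbs, abs_dvd]
    unfold ds
    split_ifs
    · exact ⟨4 * k, by push_cast; linear_combination 4 * hk⟩
    · exact ⟨k, by push_cast; linear_combination 4 * hk⟩
  have h2 : p ∣ 30 ^ 3 := (hd.trans h1).trans (by norm_num)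
  exact hp.dvd_of_dvd_pow h2

theorem odd_of {m : ℕ} (h : Adm m) : Odd m := by
  have := Nat.Coprime.coprime_dvd_right (show 2 ∣ 30 by norm_num) h.2
  exact (Nat.coprime_two_right.1 this)

theorem st_same {a b : ℕ} (ha : Odd a) (hb : Odd b) (h : ((a : ℤ) * b) % 4 = 1) :
    st a * st b = a * b := by
  rw [← R1.st_mul ha hb]
  unfold st
  rw [if_pos (by zify; exact h)]
  push_cast; ring

theorem st_opp {a b : ℕ} (ha : Odd a) (hb : Odd b) (h : (-((a : ℤ) * b)) % 4 = 1) :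
    st a * st b = -(a * b) := by
  rw [← R1.st_mul ha hb]
  unfold st
  rw [if_neg (by zify; omega)]
  push_cast; ring

theorem nat_SS (n : ℕ) : (n : ℚ) ∈ SS := natCast_mem SS n

theorem inv_SS {n : ℕ} (h0 : n ≠ 0) (h : ∀ p : ℕ, p.Prime → p ∣ n → p ∣ 30) : (n : ℚ)⁻¹ ∈ SS := by
  intro p hp hd
  rw [Rat.inv_natCast_den, if_neg h0] at hd
  exact h p hp hd

theorem cop {n m : ℕ} (h : ∀ p : ℕ, p.Prime → p ∣ n → p ∣ 30) (hm : Adm m) : n.Coprime m :=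
  Nat.coprime_of_dvd fun p hp h1 h2 =>
    hp.ne_one (Nat.eq_one_of_dvd_coprimes hm.2 h2 (h p hp h1))

theorem jac_ne {n m : ℕ} (h : n.Coprime m) : jacobiSym (n : ℤ) m ≠ 0 := by
  rcases jacobiSym.eq_one_or_neg_one (a := n) (b := m) (by simpa using h) with e | e <;>
    rw [e] <;> norm_num

theorem chq_nat (n m : ℕ) : chq m (n : ℚ) = jacobiSym (n : ℤ) m := by simp [chq]

theorem chq_inv {n : ℕ} (h0 : n ≠ 0) (m : ℕ) : chq m (n : ℚ)⁻¹ = jacobiSym (n : ℤ) m := by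
  unfold chq
  rw [Rat.inv_natCast_den, if_neg h0, Rat.inv_natCast_num, Int.sign_natCast_of_ne_zero h0, one_mul]

theorem nsq {m₁ m₂ m₃ : ℕ} (h : Tri m₁ m₂ m₃) : ¬ IsSquare ((m₁ : ℤ) * m₃) := by
  rintro ⟨r, hr⟩
  obtain ⟨p, hp, hd⟩ := Nat.exists_prime_and_dvd h.one.ne'
  have hj := h.inert p hp hd
  have hpz : Prime (p : ℤ) := Nat.prime_iff_prime_int.1 hp
  have h1 : ¬ p ∣ m₁ := fun h1 => by
    haveI : NeZero p := ⟨hp.ne_zero⟩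
    rw [jacobiSym.eq_zero_iff_not_coprime.2 fun e => hp.ne_one (Nat.dvd_one.1 (by
      rw [← e]
      exact Int.dvd_gcd (c := p) (dvd_neg.2 ((Int.natCast_dvd_natCast.2 h1).mul_right _))
        dvd_rfl))] at hj
    norm_num at hj
  have h2 : (p : ℤ) ∣ r := by
    have : (p : ℤ) ∣ r * r := hr ▸ (Int.natCast_dvd_natCast.2 hd).mul_left _
    exact (hpz.dvd_or_dvd this).elim id id
  have h3 : p * p ∣ m₁ * m₃ := by
    rw [← Int.natCast_dvd_natCast]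
    push_cast
    rw [hr]
    exact mul_dvd_mul h2 h2
  have h4 : (p * p).Coprime m₁ :=
    Nat.Coprime.mul_left ((Nat.Prime.coprime_iff_not_dvd hp).2 h1)
      ((Nat.Prime.coprime_iff_not_dvd hp).2 h1)
  exact hp.ne_one (Nat.isUnit_iff.1 (h.a3.1 p (h4.dvd_of_dvd_mul_left h3)))

theorem cs_W1 {a b c : ℚ} (m n : ℕ) (h : ¬ ∃ x, Gr a b c x) : cs H2 (W1 a b c m n) = 0 := by
  have : W1 a b c m n = fun _ => 0 := by
    funext x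
    unfold W1
    rw [if_neg fun e => h ⟨x, e.1⟩]
  rw [this]
  simp [cs]

end DIDN

open DIDN

theorem t_IDN (hKC : KC) (hLOC : LOC) (hSCL : SCL) (hNFAC : NFAC) (hAWAY : AWAY) : IDN := by
  intro d₀ t ρ ρ' B m₁ m₂ m₃ N N' S S' hD hT ht h120 h30 hN hN' hS hS'
  have o1 := odd_of hT.a1
  have o2 := odd_of hT.a2
  have o3 := odd_of hT.a3
  have r1 := R1.st_emod o1
  have r2 := R1.st_emod o2
  have r3 := R1.st_emod o3
  have s12 : st m₁ * st m₂ = -(m₁ * m₂) := st_opp o1 o2 (by have := hT.s12.1; omega)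
  have s13 : st m₁ * st m₃ = m₁ * m₃ := st_same o1 o3 (by have := hT.s13.1; omega)
  have q1 := R1.st_sq m₁
  have q3 := R1.st_sq m₃
  have p1 : (0 : ℤ) < m₁ := by exact_mod_cast o1.pos
  have p2 : (0 : ℤ) < m₂ := by exact_mod_cast o2.pos
  have p3 : (0 : ℤ) < m₃ := by exact_mod_cast o3.pos
  have s23 : st m₂ * st m₃ = -(m₂ * m₃) := by
    refine mul_left_cancel₀ (pow_ne_zero 2 p1.ne') ?_
    rw [← q1, show st m₁ ^ 2 * (st m₂ * st m₃) = (st m₁ * st m₂) * (st m₁ * st m₃) by ring, s12, s13,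
      q1]
    ring
  have c0 := cd_ne hD
  have cp := cd_prime hD
  have cq := cd_sq d₀
  have pc : (0 : ℤ) < cd d₀ := by exact_mod_cast Nat.pos_of_ne_zero c0
  have t1 := (hKC.tw d₀ m₁ hD hT.a1).2.2.2.1
  have t3 := (hKC.tw d₀ m₃ hD hT.a3).2.2.2.1
  have m4 := ds_m4 d₀
  have hNz : (N : ℤ) = (cd d₀ : ℤ) ^ 2 * (m₁ * m₂) := by rw [hN]; push_cast; ring
  have hNz' : (N' : ℤ) = (cd d₀ : ℤ) ^ 2 * (m₂ * m₃) := by rw [hN']; push_cast; ring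
  have pN : 0 < N := by
    have : (0 : ℤ) < N := by rw [hNz]; positivity
    exact_mod_cast this
  have pN' : 0 < N' := by
    have : (0 : ℤ) < N' := by rw [hNz']; positivity
    exact_mod_cast this
  have s31 : Sq120 ((m₃ : ℤ) * m₁) := by rw [mul_comm]; exact hT.s13
  have a1 : ds (d₀ * st m₃) * (ds d₀ * st m₃) = (cd d₀ : ℤ) ^ 2 * (m₃ : ℤ) ^ 2 := by
    rw [t3, ← cq, ← q3]; ring
  have a2 : ds (d₀ * st m₁) * (ds d₀ * st m₃) = (cd d₀ : ℤ) ^ 2 * (m₁ * m₃) := by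
    rw [t1, ← cq, ← s13]; ring
  have F1 := hNFAC d₀ (ds d₀ * st m₂) (ds d₀ * st m₃) ρ (ds (d₀ * st m₃)) B m₁ m₃ N S hD hT.a1
    hT.a3 hT.s13 (m4_mul m4 r2) (m4_mul m4 r3) pN
    (by rw [hNz, t1, ← cq]; linear_combination -ds d₀ ^ 2 * s12) (by rw [a1]; positivity) hS
  have F2 := hNFAC d₀ (ds d₀ * st m₂) (ds d₀ * st m₃) ρ' (t * ds (d₀ * st m₁)) B m₃ m₁ N' S' hD
    hT.a3 hT.a1 s31 (m4_mul m4 r2) (m4_mul m4 r3) pN'
    (by rw [hNz', t3, ← cq]; linear_combination -ds d₀ ^ 2 * s23) (by rw [a2]; positivity) hS'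
  rw [a1] at F1
  rw [a2] at F2
  rw [show ds (d₀ * st m₃) ^ 2 = (cd d₀ : ℤ) ^ 2 * (m₃ : ℤ) ^ 2 by rw [t3, mul_pow, cq, q3], cq, F1,
    F2]
  have c30 : 30 * cd d₀ ≠ 0 := by omega
  have cp30 : ∀ p : ℕ, p.Prime → p ∣ 30 * cd d₀ → p ∣ 30 := fun p hp h =>
    (hp.dvd_mul.1 h).elim id (cp p hp)
  have cQ : ((cd d₀ : ℕ) : ℚ) ≠ 0 := by exact_mod_cast c0
  have cQ30 : ((30 * cd d₀ : ℕ) : ℚ) ≠ 0 := by exact_mod_cast c30
  have G1 := hSCL (-((cd d₀ : ℤ) ^ 2 * m₂)) ((cd d₀ : ℤ) ^ 2 * m₃) B ((30 * cd d₀ : ℕ) : ℚ)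
    ((cd d₀ : ℕ) : ℚ)⁻¹ m₁ m₃ hT.a1 hT.a3 hT.s13 cQ30 (inv_ne_zero cQ) (nat_SS _) (inv_SS c30 cp30)
    (inv_SS c0 cp) (by rw [inv_inv]; exact nat_SS _)
  have G2 := hSCL (-((cd d₀ : ℤ) ^ 2 * m₂)) ((cd d₀ : ℤ) ^ 2 * m₃) B ((cd d₀ : ℕ) : ℚ)⁻¹
    ((30 * cd d₀ : ℕ) : ℚ) m₃ m₁ hT.a3 hT.a1 s31 (inv_ne_zero cQ) cQ30 (inv_SS c0 cp)
    (by rw [inv_inv]; exact nat_SS _) (nat_SS _) (inv_SS c30 cp30)
  have AW := hAWAY m₁ m₂ m₃ (30 * cd d₀ ^ 2) B hT (dvd_mul_right _ _) fun p hp h =>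
    (hp.dvd_mul.1 h).elim id fun h => cp p hp (hp.dvd_of_dvd_pow h)
  have hNq : (N : ℚ) = (cd d₀ : ℚ) ^ 2 * (m₁ * m₂) := by rw [hN]; push_cast; ring
  have hNq' : (N' : ℚ) = (cd d₀ : ℚ) ^ 2 * (m₂ * m₃) := by rw [hN']; push_cast; ring
  have AA : cs H2 (W1 (-N) B (((cd d₀ : ℤ) ^ 2 * (m₃ : ℤ) ^ 2 : ℤ) : ℚ) m₁ m₃) =
      cs H2 (W1 (-N') B (((cd d₀ : ℤ) ^ 2 * (m₁ * m₃) : ℤ) : ℚ) m₃ m₁) := by
    have k : chq m₁ ((30 * cd d₀ : ℕ) : ℚ) * chq m₃ ((cd d₀ : ℕ) : ℚ)⁻¹ ≠ 0 := by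
      rw [chq_nat, chq_inv c0]
      exact mul_ne_zero (jac_ne (cop cp30 hT.a1)) (jac_ne (cop cp hT.a3))
    refine mul_left_cancel₀ k ?_
    rw [show (-N : ℚ) = m₁ * ((-((cd d₀ : ℤ) ^ 2 * m₂) : ℤ) : ℚ) by rw [hNq]; push_cast; ring,
      show (((cd d₀ : ℤ) ^ 2 * (m₃ : ℤ) ^ 2 : ℤ) : ℚ) = m₃ * (((cd d₀ : ℤ) ^ 2 * m₃ : ℤ) : ℚ) by
        push_cast; ring,
      show (-N' : ℚ) = m₃ * ((-((cd d₀ : ℤ) ^ 2 * m₂) : ℤ) : ℚ) by rw [hNq']; push_cast; ring,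
      show (((cd d₀ : ℤ) ^ 2 * (m₁ * m₃) : ℤ) : ℚ) = m₁ * (((cd d₀ : ℤ) ^ 2 * m₃ : ℤ) : ℚ) by
        push_cast; ring, ← G1, mul_comm (chq m₁ _), ← G2]
    convert AW using 3 <;> push_cast <;> field_simp
  by_cases g1 : ∃ x, Gr (-N) B (((cd d₀ : ℤ) ^ 2 * (m₃ : ℤ) ^ 2 : ℤ) : ℚ) x
  swap
  · rw [← AA, cs_W1 _ _ g1, zero_mul, zero_mul]
  by_cases g2 : ∃ x, Gr (-N') B (((cd d₀ : ℤ) ^ 2 * (m₁ * m₃) : ℤ) : ℚ) x
  swap
  · rw [AA, cs_W1 _ _ g2, zero_mul, zero_mul]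
  have cqQ : ((ds d₀ : ℤ) : ℚ) ^ 2 = (cd d₀ : ℚ) ^ 2 := by exact_mod_cast cq
  have e1 : ((ds d₀ : ℤ) : ℚ) * ((ds d₀ * (st m₁ * st m₂) : ℤ) : ℚ) = -N := by
    rw [s12, hNq, ← cqQ]; push_cast; ring
  have e2 : ((ds d₀ : ℤ) : ℚ) * ((ds d₀ * (st m₃ * st m₃) : ℤ) : ℚ) =
      (((cd d₀ : ℤ) ^ 2 * (m₃ : ℤ) ^ 2 : ℤ) : ℚ) := by
    rw [← cq, ← q3]; push_cast; ring
  have e3 : ((ds d₀ : ℤ) : ℚ) * ((ds d₀ * (st m₂ * st m₃) : ℤ) : ℚ) = -N' := by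
    rw [s23, hNq', ← cqQ]; push_cast; ring
  have e4 : ((ds d₀ : ℤ) : ℚ) * ((ds d₀ * (st m₁ * st m₃) : ℤ) : ℚ) =
      (((cd d₀ : ℤ) ^ 2 * (m₁ * m₃) : ℤ) : ℚ) := by
    rw [← cq, s13]; push_cast; ring
  have d0 : ds d₀ ≠ 0 := fun e => by
    rw [e] at cq
    nlinarith
  have L := hLOC d₀ (ds d₀ * (st m₁ * st m₂)) (ds d₀ * (st m₃ * st m₃)) (ds d₀ * (st m₂ * st m₃))
    (ds d₀ * (st m₁ * st m₃)) B ρ (ds (d₀ * st m₃)) ρ' (t * ds (d₀ * st m₁)) (st m₁) (st m₃) t hD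
    (m4_mul m4 (by rw [Int.mul_emod, r2, r3]; norm_num))
    (m4_mul m4 (by rw [Int.mul_emod, r1, r3]; norm_num))
    (mul_ne_zero d0 (by rw [s12]; exact neg_ne_zero.2 (by positivity)))
    (by
      rw [show ds d₀ * (ds d₀ * (st m₁ * st m₂)) * (ds d₀ * (ds d₀ * (st m₃ * st m₃))) =
        (ds d₀ ^ 2) ^ 2 * (st m₁ * st m₂) * st m₃ ^ 2 by ring, cq, s12, q3]
      have : (0 : ℤ) < ((cd d₀ : ℤ) ^ 2) ^ 2 * (m₁ * m₂) * (m₃ : ℤ) ^ 2 := by positivity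
      nlinarith [sq_nonneg B])
    (by ring) (by ring)
    (by
      have h : IsCoprime (m₁ : ℤ) 30 := by exact_mod_cast Nat.isCoprime_iff_coprime.2 hT.a1.2
      unfold st
      split_ifs
      · exact h
      · exact h.neg_left)
    ht h120 (by rw [s13]; exact nsq hT) h30
    (by
      rw [t1, t3, show ds d₀ * st m₃ - t * (t * (ds d₀ * st m₁)) =
        ds d₀ * (st m₃ - t ^ 2 * st m₁) by ring]
      exact (Dvd.dvd.trans (by norm_num) h120).mul_left _)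
    (by rw [e1, e2]; exact g1) (by rw [e3, e4]; exact g2)
  rw [e1, e2, e3, e4] at L
  rw [AA, L]

end Pool.Agent.P.MP_8b7eba_nt.R3
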