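import Pool.Agent.P.MP_8b7eba_nt.R3.IfD
import Pool.Agent.P.MP_8b7eba_nt.R1.Basic

/-! Proof of INV1, INV2. -/

namespace Pool.Agent.P.MP_8b7eba_nt.R3

open _root_.Pool.Agent.P.MP_8b7eba_nt.Mod (M2 G0 FI L0 om lv)
open R1 (QF Hg Lv st Rq uu VV lf wf cnt Wt VB Dual gg dualB_F dualB_M)
open BSD15 (Adm Prim dt)
open Filter Topology Finset
open scoped Real ComplexConjugate

namespace DINV1

theorem kk_data {A : Subring ℚ} {N : ℕ} {g : GM} (hg : g ∈ KK A N) :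
    ∃ k y e : ℚ, k ≠ 0 ∧ k * g.a ∈ A ∧ y ∈ A ∧ k * g.b = N * y ∧ k * g.b ∈ A ∧ k * g.c ∈ A ∧
      k * g.d ∈ A ∧ e ∈ A ∧ k ^ 2 * g.det ∈ A ∧ (k ^ 2 * g.det)⁻¹ = e ∧ ∀ Q : QQ,
        (g • Q).A = (Q.A * (k * g.a) ^ 2 + Q.B * (k * g.a) * (k * g.b) + Q.C * (k * g.b) ^ 2) * e ∧
        (g • Q).B = Q.B + 2 * (Q.A * (k * g.a) * (k * g.c) + Q.B * (k * g.b) * (k * g.c) +
          Q.C * (k * g.b) * (k * g.d)) * e ∧
        (g • Q).C = (Q.A * (k * g.c) ^ 2 + Q.B * (k * g.c) * (k * g.d) + Q.C * (k * g.d) ^ 2) * e := by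
  obtain ⟨k, a, ⟨y, hy, b⟩, c, d, e, he, f⟩ := hg
  have hk : k ≠ 0 := fun h => by simp [h] at f
  have hb : k * g.b ∈ A := b ▸ A.mul_mem (natCast_mem A N) hy
  have := g.det_ne
  obtain rfl : e = (k ^ 2 * g.det)⁻¹ := eq_inv_of_mul_eq_one_left f
  refine ⟨k, y, _, hk, a, hy, b, hb, c, d, he, ?_, rfl, fun Q => ⟨?_, ?_, ?_⟩⟩
  · rw [show k ^ 2 * g.det = k * g.a * (k * g.d) - k * g.b * (k * g.c) by rw [GM.det]; ring]
    exact A.sub_mem (A.mul_mem a d) (A.mul_mem hb c)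
  · rw [QQ.smul_A]; field_simp
  · rw [QQ.smul_B]; field_simp; rw [GM.det]; ring
  · rw [QQ.smul_C]; field_simp

theorem in_smul {A : Subring ℚ} {N : ℕ} {g : GM} (hg : g ∈ KK A N) {Q : QQ} (h : In A Q) :
    In A (g • Q) := by
  obtain ⟨k, y, e, -, a, -, -, b, c, d, he, -, -, f⟩ := kk_data hg
  obtain ⟨h1, h2, h3⟩ := h
  have h4 : (2 : ℚ) ∈ A := ofNat_mem A 2
  refine ⟨?_, ?_, ?_⟩
  · rw [(f Q).1]; apply_rules [mul_mem, add_mem, pow_mem]
  · rw [(f Q).2.1]; apply_rules [mul_mem, add_mem, pow_mem]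
  · rw [(f Q).2.2]; apply_rules [mul_mem, add_mem, pow_mem]

theorem lr_in {ρ : ℤ} {Q : QQ} (h : LR ρ Q) : In RR Q :=
  ⟨by simpa [mul_div_cancel₀] using RR.mul_mem (ofNat_mem RR 15) h.1,
    by simpa [mul_div_cancel₀] using
      RR.add_mem (RR.mul_mem (ofNat_mem RR 30) h.2.1) (intCast_mem RR ρ), h.2.2⟩

theorem lr_smul {g : GM} (hg : g ∈ H1) {ρ : ℤ} {Q : QQ} (h : LR ρ Q) : LR ρ (g • Q) := by
  refine ⟨?_, ?_, (in_smul hg (lr_in h)).2.2⟩
  all_goals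
    obtain ⟨k, y, e, -, a, hy, b, -, c, d, he, -, -, f⟩ := kk_data hg
    have hB := (lr_in h).2.1
    obtain ⟨h1, h2, h3⟩ := h
    have h4 : (15 : ℚ) ∈ RR := ofNat_mem RR 15
  · rw [show (g • Q).A / 15 = (Q.A / 15 * (k * g.a) ^ 2 + Q.B * (k * g.a) * y +
      Q.C * (15 * y ^ 2)) * e by rw [(f Q).1, b]; push_cast; ring]
    apply_rules [mul_mem, add_mem, pow_mem]
  · rw [show ((g • Q).B - ρ) / 30 = (Q.B - ρ) / 30 + (Q.A / 15 * (k * g.a) * (k * g.c) +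
      Q.B * y * (k * g.c) + Q.C * y * (k * g.d)) * e by rw [(f Q).2.1, b]; push_cast; ring]
    apply_rules [mul_mem, add_mem, pow_mem]

theorem iff_smul {H : Subgroup GM} {P : QQ → Prop} (h : ∀ g ∈ H, ∀ Q, P Q → P (g • Q)) {g : GM}
    (hg : g ∈ H) (Q : QQ) : P (g • Q) ↔ P Q :=
  ⟨fun a => by simpa using h _ (H.inv_mem hg) _ a, h g hg Q⟩

theorem gr_smul (Δ₁ B Δ₂ : ℚ) (g : GM) (x : QQ × QQ) : Gr Δ₁ B Δ₂ (g • x) ↔ Gr Δ₁ B Δ₂ x := by
  simp [Gr, QQ.disc_smul, QQ.pair_smul]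

theorem unit_prime {T : ℕ → Prop} {x : ℚ} (h0 : x ≠ 0) (h1 : x ∈ Zl T) (h2 : x⁻¹ ∈ Zl T) {p : ℕ}
    (hp : p.Prime) (h : p ∣ (x.num * x.den).natAbs) : T p := by
  rw [Int.natAbs_mul, Int.natAbs_natCast] at h
  exact (hp.dvd_mul.1 h).elim (fun a => h2 p hp (by rwa [Rat.den_inv_of_ne_zero h0])) (h1 p hp)

theorem ss_le {p : ℕ} (h : ¬ p ∣ 30) : SS ≤ RP p := fun _ hx q hq a e => h (e ▸ hx q hq a)

theorem rr_le {p : ℕ} (h : p ∣ 30) : RR ≤ RP p := fun _ hx q hq a e => hx q hq a (e ▸ h)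

theorem div_mem {A : Subring ℚ} {p : ℕ} {n : ℤ} (hp : p.Prime) (h : (p : ℤ) ∣ n) :
    (n : ℚ) / p ∈ A := by
  obtain ⟨c, rfl⟩ := h
  rw [Int.cast_mul, Int.cast_natCast, mul_div_cancel_left₀ _ (Nat.cast_ne_zero.2 hp.ne_zero)]
  exact intCast_mem A c

theorem prod_jac (x : ℤ) {m : ℕ} (hm : Squarefree m) :
    ∏ p ∈ m.primeFactors, jacobiSym x p = jacobiSym x m := by
  have key : ∀ s : Finset ℕ, (∀ p ∈ s, p ≠ 0) → ∏ p ∈ s, jacobiSym x p = jacobiSym x (∏ p ∈ s, p) := by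
    intro s
    induction s using Finset.induction_on with
    | empty => simp [jacobiSym.one_right]
    | insert p s hp ih =>
      intro h
      rw [prod_insert hp, prod_insert hp, ih fun q hq => h q (mem_insert_of_mem hq),
        jacobiSym.mul_right' _ (h p (mem_insert_self _ _))
          (prod_ne_zero_iff.2 fun q hq => h q (mem_insert_of_mem hq))]
  rw [key _ fun p hp => (Nat.prime_of_mem_primeFactors hp).ne_zero,
    Nat.prod_primeFactors_of_squarefree hm]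

theorem jac_one {M : ℕ} (hM : Sq120 M) {x : ℤ} (h0 : x ≠ 0)
    (h : ∀ p : ℕ, p.Prime → p ∣ x.natAbs → p ∣ 30) : jacobiSym x M = 1 := by
  obtain ⟨m8, m3, m5⟩ := hM
  have ho : Odd M := Nat.odd_iff.2 (by omega)
  have key : ∀ n : ℕ, n ≠ 0 → (∀ p : ℕ, p.Prime → p ∣ n → p ∣ 30) → jacobiSym n M = 1 := by
    intro n
    induction n using induction_on_primes with
    | zero => exact fun a => absurd rfl a
    | one => exact fun _ _ => jacobiSym.one_left M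
    | prime_mul p n hp ih =>
      intro a b
      rw [Nat.cast_mul, jacobiSym.mul_left, ih (right_ne_zero_of_mul a)
        fun q hq c => b q hq (c.mul_left p), mul_one]
      have h30 : p ∣ 2 * (3 * 5) := b p hp (dvd_mul_right p n)
      rcases hp.dvd_mul.1 h30 with c | c
      · obtain rfl := (Nat.prime_dvd_prime_iff_eq hp Nat.prime_two).1 c
        rw [Nat.cast_ofNat, jacobiSym.at_two ho, ZMod.χ₈_nat_eq_if_mod_eight, if_neg (by omega),
          if_pos (by omega)]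
      · rw [jacobiSym.quadratic_reciprocity_one_mod_four' (hp.odd_of_ne_two (by
          rintro rfl; norm_num at c)) (by omega), jacobiSym.mod_left]
        rcases hp.dvd_mul.1 c with c | c
        · obtain rfl := (Nat.prime_dvd_prime_iff_eq hp Nat.prime_three).1 c
          rw [Nat.cast_ofNat, m3, jacobiSym.one_left]
        · obtain rfl := (Nat.prime_dvd_prime_iff_eq hp Nat.prime_five).1 c
          rw [Nat.cast_ofNat]
          rcases m5 with c | c <;> rw [c] <;> norm_num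
  have := key x.natAbs (Int.natAbs_ne_zero.2 h0) h
  rcases Int.natAbs_eq x with e | e
  · rwa [e]
  · rw [e, jacobiSym.neg _ ho, this, ZMod.χ₄_nat_one_mod_four (by omega), mul_one]

theorem pq_smul (hCHQ : CHQ) {A : Subring ℚ} {m : ℕ} {n : ℤ} {g : GM} {k : ℚ} {Q : QQ}
    (hm : Odd m) (hA : ∀ p : ℕ, p.Prime → p ∣ m → A ≤ RP p) (a : k * g.a ∈ A) (b : k * g.b ∈ A)
    (c : k * g.c ∈ A) (d : k * g.d ∈ A) (e : (k ^ 2 * g.det)⁻¹ ∈ A) (hk : k ≠ 0) (hQ : In A Q)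
    (hD : Q.disc = n) (hn : (m : ℤ) ∣ n) :
    pq m (g • Q) = (∏ p ∈ m.primeFactors, chq p (k ^ 2 * g.det)) * pq m Q := by
  rw [pq, pq, ← prod_mul_distrib]
  refine prod_congr rfl fun p hp => ?_
  have h1 := Nat.prime_of_mem_primeFactors hp
  have h2 := Nat.dvd_of_mem_primeFactors hp
  have h := hA p h1 h2
  refine hCHQ.1 p g k Q h1 (fun e => ?_) (h a) (h b) (h c) (h d) (h e) hk
    ⟨h hQ.1, h hQ.2.1, h hQ.2.2⟩ (hD ▸ div_mem h1 ((Int.natCast_dvd_natCast.2 h2).trans hn))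
  exact (Nat.not_even_iff_odd.2 hm) (even_iff_two_dvd.2 (e ▸ h2))

theorem c2_sq (e : ℤ) {x : ℤ} (h : x % 2 = 1) : c2 e x ^ 2 = 1 := by
  unfold c2
  rw [ZMod.χ₄_int_eq_if_mod_four, ZMod.χ₈_int_eq_if_mod_eight, ZMod.χ₈'_int_eq_if_mod_eight]
  split_ifs <;> first | rfl | omega

end DINV1

open DINV1

theorem t_INV1 (hKC : KC) (hCHQ : CHQ) : INV1 := by
  intro E₁ E₂ B m₁ m₃ a1 a3 hs g hg x
  have i := fun Q => iff_smul (H := H2) (P := In SS) (fun g hg Q => in_smul hg) hg Q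
  classical
  unfold W1
  refine if_ctx_congr (and_congr (gr_smul ..) (and_congr (i _) (i _))) (fun h => ?_) fun _ => rfl
  rw [Prod.smul_fst, Prod.smul_snd]
  obtain ⟨k, y, e, hk, a, -, -, b, c, d, he, hδ, rfl, -⟩ := kk_data hg
  have h0 : k ^ 2 * g.det ≠ 0 := mul_ne_zero (pow_ne_zero 2 hk) g.det_ne
  have key : ∀ {m : ℕ} {E : ℤ} {Q : QQ}, Adm m → In SS Q → Q.disc = m * E →
      pq m (g • Q) = chq m (k ^ 2 * g.det) * pq m Q := fun {m E Q} hm hQ hD => by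
    rw [pq_smul hCHQ (n := m * E) (Nat.odd_iff.2 ?_) (fun p hp h => ss_le fun h' => ?_) a b c d he
      hk hQ (by rw [hD]; push_cast; rfl) (dvd_mul_right _ _)]
    · simp only [chq, prod_jac _ hm.1]
    · have := Nat.Coprime.coprime_dvd_right (by norm_num : 2 ∣ 30) hm.2
      exact Nat.odd_iff.1 (Nat.coprime_two_right.1 this)
    · exact hp.ne_one (Nat.eq_one_of_dvd_coprimes hm.2 h h')
  rw [key a1 h.2.1 h.1.1, key a3 h.2.2 h.1.2.2, mul_mul_mul_comm, chq, chq,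
    ← jacobiSym.mul_right' _ a1.1.ne_zero a3.1.ne_zero,
    jac_one (by exact_mod_cast hs) (mul_ne_zero (Rat.num_ne_zero.2 h0) (by simp))
      fun p hp h => unit_prime h0 hδ he hp h, one_mul]

theorem t_INV2 (hKC : KC) (hCHQ : CHQ) : INV2 := by
  intro E₁ E₂ ρ₁ ρ₂ d₀ B hd m1 m2 g hg x
  have i := fun ρ Q => iff_smul (H := H1) (P := LR ρ) (fun g hg Q => lr_smul hg) hg Q
  classical
  unfold W2
  refine if_ctx_congr (and_congr (gr_smul ..) (and_congr (i _ _) (i _ _))) (fun h => ?_)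
    fun _ => rfl
  rw [Prod.smul_fst, Prod.smul_snd]
  obtain ⟨k, y, e, hk, a, -, -, b, c, d, he, hδ, rfl, -⟩ := kk_data hg
  have h0 : k ^ 2 * g.det ≠ 0 := mul_ne_zero (pow_ne_zero 2 hk) g.det_ne
  have hu := fun p hp h => unit_prime (p := p) h0 hδ he hp h
  obtain ⟨o1, -, o2, o3⟩ := hKC.par d₀ hd.sq
  have s1 : (od d₀ : ℤ) ∣ st (od d₀) := Int.natCast_dvd.2 (R1.natAbs_st _).symm.dvd
  have s2 : od d₀ ∣ 30 := by exact_mod_cast (s1.trans (Dvd.intro_left _ o2.symm)).trans hd.dvd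
  have s3 : (od d₀ : ℤ) ∣ ds d₀ := by
    rcases o3 with o | o <;> rw [o.2]
    exacts [s1, s1.mul_left _]
  have key : ∀ {ρ E : ℤ} {Q : QQ}, M4 E → LR ρ Q → Q.disc = ds d₀ * E → gq d₀ (g • Q) =
      c2q (e2 d₀) (k ^ 2 * g.det) * (∏ p ∈ (od d₀).primeFactors, chq p (k ^ 2 * g.det)) *
        gq d₀ Q := fun {ρ E Q} hE hQ hD => by
    have q := lr_in hQ
    rw [gq, gq, pq_smul hCHQ (n := ds d₀ * E) o1 (fun p _ h => rr_le (h.trans s2)) a b c d he hk q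
      (by rw [hD]; push_cast; rfl) (s3.mul_right _), mul_mul_mul_comm]
    congr 1
    rcases o3 with o | o
    · simp [ch2q, c2q, c2, o.1]
    · have r := rr_le (by norm_num : 2 ∣ 30)
      refine hCHQ.2 _ (st (od d₀) * E) g k Q o.1 ?_ (r a) (r b) (r c) (r d) (r he) hk
        ⟨r q.1, r q.2.1, r q.2.2⟩ (by rw [hD, o.2]; push_cast; ring)
      have := R1.st_emod o1
      rcases hE with e | e <;> simp [M4, Int.mul_emod, this, e]
  rw [key m1 h.2.1 h.1.1, key m2 h.2.2 h.1.2.2, mul_mul_mul_comm, ← sq, mul_pow, c2q,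
    c2_sq _ (Int.emod_two_ne_zero.1 fun e => hu 2 Nat.prime_two
      (Int.natCast_dvd.1 (Int.dvd_of_emod_eq_zero e)) (by norm_num)), ← prod_pow, prod_eq_one,
    one_mul, one_mul]
  intro p hp
  have h1 := Nat.prime_of_mem_primeFactors hp
  exact jacobiSym.sq_one (Nat.Coprime.symm (h1.coprime_iff_not_dvd.2 fun e =>
    hu p h1 e ((Nat.dvd_of_mem_primeFactors hp).trans s2)))

end Pool.Agent.P.MP_8b7eba_nt.R3
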