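import Pool.Agent.P.MP_8b7eba_nt.R3.IfD
import Pool.Agent.P.MP_8b7eba_nt.R3.ACKC
import Pool.Agent.P.MP_8b7eba_nt.BSD15.Jac

/-! Proof of KC. -/

namespace Pool.Agent.P.MP_8b7eba_nt.R3

open R1 (QF st wf st_mul st_emod natAbs_st)
open BSD15 (Adm jac_perm jac_exists_unit)
open Finset
open R2.G.ACKC (jac c2_one c2_neg c2_two c2_neg_two c2_mul cast_eq kc_sq)

namespace DKC

theorem uniq {e : ℤ} {n : ℕ} (hn : Odd n) (he : e = 1 ∨ e = -1 ∨ e = 2 ∨ e = -2) :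
    od (e * st n) = n ∧ e2 (e * st n) = e := by
  have h1 := st_emod hn
  have h2 := natAbs_st n
  have h3 : od (e * st n) = n := by
    unfold od
    rcases he with rfl | rfl | rfl | rfl <;> split_ifs <;> omega
  exact ⟨h3, by rw [e2, h3, Int.mul_ediv_cancel _ (by omega)]⟩

theorem par {d : ℤ} (hd : Squarefree d) : Odd (od d) ∧ Squarefree (od d) ∧
    d = e2 d * st (od d) ∧ (e2 d = 1 ∧ ds d = st (od d) ∨
      (e2 d = -1 ∨ e2 d = 2 ∨ e2 d = -2) ∧ ds d = 4 * e2 d * st (od d)) := by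
  obtain ⟨-, h1, -, -, h2, -⟩ := R2.G.t_KC d hd
  have h4 : d % 4 ≠ 0 := fun h => by
    have := Int.isUnit_iff.1 (hd 2 (Int.dvd_of_emod_eq_zero (by simpa using h)))
    omega
  obtain ⟨e, he, h5⟩ : ∃ e : ℤ, (e = 1 ∨ e = -1 ∨ e = 2 ∨ e = -2) ∧ d = e * st (od d) := by
    have : d = 1 * st (od d) ∨ d = -1 * st (od d) ∨ d = 2 * st (od d) ∨ d = -2 * st (od d) := by
      unfold st od
      split_ifs <;> omega
    rcases this with h | h | h | h <;> exact ⟨_, by simp, h⟩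
  have h6 := (uniq h1 he).2
  rw [← h5] at h6
  have h7 := st_emod h1
  rw [h6]
  refine ⟨h1, h2, h5, ?_⟩
  unfold ds
  rcases he with rfl | rfl | rfl | rfl <;> split_ifs <;> omega

theorem e4 {d : ℤ} (hd : Squarefree d) : e2 d = 1 ∨ e2 d = -1 ∨ e2 d = 2 ∨ e2 d = -2 :=
  (par hd).2.2.2.imp And.left And.left

theorem mul (d x y : ℤ) : kc d (x * y) = kc d x * kc d y := by
  unfold kc
  rw [jacobiSym.mul_left, c2_mul]
  ring

theorem c2_1 (e : ℤ) : c2 e 1 = 1 := by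
  unfold c2
  split_ifs <;> simp

theorem one (d : ℤ) : kc d 1 = 1 := by rw [kc, jacobiSym.one_left, c2_1, one_mul]

theorem per {d x y : ℤ} (hd : Squarefree d) (h : ds d ∣ x - y) : kc d x = kc d y :=
  (R2.G.t_KC d hd).2.2.2.2.2.2.2.1 x y (Int.natAbs_dvd.2 h)

theorem neg {d : ℤ} (hd : Squarefree d) : kc d (-1) = d.sign := by
  obtain ⟨h1, -, h2, -⟩ := par hd
  have h3 : jacobiSym (-1) (od d) = (st (od d)).sign := by
    have := Nat.odd_iff.1 h1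
    rw [jacobiSym.at_neg_one h1, st]
    split_ifs with h
    · rw [ZMod.χ₄_nat_one_mod_four h, Int.sign_natCast_of_ne_zero (by omega)]
    · rw [ZMod.χ₄_nat_three_mod_four (by omega), Int.sign_neg,
        Int.sign_natCast_of_ne_zero (by omega)]
  conv_rhs => rw [h2, Int.sign_mul, mul_comm, ← h3]
  rw [kc]
  congr 1
  rcases e4 hd with e | e | e | e <;> rw [e] <;> decide

theorem tri {d : ℤ} (hd : Squarefree d) (x : ℤ) :
    IsCoprime x (ds d) ∧ (kc d x = 1 ∨ kc d x = -1) ∨ ¬ IsCoprime x (ds d) ∧ kc d x = 0 := by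
  by_cases h : IsCoprime x (ds d)
  · exact Or.inl ⟨h, mul_self_eq_one_iff.1 (kc_sq hd x (h.of_isCoprime_of_dvd_right
      (Int.natAbs_dvd.2 dvd_rfl)))⟩
  refine Or.inr ⟨h, by_contra fun h0 => h ?_⟩
  obtain ⟨h1, -, -, h2⟩ := par hd
  have h3 : IsCoprime x (st (od d)) := by
    have := mt jacobiSym.eq_zero_iff.2 (left_ne_zero_of_mul h0)
    rw [Int.isCoprime_iff_gcd_eq_one, Int.gcd, natAbs_st]
    exact by_contra fun e => this ⟨h1.pos.ne', e⟩
  rcases h2 with ⟨-, e⟩ | ⟨e', e⟩ <;> rw [e]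
  · exact h3
  have h4 : IsCoprime x 2 := by
    refine (Int.prime_two.coprime_iff_not_dvd.2 fun h5 => right_ne_zero_of_mul h0 ?_).symm
    have h6 : x % 8 = 0 ∨ x % 8 = 2 ∨ x % 8 = 4 ∨ x % 8 = 6 := by omega
    unfold c2
    rw [if_neg (by omega), cast_eq (n := 4) (y := x % 8) (by omega),
      cast_eq (n := 8) (y := x % 8) (by omega)]
    rcases h6 with t | t | t | t <;> rw [t] <;> split_ifs <;> decide
  refine IsCoprime.mul_right ((h4.pow_right (n := 3)).of_isCoprime_of_dvd_right ?_) h3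
  rcases e' with t | t | t <;> rw [t] <;> decide

theorem odd {d : ℤ} {p : ℕ} (hd : Squarefree d) (hp : Odd p) : kc d p = jacobiSym d p := by
  obtain ⟨h1, -, h2, -⟩ := par hd
  conv_rhs => rw [h2, jacobiSym.mul_left, mul_comm, ← jac (st_emod h1) hp, natAbs_st]
  rw [kc]
  congr 1
  rcases e4 hd with a | a | a | a <;> rw [a]
  · rw [c2_one, jacobiSym.one_left]
  · rw [c2_neg, jacobiSym.at_neg_one hp, Int.cast_natCast]
  · rw [c2_two, jacobiSym.at_two hp, Int.cast_natCast]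
  · rw [c2_neg_two, jacobiSym.at_neg_two hp, Int.cast_natCast]

theorem root {d : ℤ} (hd : Squarefree d) :
    rn d = -(es d * kc d (-el d)) ∧ IsCoprime (el d) (ds d) := by
  have h3 : kc d 3 = jacobiSym d 3 := odd (p := 3) hd (by decide)
  have h5 : kc d 5 = jacobiSym d 5 := odd (p := 5) hd (by decide)
  constructor
  · rw [← neg_one_mul (el d), mul, neg hd, el, mul, rn, es]
    split_ifs <;> simp only [one, h3, h5] <;> ring
  · have c3 : ¬ 3 ∣ d → IsCoprime 3 (ds d) := fun h =>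
      Int.prime_three.coprime_iff_not_dvd.2 (by unfold ds; split_ifs <;> omega)
    have c5 : ¬ 5 ∣ d → IsCoprime 5 (ds d) := fun h =>
      (Nat.prime_iff_prime_int.1 Nat.prime_five).coprime_iff_not_dvd.2
        (by unfold ds; split_ifs <;> omega)
    refine IsCoprime.mul_left ?_ ?_ <;> split_ifs with h
    exacts [isCoprime_one_left, c3 h, isCoprime_one_left, c5 h]

theorem prim {d : ℤ} {p : ℕ} (hd : Squarefree d) (hp : p.Prime) (h : p ∣ cd d) :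
    ∃ u : ℕ, u.Coprime (cd d) ∧ u ≡ 1 [MOD cd d / p] ∧ kc d u = -1 := by
  obtain ⟨-, h1, h2, -, h3, -, -, -, -, -, h4⟩ := R2.G.t_KC d hd
  suffices ∃ u : ℕ, u ≡ 1 [MOD cd d / p] ∧ kc d u = -1 by
    obtain ⟨u, h5, h6⟩ := this
    refine ⟨u, ?_, h5, h6⟩
    have := ((tri hd u).resolve_right fun e => by omega).1
    rwa [Int.isCoprime_iff_gcd_eq_one, Int.gcd, Int.natAbs_natCast] at this
  by_cases h5 : p = 2
  · subst h5
    exact ⟨1 + cd d / 2, Nat.add_modEq_right, h4 h _ (by simp)⟩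
  have h6 : ∀ n, Odd n → Nat.Coprime 8 n := fun n hn =>
    (Nat.coprime_two_left.2 hn).pow_left 3
  have h7 : p ∣ od d := (h6 p (hp.odd_of_ne_two h5)).symm.dvd_of_dvd_mul_left (h.trans h2)
  obtain ⟨u, -, h8, h9⟩ := jac_exists_unit h1 h3 hp h7
  obtain ⟨v, v1, v2⟩ := Nat.chineseRemainder (h6 _ h1) 1 u
  refine ⟨v, Nat.ModEq.of_dvd ?_ ((Nat.modEq_and_modEq_iff_modEq_mul
    (h6 _ (h1.of_dvd_nat (Nat.div_dvd_of_dvd h7)))).1
      ⟨v1, (v2.of_dvd (Nat.div_dvd_of_dvd h7)).trans h8⟩), ?_⟩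
  · rw [← Nat.mul_div_assoc _ h7]
    exact Nat.div_dvd_div h h2
  · have := v1.symm.dvd
    rw [kc, jacobiSym.mod_left' (Int.natCast_modEq_iff.2 v2), h9, c2,
      cast_eq (n := 4) (y := 1) (by omega), cast_eq (n := 8) (y := 1) (by omega), ← c2, c2_1,
      mul_one]

theorem sum {d : ℤ} (hd : Squarefree d) (h1 : d ≠ 1) : ∑ c ∈ range (cd d), kc d c = 0 := by
  obtain ⟨p, hp, h⟩ := Nat.exists_prime_and_dvd (n := cd d) (by
    unfold cd ds
    split_ifs <;> omega)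
  obtain ⟨u, h2, -, h3⟩ := prim hd hp h
  have := jac_perm h2 (fun c => kc d c) fun a b e => per hd (Int.natAbs_dvd.1 e.symm.dvd)
  simp only [Nat.cast_mul, mul, h3, neg_one_mul, sum_neg_distrib] at this
  omega

theorem tw {d₀ : ℤ} {m : ℕ} (h0 : D0 d₀) (hm : Adm m) : Squarefree (d₀ * st m) ∧
    od (d₀ * st m) = od d₀ * m ∧ e2 (d₀ * st m) = e2 d₀ ∧ ds (d₀ * st m) = ds d₀ * st m ∧
    (∀ x, kc (d₀ * st m) x = kc d₀ x * jacobiSym x m) ∧
    ∀ Q, gch (d₀ * st m) Q = gch d₀ Q * pz m Q := by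
  obtain ⟨h1, -, h2, -⟩ := par h0.sq
  have h3 : Odd m := Nat.coprime_two_right.1 (hm.2.coprime_dvd_right (by norm_num))
  have h4 : IsCoprime d₀ (st m) := by
    refine IsCoprime.of_isCoprime_of_dvd_left ?_ h0.dvd
    rw [Int.isCoprime_iff_gcd_eq_one, Int.gcd, natAbs_st]
    exact hm.2.symm
  have h5 : (od d₀).Coprime m := by
    rw [h2] at h4
    have := h4.of_mul_left_right
    rwa [Int.isCoprime_iff_gcd_eq_one, Int.gcd, natAbs_st, natAbs_st] at this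
  obtain ⟨h6, h7⟩ := uniq (h1.mul h3) (e4 h0.sq)
  rw [st_mul h1 h3, ← mul_assoc, ← h2] at h6 h7
  refine ⟨squarefree_mul_iff.2 ⟨h4.isRelPrime, h0.sq, Int.squarefree_natAbs.1
    (by rw [natAbs_st]; exact hm.1)⟩, h6, h7, ?_, fun x => ?_, fun Q => ?_⟩
  · rw [ds, ds, Int.mul_emod, st_emod h3, mul_one, Int.emod_emod, ite_mul, mul_assoc]
  · rw [kc, kc, h6, h7, jacobiSym.mul_right' _ h1.pos.ne' h3.pos.ne', mul_right_comm]
  · rw [gch, gch, h6, h7, h5.primeFactors_mul, prod_union h5.disjoint_primeFactors, pz, mul_assoc]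

theorem dec {d : ℤ} (hd : Squarefree d) : ∃ (d₀ : ℤ) (m : ℕ), D0 d₀ ∧ Adm m ∧ d = d₀ * st m := by
  obtain ⟨h1, h2, h3, -⟩ := par hd
  obtain ⟨m, hm⟩ := Nat.gcd_dvd_left (od d) 15
  have h4 := Nat.odd_mul.1 (hm ▸ h1)
  have h5 := Nat.coprime_of_squarefree_mul (hm ▸ h2)
  rw [hm, st_mul h4.1 h4.2, ← mul_assoc] at h3
  refine ⟨_, m, ⟨hd.squarefree_of_dvd ⟨_, h3⟩,
    (mul_dvd_mul (b := 2) (d := 15) ?_ ?_).trans (by decide)⟩,
    ⟨h2.squarefree_of_dvd ⟨_, hm.trans (mul_comm _ _)⟩,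
      (Nat.coprime_two_right.2 h4.2).mul_right (n := 15) ?_⟩, h3⟩
  · rcases e4 hd with t | t | t | t <;> rw [t] <;> decide
  · rw [← Int.natAbs_dvd, natAbs_st]
    exact_mod_cast Nat.gcd_dvd_right (od d) 15
  · exact Nat.eq_one_of_dvd_coprimes h5 (Nat.dvd_gcd ((Nat.gcd_dvd_left _ _).trans
      ⟨_, hm.trans (mul_comm _ _)⟩) (Nat.gcd_dvd_right _ _)) (Nat.gcd_dvd_left _ _)

theorem pl (D ρ : ℤ) {m : ℕ} (hm : Odd m) : wg D ρ (st m) = wf D ρ m := by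
  obtain ⟨h1, h2⟩ := uniq hm (Or.inl rfl)
  rw [one_mul] at h1 h2
  funext Q
  simp only [wg, wf, gch, h1, h2, ch2, c2_one, ite_self, one_mul]

theorem abs (d : ℤ) (Q : QF) : |gch d Q| ≤ 1 := by
  have h0 : ∀ z : ℤ, z = 0 ∨ z = 1 ∨ z = -1 → |z| ≤ 1 := by
    rintro z (rfl | rfl | rfl) <;> simp
  have h1 : ∀ e x, |c2 e x| ≤ 1 := fun e x => by
    unfold c2
    split_ifs
    exacts [le_rfl, h0 _ (ZMod.isQuadratic_χ₄ _), h0 _ (ZMod.isQuadratic_χ₈ _),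
      h0 _ (ZMod.isQuadratic_χ₈' _)]
  rw [gch, abs_mul, abs_prod]
  refine mul_le_one₀ ?_ (by positivity) (prod_le_one (fun _ _ => abs_nonneg _) fun p _ => ?_)
  · unfold ch2
    split_ifs <;> exact h1 _ _
  · unfold QF.chip
    split_ifs <;> exact h0 _ (jacobiSym.trichotomy _ _)

end DKC

theorem t_KC : KC :=
  ⟨fun _ => DKC.par, DKC.mul, DKC.one, fun _ _ _ => DKC.per, fun _ => DKC.neg,
    fun _ x h => DKC.tri h x, fun _ _ => DKC.odd, fun _ => DKC.root, fun _ _ => DKC.prim,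
    fun _ => DKC.sum, fun _ _ => DKC.tw, fun _ => DKC.dec, fun D ρ _ => DKC.pl D ρ, DKC.abs⟩

end Pool.Agent.P.MP_8b7eba_nt.R3
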