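import Pool.Agent.P.MP_8b7eba_nt.R3.IfD

/-! Proof of LC. -/

namespace Pool.Agent.P.MP_8b7eba_nt.R3

namespace DLC

lemma cop {x : ℚ} (hx : x ∈ RR) : IsCoprime (x.den : ℤ) 120 := by
  have h : Nat.Coprime x.den 30 := Nat.coprime_of_dvd fun p hp h1 h2 => hx p hp h1 h2
  have h2 : Nat.Coprime x.den 120 :=
    Nat.Coprime.coprime_dvd_right (show 120 ∣ 30 ^ 3 by norm_num) (h.pow_right 3)
  exact_mod_cast Nat.isCoprime_iff_coprime.2 h2

lemma rep {x : ℚ} (hx : x ∈ RR) : ∃ a : ℤ, (x - a) / 120 ∈ RR := by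
  obtain ⟨u, v, h⟩ := cop hx
  refine ⟨x.num * u, ?_⟩
  have h' : (u : ℚ) * x.den + v * 120 = 1 := by exact_mod_cast h
  have e : (x - (x.num * u : ℤ)) / 120 = v * x := by
    have := Rat.mul_den_eq_num x
    push_cast
    rw [← this]
    linear_combination (-x / 120) * h'
  rw [e]
  exact RR.mul_mem (intCast_mem _ _) hx

lemma mem {x : ℚ} {a : ℤ} (h : (x - a) / 120 ∈ RR) : x ∈ RR := by
  rw [show x = 120 * ((x - a) / 120) + a by ring]
  exact RR.add_mem (RR.mul_mem (ofNat_mem _ _) h) (intCast_mem _ _)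

lemma dvd {x : ℚ} {a : ℤ} (h : (x - a) / 120 ∈ RR) : 120 ∣ x.num - a * x.den := by
  refine (cop h).symm.dvd_of_dvd_mul_right ⟨((x - a) / 120).num * x.den, ?_⟩
  have h1 := Rat.mul_den_eq_num x
  have h2 := Rat.mul_den_eq_num ((x - a) / 120)
  have : ((x.num : ℚ) - a * x.den) * ((x - a) / 120).den = 120 * (((x - a) / 120).num * x.den) := by
    rw [← h1, ← h2]
    ring
  exact_mod_cast this

lemma dvd_iff {x : ℚ} {a p : ℤ} (h : (x - a) / 120 ∈ RR) (hp : p ∣ 120) : p ∣ x.num ↔ p ∣ a := by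
  have h1 := hp.trans (dvd h)
  have h2 : IsCoprime p (x.den : ℤ) := ((cop (mem h)).of_isCoprime_of_dvd_right hp).symm
  constructor
  · intro k
    exact h2.dvd_of_dvd_mul_right (by simpa using k.sub h1)
  · intro k
    simpa using h1.add (k.mul_right x.den)

lemma jper {x y : ℤ} {p : ℕ} (hp : (p : ℤ) ∣ 120) (h : 120 ∣ x - y) :
    jacobiSym x p = jacobiSym y p :=
  jacobiSym.mod_left' (Int.modEq_iff_dvd.2 (hp.trans h)).symm

lemma c2_mul (e x y : ℤ) : c2 e (x * y) = c2 e x * c2 e y := by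
  unfold c2
  split_ifs <;> simp only [Int.cast_mul, map_mul, mul_one]

lemma c2_one (e : ℤ) : c2 e 1 = 1 := by
  unfold c2
  split_ifs <;> simp only [Int.cast_one, map_one]

lemma cper (e : ℤ) {x y : ℤ} (h : 8 ∣ x - y) : c2 e x = c2 e y := by
  have h8 : (x : ZMod 8) = y := (ZMod.intCast_eq_intCast_iff_dvd_sub y x 8).2 h |>.symm
  have h4 : (x : ZMod 4) = y :=
    (ZMod.intCast_eq_intCast_iff_dvd_sub y x 4).2 (Dvd.dvd.trans (by norm_num) h) |>.symm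
  unfold c2
  rw [h8, h4]

lemma chq_eq {x : ℚ} {a : ℤ} {p : ℕ} (h : (x - a) / 120 ∈ RR) (hp : (p : ℤ) ∣ 120) :
    chq p x = jacobiSym a p := by
  have h1 : 120 ∣ x.num * x.den - a * x.den ^ 2 := by
    rw [show x.num * x.den - a * x.den ^ 2 = (x.num - a * x.den) * x.den by ring]
    exact (dvd h).mul_right _
  have h2 : IsCoprime (x.den : ℤ) p := (cop (mem h)).of_isCoprime_of_dvd_right hp
  rw [chq, jper hp h1, jacobiSym.mul_left,
    jacobiSym.sq_one' (Int.isCoprime_iff_gcd_eq_one.1 h2), mul_one]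

lemma c2q_eq (e : ℤ) {x : ℚ} {a : ℤ} (h : (x - a) / 120 ∈ RR) : c2q e x = c2 e a := by
  refine cper e ?_
  obtain ⟨k, hk⟩ := dvd h
  obtain ⟨u, v, h2⟩ := cop (mem h)
  have ho : Odd (x.den : ℤ) := by
    rcases Int.even_or_odd (x.den : ℤ) with ⟨w, hw⟩ | ho
    · rw [hw] at h2
      have : 2 * (u * w + v * 60) = 1 := by linear_combination h2
      omega
    · exact ho
  obtain ⟨l, hl⟩ := Int.eight_dvd_sq_sub_one_of_odd ho
  exact ⟨15 * k * x.den + a * l, by linear_combination x.den * hk + a * hl⟩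

/-- the genus character in terms of integral representatives -/
def G (d a c : ℤ) : ℤ := (if 2 ∣ a then c2 (e2 d) c else c2 (e2 d) a) *
  ∏ p ∈ (od d).primeFactors, if (p : ℤ) ∣ a then jacobiSym c p else jacobiSym a p

/-- the character -/
def K (d t : ℤ) : ℤ := c2 (e2 d) t * ∏ p ∈ (od d).primeFactors, jacobiSym t p

lemma pd {d : ℤ} (hd : D0 d) {p : ℕ} (hp : p ∈ (od d).primeFactors) : (p : ℤ) ∣ 120 := by
  have h1 : od d ∣ d.natAbs := by
    unfold od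
    split_ifs with h
    · exact Nat.div_dvd_of_dvd (by omega)
    · rfl
  exact (Int.natCast_dvd.2 ((Nat.dvd_of_mem_primeFactors hp).trans h1)).trans
    (hd.dvd.trans (by norm_num))

lemma gq_eq {d a c : ℤ} (hd : D0 d) {P : QQ} (ha : (P.A - a) / 120 ∈ RR)
    (hc : (P.C - c) / 120 ∈ RR) : gq d P = G d a c := by
  unfold gq G ch2q pq
  congr 1
  · simp only [dvd_iff ha (show (2 : ℤ) ∣ 120 by norm_num), c2q_eq _ ha, c2q_eq _ hc]
  · refine Finset.prod_congr rfl fun p hp => ?_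
    simp only [chipq, dvd_iff ha (pd hd hp), chq_eq ha (pd hd hp), chq_eq hc (pd hd hp)]

lemma G_mul {d t : ℤ} (hd : D0 d) (ht : IsCoprime t 120) (a c : ℤ) :
    G d (t * a) (t * c) = K d t * G d a c := by
  have k : ∀ p : ℤ, p ∣ 120 → (p ∣ t * a ↔ p ∣ a) := fun p hp =>
    ⟨(ht.of_isCoprime_of_dvd_right hp).symm.dvd_of_dvd_mul_left, fun h => h.mul_left _⟩
  unfold G K
  rw [mul_mul_mul_comm, ← Finset.prod_mul_distrib]
  congr 1
  · simp only [k 2 (by norm_num), c2_mul]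
    split_ifs <;> rfl
  · refine Finset.prod_congr rfl fun p hp => ?_
    simp only [k p (pd hd hp), jacobiSym.mul_left]
    split_ifs <;> rfl

lemma K_mul {d t s : ℤ} (hd : D0 d) (h : 120 ∣ t * s - 1) : K d t * K d s = 1 := by
  unfold K
  rw [mul_mul_mul_comm, ← Finset.prod_mul_distrib, ← c2_mul,
    cper _ (Dvd.dvd.trans (by norm_num) h), c2_one, one_mul]
  refine Finset.prod_eq_one fun p hp => ?_
  rw [← jacobiSym.mul_left, jper (pd hd hp) h, jacobiSym.one_left]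

lemma lin_rep {α β x y : ℚ} {t a : ℤ} (hα : (α - t) / 120 ∈ RR) (hβ : β / 120 ∈ RR)
    (hx : (x - a) / 120 ∈ RR) (hy : y ∈ RR) : (α * x + β * y - (t * a : ℤ)) / 120 ∈ RR := by
  rw [show (α * x + β * y - (t * a : ℤ)) / 120 =
    α * ((x - a) / 120) + (α - t) / 120 * a + β / 120 * y by push_cast; ring]
  exact RR.add_mem (RR.add_mem (RR.mul_mem (mem hα) hx) (RR.mul_mem hα (intCast_mem _ _)))
    (RR.mul_mem hβ hy)

lemma memA {ρ : ℤ} {P : QQ} (h : LR ρ P) : P.A ∈ RR := by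
  rw [show P.A = 15 * (P.A / 15) by ring]
  exact RR.mul_mem (ofNat_mem _ _) h.1

lemma gq_lin {d t ρ₁ ρ₂ : ℤ} {α β : ℚ} {P Q : QQ} (hd : D0 d) (ht : IsCoprime t 120)
    (hα : (α - t) / 120 ∈ RR) (hβ : β / 120 ∈ RR) (hP : LR ρ₁ P) (hQ : LR ρ₂ Q) :
    gq d (QQ.lin α P β Q) = K d t * gq d P := by
  obtain ⟨a, ha⟩ := rep (memA hP)
  obtain ⟨c, hc⟩ := rep hP.2.2
  rw [gq_eq hd ha hc, ← G_mul hd ht]
  exact gq_eq hd (lin_rep hα hβ ha (memA hQ)) (lin_rep hα hβ hc hQ.2.2)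

lemma lr_lin {t ρ₁ ρ₂ ρ : ℤ} {α β : ℚ} {P Q : QQ} (hα : (α - t) / 120 ∈ RR) (hβ : β / 120 ∈ RR)
    (hρ : 30 ∣ ρ - t * ρ₁) (hP : LR ρ₁ P) (hQ : LR ρ₂ Q) : LR ρ (QQ.lin α P β Q) := by
  have a1 := mem hα
  have b1 : β ∈ RR := mem (a := 0) (by simpa using hβ)
  obtain ⟨k, hk⟩ := hρ
  have hk' : (ρ : ℚ) = t * ρ₁ + 30 * k := by exact_mod_cast (by linarith : ρ = t * ρ₁ + 30 * k)
  refine ⟨?_, ?_, RR.add_mem (RR.mul_mem a1 hP.2.2) (RR.mul_mem b1 hQ.2.2)⟩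
  · rw [show (QQ.lin α P β Q).A / 15 = α * (P.A / 15) + β * (Q.A / 15) by simp only [QQ.lin]; ring]
    exact RR.add_mem (RR.mul_mem a1 hP.1) (RR.mul_mem b1 hQ.1)
  · rw [show ((QQ.lin α P β Q).B - ρ) / 30 = α * ((P.B - ρ₁) / 30) + β * ((Q.B - ρ₂) / 30) +
      (α - t) / 120 * (4 * ρ₁ : ℤ) + β / 120 * (4 * ρ₂ : ℤ) - k by
      simp only [QQ.lin, hk']; push_cast; ring]
    exact RR.sub_mem (RR.add_mem (RR.add_mem (RR.add_mem (RR.mul_mem a1 hP.2.1)
      (RR.mul_mem b1 hQ.2.1)) (RR.mul_mem hα (intCast_mem _ _))) (RR.mul_mem hβ (intCast_mem _ _)))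
      (intCast_mem _ _)

lemma lin_comm (a b : ℚ) (P Q : QQ) : QQ.lin a P b Q = QQ.lin b Q a P := by
  ext <;> simp only [QQ.lin] <;> ring

lemma inv_mem {α : ℚ} {t : ℤ} (hα : (α - t) / 120 ∈ RR) (ht : IsCoprime t 120) :
    α ≠ 0 ∧ α⁻¹ ∈ RR := by
  have k : ∀ p : ℕ, p.Prime → p ∣ 30 → ¬ (p : ℤ) ∣ α.num := fun p hp h1 h2 => by
    have h3 : (p : ℤ) ∣ 120 := by exact_mod_cast h1.trans (show 30 ∣ 120 by norm_num)
    have := Int.isUnit_iff_natAbs_eq.1 (ht.isUnit_of_dvd' ((dvd_iff hα h3).1 h2) h3)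
    exact hp.ne_one (by simpa using this)
  have h0 : α ≠ 0 := by
    rintro rfl
    exact k 2 Nat.prime_two (by norm_num) (by simp)
  refine ⟨h0, fun p hp h1 h2 => k p hp h2 ?_⟩
  rw [Rat.den_inv_of_ne_zero h0] at h1
  exact Int.natCast_dvd.2 h1

end DLC

open DLC in
theorem t_LC (_hKC : KC) : LC := by
  intro d ρ₁ ρ₂ ρ₁' ρ₂' t α β γ ε P Q hd ht hα hβ hγ hdet h1 h2
  have ht' : IsCoprime t 120 :=
    (ht.pow_right (n := 3)).of_isCoprime_of_dvd_right (by norm_num)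
  obtain ⟨s, v, hs⟩ := id ht'
  have hs' : (s : ℚ) * t + v * 120 = 1 := by exact_mod_cast hs
  have hsc : IsCoprime s 120 := ⟨t, v, by linear_combination hs⟩
  have b1 : β ∈ RR := mem (a := 0) (by simpa using hβ)
  have c1 : γ ∈ RR := mem (a := 0) (by simpa using hγ)
  obtain ⟨h0, hi⟩ := inv_mem hα ht'
  have e1 : ε ∈ RR := by
    rw [show ε = α⁻¹ * (1 + β * γ) by field_simp; linear_combination hdet]
    exact RR.mul_mem hi (RR.add_mem RR.one_mem (RR.mul_mem b1 c1))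
  have hε : (ε - s) / 120 ∈ RR := by
    rw [show (ε - s) / 120 = ε * v - s * ε * ((α - t) / 120) + s * γ * (β / 120) by
      linear_combination (s / 120) * hdet - (ε / 120) * hs']
    exact RR.add_mem (RR.sub_mem (RR.mul_mem e1 (intCast_mem _ _))
      (RR.mul_mem (RR.mul_mem (intCast_mem _ _) e1) hα))
      (RR.mul_mem (RR.mul_mem (intCast_mem _ _) c1) hβ)
  have inv : ∀ x y : ℤ, 30 ∣ x - t * y → 30 ∣ y - s * x := by
    rintro x y ⟨k, hk⟩
    exact ⟨4 * v * y - s * k, by linear_combination (-s) * hk - y * hs⟩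
  rw [lin_comm γ ε]
  refine ⟨⟨fun ⟨hP, hQ⟩ => ⟨lr_lin hα hβ h1 hP hQ, lr_lin hε hγ (inv _ _ h2) hQ hP⟩,
    fun ⟨hP, hQ⟩ => ⟨?_, ?_⟩⟩, fun hP hQ => ?_⟩
  · have := lr_lin (β := -β) hε (by rw [neg_div]; exact RR.neg_mem hβ) (inv _ _ h1) hP hQ
    convert this using 1
    ext <;> simp only [QQ.lin]
    · linear_combination (-P.A) * hdet
    · linear_combination (-P.B) * hdet
    · linear_combination (-P.C) * hdet
  · have := lr_lin (β := -γ) hα (by rw [neg_div]; exact RR.neg_mem hγ) h2 hQ hP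
    convert this using 1
    ext <;> simp only [QQ.lin]
    · linear_combination (-Q.A) * hdet
    · linear_combination (-Q.B) * hdet
    · linear_combination (-Q.C) * hdet
  · rw [gq_lin hd ht' hα hβ hP hQ, gq_lin hd hsc hε hγ hQ hP, mul_mul_mul_comm,
      K_mul hd ⟨-v, by linear_combination hs⟩, one_mul]

end Pool.Agent.P.MP_8b7eba_nt.R3
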