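import Pool.Agent.P.MP_8b7eba_nt.R3.IfD
import Pool.Agent.P.MP_8b7eba_nt.R1.Vf
import Pool.Agent.P.MP_8b7eba_nt.R1.DualA
import Pool.Agent.P.MP_8b7eba_nt.R1.AMain

/-! Proof of HSUM, LIMN and SQ. -/

namespace Pool.Agent.P.MP_8b7eba_nt.R3

open _root_.Pool.Agent.P.MP_8b7eba_nt.Mod (M2 G0 FI L0 om lv L0_ne om_ne)
open R1 (QF Hg Lv st VV Wt gg summable_VV Vf_fibre lv_cmp_iff)
open Filter Topology Finset
open scoped Real ComplexConjugate

theorem t_HSUM : HSUM := by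
  intro n ρ D R u w s hn hR hD h1 h2 hs hs'
  have key : ∀ P ∈ R, HasSum (fun B : ℤ =>
      ((∑ᶠ Q : QF, if P.pair Q = B then w Q else 0 : ℤ) : ℝ) * gg s (-B / √(n * D)))
      (VV w s P.tau) := by
    intro P hP
    have hg := hR P hP
    have hd : P.disc < 0 := by
      rw [hg.1.1]
      omega
    have h3 := (summable_VV hD h1 h2 hs hs'
      (QF.tau_im_pos hg.2 hd)).hasSum.tsum_fiberwise P.pair
    have e : (fun B : ℤ => ∑' Q : P.pair ⁻¹' {B},
        (w Q : ℝ) * gg s ((Q : QF).tt P.tau)) = fun B : ℤ =>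
        ((∑ᶠ Q : QF, if P.pair Q = B then w Q else 0 : ℤ) : ℝ) *
          gg s (-B / √(n * D)) := by
      funext B
      rw [Vf_fibre hg.2 hd h1, hg.1.1]
      simp only [Int.cast_neg, Int.cast_natCast, neg_neg]
    rw [e] at h3
    exact h3
  have h4 := hasSum_sum (s := R) fun P hP => (key P hP).mul_left (u P : ℝ)
  have e : (fun B : ℤ => (NS R u w B : ℝ) * gg s (-B / √(n * D))) = fun B : ℤ =>
      ∑ P ∈ R, (u P : ℝ) * (((∑ᶠ Q : QF, if P.pair Q = B then w Q else 0 : ℤ) : ℝ) *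
        gg s (-B / √(n * D))) := by
    funext B
    rw [NS, Int.cast_sum, Finset.sum_mul]
    refine Finset.sum_congr rfl fun c _ => ?_
    rw [Int.cast_mul, mul_assoc]
  rw [e]
  exact h4

theorem t_LIMN (hKC : KC) (hGINV : GINV) : LIMN := by
  intro d E ρ hd hE h0 hD
  have h1 : ∀ Q, wg (ds d * E) ρ d Q ≠ 0 → Q.disc = ds d * E := fun Q h =>
    (of_not_not fun e => h (if_neg e) : Lv (ds d * E) ρ Q).1
  have hw : Wt (ds d * E) (wg (ds d * E) ρ d) := by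
    refine ⟨h0, h1, fun Q => ?_, fun Q g hg => ?_,
      fun Q h => R1.dualA_ev_ne (h1 Q h ▸ hD) (Or.inl one_ne_zero)⟩
    · unfold wg
      split_ifs
      exacts [hKC.abs d Q, by simp]
    · unfold wg
      by_cases h : Lv (ds d * E) ρ Q
      · rw [if_pos h, if_pos (h.cmp hg), hGINV d E E 1 (Q.cmp g) Q g hd hE hE h.1 (h.cmp hg).1
          (by rw [hg.1, one_mul]; exact isCoprime_one_left) (by simp), hKC.one, one_mul]
      · rw [if_neg h, if_neg (mt (lv_cmp_iff hg).1 h)]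
  obtain ⟨α, β, h⟩ := R1.exists_dual hw hD
  exact ⟨α, β, fun T c z hz hc => R1.sum_lim hw (R1.vb_nonsq hD _) h T c z hz hc⟩

theorem t_SQ (hKC : KC) (hLZ : LZ) (hSQA : SQA) (hSQB : SQB) : SQ := by
  intro d₀ m h0 hm h1
  obtain ⟨α, β, ε, hε, hL, e⟩ : SqC (d₀ * st m) := by
    by_cases h : 3 ∣ d₀ → 5 ∣ d₀
    · exact hSQA d₀ m h0 hm h1 h
    · exact hSQB d₀ m h0 hm h1 (Classical.not_imp.1 h).1 (Classical.not_imp.1 h).2
  have hsq := (hKC.tw d₀ m h0 hm).1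
  have h2 : d₀ * st m ≠ 1 := fun h => by
    have := congrArg Int.natAbs h
    rw [Int.natAbs_mul, R1.natAbs_st] at this
    exact h1.ne' (Nat.eq_one_of_mul_eq_one_left this)
  have h3 := (hLZ _ hsq h2).2
  refine ⟨α, β, hL, ?_⟩
  have h4 : (ε : ℂ) ≠ 0 := Int.cast_ne_zero.2 hε
  have h5 : (L0 : ℂ) ≠ 0 := Complex.ofReal_ne_zero.2 L0_ne
  have h6 : (om : ℂ) ≠ 0 := Complex.ofReal_ne_zero.2 om_ne
  rw [e] at h3 ⊢
  simp only [map_mul, map_sub, map_intCast, map_ofNat, map_ratCast, Complex.conj_ofReal,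
    Complex.conj_I] at h3
  unfold cf
  split_ifs with h
  · rw [Int.sign_eq_one_of_pos h, Int.cast_one] at h3
    have : (ε : ℂ) * (2 * α * om * Complex.I) = 0 := by linear_combination 2⁻¹ * h3
    rw [mul_sub, this]
    simp [h4, h5]
  · rw [Int.sign_eq_neg_one_of_neg (lt_of_le_of_ne (not_lt.1 h) hsq.ne_zero), Int.cast_neg,
      Int.cast_one] at h3
    have : (ε : ℂ) * (4 * β * L0) = 0 := by linear_combination 2⁻¹ * h3
    rw [mul_sub, this]
    simp [h4, h6]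

end Pool.Agent.P.MP_8b7eba_nt.R3
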