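import Pool.Agent.P.MP_8b7eba_nt.R3.IfD

/-! Proof of LOC. -/

namespace Pool.Agent.P.MP_8b7eba_nt.R3

namespace DLOC

theorem gr {α β γ ε Δ₁ B Δ₂ Δ₁' B' Δ₂' : ℚ} (h : α * ε - β * γ = 1)
    (h1 : Δ₁' = α ^ 2 * Δ₁ + 2 * α * β * B + β ^ 2 * Δ₂)
    (h2 : B' = α * γ * Δ₁ + (α * ε + β * γ) * B + β * ε * Δ₂)
    (h3 : Δ₂' = γ ^ 2 * Δ₁ + 2 * γ * ε * B + ε ^ 2 * Δ₂) (P Q : QQ) :
    Gr Δ₁' B' Δ₂' (QQ.lin α P β Q, QQ.lin γ P ε Q) ↔ Gr Δ₁ B Δ₂ (P, Q) := by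
  have e1 : ∀ a b : ℚ, (QQ.lin a P b Q).disc =
      a ^ 2 * P.disc + 2 * a * b * P.pair Q + b ^ 2 * Q.disc := fun a b => by
    simp only [QQ.lin, QQ.disc, QQ.pair]
    ring
  have e2 : (QQ.lin α P β Q).pair (QQ.lin γ P ε Q) =
      α * γ * P.disc + (α * ε + β * γ) * P.pair Q + β * ε * Q.disc := by
    simp only [QQ.lin, QQ.disc, QQ.pair]
    ring
  simp only [Gr, e1, e2, h1, h2, h3]
  refine ⟨fun ⟨a, b, c⟩ => ⟨?_, ?_, ?_⟩, fun ⟨a, b, c⟩ => by rw [a, b, c]; exact ⟨rfl, rfl, rfl⟩⟩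
  · linear_combination ε ^ 2 * a - 2 * β * ε * b + β ^ 2 * c -
      (P.disc - Δ₁) * (α * ε - β * γ + 1) * h
  · linear_combination -γ * ε * a + (α * ε + β * γ) * b - α * β * c -
      (P.pair Q - B) * (α * ε - β * γ + 1) * h
  · linear_combination γ ^ 2 * a - 2 * α * γ * b + α ^ 2 * c -
      (Q.disc - Δ₂) * (α * ε - β * γ + 1) * h

/-- the linear change of the pair -/
def eq {α β γ ε : ℚ} (h : α * ε - β * γ = 1) : QQ × QQ ≃ QQ × QQ where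
  toFun x := (QQ.lin α x.1 β x.2, QQ.lin γ x.1 ε x.2)
  invFun y := (QQ.lin ε y.1 (-β) y.2, QQ.lin (-γ) y.1 α y.2)
  left_inv x := by
    ext <;> simp only [QQ.lin]
    exacts [by linear_combination x.1.A * h, by linear_combination x.1.B * h,
      by linear_combination x.1.C * h, by linear_combination x.2.A * h,
      by linear_combination x.2.B * h, by linear_combination x.2.C * h]
  right_inv x := by
    ext <;> simp only [QQ.lin]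
    exacts [by linear_combination x.1.A * h, by linear_combination x.1.B * h,
      by linear_combination x.1.C * h, by linear_combination x.2.A * h,
      by linear_combination x.2.B * h, by linear_combination x.2.C * h]

theorem inv_mem {n : ℤ} (h : IsCoprime n 30) : (n : ℚ)⁻¹ ∈ RR := fun p hp k e => by
  rw [Rat.inv_intCast_den] at k
  split_ifs at k
  · exact hp.not_dvd_one k
  · exact hp.one_lt.ne' (by
      simpa using Int.isUnit_iff_natAbs_eq.1 (h.isUnit_of_dvd' (Int.natCast_dvd.2 k)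
        (Int.natCast_dvd_natCast.2 e)))

end DLOC

theorem t_LOC (hCSE : CSE) (hEXI : EXI) (hAPX : APX) (hLC : LC) (hINV2 : INV2) : LOC := by
  intro d₀ E₁ E₂ E₁' E₂' B ρ₁ ρ₂ ρ₁' ρ₂' n₁ n₃ t hd m1 m2 hE hB e1 e2 c1 ct h120 hsq r1 r2
    ⟨x, hx⟩ ⟨x', hx'⟩
  have c3 : IsCoprime n₃ 30 := by
    obtain ⟨k, hk⟩ := h120
    rw [show n₃ = t ^ 2 * n₁ + 30 * (4 * k) by linear_combination hk]
    exact (IsCoprime.mul_left ct.pow_left c1).add_mul_left_left _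
  have z : ∀ {n : ℤ}, IsCoprime n 30 → (n : ℚ) ≠ 0 := fun c => Int.cast_ne_zero.2 fun e => by
    rw [e, isCoprime_zero_left, Int.isUnit_iff] at c
    omega
  have n1 := z c1
  have n3 := z c3
  have d0 : (ds d₀ : ℚ) ≠ 0 := Int.cast_ne_zero.2 (by
    have := hd.sq.ne_zero
    unfold ds
    split_ifs <;> omega)
  have E0 : (E₁ : ℚ) ≠ 0 := Int.cast_ne_zero.2 hE
  have f1 : (E₁' : ℚ) = n₃ / n₁ * E₁ := by
    have : (n₁ : ℚ) * E₁' = n₃ * E₁ := by exact_mod_cast e1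
    field_simp
    linear_combination this
  have f2 : (E₂' : ℚ) = n₁ / n₃ * E₂ := by
    have : (n₃ : ℚ) * E₂' = n₁ * E₂ := by exact_mod_cast e2
    field_simp
    linear_combination this
  obtain ⟨a₀, b₀, h0⟩ := hEXI _ _ _ _ _ x x' (mul_ne_zero d0 E0) (by exact_mod_cast hB)
    (by rw [f1, f2]; field_simp) hx hx'
  obtain ⟨a, b, t', h1, h2, h3, h4⟩ := hAPX (B ^ 2 - ds d₀ * E₁ * (ds d₀ * E₂)) a₀ b₀ n₁ n₃ t c1 ct
    h120 hsq (mul_right_cancel₀ (mul_ne_zero d0 E0) (by rw [h0, f1]; ring))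
  have h5 : (n₁ / n₃ : ℚ) * (a ^ 2 - (B ^ 2 - ds d₀ * E₁ * (ds d₀ * E₂)) * b ^ 2) = 1 := by
    rw [h1]
    field_simp
  have hdet : (a + b * B) * ((a - b * B) * (n₁ / n₃)) -
      -b * (ds d₀ * E₁) * (b * (ds d₀ * E₂) * (n₁ / n₃)) = 1 := by linear_combination h5
  have ct' : IsCoprime t' 30 := by
    obtain ⟨k, hk⟩ := h2
    rw [show t' = t + 30 * k by linear_combination hk]
    exact ct.add_mul_left_left _
  have key := hCSE GM (QQ × QQ) H1 (DLOC.eq hdet) _ 1 (fun g x => Prod.ext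
    (QQ.smul_lin g _ _ _ _).symm (QQ.smul_lin g _ _ _ _).symm)
    (hINV2 E₁' E₂' ρ₁' ρ₂' d₀ B hd m1 m2)
  rw [one_mul] at key
  rw [← key]
  congr 1
  funext ⟨P, Q⟩
  obtain ⟨l1, l2⟩ := hLC d₀ ρ₁ ρ₂ ρ₁' ρ₂' t' _ _ _ _ P Q hd ct'
    (by
      rw [show (a + b * B - t') / 120 = (a - t') / 120 + b / 120 * B by ring]
      exact add_mem h3 (mul_mem h4 (intCast_mem _ _)))
    (by
      rw [show -b * (ds d₀ * E₁) / 120 = b / 120 * (-(ds d₀ * E₁) : ℤ) by push_cast; ring]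
      exact mul_mem h4 (intCast_mem _ _))
    (by
      rw [show b * (ds d₀ * E₂) * (n₁ / n₃) / 120 =
        b / 120 * (ds d₀ * E₂ * n₁ : ℤ) * (n₃ : ℚ)⁻¹ by push_cast; ring]
      exact mul_mem (mul_mem h4 (intCast_mem _ _)) (DLOC.inv_mem c3))
    hdet
    (by
      rw [show ρ₁' - t' * ρ₁ = ρ₁' - t * ρ₁ - (t' - t) * ρ₁ by ring]
      exact dvd_sub r1 (h2.mul_right _))
    (by
      rw [show ρ₂ - t' * ρ₂' = ρ₂ - t * ρ₂' - (t' - t) * ρ₂' by ring]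
      exact dvd_sub r2 (h2.mul_right _))
  have l3 := DLOC.gr (Δ₁ := ds d₀ * E₁) (B := B) (Δ₂ := ds d₀ * E₂) (Δ₁' := ds d₀ * E₁') (B' := B)
    (Δ₂' := ds d₀ * E₂') hdet (by rw [f1, ← h1]; ring) (by linear_combination -B * h5)
    (by rw [f2]; linear_combination -(ds d₀ * E₂ * (n₁ / n₃)) * h5) P Q
  rw [one_mul]
  change W2 _ _ _ _ _ _ (P, Q) = W2 _ _ _ _ _ _ (QQ.lin _ P _ Q, QQ.lin _ P _ Q)
  unfold W2
  by_cases h : Gr (ds d₀ * E₁) B (ds d₀ * E₂) (P, Q) ∧ LR ρ₁ P ∧ LR ρ₂ Q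
  · rw [if_pos h, if_pos ⟨l3.2 h.1, l1.1 h.2⟩]
    exact (l2 h.2.1 h.2.2).symm
  · rw [if_neg h, if_neg fun e => h ⟨l3.1 e.1, l1.2 e.2⟩]

end Pool.Agent.P.MP_8b7eba_nt.R3
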