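import Pool.Agent.P.MP_8b7eba_nt.R3.IfD

/-! Proof of LZ. -/

namespace Pool.Agent.P.MP_8b7eba_nt.R3

open _root_.Pool.Agent.P.MP_8b7eba_nt.Mod (M2 G0 FI L0 om lv)
open R1 (QF Hg Lv st Rq uu VV lf wf cnt Wt VB Dual gg dualB_F dualB_M)
open BSD15 (Adm Prim dt)
open Filter Topology Finset
open scoped Real ComplexConjugate

namespace DLZ

theorem lv_rel {d n c c' : ℤ} (hn : n ≠ 0) (hd : d ∣ n) (h : n ∣ el d * c * c' + 1) :
    lv c n = -(es d * lv c' n) := by
  obtain ⟨y, hy⟩ := h
  have e1 : el d * c * c' + -y * n = -1 := by linarith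
  have e2 : el d * n * c' + el d * -c' * n = 0 := by ring
  have e3 : (M2.mk (el d * c) (-y) (el d * n) (el d * -c')).det = el d := by
    simp only [Mod.M2.det]
    linear_combination (-el d) * hy
  have hw : (15 : ℤ) ∣ el d * n → Mod.AL (el d) ⟨el d * c, -y, el d * n, el d * -c'⟩ :=
    fun h => ⟨e3, h, dvd_mul_right _ _, dvd_mul_right _ _⟩
  by_cases h3 : 3 ∣ d <;> by_cases h5 : 5 ∣ d
  · have he : el d = 1 := by simp [el, h3, h5]
    have h15 : (15 : ℤ) ∣ el d * n := by
      have := h3.trans hd; have := h5.trans hd; rw [he]; omega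
    have := Mod.lv_G0 (γ := ⟨el d * c, -y, el d * n, el d * -c'⟩) ⟨e3.trans he, h15⟩ (a := c')
      (.inr hn)
    simp only [e1, e2, Mod.lv_zero, Mod.lv_mul (he ▸ one_ne_zero : el d ≠ 0)] at this
    simp only [es, h5, if_true]
    push_cast
    linear_combination -this
  · have he : el d = 5 := by simp [el, h3, h5]
    have h15 : (15 : ℤ) ∣ el d * n := by
      have := h3.trans hd; rw [he]; omega
    have := Mod.lv_AL5 (w := ⟨el d * c, -y, el d * n, el d * -c'⟩) (he ▸ hw h15) (a := c') (.inr hn)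
    simp only [e1, e2, Mod.lv_zero, Mod.lv_mul (by omega : el d ≠ 0)] at this
    simp only [es, h5, if_false]
    push_cast
    linear_combination -this
  · have he : el d = 3 := by simp [el, h3, h5]
    have h15 : (15 : ℤ) ∣ el d * n := by
      have := h5.trans hd; rw [he]; omega
    have := Mod.lv_AL3 (w := ⟨el d * c, -y, el d * n, el d * -c'⟩) (he ▸ hw h15) (a := c') (.inr hn)
    simp only [e1, e2, Mod.lv_zero, Mod.lv_mul (by omega : el d ≠ 0)] at this
    simp only [es, h5, if_true]
    push_cast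
    linear_combination -this
  · have he : el d = 15 := by simp [el, h3, h5]
    have h15 : (15 : ℤ) ∣ el d * n := by rw [he]; omega
    have := Mod.lv_AL15 (w := ⟨el d * c, -y, el d * n, el d * -c'⟩) (he ▸ hw h15) (a := c') (.inr hn)
    simp only [e1, e2, Mod.lv_zero, Mod.lv_mul (by omega : el d ≠ 0)] at this
    simp only [es, h5, if_false]
    push_cast
    linear_combination -this

theorem sum_zmod (n : ℕ) [NeZero n] (F : ℕ → ℂ) :
    ∑ a ∈ range n, F a = ∑ x : ZMod n, F x.val :=
  sum_bij' (fun a _ => (a : ZMod n)) (fun x _ => x.val) (fun _ _ => mem_univ _)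
    (fun x _ => mem_range.2 (ZMod.val_lt x)) (fun a ha => ZMod.val_cast_of_lt (mem_range.1 ha))
    (fun x _ => ZMod.natCast_zmod_val x) fun a ha => by
      rw [ZMod.val_cast_of_lt (mem_range.1 ha)]

end DLZ

theorem t_LZ (hKC : KC) : LZ := by
  classical
  intro d hd _
  have d0 : d ≠ 0 := hd.ne_zero
  have hds : d ∣ ds d := by
    unfold ds
    split_ifs
    exacts [dvd_rfl, dvd_mul_left _ _]
  have hn : ((cd d : ℕ) : ℤ) = |ds d| := Int.natCast_natAbs _
  have n0 : cd d ≠ 0 := by
    unfold cd ds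
    split_ifs <;> omega
  have : NeZero (cd d) := ⟨n0⟩
  have per : ∀ a b : ℤ, (a : ZMod (cd d)) = b → kc d a = kc d b ∧ (cd d : ℤ) ∣ a - b := by
    intro a b h
    have h1 : (cd d : ℤ) ∣ a - b := by
      rw [← ZMod.intCast_zmod_eq_zero_iff_dvd]
      push_cast
      exact sub_eq_zero.2 h
    exact ⟨hKC.per d a b hd ((abs_dvd _ _).1 (hn ▸ h1)), h1⟩
  have hL : Lam d = ∑ x : ZMod (cd d), (kc d x.val : ℂ) * lv x.val (cd d) :=
    DLZ.sum_zmod (cd d) fun c => (kc d c : ℂ) * lv c (cd d)
  have unit : ∀ a : ℤ, IsUnit (a : ZMod (cd d)) ↔ IsCoprime a (ds d) := fun a => by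
    rw [ZMod.coe_int_isUnit_iff_isCoprime, hn, IsCoprime.abs_left_iff, isCoprime_comm]
  obtain ⟨r1, r2⟩ := hKC.root d hd
  constructor
  · have hu : IsUnit (-(el d : ZMod (cd d))) := ((unit _).2 r2).neg
    have h6 : ∀ x : ZMod (cd d), IsUnit x → -(el d : ZMod (cd d)) * x * (-el d * x)⁻¹ = 1 :=
      fun x hx => ZMod.mul_inv_of_unit _ (hu.mul hx)
    have hi : Function.Involutive fun x : ZMod (cd d) =>
        if IsUnit x then (-(el d : ZMod (cd d)) * x)⁻¹ else x := fun x => by
      by_cases hx : IsUnit x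
      · simp only [if_pos hx, if_pos (IsUnit.of_mul_eq_one_right _ (h6 x hx))]
        exact ZMod.inv_eq_of_mul_eq_one _ _ _ (by linear_combination h6 x hx)
      · simp [hx]
    rw [hL, mul_sum, ← Equiv.sum_comp hi.toPerm]
    refine sum_congr rfl fun x _ => ?_
    rw [Function.Involutive.coe_toPerm]
    by_cases hx : IsUnit x
    · simp only [if_pos hx]
      generalize hy : (-(el d : ZMod (cd d)) * x)⁻¹ = y
      have h7 : -(el d : ZMod (cd d)) * x * y = 1 := hy ▸ h6 x hx
      have h8 := (per (-el d * (x.val * y.val)) 1 (by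
        push_cast
        rw [ZMod.natCast_zmod_val, ZMod.natCast_zmod_val]
        linear_combination h7)).1
      have h9 := (per (el d * y.val * x.val) (-1) (by
        push_cast
        rw [ZMod.natCast_zmod_val, ZMod.natCast_zmod_val]
        linear_combination -h7)).2
      rw [hKC.mul, hKC.mul, hKC.one] at h8
      have h10 : kc d y.val = kc d (-el d) * kc d x.val := by
        rw [← mul_assoc] at h8
        rcases Int.eq_one_or_neg_one_of_mul_eq_one' h8 with h | h <;> omega
      rw [DLZ.lv_rel (by exact_mod_cast n0) (hn ▸ (dvd_abs _ _).2 hds) (sub_neg_eq_add _ (1 : ℤ) ▸ h9),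
        h10, r1]
      push_cast
      ring
    · have : kc d x.val = 0 := ((hKC.tri d x.val hd).resolve_left fun h => hx (by
        simpa using (unit _).2 h.1)).2
      simp only [if_neg hx, this, Int.cast_zero, zero_mul, mul_zero]
  · rw [hL, mul_sum, map_sum, ← Equiv.sum_comp (Equiv.neg _)]
    refine sum_congr rfl fun x _ => ?_
    obtain ⟨h1, k, h2⟩ := per ((-x).val) (-1 * x.val) (by simp)
    have h3 : lv (-x).val (cd d) = conj (lv x.val (cd d)) := by
      rw [← Mod.lv_neg, ← Mod.lv_add_mul (-(x.val : ℤ)) (cd d) k]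
      congr 1
      linarith
    rw [Equiv.neg_apply, h1, h3, hKC.mul, hKC.neg d hd]
    simp [mul_assoc]

end Pool.Agent.P.MP_8b7eba_nt.R3
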