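import Pool.Agent.P.MP_8b7eba_nt.R3.IfD
import Pool.Agent.P.MP_8b7eba_nt.R1.FormC

/-! Proof of NFAC, POS. -/

namespace Pool.Agent.P.MP_8b7eba_nt.R3

open _root_.Pool.Agent.P.MP_8b7eba_nt.Mod (M2 G0 FI L0 om lv)
open R1 (QF Hg Lv st Rq uu VV lf wf cnt Wt VB Dual gg dualB_F dualB_M)
open BSD15 (Adm Prim dt)
open Filter Topology Finset
open scoped Real ComplexConjugate

namespace DNFAC

theorem wg_cmp (hKC : KC) (hG : GINV) {d E ρ : ℤ} (hd : Squarefree d) (hE : M4 E) (P : QF)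
    {g : M2} (hg : G0 g) : wg (ds d * E) ρ d (P.cmp g) = wg (ds d * E) ρ d P := by
  unfold wg
  by_cases h : Lv (ds d * E) ρ P
  · have h' := (R1.lv_cmp_iff hg).2 h
    rw [if_pos h, if_pos h', hG d E E 1 (P.cmp g) P g hd hE hE h.1 h'.1
      (by rw [hg.1, one_mul]; exact isCoprime_one_left) (by ext <;> simp), hKC.one, one_mul]
  · rw [if_neg h, if_neg (mt (R1.lv_cmp_iff hg).1 h)]

theorem wg_mir (hKC : KC) (hG : GINV) {d E ρ : ℤ} (hd : Squarefree d) (hE : M4 E) (P : QF) :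
    wg (ds d * E) ρ d P = d.sign * wg (ds d * E) ρ d P.mir := by
  unfold wg
  by_cases h : Lv (ds d * E) ρ P
  · have h' := (R1.formC_lv _ _ _).2 h
    rw [if_pos h, if_pos h', hG d E E (-1) P.mir P ⟨1, 0, 0, -1⟩ hd hE hE h.1 h'.1
      (by simp [M2.det, isCoprime_one_left]) (by ext <;> simp [QF.cmp, QF.ev, QF.mir]),
      hKC.neg d hd]
  · rw [if_neg h, if_neg (mt (R1.formC_lv _ _ _).1 h), mul_zero]

theorem scal (A : Subring ℚ) (N : ℕ) {g : GM} (hb : g.b = 0) (hc : g.c = 0) (hd : g.a = g.d) :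
    g ∈ KK A N := by
  have h := g.ne
  rw [hb, hc, ← hd] at h
  have ha : g.a ≠ 0 := fun e => h (by simp [e])
  refine ⟨g.a⁻¹, ?_, ⟨0, A.zero_mem, by simp [hb]⟩, by simp [hc], ?_, 1, A.one_mem, ?_⟩
  · rw [inv_mul_cancel₀ ha]; exact A.one_mem
  · rw [← hd, inv_mul_cancel₀ ha]; exact A.one_mem
  · rw [GM.det, hb, hc, ← hd]; field_simp; ring

theorem odd_adm {m : ℕ} (h : Adm m) : Odd m := by
  have : m.Coprime 2 := Nat.Coprime.coprime_dvd_right (by norm_num) h.2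
  exact Nat.coprime_two_right.1 this

theorem m4_st {m : ℕ} (h : Adm m) {E : ℤ} (hE : M4 E) : M4 (st m * E) := by
  have := R1.st_emod (odd_adm h)
  unfold M4 at *
  rw [Int.mul_emod, this]
  rcases hE with e | e <;> simp [e]

theorem st_eq (m : ℕ) : ∃ e : ℤ, st m = m * e := by
  unfold R1.st
  split_ifs
  exacts [⟨1, by ring⟩, ⟨-1, by ring⟩]

theorem m4_disc (Q : QF) : M4 Q.disc := by
  unfold M4 QF.disc
  rcases Int.even_or_odd' Q.B with ⟨k, h | h⟩ <;> rw [h]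
  · left
    rw [show (2 * k) ^ 2 - 4 * Q.A * Q.C = 4 * (k ^ 2 - Q.A * Q.C) by ring]
    simp
  · right
    rw [show (2 * k + 1) ^ 2 - 4 * Q.A * Q.C = 1 + 4 * (k ^ 2 + k - Q.A * Q.C) by ring]
    simp

theorem core (hKC : KC) (hG : GINV) (hFAC : FAC) (hHH : HH) (hTRF : TRF) (hINV1 : INV1)
    (hINV2 : INV2) (hWFAC : WFAC) (hR1X : R1X) {d₀ E₁ E₂ ρ₁ ρ₂ B Δ : ℤ} {m₁ m₃ N : ℕ}
    {S : Finset QF} (h0 : D0 d₀) (a1 : Adm m₁) (a3 : Adm m₃) (hs : Sq120 (m₁ * m₃)) (e1 : M4 E₁)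
    (e2 : M4 E₂) (hN : 0 < N) (hN' : -(N : ℤ) = ds (d₀ * st m₁) * E₁)
    (hΔ : Δ = ds (d₀ * st m₃) * E₂) (hp : 0 < Δ) (hS : Rs N ρ₁ (wg (-N) ρ₁ (d₀ * st m₁)) S) :
    NS S (wg (-N) ρ₁ (d₀ * st m₁)) (wg Δ ρ₂ (d₀ * st m₃)) B =
      cs H2 (W1 (-N) B Δ m₁ m₃) * cs H1 (W2 (-N) B Δ ρ₁ ρ₂ d₀) ∧
    ((∃ x, W1 (-N) B Δ m₁ m₃ x ≠ 0 ∧ W2 (-N) B Δ ρ₁ ρ₂ d₀ x ≠ 0) →
      (∀ x, 0 ≤ W2 (-N) B Δ ρ₁ ρ₂ d₀ x) → cs H1 (W2 (-N) B Δ ρ₁ ρ₂ d₀) ≠ 0) := by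
  obtain ⟨s1, -, -, t1, -⟩ := hKC.tw d₀ m₁ h0 a1
  obtain ⟨s3, -, -, t3, -⟩ := hKC.tw d₀ m₃ h0 a3
  have hsg : (d₀ * st m₁).sign * (d₀ * st m₃).sign = 1 := by
    have h1 : st m₁ * st m₃ = m₁ * m₃ := by
      rw [← R1.st_mul (odd_adm a1) (odd_adm a3), R1.st, if_pos, Nat.cast_mul]
      have := hs.1
      rw [← Nat.cast_mul] at this
      omega
    have h2 : (0 : ℤ) < m₁ * m₃ := by
      have := hs.1
      have : (0 : ℤ) ≤ m₁ * m₃ := by positivity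
      omega
    rw [← Int.sign_mul, Int.sign_eq_one_iff_pos,
      show d₀ * st m₁ * (d₀ * st m₃) = d₀ ^ 2 * (st m₁ * st m₃) by ring, h1]
    have := h0.sq.ne_zero
    positivity
  obtain ⟨r1, r2⟩ := hR1X N ρ₁ Δ B S (wg (-N) ρ₁ (d₀ * st m₁)) (wg Δ ρ₂ (d₀ * st m₃)) hN hS
    (fun P h => by by_contra c; exact h (if_neg c))
    (fun Q h => by by_contra c; exact h (if_neg fun e => c e.1))
    (fun P g hg => by rw [hN']; exact wg_cmp hKC hG s1 e1 P hg)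
    (fun P g hg => by rw [hΔ]; exact wg_cmp hKC hG s3 e2 P hg)
    (fun P Q => by
      rw [hN', hΔ, wg_mir hKC hG s1 e1 P, wg_mir hKC hG s3 e2 Q]
      linear_combination (-(wg (ds (d₀ * st m₁) * E₁) ρ₁ (d₀ * st m₁) P.mir *
        wg (ds (d₀ * st m₃) * E₂) ρ₂ (d₀ * st m₃) Q.mir)) * hsg)
  have hw := hWFAC (-N) B Δ ρ₁ ρ₂ d₀ m₁ m₃ h0 a1 a3
  rw [Int.cast_neg, Int.cast_natCast] at hw
  rw [hw] at r1 r2
  have hN0 : (0 : ℚ) < N := by exact_mod_cast hN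
  have hp0 : (0 : ℚ) < Δ := by exact_mod_cast hp
  have n1 : -(N : ℚ) ≠ 0 := by linarith
  have n2 : (B : ℚ) ^ 2 ≠ -(N : ℚ) * Δ := by nlinarith [sq_nonneg (B : ℚ), mul_pos hN0 hp0]
  obtain ⟨ε₁, k1⟩ := st_eq m₁
  obtain ⟨ε₃, k3⟩ := st_eq m₃
  have i1 := hINV1 (ε₁ * ds d₀ * E₁) (ε₃ * ds d₀ * E₂) B m₁ m₃ a1 a3 hs
  have i2 := hINV2 (st m₁ * E₁) (st m₃ * E₂) ρ₁ ρ₂ d₀ B h0 (m4_st a1 e1) (m4_st a3 e2)
  have c1 : (m₁ : ℚ) * (ε₁ * ds d₀ * E₁ : ℤ) = -N := by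
    have : (m₁ : ℤ) * (ε₁ * ds d₀ * E₁) = -N := by rw [hN', t1, k1]; ring
    exact_mod_cast this
  have c2 : (m₃ : ℚ) * (ε₃ * ds d₀ * E₂ : ℤ) = Δ := by
    have : (m₃ : ℤ) * (ε₃ * ds d₀ * E₂) = Δ := by rw [hΔ, t3, k3]; ring
    exact_mod_cast this
  have c3 : (ds d₀ : ℚ) * (st m₁ * E₁ : ℤ) = -N := by
    have : ds d₀ * (st m₁ * E₁) = -N := by rw [hN', t1]; ring
    exact_mod_cast this
  have c4 : (ds d₀ : ℚ) * (st m₃ * E₂ : ℤ) = Δ := by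
    have : ds d₀ * (st m₃ * E₂) = Δ := by rw [hΔ, t3]; ring
    exact_mod_cast this
  rw [c1, c2] at i1
  rw [c3, c4] at i2
  obtain ⟨f1, f2⟩ := hFAC GM (QQ × QQ) H1 H2 (Gr (-N) B Δ) (W1 (-N) B Δ m₁ m₃)
    (W2 (-N) B Δ ρ₁ ρ₂ d₀) hHH (fun x y hx hy => (hTRF _ _ _ x n1 n2 hx).1 y hy)
    (fun x g hx h => by
      obtain ⟨hb, hc, hd⟩ := (hTRF _ _ _ x n1 n2 hx).2 g h
      exact ⟨scal _ _ hb hc hd, scal _ _ hb hc hd⟩)
    (fun x g hx => ⟨(QQ.disc_smul g _).trans hx.1, (QQ.pair_smul g _ _).trans hx.2.1,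
      (QQ.disc_smul g _).trans hx.2.2⟩)
    (fun x h => by by_contra c; exact h (if_neg fun e => c e.1))
    (fun x h => by by_contra c; exact h (if_neg fun e => c e.1)) i1 i2
  exact ⟨r1.trans f1, f2 r2⟩

theorem gq_one (Q : QQ) : gq 1 Q = 1 := by
  have h1 : od 1 = 1 := by decide
  have h2 : e2 1 = 1 := by decide
  simp [gq, h1, h2, ch2q, c2q, c2, pq]

theorem lr_toQ {D ρ : ℤ} {P : QF} (h : Lv D ρ P) : LR ρ (toQ P) := by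
  obtain ⟨-, ⟨a, ha⟩, b, hb⟩ := h
  refine ⟨?_, ?_, intCast_mem _ _⟩
  · rw [show (toQ P).A / 15 = (a : ℤ) by simp [toQ, ha]]
    exact intCast_mem _ _
  · rw [show ((toQ P).B - ρ) / 30 = (b : ℤ) by
      rw [toQ, ← Int.cast_sub, hb]; push_cast; ring]
    exact intCast_mem _ _

end DNFAC

theorem t_NFAC (hKC : KC) (hGINV : GINV) (hRSX : RSX) (hFAC : FAC) (hHH : HH) (hTRF : TRF) (hINV1 : INV1) (hINV2 : INV2) (hWFAC : WFAC) (hR1X : R1X) : NFAC := by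
  intro d₀ E₁ E₂ ρ₁ ρ₂ B m₁ m₃ N S h0 a1 a3 hs e1 e2 hN hN' hp hS
  exact (DNFAC.core hKC hGINV hFAC hHH hTRF hINV1 hINV2 hWFAC hR1X h0 a1 a3 hs e1 e2 hN hN' rfl hp
    hS).1

theorem t_POS (hKC : KC) (hGINV : GINV) (hRSX : RSX) (hFAC : FAC) (hHH : HH) (hTRF : TRF) (hINV1 : INV1) (hINV2 : INV2) (hWFAC : WFAC) (hR1X : R1X) : POS := by
  intro N F x ρ₁ ρ₂ D B P Q hF hN hx hD hB hP hQ
  obtain ⟨S, hS⟩ := hRSX N F x ρ₁ hF hN hx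
  have a1 : Adm 1 := ⟨squarefree_one, by norm_num⟩
  have d1 : ds (1 * st 1) = 1 := by decide
  have hN0 : 0 < N := by
    rw [hN]
    exact Nat.mul_pos (by positivity) (by omega)
  have hG : Gr (-N) B D (toQ P, toQ Q) := by
    refine ⟨?_, ?_, ?_⟩
    · have := hP.1
      unfold QF.disc at this
      simp only [QQ.disc, toQ]
      exact_mod_cast this
    · unfold QF.pair at hB
      simp only [QQ.pair, toQ]
      exact_mod_cast hB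
    · have := hQ.1
      unfold QF.disc at this
      simp only [QQ.disc, toQ]
      exact_mod_cast this
  have hI : ∀ R : QF, In SS (toQ R) := fun R => ⟨intCast_mem _ _, intCast_mem _ _, intCast_mem _ _⟩
  refine (DNFAC.core hKC hGINV hFAC hHH hTRF hINV1 hINV2 hWFAC hR1X (E₁ := -N) (E₂ := D)
    (B := B) (ρ₂ := ρ₂) ⟨squarefree_one, one_dvd _⟩ a1 a1 (by simp [Sq120])
    (hP.1 ▸ DNFAC.m4_disc P) (hQ.1 ▸ DNFAC.m4_disc Q) hN0 (by rw [d1, one_mul])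
    (by rw [d1, one_mul]) hD (hS _)).2 ⟨(toQ P, toQ Q), ?_, ?_⟩ fun y => ?_
  · rw [W1, if_pos ⟨hG, hI P, hI Q⟩]
    simp [pq]
  · rw [W2, if_pos ⟨hG, DNFAC.lr_toQ hP, DNFAC.lr_toQ hQ⟩, DNFAC.gq_one, DNFAC.gq_one]
    simp
  · rw [W2, DNFAC.gq_one, DNFAC.gq_one]
    split_ifs <;> simp

end Pool.Agent.P.MP_8b7eba_nt.R3
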