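import Pool.Agent.P.MP_8b7eba_nt.R3.IfD
import Pool.Agent.P.MP_8b7eba_nt.R1.NPr

/-! Proof of NPR. -/

namespace Pool.Agent.P.MP_8b7eba_nt.R3

open _root_.Pool.Agent.P.MP_8b7eba_nt.Mod (M2 G0 FI L0 om lv)
open R1 (QF Hg Lv st Rq uu VV lf wf cnt Wt VB Dual gg dualB_F dualB_M)
open BSD15 (Adm Prim dt)
open Filter Topology Finset
open scoped Real ComplexConjugate

namespace DNPR

open R1 (HD hq NN hq_spec exists_ht cls_cmp stab gch_eq_chip)
open BSD15 (OO Good cls gJ XJ)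

theorem cop {m₁ m₂ m₃ : ℕ} (h : Tri m₁ m₂ m₃) : (m₁ * m₂).Coprime m₃ := by
  refine Nat.coprime_of_dvd' fun p hp h1 h2 => ?_
  have h3 := h.inert p hp h2
  have h4 : (p : ℤ) ∣ -((m₁ : ℤ) * m₂) := by
    rw [dvd_neg]; exact_mod_cast h1
  have : NeZero p := ⟨hp.ne_zero⟩
  have h5 : jacobiSym (-((m₁ : ℤ) * m₂)) p = 0 := by
    rw [jacobiSym.eq_zero_iff_not_coprime]
    intro h6
    have h7 : IsCoprime (-((m₁ : ℤ) * m₂)) (p : ℤ) := Int.isCoprime_iff_gcd_eq_one.2 h6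
    exact (Nat.prime_iff_prime_int.1 hp).not_isUnit (h7.isUnit_of_dvd' h4 dvd_rfl)
  rw [h5] at h3
  exact absurd h3 (by norm_num)

theorem inj {n : ℕ} [Good n] {ρ : ℤ} (hd : HD n ρ) : Function.Injective (hq n ρ) :=
  fun c c' h => by rw [← (hq_spec hd c).2.1, h, (hq_spec hd c').2.1]

theorem rs {n : ℕ} [Good n] {ρ : ℤ} (hd : HD n ρ) (u : QF → ℤ) :
    Rs n ρ u (univ.image (hq n ρ)) := by
  refine ⟨fun P hP => ?_, fun Q hQ _ => ?_, fun P hP g hg hP' => ?_⟩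
  · obtain ⟨c, -, rfl⟩ := mem_image.1 hP
    exact (hq_spec hd c).1
  · obtain ⟨g, hg, e, -⟩ := exists_ht hd hQ
    exact ⟨g, hg, mem_image.2 ⟨_, mem_univ _, e.symm⟩⟩
  · obtain ⟨c, -, rfl⟩ := mem_image.1 hP
    obtain ⟨c', -, e⟩ := mem_image.1 hP'
    have h1 := (hq_spec hd c).1.1.1
    have h2 : c' = c := by
      rw [← (hq_spec hd c').2.1, e, cls_cmp h1 hg.1, (hq_spec hd c).2.1]
    rw [h2] at e
    exact stab h1 hg.1 e.symm

theorem gJ_hq {n m : ℕ} [Good n] {ρ : ℤ} (hd : HD n ρ) (hm : m ∣ n) (c : ClassGroup (OO n)) :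
    gJ m.primeFactors c = ∏ p ∈ m.primeFactors, (hq n ρ c).chip p := by
  obtain ⟨g1, g2, -⟩ := hq_spec hd c
  rw [gJ]
  refine prod_congr rfl fun p hp => ?_
  rw [← gch_eq_chip (Nat.primeFactors_mono hm (inferInstance : Good n).sq.ne_zero hp) g1.1.1 g1.2,
    g2]

theorem ns {n m : ℕ} [Good n] {ρ : ℤ} (hd : HD n ρ) (hm : m ∣ n) (w : QF → ℤ) (B : ℤ) :
    NS (univ.image (hq n ρ)) (wf (-n) ρ m) w B = NN n ρ m.primeFactors w B := by
  rw [NS, sum_image fun c _ c' _ h => inj hd h, NN]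
  refine sum_congr rfl fun c _ => ?_
  rw [gJ_hq hd hm, wf, if_pos (hq_spec hd c).1.1]

end DNPR

open R1 (HD hq NN hq_spec NN_cnt NPr_facts NPr_syz NPr_flip NPr_wf wf_cmp) in
open BSD15 (Good gJ XJ) in
theorem t_NPR (hSWP : SWP) : NPR := by
  intro m₁ m₂ m₃ F M B ρ hT hF hF' hB hρ hM
  have hc := DNPR.cop hT
  have hc1 : m₁.Coprime m₃ := Nat.Coprime.coprime_mul_right hc
  have hc2 : m₂.Coprime m₃ := Nat.Coprime.coprime_mul_left hc
  have h13 : Adm (m₁ * m₃) :=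
    ⟨(Nat.squarefree_mul hc1).2 ⟨hT.a1.1, hT.a3.1⟩, Nat.Coprime.mul_left hT.a1.2 hT.a3.2⟩
  have h23 : Adm (m₂ * m₃) :=
    ⟨(Nat.squarefree_mul hc2).2 ⟨hT.a2.1, hT.a3.1⟩, Nat.Coprime.mul_left hT.a2.2 hT.a3.2⟩
  have hF0 : F ≠ 0 := by
    rintro rfl
    exact absurd (hF' 7 (by norm_num) (dvd_zero _)) (by norm_num)
  obtain ⟨n, hn⟩ : ∃ n, n = m₂ * m₃ := ⟨_, rfl⟩
  have hn' : (m₂ : ℤ) * m₃ = n := by rw [hn]; push_cast; rfl
  rw [← hn] at h23 ⊢
  rw [hn'] at hρ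
  have ho : n % 2 = 1 := by
    have := Nat.Coprime.coprime_dvd_right (show 2 ∣ 30 by norm_num) h23.2
    exact Nat.odd_iff.1 (Nat.coprime_two_right.1 this)
  have hn4 : n % 4 = 3 := by
    have h4 : (4 : ℤ) ∣ ρ ^ 2 + n := (show (4 : ℤ) ∣ 60 by norm_num).trans hρ
    obtain ⟨k, hk⟩ : ∃ k : ℤ, ρ ^ 2 = 4 * k ∨ ρ ^ 2 = 4 * k + 1 := by
      rcases Int.even_or_odd' ρ with ⟨j, rfl | rfl⟩
      · exact ⟨j ^ 2, Or.inl (by ring)⟩
      · exact ⟨j ^ 2 + j, Or.inr (by ring)⟩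
    omega
  have hn3 : n ≠ 3 := by
    rintro rfl
    exact absurd h23.2 (by norm_num)
  have : Good n := ⟨h23.1, hn4, by omega⟩
  have hd : HD n ρ := ⟨Nat.Coprime.coprime_dvd_right (show 15 ∣ 30 by norm_num) h23.2, hρ⟩
  have hb1 : m₃ ∣ n := hn ▸ dvd_mul_left _ _
  have hn0 : n ≠ 0 := h23.1.ne_zero
  refine ⟨_, DNPR.rs hd _, ?_⟩
  rw [DNPR.ns hd hb1]
  by_cases hcop : IsCoprime B m₃
  · have hD : (0 : ℤ) < (F : ℤ) ^ 2 * (m₁ * m₃) := by
      have h1 := Nat.pos_of_ne_zero h13.1.ne_zero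
      have h2 := Nat.pos_of_ne_zero hF0
      have h3 : (0 : ℤ) < (m₁ : ℤ) * m₃ := by exact_mod_cast h1
      positivity
    have h2 : (60 : ℤ) ∣ 0 ^ 2 - (F : ℤ) ^ 2 * (m₁ * m₃) := by
      obtain ⟨f, rfl⟩ := hF
      exact ⟨-(15 * f ^ 2 * (m₁ * m₃)), by push_cast; ring⟩
    have h1 := NN_cnt hd hD h2 B
    have hM' : ((B ^ 2 + n * ((F : ℤ) ^ 2 * (m₁ * m₃))) / 60).toNat = M := by
      rw [show B ^ 2 + n * ((F : ℤ) ^ 2 * (m₁ * m₃)) = 60 * M by rw [hM, ← hn']; ring,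
        Int.mul_ediv_cancel_left _ (by norm_num), Int.toNat_natCast]
    rw [if_pos (by simpa using hB), hM'] at h1
    rw [if_pos hcop, ← h1, NN, NN, mul_sum]
    refine sum_congr rfl fun c _ => ?_
    obtain ⟨g1, g2, -⟩ := hq_spec hd c
    rw [DNPR.gJ_hq hd hb1, gJ, prod_empty, one_mul, mul_finsum, mul_finsum]
    refine finsum_congr fun Q => ?_
    split_ifs with h
    · unfold wf
      split_ifs with h'
      · have hs : ∏ p ∈ m₁.primeFactors, Q.chip p = ∏ p ∈ m₃.primeFactors, Q.chip p :=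
          hSWP m₁ m₃ F Q h13 hT.s13
            (fun p hp hpF => hF' p hp (Int.natCast_dvd_natCast.1 hpF)) h'.1
        rw [hs, Nat.primeFactors_one, prod_empty, mul_one, ← prod_mul_distrib,
          BSD15.cfid_jac_sqf _ hT.a3.1, ← h]
        refine prod_congr rfl fun p hp => ?_
        have hp1 := Nat.prime_of_mem_primeFactors hp
        have hp2 := Nat.dvd_of_mem_primeFactors hp
        have hp3 : (p : ℤ) ∣ m₃ := Int.natCast_dvd_natCast.2 hp2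
        obtain ⟨f1, -, f2⟩ := NPr_facts hd hp1 (hp2.trans hb1)
        refine NPr_syz hp1 f1 ?_ ?_ (f2 c) fun h3 => ?_
        · rw [g1.1.1, dvd_neg]
          exact Int.natCast_dvd_natCast.2 (hp2.trans hb1)
        · rw [h'.1]
          exact (hp3.mul_left _).mul_left _
        · exact (Nat.prime_iff_prime_int.1 hp1).not_isUnit (hcop.isUnit_of_dvd' (h ▸ h3) hp3)
      · rw [mul_zero, mul_zero]
    · rw [mul_zero, mul_zero]
  · rw [if_neg hcop]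
    obtain ⟨p, hp, hpd⟩ := Nat.exists_prime_and_dvd (mt Int.isCoprime_iff_gcd_eq_one.2 hcop)
    have hpB : (p : ℤ) ∣ B := (Int.natCast_dvd_natCast.2 hpd).trans (Int.gcd_dvd_left _ _)
    have hpb : p ∣ m₃ :=
      Int.natCast_dvd_natCast.1 ((Int.natCast_dvd_natCast.2 hpd).trans (Int.gcd_dvd_right _ _))
    obtain ⟨f1, f2, -⟩ := NPr_facts hd hp (hpb.trans hb1)
    have hJ : m₂.primeFactors ⊆ n.primeFactors :=
      Nat.primeFactors_mono (hn ▸ dvd_mul_right _ _) hn0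
    have e : n.primeFactors \ m₂.primeFactors = m₃.primeFactors := by
      rw [hn, hc2.primeFactors_mul, union_sdiff_cancel_left hc2.disjoint_primeFactors]
    have e' : ∀ w, NN n ρ m₃.primeFactors w B = NN n ρ m₂.primeFactors w B := fun w => by
      simp only [NN, ← e, BSD15.gJ_compl hJ]
    have ho1 : Odd m₁ := Nat.coprime_two_right.1
      (Nat.Coprime.coprime_dvd_right (show 2 ∣ 30 by norm_num) hT.a1.2)
    have hp1 : ¬ p ∣ m₁ := fun h => hp.one_lt.ne' (Nat.eq_one_of_dvd_coprimes hc1 h hpb)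
    have hp2 : ¬ p ∣ m₂ := fun h => hp.one_lt.ne' (Nat.eq_one_of_dvd_coprimes hc2 h hpb)
    have h1 := NPr_flip hd hp (hpb.trans hb1) (w := wf ((F : ℤ) ^ 2 * (m₁ * m₃)) 0 m₁)
      (fun Q g hg => wf_cmp ho1 ((dvd_mul_right _ _).mul_left _) Q hg)
      (NPr_wf hp f2 hT.a1.1 hp1 _ _) hpB hJ
    have hX : XJ n m₂.primeFactors p = jacobiSym p m₂ := by
      rw [XJ, BSD15.cfid_jac_sqf _ hT.a2.1]
      refine prod_congr rfl fun q hq => BSD15.Xp_of_not_dvd n fun h => hp2 ?_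
      rw [← (Nat.prime_dvd_prime_iff_eq (Nat.prime_of_mem_primeFactors hq) hp).1 h]
      exact Nat.dvd_of_mem_primeFactors hq
    have h5 := hT.inert p hp hpb
    have h8 := hT.s12.1
    rw [Mod.jac_recip (by omega) (hp.odd_of_ne_two f1), Int.natAbs_neg, Int.natAbs_mul,
      Int.natAbs_natCast, Int.natAbs_natCast,
      jacobiSym.mul_right' _ hT.a1.1.ne_zero hT.a2.1.ne_zero, mul_comm] at h5
    rw [hX, h5] at h1
    rw [e']
    linarith

end Pool.Agent.P.MP_8b7eba_nt.R3
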