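import Pool.Agent.P.MP_8b7eba_nt.R3.DFAC
import Pool.Agent.P.MP_8b7eba_nt.R3.DGAM
import Pool.Agent.P.MP_8b7eba_nt.R1.FormC

/-! Proof of R1X. -/

namespace Pool.Agent.P.MP_8b7eba_nt.R3

open _root_.Pool.Agent.P.MP_8b7eba_nt.Mod (M2 G0)
open R1 (QF Hg Lv)
open MulAction Function

theorem nu_toQ (Q : QF) : nu (toQ Q) = Q := by simp [nu, toQ]

theorem zi_toQ (Q : QF) : Zi (toQ Q) := by simp [Zi, toQ]

theorem toQ_nu {Q : QQ} (h : Zi Q) : toQ (nu Q) = Q :=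
  QQ.ext ((Rat.den_eq_one_iff _).1 h.1) ((Rat.den_eq_one_iff _).1 h.2.1)
    ((Rat.den_eq_one_iff _).1 h.2.2)

theorem toQ_inj : Injective toQ := LeftInverse.injective nu_toQ

theorem pair_toQ (P Q : QF) : (toQ P).pair (toQ Q) = P.pair Q := by
  simp [toQ, QQ.pair, QF.pair]

theorem disc_toQ (P : QF) : (toQ P).disc = P.disc := by simp [toQ, QQ.disc, QF.disc]

theorem Wz_toQ (u w : QF → ℤ) (B : ℤ) (P Q : QF) :
    Wz u w B (toQ P, toQ Q) = if P.pair Q = B then u P * w Q else 0 := by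
  simp only [Wz, zi_toQ, true_and, pair_toQ, Int.cast_inj, nu_toQ]

theorem Wz_ne {u w : QF → ℤ} {B : ℤ} {x : QQ × QQ} (h : Wz u w B x ≠ 0) :
    ∃ P Q, x = (toQ P, toQ Q) ∧ P.pair Q = B ∧ u P * w Q ≠ 0 := by
  have k : Zi x.1 ∧ Zi x.2 ∧ x.1.pair x.2 = B := by_contra fun k => h (if_neg k)
  have e : x = (toQ (nu x.1), toQ (nu x.2)) := by rw [toQ_nu k.1, toQ_nu k.2.1]
  rw [e, Wz_toQ] at h
  exact ⟨_, _, e, ite_ne_right_iff.1 h⟩

theorem gam_act {g : GM} (hg : g ∈ H1 ⊓ H2) : ∃ γ, G0 γ ∧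
    ((∀ Q, g • toQ Q = toQ (Q.cmp γ)) ∨ ∀ Q, g • toQ Q = toQ (Q.cmp γ).mir) := by
  obtain ⟨k, γ, h, hN, a, b, c, d⟩ := (t_GAM g).1 hg
  have k0 : k ≠ 0 := fun e => g.ne (by rw [a, b, e]; ring)
  have e : g.det = k ^ 2 * γ.det := by
    rw [GM.det, a, b, c, d, M2.det]
    push_cast
    ring
  rcases h with h | h
  · refine ⟨γ, ⟨h, hN⟩, .inl fun Q => ?_⟩
    ext <;> simp only [QQ.smul_A, QQ.smul_B, QQ.smul_C, e, h, a, b, c, d, toQ, QF.cmp, QF.ev] <;>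
      push_cast <;> field_simp
  · refine ⟨⟨γ.a, -γ.b, γ.c, -γ.d⟩, ⟨by simp only [M2.det] at h ⊢; linear_combination -h, hN⟩,
      .inr fun Q => ?_⟩
    ext <;> simp only [QQ.smul_A, QQ.smul_B, QQ.smul_C, e, h, a, b, c, d, toQ, QF.cmp, QF.ev,
      QF.mir] <;> push_cast <;> field_simp
    ring

theorem act_gam {γ : M2} (h : G0 γ) : ∃ g ∈ H1 ⊓ H2, ∀ Q, g • toQ Q = toQ (Q.cmp γ) := by
  have e : (γ.a : ℚ) * γ.d - γ.c * γ.b = 1 := by
    have := h.1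
    rw [M2.det, mul_comm γ.b] at this
    exact_mod_cast this
  refine ⟨⟨γ.a, γ.c, γ.b, γ.d, e ▸ one_ne_zero⟩,
    (t_GAM _).2 ⟨1, γ, .inl h.1, h.2, by simp, by simp, by simp, by simp⟩, fun Q => ?_⟩
  ext <;> simp only [QQ.smul_A, QQ.smul_B, QQ.smul_C, GM.det, e, toQ, QF.cmp, QF.ev] <;>
    push_cast <;> ring

theorem act_mir : ∃ g ∈ H1 ⊓ H2, ∀ Q, g • toQ Q = toQ Q.mir := by
  refine ⟨⟨1, 0, 0, -1, by norm_num⟩, (t_GAM _).2 ⟨1, ⟨1, 0, 0, -1⟩, .inr rfl, by simp, by simp,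
    by simp, by simp, by simp⟩, fun Q => ?_⟩
  ext <;> simp [QQ.smul_A, QQ.smul_B, QQ.smul_C, GM.det, toQ, QF.mir, div_neg]

theorem pair_mir (P Q : QF) : P.mir.pair Q.mir = P.pair Q := by simp [QF.pair, QF.mir]

theorem iv_of_ne {G X : Type} [Group G] [MulAction G X] {H : Subgroup G} {f : X → ℤ}
    (h : ∀ g ∈ H, ∀ x, f x ≠ 0 → f (g • x) = f x) : Iv H f := fun g hg x => by
  by_cases e : f x = 0
  · by_contra k
    have := h _ (H.inv_mem hg) _ (e ▸ k)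
    rw [inv_smul_smul] at this
    exact k this.symm
  · exact h g hg x e

theorem iv_Wz {u w : QF → ℤ} (B : ℤ) (hu : ∀ P g, G0 g → u (P.cmp g) = u P)
    (hw : ∀ Q g, G0 g → w (Q.cmp g) = w Q) (hm : ∀ P Q, u P.mir * w Q.mir = u P * w Q) :
    Iv (H1 ⊓ H2) (Wz u w B) := iv_of_ne fun g hg x hx => by
  obtain ⟨P, Q, rfl, -⟩ := Wz_ne hx
  obtain ⟨γ, h, e | e⟩ := gam_act hg
  · rw [Prod.smul_mk, e, e, Wz_toQ, Wz_toQ, QF.pair_cmp, h.1, hu _ _ h, hw _ _ h, one_pow, one_mul]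
  · rw [Prod.smul_mk, e, e, Wz_toQ, Wz_toQ, pair_mir, QF.pair_cmp, h.1, hm, hu _ _ h, hw _ _ h,
      one_pow, one_mul]

theorem t_R1X : R1X := by
  intro N ρ D B S u w hN hS h1 h2 hu hw hm
  classical
  have hI := iv_Wz B hu hw hm
  have dN : ∀ {P : QF}, Lv (-N) ρ P → P.disc < 0 := fun h => by rw [h.1]; omega
  let F : QF × QF → ℤ := fun x => if x.1 ∈ S then Wz u w B (toQ x.1, toQ x.2) else 0
  let φ : QF × QF → orbitRel.Quotient (H1 ⊓ H2 :) (QQ × QQ) :=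
    fun x => Quotient.mk _ (toQ x.1, toQ x.2)
  have hF : (support F).Finite := (S.finite_toSet.biUnion (t := fun P =>
      {P} ×ˢ {Q : QF | Q.disc = D ∧ P.pair Q = B}) fun P hP => (Set.finite_singleton P).prod
        (R1.pair_finite (hS.hg P hP).2 (dN (hS.hg P hP).1) D B)).subset fun x hx => by
    obtain ⟨a, b⟩ := ite_ne_right_iff.1 hx
    rw [Wz_toQ, ite_ne_right_iff] at b
    exact Set.mem_biUnion a ⟨rfl, h2 _ (right_ne_zero_of_mul b.2), b.1⟩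
  have hb : Set.BijOn φ (support F) (support fun o => Wz u w B o.out) := by
    refine ⟨fun x hx => ?_, fun x hx y hy k => ?_, fun o ho => ?_⟩
    · rw [mem_support, hI.out]
      exact (ite_ne_right_iff.1 hx).2
    · obtain ⟨g, hg, e⟩ := orb_eq.1 k
      have a := (ite_ne_right_iff.1 hx).1
      have b := (ite_ne_right_iff.1 hy).1
      rw [Prod.smul_mk, Prod.mk.injEq] at e
      obtain ⟨γ, h, f | f⟩ := gam_act hg
      · rw [f, f, toQ_inj.eq_iff, toQ_inj.eq_iff] at e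
        rcases hS.inj _ b γ h (e.1 ▸ a) with rfl | rfl <;> exact Prod.ext (by simpa using e.1.symm)
          (by simpa using e.2.symm)
      · rw [f, toQ_inj.eq_iff] at e
        have c := QF.cmp_A_pos (hS.hg _ b).2 (dN (hS.hg _ b).1) (h.1 ▸ one_ne_zero)
        have d := (hS.hg _ a).2
        rw [← e.1, QF.mir] at d
        simp only at d
        omega
    · have key : ∀ P Q : QF, 0 < P.A → Wz u w B (toQ P, toQ Q) ≠ 0 →
          φ (P, Q) ∈ φ '' support F := fun P Q a b => by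
        have c := left_ne_zero_of_mul (ite_ne_right_iff.1 (Wz_toQ u w B P Q ▸ b)).2
        obtain ⟨γ, h, e⟩ := hS.all P ⟨h1 P c, a⟩ c
        obtain ⟨g, hg, f⟩ := act_gam h
        refine ⟨(P.cmp γ, Q.cmp γ), ?_, orb_eq.2 ⟨g, hg, by rw [Prod.smul_mk, f, f]⟩⟩
        rw [mem_support]
        simp only [F, if_pos e]
        rwa [← f, ← f, ← Prod.smul_mk, hI g hg]
      obtain ⟨P, Q, e, -, b⟩ := Wz_ne ho
      have c := dN (h1 P (left_ne_zero_of_mul b))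
      rw [mem_support, e] at ho
      rw [← o.out_eq, e]
      rcases lt_trichotomy 0 P.A with a | a | a
      · exact key P Q a ho
      · rw [QF.disc, ← a] at c
        nlinarith [sq_nonneg P.B]
      · obtain ⟨g, hg, f⟩ := act_mir
        rw [← (orb_eq.2 ⟨g, hg, by rw [Prod.smul_mk, f, f]⟩ : φ (P.mir, Q.mir) = _)]
        exact key _ _ (neg_pos.2 a) (by rwa [← f, ← f, ← Prod.smul_mk, hI g hg])
  refine ⟨?_, by rw [Fs, ← hb.image_eq]; exact hF.image φ⟩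
  rw [cs, ← finsum_mem_support, ← finsum_mem_eq_of_bijOn φ hb (f := F) fun x hx => by
    rw [hI.out]; exact if_pos (ite_ne_right_iff.1 hx).1, finsum_mem_support, finsum_curry F hF,
    finsum_eq_sum_of_support_subset (s := S) _ fun P hP => by
      by_contra h
      exact hP (by simp [F, show P ∉ S from h])]
  refine Finset.sum_congr rfl fun P hP => ?_
  rw [mul_finsum]
  exact finsum_congr fun Q => by simp only [F, if_pos hP, Wz_toQ, mul_ite, mul_zero]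

end Pool.Agent.P.MP_8b7eba_nt.R3
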