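import Pool.Agent.P.MP_8b7eba_nt.R3.IfD

/-! Proof of RSX. -/

namespace Pool.Agent.P.MP_8b7eba_nt.R3

open _root_.Pool.Agent.P.MP_8b7eba_nt.Mod (M2 G0 mS mT rep)
open R1 (QF Hg Lv)

namespace DRSX

theorem sq8 (v : ℕ) : v ^ 2 % 8 = 0 ∨ v ^ 2 % 8 = 4 ∨ (v % 2 = 1 ∧ v ^ 2 % 8 = 1) := by
  have h : v % 8 < 8 := Nat.mod_lt _ (by norm_num)
  have h2 : v % 2 = v % 8 % 2 := by omega
  rw [Nat.pow_mod, h2]
  generalize v % 8 = r at h
  interval_cases r <;> simp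

theorem desc {x k : ℕ} (hx : x % 8 = 7) (hk : k = 1 ∨ k = 3) (u : ℕ) :
    ∀ v : ℕ, u ≠ 0 → x * u ^ 2 ≠ k * v ^ 2 := by
  induction u using Nat.strong_induction_on with
  | _ u ih =>
    intro v hu h
    have h1 := Nat.mul_mod x (u ^ 2) 8
    have hv := sq8 v
    rcases Nat.even_or_odd' u with ⟨a, rfl | rfl⟩
    · have h2 : x * (2 * a) ^ 2 = 4 * (x * a ^ 2) := by ring
      obtain ⟨b, rfl⟩ : 2 ∣ v := Nat.prime_two.dvd_of_dvd_pow (n := 2) (by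
        rcases hk with rfl | rfl <;> omega)
      have h3 : k * (2 * b) ^ 2 = 4 * (k * b ^ 2) := by ring
      exact ih a (by omega) b (by omega) (by omega)
    · have h2 : (2 * a + 1) ^ 2 = 4 * (a ^ 2 + a) + 1 := by ring
      have h3 : (2 * a + 1) ^ 2 % 8 = 1 := by
        have := sq8 (2 * a + 1)
        omega
      rw [h3, hx, h] at h1
      rcases hk with rfl | rfl <;> omega

theorem stab {N F x : ℕ} {Q : QF} {g : M2} (hF : F ≠ 0) (hN : N = F ^ 2 * x) (hx : x % 8 = 7)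
    (hD : Q.disc = -N) (hA : Q.A ≠ 0) (hg : g.det = 1) (h : Q.cmp g = Q) : g = 1 ∨ g = -1 := by
  have h1 := congrArg QF.A h
  have h2 := congrArg QF.B h
  have h3 := congrArg QF.C h
  simp only [QF.cmp, QF.ev, M2.det, QF.disc] at h1 h2 h3 hg hD
  have e1 : Q.A * (g.d - g.a) = Q.B * g.c := by
    refine mul_left_cancel₀ two_ne_zero ?_
    linear_combination -2 * g.d * h1 + g.c * h2 + (2 * Q.A * g.a + Q.B * g.c) * hg
  have e2 : Q.A * g.b = -Q.C * g.c := by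
    refine mul_left_cancel₀ two_ne_zero ?_
    linear_combination g.d * h2 - 2 * g.c * h3 - (2 * Q.A * g.b + Q.B * g.d) * hg
  have e3 : N * g.c ^ 2 = Q.A ^ 2 * (4 - (g.a + g.d) ^ 2) := by
    linear_combination g.c ^ 2 * hD + (Q.A * (g.d - g.a) + Q.B * g.c) * e1 +
      4 * Q.A * g.c * e2 + 4 * Q.A ^ 2 * hg
  have hc : g.c = 0 := by
    by_contra h0
    have key : ∀ (k : ℕ) (v : ℤ), k = 1 ∨ k = 3 → N * g.c ^ 2 ≠ k * v ^ 2 := fun k v hk e =>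
      desc hx hk (F * g.c.natAbs) v.natAbs (mul_ne_zero hF (Int.natAbs_ne_zero.2 h0)) (by
        zify
        rw [mul_pow, sq_abs, sq_abs, ← e, hN]
        push_cast
        ring)
    have hN0 : (0 : ℤ) < N := by
      have : 0 < x := by omega
      rw [hN]
      positivity
    have h4 : 0 < Q.A ^ 2 * (4 - (g.a + g.d) ^ 2) := e3 ▸ mul_pos hN0 (sq_pos_of_ne_zero h0)
    have h5 := (mul_pos_iff_of_pos_left (sq_pos_of_ne_zero hA)).1 h4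
    generalize g.a + g.d = t at e3 h5
    have h6 : -2 < t := by nlinarith
    have h7 : t < 2 := by nlinarith
    interval_cases t
    · exact key 3 Q.A (Or.inr rfl) (by rw [e3]; push_cast; ring)
    · exact key 1 (2 * Q.A) (Or.inl rfl) (by rw [e3]; push_cast; ring)
    · exact key 3 Q.A (Or.inr rfl) (by rw [e3]; push_cast; ring)
  have hb : g.b = 0 := (mul_eq_zero.1 (by rw [e2, hc, mul_zero])).resolve_left hA
  rw [hc, mul_zero, sub_zero] at hg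
  rcases Int.eq_one_or_neg_one_of_mul_eq_one' hg with ⟨ha, hd⟩ | ⟨ha, hd⟩
  · left; ext <;> simp [*]
  · right; ext <;> simp [*]

theorem red {N : ℤ} {Q : QF} (hN : 0 < N) (hD : Q.disc = -N) (hA : 0 < Q.A) :
    ∃ g : M2, g.det = 1 ∧ (Q.cmp g).A ∈ Set.Icc (-N) N ∧ (Q.cmp g).B ∈ Set.Icc (-N) N ∧
      (Q.cmp g).C ∈ Set.Icc (-N) N := by
  have pos : ∀ g : M2, g.det = 1 → 0 < (Q.cmp g).A := fun g hg =>
    QF.cmp_A_pos hA (by omega) (by omega)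
  obtain ⟨m, ⟨g, hg, e⟩, hm⟩ := Int.exists_least_of_bdd
    (P := fun m => ∃ g : M2, g.det = 1 ∧ (Q.cmp g).A = m)
    ⟨0, fun z ⟨g, hg, e⟩ => e ▸ (pos g hg).le⟩ ⟨_, 1, rfl, rfl⟩
  have m0 : 0 < m := e ▸ pos g hg
  set k := -(((Q.cmp g).B + m) / (2 * m)) with hk
  have hg' : (g * mT k).det = 1 := by rw [M2.det_mul, hg, (Mod.G0_mT k).1, mul_one]
  have h1 : (Q.cmp (g * mT k)).A = m := by
    rw [QF.cmp_mul, ← e]
    simp [QF.cmp, QF.ev, mT]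
  have h2 : (Q.cmp (g * mT k)).B = ((Q.cmp g).B + m) % (2 * m) - m := by
    rw [QF.cmp_mul, Int.emod_def, hk, ← e]
    generalize Q.cmp g = P
    simp only [QF.cmp, mT]
    ring
  have h3 : m ≤ (Q.cmp (g * mT k)).C := hm _ ⟨g * mT k * mS,
    by rw [M2.det_mul, hg']; rfl, by
      rw [QF.cmp_mul]
      generalize Q.cmp (g * mT k) = P
      simp [QF.cmp, QF.ev, mS]⟩
  have h4 : (Q.cmp (g * mT k)).disc = -N := by rw [QF.disc_cmp, hg', hD]; ring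
  have h5 := Int.emod_nonneg ((Q.cmp g).B + m) (show 2 * m ≠ 0 by omega)
  have h6 := Int.emod_lt_of_pos ((Q.cmp g).B + m) (show 0 < 2 * m by omega)
  refine ⟨_, hg', ?_⟩
  generalize Q.cmp (g * mT k) = P at h1 h2 h3 h4
  rw [QF.disc, h1] at h4
  have h7 : P.B ^ 2 ≤ m ^ 2 := sq_le_sq' (by omega) (by omega)
  have h8 : m * m ≤ m * P.C := mul_le_mul_of_nonneg_left h3 m0.le
  have h9 : P.C ≤ m * P.C := le_mul_of_one_le_left (by omega) m0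
  have h10 : P.C ≤ N := by nlinarith
  simp only [Set.mem_Icc]
  omega

/-- equivalence of forms -/
def sd : Setoid QF where
  r P Q := ∃ g, G0 g ∧ P.cmp g = Q
  iseqv := ⟨fun P => ⟨1, ⟨rfl, by simp⟩, by ext <;> simp [QF.cmp, QF.ev]⟩,
    fun ⟨g, hg, e⟩ => ⟨g.adj, hg.adj, e ▸ QF.cmp_adj hg.1 _⟩,
    fun ⟨g, hg, e⟩ ⟨g', hg', e'⟩ => ⟨g * g', hg.mul hg', by rw [QF.cmp_mul, e, e']⟩⟩

theorem fin {N : ℤ} (hN : 0 < N) :
    ∃ T : Finset QF, ∀ Q : QF, Q.disc = -N → 0 < Q.A → ∃ P ∈ T, sd.r Q P := by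
  classical
  refine ⟨((Finset.Icc (-N) N ×ˢ Finset.Icc (-N) N ×ˢ Finset.Icc (-N) N) ×ˢ
    (Finset.Ico 0 15 ×ˢ Finset.Ico 0 15)).image
      fun z => QF.cmp ⟨z.1.1, z.1.2.1, z.1.2.2⟩ (rep z.2.1 z.2.2).adj, fun Q hD hA => ?_⟩
  obtain ⟨g, hg, h1, h2, h3⟩ := red hN hD hA
  refine ⟨_, Finset.mem_image.2 ⟨(((Q.cmp g).A, (Q.cmp g).B, (Q.cmp g).C), g.c % 15, g.d % 15),
    ?_, rfl⟩, _, Mod.G0_mul_adj_rep hg, by rw [QF.cmp_mul, Mod.rep_emod]⟩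
  simp only [Finset.mem_product, Finset.mem_Icc, Finset.mem_Ico]
  exact ⟨⟨h1, h2, h3⟩, by omega, by omega⟩

end DRSX

open DRSX in
theorem t_RSX : RSX := by
  classical
  intro N F x ρ hF hN hx
  have hN0 : (0 : ℤ) < N := by
    have : 0 < x := by omega
    rw [hN]
    positivity
  obtain ⟨T, hT⟩ := fin hN0
  have hc : ∀ P Q, sd.r P Q → Hg N ρ P → Hg N ρ Q := by
    rintro P _ ⟨g, hg, rfl⟩ h
    exact ⟨h.1.cmp hg, QF.cmp_A_pos h.2 (by rw [h.1.1]; omega) hg.det_pos.ne'⟩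
  have ho : ∀ P, sd.r P (Quotient.mk sd P).out := fun P => sd.symm (Quotient.mk_out P)
  have hS : ∀ P ∈ (T.filter (Hg N ρ)).image fun P => (Quotient.mk sd P).out,
      Hg N ρ P ∧ (Quotient.mk sd P).out = P := fun P hP => by
    obtain ⟨Q, hQ, rfl⟩ := Finset.mem_image.1 hP
    exact ⟨hc _ _ (ho Q) (Finset.mem_filter.1 hQ).2, by rw [Quotient.out_eq]⟩
  refine ⟨_, fun u => ⟨fun P hP => (hS P hP).1, fun Q hQ _ => ?_, fun P hP g hg h => ?_⟩⟩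
  · obtain ⟨P, hP, e⟩ := hT Q hQ.1.1 hQ.2
    obtain ⟨g, hg, e'⟩ := sd.trans e (ho P)
    exact ⟨g, hg, e' ▸ Finset.mem_image_of_mem _ (Finset.mem_filter.2 ⟨hP, hc _ _ e hQ⟩)⟩
  · refine stab hF hN hx (hS P hP).1.1.1 (hS P hP).1.2.ne' hg.1 ?_
    rw [← (hS _ h).2, ← Quotient.sound (s := sd) (a := P) ⟨g, hg, rfl⟩, (hS P hP).2]

end Pool.Agent.P.MP_8b7eba_nt.R3
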