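import Pool.Agent.P.MP_8b7eba_nt.R3.IfD
import Pool.Agent.P.MP_8b7eba_nt.BSD15.CFid

/-! Proof of SCL, WFAC. -/

namespace Pool.Agent.P.MP_8b7eba_nt.R3

open _root_.Pool.Agent.P.MP_8b7eba_nt.Mod (M2 G0 FI L0 om lv)
open R1 (QF Hg Lv st Rq uu VV lf wf cnt Wt VB Dual gg dualB_F dualB_M)
open BSD15 (Adm Prim dt)
open Filter Topology Finset
open scoped Real ComplexConjugate

namespace DSCL

theorem den_mul {p : ℕ} (hp : p.Prime) {x y : ℚ} (hx : ¬ p ∣ x.den) (hy : ¬ p ∣ y.den) :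
    ¬ p ∣ (x * y).den := fun h => (hp.dvd_mul.1 (h.trans (Rat.mul_den_dvd x y))).elim hx hy

theorem jsq {p n : ℕ} (hp : p.Prime) (h : ¬ p ∣ n) : jacobiSym n p ^ 2 = 1 :=
  jacobiSym.sq_one (by
    rw [Int.gcd_natCast_natCast]
    exact ((Nat.Prime.coprime_iff_not_dvd hp).2 h).symm)

theorem chq_mul {p : ℕ} (hp : p.Prime) {x y : ℚ} (hx : ¬ p ∣ x.den) (hy : ¬ p ∣ y.den) :
    chq p (x * y) = chq p x * chq p y := by
  have h := congrArg (fun z : ℤ => jacobiSym z p) (Rat.mul_num_den' x y)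
  simp only [jacobiSym.mul_left] at h
  have h1 := jsq hp hx
  have h2 := jsq hp hy
  have h3 := jsq hp (den_mul hp hx hy)
  simp only [chq, jacobiSym.mul_left]
  generalize jacobiSym (x * y).num p = n at *
  generalize jacobiSym ((x * y).den : ℤ) p = d at *
  generalize jacobiSym (x.den : ℤ) p = dx at *
  generalize jacobiSym (y.den : ℤ) p = dy at *
  generalize jacobiSym x.num p = nx at *
  generalize jacobiSym y.num p = ny at *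
  linear_combination (d * dx * dy) * h - (n * d * dy ^ 2) * h1 - (n * d) * h2
    + (nx * ny * dx * dy) * h3

theorem num_mul {p : ℕ} (hp : p.Prime) {a x : ℚ} (ha : ¬ p ∣ a.den) (ha' : ¬ (p : ℤ) ∣ a.num)
    (hx : ¬ p ∣ x.den) : (p : ℤ) ∣ (a * x).num ↔ (p : ℤ) ∣ x.num := by
  have h := Rat.mul_num_den' a x
  have hp' : Prime (p : ℤ) := Nat.prime_iff_prime_int.1 hp
  constructor
  · intro e
    have : (p : ℤ) ∣ a.num * x.num * (a * x).den := h ▸ (e.mul_right _).mul_right _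
    rcases hp'.dvd_or_dvd this with e | e
    · exact (hp'.dvd_or_dvd e).resolve_left ha'
    · exact absurd (Int.natCast_dvd_natCast.1 e) (den_mul hp ha hx)
  · intro e
    have : (p : ℤ) ∣ (a * x).num * a.den * x.den := h ▸ (e.mul_left _).mul_right _
    rcases hp'.dvd_or_dvd this with e | e
    · exact (hp'.dvd_or_dvd e).resolve_right fun e => ha (Int.natCast_dvd_natCast.1 e)
    · exact absurd (Int.natCast_dvd_natCast.1 e) hx

/-- scalar multiples -/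
def sc (a : ℚ) (P : QQ) : QQ := ⟨a * P.A, a * P.B, a * P.C⟩

theorem smul_sc (g : GM) (a : ℚ) (P : QQ) : g • sc a P = sc a (g • P) := by
  ext <;> simp only [sc, QQ.smul_A, QQ.smul_B, QQ.smul_C] <;> ring

theorem sc_sc {a b : ℚ} (h : a * b = 1) (P : QQ) : sc a (sc b P) = P := by
  ext <;> simp only [sc, ← mul_assoc, h, one_mul]

theorem in_sc {a : ℚ} (ha : a ∈ SS) {P : QQ} (h : In SS P) : In SS (sc a P) :=
  ⟨SS.mul_mem ha h.1, SS.mul_mem ha h.2.1, SS.mul_mem ha h.2.2⟩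

theorem in_sc_iff {a : ℚ} (h0 : a ≠ 0) (ha : a ∈ SS) (ha' : a⁻¹ ∈ SS) (P : QQ) :
    In SS (sc a P) ↔ In SS P :=
  ⟨fun h => sc_sc (inv_mul_cancel₀ h0) P ▸ in_sc ha' h, in_sc ha⟩

theorem pq_sc {m : ℕ} (hm : Adm m) {a : ℚ} (h0 : a ≠ 0) (ha : a ∈ SS) (ha' : a⁻¹ ∈ SS) {P : QQ}
    (h : In SS P) : pq m (sc a P) = chq m a * pq m P := by
  rw [chq, BSD15.cfid_jac_sqf _ hm.1, pq, pq, ← Finset.prod_mul_distrib]
  refine Finset.prod_congr rfl fun p hp => ?_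
  have pp := Nat.prime_of_mem_primeFactors hp
  have h30 : ¬ p ∣ 30 := fun e => pp.ne_one
    (Nat.eq_one_of_dvd_coprimes hm.2 (Nat.dvd_of_mem_primeFactors hp) e)
  have nd : ∀ {x : ℚ}, x ∈ SS → ¬ p ∣ x.den := fun hx e => h30 (hx p pp e)
  have hn : ¬ (p : ℤ) ∣ a.num := fun e => nd ha' (by
    rw [Rat.den_inv_of_ne_zero h0]
    exact Int.natCast_dvd.1 e)
  show chipq p (sc a P) = chq p a * chipq p P
  simp only [chipq, sc, num_mul pp (nd ha) hn (nd h.1)]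
  split_ifs
  · exact chq_mul pp (nd ha) (nd h.2.2)
  · exact chq_mul pp (nd ha) (nd h.1)

theorem W1_sc (Δ₁ B Δ₂ : ℚ) {a b : ℚ} {m₁ m₃ : ℕ} (h1 : Adm m₁) (h3 : Adm m₃) (a0 : a ≠ 0)
    (b0 : b ≠ 0) (ha : a ∈ SS) (ha' : a⁻¹ ∈ SS) (hb : b ∈ SS) (hb' : b⁻¹ ∈ SS) (P Q : QQ) :
    W1 (a ^ 2 * Δ₁) (a * b * B) (b ^ 2 * Δ₂) m₁ m₃ (sc a P, sc b Q) =
      chq m₁ a * chq m₃ b * W1 Δ₁ B Δ₂ m₁ m₃ (P, Q) := by
  have d1 : ∀ (c : ℚ) (R : QQ), (sc c R).disc = c ^ 2 * R.disc := fun c R => by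
    simp only [sc, QQ.disc]; ring
  have d2 : (sc a P).pair (sc b Q) = a * b * P.pair Q := by
    simp only [sc, QQ.pair]; ring
  have hG : Gr (a ^ 2 * Δ₁) (a * b * B) (b ^ 2 * Δ₂) (sc a P, sc b Q) ↔ Gr Δ₁ B Δ₂ (P, Q) := by
    simp only [Gr, d1, d2, mul_right_inj' (pow_ne_zero 2 a0), mul_right_inj' (pow_ne_zero 2 b0),
      mul_right_inj' (mul_ne_zero a0 b0)]
  by_cases h : Gr Δ₁ B Δ₂ (P, Q) ∧ In SS P ∧ In SS Q
  · rw [W1, W1, if_pos h, if_pos ⟨hG.2 h.1, in_sc ha h.2.1, in_sc hb h.2.2⟩]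
    show pq m₁ (sc a P) * pq m₃ (sc b Q) = chq m₁ a * chq m₃ b * (pq m₁ P * pq m₃ Q)
    rw [pq_sc h1 a0 ha ha' h.2.1, pq_sc h3 b0 hb hb' h.2.2]; ring
  · rw [W1, W1, if_neg h, if_neg fun e => h ⟨hG.1 e.1, (in_sc_iff a0 ha ha' P).1 e.2.1,
      (in_sc_iff b0 hb hb' Q).1 e.2.2⟩, mul_zero]

theorem den_one {x : ℚ} (h1 : x ∈ RR) (h2 : x ∈ SS) : x.den = 1 := by
  by_contra h
  obtain ⟨p, hp, e⟩ := Nat.exists_prime_and_dvd h
  exact h1 p hp e (h2 p hp e)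

theorem div_mem {n : ℤ} {N : ℕ} (hN : N ∣ 30) : (n : ℚ) / N ∈ RR ↔ (N : ℤ) ∣ n := by
  have N0 : N ≠ 0 := by rintro rfl; simp at hN
  have N0' : (N : ℚ) ≠ 0 := by exact_mod_cast N0
  constructor
  · intro h
    have hs : (n : ℚ) / N ∈ SS := by
      intro p _ e
      have : ((n : ℚ) / N).den ∣ N := by
        have := Rat.den_dvd n N
        rw [Rat.divInt_eq_div] at this
        exact_mod_cast this
      exact (e.trans this).trans hN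
    have h1 := Rat.coe_int_num_of_den_eq_one (den_one h hs)
    refine ⟨((n : ℚ) / N).num, ?_⟩
    have : (n : ℚ) = N * (((n : ℚ) / N).num : ℚ) := by rw [h1]; field_simp
    exact_mod_cast this
  · rintro ⟨k, rfl⟩
    have : (((N : ℤ) * k : ℤ) : ℚ) / N = (k : ℚ) := by push_cast; field_simp
    rw [this]
    exact intCast_mem RR k

theorem zi_of {ρ : ℤ} {P : QQ} (h1 : In SS P) (h2 : LR ρ P) : Zi P := by
  refine ⟨den_one ?_ h1.1, den_one ?_ h1.2.1, den_one h2.2.2 h1.2.2⟩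
  · have := RR.mul_mem (natCast_mem RR 15) h2.1
    rwa [show ((15 : ℕ) : ℚ) * (P.A / 15) = P.A by push_cast; ring] at this
  · have := RR.add_mem (RR.mul_mem (natCast_mem RR 30) h2.2.1) (intCast_mem RR ρ)
    rwa [show ((30 : ℕ) : ℚ) * ((P.B - ρ) / 30) + ρ = P.B by push_cast; ring] at this

theorem toQ_nu {P : QQ} (h : Zi P) : toQ (nu P) = P := by
  ext
  · exact Rat.coe_int_num_of_den_eq_one h.1
  · exact Rat.coe_int_num_of_den_eq_one h.2.1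
  · exact Rat.coe_int_num_of_den_eq_one h.2.2

theorem nu_toQ (P : QF) : nu (toQ P) = P := by
  ext <;> simp [nu, toQ]

theorem zi_toQ (P : QF) : Zi (toQ P) := by simp [Zi, toQ]

theorem in_toQ (P : QF) : In SS (toQ P) :=
  ⟨intCast_mem SS _, intCast_mem SS _, intCast_mem SS _⟩

theorem disc_toQ (P : QF) (D : ℤ) : (toQ P).disc = D ↔ P.disc = D := by
  simp only [toQ, QQ.disc, QF.disc]
  exact_mod_cast Iff.rfl

theorem LR_toQ (ρ : ℤ) (P : QF) : LR ρ (toQ P) ↔ 15 ∣ P.A ∧ 30 ∣ P.B - ρ := by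
  have e1 := div_mem (n := P.A) (N := 15) (by norm_num)
  have e2 := div_mem (n := P.B - ρ) (N := 30) (by norm_num)
  push_cast at e1 e2
  simp only [LR, toQ, e1, e2, intCast_mem, and_true]

theorem pq_toQ (m : ℕ) (P : QF) : pq m (toQ P) = pz m P := by
  simp [pq, pz, chipq, QF.chip, chq, toQ]

theorem gq_toQ (d : ℤ) (P : QF) : gq d (toQ P) = gch d P := by
  rw [gq, pq_toQ]
  simp [gch, pz, ch2q, ch2, c2q, toQ]

end DSCL

open DSCL in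
theorem t_SCL (hCSE : CSE) (hINV1 : INV1) : SCL := by
  intro E₁ E₂ B a b m₁ m₃ h1 h3 hs a0 b0 ha ha' hb hb'
  let e : QQ × QQ ≃ QQ × QQ :=
    ⟨fun x => (sc a⁻¹ x.1, sc b⁻¹ x.2), fun y => (sc a y.1, sc b y.2),
      fun x => Prod.ext (sc_sc (mul_inv_cancel₀ a0) _) (sc_sc (mul_inv_cancel₀ b0) _),
      fun y => Prod.ext (sc_sc (inv_mul_cancel₀ a0) _) (sc_sc (inv_mul_cancel₀ b0) _)⟩
  rw [← hCSE GM (QQ × QQ) H2 e _ _
    (fun g x => Prod.ext (smul_sc g _ _).symm (smul_sc g _ _).symm) (hINV1 E₁ E₂ B m₁ m₃ h1 h3 hs)]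
  congr 1
  funext x
  have := W1_sc (m₁ * E₁) B (m₃ * E₂) h1 h3 a0 b0 ha ha' hb hb' (e x).1 (e x).2
  rw [← this]
  exact congrArg _ (e.left_inv x).symm

open DSCL in
theorem t_WFAC (hKC : KC) : WFAC := by
  intro Δ₁ B Δ₂ ρ₁ ρ₂ d₀ m₁ m₃ h0 h1 h3
  funext ⟨P, Q⟩
  rw [Pi.mul_apply]
  by_cases hz : Zi P ∧ Zi Q
  · obtain ⟨P, rfl⟩ : ∃ P', toQ P' = P := ⟨_, toQ_nu hz.1⟩
    obtain ⟨Q, rfl⟩ : ∃ Q', toQ Q' = Q := ⟨_, toQ_nu hz.2⟩
    simp only [Wz, W1, W2, wg, Gr, Lv, nu_toQ, zi_toQ, in_toQ, disc_toQ, LR_toQ, pq_toQ, gq_toQ,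
      true_and, and_true, (hKC.tw d₀ m₁ h0 h1).2.2.2.2.2, (hKC.tw d₀ m₃ h0 h3).2.2.2.2.2]
    by_cases c1 : (toQ P).pair (toQ Q) = B <;> by_cases c2 : P.disc = Δ₁ <;>
      by_cases c3 : Q.disc = Δ₂ <;> by_cases c4 : 15 ∣ P.A ∧ 30 ∣ P.B - ρ₁ <;>
      by_cases c5 : 15 ∣ Q.A ∧ 30 ∣ Q.B - ρ₂ <;> simp [c1, c2, c3, c4, c5]
    ring
  · rw [Wz, if_neg fun h => hz ⟨h.1, h.2.1⟩, W1, W2]
    split_ifs with c1 c2
    · exact absurd ⟨zi_of c1.2.1 c2.2.1, zi_of c1.2.2 c2.2.2⟩ hz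
    · simp
    · simp
    · simp

end Pool.Agent.P.MP_8b7eba_nt.R3
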