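import Pool.Agent.P.MP_8b7eba_nt.R3.IfD
import Pool.Agent.P.MP_8b7eba_nt.R1.AMain

/-! Proof of SQA. -/

namespace Pool.Agent.P.MP_8b7eba_nt.R3

open _root_.Pool.Agent.P.MP_8b7eba_nt.Mod (M2 G0 FI L0 om lv)
open R1 (QF Hg Lv st Rq uu VV lf wf cnt Wt VB Dual gg dualB_F dualB_M)
open BSD15 (Adm Prim dt)
open Filter Topology Finset
open scoped Real ComplexConjugate

namespace DSQA

theorem m4_ds (d : ℤ) : M4 (ds d) := by
  unfold M4 ds
  split_ifs <;> omega

theorem ds_ne {d : ℤ} (h : d ≠ 0) : ds d ≠ 0 := by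
  unfold ds
  split_ifs <;> omega

theorem dvd_ds (d : ℤ) : d ∣ ds d := by
  unfold ds
  split_ifs
  · exact dvd_rfl
  · exact dvd_mul_left _ _

theorem three_ds {d : ℤ} (h : 3 ∣ ds d) : 3 ∣ d := by
  unfold ds at h
  split_ifs at h <;> omega

theorem dvd_st (m : ℕ) : (m : ℤ) ∣ st m := by
  unfold st
  split_ifs <;> simp

theorem st_dvd (m : ℕ) : st m ∣ (m : ℤ) := by
  unfold st
  split_ifs <;> simp

theorem c2_congr (e : ℤ) {x y : ℤ} (h : 8 ∣ x - y) : c2 e x = c2 e y := by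
  have h8 : (x : ZMod 8) = y := ((ZMod.intCast_eq_intCast_iff_dvd_sub y x 8).2 h).symm
  have h4 : (x : ZMod 4) = y :=
    ((ZMod.intCast_eq_intCast_iff_dvd_sub y x 4).2 (Dvd.dvd.trans (by norm_num) h)).symm
  simp only [c2, h8, h4]

theorem gch_congr {d₀ : ℤ} (h : D0 d₀) {Q Q' : QF} (hA : 120 ∣ Q.A - Q'.A) (hC : 120 ∣ Q.C - Q'.C) :
    gch d₀ Q = gch d₀ Q' := by
  unfold gch
  congr 1
  · unfold ch2
    rw [c2_congr _ (x := Q.A) (y := Q'.A) (by omega), c2_congr _ (x := Q.C) (y := Q'.C) (by omega)]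
    exact if_congr (by omega) rfl rfl
  · refine prod_congr rfl fun p hp => ?_
    have h1 : od d₀ ∣ d₀.natAbs := by
      unfold od
      split_ifs with e
      · exact Nat.div_dvd_of_dvd (by omega)
      · exact dvd_rfl
    have h2 : (p : ℤ) ∣ 120 := by
      have := ((Nat.dvd_of_mem_primeFactors hp).trans h1).trans (Int.natAbs_dvd_natAbs.2 h.dvd)
      exact (Int.natCast_dvd_natCast.2 this).trans (by norm_num)
    have j : ∀ x y : ℤ, 120 ∣ x - y → jacobiSym x p = jacobiSym y p := fun x y e =>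
      jacobiSym.mod_left' (Int.emod_eq_emod_iff_emod_sub_eq_zero.2
        (Int.emod_eq_zero_of_dvd (h2.trans e)))
    unfold QF.chip
    rw [j _ _ hA, j _ _ hC]
    exact if_congr ((dvd_iff_dvd_of_dvd_sub (h2.trans hA))) rfl rfl

theorem wg_inv (hKC : KC) (hGINV : GINV) {d : ℤ} (hd : Squarefree d) (Q : QF) (g : M2) (hg : G0 g) :
    wg (ds d ^ 2) (ds d) d (Q.cmp g) = wg (ds d ^ 2) (ds d) d Q := by
  unfold wg
  by_cases h : Lv (ds d ^ 2) (ds d) Q
  · rw [if_pos h, if_pos (h.cmp hg), hGINV d (ds d) (ds d) 1 (Q.cmp g) Q g hd (m4_ds d) (m4_ds d)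
      (by rw [h.1, sq]) (by rw [(h.cmp hg).1, sq]) (by rw [hg.1, one_mul]; exact isCoprime_one_left)
      (by simp), hKC.one, one_mul]
  · rw [if_neg h, if_neg (mt (R1.lv_cmp_iff hg).1 h)]

end DSQA

open DSQA in
theorem t_SQA (hKC : KC) (hGINV : GINV) (hVBG : VBG) (hDFAM : DFAM) (hDUNF : DUNF) : SQA := by
  intro d₀ m h0 hm h1 h35
  obtain ⟨hd, -, -, hds, -, hg⟩ := hKC.tw d₀ m h0 hm
  set d := d₀ * st m with hdef
  have d0 : d ≠ 0 := hd.ne_zero
  obtain ⟨u1, u2, u3⟩ := hDUNF d hd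
  have n0 : 0 < cd d := Int.natAbs_pos.2 (ds_ne d0)
  have hn : ∀ k : ℤ, k ∣ cd d ↔ k ∣ ds d := fun k => Int.dvd_natAbs
  have h5 : (3 : ℤ) ∣ cd d → (5 : ℤ) ∣ cd d := fun h => by
    rw [hn] at h ⊢
    refine ((h35 ?_).mul_right _).trans (dvd_ds d)
    refine (Int.prime_three.dvd_or_dvd (three_ds h)).resolve_right fun e => ?_
    have e1 : 3 ∣ m := Int.natCast_dvd_natCast.1 (e.trans (st_dvd m))
    have := Nat.dvd_gcd e1 (show 3 ∣ 30 by norm_num)
    rw [hm.2] at this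
    omega
  have hcop : ∀ c : ℕ, wg (ds d ^ 2) (ds d) d (dualB_F d.sign (cd d) c) ≠ 0 →
      IsCoprime (c : ℤ) (cd d) := fun c h => by
    rw [u2] at h
    rcases hKC.tri d c hd with e | e
    · exact e.1.of_isCoprime_of_dvd_right ((hn _).1 dvd_rfl)
    · exact absurd e.2 h
  have he : d.sign * d.sign = 1 := by
    rcases d0.lt_or_gt with h | h
    · rw [Int.sign_eq_neg_one_of_neg h]; rfl
    · rw [Int.sign_eq_one_of_pos h]; rfl
  have e0 : d.sign ≠ 0 := fun h => by rw [h] at he; omega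
  have hw : Wt (ds d ^ 2) (wg (ds d ^ 2) (ds d) d) := by
    refine ⟨by have := ds_ne d0; positivity, fun Q h => ?_, fun Q => ?_,
      wg_inv hKC hGINV hd, fun Q h hQ => ?_⟩
    · by_contra e
      exact h (if_neg fun h' => e h'.1)
    · unfold wg
      split_ifs
      · exact hKC.abs d Q
      · simp
    · obtain ⟨g, hg0, c, -, e⟩ := u3 Q h
      have hc := hcop c (by rwa [← e, wg_inv hKC hGINV hd Q g hg0])
      rw [← R1.QF.cmp_adj hg0.1 Q, e, R1.QF.ev_cmp] at hQ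
      have hdet := hg0.1
      obtain ⟨k, hk⟩ := hg0.2
      simp only [QF.ev, dualB_F, M2.adj, M2.det] at hQ hdet
      have cxy : IsCoprime (g.d * 1 + -g.b * 3) (-g.c * 1 + g.a * 3) :=
        ⟨g.a, g.b, by linear_combination hdet⟩
      have y5 : ¬ (5 : ℤ) ∣ -g.c * 1 + g.a * 3 := fun e5 => by
        have a5 : (5 : ℤ) ∣ g.a := by omega
        have : (5 : ℤ) ∣ g.a * g.d - g.b * g.c :=
          dvd_sub (a5.mul_right _) (Dvd.dvd.mul_left (by omega) _)
        omega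
      have y3 : (3 : ℤ) ∣ -g.c * 1 + g.a * 3 := by omega
      generalize g.d * 1 + -g.b * 3 = x at hQ cxy
      generalize -g.c * 1 + g.a * 3 = y at hQ cxy y5 y3
      have y0 : y ≠ 0 := fun e => y5 (e ▸ dvd_zero _)
      have k1 : (cd d : ℤ) * x = c * y :=
        sub_eq_zero.1 ((mul_eq_zero.1 (show (d.sign * y) * (cd d * x - c * y) = 0 by
          linear_combination hQ)).resolve_left (mul_ne_zero e0 y0))
      exact y5 ((h5 (y3.trans (cxy.symm.dvd_of_dvd_mul_right ⟨c, by rw [k1, mul_comm]⟩))).trans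
        (hc.symm.dvd_of_dvd_mul_left ⟨x, k1.symm⟩))
  have hv : VB (ds d ^ 2) (wg (ds d ^ 2) (ds d) d) := by
    have := hVBG (ds d ^ 2) (fun Q => if Lv (ds d ^ 2) (ds d) Q then gch d₀ Q else 0) m 120 hm h1
      (by norm_num) ((Nat.Coprime.pow_right 3 hm.2).symm.coprime_dvd_left (by norm_num))
      (fun k hk => ?_) (fun Q => ?_) fun Q Q' e eA eB eC => ?_
    · convert this using 1
      funext Q
      unfold wg
      rw [hg]
      split_ifs <;> simp
    · have : (m : ℤ) ∣ ds d := by rw [hds]; exact (dvd_st m).mul_left _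
      rcases sq_eq_sq_iff_eq_or_eq_neg.1 hk with e | e <;> rw [e]
      · exact this
      · exact this.neg_right
    · split_ifs
      · exact hKC.abs d₀ Q
      · simp
    · push_cast at eA eB eC
      rw [gch_congr h0 eA eC]
      refine if_congr ?_ rfl rfl
      unfold Lv
      rw [e]
      exact and_congr_right fun _ => by omega
  have d1 : d ≠ 1 := fun e => by
    have : (m : ℤ) ∣ 1 := e ▸ (dvd_st m).mul_left d₀
    have := Int.le_of_dvd one_pos this
    omega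
  obtain ⟨α, β, hD, hs⟩ := hDFAM (ds d ^ 2) d.sign _ (cd d) (Int.gcd (cd d) 15)
    (dualB_F d.sign (cd d)) (fun c => (c, cd d)) (1, 0) he hw u1 isCoprime_one_left (by decide)
    (fun e => by
      have a3 : (3 : ℤ) ∣ cd d := by
        have := Int.gcd_dvd_left (cd d) 15
        rwa [e] at this
      have := Int.dvd_gcd (c := 5) (h5 a3) (show ((5 : ℕ) : ℤ) ∣ 15 by norm_num)
      omega)
    (by simp only [u2]; exact hKC.sum d hd d1)
    fun c _ h => ⟨hcop c h, rfl, by simp only [dt]; omega, 1, one_pos, fun x => by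
      simp only [QF.ev, dualB_F, dt]; ring⟩
  refine ⟨α, β, d.sign, e0, fun T c z hz hc => R1.sum_lim hw hv hD T c z hz hc, ?_⟩
  rw [← hs]
  simp only [u2, Lam]

end Pool.Agent.P.MP_8b7eba_nt.R3
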