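import Pool.Agent.P.MP_8b7eba_nt.R3.IfD

/-! Proof of SUM0. -/

namespace Pool.Agent.P.MP_8b7eba_nt.R3

open _root_.Pool.Agent.P.MP_8b7eba_nt.Mod (M2 G0 FI L0 om lv)
open R1 (QF Hg Lv st Rq uu VV lf wf cnt Wt VB Dual gg dualB_F dualB_M)
open BSD15 (Adm Prim dt)
open Filter Topology Finset
open scoped Real ComplexConjugate

namespace DSUM0

theorem cd_ne {d : ℤ} (hd : Squarefree d) : cd d ≠ 0 := by
  have := hd.ne_zero
  unfold cd ds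
  split_ifs <;> omega

theorem m4 (d : ℤ) : M4 (ds d) := by
  unfold M4 ds
  split_ifs <;> omega

theorem cop_of_gt {p : ℕ} (hp : p.Prime) {M : ℕ} (hM : M ≠ 0) (h : M < p) {x : ℤ}
    (hx : x ∣ M) : IsCoprime (p : ℤ) x := by
  refine IsCoprime.of_isCoprime_of_dvd_right ?_ hx
  rw [Nat.isCoprime_iff_coprime]
  exact (Nat.coprime_of_lt_prime hM h hp)

theorem ex_neg (hKC : KC) {d : ℤ} (hd : Squarefree d) (h1 : d ≠ 1) (M : ℕ) :
    ∃ p : ℕ, M < p ∧ p.Prime ∧ kc d p = -1 := by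
  have hx : ∃ x : ℤ, kc d x = -1 := by
    by_contra hc
    push Not at hc
    have h0 : ∀ x, 0 ≤ kc d x := fun x => by
      have := hc x
      rcases hKC.tri d x hd with ⟨-, h | h⟩ | ⟨-, h⟩ <;> omega
    have hs := (Finset.sum_eq_zero_iff_of_nonneg fun (c : ℕ) _ => h0 c).1 (hKC.sum d hd h1)
    have hne := cd_ne hd
    by_cases h : cd d = 1
    · have e := hs 0 (by rw [h]; simp)
      have e1 := hKC.per d 1 0 hd (by
        rw [← Int.natAbs_dvd]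
        rw [cd] at h
        rw [h]
        simp)
      rw [hKC.one] at e1
      simp only [Nat.cast_zero] at e
      omega
    · have e := hs 1 (by rw [Finset.mem_range]; omega)
      simp only [Nat.cast_one] at e
      rw [hKC.one] at e
      omega
  obtain ⟨x, hx⟩ := hx
  have hc : IsCoprime x (cd d) := by
    rcases hKC.tri d x hd with ⟨h, -⟩ | ⟨-, h⟩
    · rw [cd]
      exact IsCoprime.of_isCoprime_of_dvd_right h (Int.natAbs_dvd.2 dvd_rfl)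
    · omega
  obtain ⟨p, h1, h2, h3⟩ := Nat.forall_exists_prime_gt_and_zmodEq M (cd_ne hd) hc
  refine ⟨p, h1, h2, ?_⟩
  rw [← hx]
  exact hKC.per d _ _ hd (Int.natAbs_dvd.1 h3.symm.dvd)

theorem ex_q (hKC : KC) {d d' : ℤ} {N : ℕ} (hd : Squarefree d) (hd' : Squarefree d') (h1 : d ≠ 1)
    (h1' : d' ≠ 1) (hN : 0 < N) (e : -(N : ℤ) = ds d * ds d') :
    ∃ q : ℕ, 30 * N < q ∧ q.Prime ∧ kc d q = -1 ∧ kc d' q = -1 := by
  have v1 : ds d ∣ (N : ℤ) := dvd_neg.1 ⟨_, e⟩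
  have v2 : ds d' ∣ (N : ℤ) := dvd_neg.1 ⟨ds d, by rw [e, mul_comm]⟩
  obtain ⟨p, a1, a2, a3⟩ := ex_neg hKC hd h1 N
  obtain ⟨p', b1, b2, b3⟩ := ex_neg hKC hd' h1' N
  have c1 := cop_of_gt a2 hN.ne' a1 dvd_rfl
  have c2 := cop_of_gt b2 hN.ne' b1 dvd_rfl
  have hx : ∃ x : ℤ, IsCoprime x N ∧ kc d x = -1 ∧ kc d' x = -1 := by
    rcases hKC.tri d' p hd' with ⟨-, h | h⟩ | ⟨h, -⟩
    · rcases hKC.tri d p' hd with ⟨-, h' | h'⟩ | ⟨h', -⟩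
      · exact ⟨p * p', c1.mul_left c2, by rw [hKC.mul, a3, h']; rfl, by rw [hKC.mul, b3, h]; rfl⟩
      · exact ⟨p', c2, h', b3⟩
      · exact absurd (cop_of_gt b2 hN.ne' b1 v1) h'
    · exact ⟨p, c1, a3, h⟩
    · exact absurd (cop_of_gt a2 hN.ne' a1 v2) h
  obtain ⟨x, x1, x2, x3⟩ := hx
  obtain ⟨q, q1, q2, q3⟩ := Nat.forall_exists_prime_gt_and_zmodEq (30 * N) hN.ne' x1
  refine ⟨q, q1, q2, ?_, ?_⟩
  · rw [← x2]
    exact hKC.per d _ _ hd (v1.trans q3.symm.dvd)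
  · rw [← x3]
    exact hKC.per d' _ _ hd' (v2.trans q3.symm.dvd)

theorem jac_ds (hKC : KC) {d : ℤ} (hd : Squarefree d) {q : ℕ} (hq : Odd q) :
    jacobiSym (ds d) q = kc d q := by
  rw [hKC.odd d q hd hq, ds]
  split_ifs
  · rfl
  · rw [jacobiSym.mul_left, jacobiSym.at_four hq, one_mul]

variable {N : ℕ} {ρ : ℤ}

theorem hg_cmp (hN : 0 < N) {P : QF} {g : M2} (h : Hg N ρ P) (hg : G0 g) : Hg N ρ (P.cmp g) :=
  ⟨h.1.cmp hg, QF.cmp_A_pos h.2 (by rw [h.1.1]; omega) (by rw [hg.1]; exact one_ne_zero)⟩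

theorem normal1 {q : ℕ} (hq : q.Prime) (h2 : ¬ (q : ℤ) ∣ 2) {b : ℤ} {P : QF}
    (hb : (q : ℤ) ∣ b ^ 2 - P.disc) (hA : ¬ (q : ℤ) ∣ P.A) :
    ∃ g, G0 g ∧ (q : ℤ) ∣ (P.cmp g).C ∧ (q : ℤ) ∣ (P.cmp g).B - b := by
  have hp : Prime (q : ℤ) := Nat.prime_iff_prime_int.1 hq
  have h2A : ¬ (q : ℤ) ∣ 2 * P.A := fun h => (hp.dvd_or_dvd h).elim h2 hA
  obtain ⟨u, v, huv⟩ := (hp.irreducible.coprime_iff_not_dvd).2 h2A
  have hB : (q : ℤ) ∣ (P.cmp ⟨1, v * (b - P.B), 0, 1⟩).B - b :=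
    ⟨-(u * (b - P.B)), by
      simp only [QF.cmp]
      linear_combination (b - P.B) * huv⟩
  refine ⟨⟨1, v * (b - P.B), 0, 1⟩, ⟨by simp [M2.det], dvd_zero _⟩, ?_, hB⟩
  have hd := QF.disc_cmp P ⟨1, v * (b - P.B), 0, 1⟩
  have hA' : (P.cmp ⟨1, v * (b - P.B), 0, 1⟩).A = P.A := by simp [QF.cmp, QF.ev]
  set Q := P.cmp ⟨1, v * (b - P.B), 0, 1⟩
  have e : 2 * (2 * P.A) * Q.C = (Q.B - b) * (Q.B + b) + (b ^ 2 - P.disc) := by
    rw [QF.disc, hA'] at hd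
    simp only [M2.det] at hd
    linear_combination -hd
  have : (q : ℤ) ∣ 2 * (2 * P.A) * Q.C := e ▸ (hB.mul_right _).add hb
  rcases hp.dvd_or_dvd this with h | h
  · exact ((hp.dvd_or_dvd h).elim h2 h2A).elim
  · exact h

theorem normal {q : ℕ} (hq : q.Prime) (h30 : ¬ (q : ℤ) ∣ 30) {b : ℤ} (hb0 : ¬ (q : ℤ) ∣ b) {P : QF}
    (hb : (q : ℤ) ∣ b ^ 2 - P.disc) :
    ∃ g, G0 g ∧ (q : ℤ) ∣ (P.cmp g).C ∧ (q : ℤ) ∣ (P.cmp g).B - b := by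
  have hp : Prime (q : ℤ) := Nat.prime_iff_prime_int.1 hq
  have h2 : ¬ (q : ℤ) ∣ 2 := fun h => h30 (h.trans (by norm_num))
  have key : ∀ g, G0 g → ¬ (q : ℤ) ∣ (P.cmp g).A →
      ∃ g, G0 g ∧ (q : ℤ) ∣ (P.cmp g).C ∧ (q : ℤ) ∣ (P.cmp g).B - b := fun g hg h => by
    obtain ⟨k, k1, k2⟩ := normal1 hq h2 (b := b) (P := P.cmp g)
      (by rw [QF.disc_cmp, hg.1]; simpa using hb) h
    exact ⟨g * k, hg.mul k1, by rwa [QF.cmp_mul]⟩
  by_cases hA : (q : ℤ) ∣ P.A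
  · by_cases h1 : (q : ℤ) ∣ (P.cmp ⟨1, 0, 15, 1⟩).A
    · refine key ⟨1, 0, -15, 1⟩ ⟨by simp [M2.det], by norm_num⟩ fun h3 => ?_
      have e : 30 * P.B = (P.cmp ⟨1, 0, 15, 1⟩).A - (P.cmp ⟨1, 0, -15, 1⟩).A := by
        simp only [QF.cmp, QF.ev]
        ring
      have hB : (q : ℤ) ∣ P.B := (hp.dvd_or_dvd (e ▸ h1.sub h3)).resolve_left h30
      apply hb0
      apply hp.dvd_of_dvd_pow (n := 2)
      have e2 : b ^ 2 = (b ^ 2 - P.disc) + P.B * P.B - P.A * (4 * P.C) := by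
        rw [QF.disc]
        ring
      rw [e2]
      exact (hb.add (hB.mul_right _)).sub (hA.mul_right _)
    · exact key _ ⟨by simp [M2.det], by norm_num⟩ h1
  · exact normal1 hq h2 hb hA

/-- the shifted form -/
def sh (q : ℕ) (P : QF) : QF := ⟨q * P.A, P.B, P.C / q⟩

theorem sh_mk {q : ℕ} (hq : q ≠ 0) (A B C : ℤ) : sh q ⟨A, B, q * C⟩ = ⟨q * A, B, C⟩ := by
  have : (q : ℤ) ≠ 0 := by exact_mod_cast hq
  simp [sh, Int.mul_ediv_cancel_left _ this]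

theorem hg_sh {q : ℕ} (hq : q ≠ 0) {P : QF} (h : Hg N ρ P) (hC : (q : ℤ) ∣ P.C) :
    Hg N ρ (sh q P) := by
  obtain ⟨A, B, C⟩ := P
  obtain ⟨C, rfl⟩ := hC
  rw [sh_mk hq]
  obtain ⟨⟨h1, h2, h3⟩, h4⟩ := h
  refine ⟨⟨?_, h2.mul_left _, h3⟩, mul_pos (by exact_mod_cast Nat.pos_of_ne_zero hq) h4⟩
  simp only [QF.disc] at h1 ⊢
  linear_combination h1

theorem cmp_sh {q : ℕ} (hq : q ≠ 0) {P : QF} (hC : (q : ℤ) ∣ P.C) :
    P.cmp ⟨q, 0, 0, 1⟩ = ⟨q * (sh q P).A, q * (sh q P).B, q * (sh q P).C⟩ := by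
  obtain ⟨A, B, C⟩ := P
  obtain ⟨C, rfl⟩ := hC
  rw [sh_mk hq]
  ext <;> simp only [QF.cmp, QF.ev] <;> ring

theorem cmp_of_sh {q : ℕ} (hq : q.Prime) (h30 : ¬ (q : ℤ) ∣ 30) {b : ℤ} (hb0 : ¬ (q : ℤ) ∣ b)
    {P P' : QF} (hC : (q : ℤ) ∣ P.C) (hC' : (q : ℤ) ∣ P'.C) (hB : (q : ℤ) ∣ P.B - b)
    (hB' : (q : ℤ) ∣ P'.B - b) {g : M2} (hg : G0 g) (e : (sh q P).cmp g = sh q P') :
    ∃ g', G0 g' ∧ P.cmp g' = P' := by
  have hp : Prime (q : ℤ) := Nat.prime_iff_prime_int.1 hq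
  have hq0 : (q : ℤ) ≠ 0 := hp.ne_zero
  obtain ⟨A, B, C⟩ := P
  obtain ⟨A', B', C'⟩ := P'
  obtain ⟨C, rfl⟩ := hC
  obtain ⟨C', rfl⟩ := hC'
  rw [sh_mk hq.ne_zero, sh_mk hq.ne_zero] at e
  obtain ⟨a, b', c, d⟩ := g
  obtain ⟨h1, c', rfl⟩ := hg
  simp only [QF.cmp, QF.ev, QF.mk.injEq, M2.det] at e h1 hB hB'
  obtain ⟨k1, k2, k3⟩ := e
  have hc : (q : ℤ) ∣ c' := by
    by_contra hc
    have n1 : ¬ (q : ℤ) ∣ 30 * c' := fun h => (hp.dvd_or_dvd h).elim h30 hc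
    have u1 : (q : ℤ) ∣ 30 * c' * (B * a + C * (15 * c')) :=
      ⟨2 * (A' - A * a ^ 2), by linear_combination 2 * k1⟩
    have u2 : (q : ℤ) ∣ 30 * c' * (B * b' + C * d) := by
      have : 30 * c' * (B * b' + C * d) = (B' - b) - (B - b) - q * (2 * A * a * b') := by
        linear_combination k2 - B * h1
      rw [this]
      exact (hB'.sub hB).sub (dvd_mul_right _ _)
    have w1 := (hp.dvd_or_dvd u1).resolve_left n1
    have w2 := (hp.dvd_or_dvd u2).resolve_left n1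
    apply hb0
    have : b = d * (B * a + C * (15 * c')) - 15 * c' * (B * b' + C * d) - (B - b) := by
      linear_combination -(B * h1)
    rw [this]
    exact ((w1.mul_left _).sub (w2.mul_left _)).sub hB
  obtain ⟨c, rfl⟩ := hc
  refine ⟨⟨a, q * b', 15 * c, d⟩, ⟨by simp only [M2.det]; linear_combination h1,
    dvd_mul_right _ _⟩, ?_⟩
  simp only [QF.cmp, QF.ev, QF.mk.injEq]
  refine ⟨mul_left_cancel₀ hq0 ?_, ?_, ?_⟩
  · linear_combination k1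
  · linear_combination k2
  · linear_combination (q : ℤ) * k3

end DSUM0

open DSUM0 in
theorem t_SUM0 (hKC : KC) (hGINV : GINV) : SUM0 := by
  classical
  intro d d' ρ N S hd hd' h1 h1' hN e hS
  obtain ⟨q, q1, hq, q2, q3⟩ := ex_q hKC hd hd' h1 h1' hN e
  haveI := Fact.mk hq
  have hp : Prime (q : ℤ) := Nat.prime_iff_prime_int.1 hq
  have hM : ∀ x : ℤ, x ∣ ((30 * N : ℕ) : ℤ) → IsCoprime (q : ℤ) x := fun x hx =>
    cop_of_gt hq (by omega) q1 hx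
  have hnd : ∀ x : ℤ, x ∣ ((30 * N : ℕ) : ℤ) → ¬ (q : ℤ) ∣ x := fun x hx =>
    hp.irreducible.coprime_iff_not_dvd.1 (hM x hx)
  have h30 : ¬ (q : ℤ) ∣ 30 := hnd 30 (by push_cast; exact dvd_mul_right _ _)
  have hodd : Odd q := hq.odd_of_ne_two (by omega)
  have hJ : jacobiSym (-(N : ℤ)) q = 1 := by
    rw [e, jacobiSym.mul_left, jac_ds hKC hd hodd, jac_ds hKC hd' hodd, q2, q3]
    rfl
  obtain ⟨b0, hb⟩ := ZMod.isSquare_of_jacobiSym_eq_one hJ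
  obtain ⟨b, rfl⟩ := ZMod.intCast_surjective b0
  have hb1 : (q : ℤ) ∣ b ^ 2 - -(N : ℤ) := by
    rw [← ZMod.intCast_zmod_eq_zero_iff_dvd]
    push_cast at hb ⊢
    rw [hb]
    ring
  have hb0 : ¬ (q : ℤ) ∣ b := fun h => by
    apply hnd N (by push_cast; exact dvd_mul_left _ _)
    have : (N : ℤ) = (b ^ 2 - -(N : ℤ)) - b * b := by ring
    rw [this]
    exact hb1.sub (h.mul_right _)
  have v1 : ds d ∣ ((30 * N : ℕ) : ℤ) := by
    push_cast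
    exact (dvd_neg.1 ⟨_, e⟩ : ds d ∣ (N : ℤ)).mul_left _
  have w0 : ∀ P g, Hg N ρ P → G0 g → wg (-N) ρ d (P.cmp g) = wg (-N) ρ d P := fun P g h hg => by
    have h' := hg_cmp hN h hg
    rw [wg, wg, if_pos h.1, if_pos h'.1, hGINV d (ds d') (ds d') 1 (P.cmp g) P g hd (m4 _) (m4 _)
      (h.1.1.trans e) (h'.1.1.trans e) (by rw [hg.1, mul_one]; exact isCoprime_one_left)
      (by simp), hKC.one, one_mul]
  have w1 : ∀ P, Hg N ρ P → (q : ℤ) ∣ P.C → wg (-N) ρ d (sh q P) = -wg (-N) ρ d P :=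
    fun P h hC => by
    have h' := hg_sh hq.ne_zero h hC
    rw [wg, wg, if_pos h.1, if_pos h'.1, hGINV d (ds d') (ds d') q (sh q P) P ⟨q, 0, 0, 1⟩ hd (m4 _)
      (m4 _) (h.1.1.trans e) (h'.1.1.trans e)
      (by simpa [M2.det] using (hM _ v1).mul_left (hM _ v1)) (cmp_sh hq.ne_zero hC), q2]
    ring
  have hex : ∀ P : QF, ∃ g h : M2, P ∈ S → wg (-N) ρ d P ≠ 0 → G0 g ∧ G0 h ∧
      (q : ℤ) ∣ (P.cmp g).C ∧ (q : ℤ) ∣ (P.cmp g).B - b ∧ (sh q (P.cmp g)).cmp h ∈ S ∧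
      wg (-N) ρ d ((sh q (P.cmp g)).cmp h) = -wg (-N) ρ d P := by
    intro P
    by_cases hP : P ∈ S ∧ wg (-N) ρ d P ≠ 0
    · have h := hS.hg P hP.1
      obtain ⟨g, g1, g2, g3⟩ := normal hq h30 hb0 (P := P) (by rw [h.1.1]; exact hb1)
      have h' := hg_cmp hN h g1
      have h'' := hg_sh hq.ne_zero h' g2
      have ew : wg (-N) ρ d (sh q (P.cmp g)) = -wg (-N) ρ d P := by rw [w1 _ h' g2, w0 _ _ h g1]
      obtain ⟨k, k1, k2⟩ := hS.all _ h'' (by rw [ew]; exact neg_ne_zero.2 hP.2)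
      exact ⟨g, k, fun _ _ => ⟨g1, k1, g2, g3, k2, by rw [w0 _ _ h'' k1, ew]⟩⟩
    · exact ⟨1, 1, fun a b => absurd ⟨a, b⟩ hP⟩
  choose g h hg using hex
  set T := S.filter fun P => wg (-N) ρ d P ≠ 0 with hT
  have hinj : Set.InjOn (fun P => (sh q (P.cmp (g P))).cmp (h P)) T := by
    intro P hP P' hP' e
    obtain ⟨h1, h2⟩ := Finset.mem_filter.1 hP
    obtain ⟨h3, h4⟩ := Finset.mem_filter.1 hP'
    obtain ⟨a1, a2, a3, a4, -⟩ := hg P h1 h2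
    obtain ⟨b1, b2, b3, b4, -⟩ := hg P' h3 h4
    have e' : (sh q (P.cmp (g P))).cmp (h P) = (sh q (P'.cmp (g P'))).cmp (h P') := e
    obtain ⟨k, k1, k2⟩ := cmp_of_sh hq h30 hb0 a3 b3 a4 b4 (a2.mul b2.adj)
      (by rw [QF.cmp_mul, e', QF.cmp_adj b2.1])
    have k3 : P.cmp (g P * k * (g P').adj) = P' := by
      rw [QF.cmp_mul, QF.cmp_mul, k2, QF.cmp_adj b1.1]
    rcases hS.inj P h1 _ ((a1.mul k1).mul b1.adj) (by rw [k3]; exact h3) with h5 | h5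
    · rw [h5] at k3
      simpa using k3
    · rw [h5] at k3
      simpa using k3
  have him : T.image (fun P => (sh q (P.cmp (g P))).cmp (h P)) = T := by
    refine Finset.eq_of_subset_of_card_le (fun Q hQ => ?_) (Finset.card_image_of_injOn hinj).ge
    obtain ⟨P, hP, rfl⟩ := Finset.mem_image.1 hQ
    obtain ⟨h1, h2⟩ := Finset.mem_filter.1 hP
    obtain ⟨-, -, -, -, a5, a6⟩ := hg P h1 h2
    exact Finset.mem_filter.2 ⟨a5, by rw [a6]; exact neg_ne_zero.2 h2⟩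
  have z1 : ∑ P ∈ S, wg (-N) ρ d P = ∑ P ∈ T, wg (-N) ρ d P :=
    (Finset.sum_filter_of_ne fun P _ h => h).symm
  have z2 : ∑ P ∈ T, wg (-N) ρ d P = -∑ P ∈ T, wg (-N) ρ d P := by
    nth_rw 1 [← him]
    rw [Finset.sum_image hinj, ← Finset.sum_neg_distrib]
    refine Finset.sum_congr rfl fun P hP => ?_
    obtain ⟨h1, h2⟩ := Finset.mem_filter.1 hP
    exact (hg P h1 h2).2.2.2.2.2
  omega

end Pool.Agent.P.MP_8b7eba_nt.R3
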