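import Pool.Agent.P.MP_8b7eba_nt.R3.IfD

/-! Proof of SWP. -/

namespace Pool.Agent.P.MP_8b7eba_nt.R3

open _root_.Pool.Agent.P.MP_8b7eba_nt.Mod (M2 G0 FI L0 om lv)
open R1 (QF Hg Lv st Rq uu VV lf wf cnt Wt VB Dual gg dualB_F dualB_M)
open BSD15 (Adm Prim dt)
open Filter Topology Finset
open scoped Real ComplexConjugate

namespace DSWP

theorem jac_prime {D : ℕ} (h : Sq120 D) {p : ℕ} (hp : p.Prime) (h30 : p ∣ 30) :
    jacobiSym p D = 1 := by
  obtain ⟨h8, h3, h5⟩ := h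
  have ho : Odd D := Nat.odd_iff.2 (by omega)
  have hr : ∀ q : ℕ, Odd q → jacobiSym q D = jacobiSym D q := fun q hq => by
    have := Mod.jac_recip (D := D) (by omega) hq
    rw [Int.natAbs_natCast] at this
    exact this.symm
  have hc : p = 2 ∨ p = 3 ∨ p = 5 := by
    have h1 : p ∣ 2 * (3 * 5) := h30
    rcases hp.dvd_mul.1 h1 with h2 | h2
    · exact Or.inl ((Nat.prime_dvd_prime_iff_eq hp Nat.prime_two).1 h2)
    · rcases hp.dvd_mul.1 h2 with h2 | h2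
      · exact Or.inr (Or.inl ((Nat.prime_dvd_prime_iff_eq hp Nat.prime_three).1 h2))
      · exact Or.inr (Or.inr ((Nat.prime_dvd_prime_iff_eq hp Nat.prime_five).1 h2))
  rcases hc with rfl | rfl | rfl
  · rw [Nat.cast_ofNat, jacobiSym.at_two ho, ZMod.χ₈_nat_eq_if_mod_eight, if_neg (by omega),
      if_pos (by omega)]
  · rw [hr 3 (by decide), jacobiSym.mod_left' (a₂ := 1) (by simpa using h3), jacobiSym.one_left]
  · rw [hr 5 (by decide)]
    rcases h5 with h5 | h5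
    · rw [jacobiSym.mod_left' (a₂ := 1) (by simpa using h5), jacobiSym.one_left]
    · rw [jacobiSym.mod_left' (a₂ := 2 ^ 2) (by simpa using h5), jacobiSym.sq_one' (by norm_num)]

theorem jac_smooth {D : ℕ} (h : Sq120 D) :
    ∀ k : ℕ, k ≠ 0 → (∀ p : ℕ, p.Prime → p ∣ k → p ∣ 30) → jacobiSym k D = 1 := by
  intro k
  induction k using induction_on_primes with
  | zero => exact fun h0 => absurd rfl h0
  | one => exact fun _ _ => by simp
  | prime_mul p n hp ih =>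
    intro h0 hk
    rw [Nat.cast_mul, jacobiSym.mul_left, jac_prime h hp (hk p hp (dvd_mul_right _ _)),
      ih (right_ne_zero_of_mul h0) fun q hq hqn => hk q hq (hqn.mul_left _), one_mul]

theorem exists_content (Q : QF) (h : Q.disc ≠ 0) : ∃ (k : ℕ) (R : QF), k ≠ 0 ∧ Q.A = k * R.A ∧
    Q.B = k * R.B ∧ Q.C = k * R.C ∧
    ∀ p : ℕ, p.Prime → ¬ ((p : ℤ) ∣ R.A ∧ (p : ℤ) ∣ R.B ∧ (p : ℤ) ∣ R.C) := by
  set k : ℕ := Int.gcd (Int.gcd Q.A Q.B) Q.C with hk
  have hA : (k : ℤ) ∣ Q.A := (Int.gcd_dvd_left _ _).trans (Int.gcd_dvd_left _ _)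
  have hB : (k : ℤ) ∣ Q.B := (Int.gcd_dvd_left _ _).trans (Int.gcd_dvd_right _ _)
  have hC : (k : ℤ) ∣ Q.C := Int.gcd_dvd_right _ _
  obtain ⟨A, hA⟩ := hA
  obtain ⟨B, hB⟩ := hB
  obtain ⟨C, hC⟩ := hC
  have k0 : k ≠ 0 := fun h0 => h (by
    rw [QF.disc, hA, hB, hC, h0]; simp)
  refine ⟨k, ⟨A, B, C⟩, k0, hA, hB, hC, fun p hp ⟨h1, h2, h3⟩ => ?_⟩
  have e1 : (k * p : ℤ) ∣ Q.A := hA ▸ mul_dvd_mul_left _ h1
  have e2 : (k * p : ℤ) ∣ Q.B := hB ▸ mul_dvd_mul_left _ h2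
  have e3 : (k * p : ℤ) ∣ Q.C := hC ▸ mul_dvd_mul_left _ h3
  have e4 : (k * p : ℤ) ∣ k * 1 := by
    rw [mul_one]
    exact Int.dvd_coe_gcd (Int.dvd_coe_gcd e1 e2) e3
  have e5 := (mul_dvd_mul_iff_left (by exact_mod_cast k0 : (k : ℤ) ≠ 0)).1 e4
  exact hp.one_lt.ne' (Nat.dvd_one.1 (by exact_mod_cast e5))

theorem prod_one {D : ℕ} {F : ℤ} {Q : QF} (hD : Adm D) (h : Sq120 D)
    (hF : ∀ p : ℕ, p.Prime → (p : ℤ) ∣ F → p ∣ 30) (hQ : Q.disc = F ^ 2 * D) : pz D Q = 1 := by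
  have hs := hD.1
  have h8 := h.1
  have F0 : F ≠ 0 := fun h0 => by
    have := hF 7 (by norm_num) (h0 ▸ dvd_zero _)
    omega
  have D0 : (D : ℤ) ≠ 0 := by omega
  obtain ⟨k, R, k0, hA, hB, hC, hR⟩ := exists_content Q (hQ ▸ mul_ne_zero (pow_ne_zero 2 F0) D0)
  have hkR : (k : ℤ) ^ 2 * R.disc = F ^ 2 * D := by
    rw [← hQ, QF.disc, QF.disc, hA, hB, hC]; ring
  have hk : ∀ p : ℕ, p.Prime → p ∣ k → p ∣ 30 := fun p hp hpk => by
    refine hF p hp (by_contra fun hn => ?_)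
    have hp' := Nat.prime_iff_prime_int.1 hp
    have h1 : (p : ℤ) ^ 2 ∣ F ^ 2 * D :=
      hkR ▸ (pow_dvd_pow_of_dvd (Int.natCast_dvd_natCast.2 hpk) 2).mul_right _
    have h2 : IsCoprime ((p : ℤ) ^ 2) (F ^ 2) := (hp'.coprime_iff_not_dvd.2 hn).pow
    have h3 := h2.dvd_of_dvd_mul_left h1
    rw [sq] at h3
    exact hp.not_isUnit (hs p (by exact_mod_cast h3))
  obtain ⟨g, hg, hc⟩ := R1.exists_coprime_cmp (Q := R) (M := 2 * (F * D))
    (mul_ne_zero two_ne_zero (mul_ne_zero F0 D0)) fun p hp _ => hR p hp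
  have hA' : (Q.cmp g).A = k * (R.cmp g).A := by
    simp only [QF.cmp, QF.ev, hA, hB, hC]; ring
  have hD' : (k : ℤ) ^ 2 * (R.cmp g).disc = F ^ 2 * D := by
    rw [QF.disc_cmp, hg, ← hkR]; ring
  have h1 : pz D Q = jacobiSym (k * (R.cmp g).A) D := by
    rw [pz, BSD15.cfid_jac_sqf _ hs]
    refine Finset.prod_congr rfl fun p hp => ?_
    have hp' := Nat.prime_of_mem_primeFactors hp
    have hd0 := Nat.dvd_of_mem_primeFactors hp
    have hd : (p : ℤ) ∣ D := Int.natCast_dvd_natCast.2 hd0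
    have hpi := Nat.prime_iff_prime_int.1 hp'
    rw [← QF.chip_cmp hp' (by rintro rfl; omega) (hQ ▸ hd.mul_left _) hg, QF.chip, hA', if_neg]
    intro h2
    rcases hpi.dvd_or_dvd h2 with h2 | h2
    · exact hp'.ne_one (Nat.eq_one_of_dvd_coprimes hD.2 hd0
        (hk p hp' (Int.natCast_dvd_natCast.1 h2)))
    · exact hpi.not_isUnit (hc.isUnit_of_dvd' h2 ((hd.mul_left _).mul_left _))
  generalize R.cmp g = S at *
  have ho : Odd S.A.natAbs := by
    rw [Int.natAbs_odd, ← Int.isCoprime_two_right]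
    exact hc.of_mul_right_left
  have h2 : jacobiSym S.A D = jacobiSym S.A.natAbs D := by
    rcases Int.natAbs_eq S.A with e | e
    · rw [← e]
    · conv_lhs => rw [e, ← neg_one_mul, jacobiSym.mul_left, R1.formC_neg_one (by omega), one_mul]
  have hcF : IsCoprime S.A F := hc.of_mul_right_right.of_mul_right_left
  have h3 : IsCoprime S.A (k * S.B) := by
    have h5 : IsCoprime S.A (F ^ 2 * D) :=
      hcF.pow_right.mul_right hc.of_mul_right_right.of_mul_right_right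
    rw [← hD', QF.disc, show (k : ℤ) ^ 2 * (S.B ^ 2 - 4 * S.A * S.C)
      = k * S.B * (k * S.B) + S.A * (-4 * k ^ 2 * S.C) by ring,
      IsCoprime.add_mul_left_right_iff] at h5
    exact h5.of_mul_right_left
  have h6 := Mod.jac_recip (D := D) (by omega) ho
  rw [Int.natAbs_natCast] at h6
  have h7 : jacobiSym (F ^ 2 * D) S.A.natAbs = 1 := by
    rw [jacobiSym.mod_left' (a₂ := (k * S.B) ^ 2), jacobiSym.sq_one']
    · exact (Int.isCoprime_iff_gcd_eq_one.1 h3.symm : (k * S.B).gcd S.A = 1)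
    · refine Int.modEq_iff_dvd.2 (Int.natAbs_dvd.2 ⟨4 * k ^ 2 * S.C, ?_⟩)
      rw [← hD', QF.disc]
      ring
  rw [jacobiSym.mul_left, jacobiSym.sq_one' (b := S.A.natAbs)
    (Int.isCoprime_iff_gcd_eq_one.1 hcF.symm : F.gcd S.A = 1), one_mul] at h7
  rw [h1, jacobiSym.mul_left, jac_smooth h k k0 hk, one_mul, h2, ← h6, h7]

end DSWP

theorem t_SWP : SWP := by
  intro a b F Q hab h hF hQ
  have hc := Nat.coprime_of_squarefree_mul hab.1
  have h1 := DSWP.prod_one (D := a * b) (F := F) (Q := Q) hab (by push_cast; exact h) hF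
    (by push_cast; exact hQ)
  rw [pz, hc.primeFactors_mul, Finset.prod_union hc.disjoint_primeFactors] at h1
  exact Int.eq_of_mul_eq_one h1

end Pool.Agent.P.MP_8b7eba_nt.R3
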