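import Pool.Agent.P.MP_8b7eba_nt.R3.IfD

/-! Proof of TR1, TRF and EXI. -/

namespace Pool.Agent.P.MP_8b7eba_nt.R3

namespace DTR

theorem std (P : QQ) (h : P.disc ≠ 0) : ∃ g : GM, g • P = ⟨1, 0, -P.disc / 4⟩ := by
  have key : ∀ g : GM, (g • P).A = 1 → (g • P).B = 0 → g • P = ⟨1, 0, -P.disc / 4⟩ := fun g a b => by
    refine QQ.ext a b ?_
    rw [← QQ.disc_smul g P, QQ.disc, a, b]
    ring
  by_cases hA : P.A = 0
  · by_cases hC : P.C = 0
    · have hB : P.B ≠ 0 := fun e => h (by simp [QQ.disc, e, hA])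
      refine ⟨⟨1, 1, -P.B / 2, P.B / 2, fun e => hB (by linear_combination e)⟩, key _ ?_ ?_⟩
      · rw [QQ.smul_A, GM.det, div_eq_one_iff_eq fun e => hB (by linear_combination e), hA, hC]
        ring
      · rw [QQ.smul_B, hA, hC, div_eq_zero_iff]
        exact .inl (by ring)
    · refine ⟨⟨0, 1, -P.C, P.B / 2, fun e => hC (by linear_combination e)⟩, key _ ?_ ?_⟩
      · rw [QQ.smul_A, GM.det, div_eq_one_iff_eq fun e => hC (by linear_combination e)]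
        ring
      · rw [QQ.smul_B, div_eq_zero_iff]
        exact .inl (by ring)
  · refine ⟨⟨1, 0, -P.B / 2, P.A, fun e => hA (by linear_combination e)⟩, key _ ?_ ?_⟩
    · rw [QQ.smul_A, GM.det, div_eq_one_iff_eq fun e => hA (by linear_combination e)]
      ring
    · rw [QQ.smul_B, div_eq_zero_iff]
      exact .inl (by ring)

theorem lin {g : GM} {P : QQ} (h : g • P = P) : P.A * (g.a - g.d) + P.B * g.b = 0 ∧
    P.C * g.b + P.A * g.c = 0 ∧ P.B * g.c - P.C * (g.a - g.d) = 0 := by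
  have d := g.det_ne
  have e1 := congrArg QQ.A h
  have e2 := congrArg QQ.B h
  have e3 := congrArg QQ.C h
  rw [QQ.smul_A, div_eq_iff d] at e1
  rw [QQ.smul_B, div_eq_iff d] at e2
  rw [QQ.smul_C, div_eq_iff d] at e3
  refine ⟨mul_left_cancel₀ d ?_, mul_left_cancel₀ d ?_, mul_left_cancel₀ d ?_⟩ <;>
    rw [GM.det] at *
  · linear_combination g.d * e1 - g.b / 2 * e2
  · linear_combination -g.c * e1 + g.a / 2 * e2
  · linear_combination -g.c / 2 * e2 + g.a * e3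

theorem rot {D B Δ : ℚ} {Q Q' : QQ} (hD : D ≠ 0) (hB : B ^ 2 ≠ D * Δ)
    (h : Gr D B Δ (⟨1, 0, -D / 4⟩, Q)) (h' : Gr D B Δ (⟨1, 0, -D / 4⟩, Q')) :
    ∃ g : GM, g • ((⟨1, 0, -D / 4⟩, Q) : QQ × QQ) = (⟨1, 0, -D / 4⟩, Q') := by
  obtain ⟨a, b, c⟩ := Q
  obtain ⟨a', b', c'⟩ := Q'
  obtain ⟨-, h1, h2⟩ := h
  obtain ⟨-, h3, h4⟩ := h'
  simp only [QQ.pair, QQ.disc] at h1 h2 h3 h4
  obtain ⟨k, rfl⟩ : ∃ k, B = k * D := ⟨B / D, by field_simp⟩
  obtain ⟨α, rfl⟩ : ∃ α, a = k + α := ⟨a - k, by ring⟩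
  obtain ⟨α', rfl⟩ : ∃ α, a' = k + α := ⟨a' - k, by ring⟩
  obtain rfl : c = (α - k) * D / 4 := by linear_combination -h1 / 2
  obtain rfl : c' = (α' - k) * D / 4 := by linear_combination -h3 / 2
  have hn : b ^ 2 - α ^ 2 * D ≠ 0 := fun e => hB (by linear_combination D * h2 - D * e)
  have he : b' ^ 2 - α' ^ 2 * D = b ^ 2 - α ^ 2 * D := by linear_combination h4 - h2
  obtain ⟨u, hu⟩ : ∃ u, u = b ^ 2 - α ^ 2 * D + b * b' - α * α' * D := ⟨_, rfl⟩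
  obtain ⟨v, hv⟩ : ∃ v, v = α' * b - α * b' := ⟨_, rfl⟩
  have hd : u * u - 2 * v * (v * D / 2) = 2 * (b ^ 2 - α ^ 2 * D) * u := by
    rw [hu, hv]
    linear_combination (b ^ 2 - α ^ 2 * D) * he
  by_cases h0 : u = 0
  · have v0 : v = 0 := by
      rw [h0] at hd
      exact pow_eq_zero_iff two_ne_zero |>.1 (mul_right_cancel₀ hD (by linear_combination -hd))
    obtain rfl : b' = -b := mul_left_cancel₀ hn (by
      linear_combination b * (h0 - hu) + α * D * (v0 - hv))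
    obtain rfl : α' = -α := mul_left_cancel₀ hn (by
      linear_combination α * (h0 - hu) + b * (v0 - hv))
    have d0 : (0 : ℚ) * 0 - 1 * (D / 4) ≠ 0 := fun e => hD (by linear_combination -4 * e)
    refine ⟨⟨0, 1, D / 4, 0, d0⟩, ?_⟩
    ext <;> simp only [Prod.smul_mk, QQ.smul_A, QQ.smul_B, QQ.smul_C, GM.det] <;>
      rw [div_eq_iff d0] <;> ring
  · have d0 : u * u - 2 * v * (v * D / 2) ≠ 0 := hd ▸ mul_ne_zero (mul_ne_zero two_ne_zero hn) h0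
    have e1 : u * b + v * α * D = u * b' - v * α' * D := by
      rw [hu, hv]
      linear_combination -b * he
    have e2 : u * α + v * b = u * α' - v * b' := by
      rw [hu, hv]
      linear_combination -α * he
    refine ⟨⟨u, 2 * v, v * D / 2, u, d0⟩, ?_⟩
    ext <;> simp only [Prod.smul_mk, QQ.smul_A, QQ.smul_B, QQ.smul_C, GM.det] <;>
      rw [div_eq_iff d0]
    · ring
    · ring
    · ring
    · linear_combination u * e2 + v * e1
    · linear_combination u * e1 + v * D * e2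
    · linear_combination D / 4 * (u * e2 + v * e1)

end DTR

open DTR

theorem t_TR1 : TR1 := by
  intro P P' h e
  obtain ⟨g, a⟩ := std P h
  obtain ⟨g', b⟩ := std P' (e ▸ h)
  exact ⟨g'⁻¹ * g, by rw [mul_smul, a, e, ← b, inv_smul_smul]⟩

theorem t_TRF : TRF := by
  rintro Δ₁ B Δ₂ ⟨P, Q⟩ h0 hB hx
  refine ⟨fun ⟨P', Q'⟩ hy => ?_, fun g h => ?_⟩
  · have k : ∀ P Q : QQ, Gr Δ₁ B Δ₂ (P, Q) → ∃ g : GM, g • P = ⟨1, 0, -Δ₁ / 4⟩ ∧
        Gr Δ₁ B Δ₂ (⟨1, 0, -Δ₁ / 4⟩, g • Q) := fun P Q ⟨a, b, c⟩ => by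
      obtain ⟨g, e⟩ := std P (a ▸ h0)
      rw [show P.disc = Δ₁ from a] at e
      exact ⟨g, e, e ▸ ⟨(QQ.disc_smul g P).trans a, (QQ.pair_smul g P Q).trans b,
        (QQ.disc_smul g Q).trans c⟩⟩
    obtain ⟨g, a, b⟩ := k P Q hx
    obtain ⟨g', a', b'⟩ := k P' Q' hy
    obtain ⟨r, e⟩ := rot h0 hB b b'
    refine ⟨g'⁻¹ * (r * g), ?_⟩
    rw [mul_smul, mul_smul, Prod.smul_mk g, a, e, ← a', ← Prod.smul_mk, inv_smul_smul]
  · obtain ⟨a1, a2, a3⟩ := lin (congrArg Prod.fst h)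
    obtain ⟨b1, b2, b3⟩ := lin (congrArg Prod.snd h)
    obtain ⟨rfl, rfl, rfl⟩ := hx
    have n := sub_ne_zero.2 hB
    simp only [QQ.pair, QQ.disc] at n a1 a2 a3 b1 b2 b3
    refine ⟨mul_left_cancel₀ n ?_, mul_left_cancel₀ n ?_, sub_eq_zero.1 (mul_left_cancel₀ n ?_)⟩ <;>
      grind

theorem t_EXI : EXI := by
  rintro Δ₁ B Δ₂ Δ₁' Δ₂' ⟨P, Q⟩ ⟨P', Q'⟩ h0 hB e ⟨rfl, h1, rfl⟩ ⟨rfl, h2, rfl⟩
  let J : QQ → QQ → QQ := fun P Q =>
    ⟨P.A * Q.B - Q.A * P.B, 2 * (P.A * Q.C - Q.A * P.C), P.B * Q.C - Q.B * P.C⟩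
  have d : ∀ P Q, (J P Q).disc = P.pair Q ^ 2 - P.disc * Q.disc := fun P Q => by
    simp only [J, QQ.disc, QQ.pair]
    ring
  have n := sub_ne_zero.2 hB
  obtain ⟨g, hg⟩ := t_TR1 (J P' Q') (J P Q) (by rw [d, h2, e]; exact n) (by rw [d, d, h1, h2, e])
  have o : (J P Q).pair (g • P') = 0 := by
    rw [← hg, QQ.pair_smul]
    simp only [J, QQ.pair]
    ring
  rw [← QQ.disc_smul g P']
  generalize g • P' = X at o
  subst h1
  refine ⟨P.pair X / P.disc, (P.disc * Q.pair X - P.pair Q * P.pair X) /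
    ((P.pair Q ^ 2 - P.disc * Q.disc) * P.disc), ?_⟩
  have k : (P.pair Q ^ 2 - P.disc * Q.disc) * X.disc = 2 * P.pair Q * P.pair X * Q.pair X -
      P.disc * Q.pair X ^ 2 - Q.disc * P.pair X ^ 2 := by
    have o2 : (J P Q).pair X ^ 2 = 0 := by rw [o]; ring
    simp only [J, QQ.pair, QQ.disc] at o2 ⊢
    linear_combination o2
  simp only at h0 n ⊢
  field_simp
  linear_combination -P.disc * k

end Pool.Agent.P.MP_8b7eba_nt.R3
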