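import Pool.Agent.P.MP_8b7eba_nt.R3.IfD

/-! Proof of VBG. -/

namespace Pool.Agent.P.MP_8b7eba_nt.R3

open _root_.Pool.Agent.P.MP_8b7eba_nt.Mod (M2 G0 FI L0 om lv)
open R1 (QF Hg Lv st Rq uu VV lf wf cnt Wt VB Dual gg dualB_F dualB_M)
open BSD15 (Adm Prim dt)
open Filter Topology Finset
open scoped Real ComplexConjugate

namespace DVBG

theorem block (N : ℕ) (f : ℤ → ℤ) (a : ℤ) (m : ℕ) :
    ∑ i ∈ range (N * m), f (a + i) = ∑ i ∈ range N, ∑ j ∈ range m, f (a + i + N * j) := by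
  induction m with
  | zero => simp
  | succ m ih =>
    rw [Nat.mul_succ, sum_range_add, ih, ← sum_add_distrib]
    refine sum_congr rfl fun i _ => ?_
    rw [sum_range_succ]
    congr 2
    push_cast
    ring

theorem bound {u v : ℤ → ℤ} {N m : ℕ} (hN : N ≠ 0) (hm : 0 < m) (hu : ∀ x, |u x| ≤ 2)
    (hv : ∀ x, |v x| ≤ 1) (hp : ∀ x j, u (x + N * j) = u x)
    (h0 : ∀ c : ℤ, ∑ j ∈ range m, v (c + N * j) = 0)
    (a b : ℤ) : |∑ C ∈ Finset.Ico a b, u C * v C| ≤ (N * m : ℕ) * 2 := by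
  rw [Int.Ico_eq_finset_map, sum_map]
  refine R1.dualA_range (f := fun C => u C * v C) (Nat.mul_pos (Nat.pos_of_ne_zero hN) hm)
    (fun x => ?_) (fun c => ?_) _ a
  · rw [abs_mul]
    have := mul_le_mul (hu x) (hv x) (abs_nonneg _) (by norm_num)
    rwa [mul_one] at this
  · rw [block N (fun C => u C * v C)]
    refine sum_eq_zero fun i _ => ?_
    simp only [hp]
    rw [← mul_sum, h0, mul_zero]

theorem jac {b N : ℕ} (hb : Adm b) (h1 : 1 < b) (hN : N.Coprime b) (c : ℤ) :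
    ∑ j ∈ range b, jacobiSym (c + N * j) b = 0 := by
  have h15 : Nat.Coprime 15 b := (hb.2.coprime_dvd_right (by norm_num)).symm
  have e := BSD15.jac_perm hN (fun a : ℕ => jacobiSym (c + a) b) fun a a' h =>
    jacobiSym.mod_left' (Int.ModEq.add_left c (Int.natCast_modEq_iff.2 h))
  have e' := BSD15.jac_perm h15 (fun a : ℕ => jacobiSym (c + a) b) fun a a' h =>
    jacobiSym.mod_left' (Int.ModEq.add_left c (Int.natCast_modEq_iff.2 h))
  simp only [Nat.cast_mul, Nat.cast_ofNat] at e e'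
  rw [e, ← e']
  exact R1.dualA_jac hb h1 c

theorem pz_cmp {b : ℕ} (hb : Adm b) {k : ℤ} (hk : (b : ℤ) ∣ k) (C : ℤ) {g : M2}
    (hg : g.det = 1) : pz b (QF.cmp ⟨0, k, C⟩ g) = jacobiSym C b := by
  rw [pz, BSD15.cfid_jac_sqf C hb.1]
  refine prod_congr rfl fun p hp => ?_
  have hpb := Nat.dvd_of_mem_primeFactors hp
  rw [QF.chip_cmp (Nat.prime_of_mem_primeFactors hp) ?_ ?_ hg, QF.chip, if_pos (dvd_zero _)]
  · rintro rfl
    have := Nat.Coprime.eq_one_of_dvd (hb.2.coprime_dvd_left hpb) (by norm_num)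
    omega
  · have : (p : ℤ) ∣ k := (Int.natCast_dvd_natCast.2 hpb).trans hk
    simp only [QF.disc, mul_zero, zero_mul, sub_zero]
    exact dvd_pow this two_ne_zero

end DVBG

theorem t_VBG : VBG := by
  intro D u m N hm h1 hN hc hk hu hp
  refine ⟨(N * m : ℕ) * 2, fun g hg k _ hk' a a' => ?_⟩
  have hmk := hk k hk'
  have e : ∀ C : ℤ, u (QF.cmp ⟨0, k, C⟩ g) * pz m (QF.cmp ⟨0, k, C⟩ g) -
      u (QF.cmp ⟨0, -k, -C⟩ g) * pz m (QF.cmp ⟨0, -k, -C⟩ g) =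
      (u (QF.cmp ⟨0, k, C⟩ g) - u (QF.cmp ⟨0, -k, -C⟩ g) * jacobiSym (-1) m) * jacobiSym C m :=
    fun C => by
      rw [DVBG.pz_cmp hm hmk C hg, DVBG.pz_cmp hm (dvd_neg.2 hmk) (-C) hg, ← neg_one_mul C,
        jacobiSym.mul_left]
      ring
  have per : ∀ k C j : ℤ, u (QF.cmp ⟨0, k, C + N * j⟩ g) = u (QF.cmp ⟨0, k, C⟩ g) := fun k C j =>
    hp _ _ (by rw [QF.disc_cmp, QF.disc_cmp]; simp [QF.disc])
      ⟨j * g.c ^ 2, by simp only [QF.cmp, QF.ev]; ring⟩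
      ⟨2 * j * g.c * g.d, by simp only [QF.cmp, QF.ev]; ring⟩
      ⟨j * g.d ^ 2, by simp only [QF.cmp, QF.ev]; ring⟩
  simp only [e]
  refine DVBG.bound (v := fun C => jacobiSym C m) hN (by omega) (fun x => ?_)
    (fun x => R1.dualA_abs_jac x m) (fun x j => ?_) (DVBG.jac hm h1 hc) a a'
  · have h2 : |u (QF.cmp ⟨0, -k, -x⟩ g) * jacobiSym (-1) m| ≤ 1 := by
      rw [abs_mul]
      exact mul_le_one₀ (hu _) (abs_nonneg _) (R1.dualA_abs_jac _ _)
    have h3 := abs_le.1 (hu (QF.cmp ⟨0, k, x⟩ g))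
    rw [abs_le] at h2 ⊢
    omega
  · rw [per, show -(x + N * j) = -x + N * -j by ring, per]

end Pool.Agent.P.MP_8b7eba_nt.R3
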