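import Pool.Agent.P.MP_8b7eba_nt.R3.DAPX
import Pool.Agent.P.MP_8b7eba_nt.R3.DARI
import Pool.Agent.P.MP_8b7eba_nt.R3.DAWAY
import Pool.Agent.P.MP_8b7eba_nt.R3.DBASE
import Pool.Agent.P.MP_8b7eba_nt.R3.DCHQ
import Pool.Agent.P.MP_8b7eba_nt.R3.DCONJG
import Pool.Agent.P.MP_8b7eba_nt.R3.DDFAM
import Pool.Agent.P.MP_8b7eba_nt.R3.DDUNF
import Pool.Agent.P.MP_8b7eba_nt.R3.DEVS
import Pool.Agent.P.MP_8b7eba_nt.R3.DFAC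
import Pool.Agent.P.MP_8b7eba_nt.R3.DGAM
import Pool.Agent.P.MP_8b7eba_nt.R3.DGAUSS
import Pool.Agent.P.MP_8b7eba_nt.R3.DGINV
import Pool.Agent.P.MP_8b7eba_nt.R3.DGK2
import Pool.Agent.P.MP_8b7eba_nt.R3.DIDC
import Pool.Agent.P.MP_8b7eba_nt.R3.DIDN
import Pool.Agent.P.MP_8b7eba_nt.R3.DINV1
import Pool.Agent.P.MP_8b7eba_nt.R3.DKC
import Pool.Agent.P.MP_8b7eba_nt.R3.DLC
import Pool.Agent.P.MP_8b7eba_nt.R3.DLEX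
import Pool.Agent.P.MP_8b7eba_nt.R3.DLIMN
import Pool.Agent.P.MP_8b7eba_nt.R3.DLOC
import Pool.Agent.P.MP_8b7eba_nt.R3.DLZ
import Pool.Agent.P.MP_8b7eba_nt.R3.DNFAC
import Pool.Agent.P.MP_8b7eba_nt.R3.DNPR
import Pool.Agent.P.MP_8b7eba_nt.R3.DR1X
import Pool.Agent.P.MP_8b7eba_nt.R3.DRSX
import Pool.Agent.P.MP_8b7eba_nt.R3.DSCL
import Pool.Agent.P.MP_8b7eba_nt.R3.DSQA
import Pool.Agent.P.MP_8b7eba_nt.R3.DSQB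
import Pool.Agent.P.MP_8b7eba_nt.R3.DSUM0
import Pool.Agent.P.MP_8b7eba_nt.R3.DSWP
import Pool.Agent.P.MP_8b7eba_nt.R3.DTR
import Pool.Agent.P.MP_8b7eba_nt.R3.DVBG

/-! Block D of the project R3. -/

namespace Pool.Agent.P.MP_8b7eba_nt.R3

theorem a_GINV : GINV := t_GINV t_KC

theorem a_CONJG : CONJG := t_CONJG t_KC a_GINV

theorem a_LZ : LZ := t_LZ t_KC

theorem a_INV1 : INV1 := t_INV1 t_KC t_CHQ

theorem a_INV2 : INV2 := t_INV2 t_KC t_CHQ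

theorem a_LOC : LOC := t_LOC t_CSE t_EXI t_APX (t_LC t_KC) a_INV2

theorem a_NFAC : NFAC :=
  t_NFAC t_KC a_GINV t_RSX t_FAC t_HH t_TRF a_INV1 a_INV2 (t_WFAC t_KC) t_R1X

theorem a_POS : POS :=
  t_POS t_KC a_GINV t_RSX t_FAC t_HH t_TRF a_INV1 a_INV2 (t_WFAC t_KC) t_R1X

theorem a_AWAY : AWAY :=
  t_AWAY t_KC t_RSX t_CSE a_INV2 a_LOC a_NFAC a_POS t_EVS (t_NPR t_SWP) t_ARI

theorem a_IDN : IDN := t_IDN t_KC a_LOC (t_SCL t_CSE a_INV1) a_NFAC a_AWAY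

theorem a_IDC : IDC := t_IDC t_KC a_CONJG (t_SUM0 t_KC a_GINV) t_HSUM a_IDN

theorem a_SQ : SQ :=
  t_SQ t_KC a_LZ (t_SQA t_KC a_GINV t_VBG t_DFAM (t_DUNF t_KC a_GINV))
    (t_SQB t_KC a_GINV t_VBG t_DFAM (t_DUNF t_KC a_GINV))

theorem a_STEP : STEP :=
  t_STEP t_KC a_LZ a_CONJG t_RSX t_SWP (t_LIMN t_KC a_GINV) a_SQ a_IDC

theorem a_LFUN : LFUN := u_LFUN (t_LEX t_KC (t_GAUSS t_KC)) a_LZ

theorem a_CONJ : CONJ := u_CONJ a_CONJG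

theorem a_GKN (hH : HEEG) (hE : EXM) : GKN := u_GKN hH hE t_KC (t_BASE t_KC) a_STEP

end Pool.Agent.P.MP_8b7eba_nt.R3
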