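import Pool.Agent.P.MP_8b7eba_nt.SM.All

/-! Almost all integers have a large prime factor in a given residue class. -/

namespace Pool.Agent.P.MP_8b7eba_nt.R3

open Finset SM Filter Topology ArithmeticFunction ArithmeticFunction.vonMangoldt

theorem not_summable_inv {q : ℕ} [NeZero q] {a : ZMod q} (ha : IsUnit a) :
    ¬ Summable fun n : ℕ => if n.Prime ∧ (n : ZMod q) = a then (n : ℝ)⁻¹ else 0 := by
  intro H
  obtain ⟨C, hC⟩ := LSeries_residueClass_lower_bound ha
  have hb := H.add (summable_residueClass_non_primes_div a)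
  have h1 : Tendsto (fun x : ℝ => ∑' n : ℕ, (x - 1) * (residueClass a n / (n : ℝ) ^ x))
      (𝓝[>] 1) (𝓝 (∑' _ : ℕ, (0 : ℝ))) := by
    refine tendsto_tsum_of_dominated_convergence hb (fun n => ?_) ?_
    · rcases n.eq_zero_or_pos with rfl | hn
      · simp
      have hn' : (0 : ℝ) < n := by exact_mod_cast hn
      have hc : Continuous fun x : ℝ => (x - 1) * (residueClass a n / (n : ℝ) ^ x) :=
        (continuous_id.sub continuous_const).mul (continuous_const.div
          (Real.continuous_const_rpow hn'.ne') fun x => (Real.rpow_pos_of_pos hn' x).ne')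
      simpa using (hc.tendsto 1).mono_left nhdsWithin_le_nhds
    · filter_upwards [Ioc_mem_nhdsGT one_lt_two] with x hx n
      have h0 := residueClass_nonneg a n
      have hx0 : 0 < x - 1 := sub_pos.2 hx.1
      rcases n.eq_zero_or_pos with rfl | hn
      · simp [Nat.not_prime_zero]
      have hn' : (0 : ℝ) < n := by exact_mod_cast hn
      have hn1 : (1 : ℝ) ≤ n := by exact_mod_cast hn
      rw [Real.norm_of_nonneg (by positivity)]
      by_cases hp : n.Prime
      · by_cases hm : (n : ZMod q) = a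
        · rw [if_pos ⟨hp, hm⟩, if_pos hp, zero_div, add_zero, residueClass,
            Set.indicator_of_mem (by exact hm), vonMangoldt_apply_prime hp]
          have e : (n : ℝ) ^ x = n * Real.exp ((x - 1) * Real.log n) := by
            rw [mul_comm (x - 1), ← Real.rpow_def_of_pos hn', ← Real.rpow_one_add' hn'.le
              (by linarith [hx.1]), add_sub_cancel]
          have k := Real.add_one_le_exp ((x - 1) * Real.log n)
          rw [e, ← mul_div_assoc, div_le_iff₀ (by positivity), ← mul_assoc,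
            inv_mul_cancel₀ hn'.ne', one_mul]
          linarith
        · rw [residueClass, Set.indicator_of_notMem (by exact hm)]
          simp [hm, hp]
      · rw [if_neg (fun h => hp h.1), if_neg hp, zero_add]
        have k : (n : ℝ) ≤ (n : ℝ) ^ x := by
          conv_lhs => rw [← Real.rpow_one n]
          exact Real.rpow_le_rpow_of_exponent_le hn1 hx.1.le
        refine (mul_le_of_le_one_left (by positivity) (by linarith [hx.2])).trans ?_
        exact div_le_div_of_nonneg_left h0 hn' k
  have h2 : Tendsto (fun x : ℝ => (q.totient : ℝ)⁻¹ - (x - 1) * C) (𝓝[>] 1)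
      (𝓝 ((q.totient : ℝ)⁻¹ - (1 - 1) * C)) :=
    ((continuous_const.sub ((continuous_id.sub continuous_const).mul continuous_const)).tendsto
      1).mono_left nhdsWithin_le_nhds
  have h3 := le_of_tendsto_of_tendsto h2 h1 (by
    filter_upwards [Ioc_mem_nhdsGT one_lt_two] with x hx
    have hx0 : 0 < x - 1 := sub_pos.2 hx.1
    rw [tsum_mul_left]
    have k := mul_le_mul_of_nonneg_left (hC hx) hx0.le
    rwa [mul_sub, mul_div_cancel₀ _ hx0.ne'] at k)
  have hq : 0 < (q.totient : ℝ)⁻¹ := inv_pos.2 (by exact_mod_cast q.totient.pos_of_neZero)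
  simp only [sub_self, zero_mul, sub_zero, tsum_zero] at h3
  linarith

theorem exists_primes {q a : ℕ} (hq : q ≠ 0) (h : a.Coprime q) (B : ℕ) (M : ℝ) :
    ∃ P : Finset ℕ, (∀ p ∈ P, p.Prime ∧ B < p ∧ p % q = a % q) ∧ M ≤ ∑ p ∈ P, (p : ℝ)⁻¹ := by
  classical
  have : NeZero q := ⟨hq⟩
  by_contra hc
  push Not at hc
  refine not_summable_inv ((ZMod.isUnit_iff_coprime a q).2 h) ?_
  rw [← summable_nat_add_iff (B + 1)]
  refine summable_of_sum_le (c := M) (fun n => by split_ifs <;> positivity) fun u => ?_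
  rw [← sum_filter]
  refine le_trans (le_of_eq ?_) (hc (((u.filter fun n => (n + (B + 1)).Prime ∧
    ((n + (B + 1) : ℕ) : ZMod q) = a).image (· + (B + 1)))) fun p hp => ?_).le
  · rw [sum_image fun x _ y _ e => by simpa using e]
  · obtain ⟨n, hn, rfl⟩ := mem_image.1 hp
    obtain ⟨-, h1, h2⟩ := mem_filter.1 hn
    exact ⟨h1, by omega, (ZMod.natCast_eq_natCast_iff' _ _ _).1 h2⟩

open Classical in
/-- almost all integers have a large prime factor in the residue class -/
theorem divp {q a : ℕ} (hq : q ≠ 0) (h : a.Coprime q) (B : ℕ) (ε : ℝ) (hε : 0 < ε) :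
    ∃ X₀ : ℕ, ∀ X, X₀ ≤ X → (((Icc 1 X).filter fun n =>
      ∀ p : ℕ, p.Prime → B < p → p % q = a % q → ¬ p ∣ n).card : ℝ) ≤ ε * X := by
  obtain ⟨P, hP, hM⟩ := exists_primes hq h B (8 / ε)
  have h0 : 0 < 8 / ε := by positivity
  refine ⟨2 * P.card, fun X hX => ?_⟩
  refine le_trans (Nat.cast_le.2 (card_le_card fun n hn => ?_))
    ((a_TK P X _ (fun p hp => (hP p hp).1) hX rfl (h0.trans_le hM)).trans ?_)
  · obtain ⟨h1, h2⟩ := mem_filter.1 hn
    refine mem_filter.2 ⟨h1, ?_⟩
    rw [filter_eq_empty_iff.2 fun p hp => h2 p (hP p hp).1 (hP p hp).2.1 (hP p hp).2.2]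
    simp only [card_empty, Nat.cast_zero]
    linarith
  · rw [div_le_iff₀ (h0.trans_le hM)]
    have k := mul_le_mul_of_nonneg_left hM (show 0 ≤ ε * X by positivity)
    have e : ε * X * (8 / ε) = 8 * X := by field_simp
    linarith

end Pool.Agent.P.MP_8b7eba_nt.R3
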