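import Pool.Agent.P.MP_8b7eba_nt.R3.Defs

/-! The main theorem of the project R3 follows from the four blocks. -/

namespace Pool.Agent.P.MP_8b7eba_nt.R3

open _root_.Pool.Agent.P.MP_8b7eba_nt.Mod (M2 G0 FI L0 om lv)
open R1 (QF Hg Lv st Rq uu)
open R2 (Om GQ GS Pl Tate V2 EO PZ Cob rS S1 UF tac io W15 ac sd tau RatP)
open MP_9c97e9_nt (pm)
open scoped R1 R2
open Filter Topology

/-- a point on which complex conjugation acts in the right way -/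
def INF : Prop :=
  ∀ (Z : EO) (z : ℂ) (δ sk : Om) (l : ℕ) (m : ℤ) (u v : ℚ), 0 < l → sk ^ 2 = -l → δ ^ 2 = m → m ≠ 0 →
    ¬ IsOfFinAddOrder Z → (∀ g : GQ, g sk = sk → tac δ g Z = Z) → pm W15 io Z = uu z →
    (starRingEnd ℂ) z - m.sign * z = u * L0 + v * om * Complex.I → (RatP δ).Infinite

/-- the root number is a sign -/
def RN : Prop := ∀ d : ℤ, d ≠ 0 → rn d = 1 ∨ rn d = -1

/-- almost all twists are good -/
def DENS : Prop :=
  ∀ (T : Tate (SM.pl 2)) (ε : ℝ), 0 < ε → ∃ X₀ : ℕ, ∀ X : ℕ, X₀ ≤ X →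
    ({d : ℤ | |d| ≤ X ∧ Squarefree d ∧ ¬ Nice T d}.ncard : ℝ) ≤ ε * X

/-- the family of the twisting parameters -/
def Fam (X : ℕ) : Set ℤ := {d | |d| ≤ X ∧ Squarefree d}

/-- a property of good twists holds for almost all twists -/
def LIM : Prop :=
  ∀ G : ℤ → Prop, (∀ (T : Tate (SM.pl 2)) (d : ℤ), Nice T d → G d) →
    Tendsto (fun X : ℕ => ({d ∈ Fam X | G d}.ncard / (Fam X).ncard : ℝ)) atTop (𝓝 1)

theorem t_IRX (hH : HEEG) : IRX := by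
  intro T d hd b B hb
  obtain ⟨l, h1, h2, h3, h4⟩ := hd.2.2 b B hb
  have e : (R2.rt d * R2.rt (-l)) ^ 2 = ((-l * d : ℤ) : Om) := by
    rw [mul_pow, R2.rt_sq, R2.rt_sq]
    push_cast
    ring
  obtain ⟨⟨Z, ρ, S, a1, -, a3, a4⟩, -⟩ := hH _ T l d (R2.rt d) (R2.rt (-l)) (SM.pl_p Nat.prime_two) h2
    (R2.rt_sq d) (by rw [R2.rt_sq]; push_cast; rfl) (hd.2.1 _ (R2.rt_sq d)) (h4 _ e)
  refine ⟨l, h1, ⟨h2, ρ, S, a3, fun h => a1 ?_⟩, h3⟩
  rw [← a4] at h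
  exact (MP_9c97e9_nt.pm_injective (W := W15) io).isOfFinAddOrder_iff.1 h

theorem main (hH : HEEG) (hK : KUM) (hL : LFUN) (hC : CONJ) (hG : GKF) (hI : INF) (hR : RN)
    (T : Tate (SM.pl 2)) (d : ℤ) (hd : Nice T d) :
    (∃ f, BSD15.IsL (-12987 * d ^ 2) (-263466 * d ^ 3) f) ∧
      ∀ f, BSD15.IsL (-12987 * d ^ 2) (-263466 * d ^ 3) f →
        (f 1 = 0 ↔ (SM.Af d).Infinite) ∧ (f 1 = 0 ↔ rn d = -1) := by
  have hw := SM.pl_p Nat.prime_two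
  obtain ⟨l, -, h2, -, h4⟩ := hd.2.2 1 0 isCoprime_one_left
  have d0 := hd.1.ne_zero
  have l0 := h2.lp.pos
  have d1 : d ≠ 1 := by
    rintro rfl
    obtain ⟨p, p1, -, p3⟩ := h2.big
    exact p1.one_lt.ne' (by exact_mod_cast Int.eq_one_of_dvd_one (by positivity) p3)
  have hsk : R2.rt (-l) ^ 2 = -(l : Om) := by rw [R2.rt_sq]; push_cast; rfl
  have e : (R2.rt d * R2.rt (-l)) ^ 2 = ((-l * d : ℤ) : Om) := by
    rw [mul_pow, R2.rt_sq, hsk]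
    push_cast
    ring
  obtain ⟨⟨Z, ρ, S, a1, a2, a3, a4⟩, a5⟩ := hH _ T l d (R2.rt d) (R2.rt (-l)) hw h2
    (R2.rt_sq d) hsk (hd.2.1 _ (R2.rt_sq d)) (h4 _ e)
  obtain ⟨u, v, huv⟩ := hC l d ρ S h2 a3
  obtain ⟨b1, b2, b3⟩ := hL d hd.1 d1
  refine ⟨b1, fun f hf => ?_⟩
  rcases hR d d0 with h | h
  · have h0 : ¬ f 1 = 0 := fun h0 => hG T d hd h ((b2 f hf).1 h0)
    refine ⟨iff_of_false h0 fun hi => ?_, iff_of_false h0 (by omega)⟩
    have n0 : (-l * d : ℤ) ≠ 0 := mul_ne_zero (by omega) d0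
    have nl : ¬ (l : ℤ) ∣ d := fun hl => by
      have := h2.spl l h2.lp (by have := h2.l16; omega) (hl.mul_left 15)
      rw [jacobiSym.mod_left, Int.emod_eq_zero_of_dvd (dvd_neg.2 dvd_rfl),
        jacobiSym.zero_left h2.lp.one_lt] at this
      exact zero_ne_one this
    have hl : Prime (l : ℤ) := Nat.prime_iff_prime_int.1 h2.lp
    have g1 : Squarefree (-l * d : ℤ) := squarefree_mul_iff.2
      ⟨((hl.coprime_iff_not_dvd.2 nl).neg_left).isRelPrime, hl.neg.squarefree, hd.1⟩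
    have i2 := hI Z _ _ _ l _ u v l0 hsk e n0 a1 (fun g hg => by
      rw [← a2 g hg]
      have : sd (R2.rt d * R2.rt (-l)) g = sd (R2.rt d) g := by
        have s0 : R2.rt (-l) ≠ 0 := fun s => by
          rw [s, zero_pow two_ne_zero, eq_comm, neg_eq_zero, Nat.cast_eq_zero] at hsk
          omega
        simp only [sd, map_mul, hg, mul_left_inj' s0]
      rw [a2 g hg]
      nth_rw 2 [← a2 g hg]
      simp only [tac, this]) a4 (by
      rw [← huv, h, Int.sign_mul, Int.sign_neg, Int.sign_natCast_of_ne_zero l0.ne']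
      push_cast
      ring)
    obtain ⟨x, x1, x2⟩ := hK _ T _ d hw (R2.rt_sq d) hd.1 hi
    obtain ⟨y, y1, y2⟩ := hK _ T _ _ hw e g1 ((R2.a_SHA _ _ n0 e).1 i2)
    exact (a5 x y x1 y1).elim x2 y2
  · have h0 : f 1 = 0 := (b2 f hf).2 (b3 h)
    refine ⟨iff_of_true h0 ((R2.a_SHA _ _ d0 (R2.rt_sq d)).1
      (hI Z _ _ _ l _ u v l0 hsk (R2.rt_sq d) d0 a1 a2 a4 ?_)), iff_of_true h0 h⟩
    rw [← huv, h]
    push_cast
    ring

end Pool.Agent.P.MP_8b7eba_nt.R3
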