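import Pool.Agent.P.MP_8b7eba_nt.R3.BTw
import Pool.Agent.P.MP_8b7eba_nt.R3.BDiv
import Pool.Agent.P.MP_8b7eba_nt.R3.Top

/-! The Selmer group has rank at most one for almost all squarefree twists. -/

namespace Pool.Agent.P.MP_8b7eba_nt.R3

open Finset R2 SM Filter Topology

theorem split30 {d : ℤ} (h : Squarefree d) : ∃ (b : ℤ) (n : ℕ), b ∣ 30 ∧ Squarefree n ∧
    n.Coprime 30 ∧ n ∣ d.natAbs ∧ d = b * ps n := by
  have hs := Int.squarefree_natAbs.2 h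
  obtain ⟨n, hn⟩ := Nat.gcd_dvd_left d.natAbs 30
  have h1 : n ∣ d.natAbs := Dvd.intro_left _ hn.symm
  have h2 : n.Coprime 30 := by
    have k := (Nat.squarefree_mul_iff.1 (hn ▸ hs)).1
    refine Nat.coprime_of_dvd fun p hp a c => hp.one_lt.ne' ?_
    exact Nat.eq_one_of_dvd_coprimes k (Nat.dvd_gcd (a.trans h1) c) a
  have h3 : ((d.natAbs.gcd 30 : ℕ) : ℤ) ∣ 30 := by exact_mod_cast Nat.gcd_dvd_right _ 30
  have h4 : d.natAbs = ((d.natAbs.gcd 30 : ℕ) * ps n).natAbs := by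
    rw [Int.natAbs_mul, BasG.abs_ps, Int.natAbs_natCast, ← hn]
  rcases Int.natAbs_eq_natAbs_iff.1 h4 with e | e
  · exact ⟨_, n, h3, hs.squarefree_of_dvd h1, h2, h1, e⟩
  · exact ⟨_, n, h3.neg_left, hs.squarefree_of_dvd h1, h2, h1, by rw [neg_mul]; exact e⟩

open Classical in
/-- the theorem of Smith for all squarefree twists -/
theorem densa (T : Tate (pl 2)) (ε : ℝ) (hε : 0 < ε) : ∃ X₀ : ℕ, ∀ X : ℕ, X₀ ≤ X →
    (((Icc (-X : ℤ) X).filter fun d => Squarefree d ∧ ¬ Rk1 T (rt d) d).card : ℝ) ≤ ε * X := by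
  obtain ⟨F, hF⟩ : ∃ F : Finset ℤ, F = (Icc (-30 : ℤ) 30).filter (· ∣ 30) := ⟨_, rfl⟩
  have h := fun b : F => densb T (mem_filter.1 (hF.subset b.2)).2 (ε / 61) (by positivity)
  choose X₀ h using h
  refine ⟨univ.sup X₀, fun X hX => ?_⟩
  have s : ((Icc (-X : ℤ) X).filter fun d => Squarefree d ∧ ¬ Rk1 T (rt d) d) ⊆
      univ.biUnion fun b : F => ((Icc 1 X).filter fun n => Squarefree n ∧ n.Coprime 30 ∧
          ¬ Rk1 T (rt (b * ps n)) (b * ps n)).image fun n => b.1 * ps n := by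
    intro d hd
    obtain ⟨d1, d2, d3⟩ := mem_filter.1 hd
    obtain ⟨b, n, a1, a2, a3, a4, a5⟩ := split30 d2
    have a6 := Nat.le_of_dvd (Int.natAbs_pos.2 d2.ne_zero) a4
    have a7 := mem_Icc.1 d1
    have a8 := Int.natAbs_le_of_dvd_ne_zero a1 (by norm_num)
    refine mem_biUnion.2 ⟨⟨b, hF.superset (mem_filter.2 ⟨mem_Icc.2 (by omega), a1⟩)⟩, mem_univ _,
      mem_image.2 ⟨n, mem_filter.2 ⟨mem_Icc.2 ⟨Nat.pos_of_ne_zero a2.ne_zero, by omega⟩, a2, a3,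
        a5 ▸ d3⟩, a5.symm⟩⟩
  have t := (Nat.cast_le (α := ℝ)).2 ((card_le_card s).trans card_biUnion_le)
  rw [Nat.cast_sum] at t
  refine t.trans ((sum_le_sum fun b _ => (Nat.cast_le.2 card_image_le).trans
    (h b X ((le_sup (mem_univ b)).trans hX))).trans ?_)
  rw [sum_const, card_univ, Fintype.card_coe, nsmul_eq_mul]
  have k : (F.card : ℝ) ≤ 61 := by
    rw [hF]
    exact_mod_cast (card_filter_le _ _).trans (by simp)
  have k' := mul_le_mul_of_nonneg_right k (show 0 ≤ ε / 61 * X by positivity)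
  linarith

theorem fam_finite (X : ℕ) : (Fam X).Finite :=
  (Set.finite_Icc (-X : ℤ) X).subset fun _ h => abs_le.1 h.1

theorem fam_pos : ∃ c : ℝ, 0 < c ∧ ∀ᶠ X : ℕ in atTop, c * X ≤ (Fam X).ncard := by
  obtain ⟨c, hc, X₀, h⟩ := SM.a_SQD 1 (by norm_num)
  refine ⟨c, hc, (eventually_ge_atTop X₀).mono fun X hX => (h X hX).trans ?_⟩
  rw [Nat.cast_le, ← Set.ncard_coe_finset]
  refine Set.ncard_le_ncard_of_injOn (fun n : ℕ => (n : ℤ)) (fun n hn => ?_)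
    (fun a _ b _ e => Nat.cast_injective e) (fam_finite X)
  obtain ⟨a1, a2, -⟩ := Finset.mem_filter.1 (Finset.mem_coe.1 hn)
  have := (Finset.mem_Icc.1 a1).2
  exact ⟨by rw [Nat.abs_cast]; exact_mod_cast this, Int.squarefree_natCast.2 a2⟩

/-- sets of squarefree integers of density zero -/
def Nul (P : ℤ → Prop) : Prop :=
  ∀ ε : ℝ, 0 < ε → ∀ᶠ X : ℕ in atTop, ({d ∈ Fam X | P d}.ncard : ℝ) ≤ ε * X

theorem Nul.mono {P Q : ℤ → Prop} (h : Nul Q) (e : ∀ d, Squarefree d → P d → Q d) : Nul P :=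
  fun ε hε => (h ε hε).mono fun X hX => le_trans (Nat.cast_le.2 (Set.ncard_le_ncard
    (fun d hd => And.intro hd.1 (e d hd.1.2 hd.2)) ((fam_finite X).subset fun _ h => h.1))) hX

theorem Nul.or {P Q : ℤ → Prop} (h : Nul P) (h' : Nul Q) : Nul fun d => P d ∨ Q d := by
  intro ε hε
  filter_upwards [h (ε / 2) (by positivity), h' (ε / 2) (by positivity)] with X a b
  have e : {d ∈ Fam X | P d ∨ Q d} = {d ∈ Fam X | P d} ∪ {d ∈ Fam X | Q d} := by
    ext d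
    simp only [Set.mem_ofPred_eq, Set.mem_union, and_or_left]
  have k := (Nat.cast_le (α := ℝ)).2 (Set.ncard_union_le {d ∈ Fam X | P d} {d ∈ Fam X | Q d})
  rw [e]
  push_cast at k
  linarith

theorem nul_rk (T : Tate (pl 2)) : Nul fun d => ¬ Rk1 T (rt d) d := by
  classical
  intro ε hε
  obtain ⟨X₀, h⟩ := densa T ε hε
  filter_upwards [eventually_ge_atTop X₀] with X hX
  refine le_trans ?_ (h X hX)
  rw [Nat.cast_le, ← Set.ncard_coe_finset]
  exact Set.ncard_le_ncard (fun d hd => mem_coe.2 (mem_filter.2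
    ⟨mem_Icc.2 (abs_le.1 hd.1.1), hd.1.2, hd.2⟩)) (Finset.finite_toSet _)

/-- a property of the absolute value which is rare -/
theorem nul_abs {P : ℕ → Prop} [DecidablePred P] (h : ∀ ε : ℝ, 0 < ε → ∃ X₀ : ℕ, ∀ X, X₀ ≤ X →
    (((Icc 1 X).filter P).card : ℝ) ≤ ε * X) : Nul fun d => P d.natAbs := by
  intro ε hε
  obtain ⟨X₀, h⟩ := h (ε / 2) (by positivity)
  filter_upwards [eventually_ge_atTop X₀] with X hX
  have s : {d ∈ Fam X | P d.natAbs} ⊆ ↑(((Icc 1 X).filter P).image (fun n : ℕ => (n : ℤ)) ∪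
      ((Icc 1 X).filter P).image fun n : ℕ => -(n : ℤ)) := by
    intro d hd
    have h0 := hd.1.2.ne_zero
    have h1 := abs_le.1 hd.1.1
    have h2 : d.natAbs ∈ (Icc 1 X).filter P := mem_filter.2 ⟨mem_Icc.2 (by omega), hd.2⟩
    rw [mem_coe, mem_union]
    rcases Int.natAbs_eq d with e | e
    · exact .inl (mem_image.2 ⟨_, h2, e.symm⟩)
    · exact .inr (mem_image.2 ⟨_, h2, e.symm⟩)
  have t := Set.ncard_le_ncard s (Finset.finite_toSet _)
  rw [Set.ncard_coe_finset] at t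
  have t' := (Nat.cast_le (α := ℝ)).2 (t.trans ((card_union_le _ _).trans
    (Nat.add_le_add card_image_le card_image_le)))
  push_cast at t'
  linarith [h X hX]

/-- almost all integers have a large prime factor in a given residue class -/
theorem nul_div {q a : ℕ} (hq : q ≠ 0) (h : a.Coprime q) (B : ℕ) :
    Nul fun d => ∀ p : ℕ, p.Prime → B < p → p % q = a % q → ¬ (p : ℤ) ∣ d := by
  classical
  exact (nul_abs (divp hq h B)).mono fun d _ e p a1 a2 a3 a4 =>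
    e p a1 a2 a3 (Int.natCast_dvd.2 a4)

/-- a property whose negation is rare holds for almost all squarefree integers -/
theorem dens_of_nul {G : ℤ → Prop} (h : Nul fun d => ¬ G d) :
    Tendsto (fun X : ℕ => ({d ∈ Fam X | G d}.ncard / (Fam X).ncard : ℝ)) atTop (𝓝 1) := by
  obtain ⟨c, hc, hX⟩ := fam_pos
  refine Metric.tendsto_nhds.2 fun ε hε => ?_
  filter_upwards [hX, h (c * (ε / 2)) (by positivity), eventually_gt_atTop 0] with X a1 b1 a3
  have b2 : ({d ∈ Fam X | G d}.ncard + {d ∈ Fam X | ¬ G d}.ncard : ℝ) = (Fam X).ncard := by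
    rw [← Nat.cast_add, ← Set.ncard_union_eq (Set.disjoint_left.2 fun d a b => b.2 a.2)
      ((fam_finite X).subset fun _ h => h.1) ((fam_finite X).subset fun _ h => h.1)]
    congr 2
    ext d
    exact ⟨fun h => h.elim (·.1) (·.1), fun h => (em (G d)).imp (⟨h, ·⟩) (⟨h, ·⟩)⟩
  have b3 : (0 : ℝ) < c * X := by positivity
  have b4 := b3.trans_le a1
  have b5 : (0 : ℝ) ≤ {d ∈ Fam X | ¬ G d}.ncard := Nat.cast_nonneg _
  rw [Real.dist_eq, abs_sub_comm, abs_of_nonneg (by rw [sub_nonneg, div_le_one b4]; linarith),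
    sub_lt_iff_lt_add, ← sub_lt_iff_lt_add', lt_div_iff₀ b4]
  nlinarith

theorem rq_rt {w : Pl} (T : Tate w) {δ : Om} {d : ℤ} (h : δ ^ 2 = d) : T.rq δ = T.rq (rt d) := by
  funext g
  refine LinearMap.ext fun v => ?_
  rw [Tate.rq_apply, Tate.rq_apply, Tate.rd, Tate.rd, sd_eq_qz h, sd_eq_qz (rt_sq d)]

theorem selQ_rt {w : Pl} {T : Tate w} {δ : Om} {d : ℤ} (h : δ ^ 2 = d) {x : GS → V2} :
    SelQ T δ d x ↔ SelQ T (rt d) d x := by
  have e := rq_rt T h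
  exact ⟨fun k => ⟨e ▸ k.pz, k.unr, e ▸ k.bad, e ▸ k.ord⟩,
    fun k => ⟨e ▸ k.pz, k.unr, e ▸ k.bad, e ▸ k.ord⟩⟩

theorem rk1_rt {w : Pl} {T : Tate w} {δ : Om} {d : ℤ} (h : δ ^ 2 = d) :
    Rk1 T δ d ↔ Rk1 T (rt d) d := by
  simp only [Rk1, selQ_rt h, rq_rt T h]

theorem Nul.dens {P : ℤ → Prop} (h : Nul P) (ε : ℝ) (hε : 0 < ε) : ∃ X₀ : ℕ, ∀ X : ℕ, X₀ ≤ X →
    ({d : ℤ | |d| ≤ X ∧ Squarefree d ∧ P d}.ncard : ℝ) ≤ ε * X := by
  obtain ⟨X₀, h⟩ := eventually_atTop.1 (h ε hε)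
  refine ⟨X₀, fun X hX => le_of_eq_of_le ?_ (h X hX)⟩
  congr 2
  ext d
  exact and_assoc.symm

theorem Nul.of_dens {P : ℤ → Prop} (h : ∀ ε : ℝ, 0 < ε → ∃ X₀ : ℕ, ∀ X : ℕ, X₀ ≤ X →
    ({d : ℤ | |d| ≤ X ∧ Squarefree d ∧ P d}.ncard : ℝ) ≤ ε * X) : Nul P := by
  intro ε hε
  obtain ⟨X₀, h⟩ := h ε hε
  refine eventually_atTop.2 ⟨X₀, fun X hX => le_of_eq_of_le ?_ (h X hX)⟩
  congr 2
  ext d
  exact and_assoc

theorem t_DENSB : DENSB := fun T =>
  ((nul_rk T).mono fun _ _ h k => h fun _ e => (rk1_rt e).2 k).dens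

theorem t_DENS (hB : DENSB) (hC : DENSC) : DENS := fun T =>
  (((Nul.of_dens (hB T)).or (Nul.of_dens (hC T))).mono fun _ h k => by
    by_contra e
    rw [not_or, not_not, not_not] at e
    exact k ⟨h, e⟩).dens

theorem t_LIM (T : Tate (pl 2)) (hD : DENS) : LIM := fun _ hG =>
  dens_of_nul ((Nul.of_dens (hD T)).mono fun d _ h k => h (hG T d k))

end Pool.Agent.P.MP_8b7eba_nt.R3
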