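import Pool.Agent.P.MP_8b7eba_nt.SM.All
import Pool.Agent.P.MP_8b7eba_nt.R3.Defs

/-! Twisted lattices and the reduction of the Selmer group of an arbitrary twist to them. -/

namespace Pool.Agent.P.MP_8b7eba_nt.R3

open Finset R2 SM Filter Topology
open scoped Matrix

theorem qz30_I {b : ℤ} (hb : b ∣ 30) {w : Pl} (hw : ¬ w.p ∣ 30) {g : GQ} (hg : g ∈ w.I) :
    qz b g = 0 := by
  refine qz_I hA (fun e => hw (w.prime.dvd_of_dvd_pow (n := 2) ?_)) hg
  have k : 2 * b ∣ ((30 ^ 2 : ℕ) : ℤ) := (mul_dvd_mul_left 2 hb).trans (by norm_num)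
  exact_mod_cast e.trans k

/-- the twist of a lattice by the quadratic character of a divisor of thirty -/
noncomputable def tw (Λ : SM.Lat) {b : ℤ} (hb : b ∣ 30) : SM.Lat where
  r :=
    { toFun := Λ.rt (qz b)
      map_one' := SM.Lat.rt_one (isCh_qz (H := ⊤) b)
      map_mul' := fun _ _ => SM.Lat.rt_mul (isCh_qz (H := ⊤) b) trivial trivial }
  c g := Λ.hh (qz b g) g
  hc g := Λ.rt_eq _ g
  sm n := by
    obtain ⟨N, hN, h⟩ := Λ.sm n
    obtain ⟨N', hN', h'⟩ := (isCh_qz (H := ⊤) b).1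
    refine ⟨N ⊓ N', hN.inf hN', fun g hg k hk m => funext fun i => rn_eq.2 ?_⟩
    have h1 := (rn_eq.1 (congrFun (h g hg k hk m.1) i)).smul (sg (qz b g))
    refine BasZ.of_eq h1 ?_
    funext j
    simp [SM.Lat.rt, h' g hg k hk m.2, mul_sub]
  det g := by
    show (sg (qz b g) • Λ.r g).det = _
    rw [Matrix.det_smul, Fintype.card_fin, pow_two, BasY.sg_sq, one_mul, Λ.det]
  unr w hw g hg := by
    show sg (qz b g) • Λ.r g = 1
    rw [qz30_I hb hw hg, BasY.sg_zero, one_smul, Λ.unr w hw g hg]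
  up g hg := by
    show sg (qz b g) * Λ.r g 1 0 = 0
    rw [Λ.up g hg, mul_zero]

variable {Λ Λ' : SM.Lat} {b : ℤ} (hb : b ∣ 30) {ψ : GQ → F2} {H : Subgroup GQ} {n : ℕ}
  {x : GQ → VZ} {o : Prop}

theorem tw_rt : (tw Λ hb).rt ψ = Λ.rt (ψ + qz b) := by
  funext g
  show sg (ψ g) • sg (qz b g) • Λ.r g = sg (ψ g + qz b g) • Λ.r g
  rw [sg_add, mul_smul]

theorem tw_bd : (tw Λ hb).bd ψ = Λ.bd (ψ + qz b) := by
  funext v g
  rw [SM.Lat.bd, SM.Lat.bd, tw_rt]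

theorem tw_zn : (tw Λ hb).Zn ψ H n x ↔ Λ.Zn (ψ + qz b) H n x := by
  rw [BasZ.zn_iff, BasZ.zn_iff, tw_rt]

theorem tw_lc : (tw Λ hb).Lc o ψ H n x ↔ Λ.Lc o (ψ + qz b) H n x := by
  simp only [SM.Lat.Lc, SM.Lat.Ex, tw_zn, tw_bd]

theorem tw_cb (g : GQ) : (tw Λ hb).cb g = Λ.cb g + qz b g • (1 : Matrix (Fin 2) (Fin 2) F2) := by
  ext i j
  have h := congrFun (Λ.rd_hh (qz b g) g (Pi.single j 1)) i
  have e : rd (Pi.single j 1) = Pi.single j 1 := by
    funext k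
    by_cases h : k = j
    · subst h
      simp [rd]
    · simp [rd, h]
  rw [e] at h
  show PadicInt.toZMod (Λ.hh (qz b g) g i j) = _
  simpa [rd, Matrix.one_apply, Pi.single_apply] using h

theorem tw_sh {i : Fin 2} (h : Λ.Sh Λ' i) : (tw Λ hb).Sh (tw Λ' hb) i := fun g => by
  show dg2 i * sg (qz b g) • Λ'.r g = sg (qz b g) • Λ.r g * dg2 i
  rw [Matrix.mul_smul, h g, Matrix.smul_mul]

include hb in
theorem chi_tw (h : Squarefree n) (h' : Odd n) :
    chi n.primeFactors + qz b = qz (b * ps n) := by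
  have h0 : b ≠ 0 := fun e => by simp [e] at hb
  have h1 : ps n ≠ 0 := fun e => h.ne_zero (by rw [← BasG.abs_ps n, e]; rfl)
  rw [chi_eq_qz h h', qz_mul h0 h1, add_comm]

include hb in
theorem dvd_tw {p : ℕ} (hp : p.Prime) (h0 : n ≠ 0) (h : (p : ℤ) ∣ 30 * (b * ps n)) :
    p ∣ 30 ∨ p ∈ n.primeFactors := by
  rw [Int.natCast_dvd, Int.natAbs_mul, Int.natAbs_mul, BasG.abs_ps] at h
  rcases (Nat.Prime.dvd_mul hp).1 h with h | h
  · exact .inl h
  rcases (Nat.Prime.dvd_mul hp).1 h with h | h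
  · exact .inl (h.trans (Int.natAbs_dvd_natAbs.2 hb))
  · exact .inr (Nat.mem_primeFactors.2 ⟨hp, h, h0⟩)

variable {T : Tate (pl 2)}

open TRA1 in
theorem cv_tw (hΛ : Λ.Of T) (h : Squarefree n) (h' : Odd n) (g : GQ) (v : VZ) :
    cv ((tw Λ hb).rt (chi n.primeFactors) g *ᵥ v) = T.rq (rt (b * ps n)) g (cv v) := by
  rw [tw_rt, chi_tw hb h h', Tate.rq_apply, Tate.rd, sd_eq_qz (rt_sq _)]
  funext i
  simp [cv, SM.Lat.rt, sg, Matrix.mulVec, dotProduct, hΛ g]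

theorem gp_of (h30 : n.Coprime 30) : ∀ p ∈ n.primeFactors, Gp p := fun _ hp =>
  ⟨Nat.prime_of_mem_primeFactors hp, fun h => (Nat.prime_of_mem_primeFactors hp).one_lt.ne'
    (Nat.eq_one_of_dvd_coprimes h30 (Nat.dvd_of_mem_primeFactors hp) h)⟩

open TRA1 in
/-- patched classes are continuous classes -/
theorem ra1 {x : GS → V2} (hΛ : Λ.Of T) (hn : Squarefree n) (h30 : n.Coprime 30)
    (hx : SelQ T (rt (b * ps n)) (b * ps n) x) : ∃ (e : ℕ) (X : GQ → VZ),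
      (∀ j, (tw Λ hb).Zn (chi n.primeFactors) ⊤ j X) ∧
      ∀ g : GS, Tendsto (fun k i => (X (g k) i : ℚ_[2])) UF (𝓝 ((2 : ℚ_[2]) ^ e • x g)) := by
  have ho : Odd n := Nat.coprime_two_right.1 (h30.coprime_dvd_right (by norm_num))
  have hr := T.rep (LA.fix (rt_sq (b * ps n)))
  have hS := gp_of h30
  obtain ⟨c, hc⟩ := hx.pz.1
  obtain ⟨B, hB⟩ := hc.bd
  have top : ∀ g : GS, g ∈ St fun _ => ⊤ := fun g => Eventually.of_forall fun _ => trivial
  have hB0 : 0 < B + 1 := by linarith [hB 0 1, norm_nonneg (c 0 1)]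
  obtain ⟨e, he⟩ := exists_pow_lt_of_lt_one (inv_pos.2 hB0) (show (2⁻¹ : ℝ) < 1 by norm_num)
  have he' : (2⁻¹ : ℝ) ^ e * (B + 1) ≤ 1 := by
    rw [← le_div_iff₀ hB0, one_div]; exact he.le
  choose c' hc' using fun k g => lift he' ((hB k g).trans (le_add_of_nonneg_right zero_le_one))
  choose X hX using fun g : GQ => lift he' (v := x (cs g))
    ((le_of_tendsto' (hc.lim _ (top (cs g))).norm fun k => hB k _).trans
      (le_add_of_nonneg_right zero_le_one))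
  have pos : ∀ j : ℕ, (0 : ℝ) < 2⁻¹ ^ j := fun j => by positivity
  have h1 : ∀ j, ∀ᶠ k in UF, (tw Λ hb).Zn (chi n.primeFactors) ⊤ j (c' k) := fun j => by
    filter_upwards [hx.pz.ac hr hc (pos j)] with k hk
    obtain ⟨N, hN, hN'⟩ := hc.uc k _ (pos j)
    refine BasZ.zn_iff.2 ⟨⟨N, hN, fun g hg m hm hmN => dv_of (e := e) ?_ (hN' g hg m hm hmN)⟩,
      fun g hg m hm => dv_of (e := e) ?_ (hk g hg m hm)⟩
    · rw [cv_sub, hc', hc', smul_sub]
    · rw [cv_sub, cv_sub, cv_tw hb hΛ hn ho, hc', hc', hc', map_smul, smul_sub, smul_sub]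
  have h2 : ∀ j, ∀ᶠ k in UF, ∀ w : Pl, ¬ w.p ∣ 30 → w.p ∉ n.primeFactors → ∀ g ∈ w.I,
      Dv j (c' k g) := fun j => by
    refine (ev_choice (p := fun k (a : Pl × GQ) => ¬ a.1.p ∣ 30 → a.1.p ∉ n.primeFactors →
      a.2 ∈ a.1.I → Dv j (c' k a.2)) fun f => ?_).mono fun k hk w a b g hg => hk (w, g) a b hg
    by_cases hf : ∀ᶠ k in UF, ¬ (f k).1.p ∣ 30 ∧ (f k).1.p ∉ n.primeFactors ∧ (f k).2 ∈ (f k).1.I
    · have h0 := hx.unr (fun k => (f k).1) (fun k => (f k).2) (hf.mono fun k hk => ⟨hk.2.2,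
        fun h => (dvd_tw hb (f k).1.prime hn.ne_zero h).elim hk.1 hk.2.1⟩)
      have h3 := hc.lim _ (top fun k => (f k).2)
      rw [h0] at h3
      exact (PatB.small h3 (pos j)).mono fun k hk _ _ _ => dv_of (hc' k _) hk
    · exact (ev_not.1 hf).mono fun k hk a b d => absurd ⟨a, b, d⟩ hk
  have key : ∀ j, ∀ᶠ k in UF, ∀ g, Dv j (X g - c' k g) := fun j => by
    obtain ⟨f, -, hf⟩ := ev_const (t_FINC (tw Λ hb) n.primeFactors j hS)
      (f := fun k g => SM.rn j (c' k g)) (((h1 j).and (h2 j)).mono fun k hk => ⟨_, hk.1, hk.2, rfl⟩)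
    filter_upwards [hf] with k hk g
    have h3 : Tendsto (fun k => x (cs g) - c k g) UF (𝓝 0) := by
      simpa [cs] using (hc.lim _ (top (cs g))).const_sub (x (cs g))
    obtain ⟨k', a, b⟩ := (hf.and (PatB.small h3 (pos j))).exists
    have h4 : Dv j (X g - c' k' g) := dv_of (e := e) (by rw [cv_sub, hX, hc', smul_sub]) b
    exact rn_eq.1 ((rn_eq.2 h4).trans ((congrFun a g).trans (congrFun hk g).symm))
  refine ⟨e, X, fun j => ?_, fun g => ?_⟩
  · obtain ⟨k, a, b⟩ := ((h1 j).and (key j)).exists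
    exact a.congr fun g _ => b g
  · have h3 : Tendsto (fun k => cv (X (g k)) - (2 : ℚ_[2]) ^ e • c k (g k)) UF (𝓝 0) := by
      refine Metric.tendsto_nhds.2 fun ε hε => ?_
      obtain ⟨j, hj⟩ := exists_pow_lt_of_lt_one hε (show (2⁻¹ : ℝ) < 1 by norm_num)
      filter_upwards [key j] with k hk
      rw [dist_zero_right, ← hc', ← cv_sub]
      exact (dv_norm.1 (hk _)).trans_lt hj
    have h4 := h3.add ((hc.lim g (top g)).const_smul ((2 : ℚ_[2]) ^ e))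
    simp only [sub_add_cancel, zero_add] at h4
    exact h4

/-- the local conditions -/
theorem ra2 {x : GS → V2} {e : ℕ} {X : GQ → VZ} (hΛ : Λ.Of T) (hn : Squarefree n)
    (h30 : n.Coprime 30) (hx : SelQ T (rt (b * ps n)) (b * ps n) x)
    (hX : ∀ j, (tw Λ hb).Zn (chi n.primeFactors) ⊤ j X)
    (he : ∀ g i, (X g i : ℚ_[2]) = 2 ^ e * x (cs g) i) (j : ℕ) :
    (tw Λ hb).Wn n.primeFactors j X := by
  have ho : Odd n := (Nat.coprime_two_right.1 (h30.coprime_dvd_right (by norm_num)))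
  have hc := chi_tw hb hn ho
  refine ⟨⟨hX j, fun w a b' g hg => ?_, X, SM.Lat.ex_tau (isCh_chi _) fun n =>
    (hX n).mono le_top le_rfl, fun g _ => by rw [sub_self]; exact dv_zero⟩, fun p hp => ?_⟩
  · have h0 := hx.unr (fun _ => w) (cs g) (Filter.Eventually.of_forall fun _ => ⟨hg,
      fun d => (dvd_tw hb w.prime hn.ne_zero d).elim a b'⟩)
    have : X g = 0 := funext fun i => Subtype.ext (by rw [he, h0]; simp)
    rw [this]
    exact dv_zero
  · simp only [tw_zn, hc] at hX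
    rw [tw_lc, hc]
    by_cases h2 : p = 2
    · obtain ⟨v, hv⟩ := hx.ord
      subst h2
      exact TRA2.lc hΛ hX he v (fun g hg => sub_eq_zero.1 (hv g hg)) (fun h => absurd rfl h) j
    · have hp' : p.Prime ∧ (p : ℤ) ∣ 15 * (b * ps n) := by
        rcases mem_union.1 hp with h | h
        · refine ⟨Nat.prime_of_mem_primeFactors h, Dvd.dvd.mul_left (Dvd.dvd.mul_left ?_ _) _⟩
          rw [Int.natCast_dvd, BasG.abs_ps]
          exact Nat.dvd_of_mem_primeFactors h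
        · refine ⟨(mem_T30.1 h).1, Dvd.dvd.mul_right ?_ _⟩
          simp only [T30, mem_insert, mem_singleton] at h
          rcases h with h | h | h
          · exact absurd h h2
          · rw [h]; norm_num
          · rw [h]; norm_num
      obtain ⟨v, hv⟩ := hx.bad (pl p) (by rw [pl_p hp'.1]; exact h2) (by rw [pl_p hp'.1]; exact hp'.2)
      exact TRA2.lc hΛ hX he v (fun g hg => by rw [hv g hg]) (fun _ g hg => by rw [hv g hg]) j

theorem cast_bd (hΛ : Λ.Of T) (hn : Squarefree n) (ho : Odd n) (v : VZ) (g : GQ) :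
    (fun i => ((tw Λ hb).bd (chi n.primeFactors) v g i : ℚ_[2])) =
      T.rq (rt (b * ps n)) g (fun i => (v i : ℚ_[2])) - fun i => (v i : ℚ_[2]) := by
  have h := cv_tw hb hΛ hn ho g v
  exact (TRA1.cv_sub _ _).trans (congrArg (· - TRA1.cv v) h)

/-- two independent normalised cocycles -/
theorem red0 (hΛ : Λ.Of T) (hn : Squarefree n) (hc : n.Coprime 30)
    (hR : ¬ Rk1 T (rt (b * ps n)) (b * ps n)) {p : ℕ} (hp : p ∈ n.primeFactors) :
    ∃ x y : GQ → VZ, (∀ j, (tw Λ hb).Wn n.primeFactors j x ∧ (tw Λ hb).Wn n.primeFactors j y) ∧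
      x (tp p) = 0 ∧ y (tp p) = 0 ∧
      ∀ a c : F2, (∀ g, a • rd (x g) + c • rd (y g) = 0) → a = 0 ∧ c = 0 := by
  have hS := gp_of hc
  have ho : Odd n := Nat.coprime_two_right.1 (hc.coprime_dvd_right (by norm_num))
  unfold Rk1 at hR
  push Not at hR
  obtain ⟨x, y, hx, hy, hxy⟩ := hR
  obtain ⟨e, X, hX, hX'⟩ := ra1 hb hΛ hn hc hx
  obtain ⟨e', Y, hY, hY'⟩ := ra1 hb hΛ hn hc hy
  have wX := ra2 (e := e) hb hΛ hn hc hx hX fun g i => by
    simpa using congrFun (tendsto_nhds_unique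
      (tendsto_const_nhds (x := fun i => (X g i : ℚ_[2]))) (hX' (cs g))) i
  have wY := ra2 (e := e') hb hΛ hn hc hy hY fun g i => by
    simpa using congrFun (tendsto_nhds_unique
      (tendsto_const_nhds (x := fun i => (Y g i : ℚ_[2]))) (hY' (cs g))) i
  have cb := cast_bd hb hΛ hn ho
  generalize tw Λ hb = L at *
  let A : Submodule Z2 (GQ → VZ) :=
    { carrier := {f | (∀ j, L.Wn n.primeFactors j f) ∧ f (tp p) = 0}
      add_mem' := fun ha hb => ⟨fun j => (ha.1 j).add (hb.1 j), by simp [ha.2, hb.2]⟩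
      zero_mem' := ⟨fun j => ((wX j).smul 0).congr fun g => by simpa using dv_zero, rfl⟩
      smul_mem' := fun c f hf => ⟨fun j => (hf.1 j).smul c, by simp [hf.2]⟩ }
  have hsat : ∀ f, (2 : Z2) • f ∈ A → f ∈ A := fun f hf =>
    ⟨fun j => (SM.Lat.wn_pow (j := 1) (x := (2 : Z2) • f) fun g => by simp).1 (hf.1 _),
      (smul_eq_zero.1 hf.2).resolve_left two_ne_zero⟩
  have mem : ∀ Z : GQ → VZ, (∀ j, L.Wn n.primeFactors j Z) →
      (fun g => Z g + L.hb (chi n.primeFactors) (Z (tp p)) g) ∈ A := fun Z h =>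
    ⟨fun j => (h j).add (SM.Lat.wn_hb hS _), by
      show Z (tp p) + L.hb _ _ (tp p) = 0
      rw [L.hb_tp (hS p hp) (chi_tp hS hp), add_neg_cancel]⟩
  obtain ⟨x', hx', y', hy', h⟩ := a_SAT GQ A hsat _ (mem X wX) _ (mem Y wY) fun a c hab => by
    by_contra hne
    have key : ∀ g, (2 * a) • X g + (2 * c) • Y g =
        L.bd (chi n.primeFactors) (-(a • X (tp p) + c • Y (tp p))) g := fun g => by
      have h1 : a • (X g + L.hb (chi n.primeFactors) (X (tp p)) g) +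
          c • (Y g + L.hb (chi n.primeFactors) (Y (tp p)) g) = 0 := congrFun hab g
      rw [SM.Lat.bd_eq, SM.Lat.hb, Matrix.mulVec_neg, Matrix.mulVec_add, Matrix.mulVec_smul,
        Matrix.mulVec_smul]
      simp only [SM.Lat.hb] at h1
      linear_combination (norm := module) (2 : Z2) • h1
    refine hxy (2 * a * 2 ^ e) (2 * c * 2 ^ e') ?_
      ⟨fun i => ((-(a • X (tp p) + c • Y (tp p))) i : Z2), fun g _ => ?_⟩
    · by_contra h0
      push Not at h0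
      exact hne ⟨by simpa using h0.1, by simpa using h0.2⟩
    · have h1 := ((hX' g).const_smul (2 * a : ℚ_[2])).add ((hY' g).const_smul (2 * c : ℚ_[2]))
      have h2 := ((T.rep (δ := rt (b * ps n)) (by rw [rt_sq]; exact fix_int _)).tendsto g
        (tendsto_const_nhds (x := fun i => (((-(a • X (tp p) + c • Y (tp p))) i : Z2) : ℚ_[2])))).sub
        (tendsto_const_nhds (x := fun i => (((-(a • X (tp p) + c • Y (tp p))) i : Z2) : ℚ_[2])))
      rw [← tendsto_nhds_unique (h1.congr fun k => ?_) h2]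
      · simp [smul_smul]
      · rw [← cb, ← key]
        funext i
        simp [show ((2 : Z2) : ℚ_[2]) = 2 from rfl]
  exact ⟨x', y', fun j => ⟨hx'.1 j, hy'.1 j⟩, hx'.2, hy'.2, h⟩

theorem shift {D : Submodule F2 FF} {M : Matrix (Fin 2) (Fin 2) F2} {s : F2} {v : FF} (hv : v ∈ D)
    (h : ((M + s • (1 : Matrix (Fin 2) (Fin 2) F2)) *ᵥ v.1, (M + s • (1 : Matrix (Fin 2) (Fin 2) F2)) *ᵥ v.2) ∈ D) : (M *ᵥ v.1, M *ᵥ v.2) ∈ D := by
  have k := D.sub_mem h (D.smul_mem s hv)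
  have e : ((M + s • (1 : Matrix (Fin 2) (Fin 2) F2)) *ᵥ v.1, (M + s • (1 : Matrix (Fin 2) (Fin 2) F2)) *ᵥ v.2) - s • v = (M *ᵥ v.1, M *ᵥ v.2) := by
    ext1 <;> simp [Matrix.add_mulVec, Matrix.smul_mulVec]
  rwa [e] at k

open TRED1 in
/-- the choice of the lattice -/
theorem red1 (Λ : SM.Lat) (Λ' : Fin 2 → SM.Lat) (S : Finset ℕ) (p : ℕ) (x y : GQ → VZ)
    (htau : ∃ t s, Λ.cb t = !![1, 0; 0, 0] + (s : F2) • (1 : Matrix (Fin 2) (Fin 2) F2))
    (hΛ' : ∀ i, Λ.Sh (Λ' i) i ∧ ∃ t s, (Λ' i).cb t = Matrix.single i (i + 1) 1 + (s : F2) • (1 : Matrix (Fin 2) (Fin 2) F2))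
    (hW : ∀ j, Λ.Wn S j x ∧ Λ.Wn S j y) (hx0 : x (tp p) = 0) (hy0 : y (tp p) = 0)
    (hind : ∀ a b : F2, (∀ g, a • rd (x g) + b • rd (y g) = 0) → a = 0 ∧ b = 0) :
    Λ.Bad S p ∨ ∃ i, (Λ' i).Bad S p := by
  obtain ⟨t₀, s₀, htau⟩ := htau
  have hφ : IsCh ⊤ fun g => rd (x g) := (hW 1).1.zn.isCh
  have hψ : IsCh ⊤ fun g => rd (y g) := (hW 1).2.zn.isCh
  by_cases hS : Λ.Stab (fun g => rd (x g)) fun g => rd (y g)
  swap
  · refine Or.inl ⟨fun g => rd (x g), fun g => rd (y g), fun n =>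
      ⟨⟨x, (hW _).1, fun _ => rfl⟩, ⟨y, (hW _).2, fun _ => rfl⟩⟩, ?_, ?_, fun h => absurd h hS⟩
    · simp only [hx0, rd_zero]
    · simp only [hy0, rd_zero]
  have hlin : ∀ (a b : F2) (n : ℕ), Λ.WK S n fun g => a • rd (x g) + b • rd (y g) := fun a b n =>
    ⟨fun g => ((a.val : ℕ) : Z2) • x g + ((b.val : ℕ) : Z2) • y g,
      ((hW n).1.smul _).add ((hW n).2.smul _), fun g => by
        rw [rd_add, rd_smul, rd_smul, BasY.toZMod_val, BasY.toZMod_val]⟩
  rcases (a_BAS (img hφ hψ) fun a b h => hind a b fun g => h _ ⟨g, rfl⟩).1 (by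
      rintro _ ⟨h, rfl⟩
      obtain ⟨h', e1, e2⟩ := hS t₀ h
      rw [htau] at e1 e2
      exact shift ⟨h, rfl⟩ ⟨h', Prod.ext e1 e2⟩) with
    ⟨a, b, c, d, -, _, ⟨g, rfl⟩, _, ⟨h, rfl⟩, e1, e2⟩ | ⟨i, hi⟩
  · refine Or.inl ⟨fun g => a • rd (x g) + b • rd (y g), fun g => c • rd (x g) + d • rd (y g),
      fun n => ⟨hlin a b _, hlin c d _⟩, ?_, ?_, fun _ => ⟨g, h, e1, e2⟩⟩
    · simp only [hx0, hy0, rd_zero, smul_zero, add_zero]
    · simp only [hx0, hy0, rd_zero, smul_zero, add_zero]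
  · choose x' hx' using fun g => half (u := x g) (hi _ ⟨g, rfl⟩).1
    choose y' hy' using fun g => half (u := y g) (hi _ ⟨g, rfl⟩).2
    obtain ⟨hsh, t, s, ht⟩ := hΛ' i
    have hWx : ∀ n, (Λ' i).Wn S n x' := fun n => a_SHW Λ _ i S n x x' hsh hx' (hW _).1
    have hWy : ∀ n, (Λ' i).Wn S n y' := fun n => a_SHW Λ _ i S n y y' hsh hy' (hW _).2
    have hφ' : IsCh ⊤ fun g => rd (x' g) := (hWx 1).zn.isCh
    have hψ' : IsCh ⊤ fun g => rd (y' g) := (hWy 1).zn.isCh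
    refine Or.inr ⟨i, fun g => rd (x' g), fun g => rd (y' g), fun n =>
      ⟨⟨x', hWx _, fun _ => rfl⟩, ⟨y', hWy _, fun _ => rfl⟩⟩, ?_, ?_, fun hst => ?_⟩
    · simp only [dg_zero (hx0.symm.trans (hx' _)), rd_zero]
    · simp only [dg_zero (hy0.symm.trans (hy' _)), rd_zero]
    have key : ∀ a b : F2, (∀ v ∈ img hφ' hψ', a * v.1 (i + 1) + b * v.2 (i + 1) = 0) →
        a = 0 ∧ b = 0 := by
      intro a b h
      refine hind a b fun g => funext fun j => ?_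
      rcases TRED1.fin_cases i j with rfl | rfl
      · have h1 : rd (x g) j = 0 := (hi _ ⟨g, rfl⟩).1
        have h2 : rd (y g) j = 0 := (hi _ ⟨g, rfl⟩).2
        simp only [Pi.add_apply, Pi.smul_apply, h1, h2, smul_zero, add_zero, Pi.zero_apply]
      · have h1 := h _ ⟨g, rfl⟩
        rw [Pi.add_apply, Pi.smul_apply, Pi.smul_apply, hx' g, hy' g, rd_succ, rd_succ]
        exact h1
    obtain ⟨_, ⟨g, rfl⟩, _, ⟨h, rfl⟩, e1, e2⟩ :=
      (a_BAS (img hφ' hψ') fun a b h => key a b fun v hv => congrFun (h v hv) (i + 1)).2 i key (by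
        rintro _ ⟨h, rfl⟩
        obtain ⟨h', e1, e2⟩ := hst t h
        rw [ht] at e1 e2
        exact shift ⟨h, rfl⟩ ⟨h', Prod.ext e1 e2⟩)
    exact ⟨g, h, e1, e2⟩

open Classical in
/-- the Selmer group has rank at most one for almost all twists with given bad part -/
theorem densb (T : Tate (pl 2)) {b : ℤ} (hb : b ∣ 30) (ε : ℝ) (hε : 0 < ε) :
    ∃ X₀ : ℕ, ∀ X, X₀ ≤ X → (((Icc 1 X).filter fun n => Squarefree n ∧ n.Coprime 30 ∧
      ¬ Rk1 T (rt (b * ps n)) (b * ps n)).card : ℝ) ≤ ε * X := by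
  obtain ⟨Λ, h1, h2, h3⟩ := a_LATX T
  choose Λ' h3 using h3
  have hB : BoxP fun S => ∀ p ∈ S, (tw Λ hb).Bad S p ∨ ∃ i, (tw (Λ' i) hb).Bad S p := by
    intro δ hδ
    obtain ⟨K, l, A, N, hl, h⟩ := a_BOXL (δ / 3) (by positivity)
    refine ⟨K, l, A, N, fun B y₀ y₁ J₀ J hR => ?_⟩
    obtain ⟨i₀, -⟩ := card_pos.1 (hl.trans (hR.card (.inr true)))
    have a := h (tw Λ hb) B y₀ y₁ J₀ J i₀ hR
    have b := h (tw (Λ' 0) hb) B y₀ y₁ J₀ J i₀ hR
    have c := h (tw (Λ' 1) hb) B y₀ y₁ J₀ J i₀ hR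
    have s : (B.pts.filter fun p => ∀ q ∈ B.set p, (tw Λ hb).Bad (B.set p) q ∨
        ∃ i, (tw (Λ' i) hb).Bad (B.set p) q) ⊆
        (B.pts.filter fun p => (tw Λ hb).Bad (B.set p) (p i₀)) ∪
        (B.pts.filter fun p => (tw (Λ' 0) hb).Bad (B.set p) (p i₀)) ∪
        (B.pts.filter fun p => (tw (Λ' 1) hb).Bad (B.set p) (p i₀)) := by
      intro p hp
      obtain ⟨p1, p2⟩ := mem_filter.1 hp
      simp only [mem_union, mem_filter, p1, true_and]
      rcases p2 (p i₀) (mem_union_right _ (mem_image_of_mem _ (mem_univ _))) with e | ⟨i, e⟩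
      · exact .inl (.inl e)
      · fin_cases i
        exacts [.inl (.inr e), .inr e]
    have t := (card_le_card s).trans ((card_union_le _ _).trans
      (Nat.add_le_add_right (card_union_le _ _) _))
    have t' := (Nat.cast_le (α := ℝ)).2 t
    push_cast at t'
    refine le_trans (Nat.cast_le.2 (card_le_card fun p hp => ?_))
      (t'.trans (show _ ≤ δ * (B.pts.card : ℝ) by linarith))
    simp only [mem_filter] at hp ⊢
    exact hp
  obtain ⟨X₀, h⟩ := a_ANA _ hB ε hε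
  refine ⟨X₀, fun X hX => le_trans (Nat.cast_le.2 (card_le_card fun n hn => ?_)) (h X hX)⟩
  simp only [mem_filter] at hn ⊢
  obtain ⟨n1, n2, n3, n4⟩ := hn
  refine ⟨n1, n2, n3, fun p hp => ?_⟩
  obtain ⟨x, y, a, b', c, d⟩ := red0 hb h1 n2 n3 n4 hp
  refine red1 _ (fun i => tw (Λ' i) hb) _ p x y ⟨tau, _, by rw [tw_cb, h2]⟩ (fun i => ?_) a b' c d
  obtain ⟨e1, t, e2⟩ := h3 i
  exact ⟨tw_sh hb e1, t, _, by rw [tw_cb, e2]⟩

end Pool.Agent.P.MP_8b7eba_nt.R3
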