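import Pool.Agent.P.MP_8b7eba_nt.R3.COrth

/-! Proof of BES, OZX, OGX, CNT. -/

namespace Pool.Agent.P.MP_8b7eba_nt.SM.X

open Finset R2 COrth TOG

namespace CBes

theorem bessel (W Y : Finset ℕ) (f : ℕ → ℕ → ℝ) (b : ℕ → ℝ) (hb : ∀ y, |b y| ≤ 1)
    (hf : ∀ w y, |f w y| ≤ 1) (ho : ∀ w ∈ W, ∀ w' ∈ W, w ≠ w' → ∑ y ∈ Y, f w y * f w' y = 0) :
    ∑ w ∈ W, |∑ y ∈ Y, b y * f w y| ≤ Real.sqrt W.card * Y.card := by
  have sq1 : ∀ x : ℝ, |x| ≤ 1 → x ^ 2 ≤ 1 := fun x h => (sq_le_one_iff_abs_le_one x).2 h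
  have h0 : ∀ x : ℝ, ∃ s : ℝ, s * s = 1 ∧ |x| = s * x := fun x => by
    rcases le_total 0 x with h | h
    · exact ⟨1, by norm_num, by rw [abs_of_nonneg h, one_mul]⟩
    · exact ⟨-1, by norm_num, by rw [abs_of_nonpos h, neg_one_mul]⟩
  choose s s1 s2 using fun w => h0 (∑ y ∈ Y, b y * f w y)
  have e : ∑ w ∈ W, |∑ y ∈ Y, b y * f w y| = ∑ y ∈ Y, b y * ∑ w ∈ W, s w * f w y := by
    simp only [s2, mul_sum]
    rw [sum_comm]
    exact sum_congr rfl fun y _ => sum_congr rfl fun w _ => by ring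
  have h1 : ∑ y ∈ Y, b y ^ 2 ≤ Y.card := by
    simpa using sum_le_card_nsmul Y _ 1 fun y _ => sq1 _ (hb y)
  have h2 : ∑ y ∈ Y, (∑ w ∈ W, s w * f w y) ^ 2 ≤ W.card * Y.card := by
    have e2 : ∑ y ∈ Y, (∑ w ∈ W, s w * f w y) ^ 2 =
        ∑ w ∈ W, ∑ w' ∈ W, s w * s w' * ∑ y ∈ Y, f w y * f w' y := by
      simp only [pow_two, sum_mul_sum]
      rw [sum_comm]
      refine sum_congr rfl fun w _ => ?_
      rw [sum_comm]
      refine sum_congr rfl fun w' _ => ?_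
      rw [mul_sum]
      exact sum_congr rfl fun y _ => by ring
    rw [e2, ← nsmul_eq_mul]
    refine sum_le_card_nsmul W _ _ fun w hw => ?_
    rw [sum_eq_single_of_mem w hw fun w' hw' h => by rw [ho w hw w' hw' h.symm, mul_zero], s1,
      one_mul]
    simpa using sum_le_card_nsmul Y _ 1 fun y _ => (pow_two (f w y)).ge.trans (sq1 _ (hf w y))
  rw [e]
  refine (le_abs_self _).trans (abs_le_of_sq_le_sq ?_ (by positivity))
  refine (sum_mul_sq_le_sq_mul_sq _ _ _).trans ((mul_le_mul h1 h2 (by positivity)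
    (by positivity)).trans_eq ?_)
  rw [mul_pow, Real.sq_sqrt (by positivity)]
  ring

theorem num {W W' : Finset ℕ} {t E T n : ℕ} (hW : Rich W t E) (hs : W' ⊆ W) (hT : 2 ≤ T)
    (hE : 2 ≤ E) (h : (T * E) ^ (2 + 2 * n) ≤ t) (y : ℕ) :
    2 ^ n * Real.sqrt W'.card * y ≤ (T : ℝ)⁻¹ * W.card * y := by
  refine mul_le_mul_of_nonneg_right ?_ (by positivity)
  have h1 : (2 ^ n * T) ^ 2 ≤ W.card := by
    refine Nat.le_of_mul_le_mul_left (le_trans ?_ (h.trans hW.card)) (by omega : 0 < E)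
    have a : 2 ^ (2 * n) ≤ (T * E) ^ (2 * n) := Nat.pow_le_pow_left (by nlinarith) _
    calc E * (2 ^ n * T) ^ 2 = E * T ^ 2 * 2 ^ (2 * n) := by ring
      _ ≤ E * E * T ^ 2 * (T * E) ^ (2 * n) := by
        gcongr
        exact Nat.le_mul_self E
      _ = _ := by ring
  have h2 : (2 ^ n * T : ℝ) ≤ Real.sqrt W.card := Real.le_sqrt_of_sq_le (by exact_mod_cast h1)
  have h3 : Real.sqrt W'.card ≤ Real.sqrt W.card :=
    Real.sqrt_le_sqrt (by exact_mod_cast card_le_card hs)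
  have h4 : (0 : ℝ) < T := by exact_mod_cast (by omega : 0 < T)
  rw [le_inv_mul_iff₀ h4, ← mul_assoc, mul_comm (T : ℝ)]
  exact (mul_le_mul h2 h3 (by positivity) (by positivity)).trans_eq
    (Real.mul_self_sqrt (by positivity))

theorem cj {H : Subgroup GQ} {χ : GQ → F2} (h : IsCh H χ) {u x : GQ} (hu : u ∈ H) (hx : x ∈ H) :
    χ (u * x * u⁻¹) = χ x := by
  rw [h.2 _ (mul_mem hu hx) _ (inv_mem hu), h.2 _ hu _ hx, h.inv hu, add_right_comm,
    add_neg_cancel, zero_add]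

end CBes

open CBes

variable [HA]

theorem t_BES : BES := by
  classical
  intro σ _ _ m Z Y W Θ b ⟨c, g, hO⟩ hH h1 h2 hb h3
  have hK : KZ Z ≤ m.H := hH
  have ad : ∀ w ∈ W, ∀ u, Adm Z m.H fun x => Θ w (m.g u * x * (m.g u)⁻¹) := fun w hw u =>
    Adm.conj hK (h1 w hw) _
  let f : (σ → F2) → ℕ → ℕ → ℝ := fun u w y =>
    if c y ∈ m.H then sr (Θ w (m.g u * c y * (m.g u)⁻¹)) else 0
  let β : (σ → F2) → ℕ → ℝ := fun u y => if (fun s => qz (m.n s) (g y)) = u then b y else 0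
  have e : ∀ w ∈ W, ∑ y ∈ Y, b y * sr (Θ w (fr y)) = ∑ u, ∑ y ∈ Y, β u y * f u w y := by
    intro w hw
    rw [sum_comm]
    refine sum_congr rfl fun y hy => ?_
    simp only [β, ite_mul, zero_mul, sum_ite_eq, mem_univ, if_true]
    by_cases b0 : b y = 0
    · rw [b0, zero_mul, zero_mul]
    obtain ⟨a1, a2⟩ := (hO m.H hH _ (h1 w hw).1 (h1 w hw).2).1 y hy
    have a3 := h3 y hy b0
    have a4 := a1.1 a3
    have a5 := ((a_MQH _ m).2.2 (g y) _).2 rfl
    generalize (fun s => qz (m.n s) (g y)) = u at a5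
    have a6 := (ad w hw u).1
    have a7 := cj a6 a5 a4
    simp only [f, if_pos a4]
    rw [a2 a3, ← a7]
    congr 3
    group
  rw [sum_congr rfl fun w hw => by rw [e w hw]]
  refine (sum_le_sum fun w _ => abs_sum_le_sum_abs _ _).trans ?_
  rw [sum_comm]
  refine (sum_le_card_nsmul _ _ (Real.sqrt W.card * Y.card) fun u _ =>
    bessel W Y (f u) (β u) (fun y => ?_) (fun w y => ?_) fun w hw w' hw' ne => ?_).trans_eq ?_
  · simp only [β]
    split_ifs
    · exact hb y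
    · simp
  · simp only [f]
    split_ifs
    · exact (by simp [sr] : |sr _| = 1).le
    · simp
  · obtain ⟨v, a1, h, a2, a3, a4⟩ := h2 w hw w' hw' ne
    have a5 := (hO m.H hH _ ((ad w hw u).1.add (ad w' hw' u).1) fun v a a' x hx =>
      (congrArg₂ (· + ·) ((ad w hw u).2 v a a' x hx) ((ad w' hw' u).2 v a a' x hx)).trans
        (add_zero _)).2
      ⟨(m.g u)⁻¹ • v, a1, (m.g u)⁻¹ * h * (m.g u)⁻¹⁻¹, Pl.mem_I_smul.2 (by
        simpa [mul_assoc] using a2), (conj_iff hK _ _).2 a3, by simpa [mul_assoc] using a4⟩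
    rw [← a5, sum_filter]
    refine sum_congr rfl fun y _ => ?_
    simp only [f]
    split_ifs
    · rw [TFOUR.sr_add]
    · exact mul_zero _
  · simp [mul_assoc]

theorem t_OZX (hBES : BES) : OZX := by
  intro Z W Y tW E T hO hZ hd hY hW hT hE h b hb
  let m : MQ Empty := ⟨fun s => s.elim, fun _ => 1, fun s => s.elim, fun _ s => s.elim⟩
  have mH : ∀ x, x ∈ m.H := fun x => Subgroup.mem_iInf.2 fun s => s.elim
  have gw : ∀ w ∈ W, Gp w := fun w hw => (hW.gp w hw).1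
  have k := hBES _ m Z Y W qs b hO (fun x _ => mH x)
    (fun w hw => ⟨isCh_qs w, fun v _ a x hx =>
      qs_I (gw w hw).1 (gw w hw).ne.1 (fun e => a (e ▸ hZ hw)) hx⟩)
    (fun w hw w' hw' ne => ⟨pl w, by rw [pl_p (gw w hw).1]; exact hZ hw, tp w,
      tp_I (gw w hw).1 (gw w hw).ne.1, mH _, by
        rw [qs_tp (gw w hw) (gw w hw), qs_tp (gw w hw) (gw w' hw'), if_pos rfl, if_neg ne,
          add_zero]⟩) hb fun y _ _ => mH _
  refine le_of_eq_of_le (sum_congr rfl fun w hw => congrArg _ (sum_congr rfl fun y hy => ?_))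
    (k.trans (num (n := Fintype.card Empty) hW Subset.rfl hT hE (by simpa using h) _))
  rw [qs_fr (hY y hy) (gw w hw) fun e => disjoint_left.1 hd (hZ hw) (e ▸ hy)]

theorem t_OGX (hBES : BES) : OGX := by
  intro k M
  refine ⟨2 + 2 * Fintype.card (Fin k × Fin M),
    fun u Q Z W W' Y tW E T w₀ γ e b hu hi hO hZ hd hY hW hs hT hE h1 hw₀ hz hg he hb hjs => ?_⟩
  have gu : ∀ i j, Gp (u i j) := fun i j => (hu i j).1
  choose g hgv using surj gu hi
  let m : MQ (Fin k × Fin M) :=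
    ⟨nn u, g, fun s => mul_ne_zero (ps_ne (gu _ _)) (ps_ne (gu _ _)), hgv⟩
  have mH : ∀ x, x ∈ m.H ↔ ∀ i j, aa u i j x = 0 := fun x => by
    rw [(a_MQH _ m).2.1]
    refine ⟨fun h i j => ?_, fun h s => (congrFun (qz_nn gu s) x).trans (h _ _)⟩
    rw [← cases_nn gu]
    exact Fin.cases rfl (fun j => h (i, j)) j
  have hK : KZ Z ≤ m.H := fun x hx => (mH x).2 fun i j => by
    rw [aa, Pi.add_apply, hx _ (hu i j).2.1, hx _ (hu i 0).2.1, add_zero]
  have lt : ∀ μ : Mu k M, dg μ < k + 1 := fun μ => Nat.lt_succ_of_le (dg_le μ)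
  refine (hBES _ m Z Y W' (fun w x => ∑ μ, e μ * γ w μ x) b hO hK (fun w hw => ?_)
    (fun w hw w' hw' ne => ?_) hb fun y hy hby => ?_).trans (num hW hs hT hE h1 _)
  · obtain ⟨-, -, hgov⟩ := hg w hw
    refine ⟨IsCh.sum fun μ _ => ((hgov.rel μ (lt μ)).isCh fun i j x hx => (mH x).1 hx i j).map
      (AddMonoidHom.mulLeft (e μ)), fun v h2 hv x hx => sum_eq_zero fun μ _ => ?_⟩
    rw [hgov.ram μ (lt μ) v h2 (fun h => hv (h ▸ hZ (hs hw))) (fun h => hv (h ▸ hz))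
      (fun i j h => hv (h ▸ (hu i j).2.1)) x hx, mul_zero]
  · obtain ⟨hne, hok, hgov⟩ := hg w hw
    obtain ⟨-, -, hgov'⟩ := hg w' hw'
    obtain ⟨v, hv⟩ := a_MONO k M e he
    have pw := pl_p hok.gp.1
    have a1 : ∀ i j, aa u i j (tp w) = 0 := fun i j => hok.sp i j _ (tp_D hok.gp.1 hok.gp.ne.1)
    obtain ⟨x, hx⟩ : ∃ x, x = g fun s => v s.1 s.2.succ := ⟨_, rfl⟩
    have a2 : x * tp w * x⁻¹ ∈ (x • pl w).I :=
      Pl.mem_I_smul.2 (by simpa [mul_assoc] using tp_I hok.gp.1 hok.gp.ne.1)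
    refine ⟨x • pl w, by rw [Pl.smul_p, pw]; exact hZ (hs hw), _, a2,
      (conj_iff hK _ _).2 ((mH _).2 a1), ?_⟩
    rw [sum_eq_zero (f := fun μ => e μ * γ w' μ (x * tp w * x⁻¹)) fun μ _ => by
      rw [hgov'.ram μ (lt μ) (x • pl w) (by rw [Pl.smul_p, pw]; exact hok.gp.ne.1)
        (by rwa [Pl.smul_p, pw]) (by rwa [Pl.smul_p, pw])
        (fun i j h => (hu i j).2.2 (by rw [← h, Pl.smul_p, pw]; exact hs hw)) _ a2, mul_zero],
      add_zero, ← hv]
    refine sum_congr rfl fun μ _ => ?_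
    rw [hgov.conj_tp hok.gp hw₀ hne a1]
    refine congrArg _ (prod_congr rfl fun i hi => ?_)
    obtain ⟨j, hj⟩ := Fin.exists_succ_eq.2 (mem_filter.1 hi).2
    rw [← cases_nn gu, ← hj, Fin.cases_succ, hx, hgv]
  · have gy := hY y hy
    have ne : ∀ i j, y ≠ u i j := fun i j h => disjoint_left.1 hd (hu i j).2.1 (h ▸ hy)
    exact (mH _).2 fun i j => keyp gy (gu _ _) (gu _ _) (ne _ _) (ne _ _) (hjs y hy hby i j)
      (fr_D gy.1 gy.ne.1)

theorem t_CNT : CNT := by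
  classical
  intro r p Z Y hi hp ⟨c, g, hO⟩ hd hY
  have nd : ∀ (q : ℕ) (i : Fin r), q.Prime → q ≠ 2 → q ≠ p i → ¬ (q : ℤ) ∣ 2 * p i :=
    fun q i hq h2 h a => by
      rcases (Nat.Prime.dvd_mul hq).1 (show q ∣ 2 * p i by exact_mod_cast a) with a | a
      · exact h2 ((Nat.prime_dvd_prime_iff_eq hq Nat.prime_two).1 a)
      · exact h ((Nat.prime_dvd_prime_iff_eq hq (hp i).1.1).1 a)
  have key : ∀ e : Fin r → F2, e ≠ 0 → ∑ y ∈ Y, sr (∑ i, e i * js (p i) y) = 0 := fun e he => by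
    obtain ⟨j, hj⟩ := Function.ne_iff.1 he
    have ch : IsCh ⊤ fun x => ∑ i, e i * qz (p i) x :=
      IsCh.sum fun i _ => (isCh_qz _).map (AddMonoidHom.mulLeft (e i))
    obtain ⟨a1, a2⟩ := hO ⊤ (fun _ _ => trivial) _ ch fun v h2 hv x hx => sum_eq_zero fun i _ => by
      rw [qz_I hA (nd _ i v.prime h2 fun h => hv (h ▸ (hp i).2)) hx, mul_zero]
    have gj := (hp j).1
    rw [← a2 ⟨pl (p j), by rw [pl_p gj.1]; exact (hp j).2, tp (p j), tp_I gj.1 gj.ne.1, trivial, by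
      rw [sum_eq_single j, BasP.qz_tp gj gj, if_pos rfl, mul_one, BasG.one_of_ne hj]
      · intro i _ h
        rw [BasP.qz_tp gj (hp i).1, if_neg fun a => h (hi a).symm, mul_zero]
      · exact fun h => absurd (mem_univ j) h⟩, filter_true_of_mem fun _ _ => Subgroup.mem_top _]
    refine sum_congr rfl fun y hy => ?_
    rw [← ch.conj (g y) (c y), ← (a1 y hy).2 trivial]
    refine congrArg _ (sum_congr rfl fun i _ => ?_)
    rw [qz_fr (hY y hy).1 (nd y i (hY y hy).1 (hY y hy).ne.1 fun h =>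
      disjoint_left.1 hd (hp i).2 (h ▸ hy))]
  have e1 : ((Y.filter fun y => ∀ i, js (p i) y = 0).card : ℝ) =
      ∑ y ∈ Y, if (fun i => js (p i) y) = 0 then 1 else 0 := by
    rw [sum_boole]
    exact congrArg _ (congrArg _ (filter_congr fun y _ => funext_iff.symm))
  rw [← Nat.cast_inj (R := ℝ), Nat.cast_mul, e1]
  simp only [a_FOUR (Fin r) _ 0, Pi.zero_apply, mul_zero, sum_const_zero, TFOUR.sr_zero, one_mul]
  rw [← mul_sum, sum_comm, sum_eq_single 0 (fun e _ he => key e he) fun h => absurd (mem_univ _) h]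
  simp [TFOUR.sr_zero]

end Pool.Agent.P.MP_8b7eba_nt.SM.X
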