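import Pool.Agent.P.MP_8b7eba_nt.R3.CDef

/-! The Selmer conditions with an auxiliary prime and the choice of the lattice. -/

namespace Pool.Agent.P.MP_8b7eba_nt.SM.X

open Finset R2
open scoped Matrix

variable {S : Finset ℕ} {l : ℕ}

theorem Spl.four (h : Spl S l) : l % 4 = 3 := by
  have h1 := h.sy (-1) (neg_dvd.2 (one_dvd _))
  have h2 := h.gp.ne.2.2.2.2.1
  rcases BasG.four h2 with e | e
  · rw [jacobiSym.at_neg_one h2, ZMod.χ₄_nat_one_mod_four e] at h1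
    exact absurd h1 (by decide)
  · exact e

theorem spl_of (hS : ∀ q ∈ S, Gp q) (hl : Gp l) (h0 : l ∉ S) (h4 : l % 4 = 3)
    (h : ∀ q : ℕ, q.Prime → q ∣ 30 ∨ q ∈ S → jacobiSym q l = 1) : Spl S l := by
  have k : ∀ a : ℕ, a ≠ 0 → (a : ℤ) ∣ 30 * ∏ q ∈ S, (q : ℤ) → jacobiSym a l = 1 := by
    intro a
    induction a using induction_on_primes with
    | zero => exact fun h => absurd rfl h
    | one => intro _ _; simp
    | prime_mul p a hp ih =>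
      intro h0 hd
      rw [Nat.cast_mul] at hd ⊢
      rw [jacobiSym.mul_left, ih (right_ne_zero_of_mul h0) (dvd_of_mul_left_dvd hd), mul_one]
      have hp' := Nat.prime_iff_prime_int.1 hp
      refine h p hp ((hp'.dvd_or_dvd (dvd_of_mul_right_dvd hd)).imp (fun e => by exact_mod_cast e)
        fun e => ?_)
      obtain ⟨q, hq, e⟩ := (hp'.dvd_finsetProd_iff _).1 e
      exact (Nat.prime_dvd_prime_iff_eq hp (hS q hq).1).1 (by exact_mod_cast e) ▸ hq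
  refine ⟨hl, h0, fun a ha => ?_⟩
  have a0 : a ≠ 0 := ne_zero_of_dvd_ne_zero (mul_ne_zero (by norm_num)
    (prod_ne_zero_iff.2 fun q hq => Nat.cast_ne_zero.2 (hS q hq).1.ne_zero)) ha
  have k1 := k a.natAbs (Int.natAbs_ne_zero.2 a0) (Int.natAbs_dvd.2 ha)
  rcases lt_or_gt_of_ne a0 with s | s
  · rw [Int.sign_eq_neg_one_of_neg s, show a = -1 * (a.natAbs : ℤ) by omega, jacobiSym.mul_left, k1,
      jacobiSym.at_neg_one hl.ne.2.2.2.2.1, ZMod.χ₄_nat_three_mod_four h4, mul_one]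
  · rw [Int.sign_eq_one_of_pos s, show a = (a.natAbs : ℤ) by omega, k1]

theorem Spl.one (h : Spl S l) {q : ℕ} (hq : q.Prime) (e : q ∣ 30 ∨ q ∈ S) : jacobiSym q l = 1 := by
  rw [h.sy q (e.elim (fun e => Dvd.dvd.mul_right (by exact_mod_cast e) _)
    fun e => (dvd_prod_of_mem (fun q : ℕ => (q : ℤ)) e).mul_left _),
    Int.sign_natCast_of_ne_zero hq.ne_zero]

theorem spl_set {B : SM.Box} {p : Fin B.r → ℕ} (hp : p ∈ B.pts) (h : Spl B.S l)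
    (h0 : ∀ i, l ∉ B.X i) (h1 : ∀ i, js (p i) l = 0) : Spl (B.set p) l := by
  refine spl_of (SM.Box.set_gp hp) h.gp (fun e => ?_) h.four fun q hq e => ?_
  · rcases SM.Box.mem_set.1 e with e | ⟨i, e⟩
    exacts [h.nm e, h0 i (e ▸ SM.Box.mem_pts.1 hp i)]
  · rcases e with e | e
    · exact h.one hq (.inl e)
    rcases SM.Box.mem_set.1 e with e | ⟨i, rfl⟩
    · exact h.one hq (.inr e)
    · by_contra c
      have := h1 i
      rw [js, if_neg c] at this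
      exact one_ne_zero this

variable [HA]

theorem Spl.qz_eq (hS : ∀ q ∈ S, Gp q) (h : Spl S l) {a : ℤ} (ha : a ∣ 30 * ∏ q ∈ S, (q : ℤ)) :
    qz a (fr l) = qz a tau := by
  have a0 : a ≠ 0 := ne_zero_of_dvd_ne_zero (mul_ne_zero (by norm_num)
    (prod_ne_zero_iff.2 fun q hq => Nat.cast_ne_zero.2 (hS q hq).1.ne_zero)) ha
  have e := h.sy a ha
  have hl := Nat.prime_iff_prime_int.1 h.gp.1
  rw [qz_fr h.gp.1 fun c => ?_, js, e]
  · rcases lt_or_gt_of_ne a0 with s | s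
    · rw [Int.sign_eq_neg_one_of_neg s, if_neg (by decide)]
      exact (BasG.one_of_ne fun c => s.not_gt ((qz_tau hA.tau a0).1 c)).symm
    · rw [Int.sign_eq_one_of_pos s, if_pos rfl, (qz_tau hA.tau a0).2 s]
  · rcases hl.dvd_or_dvd c with c | c
    · exact h.gp.2 (by exact_mod_cast c.trans (show (2 : ℤ) ∣ 30 by norm_num))
    · rw [jacobiSym.mod_left, Int.emod_eq_zero_of_dvd c, jacobiSym.zero_left h.gp.1.one_lt] at e
      exact a0 (Int.sign_eq_zero_iff_zero.1 e.symm)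

theorem Spl.ch_eq {A : Type} [AddCommGroup A] [Module F2 A] (hS : ∀ q ∈ S, Gp q) (h : Spl S l)
    {χ : GQ → A} (hχ : IsCh ⊤ χ) (hu : ∀ w : Pl, ¬ w.p ∣ 30 → w.p ∉ S → ∀ g ∈ w.I, χ g = 0) :
    χ (fr l) = χ tau := by
  obtain ⟨c, hc⟩ := chars hS hχ hu
  rw [hc, hc tau]
  congr 1
  · exact sum_congr rfl fun i _ => by rw [h.qz_eq hS (a := bs i) (BasP.smz_dvd (S := S) (.inl i))]
  · refine sum_congr rfl fun q hq => ?_
    rw [qs, h.qz_eq hS]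
    refine Dvd.dvd.mul_left ?_ _
    rw [← Int.natAbs_dvd, BasG.abs_ps]
    exact dvd_prod_of_mem (fun q : ℕ => (q : ℤ)) hq

theorem Spl.qs_eq (hS : ∀ q ∈ S, Gp q) (h : Spl S l) {q : ℕ} (hq : q ∈ S) :
    qs l (fr q) = 0 ∧ qs l (tp q) = 0 := by
  have g := hS q hq
  have e : q ≠ l := fun e => h.nm (e ▸ hq)
  rw [qs_fr g h.gp e, js_rec g.ne.2.2.2.2.1 h.gp.ne.2.2.2.2.1, js, if_pos (h.one g.1 (.inr hq)),
    qs_tp g h.gp, if_neg e]
  exact ⟨rfl, rfl⟩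

omit [HA] in
theorem adl_adl (φ : X2) (l : ℕ) (w : V1) : adl (adl φ l w) l w = φ := by
  funext g
  rw [adl, adl, add_assoc, ← add_smul, CharTwo.add_self_eq_zero, zero_smul, add_zero]

theorem adl_tp (h : Gp l) (φ : X2) (w : V1) : adl φ l w (tp l) = φ (tp l) + w := by
  rw [adl, qs_tp h h, if_pos rfl, one_smul]

theorem t_SEL : SEL := by
  intro Λ S l φ w hS h h0
  have hl := h.gp
  have e1 : chi (insert l S) = qs l + chi S := by rw [chi, sum_insert h.nm, chi]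
  have e2 : ∀ p ∈ S, (adl φ l w (fr p) = Λ.cb (fr p) *ᵥ adl φ l w (tp p) +
      chi (insert l S) (fr p) • adl φ l w (tp p)) ↔
      φ (fr p) = Λ.cb (fr p) *ᵥ φ (tp p) + chi S (fr p) • φ (tp p) := fun p hp => by
    simp only [adl, e1, Pi.add_apply, (h.qs_eq hS hp).1, (h.qs_eq hS hp).2, zero_smul, add_zero, zero_add]
  have e3 : (adl φ l w (fr l) = Λ.cb (fr l) *ᵥ adl φ l w (tp l) +
      chi (insert l S) (fr l) • adl φ l w (tp l)) ↔
      φ (fr l) = Λ.cb tau *ᵥ w + chi S tau • w := by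
    rw [adl_tp hl, h0, zero_add, adl, e1, Pi.add_apply, qs_fr_self hl.1 hl.ne.1, zero_smul, add_zero,
      zero_add, h.ch_eq hS Λ.isCh_cb fun w a _ g hg => (Λ.c_I a hg).2,
      h.ch_eq hS (isCh_chi S) fun w _ b g hg => chi_I hS b hg]
  have e4 : ∀ v : Pl, v.p ≠ l → ∀ g ∈ v.I, adl φ l w g = φ g := fun v a g hg => by
    rw [adl, qs_I hl.1 hl.ne.1 a hg, zero_smul, add_zero]
  constructor
  · intro k
    have c : IsCh ⊤ φ := adl_adl φ l w ▸ k.ch.add ((isCh_qs l).smul w)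
    have u : ∀ v : Pl, ¬ v.p ∣ 30 → v.p ∉ S → ∀ g ∈ v.I, φ g = 0 := fun v a b g hg => by
      by_cases e : v.p = l
      · exact ch_unr_top (e ▸ hl.ne.1) c (e ▸ h0) hg
      · rw [← e4 v e g hg]
        exact k.unr v a (fun m => (mem_insert.1 m).elim e b) g hg
    exact ⟨⟨c, u, fun p hp => (e2 p hp).1 (k.loc p (mem_insert_of_mem hp))⟩,
      (h.ch_eq hS c u).symm.trans (e3.1 (k.loc l (mem_insert_self _ _)))⟩
  · rintro ⟨k, k'⟩
    refine ⟨k.ch.add ((isCh_qs l).smul w), fun v a b g hg => ?_, fun p hp => ?_⟩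
    · rw [e4 v (fun e => b (e ▸ mem_insert_self _ _)) g hg]
      exact k.unr v a (fun m => b (mem_insert_of_mem m)) g hg
    · rcases mem_insert.1 hp with rfl | hp
      · exact e3.2 ((h.ch_eq hS k.ch k.unr).trans k')
      · exact (e2 p hp).2 (k.loc p hp)

omit [HA]

/-- good pairs of vectors -/
def Gv (D : Submodule F2 FF) (ω : FF) : Prop :=
  ∃ a b c d : F2, ∃ v ∈ D, c • v.1 + d • v.2 = 0 ∧ ∃ v', (v' ∈ D ∨ v' = ω) ∧
    ee (a • v.1 + b • v.2) (c • v'.1 + d • v'.2) = 1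

theorem gv_of {D : Submodule F2 FF} {ω : FF} (h : ¬ Gv D ω) {i : Fin 2} {u v' : FF} (hu : u ∈ D)
    (h1 : u.1 (i + 1) = 0 ∧ u.2 (i + 1) = 0) (hv : v' ∈ D ∨ v' = ω) :
    u.2 i * v'.1 (i + 1) + u.1 i * v'.2 (i + 1) = 0 := by
  by_contra c
  obtain ⟨a, b, e, e'⟩ := (by decide : ∀ p q r s : F2, q * r + p * s ≠ 0 →
    ∃ a b, a * p + b * q = 1 ∧ q * r + p * s = 1) _ _ _ _ c
  refine h ⟨a, b, u.2 i, u.1 i, u, hu, funext fun j => ?_, v', hv, ?_⟩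
  · rcases TRED1.fin_cases i j with rfl | rfl
    · simp [mul_comm, CharTwo.add_self_eq_zero]
    · simp [h1]
  · fin_cases i
    · simp at h1 e e'
      simp [ee, h1, e, e']
    · simp at h1 e e'
      simp [ee, h1, e, e']

theorem bas1 (D : Submodule F2 FF) (ω : FF) (s : F2)
    (h0 : ∀ a b : F2, (∀ v, v ∈ D ∨ v = ω → a • v.1 + b • v.2 = 0) → a = 0 ∧ b = 0)
    (hE : ∀ v ∈ D, (!![1, 0; 0, 0] *ᵥ v.1, !![1, 0; 0, 0] *ᵥ v.2) ∈ D)
    (hω : (!![1, 0; 0, 0] *ᵥ ω.1 + s • ω.1, !![1, 0; 0, 0] *ᵥ ω.2 + s • ω.2) ∈ D) :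
    Gv D ω ∨ ∃ i, ∀ v, v ∈ D ∨ v = ω → v.1 i = 0 ∧ v.2 i = 0 := by
  by_contra hc
  rw [not_or] at hc
  have N : ∀ i : Fin 2, ∀ v ∈ D, ∀ v', v' ∈ D ∨ v' = ω →
      v.2 i * v'.1 (i + 1) + v.1 i * v'.2 (i + 1) = 0 := fun i v hv v' hv' => by
    fin_cases i
    · simpa [Matrix.mulVec, dotProduct] using
        gv_of hc.1 (i := 0) (hE v hv) (by simp [Matrix.mulVec, dotProduct]) hv'
    · simpa [Matrix.mulVec, dotProduct] using
        gv_of hc.1 (i := 1) (D.sub_mem hv (hE v hv)) (by simp [Matrix.mulVec, dotProduct]) hv'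
  obtain ⟨j, hj⟩ : ∃ j : Fin 2, ∀ v, v ∈ D ∨ v = ω → ∃ u ∈ D, u.1 j = v.1 j ∧ u.2 j = v.2 j := by
    rcases BasG.f2 s with rfl | rfl
    · exact ⟨0, fun v hv => hv.elim (⟨v, ·, rfl, rfl⟩) fun e =>
        ⟨_, hω, by simp [Matrix.mulVec, dotProduct, e]⟩⟩
    · exact ⟨1, fun v hv => hv.elim (⟨v, ·, rfl, rfl⟩) fun e =>
        ⟨_, hω, by simp [Matrix.mulVec, dotProduct, e]⟩⟩
  have Q : ∀ i, ∃ v, (v ∈ D ∨ v = ω) ∧ ¬ (v.1 i = 0 ∧ v.2 i = 0) := fun i => by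
    by_contra! h
    exact hc.2 ⟨i, h⟩
  obtain ⟨v, hv, a⟩ := Q j
  obtain ⟨v', hv', a'⟩ := Q (j + 1)
  obtain ⟨x, hx, x1, x2⟩ := hj v hv
  rw [← x1, ← x2] at a
  refine a (h0 (x.2 j) (x.1 j) fun u hu => funext fun i => ?_).symm
  rcases TRED1.fin_cases j i with rfl | rfl
  · obtain ⟨z, hz, z1, z2⟩ := hj u hu
    have k := N i z hz v' hv'
    rw [z1, z2] at k
    exact (by decide : ∀ p q r s t u : F2, ¬ (r = 0 ∧ s = 0) → q * r + p * s = 0 →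
      u * r + t * s = 0 → q * t + p * u = 0) _ _ _ _ _ _ a' (N i x hx v' hv') k
  · exact N j x hx u hu

theorem bas2 (D : Submodule F2 FF) (ω : FF) (i : Fin 2)
    (h0 : ∀ a b : F2, (∀ v, v ∈ D ∨ v = ω → a * v.1 (i + 1) + b * v.2 (i + 1) = 0) → a = 0 ∧ b = 0)
    (hN : ∀ v ∈ D, (Matrix.single i (i + 1) 1 *ᵥ v.1, Matrix.single i (i + 1) 1 *ᵥ v.2) ∈ D) :
    Gv D ω := by
  by_contra hc
  have N : ∀ v ∈ D, v.2 (i + 1) = 0 ∧ v.1 (i + 1) = 0 := fun v hv => h0 _ _ fun v' hv' => by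
    simpa [Matrix.single_mulVec] using gv_of hc (i := i) (hN v hv)
      (by simp [Matrix.single_mulVec, Function.update_of_ne (TRED1.succ_ne i)]) hv'
  have k := h0 (ω.2 (i + 1)) (ω.1 (i + 1)) fun v hv => by
    rcases hv with hv | rfl
    · rw [(N v hv).1, (N v hv).2, mul_zero, mul_zero, add_zero]
    · rw [mul_comm, CharTwo.add_self_eq_zero]
  refine one_ne_zero (h0 1 0 fun v hv => ?_).1
  rcases hv with hv | rfl
  · rw [(N v hv).2, mul_zero, zero_mul, add_zero]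
  · rw [k.2, mul_zero, zero_mul, add_zero]

theorem shift {D : Submodule F2 FF} {M : Matrix (Fin 2) (Fin 2) F2} {s : F2} {v : FF} (hv : v ∈ D)
    (h : ((M + s • (1 : Matrix (Fin 2) (Fin 2) F2)) *ᵥ v.1,
      (M + s • (1 : Matrix (Fin 2) (Fin 2) F2)) *ᵥ v.2) ∈ D) : (M *ᵥ v.1, M *ᵥ v.2) ∈ D := by
  have k := D.sub_mem h (D.smul_mem s hv)
  have e : ((M + s • (1 : Matrix (Fin 2) (Fin 2) F2)) *ᵥ v.1,
      (M + s • (1 : Matrix (Fin 2) (Fin 2) F2)) *ᵥ v.2) - s • v = (M *ᵥ v.1, M *ᵥ v.2) := by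
    ext1 <;> simp [Matrix.add_mulVec, Matrix.smul_mulVec]
  rwa [e] at k

variable [HA]

open TRED1 in
theorem red_aux {Λ : Lat} {p : ℕ} {x y : GQ → VZ} (hS : ∀ q ∈ S, Gp q) (hl : Spl S l) (hp : p ∈ S)
    (hW : ∀ j, Λ.Wn (insert l S) j x ∧ Λ.Wn (insert l S) j y) (hx0 : x (tp p) = 0)
    (hy0 : y (tp p) = 0) (h : ¬ BadL Λ S l p) : ∃ (D : Submodule F2 FF) (ω : FF), ¬ Gv D ω ∧
      (∀ g, ∀ v ∈ D, (Λ.cb g *ᵥ v.1, Λ.cb g *ᵥ v.2) ∈ D) ∧
      (Λ.cb tau *ᵥ ω.1 + chi S tau • ω.1, Λ.cb tau *ᵥ ω.2 + chi S tau • ω.2) ∈ D ∧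
      ∀ g, ∃ v ∈ D, ∃ c : F2, (rd (x g), rd (y g)) = v + c • ω := by
  have hS' : ∀ q ∈ insert l S, Gp q := fun q hq => (mem_insert.1 hq).elim (· ▸ hl.gp) (hS q)
  obtain ⟨ω, hω⟩ : ∃ ω : FF, ω = (rd (x (tp l)), rd (y (tp l))) := ⟨_, rfl⟩
  obtain ⟨φ, hφ⟩ : ∃ φ, φ = adl (fun g => rd (x g)) l ω.1 := ⟨_, rfl⟩
  obtain ⟨ψ, hψ⟩ : ∃ ψ, ψ = adl (fun g => rd (y g)) l ω.2 := ⟨_, rfl⟩
  have two : ∀ v : V1, v + v = 0 := by decide
  have e1 : adl φ l ω.1 = fun g => rd (x g) := by rw [hφ, adl_adl]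
  have e2 : adl ψ l ω.2 = fun g => rd (y g) := by rw [hψ, adl_adl]
  have l1 : φ (tp l) = 0 := by rw [hφ, adl_tp hl.gp, hω, two]
  have l2 : ψ (tp l) = 0 := by rw [hψ, adl_tp hl.gp, hω, two]
  have p1 : φ (tp p) = 0 := by rw [hφ, adl, hx0, rd_zero, (hl.qs_eq hS hp).2, zero_smul, add_zero]
  have p2 : ψ (tp p) = 0 := by rw [hψ, adl, hy0, rd_zero, (hl.qs_eq hS hp).2, zero_smul, add_zero]
  obtain ⟨s1, t1⟩ := (t_SEL Λ S l φ ω.1 hS hl l1).1 (e1 ▸ (hW 1).1.se hS')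
  obtain ⟨s2, t2⟩ := (t_SEL Λ S l ψ ω.2 hS hl l2).1 (e2 ▸ (hW 1).2.se hS')
  have hlin : ∀ (a b : F2) (n : ℕ), Λ.WK (insert l S) n
      (adl (fun g => a • φ g + b • ψ g) l (a • ω.1 + b • ω.2)) := fun a b n =>
    ⟨fun g => ((a.val : ℕ) : Z2) • x g + ((b.val : ℕ) : Z2) • y g,
      ((hW n).1.smul _).add ((hW n).2.smul _), fun g => by
        rw [rd_add, rd_smul, rd_smul, BasY.toZMod_val, BasY.toZMod_val, ← congrFun e1 g,
          ← congrFun e2 g]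
        simp only [adl, smul_add, smul_smul, mul_comm]
        abel⟩
  refine ⟨img s1.ch s2.ch, ω, ?_, ?_, ⟨tau, Prod.ext t1 t2⟩, fun g => ⟨_, ⟨g, rfl⟩, qs l g,
    Prod.ext (congrFun e1 g).symm (congrFun e2 g).symm⟩⟩
  · rintro ⟨a, b, c, d, _, ⟨g, rfl⟩, k1, v', hv', k2⟩
    refine h ⟨fun g => a • φ g + b • ψ g, fun g => c • φ g + d • ψ g,
      (a • ω.1 + b • ω.2, c • ω.1 + d • ω.2), fun n => ⟨hlin a b _, hlin c d _⟩, ?_, ?_, ?_, ?_,
      fun _ => ⟨g, k1, ?_⟩⟩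
    iterate 4 simp only [l1, l2, p1, p2, smul_zero, add_zero]
    rcases hv' with ⟨g', rfl⟩ | rfl
    exacts [.inl ⟨g', k2⟩, .inr k2]
  · rintro g _ ⟨g', rfl⟩
    by_contra c
    refine h ⟨φ, ψ, ω, fun n => ⟨e1 ▸ ⟨x, (hW _).1, fun _ => rfl⟩, e2 ▸ ⟨y, (hW _).2, fun _ => rfl⟩⟩,
      l1, l2, p1, p2, fun st => (c ?_).elim⟩
    obtain ⟨h', a, b⟩ := st g g'
    exact ⟨h', Prod.ext a b⟩

open TRED1 in
theorem t_REDL : REDL := by
  intro Λ Λ' S l p x y hS hl hp ⟨s₀, htau⟩ hΛ' hW hx0 hy0 hind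
  by_contra hc
  rw [not_or, not_exists] at hc
  obtain ⟨D, ω, d1, d2, d3, d4⟩ := red_aux hS hl hp hW hx0 hy0 hc.1
  obtain ⟨i, hi⟩ := (bas1 D ω (s₀ + chi S tau) (fun a b h => hind a b fun g => by
      obtain ⟨v, hv, c, e⟩ := d4 g
      have e1 : rd (x g) = v.1 + c • ω.1 := congrArg Prod.fst e
      have e2 : rd (y g) = v.2 + c • ω.2 := congrArg Prod.snd e
      rw [e1, e2]
      linear_combination (norm := module) h v (.inl hv) + c • h ω (.inr rfl))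
    (fun v hv => shift hv (htau ▸ d2 tau v hv)) (by
      simpa only [htau, Matrix.add_mulVec, Matrix.smul_mulVec, Matrix.one_mulVec, add_smul,
        add_assoc] using d3)).resolve_left d1
  have z : ∀ g, rd (x g) i = 0 ∧ rd (y g) i = 0 := fun g => by
    obtain ⟨v, hv, c, e⟩ := d4 g
    have e1 : rd (x g) i = v.1 i + c * ω.1 i := congrFun (congrArg Prod.fst e) i
    have e2 : rd (y g) i = v.2 i + c * ω.2 i := congrFun (congrArg Prod.snd e) i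
    simp [e1, e2, hi v (.inl hv), hi ω (.inr rfl)]
  choose x' hx' using fun g => half (u := x g) (z g).1
  choose y' hy' using fun g => half (u := y g) (z g).2
  obtain ⟨hsh, t, s, ht⟩ := hΛ' i
  obtain ⟨D', ω', c1, c2, -, c4⟩ := red_aux (Λ := Λ' i) (x := x') (y := y') hS hl hp
    (fun n => ⟨a_SHW Λ _ i _ n x x' hsh hx' (hW _).1, a_SHW Λ _ i _ n y y' hsh hy' (hW _).2⟩)
    (dg_zero (hx0.symm.trans (hx' _))) (dg_zero (hy0.symm.trans (hy' _))) (hc.2 i)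
  refine c1 (bas2 D' ω' i (fun a b h => hind a b fun g => funext fun j => ?_)
    fun v hv => shift hv (ht ▸ c2 t v hv))
  rcases fin_cases i j with rfl | rfl
  · simp only [Pi.add_apply, Pi.smul_apply, z g, smul_zero, add_zero, Pi.zero_apply]
  · obtain ⟨v, hv, c, e⟩ := c4 g
    have e1 : rd (x' g) (i + 1) = v.1 (i + 1) + c * ω'.1 (i + 1) :=
      congrFun (congrArg Prod.fst e) _
    have e2 : rd (y' g) (i + 1) = v.2 (i + 1) + c * ω'.2 (i + 1) :=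
      congrFun (congrArg Prod.snd e) _
    rw [Pi.add_apply, Pi.smul_apply, Pi.smul_apply, hx' g, hy' g, rd_succ, rd_succ, e1, e2,
      smul_eq_mul, smul_eq_mul, Pi.zero_apply]
    linear_combination h v (.inl hv) + c * h ω' (.inr rfl)

end Pool.Agent.P.MP_8b7eba_nt.SM.X
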