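import Pool.Agent.P.MP_8b7eba_nt.R3.CStp
import Pool.Agent.P.MP_8b7eba_nt.R3.CSel
import Pool.Agent.P.MP_8b7eba_nt.R3.CBes

/-! The bound for a fixed matrix of symbols, with an auxiliary prime. -/

namespace Pool.Agent.P.MP_8b7eba_nt.SM.X

open Finset R2
open Matrix (vecCons)
open scoped Matrix

variable {B : SM.Box} {Y : Finset ℕ} {p p₀ : Fin B.r → ℕ} {l l₀ : ℕ}

theorem Yok.nm (h : Yok B Y) (hl : l ∈ Y) (i : Fin B.r) : l ∉ B.X i := fun e =>
  disjoint_left.1 h.dj (mem_biUnion.2 ⟨i, mem_univ _, e⟩) hl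

/-- the box with one more coordinate -/
abbrev ext (h : Yok B Y) : Box where
  S := B.S
  r := B.r + 1
  X := vecCons Y B.X
  t := vecCons 0 B.t
  E := B.E
  gS := B.gS
  gp := Fin.cases (fun p hp => (h.spl p hp).gp) fun i p hp => ((B.rich i).gp p hp).1
  nS := Fin.cases (disjoint_left.2 fun p hp => (h.spl p hp).nm) B.nS
  dj := Fin.cases (Fin.cases (fun e => absurd rfl e) fun j _ => disjoint_left.2 fun _ a => h.nm a j)
    fun i => Fin.cases (fun _ => disjoint_right.2 fun _ a => h.nm a i)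
      fun j e => B.dj i j fun e' => e (congrArg Fin.succ e')
  key := Fin.cases (fun p hp p' hp' a ha => ((h.spl p hp).sy a ha).trans ((h.spl p' hp').sy a ha).symm)
    B.key

theorem mem_ext (h : Yok B Y) : vecCons l p ∈ (ext h).pts ↔ p ∈ B.pts ∧ l ∈ Y := by
  rw [Box.mem_pts, SM.Box.mem_pts, and_comm]
  exact Fin.forall_fin_succ

theorem set_ext (h : Yok B Y) : (ext h).set (vecCons l p) = insert l (B.set p) := by
  ext q
  rw [Box.mem_set, mem_insert, SM.Box.mem_set, or_left_comm, eq_comm]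
  exact or_congr_right Fin.exists_fin_succ

theorem pat_ext {r : ℕ} (φ : X2) (w : V1) (R : Fin r → V1) (l : ℕ) (p : Fin r → ℕ) :
    pat φ (vecCons w R) (vecCons l p) = adl (pat φ R p) l w := by
  funext g
  simp only [pat, adl, Fin.sum_univ_succ, Matrix.cons_val_zero, Matrix.cons_val_succ]
  abel

theorem card_ext (h : Yok B Y) (f : (Fin (B.r + 1) → ℕ) → Prop) (f' : (Fin B.r → ℕ) × ℕ → Prop)
    {_ : DecidablePred f} {_ : DecidablePred f'}
    (e : ∀ p ∈ B.pts, ∀ l ∈ Y, f (vecCons l p) ↔ f' (p, l)) :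
    ((ext h).pts.filter f).card = ((B.pts ×ˢ Y).filter f').card := by
  refine (card_nbij' (fun z => vecCons z.2 z.1) (fun q => (Matrix.vecTail q, Matrix.vecHead q))
    (fun z hz => ?_) (fun q hq => ?_) (fun z _ => by simp) fun q _ => by simp).symm
  · obtain ⟨a, b⟩ := mem_filter.1 (mem_coe.1 hz)
    have c := mem_product.1 a
    exact mem_coe.2 (mem_filter.2 ⟨(mem_ext h).2 c, (e _ c.1 _ c.2).2 b⟩)
  · obtain ⟨a, b⟩ := mem_filter.1 (mem_coe.1 hq)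
    rw [← Matrix.cons_head_tail q] at a b
    have c := (mem_ext h).1 a
    exact mem_coe.2 (mem_filter.2 ⟨mem_product.2 c, (e _ c.1 _ c.2).1 b⟩)

theorem leg_ext (h : Yok B Y) (hp : p ∈ B.pts) (hl : l ∈ Y) (hp₀ : p₀ ∈ B.pts) (hl₀ : l₀ ∈ Y)
    (h0 : ∀ i, js (p₀ i) l₀ = 0) :
    Leg (vecCons l p) = Leg (vecCons l₀ p₀) ↔ Leg p = Leg p₀ ∧ ∀ i, js (p i) l = 0 := by
  have e1 : ∀ (l : ℕ) (p : Fin B.r → ℕ) i j, Leg (vecCons l p) i.succ j.succ = Leg p i j := by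
    intro l p i j
    simp [Leg]
  have e2 : ∀ p ∈ B.pts, ∀ l ∈ Y, ∀ i, Leg (vecCons l p) i.succ 0 = js (p i) l := by
    intro p hp l hl i
    rw [Leg, if_neg (Fin.succ_ne_zero i), Matrix.cons_val_zero, Matrix.cons_val_succ,
      js_rec ((SM.Box.inj hp).2 i).1.ne.2.2.2.2.1 (h.spl l hl).gp.ne.2.2.2.2.1]
  constructor
  · intro e
    exact ⟨funext fun i => funext fun j => by rw [← e1 l, e, e1], fun i => by
      rw [← e2 p hp l hl, e, e2 p₀ hp₀ l₀ hl₀, h0]⟩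
  · rintro ⟨a, b⟩
    have e3 : ∀ i : Fin B.r, Leg (vecCons l p) i.succ 0 = Leg (vecCons l₀ p₀) i.succ 0 := fun i => by
      rw [e2 p hp l hl, e2 p₀ hp₀ l₀ hl₀, h0, b]
    funext i j
    refine Fin.cases (Fin.cases (by simp [Leg]) (fun j => ?_) j)
      (fun i => Fin.cases (e3 i) (fun j => by rw [e1, e1, a]) j) i
    have k := Box.leg_swap (B := ext h) ((mem_ext h).2 ⟨hp, hl⟩) ((mem_ext h).2 ⟨hp₀, hl₀⟩) 0 j.succ
    exact add_right_cancel (k.trans (congrArg _ (e3 j).symm))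

variable [HA] {Λ : Lat} {m : Mod (Fin B.r) B.S}

theorem tau_eq (hp : p ∈ B.pts) (hp₀ : p₀ ∈ B.pts) (φ : X2) (R : Fin B.r → V1) :
    pat φ R p tau = pat φ R p₀ tau ∧ chi (B.set p) tau = chi (B.set p₀) tau := by
  have e : ∀ i, qs (p i) tau = qs (p₀ i) tau := fun i => CharTwo.add_eq_zero.1
    (key30 ((SM.Box.inj hp).2 i).1 ((SM.Box.inj hp₀).2 i).1 fun a ha => B.key i _
      (SM.Box.mem_pts.1 hp i) _ (SM.Box.mem_pts.1 hp₀ i) a (ha.mul_right _)).2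
  refine ⟨by simp only [pat, e], ?_⟩
  rw [chi, chi, Finset.sum_apply, Finset.sum_apply, SM.Box.sum_set hp fun q => qs q tau,
    SM.Box.sum_set hp₀ fun q => qs q tau]
  simp only [e]

theorem pat_tl (hp : p ∈ B.pts) (hl : Spl (B.set p) l) (a : Fin 4 ⊕ B.S → V1) (R : Fin B.r → V1) :
    pat (sp B.S a) R p (tp l) = 0 ∧ sp B.S a (tp l) = 0 := by
  have e := pl_p hl.gp.1
  have i := tp_I hl.gp.1 hl.gp.ne.1
  have k : sp B.S a (tp l) = 0 := sp_I (w := pl l) (by rw [e]; exact hl.gp.2)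
    (by rw [e]; exact fun c => hl.nm (SM.Box.mem_set.2 (.inl c))) i
  exact ⟨(pat_I hp (by rw [e]; exact hl.nm) i).trans k, k⟩

theorem norm {S : Finset ℕ} (hS : ∀ q ∈ S, Gp q) (hl : Spl S l) {C : Finset X2}
    (hC : ∀ χ, Λ.Se S χ → χ ∈ C) :
    ∃ C' : Finset X2, C'.card ≤ 4 * C.card ∧ ∀ χ, Λ.Se (insert l S) χ → χ ∈ C' := by
  classical
  refine ⟨((univ : Finset V1) ×ˢ C).image fun z => adl z.2 l z.1, card_image_le.trans ?_,
    fun χ h => mem_image.2 ⟨(χ (tp l), adl χ l (χ (tp l))), mem_product.2 ⟨mem_univ _, hC _ ?_⟩,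
      adl_adl _ _ _⟩⟩
  · rw [card_product]
    rfl
  · refine ((t_SEL Λ S l _ (χ (tp l)) hS hl ?_).1 (by rwa [adl_adl])).1
    exact (adl_tp hl.gp _ _).trans ((by decide : ∀ v : V1, v + v = 0) _)

theorem typ {τ : Type} {J : τ → Finset (Fin B.r)} {i₀ : Fin B.r} (hm : IsMod Λ B m)
    (hp : p ∈ B.pts) (hl : Spl (B.set p) l) (hb : BadL Λ (B.set p) l (p i₀))
    (hT : ∀ a R, m.Sol i₀ (Leg p) a R → m.Typ J a R) :
    ∃ a R, ∃ w : FF, m.Sol i₀ (Leg p) a R ∧ (∃ v ∈ Submodule.span F2 (Set.range R), v.2 = 0 ∧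
      ∃ v', (v' ∈ Submodule.span F2 (Set.range R) ∨ v' = w) ∧ ee v.1 v'.2 = 1) ∧ ∀ n,
      Λ.WK (insert l (B.set p)) (n + 1)
        (adl (pat (sp B.S fun b => (a b).1) (fun i => (R i).1) p) l w.1) ∧
      Λ.WK (insert l (B.set p)) (n + 1)
        (adl (pat (sp B.S fun b => (a b).2) (fun i => (R i).2) p) l w.2) := by
  obtain ⟨φ, ψ, w, hW, l1, l2, h1, h2, hG⟩ := hb
  have hS := SM.Box.set_gp hp
  have hS' : ∀ q ∈ insert l (B.set p), Gp q := fun q hq =>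
    (mem_insert.1 hq).elim (· ▸ hl.gp) (hS q)
  have s1 := ((t_SEL Λ _ l φ _ hS hl l1).1 ((hW 0).1.se hS')).1
  have s2 := ((t_SEL Λ _ l ψ _ hS hl l2).1 ((hW 0).2.se hS')).1
  obtain ⟨a, ha⟩ := hm.rep p hp _ s1
  obtain ⟨a', ha'⟩ := hm.rep p hp _ s2
  have hs : m.Sol i₀ (Leg p) (fun b => (a b, a' b)) fun i => (φ (tp (p i)), ψ (tp (p i))) :=
    (hm.sol p hp i₀ _ _).2 ⟨Prod.ext h1 h2, ha ▸ s1, ha' ▸ s2⟩
  obtain ⟨t1, t2, -⟩ := hT _ _ hs
  have in1 : ∀ g, (φ g, ψ g) ∈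
      Submodule.span F2 (Set.range fun i => (φ (tp (p i)), ψ (tp (p i)))) := fun g => by
    have e : (φ g, ψ g) = ∑ b, qz (smz B.S b) g • (a b, a' b) +
        ∑ i, qs (p i) g • (φ (tp (p i)), ψ (tp (p i))) := by
      refine Prod.ext ((congrFun ha g).trans ?_) ((congrFun ha' g).trans ?_)
      · simp [pat, sp, Prod.fst_sum]
      · simp [pat, sp, Prod.snd_sum]
    rw [e]
    exact add_mem (sum_mem fun b _ => Submodule.smul_mem _ _ (t2 b))
      (sum_mem fun i _ => Submodule.smul_mem _ _ (Submodule.subset_span ⟨i, rfl⟩))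
  have in2 : ∀ v ∈ Submodule.span F2 (Set.range fun i => (φ (tp (p i)), ψ (tp (p i)))),
      ∃ h, φ h = v.1 ∧ ψ h = v.2 := fun v hv => by
    obtain ⟨h, e⟩ := (Submodule.span_le (p := TRED1.img s1.ch s2.ch)).2
      (by rintro _ ⟨i, rfl⟩; exact ⟨_, rfl⟩) hv
    exact ⟨h, congrArg Prod.fst e, congrArg Prod.snd e⟩
  obtain ⟨g, g1, g2⟩ := hG fun g h => in2 _ (hm.C _ t1 g _ (in1 h))
  refine ⟨_, _, w, hs, ⟨_, in1 g, g1, ?_⟩, fun n => ⟨ha ▸ (hW n).1, ha' ▸ (hW n).2⟩⟩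
  rcases g2 with ⟨h, g2⟩ | g2
  exacts [⟨_, .inl (in1 h), g2⟩, ⟨w, .inr rfl, g2⟩]

/-- the positions -/
def emb {k r : ℕ} {J : Fin k ⊕ Bool → Finset (Fin r)}
    (hdj : ∀ j j', j ≠ j' → Disjoint (J j) (J j')) (i : Fin k ⊕ Bool → Fin r)
    (hi : ∀ j, i j ∈ J j) (y : Fin (r + 1)) (hy : y = 0 ∨ y = (i (.inr true)).succ) :
    Option (Option (Fin k)) ↪ Fin (r + 1) where
  toFun o := o.elim y fun o' => (TBX2.emb hdj i hi (some o')).succ
  inj' := by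
    have k : ∀ o, y ≠ (TBX2.emb hdj i hi (some o)).succ := fun o e => by
      rcases hy with rfl | rfl
      · exact Fin.succ_ne_zero _ e.symm
      · exact Option.some_ne_none o ((TBX2.emb hdj i hi).injective (Fin.succ_injective _ e).symm)
    rintro (_ | o) (_ | o') h
    exacts [rfl, absurd h (k _), absurd h.symm (k _),
      (TBX2.emb hdj i hi).injective (Fin.succ_injective _ h)]

open Classical in
theorem t_BX2 (hBX1 : BX1) : BX2 := by
  intro K s ε hε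
  obtain ⟨A, hA⟩ := hBX1 K (s + 4) ε hε
  refine ⟨A, fun Λ B m T y₀ y₁ J i₀ a Y hm hY hT hbig hle ht0 hlow hhigh hdj hns htyp => ?_⟩
  generalize hβ : (((2 ^ K)⁻¹ + ε) *
    ((B.pts ×ˢ Y).filter fun z => Leg z.1 = a ∧ ∀ i, js (z.1 i) z.2 = 0).card +
    2 / T * (B.pts.card * Y.card) : ℝ) = β
  have hβ0 : 0 ≤ β := by rw [← hβ]; positivity
  let F : FF → (Fin 4 ⊕ B.S → FF) × (Fin B.r → FF) → Finset ((Fin B.r → ℕ) × ℕ) := fun w σ =>
    (B.pts ×ˢ Y).filter fun z => (Leg z.1 = a ∧ ∀ i, js (z.1 i) z.2 = 0) ∧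
      (∃ v ∈ Submodule.span F2 (Set.range σ.2), v.2 = 0 ∧
      ∃ v', (v' ∈ Submodule.span F2 (Set.range σ.2) ∨ v' = w) ∧ ee v.1 v'.2 = 1) ∧
      Λ.WK (insert z.2 (B.set z.1)) (K + 2)
        (adl (pat (sp B.S fun b => (σ.1 b).1) (fun i => (σ.2 i).1) z.1) z.2 w.1) ∧
      Λ.WK (insert z.2 (B.set z.1)) (K + 2)
        (adl (pat (sp B.S fun b => (σ.1 b).2) (fun i => (σ.2 i).2) z.1) z.2 w.2)
  have hF : ∀ w (σ : (Fin 4 ⊕ B.S → FF) × (Fin B.r → FF)), m.Sol i₀ a σ.1 σ.2 →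
      ((F w σ).card : ℝ) ≤ β := by
    rintro w ⟨α, R⟩ hs
    rcases (F w (α, R)).eq_empty_or_nonempty with h | ⟨⟨p₀, l₀⟩, h⟩
    · rwa [h, card_empty, Nat.cast_zero]
    obtain ⟨hz, ⟨hl₀, hj₀⟩, ⟨v, hv, h1, v', hv', h2⟩, w1, w2⟩ := mem_filter.1 h
    obtain ⟨hp₀, hy₀⟩ := mem_product.1 hz
    have h3 : ∀ j : Fin (K + 1) ⊕ Bool, ∃ i ∈ J j, R i = Sum.elim (fun _ => 0)
        (fun b => bif b then (if v' = w then 0 else v') else v) j := by
      rintro (j | _ | _)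
      · exact (htyp α R hs).2.2 _ _ (Submodule.zero_mem _)
      · exact (htyp α R hs).2.2 _ _ hv
      · refine (htyp α R hs).2.2 _ _ ?_
        by_cases e : v' = w
        · simp [e]
        · simpa [e] using hv'
    choose i hi hR using h3
    obtain ⟨y, hy, hy'⟩ : ∃ y : Fin (B.r + 1), (y = 0 ∨ y = (i (.inr true)).succ) ∧
        vecCons w R y = v' := by
      by_cases e : v' = w
      · exact ⟨0, .inl rfl, e.symm⟩
      · exact ⟨_, .inr rfl, (hR _).trans (if_neg e)⟩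
    have spl : ∀ p ∈ B.pts, ∀ l ∈ Y, (∀ i, js (p i) l = 0) → Spl (B.set p) l := fun p hp l hl h =>
      spl_set hp (hY.spl l hl) (hY.nm hl) h
    have s₀ := spl p₀ hp₀ l₀ hy₀ hj₀
    have hS₀ := SM.Box.set_gp hp₀
    have hS' : ∀ q ∈ insert l₀ (B.set p₀), Gp q := fun q hq =>
      (mem_insert.1 hq).elim (· ▸ s₀.gp) (hS₀ q)
    have t1 := ((t_SEL Λ _ l₀ _ _ hS₀ s₀ (pat_tl hp₀ s₀ _ _).1).1 (w1.se hS')).2
    have t2 := ((t_SEL Λ _ l₀ _ _ hS₀ s₀ (pat_tl hp₀ s₀ _ _).1).1 (w2.se hS')).2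
    let 𝒯 : Stp (K + 1) (s + 4) :=
      { B := ext hY
        Λ := Λ
        a := Leg (vecCons l₀ p₀)
        e := emb hdj i hi y hy
        φ := fun b => bif b then sp B.S fun c => (α c).1 else sp B.S fun c => (α c).2
        R := fun b => bif b then vecCons w.1 fun j => (R j).1 else vecCons w.2 fun j => (R j).2
        sy := ⟨_, (mem_ext hY).2 ⟨hp₀, hy₀⟩, rfl⟩
        φ0 := by
          have k : ∀ a j, ∀ q ∈ (ext hY).X j, sp B.S a (tp q) = 0 := fun a =>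
            Fin.cases (fun q hq => sp_I (w := pl q) (by
              rw [pl_p (hY.spl q hq).gp.1]; exact (hY.spl q hq).gp.2) (by
              rw [pl_p (hY.spl q hq).gp.1]; exact (hY.spl q hq).nm)
              (tp_I (hY.spl q hq).gp.1 (hY.spl q hq).gp.ne.1)) fun j q hq => sp_tp_X _ hq
          rintro (_ | _) <;> exact k _
        lo := by
          rintro (_ | _) j
          · exact congrArg Prod.snd (hR (.inl j))
          · exact congrArg Prod.fst (hR (.inl j))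
        ra := (congrArg Prod.snd (hR (.inr false))).trans h1
        rb := by
          change ee (R (i (.inr false))).1 (vecCons w.2 (fun j => (R j).2) y) = 1
          rw [hR, ← h2, ← hy']
          rcases hy with rfl | rfl <;> rfl
        sel := fun q hq hl => by
          rw [← Matrix.cons_head_tail q] at hq hl ⊢
          generalize Matrix.vecHead q = l at *
          generalize Matrix.vecTail q = p at *
          obtain ⟨hp, hy⟩ := (mem_ext hY).1 hq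
          obtain ⟨e, hj⟩ := (leg_ext hY hp hy hp₀ hy₀ hj₀).1 hl
          have s₁ := spl p hp l hy hj
          have hS := SM.Box.set_gp hp
          have h4 := (hm.sol p hp i₀ α R).1 ((e.trans hl₀) ▸ hs)
          obtain ⟨C, h5, h6⟩ := a_NORM Λ B m i₀ hm p hp
          obtain ⟨C', h7, h8⟩ := norm hS s₁ h6
          rw [set_ext]
          refine ⟨?_, C', ?_, h8⟩
          · rintro (_ | _)
            · exact pat_ext .. ▸ (t_SEL Λ _ l _ _ hS s₁ (pat_tl hp s₁ _ _).1).2 ⟨h4.2.2, by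
                rw [(tau_eq hp hp₀ _ _).1, (tau_eq hp hp₀ 0 0).2]; exact t2⟩
            · exact pat_ext .. ▸ (t_SEL Λ _ l _ _ hS s₁ (pat_tl hp s₁ _ _).1).2 ⟨h4.2.1, by
                rw [(tau_eq hp hp₀ _ _).1, (tau_eq hp hp₀ 0 0).2]; exact t1⟩
          · rw [e.trans hl₀] at h5
            rw [pow_add]
            omega }
    have h7 := hA 𝒯 T y₀ y₁ ⟨hT, hbig, hle, fun o => B.rich _, fun o => ht0 _,
      fun j => hlow j _ (hi (.inl j)), hhigh false _ (hi (.inr false)), by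
        rcases hy with rfl | rfl
        · exact .inr ⟨_, hY.orth, fun o => subset_biUnion_of_mem B.X (mem_univ _), hY.dj⟩
        · exact .inl ⟨B.rich _, hhigh true _ (hi (.inr true))⟩⟩
    have c1 : (𝒯.B.pts.filter fun p => Leg p = 𝒯.a).card =
        ((B.pts ×ˢ Y).filter fun z => Leg z.1 = a ∧ ∀ i, js (z.1 i) z.2 = 0).card :=
      card_ext hY _ _ fun p hp l hl => (leg_ext hY hp hl hp₀ hy₀ hj₀).trans (by rw [hl₀])
    have c2 : 𝒯.B.pts.card = B.pts.card * Y.card := by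
      have k : ((ext hY).pts.filter fun _ => True).card = ((B.pts ×ˢ Y).filter fun _ => True).card :=
        card_ext hY _ _ fun _ _ _ _ => Iff.rfl
      rwa [filter_true, filter_true, card_product] at k
    have c3 : (𝒯.B.pts.filter (𝒯.W (K + 2))).card =
        ((B.pts ×ˢ Y).filter fun z => 𝒯.W (K + 2) (vecCons z.2 z.1)).card :=
      card_ext hY _ _ fun _ _ _ _ => Iff.rfl
    rw [c1, c2, Nat.cast_mul, hβ, c3] at h7
    refine le_trans (Nat.cast_le.2 (card_le_card fun z hz => ?_)) h7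
    obtain ⟨h8, ⟨h9, h9'⟩, -, h10, h11⟩ := mem_filter.1 hz
    have c := mem_product.1 h8
    refine mem_filter.2 ⟨h8, (leg_ext hY c.1 c.2 hp₀ hy₀ hj₀).2 ⟨h9.trans hl₀.symm, h9'⟩, ?_⟩
    rintro (_ | _)
    · exact (set_ext hY).symm ▸ pat_ext .. ▸ h11
    · exact (set_ext hY).symm ▸ pat_ext .. ▸ h10
  refine (TBX2.cover m i₀ a _ (fun σ => univ.biUnion fun w => F w σ) (16 * β) _ hns (by positivity)
    (fun σ hσ => ?_) fun z hz => ?_).trans_eq (by push_cast; ring)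
  · refine (Nat.cast_le.2 card_biUnion_le).trans ?_
    rw [Nat.cast_sum]
    refine (sum_le_card_nsmul _ _ β fun w _ => hF w σ hσ).trans_eq ?_
    simp
  · obtain ⟨h1, h2, h3, h4⟩ := mem_filter.1 hz
    have c := mem_product.1 h1
    subst h2
    obtain ⟨α, R, w, h5, h6, h7⟩ := typ hm c.1 (spl_set c.1 (hY.spl _ c.2) (hY.nm c.2) h3) h4 htyp
    exact ⟨(α, R), h5, mem_biUnion.2 ⟨w, mem_univ _, mem_filter.2 ⟨h1, ⟨rfl, h3⟩, h6, h7 (K + 1)⟩⟩⟩

omit [HA] in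
theorem cnt (hCNT : CNT) (h : Yok B Y) (f : (Fin B.r → ℕ) → Prop)
    {_ : DecidablePred f} {_ : DecidablePred fun z : (Fin B.r → ℕ) × ℕ =>
      f z.1 ∧ ∀ i, js (z.1 i) z.2 = 0} :
    2 ^ B.r * (((B.pts ×ˢ Y).filter fun z => f z.1 ∧ ∀ i, js (z.1 i) z.2 = 0).card : ℝ) =
      (B.pts.filter f).card * Y.card := by
  classical
  have e : ((B.pts ×ˢ Y).filter fun z => f z.1 ∧ ∀ i, js (z.1 i) z.2 = 0).card =
      ∑ p ∈ B.pts.filter f, (Y.filter fun y => ∀ i, js (p i) y = 0).card := by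
    rw [card_filter, sum_product, sum_filter]
    refine sum_congr rfl fun p _ => ?_
    split_ifs with c
    · simp only [c, true_and, card_filter]
    · simp [c]
  rw [e, Nat.cast_sum, mul_sum, ← nsmul_eq_mul, ← sum_const]
  refine sum_congr rfl fun p hp => ?_
  have hp := (mem_filter.1 hp).1
  exact_mod_cast hCNT B.r p _ Y (SM.Box.inj hp).1 (fun i => ⟨((SM.Box.inj hp).2 i).1,
    mem_biUnion.2 ⟨i, mem_univ _, SM.Box.mem_pts.1 hp i⟩⟩) h.orth h.dj fun y hy => (h.spl y hy).gp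

omit [HA] in
theorem num (B : SM.Box) (T₀ : ℕ) :
    2 ^ B.r * 2 ^ B.r ^ 2 * T₀ * (B.E + 2) * 2 ^ (B.r + 1 + B.S.card + 2) ≤
    (2 ^ (B.r + B.S.card + 2) ^ 2 * (B.E + 2)) ^ (T₀ + 1) := by
  have h1 : 2 ^ B.r * 2 ^ B.r ^ 2 * 2 ^ (B.r + 1 + B.S.card + 2) ≤
      2 ^ (B.r + B.S.card + 2) ^ 2 := by
    rw [← pow_add, ← pow_add]
    exact Nat.pow_le_pow_right (by norm_num) (by nlinarith)
  have h2 : T₀ ≤ (2 ^ (B.r + B.S.card + 2) ^ 2 * (B.E + 2)) ^ T₀ :=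
    le_trans Nat.lt_two_pow_self.le (Nat.pow_le_pow_left (TBOXL.two_le B) _)
  calc _ = T₀ * (2 ^ B.r * 2 ^ B.r ^ 2 * 2 ^ (B.r + 1 + B.S.card + 2) * (B.E + 2)) := by ring
    _ ≤ _ := by
      rw [pow_succ _ T₀]
      exact Nat.mul_le_mul h2 (Nat.mul_le_mul_right _ h1)

theorem t_BOXL (hCNT : CNT) (hBX2 : BX2) : BOXL := by
  classical
  intro ε hε
  obtain ⟨s, hs⟩ := a_BX3 (ε / 2) (by positivity)
  have h2s : (0 : ℝ) < 2 ^ (s + 4) := by positivity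
  have hε' : 0 < ε / (8 * 2 ^ (s + 4)) := by positivity
  obtain ⟨K, hK⟩ := exists_pow_lt_of_lt_one hε' (show (2⁻¹ : ℝ) < 1 by norm_num)
  obtain ⟨A₁, hA₁⟩ := hBX2 K s _ hε'
  obtain ⟨l, A₂, N, h3⟩ := hs (K + 1)
  obtain ⟨T₁, hT₁⟩ := exists_nat_ge (8 * 2 ^ (s + 4) / ε)
  refine ⟨K + 1, max l 1, (T₁ + 2 + 1) * A₁ + A₂, N, le_max_right _ _, ?_⟩
  intro Λ B y₀ y₁ J₀ J i₀ Y hR hY
  obtain ⟨m, hm⟩ := a_MODEL Λ B
  have e3 := h3 Λ B m y₀ y₁ J₀ J i₀ hm (TBOXL.mono hR (le_max_left _ _) (Nat.le_add_left _ _))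
  have hR1 := TBOXL.mono hR le_rfl (Nat.le_add_right ((T₁ + 2 + 1) * A₁) A₂)
  have hT : 2 ≤ 2 ^ B.r * 2 ^ B.r ^ 2 * (T₁ + 2) :=
    le_trans (Nat.le_add_left 2 T₁) (Nat.le_mul_of_pos_left _ (by positivity))
  have hb : (2 ^ B.r * 2 ^ B.r ^ 2 * (T₁ + 2) * (B.E + 2) * 2 ^ (B.r + 1 + B.S.card + 2)) ^ A₁ ≤
      y₀ := by
    refine le_trans (Nat.pow_le_pow_left (num B (T₁ + 2)) _) ?_
    rw [← pow_mul]
    exact hR1.big
  have hh : ∀ j, ∀ i ∈ J (.inr j), y₁ ^ A₁ ≤ B.t i := fun j i hi =>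
    le_trans (Nat.pow_le_pow_right (TBOXL.one_le hR) (Nat.le_mul_of_pos_left _ (by omega)))
      (hR1.high j i hi)
  have e2 := fun a => hA₁ Λ B m _ y₀ y₁ J i₀ a Y hm hY hT hb hR.le hR.t0 hR.low hh hR.dj
  set G : (Fin B.r → Fin B.r → F2) → Prop := fun a => m.ns i₀ a ≤ 2 ^ s ∧
    ∀ α R, m.Sol i₀ a α R → m.Typ J α R with hG
  have e1 : ((B.pts ×ˢ Y).filter fun z => (∀ i, js (z.1 i) z.2 = 0) ∧
      BadL Λ (B.set z.1) z.2 (z.1 i₀)) ⊆
      ((B.pts ×ˢ Y).filter fun z => ¬ G (Leg z.1) ∧ ∀ i, js (z.1 i) z.2 = 0) ∪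
      (univ.filter G).biUnion fun a => (B.pts ×ˢ Y).filter fun z => Leg z.1 = a ∧
        (∀ i, js (z.1 i) z.2 = 0) ∧ BadL Λ (B.set z.1) z.2 (z.1 i₀) := by
    intro z hz
    rw [mem_filter] at hz
    by_cases h : G (Leg z.1)
    · exact mem_union_right _ (mem_biUnion.2 ⟨_, mem_filter.2 ⟨mem_univ _, h⟩,
        mem_filter.2 ⟨hz.1, rfl, hz.2⟩⟩)
    · exact mem_union_left _ (mem_filter.2 ⟨hz.1, h, hz.2.1⟩)
  have e4 := TBOXL.fib B.pts Leg G
  have hc : ((univ.filter G).card : ℝ) ≤ 2 ^ B.r ^ 2 := by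
    have : (univ.filter G).card ≤ 2 ^ B.r ^ 2 := by
      refine (card_le_univ _).trans_eq ?_
      simp [← pow_mul, sq]
    exact_mod_cast this
  have hP : (0 : ℝ) ≤ B.pts.card := Nat.cast_nonneg _
  have hQ : (0 : ℝ) ≤ Y.card := Nat.cast_nonneg _
  have e5 : ∑ a ∈ univ.filter G, 2 ^ B.r * (((B.pts ×ˢ Y).filter fun z => Leg z.1 = a ∧
      (∀ i, js (z.1 i) z.2 = 0) ∧ BadL Λ (B.set z.1) z.2 (z.1 i₀)).card : ℝ) ≤
      ε / 2 * (B.pts.card * Y.card) := by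
    refine le_trans (sum_le_sum (g := fun a => 2 ^ (s + 4) * (((2 ^ K)⁻¹ + ε / (8 * 2 ^ (s + 4))) *
      (B.pts.filter fun p => Leg p = a).card + 2 / (2 ^ B.r ^ 2 * (T₁ + 2)) * B.pts.card) * Y.card)
      fun a ha => (mul_le_mul_of_nonneg_left (e2 a (mem_filter.1 ha).2.1 (mem_filter.1 ha).2.2)
        (by positivity)).trans_eq ?_) ?_
    · rw [mul_left_comm, mul_add, mul_left_comm, cnt hCNT hY fun p => Leg p = a]
      push_cast
      field_simp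
    rw [← sum_mul, ← mul_sum, sum_add_distrib, ← mul_sum, sum_const, nsmul_eq_mul, ← mul_assoc (ε / 2)]
    refine mul_le_mul_of_nonneg_right ?_ hQ
    have a1 : ((2 : ℝ) ^ K)⁻¹ + ε / (8 * 2 ^ (s + 4)) ≤ ε / (4 * 2 ^ (s + 4)) := by
      rw [inv_pow] at hK
      have : ε / (4 * 2 ^ (s + 4)) = ε / (8 * 2 ^ (s + 4)) + ε / (8 * 2 ^ (s + 4)) := by
        field_simp; norm_num
      linarith
    have a2 : (2 : ℝ) ^ B.r ^ 2 * (2 / (2 ^ B.r ^ 2 * (T₁ + 2))) ≤ ε / (4 * 2 ^ (s + 4)) := by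
      rw [div_le_iff₀ hε] at hT₁
      rw [← mul_div_assoc, mul_div_mul_left _ _ (by positivity), div_le_div_iff₀ (by positivity)
        (by positivity)]
      nlinarith
    have a3 := mul_le_mul a1 e4 (sum_nonneg fun _ _ => Nat.cast_nonneg _) (by positivity)
    have a4 : ((univ.filter G).card : ℝ) * (2 / (2 ^ B.r ^ 2 * (T₁ + 2)) * B.pts.card) ≤
        ε / (4 * 2 ^ (s + 4)) * B.pts.card := by
      rw [← mul_assoc]
      exact mul_le_mul_of_nonneg_right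
        (le_trans (mul_le_mul_of_nonneg_right hc (by positivity)) a2) hP
    refine le_trans (mul_le_mul_of_nonneg_left (add_le_add a3 a4) h2s.le) (le_of_eq ?_)
    field_simp
    ring
  have e6 := (Nat.cast_le (α := ℝ)).2 ((card_le_card e1).trans ((card_union_le _ _).trans
    (Nat.add_le_add_left card_biUnion_le _)))
  have e7 : ((B.pts.filter fun p => ¬ G (Leg p)).card : ℝ) ≤ ε / 2 * B.pts.card := by
    convert e3
  rw [Nat.cast_add, Nat.cast_sum] at e6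
  refine (mul_le_mul_of_nonneg_left e6 (by positivity)).trans ?_
  rw [mul_add, mul_sum, cnt hCNT hY fun p => ¬ G (Leg p)]
  have e8 := mul_le_mul_of_nonneg_right e7 hQ
  linarith

omit [HA] in
theorem b_BOXL : BOXL := t_BOXL t_CNT (t_BX2 (b_BX1 (t_OZX t_BES) (t_OGX t_BES)))

end Pool.Agent.P.MP_8b7eba_nt.SM.X
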