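import Pool.Agent.P.MP_8b7eba_nt.SM.All

/-! Block C of the project R3: boxes with an auxiliary prime. Definitions and statements. -/

namespace Pool.Agent.P.MP_8b7eba_nt.SM.X

open Finset R2
open scoped Matrix

noncomputable section

/-! ### Sets of auxiliary primes -/

open Classical in
/-- the Frobenius elements of the primes of `Y` are equidistributed for the characters which are
unramified outside `Z` and two -/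
def Orth (Z Y : Finset ℕ) : Prop :=
  ∃ c g : ℕ → GQ, ∀ H : Subgroup GQ, (∀ x, (∀ p ∈ Z, qs p x = 0) → x ∈ H) →
    ∀ Θ : GQ → F2, IsCh H Θ → (∀ v : Pl, v.p ≠ 2 → v.p ∉ Z → ∀ x ∈ v.I, Θ x = 0) →
      (∀ y ∈ Y, (fr y ∈ H ↔ c y ∈ H) ∧ (fr y ∈ H → Θ (fr y) = Θ (g y * c y * (g y)⁻¹))) ∧
      ((∃ v : Pl, v.p ∈ Z ∧ ∃ h ∈ v.I, h ∈ H ∧ Θ h = 1) →
        ∑ y ∈ Y.filter (fun y => c y ∈ H), sr (Θ (c y)) = 0)

/-- the Frobenius element of `l` looks like complex conjugation -/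
structure Spl (S : Finset ℕ) (l : ℕ) : Prop where
  gp : Gp l
  nm : l ∉ S
  sy : ∀ a : ℤ, a ∣ 30 * ∏ q ∈ S, (q : ℤ) → jacobiSym a l = a.sign

/-- add a multiple of the character which is ramified at `l` -/
def adl (φ : X2) (l : ℕ) (w : V1) : X2 := fun g => φ g + qs l g • w

/-- there is a good pair which lifts to all levels -/
def BadL (Λ : Lat) (S : Finset ℕ) (l p₀ : ℕ) : Prop :=
  ∃ (φ ψ : X2) (w : FF), (∀ n, Λ.WK (insert l S) (n + 1) (adl φ l w.1) ∧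
    Λ.WK (insert l S) (n + 1) (adl ψ l w.2)) ∧ φ (tp l) = 0 ∧ ψ (tp l) = 0 ∧
    φ (tp p₀) = 0 ∧ ψ (tp p₀) = 0 ∧
    (Λ.Stab φ ψ → ∃ g, ψ g = 0 ∧ ((∃ h, ee (φ g) (ψ h) = 1) ∨ ee (φ g) w.2 = 1))

/-! ### Boxes without conditions on the sizes -/

/-- boxes of squarefree numbers -/
structure Box where
  S : Finset ℕ
  r : ℕ
  X : Fin r → Finset ℕ
  t : Fin r → ℕ
  E : ℕ
  gS : ∀ q ∈ S, Gp q
  gp : ∀ i, ∀ p ∈ X i, Gp p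
  nS : ∀ i, Disjoint (X i) S
  dj : ∀ i j, i ≠ j → Disjoint (X i) (X j)
  key : ∀ i, ∀ p ∈ X i, ∀ p' ∈ X i, ∀ a : ℤ, a ∣ 30 * ∏ q ∈ S, (q : ℤ) →
    jacobiSym a p = jacobiSym a p'

/-- the points of a box -/
def Box.pts (B : Box) : Finset (Fin B.r → ℕ) := Fintype.piFinset B.X

/-- the set of primes of a point -/
def Box.set (B : Box) (p : Fin B.r → ℕ) : Finset ℕ := B.S ∪ univ.image p

/-- a good pair of patterns -/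
structure Stp (k s : ℕ) where
  B : Box
  Λ : Lat
  a : Fin B.r → Fin B.r → F2
  e : Option (Option (Fin k)) ↪ Fin B.r
  φ : Bool → X2
  R : Bool → Fin B.r → V1
  sy : ∃ p ∈ B.pts, Leg p = a
  φ0 : ∀ β i, ∀ q ∈ B.X i, φ β (tp q) = 0
  lo : ∀ β i, R β (e (some (some i))) = 0
  ra : R false (e (some none)) = 0
  rb : ee (R true (e (some none))) (R false (e none)) = 1
  sel : ∀ p ∈ B.pts, Leg p = a → (∀ β, Λ.Se (B.set p) (pat (φ β) (R β) p)) ∧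
    ∃ C : Finset X2, C.card ≤ 2 ^ s ∧ ∀ χ, Λ.Se (B.set p) χ → χ ∈ C

namespace Stp

variable {k s : ℕ} (𝒯 : Stp k s)

/-- the sets of the variable primes -/
def X (o : Option (Fin k)) : Finset ℕ := 𝒯.B.X (𝒯.e (some o))

/-- the set of the last prime -/
def Y : Finset ℕ := 𝒯.B.X (𝒯.e none)

open Classical in
/-- the fixed primes -/
def P (p : Fin 𝒯.B.r → ℕ) : Finset ℕ :=
  𝒯.B.S ∪ (univ.filter fun i => i ∉ Set.range 𝒯.e).image p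

open Classical in
/-- the part of the characters which does not depend on the point of the grid -/
def Φ (p : Fin 𝒯.B.r → ℕ) (y : ℕ) (β : Bool) : X2 := fun g => 𝒯.φ β g +
  ∑ i ∈ univ.filter (fun i => i ∉ Set.range 𝒯.e), qs (p i) g • 𝒯.R β i + qs y g • 𝒯.R β (𝒯.e none)

/-- valid points -/
def V (p : Fin 𝒯.B.r → ℕ) (z : Option (Fin k) → ℕ) : Prop :=
  ∀ i j, i ≠ 𝒯.e none → j ≠ 𝒯.e none → Leg (asm 𝒯.e p z 0) i j = 𝒯.a i j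

/-- compatibility -/
def cp (p : Fin 𝒯.B.r → ℕ) : (Option (Fin k) → ℕ) → ℕ → Prop :=
  cpf (𝒯.V p) (fun y => ∀ j, j ∉ Set.range 𝒯.e → js (ps (p j)) y = 𝒯.a (𝒯.e none) j)
    (fun u y => js (ps u) y) fun o => 𝒯.a (𝒯.e none) (𝒯.e (some o))

/-- the points at which the pair lifts -/
def W (n : ℕ) (p : Fin 𝒯.B.r → ℕ) : Prop :=
  Leg p = 𝒯.a ∧ ∀ β, 𝒯.Λ.WK (𝒯.B.set p) n (pat (𝒯.φ β) (𝒯.R β) p)

/-- grids with governing systems -/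
structure Ok {M : ℕ} (p : Fin 𝒯.B.r → ℕ)
    (θ : (Fin k → Fin (M + 1) → ℕ) → ℕ → Mu k M → GQ → F2)
    (q : Option (Fin k) → Fin (M + 1) → ℕ) : Prop where
  inj : ∀ i, Function.Injective (q i)
  v : ∀ π, 𝒯.V p (gp q π)
  gov : ∀ j j', Gov (k + 1) (low q) (Qs (𝒯.P p) (low q)) (q none j) (q none j')
    (θ (low q) (q none j) + θ (low q) (q none j'))

/-- the set of the last prime is rich or equidistributed -/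
def Hb (n : ℕ) : Prop :=
  (Rich 𝒯.Y (𝒯.B.t (𝒯.e none)) 𝒯.B.E ∧ n ≤ 𝒯.B.t (𝒯.e none)) ∨
    ∃ Z, Orth Z 𝒯.Y ∧ (∀ o, 𝒯.X o ⊆ Z) ∧ Disjoint Z 𝒯.Y

/-- the conditions on the sizes -/
structure Num (A T y₀ y₁ : ℕ) : Prop where
  two : 2 ≤ T
  big : (T * (𝒯.B.E + 2) * 2 ^ (𝒯.B.r + 𝒯.B.S.card + 2)) ^ A ≤ y₀
  le : y₀ ≤ y₁
  rich : ∀ o, Rich (𝒯.X o) (𝒯.B.t (𝒯.e (some o))) 𝒯.B.E
  t0 : ∀ o, y₀ ≤ 𝒯.B.t (𝒯.e (some o))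
  low : ∀ i, 𝒯.B.t (𝒯.e (some (some i))) ≤ y₁
  ha : y₁ ^ A ≤ 𝒯.B.t (𝒯.e (some none))
  hb : 𝒯.Hb (y₁ ^ A)

end Stp

/-- admissible sets of auxiliary primes for a box -/
structure Yok (B : SM.Box) (Y : Finset ℕ) : Prop where
  spl : ∀ l ∈ Y, Spl B.S l
  dj : Disjoint (univ.biUnion B.X) Y
  orth : Orth (univ.biUnion B.X) Y

end

/-! ### Statements -/

/-- existence of equidistributed sets of primes -/
def ORTH : Prop :=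
  ∀ (S Z Q : Finset ℕ) (B : ℕ), (∀ p ∈ S, Gp p) → (∀ p ∈ Z, Gp p) → (∀ p ∈ Q, Gp p) →
    Disjoint S Z → Disjoint S Q → Disjoint Z Q → ∃ Y : Finset ℕ, Y.Nonempty ∧ Orth Z Y ∧
      ∀ l ∈ Y, B < l ∧ l % 16 = 7 ∧ Spl S l ∧ ∀ q ∈ Q, jacobiSym (-l) q = -1

/-- the inequality of Bessel -/
def BES : Prop :=
  ∀ (σ : Type) [Fintype σ] [DecidableEq σ] (m : MQ σ) (Z Y W : Finset ℕ) (Θ : ℕ → GQ → F2)
    (b : ℕ → ℝ), Orth Z Y → (∀ x, (∀ p ∈ Z, qs p x = 0) → x ∈ m.H) →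
    (∀ w ∈ W, IsCh m.H (Θ w) ∧ ∀ v : Pl, v.p ≠ 2 → v.p ∉ Z → ∀ x ∈ v.I, Θ w x = 0) →
    (∀ w ∈ W, ∀ w' ∈ W, w ≠ w' → ∃ v : Pl, v.p ∈ Z ∧ ∃ h ∈ v.I, h ∈ m.H ∧ Θ w h + Θ w' h = 1) →
    (∀ y, |b y| ≤ 1) → (∀ y ∈ Y, b y ≠ 0 → fr y ∈ m.H) →
    ∑ w ∈ W, |∑ y ∈ Y, b y * sr (Θ w (fr y))| ≤
      2 ^ Fintype.card σ * Real.sqrt W.card * Y.card

/-- oscillation of the quadratic symbol -/
def OZX : Prop :=
  ∀ (Z W Y : Finset ℕ) (tW E T : ℕ), Orth Z Y → W ⊆ Z → Disjoint Z Y → (∀ y ∈ Y, Gp y) →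
    Rich W tW E → 2 ≤ T → 2 ≤ E → (T * E) ^ 2 ≤ tW → Osc W Y (T : ℝ)⁻¹

/-- oscillation of the governing characters -/
def OGX : Prop :=
  ∀ k M : ℕ, ∃ c : ℕ, ∀ (u : Fin k → Fin (M + 1) → ℕ) (Q Z W W' Y : Finset ℕ)
    (tW E T w₀ : ℕ) (γ : ℕ → Mu k M → GQ → F2) (e : Mu k M → F2) (b : ℕ → ℝ),
    (∀ i j, Gp (u i j) ∧ u i j ∈ Z ∧ u i j ∉ W) →
    (∀ i j i' j', u i j = u i' j' → i = i' ∧ j = j') →
    Orth Z Y → W ⊆ Z → Disjoint Z Y → (∀ y ∈ Y, Gp y) → Rich W tW E → W' ⊆ W → 2 ≤ T → 2 ≤ E →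
    (T * E) ^ c ≤ tW → Gp w₀ → w₀ ∈ Z →
    (∀ w ∈ W', w ≠ w₀ ∧ Wok u Q w ∧ Gov (k + 1) u Q w w₀ (γ w)) → e ≠ 0 → (∀ y, |b y| ≤ 1) →
    (∀ y ∈ Y, b y ≠ 0 → ∀ i j, js (ps (u i j)) y = js (ps (u i 0)) y) →
    ∑ w ∈ W', |∑ y ∈ Y, b y * sr (∑ μ, e μ * γ w μ (fr y))| ≤ (T : ℝ)⁻¹ * W.card * Y.card

/-- the number of the primes which split -/
def CNT : Prop :=
  ∀ (r : ℕ) (p : Fin r → ℕ) (Z Y : Finset ℕ), Function.Injective p → (∀ i, Gp (p i) ∧ p i ∈ Z) →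
    Orth Z Y → Disjoint Z Y → (∀ y ∈ Y, Gp y) →
    2 ^ r * (Y.filter fun y => ∀ i, js (p i) y = 0).card = Y.card

open Classical in
/-- iteration -/
def BX1 : Prop :=
  ∀ (K s : ℕ) (ε : ℝ), 0 < ε → ∃ A : ℕ, ∀ (𝒯 : Stp (K + 1) s) (T y₀ y₁ : ℕ), 𝒯.Num A T y₀ y₁ →
    ((𝒯.B.pts.filter (𝒯.W (K + 2))).card : ℝ) ≤
      ((2 ^ K)⁻¹ + ε) * (𝒯.B.pts.filter fun p => Leg p = 𝒯.a).card + 2 / T * 𝒯.B.pts.card

/-- the Selmer conditions with an auxiliary prime -/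
def SEL : Prop :=
  ∀ (Λ : Lat) (S : Finset ℕ) (l : ℕ) (φ : X2) (w : V1), (∀ p ∈ S, Gp p) → Spl S l → φ (tp l) = 0 →
    (Λ.Se (insert l S) (adl φ l w) ↔ Λ.Se S φ ∧ φ tau = Λ.cb tau *ᵥ w + chi S tau • w)

open Classical in
/-- the bound for a fixed matrix of symbols -/
def BX2 : Prop :=
  ∀ (K s : ℕ) (ε : ℝ), 0 < ε → ∃ A : ℕ, ∀ (Λ : Lat) (B : SM.Box) (m : Mod (Fin B.r) B.S)
    (T y₀ y₁ : ℕ) (J : Fin (K + 1) ⊕ Bool → Finset (Fin B.r)) (i₀ : Fin B.r)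
    (a : Fin B.r → Fin B.r → F2) (Y : Finset ℕ), IsMod Λ B m → Yok B Y → 2 ≤ T →
    (T * (B.E + 2) * 2 ^ (B.r + 1 + B.S.card + 2)) ^ A ≤ y₀ → y₀ ≤ y₁ → (∀ i, y₀ ≤ B.t i) →
    (∀ j, ∀ i ∈ J (.inl j), B.t i ≤ y₁) → (∀ j, ∀ i ∈ J (.inr j), y₁ ^ A ≤ B.t i) →
    (∀ j j', j ≠ j' → Disjoint (J j) (J j')) → m.ns i₀ a ≤ 2 ^ s →
    (∀ α R, m.Sol i₀ a α R → m.Typ J α R) →
    (((B.pts ×ˢ Y).filter fun z => Leg z.1 = a ∧ (∀ i, js (z.1 i) z.2 = 0) ∧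
      BadL Λ (B.set z.1) z.2 (z.1 i₀)).card : ℝ) ≤
      2 ^ (s + 4) * (((2 ^ K)⁻¹ + ε) *
        ((B.pts ×ˢ Y).filter fun z => Leg z.1 = a ∧ ∀ i, js (z.1 i) z.2 = 0).card +
        2 / T * (B.pts.card * Y.card))

open Classical in
/-- bad pairs are rare -/
def BOXL : Prop :=
  ∀ ε : ℝ, 0 < ε → ∃ K l A N : ℕ, 1 ≤ l ∧ ∀ (Λ : Lat) (B : SM.Box) (y₀ y₁ : ℕ)
    (J₀ : Finset (Fin B.r)) (J : Fin K ⊕ Bool → Finset (Fin B.r)) (i₀ : Fin B.r) (Y : Finset ℕ),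
    B.Reg K l A N y₀ y₁ J₀ J → Yok B Y →
    2 ^ B.r * (((B.pts ×ˢ Y).filter fun z => (∀ i, js (z.1 i) z.2 = 0) ∧
      BadL Λ (B.set z.1) z.2 (z.1 i₀)).card : ℝ) ≤ ε * (B.pts.card * Y.card)

/-- the choice of the lattice -/
def REDL : Prop :=
  ∀ (Λ : Lat) (Λ' : Fin 2 → Lat) (S : Finset ℕ) (l p : ℕ) (x y : GQ → VZ), (∀ q ∈ S, Gp q) →
    Spl S l → p ∈ S → (∃ s : F2, Λ.cb tau = !![1, 0; 0, 0] + s • (1 : Matrix (Fin 2) (Fin 2) F2)) →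
    (∀ i, Λ.Sh (Λ' i) i ∧ ∃ t s, (Λ' i).cb t =
      Matrix.single i (i + 1) 1 + (s : F2) • (1 : Matrix (Fin 2) (Fin 2) F2)) →
    (∀ j, Λ.Wn (insert l S) j x ∧ Λ.Wn (insert l S) j y) → x (tp p) = 0 → y (tp p) = 0 →
    (∀ a b : F2, (∀ g, a • rd (x g) + b • rd (y g) = 0) → a = 0 ∧ b = 0) →
    BadL Λ S l p ∨ ∃ i, BadL (Λ' i) S l p

end Pool.Agent.P.MP_8b7eba_nt.SM.X
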