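import Pool.Agent.P.MP_8b7eba_nt.R3.BDens

/-! The main theorem of the project R3 follows from the four blocks, final form. -/

namespace Pool.Agent.P.MP_8b7eba_nt.R3

open _root_.Pool.Agent.P.MP_8b7eba_nt.Mod (M2 G0 FI L0 om lv)
open R1 (QF Hg Lv st Rq uu)
open R2 (Om GQ GS Pl Tate V2 EO PZ Cob rS S1 UF tac io W15 ac sd tau RatP)
open MP_9c97e9_nt (pm)
open scoped R1 R2
open Filter Topology

/-- there are auxiliary primes, inert at the primes of `b` if at most `k` of them are small -/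
def AuxN {w : Pl} (T : Tate w) (k : ℕ) (d : ℤ) : Prop :=
  ∃ B₀ : ℕ, ∀ b B : ℕ, IsCoprime (b : ℤ) (30 * d) →
    (b.primeFactors.filter (· ≤ B₀)).card ≤ k → ∃ l : ℕ, B < l ∧ Hy l d ∧
      (∀ q : ℕ, q.Prime → q ∣ b → jacobiSym (-l) q = -1) ∧
      ∀ δ : Om, δ ^ 2 = ((-l * d : ℤ) : Om) → Rk1 T δ (-l * d)

/-- the twists which we can treat -/
def NiceN {w : Pl} (T : Tate w) (k : ℕ) (d : ℤ) : Prop :=
  Squarefree d ∧ (∀ δ : Om, δ ^ 2 = d → Rk1 T δ d) ∧ AuxN T k d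

/-- block C: auxiliary primes exist for almost all twists -/
def DENSN : Prop := ∀ (T : Tate (SM.pl 2)) (k : ℕ), Nul fun d => ¬ AuxN T k d

/-- there are good twists in every residue class -/
def EXM : Prop :=
  ∀ (T : Tate (SM.pl 2)) (k : ℕ) (d₀ : ℤ) (q a : ℕ), Squarefree d₀ → d₀ ∣ 30 → 120 ∣ q → q ≠ 0 →
    a.Coprime q → ∃ m : ℕ, m % q = a % q ∧ NiceN T k (d₀ * st m)

/-- Heegner points of infinite order exist for `d`, with `b` inert -/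
def Hb (d : ℤ) (b : ℕ) : Prop :=
  ∃ l : ℕ, Ir l d ∧ ∀ q : ℕ, q.Prime → q ∣ b → jacobiSym (-l) q = -1

/-- block D: the central value does not vanish -/
def GKN : Prop := ∀ (T : Tate (SM.pl 2)) (d : ℤ), NiceN T 0 d → rn d = 1 → Lam d ≠ 0

theorem irx (hH : HEEG) {T : Tate (SM.pl 2)} {k : ℕ} {d : ℤ} (hd : NiceN T k d) :
    ∃ B₀ : ℕ, ∀ b : ℕ, IsCoprime (b : ℤ) (30 * d) → (b.primeFactors.filter (· ≤ B₀)).card ≤ k →
      Hb d b := by
  obtain ⟨B₀, h⟩ := hd.2.2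
  refine ⟨B₀, fun b hb hk => ?_⟩
  obtain ⟨l, -, h2, h3, h4⟩ := h b 0 hb hk
  have e : (R2.rt d * R2.rt (-l)) ^ 2 = ((-l * d : ℤ) : Om) := by
    rw [mul_pow, R2.rt_sq, R2.rt_sq]
    push_cast
    ring
  obtain ⟨⟨Z, ρ, S, a1, -, a3, a4⟩, -⟩ := hH _ T l d (R2.rt d) (R2.rt (-l)) (SM.pl_p Nat.prime_two) h2
    (R2.rt_sq d) (by rw [R2.rt_sq]; push_cast; rfl) (hd.2.1 _ (R2.rt_sq d)) (h4 _ e)
  refine ⟨l, ⟨h2, ρ, S, a3, fun h => a1 ?_⟩, h3⟩
  rw [← a4] at h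
  exact (MP_9c97e9_nt.pm_injective (W := W15) io).isOfFinAddOrder_iff.1 h

theorem main2 (hH : HEEG) (hK : KUM) (hL : LFUN) (hC : CONJ) (hG : GKN) (hI : INF) (hR : RN)
    (T : Tate (SM.pl 2)) (d : ℤ) (hd : NiceN T 0 d) :
    (∃ f, BSD15.IsL (-12987 * d ^ 2) (-263466 * d ^ 3) f) ∧
      ∀ f, BSD15.IsL (-12987 * d ^ 2) (-263466 * d ^ 3) f →
        (f 1 = 0 ↔ (SM.Af d).Infinite) ∧ (f 1 = 0 ↔ rn d = -1) := by
  have hw := SM.pl_p Nat.prime_two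
  obtain ⟨B₀, h0⟩ := hd.2.2
  obtain ⟨l, -, h2, -, h4⟩ := h0 1 0 isCoprime_one_left (by simp)
  have d0 := hd.1.ne_zero
  have l0 := h2.lp.pos
  have d1 : d ≠ 1 := by
    rintro rfl
    obtain ⟨p, p1, -, p3⟩ := h2.big
    exact p1.one_lt.ne' (by exact_mod_cast Int.eq_one_of_dvd_one (by positivity) p3)
  have hsk : R2.rt (-l) ^ 2 = -(l : Om) := by rw [R2.rt_sq]; push_cast; rfl
  have e : (R2.rt d * R2.rt (-l)) ^ 2 = ((-l * d : ℤ) : Om) := by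
    rw [mul_pow, R2.rt_sq, hsk]
    push_cast
    ring
  obtain ⟨⟨Z, ρ, S, a1, a2, a3, a4⟩, a5⟩ := hH _ T l d (R2.rt d) (R2.rt (-l)) hw h2
    (R2.rt_sq d) hsk (hd.2.1 _ (R2.rt_sq d)) (h4 _ e)
  obtain ⟨u, v, huv⟩ := hC l d ρ S h2 a3
  obtain ⟨b1, b2, b3⟩ := hL d hd.1 d1
  refine ⟨b1, fun f hf => ?_⟩
  rcases hR d d0 with h | h
  · have h0 : ¬ f 1 = 0 := fun h0 => hG T d hd h ((b2 f hf).1 h0)
    refine ⟨iff_of_false h0 fun hi => ?_, iff_of_false h0 (by omega)⟩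
    have n0 : (-l * d : ℤ) ≠ 0 := mul_ne_zero (by omega) d0
    have nl : ¬ (l : ℤ) ∣ d := fun hl => by
      have := h2.spl l h2.lp (by have := h2.l16; omega) (hl.mul_left 15)
      rw [jacobiSym.mod_left, Int.emod_eq_zero_of_dvd (dvd_neg.2 dvd_rfl),
        jacobiSym.zero_left h2.lp.one_lt] at this
      exact zero_ne_one this
    have hl : Prime (l : ℤ) := Nat.prime_iff_prime_int.1 h2.lp
    have g1 : Squarefree (-l * d : ℤ) := squarefree_mul_iff.2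
      ⟨((hl.coprime_iff_not_dvd.2 nl).neg_left).isRelPrime, hl.neg.squarefree, hd.1⟩
    have i2 := hI Z _ _ _ l _ u v l0 hsk e n0 a1 (fun g hg => by
      rw [← a2 g hg]
      have : sd (R2.rt d * R2.rt (-l)) g = sd (R2.rt d) g := by
        have s0 : R2.rt (-l) ≠ 0 := fun s => by
          rw [s, zero_pow two_ne_zero, eq_comm, neg_eq_zero, Nat.cast_eq_zero] at hsk
          omega
        simp only [sd, map_mul, hg, mul_left_inj' s0]
      rw [a2 g hg]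
      nth_rw 2 [← a2 g hg]
      simp only [tac, this]) a4 (by
      rw [← huv, h, Int.sign_mul, Int.sign_neg, Int.sign_natCast_of_ne_zero l0.ne']
      push_cast
      ring)
    obtain ⟨x, x1, x2⟩ := hK _ T _ d hw (R2.rt_sq d) hd.1 hi
    obtain ⟨y, y1, y2⟩ := hK _ T _ _ hw e g1 ((R2.a_SHA _ _ n0 e).1 i2)
    exact (a5 x y x1 y1).elim x2 y2
  · have h0 : f 1 = 0 := (b2 f hf).2 (b3 h)
    refine ⟨iff_of_true h0 ((R2.a_SHA _ _ d0 (R2.rt_sq d)).1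
      (hI Z _ _ _ l _ u v l0 hsk (R2.rt_sq d) d0 a1 a2 a4 ?_)), iff_of_true h0 h⟩
    rw [← huv, h]
    push_cast
    ring

theorem nul_nice (hC : DENSN) (T : Tate (SM.pl 2)) (k : ℕ) : Nul fun d => ¬ NiceN T k d :=
  ((nul_rk T).or (hC T k)).mono fun d h1 h2 => by
    by_contra h
    rw [not_or, not_not, not_not] at h
    exact h2 ⟨h1, fun δ e => (rk1_rt e).2 h.1, h.2⟩

end Pool.Agent.P.MP_8b7eba_nt.R3
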