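import Pool.Agent.P.MP_8b7eba_nt.R3.CBx2
import Pool.Agent.P.MP_8b7eba_nt.R3.Top2

/-! Auxiliary primes exist for almost all twists. -/

namespace Pool.Agent.P.MP_8b7eba_nt.SM.X

open Finset R2

/-- the number of primes with prescribed symbols -/
theorem cntv {P Z Y : Finset ℕ} (hP : ∀ p ∈ P, Gp p ∧ p ∈ Z) (hO : Orth Z Y) (hd : Disjoint Z Y)
    (hY : ∀ y ∈ Y, Gp y) (v : ℕ → F2) :
    2 ^ P.card * (Y.filter fun y => ∀ p ∈ P, js p y = v p).card = Y.card := by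
  classical
  obtain ⟨c, g, hO⟩ := hO
  have nd : ∀ (q : ℕ) (i : P), q.Prime → q ≠ 2 → q ≠ i → ¬ (q : ℤ) ∣ 2 * (i : ℕ) :=
    fun q i hq h2 h a => by
      rcases (Nat.Prime.dvd_mul hq).1 (show q ∣ 2 * (i : ℕ) by exact_mod_cast a) with a | a
      · exact h2 ((Nat.prime_dvd_prime_iff_eq hq Nat.prime_two).1 a)
      · exact h ((Nat.prime_dvd_prime_iff_eq hq (hP i i.2).1.1).1 a)
  have key : ∀ e : P → F2, e ≠ 0 → ∑ y ∈ Y, sr (∑ i, e i * js (i : ℕ) y) = 0 := fun e he => by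
    obtain ⟨j, hj⟩ := Function.ne_iff.1 he
    have ch : IsCh ⊤ fun x => ∑ i, e i * qz (i : ℕ) x :=
      IsCh.sum fun i _ => (isCh_qz _).map (AddMonoidHom.mulLeft (e i))
    obtain ⟨a1, a2⟩ := hO ⊤ (fun _ _ => trivial) _ ch fun v h2 hv x hx => sum_eq_zero fun i _ => by
      rw [qz_I hA (nd _ i v.prime h2 fun h => hv (h ▸ (hP i i.2).2)) hx, mul_zero]
    have gj := (hP j j.2).1
    rw [← a2 ⟨pl j, by rw [pl_p gj.1]; exact (hP j j.2).2, tp j, tp_I gj.1 gj.ne.1, trivial, by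
      rw [sum_eq_single j, BasP.qz_tp gj gj, if_pos rfl, mul_one, BasG.one_of_ne hj]
      · intro i _ h
        rw [BasP.qz_tp gj (hP i i.2).1, if_neg fun a => h (Subtype.ext a).symm, mul_zero]
      · exact fun h => absurd (mem_univ j) h⟩, filter_true_of_mem fun _ _ => Subgroup.mem_top _]
    refine sum_congr rfl fun y hy => ?_
    rw [← ch.conj (g y) (c y), ← (a1 y hy).2 trivial]
    refine congrArg _ (sum_congr rfl fun i _ => ?_)
    rw [qz_fr (hY y hy).1 (nd y i (hY y hy).1 (hY y hy).ne.1 fun h =>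
      disjoint_left.1 hd (hP i i.2).2 (h ▸ hy))]
  have e1 : ((Y.filter fun y => ∀ p ∈ P, js p y = v p).card : ℝ) =
      ∑ y ∈ Y, if (fun i : P => js (i : ℕ) y) = fun i : P => v i then 1 else 0 := by
    rw [sum_boole]
    exact congrArg _ (congrArg _ (filter_congr fun y _ => by simp [funext_iff]))
  rw [← Nat.cast_inj (R := ℝ), Nat.cast_mul, e1]
  simp only [a_FOUR P _ fun i : P => v i]
  rw [← mul_sum, sum_comm, sum_eq_single 0 (fun e _ he => by rw [← mul_sum, key e he, mul_zero])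
    fun h => absurd (mem_univ _) h]
  simp [TFOUR.sr_zero]

/-- all auxiliary primes in some class are bad -/
def BadS (L : Lat) (L' : Fin 2 → Lat) (n : ℕ) (S : Finset ℕ) : Prop :=
  ∀ B₀ : ℕ, ∃ (Q : Finset ℕ) (B : ℕ), (∀ q ∈ Q, Gp q ∧ q ∉ S) ∧ (Q.filter (· ≤ B₀)).card ≤ n ∧
    ∀ l, B < l → l % 16 = 7 → Spl S l → (∀ q ∈ Q, jacobiSym (-l) q = -1) →
      ∀ p ∈ S, BadL L S l p ∨ ∃ i, BadL (L' i) S l p

theorem boxp (L : Lat) (L' : Fin 2 → Lat) (n : ℕ) : BoxP (BadS L L' n) := by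
  classical
  intro ε hε
  obtain ⟨K, l, A, N, hl, h⟩ := b_BOXL (ε / (3 * 2 ^ n)) (by positivity)
  refine ⟨K, l, A, N, fun B y₀ y₁ J₀ J hR => ?_⟩
  obtain ⟨i₀, -⟩ := card_pos.1 (hl.trans (hR.card (.inr true)))
  obtain ⟨Z, hZ⟩ : ∃ Z, Z = univ.biUnion B.X := ⟨_, rfl⟩
  have mZ : ∀ q, q ∈ Z ↔ ∃ i, q ∈ B.X i := fun q => by simp [hZ]
  have gZ : ∀ q ∈ Z, Gp q := fun q hq => by
    obtain ⟨i, e⟩ := (mZ q).1 hq
    exact ((B.rich i).gp q e).1
  obtain ⟨P, hP⟩ : ∃ P, P = B.pts.filter fun p => BadS L L' n (B.set p) := ⟨_, rfl⟩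
  have hP' : ∀ p : P, p.1 ∈ B.pts ∧ BadS L L' n (B.set p) := fun p => mem_filter.1 (hP.subset p.2)
  choose Q C q1 q2 q3 using fun p : P => (hP' p).2 (Z.sup id)
  obtain ⟨Y, y1, y2, y3⟩ := t_ORTH B.S Z (univ.biUnion Q \ Z) (univ.sup C + Z.sup id) B.gS gZ
    (fun q hq => by
      obtain ⟨p, -, e⟩ := mem_biUnion.1 (mem_sdiff.1 hq).1
      exact (q1 p q e).1)
    (disjoint_left.2 fun q a b => by
      obtain ⟨i, e⟩ := (mZ q).1 b
      exact disjoint_left.1 (B.nS i) e a)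
    (disjoint_left.2 fun q a b => by
      obtain ⟨p, -, e⟩ := mem_biUnion.1 (mem_sdiff.1 b).1
      exact (q1 p q e).2 (mem_union_left _ a)) disjoint_sdiff
  have dj : Disjoint Z Y := disjoint_left.2 fun q a b => by
    have k1 := (y3 q b).1
    have k2 : q ≤ Z.sup id := le_sup (f := id) a
    omega
  have hY : Yok B Y := ⟨fun y hy => (y3 y hy).2.2.1, hZ ▸ dj, hZ ▸ y2⟩
  let F : Lat → Finset ((Fin B.r → ℕ) × ℕ) := fun Λ => (B.pts ×ˢ Y).filter fun z =>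
    (∀ i, js (z.1 i) z.2 = 0) ∧ BadL Λ (B.set z.1) z.2 (z.1 i₀)
  have hF : ∀ Λ, 2 ^ B.r * ((F Λ).card : ℝ) ≤ ε / (3 * 2 ^ n) * (B.pts.card * Y.card) := fun Λ =>
    h Λ B y₀ y₁ J₀ J i₀ Y hR hY
  let U := F L ∪ F (L' 0) ∪ F (L' 1)
  have key : ∀ p : P, Y.card ≤ 2 ^ n * 2 ^ B.r * (Y.filter fun y => (p.1, y) ∈ U).card := by
    intro p
    obtain ⟨a1, a2⟩ := SM.Box.inj (hP' p).1
    have pz : ∀ i, p.1 i ∈ Z := fun i => (mZ _).2 ⟨i, SM.Box.mem_pts.1 (hP' p).1 i⟩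
    have ps : ∀ i, p.1 i ∈ B.set p := fun i => SM.Box.mem_set.2 (.inr ⟨i, rfl⟩)
    rw [← cntv (P := univ.image p.1 ∪ Q p ∩ Z) (fun q hq => ?_) y2 dj
      (fun y hy => (hY.spl y hy).gp) fun q => if q ∈ Q p then 1 else 0, ← pow_add]
    swap
    · rcases mem_union.1 hq with e | e
      · obtain ⟨i, -, rfl⟩ := mem_image.1 e
        exact ⟨(a2 i).1, pz i⟩
      · exact ⟨gZ q (mem_inter.1 e).2, (mem_inter.1 e).2⟩
    refine Nat.mul_le_mul (Nat.pow_le_pow_right two_pos ((card_union_le _ _).trans ?_))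
      (card_le_card fun y hy => ?_)
    · rw [add_comm]
      refine Nat.add_le_add (le_trans (card_le_card fun q hq => ?_) (q2 p))
        (card_image_le.trans (by simp))
      exact mem_filter.2 ⟨(mem_inter.1 hq).1, le_sup (f := id) (mem_inter.1 hq).2⟩
    obtain ⟨b1, b2⟩ := mem_filter.1 hy
    obtain ⟨b3, b4, b5, b6⟩ := y3 y b1
    have b7 : ∀ i, js (p.1 i) y = 0 := fun i =>
      (b2 _ (mem_union_left _ (mem_image_of_mem _ (mem_univ i)))).trans
        (if_neg fun e => (q1 p _ e).2 (ps i))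
    have b8 := q3 p y (by have := le_sup (f := C) (mem_univ p); omega) b4
      (spl_set (hP' p).1 b5 (hY.nm b1) b7) (fun q hq => ?_) _ (ps i₀)
    · refine mem_filter.2 ⟨b1, ?_⟩
      simp only [U, F, mem_union, mem_filter, mem_product, (hP' p).1, b1, true_and]
      rcases b8 with e | ⟨i, e⟩
      · exact .inl (.inl ⟨b7, e⟩)
      · fin_cases i
        exacts [.inl (.inr ⟨b7, e⟩), .inr ⟨b7, e⟩]
    by_cases e : q ∈ Z
    · have gq := gZ q e
      rw [← jac_swap b5.gp.1 b5.four gq.1 gq.ne.1]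
      refine (js_eq_one ?_).1 ((b2 q (mem_union_right _ (mem_inter.2 ⟨hq, e⟩))).trans (if_pos hq))
      exact Nat.isCoprime_iff_coprime.2 ((Nat.coprime_primes gq.1 b5.gp.1).2 fun a =>
        disjoint_left.1 dj e (a ▸ b1))
    · exact b6 q (mem_sdiff.2 ⟨mem_biUnion.2 ⟨p, mem_univ _, hq⟩, e⟩)
  have s1 : P.card * Y.card ≤ 2 ^ n * 2 ^ B.r * U.card := by
    have k := sum_le_sum fun (p : P) (_ : p ∈ univ) => key p
    rw [sum_const, card_univ, Fintype.card_coe, smul_eq_mul, ← mul_sum,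
      sum_coe_sort P fun p => (Y.filter fun y => (p, y) ∈ U).card] at k
    refine k.trans (Nat.mul_le_mul_left _ ?_)
    simp only [card_filter]
    rw [← sum_product (f := fun z => if z ∈ U then 1 else 0), ← card_filter]
    exact card_le_card fun z hz => (mem_filter.1 hz).2
  have s2 : U.card ≤ (F L).card + (F (L' 0)).card + (F (L' 1)).card :=
    (card_union_le _ _).trans (Nat.add_le_add_right (card_union_le _ _) _)
  have s3 := (Nat.cast_le (α := ℝ)).2 (s1.trans (Nat.mul_le_mul_left _ s2))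
  push_cast at s3
  have s4 : (0 : ℝ) < Y.card := by exact_mod_cast y1.card_pos
  have s5 := mul_le_mul_of_nonneg_left (add_le_add (add_le_add (hF L) (hF (L' 0))) (hF (L' 1)))
    (show (0 : ℝ) ≤ 2 ^ n by positivity)
  have s6 : (P.card : ℝ) ≤ ε * B.pts.card := by
    refine le_of_mul_le_mul_right (s3.trans (le_of_eq_of_le (by ring) (s5.trans_eq ?_))) s4
    field_simp
    ring
  convert s6
  exact hP.symm

end Pool.Agent.P.MP_8b7eba_nt.SM.X

namespace Pool.Agent.P.MP_8b7eba_nt.R3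

open Finset R2 SM SM.X Filter

open Classical in
/-- a property which is rare for each bad part is rare -/
theorem nul_split {P : ℤ → Prop} (h : ∀ b : ℤ, b ∣ 30 → ∀ ε : ℝ, 0 < ε → ∃ X₀ : ℕ, ∀ X, X₀ ≤ X →
    (((Icc 1 X).filter fun n : ℕ => Squarefree n ∧ n.Coprime 30 ∧ P (b * ps n)).card : ℝ) ≤ ε * X) :
    Nul P := by
  intro ε hε
  obtain ⟨F, hF⟩ : ∃ F : Finset ℤ, F = (Icc (-30 : ℤ) 30).filter (· ∣ 30) := ⟨_, rfl⟩
  have h := fun b : F => h b (mem_filter.1 (hF.subset b.2)).2 (ε / 61) (by positivity)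
  choose X₀ h using h
  filter_upwards [eventually_ge_atTop (univ.sup X₀)] with X hX
  have s : {d ∈ Fam X | P d} ⊆ ↑(univ.biUnion fun b : F => ((Icc 1 X).filter fun n : ℕ =>
      Squarefree n ∧ n.Coprime 30 ∧ P (b * ps n)).image fun n => b.1 * ps n) := by
    rintro d ⟨⟨d1, d2⟩, d3⟩
    obtain ⟨b, n, a1, a2, a3, a4, a5⟩ := split30 d2
    have a6 := Nat.le_of_dvd (Int.natAbs_pos.2 d2.ne_zero) a4
    have a7 := abs_le.1 d1
    have a8 := Int.natAbs_le_of_dvd_ne_zero a1 (by norm_num)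
    refine mem_coe.2 (mem_biUnion.2 ⟨⟨b, hF.superset (mem_filter.2 ⟨mem_Icc.2 (by omega), a1⟩)⟩,
      mem_univ _, mem_image.2 ⟨n, mem_filter.2 ⟨mem_Icc.2 ⟨Nat.pos_of_ne_zero a2.ne_zero,
        by omega⟩, a2, a3, a5 ▸ d3⟩, a5.symm⟩⟩)
  have t := Set.ncard_le_ncard s (Finset.finite_toSet _)
  rw [Set.ncard_coe_finset] at t
  have t := (Nat.cast_le (α := ℝ)).2 (t.trans card_biUnion_le)
  rw [Nat.cast_sum] at t
  refine t.trans ((sum_le_sum fun b _ => (Nat.cast_le.2 card_image_le).trans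
    (h b X ((le_sup (mem_univ b)).trans hX))).trans ?_)
  rw [sum_const, card_univ, Fintype.card_coe, nsmul_eq_mul]
  have k : (F.card : ℝ) ≤ 61 := by
    rw [hF]
    exact_mod_cast (card_filter_le _ _).trans (by simp)
  have k' := mul_le_mul_of_nonneg_right k (show 0 ≤ ε / 61 * X by positivity)
  linarith

theorem ps_mul {l n : ℕ} (h4 : l % 4 = 3) (hn : Odd n) : ps (l * n) = -l * ps n := by
  have := Nat.odd_iff.1 hn
  unfold ps
  rcases BasG.four hn with e | e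
  · rw [if_neg (by rw [Nat.mul_mod, h4, e]; norm_num), if_pos e]
    push_cast
    ring
  · rw [if_pos (by rw [Nat.mul_mod, h4, e]), if_neg (by omega)]
    push_cast
    ring

theorem nul_auxN (T : Tate (pl 2)) (k : ℕ) : Nul fun d => ¬ AuxN T k d := by
  obtain ⟨Λ, h1, h2, h3⟩ := a_LATX T
  choose Λ' h3 using h3
  have hA : Nul fun d => Squarefree d ∧ (∃ p : ℕ, p.Prime ∧ 5 < p ∧ (p : ℤ) ∣ d) ∧
      ¬ AuxN T k d := by
    refine nul_split fun b hb ε hε => ?_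
    obtain ⟨X₀, h⟩ := a_ANA _ (boxp (tw Λ hb) (fun i => tw (Λ' i) hb) k) ε hε
    refine ⟨X₀, fun X hX => le_trans (Nat.cast_le.2 (card_le_card fun n hn => ?_)) (h X hX)⟩
    simp only [mem_filter] at hn ⊢
    obtain ⟨n1, n2, n3, n4, n5, n6⟩ := hn
    refine ⟨n1, n2, n3, fun B₀ => ?_⟩
    have gS := gp_of n3
    have ho : Odd n := Nat.coprime_two_right.1 (n3.coprime_dvd_right (by norm_num))
    unfold AuxN at n6
    push Not at n6
    obtain ⟨c, B, c1, c2, c3⟩ := n6 B₀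
    refine ⟨c.primeFactors, B, fun q hq => ?_, c2, fun l l1 l2 l3 l4 p hp => ?_⟩
    · have q1 := Nat.prime_of_mem_primeFactors hq
      have q2 : ¬ (q : ℤ) ∣ 30 * (b * ps n) := fun e => (Nat.prime_iff_prime_int.1 q1).not_unit
        (c1.isUnit_of_dvd' (Int.natCast_dvd_natCast.2 (Nat.dvd_of_mem_primeFactors hq)) e)
      refine ⟨⟨q1, fun e => q2 (Dvd.dvd.mul_right (by exact_mod_cast e) _)⟩, fun e =>
        q2 (Dvd.dvd.mul_left (Dvd.dvd.mul_left ?_ _) _)⟩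
      rw [Int.natCast_dvd, BasG.abs_ps]
      exact Nat.dvd_of_mem_primeFactors e
    have c0 : c ≠ 0 := by
      rintro rfl
      have := Int.isUnit_iff.1 (isUnit_of_mul_isUnit_left (isCoprime_zero_left.1 c1))
      omega
    obtain ⟨δ, d1, d2⟩ := c3 l l1 ⟨l3.gp.1, l2, n4, n5, fun q q1 q2 q3 => by
      rw [← jac_swap l3.gp.1 l3.four q1 q2]
      exact l3.one q1 (dvd_tw hb q1 n2.ne_zero (q3.trans ⟨2, by ring⟩))⟩
      fun q q1 q2 => l4 q (Nat.mem_primeFactors.2 ⟨q1, q2, c0⟩)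
    have cop : l.Coprime n := (Nat.Prime.coprime_iff_not_dvd l3.gp.1).2 fun e =>
      l3.nm (Nat.mem_primeFactors.2 ⟨l3.gp.1, e, n2.ne_zero⟩)
    have e1 : (-l * (b * ps n) : ℤ) = b * ps (l * n) := by
      rw [ps_mul l3.four ho]
      ring
    have e2 : (l * n).primeFactors = insert l n.primeFactors := by
      rw [cop.primeFactors_mul, l3.gp.1.primeFactors, insert_eq]
    rw [rk1_rt d1, e1] at d2
    obtain ⟨x, y, a1, a2, a3, a4⟩ := red0 hb h1
      ((Nat.squarefree_mul cop).2 ⟨l3.gp.1.squarefree, n2⟩)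
      (Nat.Coprime.mul_left ((Nat.Prime.coprime_iff_not_dvd l3.gp.1).2 l3.gp.2) n3) d2
      (p := p) (e2 ▸ mem_insert_of_mem hp)
    rw [e2] at a1
    refine t_REDL _ (fun i => tw (Λ' i) hb) _ l p x y gS l3 hp ⟨_, by rw [tw_cb, h2]⟩
      (fun i => ?_) a1 a2 a3 a4
    obtain ⟨e1, t, e2⟩ := h3 i
    exact ⟨tw_sh hb e1, t, _, by rw [tw_cb, e2]⟩
  refine (hA.or (nul_div one_ne_zero (Nat.coprime_one_right 0) 5)).mono fun d d1 d2 => ?_
  by_cases e : ∃ p : ℕ, p.Prime ∧ 5 < p ∧ (p : ℤ) ∣ d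
  · exact .inl ⟨d1, e, d2⟩
  · exact .inr fun p p1 p2 _ p3 => e ⟨p, p1, p2, p3⟩

end Pool.Agent.P.MP_8b7eba_nt.R3
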