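import Pool.Agent.P.MP_8b7eba_nt.R3.CDef

/-! Proof of ORTH. -/

namespace Pool.Agent.P.MP_8b7eba_nt.SM.X

open Finset R2 R2.TCHL

namespace COrth

variable {Z S Q : Finset ℕ} {H : Subgroup GQ} {Θ : GQ → F2} {D : ℤ} {x c : GQ}

/-- the common kernel of the characters which are ramified at one prime of `Z` -/
def KZ (Z : Finset ℕ) : Subgroup GQ where
  carrier := {x | ∀ p ∈ Z, qs p x = 0}
  one_mem' := fun p _ => (isCh_qs (H := ⊤) p).one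
  mul_mem' := fun {g h} hg hh p hp => by
    rw [(isCh_qs (H := ⊤) p).2 g trivial h trivial, hg p hp, hh p hp, add_zero]
  inv_mem' := fun {g} hg p hp => by
    rw [(isCh_qs (H := ⊤) p).inv (Subgroup.mem_top g), hg p hp, neg_zero]

theorem KZ_sq (x : GQ) : x * x ∈ KZ Z := fun p _ => by
  rw [(isCh_qs (H := ⊤) p).2 x trivial x trivial]
  exact CharTwo.add_self_eq_zero _

theorem conj_iff (hH : KZ Z ≤ H) (u x : GQ) : u * x * u⁻¹ ∈ H ↔ x ∈ H := by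
  have k : u * x * u⁻¹ * x⁻¹ ∈ H := hH fun p _ => by
    have h := isCh_qs (H := ⊤) p
    rw [h.2 _ trivial _ trivial, h.conj, h.inv trivial, add_neg_cancel]
  rw [← H.mul_mem_cancel_left (y := x) k, inv_mul_cancel_right]

/-- characters which are unramified outside `Z` and two -/
def Adm (Z : Finset ℕ) (H : Subgroup GQ) (Θ : GQ → F2) : Prop :=
  IsCh H Θ ∧ ∀ v : Pl, v.p ≠ 2 → v.p ∉ Z → ∀ x ∈ v.I, Θ x = 0

theorem Adm.conj (hH : KZ Z ≤ H) (h : Adm Z H Θ) (u : GQ) : Adm Z H fun x => Θ (u * x * u⁻¹) := by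
  refine ⟨⟨?_, fun g hg k hk => ?_⟩, fun v h2 hv x hx => h.2 (u • v) h2 hv _ ?_⟩
  · simpa using h.1.1.conj (H' := H) u⁻¹ fun g hg => by simpa using (conj_iff hH u g).2 hg
  · rw [← h.1.2 _ ((conj_iff hH u g).2 hg) _ ((conj_iff hH u k).2 hk)]
    group
  · exact Pl.mem_I_smul.2 (by simpa [mul_assoc] using hx)

/-- the common kernel of these characters -/
def NZ (Z : Finset ℕ) : Subgroup GQ where
  carrier := {x | x ∈ KZ Z ∧ ∀ Θ, Adm Z (KZ Z) Θ → Θ x = 0}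
  one_mem' := ⟨one_mem _, fun _ h => h.1.one⟩
  mul_mem' := fun {g h} hg hh => ⟨mul_mem hg.1 hh.1, fun Θ k => by
    rw [k.1.2 g hg.1 h hh.1, hg.2 Θ k, hh.2 Θ k, add_zero]⟩
  inv_mem' := fun {g} hg => ⟨inv_mem hg.1, fun Θ k => by rw [k.1.inv hg.1, hg.2 Θ k, neg_zero]⟩

theorem NZ_four (x : GQ) : x * x * (x * x) ∈ NZ Z :=
  ⟨KZ_sq _, fun Θ k => by
    rw [k.1.2 _ (KZ_sq x) _ (KZ_sq x)]
    exact CharTwo.add_self_eq_zero _⟩

theorem exists_prod (U : Subgroup GQ) (f : ℕ → GQ → F2) (hf : ∀ q, IsCh ⊤ (f q)) (Z : Finset ℕ)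
    (h : ∀ p ∈ Z, tp p ∈ U ∧ ∀ q ∈ Z, f q (tp p) = if p = q then 1 else 0) (v : ℕ → F2) :
    ∃ g ∈ U, ∀ q ∈ Z, f q g = v q := by
  have key : ∀ A ⊆ Z, ∃ g ∈ U, ∀ q ∈ Z, f q g = if q ∈ A then v q else 0 := by
    intro A
    induction A using Finset.induction_on with
    | empty => exact fun _ => ⟨1, one_mem _, fun q _ => by simpa using (hf q).one⟩
    | insert a A ha ih =>
      intro hA
      obtain ⟨g, g1, g2⟩ := ih ((subset_insert _ _).trans hA)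
      obtain ⟨a1, a2⟩ := h a (hA (mem_insert_self _ _))
      refine ⟨g * tp a ^ (v a).val, mul_mem g1 (pow_mem a1 _), fun q hq => ?_⟩
      rw [(hf q).2 _ trivial _ trivial, (hf q).pow trivial, g2 q hq, a2 q hq]
      by_cases e : a = q
      · subst e
        simp [ha]
      · simp [e, Ne.symm e]
  obtain ⟨g, g1, g2⟩ := key Z Subset.rfl
  exact ⟨g, g1, fun q hq => by rw [g2 q hq, if_pos hq]⟩

theorem exists_inj {α : Type} (Γ : Finset α) (P : α → ℕ → Prop)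
    (h : ∀ γ ∈ Γ, ∀ B, ∃ l, B < l ∧ P γ l) :
    ∃ f : α → ℕ, Set.InjOn f Γ ∧ ∀ γ ∈ Γ, P γ (f γ) := by
  classical
  induction Γ using Finset.induction_on with
  | empty => exact ⟨fun _ => 0, by simp, by simp⟩
  | insert a A ha ih =>
    obtain ⟨f, f1, f2⟩ := ih fun γ hγ => h γ (mem_insert_of_mem hγ)
    obtain ⟨l, l1, l2⟩ := h a (mem_insert_self _ _) (A.sup f)
    have e : ∀ γ ∈ A, Function.update f a l γ = f γ := fun γ hγ =>
      Function.update_of_ne (fun k : γ = a => ha (k ▸ hγ)) _ _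
    refine ⟨Function.update f a l, ?_, fun γ hγ => ?_⟩
    · rw [coe_insert, Set.injOn_insert ha]
      refine ⟨f1.congr fun γ hγ => (e γ hγ).symm, ?_⟩
      rintro ⟨γ, hγ, k⟩
      rw [e γ hγ, Function.update_self] at k
      have := le_sup (f := f) hγ
      omega
    · rcases mem_insert.1 hγ with rfl | hγ
      · rwa [Function.update_self]
      · rw [e γ hγ]
        exact f2 γ hγ

variable [HA]

theorem on_NZ (hZ : ∀ p ∈ Z, Gp p) : ON (NZ Z) := by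
  classical
  refine ⟨⟨fun x hx u => ⟨(conj_iff le_rfl u x).2 hx.1, fun Θ k => hx.2 _ (k.conj le_rfl u)⟩⟩, ?_⟩
  have h := fun v : Z → F2 => exists_prod ⊤ qs isCh_qs Z
    (fun p hp => ⟨trivial, fun q hq => qs_tp (hZ p hp) (hZ q hq)⟩)
    fun q => if e : q ∈ Z then v ⟨q, e⟩ else 0
  choose g _ hg using h
  let m : MQ Z := ⟨fun s => ps s, g, fun s => TOG.ps_ne (hZ s s.2), fun v s =>
    (hg v s s.2).trans (dif_pos s.2)⟩
  obtain ⟨m1, m2, -⟩ := a_MQH _ m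
  have e : m.H = KZ Z := Subgroup.ext fun x => (m2 x).trans
    ⟨fun k p hp => k ⟨p, hp⟩, fun k s => k s s.2⟩
  obtain ⟨Ξ, -, hΞ⟩ := a_XI _ m (insert 2 Z) (mem_insert_self _ _) fun s p hp k => by
    rw [Int.natCast_dvd, BasG.abs_ps, Nat.prime_dvd_prime_iff_eq hp (hZ s s.2).1] at k
    exact mem_insert_of_mem (k ▸ s.2)
  rw [e] at hΞ m1
  have k : ∀ ξ : Ξ, ∃ N, ON N ∧ ∀ Θ, IsCh (KZ Z) Θ → (∀ g ∈ KZ Z, Θ g = ξ.1 g) →
      ∀ n ∈ KZ Z, n ∈ N → Θ n = 0 := fun ξ => by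
    by_cases a : ∃ Θ, IsCh (KZ Z) Θ ∧ ∀ g ∈ KZ Z, Θ g = ξ.1 g
    · obtain ⟨Θ, a1, a2⟩ := a
      obtain ⟨N, b1, b2⟩ := a1.1
      exact ⟨N, b1, fun Θ' _ b3 n hn hN => by
        rw [b3 n hn, ← a2 n hn, ← one_mul n, b2 1 (one_mem _) n hn hN, a1.one]⟩
    · exact ⟨⊤, ON.top, fun Θ a1 a2 => absurd ⟨Θ, a1, a2⟩ a⟩
  choose M M1 M2 using k
  obtain ⟨N, N1, N2⟩ := exists_ON_forall M1
  refine open_of_le (m1.inf N1).2 fun x hx => ⟨hx.1, fun Θ a => ?_⟩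
  obtain ⟨ξ, a1, a2⟩ := hΞ Θ a.1 fun w hw => a.2 w (fun b => hw (b ▸ mem_insert_self _ _))
    fun b => hw (mem_insert_of_mem b)
  exact M2 ⟨ξ, a1⟩ Θ a.1 a2 x hx.1 (N2 _ hx.2)

/-- the group of the congruence conditions -/
def N0 (D : ℤ) (Q : Finset ℕ) : Subgroup GQ where
  carrier := {x | x ∈ G1 D ∧ c16 x = 1 ∧ ∀ q ∈ Q, qz q x = 0}
  one_mem' := ⟨one_mem _, by
    have := hA.ec.2.1 1 1
    rw [one_mul, left_eq_mul] at this
    simp [c16, this], fun q _ => (isCh_qz (H := ⊤) q).one⟩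
  mul_mem' := fun {g h} hg hh => ⟨mul_mem hg.1 hh.1, by
    rw [c16_mul hA.ec, hg.2.1, hh.2.1, one_mul], fun q hq => by
    rw [(isCh_qz (H := ⊤) q).2 g trivial h trivial, hg.2.2 q hq, hh.2.2 q hq, add_zero]⟩
  inv_mem' := fun {g} hg => ⟨inv_mem hg.1, by
    obtain ⟨N, -, e⟩ := hA.ec.2.2.2.2.1 4
    exact (c16_one_iff _).1 ((e _).1 (inv_mem ((e _).2 ((c16_one_iff _).2 hg.2.1)))),
    fun q hq => by rw [(isCh_qz (H := ⊤) q).inv (Subgroup.mem_top g), hg.2.2 q hq, neg_zero]⟩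

theorem on_N0 (hD : D ≠ 0) : ON (N0 D Q) := by
  obtain ⟨N, hN, e⟩ := hA.ec.2.2.2.2.1 4
  refine ⟨⟨fun x hx u => ⟨G1_conj hx.1 u, (c16_one_iff _).1 ((e _).1 (hN.1.conj_mem _
    ((e _).2 ((c16_one_iff _).2 hx.2.1)) u)), fun q hq => (qz_conj q u x).trans (hx.2.2 q hq)⟩⟩, ?_⟩
  obtain ⟨M1, a1, b1⟩ := G1_open hD
  choose M a b using fun q : Q => (isCh_qz (H := ⊤) (q : ℕ)).1
  obtain ⟨M2, a2, b2⟩ := exists_ON_forall a
  refine open_of_le ((a1.inf hN).inf a2).2 fun g hg => ⟨b1 hg.1.1,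
    (c16_one_iff _).1 ((e _).1 hg.1.2), fun q hq => ?_⟩
  rw [← one_mul g, b ⟨q, hq⟩ 1 trivial g trivial (b2 _ hg.2), (isCh_qz (H := ⊤) _).one]

theorem I_N0 {v : Pl} (h2 : v.p ≠ 2) (hD : ¬ (v.p : ℤ) ∣ 15 * D) (hQ : ∀ q ∈ Q, Gp q)
    (hv : v.p ∉ Q) (hx : x ∈ v.I) : x ∈ N0 D Q := by
  have k : ∀ p : ℕ, p.Prime → v.p ≠ p → qz p x = 0 := fun p hp e => qz_I hA (fun a => by
    rcases (Nat.Prime.dvd_mul v.prime).1 (show v.p ∣ 2 * p by exact_mod_cast a) with a | a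
    · exact h2 ((Nat.prime_dvd_prime_iff_eq v.prime Nat.prime_two).1 a)
    · exact e ((Nat.prime_dvd_prime_iff_eq v.prime hp).1 a)) hx
  exact ⟨fun p hp a => k p hp fun e => hD (e ▸ a), by simp [c16, hA.ec.2.2.2.2.2.2.1 v h2 x hx],
    fun q hq => k q (hQ q hq).1 fun e => hv (e ▸ hq)⟩

/-- the coset of the congruence conditions -/
def C0 (D : ℤ) (Q : Finset ℕ) (x : GQ) : Prop := x ∈ G1 D ∧ c16 x = 7 ∧ ∀ q ∈ Q, qz q x = 1

theorem C0.mul (h : C0 D Q c) (hx : x ∈ N0 D Q) : C0 D Q (c * x) :=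
  ⟨mul_mem h.1 hx.1, by rw [c16_mul hA.ec, h.2.1, hx.2.1, mul_one], fun q hq => by
    rw [(isCh_qz (H := ⊤) q).2 _ trivial _ trivial, h.2.2 q hq, hx.2.2 q hq, add_zero]⟩

theorem C0.sq (h : C0 D Q c) : c * c ∈ N0 D Q :=
  ⟨G1_sq _ _, by rw [c16_mul hA.ec, h.2.1]; decide, fun q _ => by
    rw [(isCh_qz (H := ⊤) q).2 _ trivial _ trivial]
    exact CharTwo.add_self_eq_zero _⟩

theorem exists_C0 (hQ : ∀ q ∈ Q, Gp q ∧ ¬ (q : ℤ) ∣ 15 * D) : ∃ c, C0 D Q c := by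
  have hE := hA.ec
  have h2 := pl_p Nat.prime_two
  have hu : IsUnit ((-7 : ℤ) : ℤ_[2]) := PadicInt.isUnit_iff.2
    (PadicInt.norm_intCast_eq_one_iff.2 (by norm_num [Int.isCoprime_iff_gcd_eq_one]))
  obtain ⟨u, hu⟩ := hu
  obtain ⟨i, hi, e⟩ := hA.ec2 _ h2 u
  have a1 : tau * i ∈ G1 D := by
    refine mul_mem (fun p hp _ => ?_) fun p hp _ => ?_
    · exact (qz_tau hA.tau (Nat.cast_ne_zero.2 hp.ne_zero)).2 (Nat.cast_pos.2 hp.pos)
    rcases hp.eq_two_or_odd with rfl | h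
    · exact (qz_two hE).2 (.inl ⟨-1, by rw [e, hu]; norm_num⟩)
    by_cases h4 : (p : ℤ) % 4 = 1
    · exact qz_I_two h2 h4 hi
    · have h3 := qz_I_two (m := -1 * p) h2 (by omega) hi
      have h5 : qz (-1) i = 0 := (qz_neg_one hE).2 ⟨-2, by rw [e, hu]; norm_num⟩
      rwa [qz_mul (by norm_num) (Nat.cast_ne_zero.2 hp.ne_zero), Pi.add_apply, h5, zero_add] at h3
  have a2 : c16 (tau * i) = 7 := by
    rw [c16_mul hE, c16, c16, hE.2.2.2.2.2.2.2, e, hu, map_intCast]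
    simp
  obtain ⟨g, g1, g2⟩ := exists_prod (N0 D ∅) (fun q => qz q) (fun q => isCh_qz q) Q
    (fun p hp => ⟨I_N0 (v := pl p) (by rw [pl_p (hQ p hp).1.1]; exact (hQ p hp).1.ne.1)
      (by rw [pl_p (hQ p hp).1.1]; exact (hQ p hp).2) (by simp) (by simp)
      (tp_I (hQ p hp).1.1 (hQ p hp).1.ne.1),
      fun q hq => BasP.qz_tp (hQ p hp).1 (hQ q hq).1⟩) fun q => 1 - qz q (tau * i)
  refine ⟨tau * i * g, mul_mem a1 g1.1, by rw [c16_mul hE, a2, g1.2.1, mul_one], fun q hq => ?_⟩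
  rw [(isCh_qz (H := ⊤) q).2 _ trivial _ trivial, g2 q hq, add_sub_cancel]

omit [HA] in
theorem odd_pow (c : GQ) (k : ℕ) : c ^ (2 * k + 1) = c * (c * c) ^ k := by
  rw [pow_succ', pow_mul, pow_two]

/-- the arithmetic meaning of the coset -/
theorem C0.arith {w : Pl} {φ : GQ} (hS : ∀ p ∈ S, Gp p) (hQ : ∀ p ∈ Q, Gp p)
    (hD : D = 2 * ∏ q ∈ S, (q : ℤ)) (h : C0 D Q φ) (hφ : w.IsFrob 1 φ)
    (hB : 60 * ∏ q ∈ S, q < w.p) (hw : w.p ∉ Q) :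
    w.p % 16 = 7 ∧ Spl S w.p ∧ ∀ q ∈ Q, jacobiSym (-w.p) q = -1 := by
  have p0 : 0 < ∏ q ∈ S, q := prod_pos fun q hq => (hS q hq).1.pos
  have h16 := (c16_frob hA.ec (by omega) hφ).1 h.2.1
  refine ⟨h16, ⟨⟨w.prime, fun a => ?_⟩, fun a => ?_, fun a ha => ?_⟩, fun q hq => ?_⟩
  · have := Nat.le_of_dvd (by norm_num) a
    omega
  · have := Nat.le_of_dvd p0 (dvd_prod_of_mem (fun q => q) a)
    omega
  · have a1 : a.natAbs ∣ 30 * ∏ q ∈ S, q := by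
      rw [← Int.natCast_dvd_natCast, Int.natAbs_dvd]
      push_cast
      exact ha
    have a0 : a.natAbs ≠ 0 := fun e => by
      rw [e, zero_dvd_iff] at a1
      omega
    have a2 : jacobiSym a.natAbs w.p = 1 := by
      refine (qz_frob hA (fun e => ?_) hφ).1.1 (G1_nat h.1 _ a0 ?_)
      · have e' : w.p ∣ 2 * a.natAbs := by exact_mod_cast e
        have := Nat.le_of_dvd (by omega) (e'.trans (mul_dvd_mul_left 2 a1))
        omega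
      · rw [hD, Int.natAbs_dvd]
        exact ha.trans (dvd_of_eq (by ring))
    rcases Int.natAbs_eq a with e | e
    · rw [e, a2, Int.sign_natCast_of_ne_zero a0]
    · rw [e, jacobiSym.neg _ (Nat.odd_iff.2 (by omega)), a2, Int.sign_neg,
        Int.sign_natCast_of_ne_zero a0, ZMod.χ₄_nat_three_mod_four (by omega), mul_one]
  · have gq := hQ q hq
    have ne : w.p ≠ q := fun e => hw (e ▸ hq)
    rw [← jac_swap w.prime (by omega) gq.1 gq.ne.1]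
    refine (jacobiSym.eq_one_or_neg_one ?_).resolve_left fun e => ?_
    · rw [Int.gcd_natCast_natCast]
      exact (Nat.coprime_primes gq.1 w.prime).2 ne.symm
    · have := (qz_frob hA (m := q) (fun a => ?_) hφ).1.2 e
      · rw [h.2.2 q hq] at this
        exact one_ne_zero this
      rcases (Nat.Prime.dvd_mul w.prime).1 (show w.p ∣ 2 * q by exact_mod_cast a) with a | a
      · have := Nat.le_of_dvd (by norm_num) a
        omega
      · exact ne ((Nat.prime_dvd_prime_iff_eq w.prime gq.1).1 a)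

/-- primes with prescribed Frobenius element -/
theorem cheb2 (hS : ∀ p ∈ S, Gp p) (hZ : ∀ p ∈ Z, Gp p) (hQ : ∀ p ∈ Q, Gp p)
    (hD : D = 2 * ∏ q ∈ S, (q : ℤ)) (hD0 : D ≠ 0) (h : C0 D Q c) (B : ℕ) :
    ∃ l, B < l ∧ (l % 16 = 7 ∧ Spl S l ∧ ∀ q ∈ Q, jacobiSym (-l) q = -1) ∧
      ∃ (g : GQ) (k : ℕ), ∃ n ∈ NZ Z, fr l = (g * c * g⁻¹) ^ (2 * k + 1) * n := by
  have hN := (on_NZ hZ).inf (on_N0 (Q := Q) hD0)
  obtain ⟨B₁, h1⟩ := hA.genp.2.1 _ hN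
  obtain ⟨w, φ, r, hB, hφ, ⟨k, rfl⟩, h2⟩ := hA.genp.2.2 _ c 2
    (B + B₁ + 60 * ∏ q ∈ S, q + Q.sup id + 2) hN
    (fun e => absurd (h.2.1.symm.trans e.2.2.1) (by decide)) (by
      rw [show c ^ 2 ^ 2 = c * c * (c * c) by rw [pow_two 2, pow_mul, pow_two, pow_two]]
      exact ⟨NZ_four c, mul_mem h.sq h.sq⟩)
  have h3 : C0 D Q φ := by
    have := (h.mul (pow_mem h.sq k)).mul h2.2
    rwa [← odd_pow, mul_inv_cancel_left] at this
  refine ⟨w.p, by omega, h3.arith hS hQ hD hφ (by omega) fun e => ?_, ?_⟩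
  · have := le_sup (f := id) e
    simp only [id] at this
    omega
  obtain ⟨σ, hσ⟩ := exists_smul w
  have h4 := hφ.smul σ⁻¹
  rw [inv_smul_eq_iff.2 hσ.symm] at h4
  have h5 := h1 _ (by rw [pl_p w.prime]; omega) (h4.inv_mul (fr_frob w.prime (by omega)))
  refine ⟨σ⁻¹, k, _, mul_mem (hN.1.conj_mem _ h2 σ⁻¹).1 h5.1, ?_⟩
  rw [conj_pow]
  group

end COrth

open COrth

variable [HA]

theorem t_ORTH : ORTH := by
  classical
  intro S Z Q B hS hZ hQ d1 d2 d3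
  obtain ⟨D, hD⟩ : ∃ D : ℤ, D = 2 * ∏ q ∈ S, (q : ℤ) := ⟨_, rfl⟩
  have hD0 : D ≠ 0 := hD ▸ mul_ne_zero two_ne_zero
    (prod_ne_zero_iff.2 fun q hq => Nat.cast_ne_zero.2 (hS q hq).1.ne_zero)
  have nd : ∀ p, Gp p → p ∉ S → ¬ (p : ℤ) ∣ 15 * D := fun p hp h a => by
    have hp' := Nat.prime_iff_prime_int.1 hp.1
    rw [hD, ← mul_assoc] at a
    rcases hp'.dvd_or_dvd a with a | a
    · exact hp.2 (by exact_mod_cast a)
    · obtain ⟨q, hq, a⟩ := (hp'.dvd_finsetProd_iff _).1 a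
      exact h ((Nat.prime_dvd_prime_iff_eq hp.1 (hS q hq).1).1 (by exact_mod_cast a) ▸ hq)
  obtain ⟨N, eN⟩ : ∃ N, N = NZ Z ⊓ N0 D Q := ⟨_, rfl⟩
  have hN : ON N := eN ▸ (on_NZ hZ).inf (on_N0 hD0)
  have N1 : N ≤ NZ Z := eN ▸ inf_le_left
  have N2 : N ≤ N0 D Q := eN ▸ inf_le_right
  have := hN.1
  have := N.quotient_finite_of_isOpen hN.2
  have := Fintype.ofFinite (GQ ⧸ N)
  obtain ⟨Γ, hΓ⟩ : ∃ Γ : Finset (GQ ⧸ N), ∀ γ, γ ∈ Γ ↔ C0 D Q γ.out :=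
    ⟨univ.filter fun γ => C0 D Q γ.out, fun γ => by simp⟩
  obtain ⟨f, f1, f2⟩ := exists_inj Γ (fun γ l => B < l ∧ (l % 16 = 7 ∧ Spl S l ∧
      ∀ q ∈ Q, jacobiSym (-l) q = -1) ∧ ∃ (g : GQ) (k : ℕ), ∃ n ∈ NZ Z,
      fr l = (g * γ.out * g⁻¹) ^ (2 * k + 1) * n) fun γ hγ B' => by
    obtain ⟨l, a1, a2⟩ := cheb2 hS hZ hQ hD hD0 ((hΓ γ).1 hγ) (B + B')
    exact ⟨l, by omega, by omega, a2⟩
  choose f3 f4 g k n f5 f6 using f2
  have out : ∀ x : GQ, ∃ n ∈ N, (x : GQ ⧸ N).out = x * n := fun x => by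
    obtain ⟨n, hn⟩ := QuotientGroup.mk_out_eq_mul N x
    exact ⟨n, n.2, hn⟩
  obtain ⟨c₀, hc₀⟩ := exists_C0 (D := D) fun q hq =>
    ⟨hQ q hq, nd q (hQ q hq) (disjoint_right.1 d2 hq)⟩
  have m₀ : (c₀ : GQ ⧸ N) ∈ Γ := by
    obtain ⟨n, a1, a2⟩ := out c₀
    rw [hΓ, a2]
    exact hc₀.mul (N2 a1)
  have inv : ∀ γ ∈ Γ, Function.invFunOn f Γ (f γ) = γ := fun γ hγ => f1.leftInvOn_invFunOn hγ
  refine ⟨Γ.image f, ⟨_, mem_image_of_mem f m₀⟩, ⟨fun y => (Function.invFunOn f Γ y).out,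
    fun y => if h : Function.invFunOn f Γ y ∈ Γ then g _ h else 1, fun H hH Θ a1 a2 =>
    ⟨fun y hy => ?_, ?_⟩⟩, fun y hy => ?_⟩
  · obtain ⟨γ, hγ, rfl⟩ := mem_image.1 hy
    have hH' : KZ Z ≤ H := hH
    simp only [inv γ hγ, dif_pos hγ]
    have b1 : n γ hγ ∈ H := hH' (f5 γ hγ).1
    have b2 : fr (f γ) ∈ H ↔ g γ hγ * γ.out * (g γ hγ)⁻¹ ∈ H := by
      rw [f6 γ hγ, H.mul_mem_cancel_right b1, odd_pow,
        H.mul_mem_cancel_right (pow_mem (hH' (KZ_sq _)) _)]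
    refine ⟨b2.trans (conj_iff hH' _ _), fun b3 => ?_⟩
    rw [f6 γ hγ, a1.2 _ (pow_mem (b2.1 b3) _) _ b1, (f5 γ hγ).2 Θ ⟨a1.mono hH', a2⟩,
      a1.pow (b2.1 b3), add_zero, add_nsmul, mul_nsmul, two_nsmul, CharTwo.add_self_eq_zero,
      nsmul_zero, zero_add, one_nsmul]
  · rintro ⟨v, hv, h, b1, b2, b3⟩
    have hH' : KZ Z ≤ H := hH
    have gv := hZ _ hv
    have b4 : h ∈ N0 D Q := I_N0 gv.ne.1 (nd _ gv (disjoint_right.1 d1 hv)) hQ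
      (disjoint_left.1 d3 hv) b1
    rw [filter_image, sum_image fun a ha b hb => f1 (mem_filter.1 ha).1 (mem_filter.1 hb).1]
    have e : ∑ γ ∈ Γ.filter (fun γ => (Function.invFunOn f Γ (f γ)).out ∈ H),
        sr (Θ (Function.invFunOn f Γ (f γ)).out) =
        ∑ γ ∈ Γ.filter (fun γ => γ.out ∈ H), sr (Θ γ.out) :=
      sum_congr (filter_congr fun γ hγ => by rw [inv γ hγ]) fun γ hγ => by
        rw [inv γ (mem_filter.1 hγ).1]
    rw [e]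
    have key : ∀ γ : GQ ⧸ N, ∃ n ∈ N, (γ * h).out = γ.out * (h * n) := fun γ => by
      obtain ⟨n, c1, c2⟩ := out (γ.out * h)
      rw [QuotientGroup.mk_mul, QuotientGroup.out_eq'] at c2
      exact ⟨n, c1, by rw [c2, mul_assoc]⟩
    have e2 : ∑ γ ∈ Γ.filter (fun γ => γ.out ∈ H), -sr (Θ γ.out) =
        ∑ γ ∈ Γ.filter (fun γ => γ.out ∈ H), sr (Θ γ.out) := by
      refine sum_equiv (Equiv.mulRight (h : GQ ⧸ N)) (fun γ => ?_) fun γ hγ => ?_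
      · obtain ⟨n, c1, c2⟩ := key γ
        have c3 := mul_mem b4 (N2 c1)
        rw [mem_filter, mem_filter, hΓ, hΓ, Equiv.coe_mulRight, c2,
          H.mul_mem_cancel_right (mul_mem b2 (hH' (N1 c1).1))]
        refine and_congr_left fun _ => ⟨fun a => a.mul c3, fun a => ?_⟩
        simpa only [mul_inv_cancel_right] using a.mul (inv_mem c3)
      · obtain ⟨n, c1, c2⟩ := key γ
        have c3 := hH' (N1 c1).1
        rw [Equiv.coe_mulRight, c2, a1.2 _ (mem_filter.1 hγ).2 _ (mul_mem b2 c3), a1.2 _ b2 _ c3,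
          b3, (N1 c1).2 Θ ⟨a1.mono hH', a2⟩, add_zero, TFOUR.sr_add, TFOUR.sr_one, mul_neg_one]
    rw [sum_neg_distrib] at e2
    linarith
  · obtain ⟨γ, hγ, rfl⟩ := mem_image.1 hy
    exact ⟨f3 γ hγ, f4 γ hγ⟩

end Pool.Agent.P.MP_8b7eba_nt.SM.X
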