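import Pool.Agent.P.MP_8b7eba_nt.R3.CDef

/-! Boxes with an auxiliary prime: the halving inequality. -/

namespace Pool.Agent.P.MP_8b7eba_nt.SM.X

open Finset R2
open scoped Matrix

section

variable {B : Box} {p : Fin B.r → ℕ}

theorem Box.mem_pts : p ∈ B.pts ↔ ∀ i, p i ∈ B.X i := by
  exact Fintype.mem_piFinset

theorem Box.inj (hp : p ∈ B.pts) : Function.Injective p ∧ ∀ i, Gp (p i) ∧ p i ∉ B.S := by
  rw [Box.mem_pts] at hp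
  refine ⟨fun i j e => ?_, fun i => ⟨(B.gp i _ (hp i)), disjoint_left.1 (B.nS i) (hp i)⟩⟩
  by_contra h
  exact disjoint_left.1 (B.dj i j h) (hp i) (e ▸ hp j)

theorem Box.mem_set {q : ℕ} : q ∈ B.set p ↔ q ∈ B.S ∨ ∃ i, p i = q := by
  simp [Box.set]

theorem Box.leg_swap {p' : Fin B.r → ℕ} (hp : p ∈ B.pts) (hp' : p' ∈ B.pts) (i j : Fin B.r) :
    Leg p i j + Leg p j i = Leg p' i j + Leg p' j i := by
  have key : ∀ p ∈ B.pts, i ≠ j → Leg p i j + Leg p j i = js (-1) (p j) * js (-1) (p i) := by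
    intro p hp h
    obtain ⟨h1, h2⟩ := Box.inj hp
    rw [Leg, Leg, if_neg h, if_neg h.symm, js_swap (h2 j).1 (h2 i).1 fun e => h (h1 e).symm,
      add_right_comm, CharTwo.add_self_eq_zero, zero_add]
  have e : ∀ i, js (-1) (p i) = js (-1) (p' i) := fun i => by
    rw [js, js, B.key i _ (Box.mem_pts.1 hp i) _ (Box.mem_pts.1 hp' i) (-1)
      (neg_dvd.2 (one_dvd _))]
  by_cases h : i = j
  · simp [Leg, h]
  · rw [key p hp h, key p' hp' h, e i, e j]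

theorem Box.js_eq {i : Fin B.r} {q q' : ℕ} (hq : q ∈ B.X i) (hq' : q' ∈ B.X i) (b : Fin 4 ⊕ B.S) :
    js (smz B.S b) q = js (smz B.S b) q' := by
  rw [js, js, B.key i q hq q' hq' _ (BasP.smz_dvd b)]

end

namespace Stp

variable {k s : ℕ} {𝒯 : Stp k s} {p : Fin 𝒯.B.r → ℕ} {z : Option (Fin k) → ℕ} {y : ℕ}

theorem asm_mem (hp : p ∈ 𝒯.B.pts) (hz : ∀ o, z o ∈ 𝒯.X o) (hy : y ∈ 𝒯.Y) :
    asm 𝒯.e p z y ∈ 𝒯.B.pts := by
  refine Box.mem_pts.2 fun j => ?_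
  rcases BasT.tri 𝒯.e j with rfl | ⟨i, rfl⟩ | h
  · rw [(asm_e 𝒯.e p z y).1]
    exact hy
  · rw [(asm_e 𝒯.e p z y).2.1]
    exact hz i
  · rw [(asm_e 𝒯.e p z y).2.2 j h]
    exact Box.mem_pts.1 hp j

theorem set_asm : 𝒯.B.set (asm 𝒯.e p z y) = insert y (𝒯.P p) ∪ univ.image z := by
  obtain ⟨h1, h2, h3⟩ := asm_e 𝒯.e p z y
  ext q
  simp only [Box.mem_set, P, mem_union, mem_insert, mem_image, mem_filter, mem_univ, true_and]
  constructor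
  · rintro (h | ⟨j, rfl⟩)
    · exact Or.inl (Or.inr (Or.inl h))
    · rcases BasT.tri 𝒯.e j with rfl | ⟨i, rfl⟩ | h
      · exact Or.inl (Or.inl h1)
      · exact Or.inr ⟨i, (h2 i).symm⟩
      · exact Or.inl (Or.inr (Or.inr ⟨j, h, (h3 j h).symm⟩))
  · rintro ((rfl | h | ⟨j, h, rfl⟩) | ⟨i, rfl⟩)
    · exact Or.inr ⟨_, h1⟩
    · exact Or.inl h
    · exact Or.inr ⟨j, h3 j h⟩
    · exact Or.inr ⟨_, h2 i⟩

theorem cp_of (h : Leg (asm 𝒯.e p z y) = 𝒯.a) : 𝒯.cp p z y := by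
  refine ⟨fun i j hi hj => ?_, fun j hj => ?_, fun o => ?_⟩
  · rw [← h, BasT.leg_off 𝒯.e p z 0 y hi hj]
  · rw [← h, BasT.leg_out 𝒯.e p z y hj]
  · beta_reduce
    rw [← h, BasT.leg_some]

theorem leg_of (hp : p ∈ 𝒯.B.pts) (hz : ∀ o, z o ∈ 𝒯.X o) (hy : y ∈ 𝒯.Y) (h : 𝒯.cp p z y) :
    Leg (asm 𝒯.e p z y) = 𝒯.a := by
  obtain ⟨h1, h2, h3⟩ := h
  obtain ⟨p', hp', ha⟩ := 𝒯.sy
  have row : ∀ j, Leg (asm 𝒯.e p z y) (𝒯.e none) j = 𝒯.a (𝒯.e none) j := by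
    intro j
    rcases BasT.tri 𝒯.e j with rfl | ⟨i, rfl⟩ | h
    · rw [← ha]
      unfold Leg
      rw [if_pos rfl, if_pos rfl]
    · rw [BasT.leg_some]
      exact h3 i
    · rw [BasT.leg_out 𝒯.e p z y h]
      exact h2 j h
  funext i j
  by_cases hi : i = 𝒯.e none
  · rw [hi, row]
  by_cases hj : j = 𝒯.e none
  · have h4 := Box.leg_swap (asm_mem hp hz hy) hp' i j
    rw [ha, hj, row] at h4
    rw [hj]
    exact add_right_cancel h4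
  · rw [BasT.leg_off 𝒯.e p z y 0 hi hj]
    exact h1 i j hi hj

theorem pat_asm (β : Bool) (g : GQ) : pat (𝒯.φ β) (𝒯.R β) (asm 𝒯.e p z y) g =
    𝒯.Φ p y β g + qs (z none) g • 𝒯.R β (𝒯.e (some none)) := by
  obtain ⟨h1, h2, h3⟩ := asm_e 𝒯.e p z y
  unfold pat Φ
  rw [BasT.sum_split 𝒯.e, Fintype.sum_option, Fintype.sum_option, h1, h2,
    sum_congr rfl fun j hj => by rw [h3 j (mem_filter.1 hj).2]]
  simp only [𝒯.lo, smul_zero, sum_const_zero, add_zero, add_assoc]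

theorem card_P (p : Fin 𝒯.B.r → ℕ) : (𝒯.P p).card ≤ 𝒯.B.r + 𝒯.B.S.card := by
  refine (card_union_le _ _).trans ?_
  rw [add_comm]
  exact Nat.add_le_add_right (card_image_le.trans ((card_le_univ _).trans_eq (Fintype.card_fin _))) _

theorem mem_P (hp : p ∈ 𝒯.B.pts) {q : ℕ} (hq : q ∈ 𝒯.P p) :
    Gp q ∧ ∀ o, q ∉ 𝒯.B.X (𝒯.e o) := by
  rcases mem_union.1 hq with h | h
  · exact ⟨𝒯.B.gS q h, fun o h' => disjoint_left.1 (𝒯.B.nS _) h' h⟩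
  · obtain ⟨j, hj, rfl⟩ := mem_image.1 h
    have h1 := Box.mem_pts.1 hp j
    exact ⟨(𝒯.B.gp j _ h1), fun o =>
      disjoint_left.1 (𝒯.B.dj j _ fun e => (mem_filter.1 hj).2 ⟨o, e.symm⟩) h1⟩

end Stp

/-- the arithmetic of a grid in a box -/
def STP0 : Prop :=
  ∀ (k s M : ℕ) (𝒯 : Stp k s), ∀ p ∈ 𝒯.B.pts, ∀ q ∈ grids M 𝒯.X,
    (∀ i, Function.Injective (q i)) → (∀ π, 𝒯.V p (gp q π)) →
    GrA q (𝒯.P p) ∧ Uok (low q) (Qs (𝒯.P p) (low q)) ∧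
      ∀ j, Wok (low q) (Qs (𝒯.P p) (low q)) (q none j)

open Classical in
/-- the local inequality -/
def STP1 : Prop :=
  ∀ (k s : ℕ) (ε : ℝ), 2 ≤ k → 0 < ε → ∃ M₀ : ℕ, ∀ M, M₀ ≤ M → ∀ 𝒯 : Stp k s, ∀ p ∈ 𝒯.B.pts,
    ∀ θ : (Fin k → Fin (M + 1) → ℕ) → ℕ → Mu k M → GQ → F2, ∀ q ∈ grids M 𝒯.X, 𝒯.Ok p θ q →
    ∃ B : Finset (Gf k M → F2), (B.card : ℝ) ≤ ε * Fintype.card (Gf k M → F2) ∧
      ∀ y ∈ 𝒯.Y, ∀ G, G ∉ B → tyf (𝒯.cp p) (fun u w μ y => θ u w μ (fr y)) q y = some G →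
        ((univ.filter fun π => 𝒯.W (k + 1) (asm 𝒯.e p (gp q π) y)).card : ℝ) ≤
          (univ.filter fun π => 𝒯.W k (asm 𝒯.e p (gp q π) y)).card / 2 +
            ε * (M + 1) ^ Fintype.card (Option (Fin k))

/-- the oscillation -/
def STP2 : Prop :=
  ∀ k M : ℕ, ∃ c : ℕ, ∀ (s : ℕ) (𝒯 : Stp k s) (T y₁ : ℕ), ∀ p ∈ 𝒯.B.pts,
    ∀ θ : (Fin k → Fin (M + 1) → ℕ) → ℕ → Mu k M → GQ → F2, 2 ≤ T → 1 ≤ y₁ →
    (∀ o, Rich (𝒯.X o) (𝒯.B.t (𝒯.e (some o))) 𝒯.B.E) →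
    (∀ i, 𝒯.B.t (𝒯.e (some (some i))) ≤ y₁) →
    (T * (𝒯.B.E + 2) * y₁) ^ c ≤ 𝒯.B.t (𝒯.e (some none)) →
    𝒯.Hb ((T * (𝒯.B.E + 2) * y₁) ^ c) →
    OscG 𝒯.X 𝒯.Y (fun u y => js (ps u) y) (fun u w μ y => θ u w μ (fr y))
      (fun o => 𝒯.a (𝒯.e none) (𝒯.e (some o))) (𝒯.Ok p θ) (T : ℝ)⁻¹

open Classical in
/-- there are many grids -/
def STP4 : Prop :=
  ∀ (k s M : ℕ) (𝒯 : Stp k s), ∀ p ∈ 𝒯.B.pts,
    ∃ θ : (Fin k → Fin (M + 1) → ℕ) → ℕ → Mu k M → GQ → F2, (∀ u w, θ u w 0 = qs w) ∧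
      ∀ U ⊆ Fintype.piFinset 𝒯.X, (∀ z ∈ U, 𝒯.V p z) → ∀ δ x : ℝ, 0 ≤ δ →
        δ * ∏ i, ((𝒯.X i).card : ℝ) ≤ U.card → 0 < x → (∀ i, x ≤ (𝒯.X i).card) →
        (δ ^ (M + 1) ^ (k + 1) /
          (2 ^ ((M + 1) ^ k * (3 * (𝒯.B.r + 𝒯.B.S.card + 3 + k * (M + 1)) + 1))) ^ M -
          (k + 1) * (M + 1) ^ 2 / x) * (∏ i, ((𝒯.X i).card : ℝ)) ^ (M + 1) ≤
          ((grids M 𝒯.X).filter fun q => 𝒯.Ok p θ q ∧ ∀ π, gp q π ∈ U).card

open Classical in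
/-- the halving inequality along a fibre -/
def STP3 : Prop :=
  ∀ (k s : ℕ) (ε : ℝ), 2 ≤ k → 0 < ε → ∃ A : ℕ, ∀ (𝒯 : Stp k s) (T y₀ y₁ : ℕ), 𝒯.Num A T y₀ y₁ →
    ∀ p ∈ 𝒯.B.pts,
      (((Fintype.piFinset 𝒯.X ×ˢ 𝒯.Y).filter fun z => 𝒯.W (k + 1) (asm 𝒯.e p z.1 z.2)).card : ℝ) ≤
        ((Fintype.piFinset 𝒯.X ×ˢ 𝒯.Y).filter fun z => 𝒯.W k (asm 𝒯.e p z.1 z.2)).card / 2 +
        ε * ((Fintype.piFinset 𝒯.X ×ˢ 𝒯.Y).filter fun z => Leg (asm 𝒯.e p z.1 z.2) = 𝒯.a).card +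
        (T : ℝ)⁻¹ * (∏ i, ((𝒯.X i).card : ℝ)) * 𝒯.Y.card

open Classical in
/-- the halving inequality in a box -/
def STEP : Prop :=
  ∀ (k s : ℕ) (ε : ℝ), 2 ≤ k → 0 < ε → ∃ A : ℕ, ∀ (𝒯 : Stp k s) (T y₀ y₁ : ℕ), 𝒯.Num A T y₀ y₁ →
    ((𝒯.B.pts.filter (𝒯.W (k + 1))).card : ℝ) ≤ (𝒯.B.pts.filter (𝒯.W k)).card / 2 +
      ε * (𝒯.B.pts.filter fun p => Leg p = 𝒯.a).card + (T : ℝ)⁻¹ * 𝒯.B.pts.card

variable [HA]

theorem t_STP0 : STP0 := by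
  intro k s M 𝒯 p hp q hq hi hV
  have hX : ∀ o j, q o j ∈ 𝒯.B.X (𝒯.e (some o)) := fun o j =>
    Fintype.mem_piFinset.1 (Fintype.mem_piFinset.1 hq o) j
  have hg : ∀ o j, Gp (q o j) := fun o j => (𝒯.B.gp _ _ (hX o j))
  have hP : ∀ o j, q o j ∉ 𝒯.P p := fun o j h => (Stp.mem_P hp h).2 _ (hX o j)
  have hne : ∀ {o o'}, o ≠ o' → 𝒯.e (some o) ≠ 𝒯.e (some o') := fun h e =>
    h (Option.some_injective _ (𝒯.e.injective e))
  have hn : ∀ o, 𝒯.e (some o) ≠ 𝒯.e none := fun o => 𝒯.e.injective.ne (Option.some_ne_none o)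
  have hd : ∀ o j o' j', o ≠ o' → q o j ≠ q o' j' := fun o j o' j' h e =>
    disjoint_left.1 (𝒯.B.dj _ _ (hne h)) (hX o j) (e ▸ hX o' j')
  have h30 := fun o j => key30 (hg o j) (hg o 0) fun a ha =>
    𝒯.B.key _ _ (hX o j) _ (hX o 0) a (ha.mul_right _)
  have v1 : ∀ o j i, i ∉ Set.range 𝒯.e → js (ps (q o j)) (p i) = 𝒯.a i (𝒯.e (some o)) := by
    intro o j i h
    have := hV (fun _ => j) i _ (fun e => h ⟨_, e.symm⟩) (hn o)
    rwa [Leg, if_neg fun e => h ⟨_, e.symm⟩, (asm_e _ _ _ _).2.1, (asm_e _ _ _ _).2.2 i h] at this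
  have v2 : ∀ o j o' j', o ≠ o' →
      js (ps (q o j)) (q o' j') = 𝒯.a (𝒯.e (some o')) (𝒯.e (some o)) := by
    intro o j o' j' h
    have := hV (Function.update (fun _ => j) o' j') _ _ (hn o') (hn o)
    rwa [Leg, if_neg (hne h.symm), (asm_e _ _ _ _).2.1, (asm_e _ _ _ _).2.1, gp, gp,
      Function.update_self, Function.update_of_ne h] at this
  have ar : GrA q (𝒯.P p) := by
    refine ⟨fun o j => ⟨hg o j, hP o j⟩, fun x hx => (Stp.mem_P hp hx).1, fun o j o' j' e => ?_,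
      fun o j x hx g hgx => ?_, fun o j o' j' h g hgx => ?_, fun o j => (h30 o j).2⟩
    · obtain rfl : o = o' := by_contra fun h => hd o j o' j' h e
      exact ⟨rfl, hi o e⟩
    · rcases mem_union.1 hx with hx | hx
      · have hx' := (Stp.mem_P hp hx).1
        refine keyp hx' (hg o j) (hg o 0) (fun e => hP o j (e ▸ hx)) (fun e => hP o 0 (e ▸ hx)) ?_
          hgx
        rcases mem_union.1 hx with h | h
        · rw [js_rec hx'.ne.2.2.2.2.1 (hg o j).ne.2.2.2.2.1,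
            js_rec hx'.ne.2.2.2.2.1 (hg o 0).ne.2.2.2.2.1]
          exact Box.js_eq (hX o j) (hX o 0) (.inr ⟨x, h⟩)
        · obtain ⟨i, h', rfl⟩ := mem_image.1 h
          rw [v1 o j i (mem_filter.1 h').2, v1 o 0 i (mem_filter.1 h').2]
      · exact (h30 o j).1 x hx g hgx
    · exact keyp (hg o' j') (hg o j) (hg o 0) (hd _ _ _ _ h.symm) (hd _ _ _ _ h.symm)
        (by rw [v2 o j o' j' h, v2 o 0 o' j' h]) hgx
  refine ⟨ar, ⟨fun i j => ⟨hg _ j, mem_union_right _ (mem_image.2 ⟨(i, j), mem_univ _, rfl⟩)⟩,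
    mem_union_left _ (mem_union_right _ (by decide)), fun x hx => ?_⟩,
    fun j => ⟨hg _ j, fun hx => ?_, fun i j' => ar.aq (some i) j' none j (Option.some_ne_none i)⟩⟩
  · rcases mem_union.1 hx with hx | hx
    · rcases mem_union.1 hx with hx | hx
      · exact (ar.gP x hx).1
      · exact (mem_T30.1 hx).1
    · obtain ⟨a, -, rfl⟩ := mem_image.1 hx
      exact (hg _ _).1
  · rcases mem_union.1 hx with hx | hx
    · rcases mem_union.1 hx with hx | hx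
      · exact hP _ _ hx
      · exact (hg _ _).ne.2.2.2.1 hx
    · obtain ⟨a, -, e⟩ := mem_image.1 hx
      exact hd _ _ _ _ (Option.some_ne_none a.1) e

theorem TSTP1.phi {k s : ℕ} {𝒯 : Stp k s} {p : Fin 𝒯.B.r → ℕ} (hp : p ∈ 𝒯.B.pts) (y : ℕ)
    (β : Bool) {o : Option (Option (Fin k))} {u : ℕ} (hu : u ∈ 𝒯.B.X (𝒯.e o)) :
    𝒯.Φ p y β (tp u) = qs y (tp u) • 𝒯.R β (𝒯.e none) := by
  rw [Stp.Φ, 𝒯.φ0 β _ u hu, zero_add, sum_eq_zero, zero_add]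
  intro i hi
  have h := Stp.mem_P hp (q := p i) (mem_union_right _ (mem_image_of_mem p hi))
  rw [qs_tp (𝒯.B.gp _ u hu) h.1, if_neg fun e : u = p i => h.2 o (e ▸ hu), zero_smul]

theorem t_STP1 (hGRID : GRID) (hSTP0 : STP0) : STP1 := by
  intro k s ε hk hε
  obtain ⟨M₀, hM⟩ := hGRID k s ε hk hε
  refine ⟨M₀, fun M hMM 𝒯 p hp θ q hq ok => ?_⟩
  have hX : ∀ i j, q i j ∈ 𝒯.X i := fun i j =>
    Fintype.mem_piFinset.1 (Fintype.mem_piFinset.1 hq i) j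
  let 𝒢 : Grid k M := ⟨q, 𝒯.P p, fun j => θ (low q) (q none j) + θ (low q) (q none 0),
    (hSTP0 k s M 𝒯 p hp q hq ok.inj ok.v).1, fun j => ok.gov j 0,
    funext fun μ => funext fun g => CharTwo.add_self_eq_zero _⟩
  obtain ⟨B, hB, hG⟩ := hM M hMM 𝒢 𝒯.Λ fun β => 𝒯.R β (𝒯.e (some none))
  refine ⟨B, by simpa using hB, fun y hy G hGB ht => ?_⟩
  unfold tyf at ht
  split_ifs at ht with h
  obtain ⟨cp, hv⟩ := h
  have hGy : 𝒢.G y = G := Option.some.inj ht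
  have leg : ∀ π, Leg (asm 𝒯.e p (gp q π) y) = 𝒯.a := fun π =>
    Stp.leg_of hp (fun o => hX o _) hy (cp π)
  have mem : ∀ π, asm 𝒯.e p (gp q π) y ∈ 𝒯.B.pts := fun π => Stp.asm_mem hp (fun o => hX o _) hy
  have eS : ∀ π, 𝒯.B.set (asm 𝒯.e p (gp q π) y) = 𝒢.S y π := fun π => Stp.set_asm
  have eP : ∀ β π, pat (𝒯.φ β) (𝒯.R β) (asm 𝒯.e p (gp q π) y) =
      𝒢.ph (𝒯.Φ p y β) (𝒯.R β (𝒯.e (some none))) π := fun β π =>
    funext fun g => Stp.pat_asm β g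
  have gy : Gp y := (𝒯.B.gp _ y hy)
  have gq : ∀ i j, Gp (q i j) := fun i j => (𝒯.B.gp _ _ (hX i j))
  have nq : ∀ i j, q i j ≠ y := fun i j e => disjoint_left.1
    (𝒯.B.dj _ _ (𝒯.e.injective.ne (Option.some_ne_none i))) (hX i j) (e ▸ hy)
  have sy : ∀ i j, js (ps (q i j)) y = 𝒯.a (𝒯.e none) (𝒯.e (some i)) := fun i j =>
    (cp fun _ => j).2.2 i
  have pt : 𝒢.Pt y := ⟨gy, fun h => (Stp.mem_P hp h).2 none hy, nq, fun i j g hg =>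
    keyp gy (gq i j) (gq i 0) (nq i j).symm (nq i 0).symm ((sy i j).trans (sy i 0).symm) hg, hv⟩
  obtain ⟨-, C, hC, hC'⟩ := 𝒯.sel _ (mem 0) (leg 0)
  have key := hG y (𝒯.Φ p y) C pt
    (fun β z => by rw [← eS, ← eP]; exact (𝒯.sel _ (mem z) (leg z)).1 β)
    (fun β i j => by
      rw [TSTP1.phi hp y β (hX i j), qs_tp (gq i j) gy, if_neg (nq i j), zero_smul])
    𝒯.ra (by rw [TSTP1.phi hp y false hy, qs_tp gy gy, if_pos rfl, one_smul]; exact 𝒯.rb)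
    hC (fun χ h => hC' χ (eS 0 ▸ h)) (hGy ▸ hGB)
  have eW : ∀ n π, 𝒯.W n (asm 𝒯.e p (gp q π) y) ↔ ∀ β, 𝒯.Λ.WK (𝒢.S y π) n
      (𝒢.ph (𝒯.Φ p y β) (𝒯.R β (𝒯.e (some none))) π) := fun n π => by
    rw [Stp.W, eS, and_iff_right (leg π)]
    exact forall_congr' fun β => by rw [eP]
  rw [Fintype.card_option, Fintype.card_fin]
  refine le_of_eq_of_le (congrArg _ (congrArg _ (ext fun π => ?_))) (key.trans_eq
    (congrArg (fun t : Finset (Gz k M) => (t.card : ℝ) / 2 + ε * (M + 1) ^ (k + 1))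
      (ext fun π => ?_))) <;>
    simp only [mem_filter, eW]

theorem t_STP2 (hOG : OG) (hOGX : OGX) (hSTP0 : STP0) : STP2 := by
  classical
  intro k M
  obtain ⟨c₁, hc⟩ := hOG k M
  obtain ⟨c₂, hc'⟩ := hOGX k M
  refine ⟨c₁ + c₂, fun s 𝒯 T y₁ p hp θ hT hy hr hl ha hb q hq ok j j₀ hj e he b hb1 hb2 => ?_⟩
  have hq' : ∀ o i, q o i ∈ 𝒯.X o := fun o i =>
    Fintype.mem_piFinset.1 (Fintype.mem_piFinset.1 hq o) i
  obtain ⟨g1, -, g3⟩ := hSTP0 k s M 𝒯 p hp q hq ok.inj ok.v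
  have pos : 0 < T * (𝒯.B.E + 2) * y₁ := by positivity
  have n1 : (T * (𝒯.B.E + 2) * y₁) ^ c₁ ≤ (T * (𝒯.B.E + 2) * y₁) ^ (c₁ + c₂) :=
    Nat.pow_le_pow_right pos (Nat.le_add_right _ _)
  have n2 : (T * (𝒯.B.E + 2)) ^ c₂ ≤ (T * (𝒯.B.E + 2) * y₁) ^ (c₁ + c₂) :=
    (Nat.pow_le_pow_left (Nat.le_mul_of_pos_right _ hy) _).trans
      (Nat.pow_le_pow_right pos (Nat.le_add_left _ _))
  have hinj : ∀ i a i' a', low q i a = low q i' a' → i = i' ∧ a = a' := fun i a i' a' h =>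
    ⟨Option.some_injective _ (g1.inj _ _ _ _ h).1, (g1.inj _ _ _ _ h).2⟩
  have hW : ∀ w ∈ (𝒯.X none).filter
      (fun w => 𝒯.Ok p θ (Function.update q none (Function.update (q none) j w))),
      w ≠ q none j₀ ∧ Wok (low q) (Qs (𝒯.P p) (low q)) w ∧ Gov (k + 1) (low q)
        (Qs (𝒯.P p) (low q)) w (q none j₀) (θ (low q) w + θ (low q) (q none j₀)) := by
    intro w hw
    obtain ⟨hw, ok'⟩ := mem_filter.1 hw
    have e1 : low (Function.update q none (Function.update (q none) j w)) = low q := by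
      funext i
      exact Function.update_of_ne (Option.some_ne_none i) _ _
    have e2 : Function.update q none (Function.update (q none) j w) none j = w := by simp
    have e3 : Function.update q none (Function.update (q none) j w) none j₀ = q none j₀ := by
      simp [hj.symm]
    have m : Function.update q none (Function.update (q none) j w) ∈ grids M 𝒯.X := by
      refine Fintype.mem_piFinset.2 fun o => Fintype.mem_piFinset.2 fun i => ?_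
      rcases o with _ | o
      · rw [Function.update_self]
        by_cases h : i = j
        · rw [h, Function.update_self]; exact hw
        · rw [Function.update_of_ne h]; exact hq' _ _
      · rw [Function.update_of_ne (Option.some_ne_none o)]; exact hq' _ _
    have h1 := (hSTP0 k s M 𝒯 p hp _ m ok'.inj ok'.v).2.2 j
    have h2 := ok'.gov j j₀
    rw [e1, e2] at h1
    rw [e1, e2, e3] at h2
    exact ⟨fun h => hj (ok'.inj none (e2.trans (h.trans e3.symm))), h1, h2⟩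
  rcases hb with ⟨hb, hb'⟩ | ⟨Z, z1, z2, z3⟩
  · exact hc (low q) (Qs (𝒯.P p) (low q)) (𝒯.X none) _ 𝒯.Y _ _ (𝒯.B.E + 2) T y₁ (q none j₀)
      (fun w => θ (low q) w + θ (low q) (q none j₀)) e b (fun i j' => ⟨(g1.gp _ _).1,
        ((hr _).gp _ (hq' (some i) j')).2.2.trans (Nat.mul_le_mul_left _ (hl i))⟩)
      hinj ((hr _).mono (Nat.le_add_right _ _)) (hb.mono (Nat.le_add_right _ _))
      (𝒯.B.dj _ _ (𝒯.e.injective.ne (Option.some_ne_none _))) (filter_subset _ _) hT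
      (Nat.le_add_left _ _) hy (n1.trans ha) (n1.trans hb') (g1.gp _ _).1 hW he hb1
      fun y _ h i j' => (hb2 y h i j').trans (hb2 y h i 0).symm
  · exact hc' (low q) (Qs (𝒯.P p) (low q)) Z (𝒯.X none) _ 𝒯.Y _ (𝒯.B.E + 2) T (q none j₀)
      (fun w => θ (low q) w + θ (low q) (q none j₀)) e b (fun i j' => ⟨(g1.gp _ _).1,
        z2 _ (hq' (some i) j'), disjoint_left.1 (𝒯.B.dj _ _ (𝒯.e.injective.ne
          ((Option.some_injective _).ne (Option.some_ne_none i)))) (hq' (some i) j')⟩)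
      hinj z1 (z2 _) z3 (𝒯.B.gp _) ((hr _).mono (Nat.le_add_right _ _)) (filter_subset _ _) hT
      (Nat.le_add_left _ _) (n2.trans ha) (g1.gp _ _).1 (z2 _ (hq' none j₀)) hW he hb1
      fun y _ h i j' => (hb2 y h i j').trans (hb2 y h i 0).symm

theorem Stp.Hb.mono {k s n n' : ℕ} {𝒯 : Stp k s} (h : 𝒯.Hb n) (e : n' ≤ n) : 𝒯.Hb n' :=
  h.imp (fun a => ⟨a.1, e.trans a.2⟩) id

theorem t_STP4 (hSUP : SUP) (hGOVX : GOVX) (hSTP0 : STP0) : STP4 := by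
  classical
  intro k s M 𝒯 p hp
  have hc : ∀ u : Fin k → Fin (M + 1) → ℕ,
      (Qs (𝒯.P p) u).card ≤ 𝒯.B.r + 𝒯.B.S.card + 3 + k * (M + 1) := fun u =>
    (TSTP4.card_Qs _ u).trans
      (Nat.add_le_add_right (Nat.add_le_add_right (𝒯.card_P p) _) _)
  choose cls θ h0 hg using fun u => hGOVX k M _ u _ (hc u)
  refine ⟨θ, h0, fun U hU hV δ x hδ hd hx hX => ?_⟩
  have h := hSUP k M _ 𝒯.X U cls δ x hδ hU hd hx hX
  rw [Nat.cast_pow, Nat.cast_ofNat] at h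
  refine h.trans ?_
  refine Nat.cast_le.2 (card_le_card fun q hq => ?_)
  rw [mem_filter] at hq ⊢
  obtain ⟨hq, h1, h2, h3⟩ := hq
  obtain ⟨-, a2, a3⟩ := hSTP0 k s M 𝒯 p hp q hq h1 fun π => hV _ (h2 π)
  exact ⟨hq, ⟨h1, fun π => hV _ (h2 π), fun j j' =>
    hg (low q) a2 _ _ (a3 j) (a3 j') ((h3 j).trans (h3 j').symm)⟩, h2⟩

open Classical in
theorem t_STP3 (hAVG : AVG) (hOZ : OZ) (hOZX : OZX) (hOSCA : OSCA) (hSTP1 : STP1) (hSTP2 : STP2) (hSTP4 : STP4) (hNUM : NUM) : STP3 := by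
  intro k s ε hk hε
  have hε' : 0 < min (ε / 2) 1 := lt_min (half_pos hε) one_pos
  obtain ⟨M₀, h1⟩ := hSTP1 k s _ hk hε'
  obtain ⟨M, hM0, hM1⟩ : ∃ M, M₀ ≤ M ∧ 1 ≤ M := ⟨max M₀ 1, le_max_left _ _, le_max_right _ _⟩
  obtain ⟨c1, hc1⟩ := hOZ
  obtain ⟨c2, hc2⟩ := hSTP2 k M
  obtain ⟨c, h1c, h2c, h3c⟩ : ∃ c, c1 ≤ c ∧ c2 ≤ c ∧ 2 ≤ c := ⟨c1 + c2 + 2, by omega⟩
  obtain ⟨A, hA⟩ := hNUM k M c hM1
  refine ⟨A, fun 𝒯 T y₀ y₁ hN p hp => ?_⟩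
  obtain ⟨hcA, T', hT', hTc, hx1, hx2, hfin⟩ :=
    hA T 𝒯.B.E (𝒯.B.r + 𝒯.B.S.card) y₀ _ _ _ hN.two hN.big rfl rfl rfl
  obtain ⟨θ, hθ0, h4⟩ := hSTP4 k s M 𝒯 p hp
  set δ : ℝ := (2 * T : ℝ)⁻¹ with hδ
  set η : ℝ := δ ^ (M + 1) ^ (k + 1) /
    (2 ^ ((M + 1) ^ k * (3 * (𝒯.B.r + 𝒯.B.S.card + 3 + k * (M + 1)) + 1))) ^ M / 2 with hη
  set κ : ℝ := (2 ^ (k * M + M * (M + 1) ^ k))⁻¹ with hκ
  set x : ℝ := (y₀ : ℝ) / (𝒯.B.E + 2) with hx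
  set n : ℝ := ∏ i, ((𝒯.X i).card : ℝ) with hn
  have hT0 : (0 : ℝ) < T := by exact_mod_cast lt_of_lt_of_le two_pos hN.two
  have hδ0 : 0 < δ := by positivity
  have hη0 : 0 < η := by positivity
  have hκ0 : 0 < κ := by positivity
  have hE0 : (0 : ℝ) < 𝒯.B.E + 2 := by positivity
  have hy0 : 𝒯.B.E + 2 ≤ y₀ := by
    refine le_trans ?_ hN.big
    refine le_trans ?_ (Nat.le_self_pow (by omega) _)
    calc 𝒯.B.E + 2 = 1 * (𝒯.B.E + 2) * 1 := by ring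
      _ ≤ _ := Nat.mul_le_mul (Nat.mul_le_mul (one_le_two.trans hN.two) le_rfl) Nat.one_le_two_pow
  have hy1 : 1 ≤ y₁ := le_trans (by omega) (hy0.trans hN.le)
  have hx1' : 1 ≤ x := by
    rw [hx, one_le_div hE0]
    exact_mod_cast hy0
  have hxc : ∀ i, x ≤ (𝒯.X i).card := by
    intro i
    rw [hx, div_le_iff₀ hE0]
    have h := (hN.t0 i).trans ((hN.rich i).mono (Nat.le_add_right _ 2)).card
    rw [mul_comm] at h
    exact_mod_cast h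
  have hxn : x ≤ n := by
    rw [hn, ← mul_prod_erase univ _ (mem_univ none)]
    refine (hxc none).trans (le_mul_of_one_le_right (Nat.cast_nonneg _) ?_)
    exact prod_induction _ (1 ≤ ·) (fun a b ha hb => one_le_mul_of_one_le_of_one_le ha hb) le_rfl
      fun i _ => hx1'.trans (hxc i)
  have hn1 : 1 ≤ n := hx1'.trans hxn
  have hTE : 1 ≤ T' * (𝒯.B.E + 2) := Nat.mul_pos (by omega) (by omega)
  have hbig : ∀ i, (T' * (𝒯.B.E + 2)) ^ c ≤ 𝒯.B.t (𝒯.e (some i)) := fun i => hTc.trans (hN.t0 i)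
  have hbig1 : (T' * (𝒯.B.E + 2)) ^ c1 ≤ y₁ ^ A :=
    (Nat.pow_le_pow_right hTE h1c).trans (hTc.trans (hN.le.trans (Nat.le_self_pow (by omega) _)))
  have hbig2 : (T' * (𝒯.B.E + 2) * y₁) ^ c2 ≤ y₁ ^ A := by
    calc (T' * (𝒯.B.E + 2) * y₁) ^ c2 ≤ (T' * (𝒯.B.E + 2) * y₁) ^ c :=
          Nat.pow_le_pow_right (Nat.mul_pos hTE hy1) h2c
      _ = (T' * (𝒯.B.E + 2)) ^ c * y₁ ^ c := mul_pow _ _ _
      _ ≤ y₁ * y₁ ^ c := Nat.mul_le_mul_right _ (hTc.trans hN.le)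
      _ = y₁ ^ (c + 1) := by ring
      _ ≤ y₁ ^ A := Nat.pow_le_pow_right hy1 hcA
  have hdj : ∀ o, Disjoint (𝒯.X o) 𝒯.Y := fun o =>
    𝒯.B.dj _ _ (𝒯.e.injective.ne (Option.some_ne_none o))
  have hosc := hOSCA k M 𝒯.X 𝒯.Y (fun u y => js (ps u) y) (fun u w μ y => θ u w μ (fr y))
    (fun o => 𝒯.a (𝒯.e none) (𝒯.e (some o))) (𝒯.V p)
    (fun y => ∀ j, j ∉ Set.range 𝒯.e → js (ps (p j)) y = 𝒯.a (𝒯.e none) j) (𝒯.Ok p θ)
    (T' : ℝ)⁻¹ (by omega) (by positivity)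
    (fun u w hw y hy => by
      beta_reduce
      rw [hθ0]
      exact qs_fr (𝒯.B.gp _ y hy) (𝒯.B.gp _ w hw)
        fun h => disjoint_left.1 (hdj none) hw (h ▸ hy))
    (fun q hq => hq.v)
    (fun i => hN.hb.elim (fun h => hc1 _ _ _ _ (𝒯.B.E + 2) T'
      ((hN.rich _).mono (Nat.le_add_right _ 2)) (h.1.mono (Nat.le_add_right _ 2)) (hdj (some i)) hT'
      (by omega) ((Nat.pow_le_pow_right hTE h1c).trans (hbig _)) (hbig1.trans h.2))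
      fun ⟨Z, z1, z2, z3⟩ => hOZX Z _ _ _ (𝒯.B.E + 2) T' z1 (z2 _) z3 (𝒯.B.gp _)
        ((hN.rich _).mono (Nat.le_add_right _ 2)) hT' (by omega)
        ((Nat.pow_le_pow_right hTE h3c).trans (hbig _)))
    (hc2 s 𝒯 T' y₁ p hp θ hT' hy1 hN.rich hN.low (hbig2.trans hN.ha) (hN.hb.mono hbig2))
  have key := hAVG (Option (Fin k)) (Gf k M → F2) M 𝒯.X 𝒯.Y (𝒯.V p) (𝒯.cp p)
    (fun z y => 𝒯.W k (asm 𝒯.e p z y)) (fun z y => 𝒯.W (k + 1) (asm 𝒯.e p z y)) (𝒯.Ok p θ)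
    (tyf (𝒯.cp p) fun u w μ y => θ u w μ (fr y)) n κ (2 * (T' : ℝ)⁻¹) (min (ε / 2) 1) δ η hn hκ0
    (by positivity) hε'.le (min_le_right _ _) hδ0.le hη0
    (hx2.trans (mul_le_mul_of_nonneg_left (hxn.trans (le_self_pow₀ hn1 (by omega))) hη0.le))
    (fun z y h => h.1) (fun z y h => Stp.cp_of h.1) (fun z y h => Stp.cp_of h.1)
    (fun q hq => ⟨hq.inj, fun y _ h => by
      unfold tyf at h
      split_ifs at h with h'
      · exact h'.1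
      · exact absurd rfl h⟩)
    (fun U hU hV hc => by
      have h := h4 U hU hV δ x hδ0.le hc (one_pos.trans_le hx1') hxc
      have h2 : η * n ^ (M + 1) < (η * 2 - (k + 1) * (M + 1) ^ 2 / x) * n ^ (M + 1) :=
        mul_lt_mul_of_pos_right (by linarith only [hx1]) (pow_pos (one_pos.trans_le hn1) _)
      rw [hη, div_mul_cancel₀ _ (two_ne_zero)] at h2
      convert h2.trans_le h)
    (fun z π G b hb => by
      convert hosc z π G b hb using 1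
      refine sum_congr (by congr) fun q _ => ?_
      congr 1
      refine sum_congr rfl fun y _ => ?_
      congr)
    (fun q hq hok => by
      obtain ⟨B, hB, hB'⟩ := h1 M hM0 𝒯 p hp θ q hq hok
      exact ⟨B, by convert hB, fun y hy G hG ht => by convert hB' y hy G hG ht⟩)
  have hcp : ((Fintype.piFinset 𝒯.X ×ˢ 𝒯.Y).filter fun z => 𝒯.cp p z.1 z.2).card ≤
      ((Fintype.piFinset 𝒯.X ×ˢ 𝒯.Y).filter fun z => Leg (asm 𝒯.e p z.1 z.2) = 𝒯.a).card := by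
    refine card_le_card fun z hz => ?_
    obtain ⟨hz1, hz2⟩ := mem_filter.1 hz
    obtain ⟨hz3, hz4⟩ := mem_product.1 hz1
    exact mem_filter.2 ⟨hz1, Stp.leg_of hp (Fintype.mem_piFinset.1 hz3) hz4 hz2⟩
  have hcp' : 2 * min (ε / 2) 1 *
      (((Fintype.piFinset 𝒯.X ×ˢ 𝒯.Y).filter fun z => 𝒯.cp p z.1 z.2).card : ℝ) ≤
      ε * ((Fintype.piFinset 𝒯.X ×ˢ 𝒯.Y).filter fun z => Leg (asm 𝒯.e p z.1 z.2) = 𝒯.a).card :=
    mul_le_mul (by linarith only [min_le_left (ε / 2) 1]) (by exact_mod_cast hcp) (Nat.cast_nonneg _)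
      hε.le
  have hl : (δ + 8 * (M + 1) ^ Fintype.card (Option (Fin k)) * (2 * (T' : ℝ)⁻¹) / (κ * η)) * n *
      𝒯.Y.card ≤ (T : ℝ)⁻¹ * n * 𝒯.Y.card := by
    rw [Fintype.card_option, Fintype.card_fin]
    exact mul_le_mul_of_nonneg_right (mul_le_mul_of_nonneg_right hfin (zero_le_one.trans hn1))
      (Nat.cast_nonneg _)
  refine le_trans ?_ (add_le_add (add_le_add le_rfl hcp') hl)
  convert key

namespace TSTEP

variable {k K s : ℕ}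

theorem fib (hFIB : FIB) (𝒯 : Stp k s) (f : (Fin 𝒯.B.r → ℕ) → Prop) [i₁ : DecidablePred f]
    [i₂ : ∀ p, DecidablePred fun z : (Option (Fin k) → ℕ) × ℕ => f (asm 𝒯.e p z.1 z.2)] :
    ∑ p ∈ 𝒯.B.pts,
      (((Fintype.piFinset 𝒯.X ×ˢ 𝒯.Y).filter fun z => f (asm 𝒯.e p z.1 z.2)).card : ℝ) =
      (∏ i, ((𝒯.X i).card : ℝ)) * 𝒯.Y.card * (𝒯.B.pts.filter f).card := by
  have h : ∑ p ∈ 𝒯.B.pts,
      ((Fintype.piFinset 𝒯.X ×ˢ 𝒯.Y).filter fun z => f (asm 𝒯.e p z.1 z.2)).card =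
      (∏ i, (𝒯.X i).card) * 𝒯.Y.card * (𝒯.B.pts.filter f).card := by
    obtain rfl : i₁ = fun a => Classical.propDecidable _ := Subsingleton.elim _ _
    obtain rfl : i₂ = fun a b => Classical.propDecidable _ := Subsingleton.elim _ _
    exact hFIB (Option (Fin k)) 𝒯.B.r 𝒯.B.X 𝒯.e f
  exact_mod_cast h

/-- restriction to fewer coordinates -/
def res (𝒯 : Stp K s) (h : k ≤ K) : Stp k s where
  B := 𝒯.B
  Λ := 𝒯.Λ
  a := 𝒯.a
  e := ((Fin.castLEEmb h).optionMap.optionMap).trans 𝒯.e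
  φ := 𝒯.φ
  R := 𝒯.R
  sy := 𝒯.sy
  φ0 := 𝒯.φ0
  lo := fun β i => 𝒯.lo β (Fin.castLE h i)
  ra := 𝒯.ra
  rb := 𝒯.rb
  sel := 𝒯.sel

theorem num_res {𝒯 : Stp K s} (h : k ≤ K) {A A' T y₀ y₁ : ℕ} (hN : 𝒯.Num A T y₀ y₁)
    (hA : A' ≤ A) : (res 𝒯 h).Num A' T y₀ y₁ := by
  have h2 := hN.two
  have h1 : 0 < T * (𝒯.B.E + 2) * 2 ^ (𝒯.B.r + 𝒯.B.S.card + 2) := by positivity
  have h3 : 0 < y₁ := ((pow_pos h1 A).trans_le hN.big).trans_le hN.le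
  exact ⟨hN.two, (Nat.pow_le_pow_right h1 hA).trans hN.big, hN.le,
    fun o => hN.rich (o.map (Fin.castLE h)), fun o => hN.t0 (o.map (Fin.castLE h)),
    fun i => hN.low (Fin.castLE h i), (Nat.pow_le_pow_right h3 hA).trans hN.ha,
    (hN.hb.mono (Nat.pow_le_pow_right h3 hA)).imp id fun ⟨Z, z1, z2, z3⟩ =>
      ⟨Z, z1, fun o => z2 (o.map (Fin.castLE h)), z3⟩⟩

end TSTEP


theorem t_STEP (hFIB : FIB) (hSTP3 : STP3) : STEP := by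
  classical
  intro k s ε hk hε
  obtain ⟨A, hA⟩ := hSTP3 k s ε hk hε
  refine ⟨A, fun 𝒯 T y₀ y₁ hN => ?_⟩
  have h := sum_le_sum (hA 𝒯 T y₀ y₁ hN)
  rw [sum_add_distrib, sum_add_distrib, ← sum_div, ← mul_sum, sum_const, nsmul_eq_mul,
    TSTEP.fib hFIB 𝒯 (𝒯.W (k + 1)), TSTEP.fib hFIB 𝒯 (𝒯.W k),
    TSTEP.fib hFIB 𝒯 fun p => Leg p = 𝒯.a] at h
  obtain ⟨p, hp, -⟩ := 𝒯.sy
  have hX : ∀ i, (0 : ℝ) < (𝒯.B.X i).card := fun i =>
    Nat.cast_pos.2 (card_pos.2 ⟨p i, Fintype.mem_piFinset.1 hp i⟩)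
  have hn : 0 < (∏ i, ((𝒯.X i).card : ℝ)) * 𝒯.Y.card := mul_pos (prod_pos fun i _ => hX _) (hX _)
  refine le_of_mul_le_mul_left (h.trans_eq ?_) hn
  ring

theorem t_BX1 (hSTEP : STEP) : BX1 := by
  classical
  intro K s ε hε
  choose! A hA using fun k (hk : 2 ≤ k) => hSTEP k s (ε / 2) hk (half_pos hε)
  refine ⟨(range (K + 2)).sup A, fun 𝒯 T y₀ y₁ hN => ?_⟩
  have key : ∀ j ≤ K, ((𝒯.B.pts.filter (𝒯.W (j + 2))).card : ℝ) ≤
      ((2 ^ j)⁻¹ + ε) * (𝒯.B.pts.filter fun p => Leg p = 𝒯.a).card + 2 / T * 𝒯.B.pts.card := by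
    intro j
    induction j with
    | zero =>
      intro _
      have h1 : ((𝒯.B.pts.filter (𝒯.W (0 + 2))).card : ℝ) ≤
          (𝒯.B.pts.filter fun p => Leg p = 𝒯.a).card :=
        Nat.cast_le.2 (card_le_card fun p hp =>
          mem_filter.2 ⟨(mem_filter.1 hp).1, (mem_filter.1 hp).2.1⟩)
      have h2 : 0 ≤ ε * (𝒯.B.pts.filter fun p => Leg p = 𝒯.a).card := by positivity
      have h3 : 0 ≤ 2 / (T : ℝ) * 𝒯.B.pts.card := by positivity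
      rw [pow_zero, inv_one]
      linarith
    | succ j ih =>
      intro hj
      have h1 := ih (by omega)
      have h2 : ((𝒯.B.pts.filter (𝒯.W (j + 2 + 1))).card : ℝ) ≤
          (𝒯.B.pts.filter (𝒯.W (j + 2))).card / 2 +
          ε / 2 * (𝒯.B.pts.filter fun p => Leg p = 𝒯.a).card + (T : ℝ)⁻¹ * 𝒯.B.pts.card :=
        hA (j + 2) (by omega) (TSTEP.res 𝒯 (by omega)) T y₀ y₁
          (TSTEP.num_res _ hN (le_sup (f := A) (mem_range.2 (by omega))))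
      rw [pow_succ, mul_inv, div_eq_mul_inv 2] at *
      linarith
  convert key K le_rfl

omit [HA] in
theorem b_BX1 (hOZX : OZX) (hOGX : OGX) : BX1 :=
  t_BX1 (t_STEP a_FIB (t_STP3 a_AVG a_OZ hOZX a_OSCA (t_STP1 a_GRID t_STP0)
    (t_STP2 a_OG hOGX t_STP0) (t_STP4 a_SUP a_GOVX t_STP0) a_NUM))

end Pool.Agent.P.MP_8b7eba_nt.SM.X
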