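import Pool.Agent.P.MP_8b7eba_nt.R3.DGAM

/-! Proof of APX. -/

namespace Pool.Agent.P.MP_8b7eba_nt.R3

namespace DAPX

theorem inv_int {n : ℤ} (h : IsCoprime n 30) : n ≠ 0 ∧ (n : ℚ)⁻¹ ∈ RR := by
  refine ⟨fun e => by rw [e, isCoprime_zero_left] at h; revert h; decide, fun p hp k j => ?_⟩
  have : (p : ℤ) ∣ n := by
    have := Rat.den_dvd 1 n
    rw [Rat.divInt_eq_div, Int.cast_one, one_div] at this
    exact (Int.natCast_dvd_natCast.2 k).trans this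
  exact (Nat.prime_iff_prime_int.1 hp).not_isUnit
    (h.isUnit_of_dvd' this (by exact_mod_cast j))

theorem cop {y : ℚ} (h : y ∈ RR) : IsCoprime (y.den : ℤ) 30 :=
  Nat.isCoprime_iff_coprime.2 (Nat.coprime_of_dvd fun p hp a b => h p hp a b)

theorem unit {t : ℤ} {y : ℚ} (ht : IsCoprime t 30) (h : y ∈ RR) :
    t + 30 * y ≠ 0 ∧ (t + 30 * y)⁻¹ ∈ RR := by
  obtain ⟨a, b⟩ := inv_int ((ht.mul_left (cop h)).add_mul_left_left y.num)
  have d : (y.den : ℚ) ≠ 0 := Nat.cast_ne_zero.2 y.den_nz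
  have e : t + 30 * y = ((t * y.den + 30 * y.num : ℤ) : ℚ) / y.den := by
    push_cast
    rw [← Rat.mul_den_eq_num]
    field_simp
  rw [e, inv_div, div_eq_mul_inv (y.den : ℚ)]
  exact ⟨div_ne_zero (Int.cast_ne_zero.2 a) d, mul_mem (natCast_mem _ _) b⟩

theorem newton {t : ℤ} {r z : ℚ} (ht : IsCoprime t 30) (hz : z ∈ RR) (h : t ^ 2 - r = 120 * z)
    {M : ℕ} (hM : M ≠ 0) : ∃ x ∈ RR, ∃ y ∈ RR, (t + 60 * x) ^ 2 - r = 120 * M * y := by
  induction M using induction_on_primes with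
  | zero => exact absurd rfl hM
  | one => exact ⟨0, zero_mem _, z, hz, by simpa using h⟩
  | prime_mul q n hq ih =>
    obtain ⟨x, hx, y, hy, e⟩ := ih (right_ne_zero_of_mul hM)
    have q0 : (q : ℚ) ≠ 0 := Nat.cast_ne_zero.2 hq.ne_zero
    by_cases k : q ∣ 30
    · obtain ⟨s, k⟩ := k
      have k : (30 : ℚ) = q * s := by exact_mod_cast k
      obtain ⟨a, b⟩ := unit ht (mul_mem (natCast_mem RR 2) hx)
      obtain ⟨T, hT⟩ : ∃ T : ℚ, T = t + 30 * ((2 : ℕ) * x) := ⟨_, rfl⟩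
      rw [← hT] at a b
      have hn := natCast_mem RR n
      refine ⟨x - n * y * T⁻¹, sub_mem hx (mul_mem (mul_mem hn hy) b), s * n * (y * T⁻¹) ^ 2,
        mul_mem (mul_mem (natCast_mem _ _) hn) (pow_mem (mul_mem hy b) _), ?_⟩
      have i := mul_inv_cancel₀ a
      push_cast at hT ⊢
      linear_combination e + 120 * n * y * T⁻¹ * hT - 120 * n * y * i +
        120 * (n * y * T⁻¹) ^ 2 * k
    · refine ⟨x, hx, (1 : ℤ) / q * y, mul_mem (div_mem_Zl 1 fun p hp j =>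
        (Nat.prime_dvd_prime_iff_eq hp hq).1 j ▸ k) hy, ?_⟩
      rw [e]
      push_cast
      field_simp

end DAPX

open DAPX

theorem t_APX : APX := by
  intro δ a b n₁ n₃ t h1 ht ⟨w, hw⟩ hs e
  obtain ⟨n0, hn⟩ := inv_int h1
  have n0 : (n₁ : ℚ) ≠ 0 := Int.cast_ne_zero.2 n0
  have hw : (n₃ : ℚ) - t ^ 2 * n₁ = 120 * w := by exact_mod_cast hw
  obtain ⟨c, hc⟩ : ∃ c, c = 2 * (n₃ / n₁ - a ^ 2) := ⟨_, rfl⟩
  have c0 : c ≠ 0 := fun k => hs (Rat.isSquare_intCast_iff.1 ⟨n₁ * a, by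
    rw [k] at hc
    field_simp at hc
    push_cast
    linear_combination -n₁ / 2 * hc⟩)
  obtain ⟨x, hx, y, hy, f⟩ := newton (r := n₃ / n₁) ht (mul_mem (intCast_mem RR (-w)) hn) (by
    push_cast
    field_simp
    linear_combination -hw) (M := c.num.natAbs * a.den ^ 2 * b.den) (by
      simp [c0])
  obtain ⟨T, hT⟩ : ∃ T : ℚ, T = t + 60 * x := ⟨_, rfl⟩
  have mT : T ∈ RR := hT ▸ add_mem (intCast_mem _ _) (mul_mem (natCast_mem RR 60) hx)
  obtain ⟨s, ms, hs⟩ : ∃ s ∈ RR, (c.num.natAbs : ℚ) = s * c := by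
    refine ⟨c.num.sign * c.den, mul_mem (intCast_mem _ _) (natCast_mem _ _), ?_⟩
    rw [mul_assoc, Rat.den_mul_eq_num, ← Int.cast_mul, Int.sign_mul_self_eq_natAbs, Int.cast_natCast]
  obtain ⟨u, mu, hu⟩ : ∃ u ∈ RR, u = s * y * b.den * a.den :=
    ⟨_, mul_mem (mul_mem (mul_mem ms hy) (natCast_mem _ _)) (natCast_mem _ _), rfl⟩
  have mp : a.den * (T + a) ∈ RR := by
    rw [mul_add, Rat.den_mul_eq_num]
    exact add_mem (mul_mem (natCast_mem _ _) mT) (intCast_mem _ _)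
  have mm : a.den * (T - a) ∈ RR := by
    rw [mul_sub, Rat.den_mul_eq_num]
    exact sub_mem (mul_mem (natCast_mem _ _) mT) (intCast_mem _ _)
  obtain ⟨U0, mU⟩ := unit ht (add_mem (mul_mem (natCast_mem RR 2) hx)
    (mul_mem (mul_mem (natCast_mem RR 4) mu) mm))
  obtain ⟨U, hU⟩ : ∃ U : ℚ, U = t + 30 * ((2 : ℕ) * x + (4 : ℕ) * u * (a.den * (T - a))) := ⟨_, rfl⟩
  rw [← hU] at U0 mU
  obtain ⟨v, mv, hv⟩ : ∃ v ∈ RR, v = s * y * b.den * (a.den * (T + a)) * (a.den * (T - a)) * U⁻¹ :=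
    ⟨_, mul_mem (mul_mem (mul_mem (mul_mem (mul_mem ms hy) (natCast_mem _ _)) mp) mm) mU, rfl⟩
  refine ⟨T - 120 * v, 120 * (s * y * a.den * (b.den * b) * (a.den * (T + a)) * U⁻¹),
    t + 60 * x.num, ?_, ⟨2 * x.num, by ring⟩, ?_, ?_⟩
  · obtain ⟨η, hη⟩ : ∃ η : ℚ, η = 120 * u * a.den := ⟨_, rfl⟩
    have h1 : T ^ 2 - n₃ / n₁ = η * c := by
      rw [hT, f, hη, hu]
      push_cast
      rw [hs]
      ring
    have h2 : U = T + η * (T - a) := by
      rw [hU, hη]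
      push_cast
      linear_combination -hT
    have h3 : η * (T + a) * U⁻¹ * (T ^ 2 + n₃ / n₁ - 2 * a * T) = T ^ 2 - n₃ / n₁ := by
      linear_combination -η * U⁻¹ * T * hc + (η * U⁻¹ * (T - a) - 1) * h1 +
        η * c * mul_inv_cancel₀ U0 - η * c * U⁻¹ * h2
    rw [hη, hu] at h3
    rw [hv]
    linear_combination (120 * (s * y * b.den * a.den) * a.den * (T + a) * U⁻¹ - 1) * h3 +
      (120 * (s * y * b.den * a.den) * a.den * (T + a) * U⁻¹) ^ 2 * e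
  · obtain ⟨j, hj⟩ : Odd (x.den : ℤ) := Int.isCoprime_two_right.1
      ((cop hx).of_isCoprime_of_dvd_right (by norm_num))
    have hj : (x.den : ℚ) = 2 * j + 1 := by exact_mod_cast hj
    rw [show (T - 120 * v - (t + 60 * x.num : ℤ)) / 120 = -j * x - v by
      push_cast
      rw [hT, ← Rat.mul_den_eq_num, hj]
      ring]
    exact sub_mem (mul_mem (neg_mem (intCast_mem _ _)) hx) mv
  · rw [mul_div_cancel_left₀ _ (by norm_num), Rat.den_mul_eq_num]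
    exact mul_mem (mul_mem (mul_mem (mul_mem (mul_mem ms hy) (natCast_mem _ _)) (intCast_mem _ _))
      mp) mU

end Pool.Agent.P.MP_8b7eba_nt.R3
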