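import Pool.Agent.P.MP_8b7eba_nt.R3.DBaseK

/-! Explicit central values. -/

namespace Pool.Agent.P.MP_8b7eba_nt.R3.DBase

theorem c_1 : Chk 1 [] [[17], [19], [23], [31], [53], [61], [83], [241]] := by
  decide +kernel

theorem c_m1 : Chk (-1) [] [[19], [23], [31], [53], [61], [83], [113], [409]] := by
  decide +kernel

theorem c_2 : Chk 2 [] [[19], [23], [53], [61], [83], [113], [151], [241]] := by
  decide +kernel

theorem c_m2 : Chk (-2) [] [[17], [23], [31], [61], [7, 11], [83], [7, 13], [241]] := by
  decide +kernel

theorem c_3 : Chk 3 [3] [[11], [13], [17], [19], [31], [71], [97], [173]] := by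
  decide +kernel

theorem c_m3 : Chk (-3) [3] [[7], [23], [29], [41], [43], [83], [109], [241]] := by
  decide +kernel

theorem c_5 : Chk 5 [5] [[7], [13], [31], [43], [61], [73], [7, 13], [241]] := by
  decide +kernel

theorem c_m5 : Chk (-5) [5] [[7], [19], [31], [37], [43], [73], [181], [241]] := by
  decide +kernel

theorem c_6 : Chk 6 [3] [[7], [41], [61], [67], [101], [107], [167], [13, 37]] := by
  decide +kernel

theorem c_m6 : Chk (-6) [3] [[11], [13], [17], [19], [53], [71], [73], [79]] := by
  decide +kernel

theorem c_10 : Chk 10 [5] [[11], [17], [23], [29], [41], [53], [83], [7, 17]] := by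
  decide +kernel

theorem c_m10 : Chk (-10) [5] [[11], [17], [23], [29], [53], [71], [89], [107]] := by
  decide +kernel

end Pool.Agent.P.MP_8b7eba_nt.R3.DBase
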