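import Pool.Agent.P.MP_8b7eba_nt.R3.IfD

/-! A fast evaluator for twisted central values modulo 13. -/

namespace Pool.Agent.P.MP_8b7eba_nt.R3.DBase

open _root_.Pool.Agent.P.MP_8b7eba_nt.Mod (M2 L0 om lv tp tm msym msym_table idx_emod lv_mul lv_zero
  coeff_eq)
open R1 (st)
open BSD15 (Adm)
open Finset

noncomputable section

def TA : ℕ := 319221576647552035827855086197205057045631785440203909419758846775162047961309374697579449406449719278952704332518019382872495190679686660485665667888168633163523452158817871209632176733297722221879892469827106651643001927389677499318610584754626283501774803511832285457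

def TB : ℕ := 138528888917447856764836660227854161930410111183794017267972683868565519430912260758723798514531003117408655912226864390280045546767826508747581087630461033926110176678032322434219843786817886218258411578887292061803553221350166417707479286410344175069833755441488514252

/-- table lookup -/
def lk (T c d : ℕ) : ℕ := Nat.mod (Nat.shiftRight T (Nat.mul 4 (Nat.add (Nat.mul 15 c) d))) 16

/-- evaluate the argument first -/
def frc (x : ℕ) (f : ℕ → ℕ) : ℕ := Nat.rec (f 0) (fun y _ => f (Nat.succ y)) x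

theorem frc_eq (x : ℕ) (f : ℕ → ℕ) : frc x f = f x := by cases x <;> rfl

/-- case distinction -/
def cz (x a : ℕ) (f : ℕ → ℕ) : ℕ := Nat.rec a (fun y _ => f (Nat.succ y)) x

theorem cz_eq (x a : ℕ) (f : ℕ → ℕ) : cz x a f = if x = 0 then a else f x := by
  cases x <;> simp [cz]

/-- continued fractions -/
def cf (k : ℕ) : ℕ → ℕ → ℕ → ℕ → ℕ :=
  Nat.rec (fun _ _ _ _ => 0) (fun _ ih c d x y =>
    frc (Nat.mod (Nat.add d (Nat.mul (Nat.div x y) c)) 15) fun d' =>
      cz (Nat.mod x y) (lk TA c d') fun r =>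
        frc (Nat.mod (Nat.add c (Nat.mul (Nat.div y r) d')) 15) fun c' =>
          Nat.add (Nat.add (lk TA c d') (lk TB c' d')) (cz (Nat.mod y r) 0 fun s => ih c' d' r s)) k

theorem cf_succ (k c d x y : ℕ) : cf (k + 1) c d x y =
    if x % y = 0 then lk TA c ((d + x / y * c) % 15) else
      lk TA c ((d + x / y * c) % 15) +
        lk TB ((c + y / (x % y) * ((d + x / y * c) % 15)) % 15) ((d + x / y * c) % 15) +
        if y % (x % y) = 0 then 0 else
          cf k ((c + y / (x % y) * ((d + x / y * c) % 15)) % 15) ((d + x / y * c) % 15) (x % y)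
            (y % (x % y)) := by
  have e : cf (k + 1) c d x y = frc ((d + x / y * c) % 15) fun d' =>
      cz (x % y) (lk TA c d') fun r => frc ((c + y / r * d') % 15) fun c' =>
        lk TA c d' + lk TB c' d' + cz (y % r) 0 fun s => cf k c' d' r s := rfl
  simp only [e, frc_eq, cz_eq]

theorem tab : ∀ c < 15, ∀ d < 15, ((lk TA c d : ℕ) : ZMod 13) = ((tp c d + tm c d : ℤ) : ZMod 13) ∧
    ((lk TB c d : ℕ) : ZMod 13) = -((tp c d + tm c d : ℤ) : ZMod 13) := by
  decide +kernel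

theorem tab' {c d : ℕ} {C D : ℤ} (hc : (c : ℤ) = C % 15) (hd : (d : ℤ) = D % 15) :
    ((lk TA c d : ℕ) : ZMod 13) = ((tp C D + tm C D : ℤ) : ZMod 13) ∧
    ((lk TB c d : ℕ) : ZMod 13) = -((tp C D + tm C D : ℤ) : ZMod 13) := by
  have h := tab c (by omega) d (by omega)
  rw [hc, hd, tp, tm, ← idx_emod] at h
  exact h

theorem cf_spec (k : ℕ) : ∀ (g : M2) (c d x y : ℕ), g.det = 1 → 0 < y → y < k →
    (c : ℤ) = g.c % 15 → (d : ℤ) = g.d % 15 → ∃ p m : ℤ,
      lv (g.a * x + g.b * y) (g.c * x + g.d * y) = lv g.a g.c + (p * L0 + m * om * Complex.I) ∧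
      ((cf k c d x y : ℕ) : ZMod 13) = ((p + m : ℤ) : ZMod 13) := by
  induction k with
  | zero => intro _ _ _ _ _ _ _ h; omega
  | succ k ih =>
    intro g c d x y hg hy hk hc hd
    rw [cf_succ]
    have h3 : (x : ℤ) = (x % y : ℕ) + y * (x / y : ℕ) := by exact_mod_cast (Nat.mod_add_div x y).symm
    have hlt := Nat.mod_lt x hy
    generalize x / y = q at *
    generalize x % y = r at *
    have hd' : (((d + q * c) % 15 : ℕ) : ℤ) = (g.d + q * g.c) % 15 := by
      push_cast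
      rw [hc, hd, Int.add_emod, Int.mul_emod, Int.emod_emod_of_dvd _ dvd_rfl,
        Int.emod_emod_of_dvd _ dvd_rfl, ← Int.mul_emod, ← Int.add_emod]
    generalize (d + q * c) % 15 = d' at *
    have m1 := msym_table (g := ⟨g.a, g.b + q * g.a, g.c, g.d + q * g.c⟩)
      (by rw [← hg]; simp [M2.det]; ring)
    have t1 := (tab' hc hd').1
    simp only [msym] at m1
    split_ifs with h0 h1
    · refine ⟨_, _, ?_, t1⟩
      have y0 : (y : ℤ) ≠ 0 := by omega
      rw [show g.a * x + g.b * y = y * (g.b + q * g.a) by rw [h3, h0]; push_cast; ring,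
        show g.c * x + g.d * y = y * (g.d + q * g.c) by rw [h3, h0]; push_cast; ring, lv_mul y0]
      linear_combination m1
    all_goals
      have h4 : (y : ℤ) = (y % r : ℕ) + r * (y / r : ℕ) := by
        exact_mod_cast (Nat.mod_add_div y r).symm
      have hlt' := Nat.mod_lt y (Nat.pos_of_ne_zero h0)
      generalize y / r = q' at *
      generalize y % r = s at *
      have hc' : (((c + q' * d') % 15 : ℕ) : ℤ) = (g.c + q' * (g.d + q * g.c)) % 15 := by
        push_cast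
        rw [hc, hd', Int.add_emod, Int.mul_emod, Int.emod_emod_of_dvd _ dvd_rfl,
          Int.emod_emod_of_dvd _ dvd_rfl, ← Int.mul_emod, ← Int.add_emod]
      generalize (c + q' * d') % 15 = c' at *
      have hg' : M2.det ⟨g.a + q' * (g.b + q * g.a), g.b + q * g.a, g.c + q' * (g.d + q * g.c),
          g.d + q * g.c⟩ = 1 := by rw [← hg]; simp [M2.det]; ring
      have m2 := msym_table hg'
      have t2 := (tab' hc' hd').2
      simp only [msym] at m2
      have ea : g.a * x + g.b * y = (g.a + q' * (g.b + q * g.a)) * r + (g.b + q * g.a) * s := by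
        rw [h3, h4]; ring
      have ec : g.c * x + g.d * y = (g.c + q' * (g.d + q * g.c)) * r + (g.d + q * g.c) * s := by
        rw [h3, h4]; ring
    · have r0 : (r : ℤ) ≠ 0 := by omega
      refine ⟨tp g.c (g.d + q * g.c) - tp (g.c + q' * (g.d + q * g.c)) (g.d + q * g.c),
        tm g.c (g.d + q * g.c) - tm (g.c + q' * (g.d + q * g.c)) (g.d + q * g.c), ?_, ?_⟩
      · rw [ea, ec, h1, Nat.cast_zero, mul_zero, mul_zero, add_zero, add_zero, mul_comm _ (r : ℤ),
          mul_comm _ (r : ℤ), lv_mul r0]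
        push_cast
        linear_combination m1 - m2
      · rw [Nat.cast_add, Nat.cast_add, t1, t2]
        push_cast
        ring
    · obtain ⟨p, m, e1, e2⟩ := ih _ c' d' r s hg' (Nat.pos_of_ne_zero h1) (by omega) hc' hd'
      refine ⟨tp g.c (g.d + q * g.c) - tp (g.c + q' * (g.d + q * g.c)) (g.d + q * g.c) + p,
        tm g.c (g.d + q * g.c) - tm (g.c + q' * (g.d + q * g.c)) (g.d + q * g.c) + m, ?_, ?_⟩
      · rw [ea, ec, e1]
        push_cast
        linear_combination m1 - m2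
      · rw [Nat.cast_add, Nat.cast_add, t1, t2, e2]
        push_cast
        ring

theorem cf_lv (x y : ℕ) (hy : 0 < y) : ∃ p m : ℤ, lv x y = p * L0 + m * om * Complex.I ∧
    ((cf (Nat.succ y) 0 1 x y : ℕ) : ZMod 13) = ((p + m : ℤ) : ZMod 13) := by
  obtain ⟨p, m, e1, e2⟩ := cf_spec (y + 1) 1 0 1 x y rfl hy (by omega) rfl rfl
  exact ⟨p, m, by simpa using e1, e2⟩

/-- product of Legendre symbols, by the criterion of Euler -/
def jl (L : List ℕ) (c z : ℕ) : ℕ :=
  List.rec z (fun p _ ih => cz (Nat.mod (Nat.pow (Nat.mod c p) (Nat.div p 2)) p) 0 fun v =>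
    cz (Nat.pred v) ih fun _ => Nat.mul 12 ih) L

/-- odd primes -/
def Pr (p : ℕ) : Prop := 2 < p ∧ ∀ q < p, 2 ≤ q → p % q ≠ 0

instance (p : ℕ) : Decidable (Pr p) := by unfold Pr; infer_instance

theorem Pr.prime {p : ℕ} (h : Pr p) : p.Prime :=
  Nat.prime_def_lt'.2 ⟨h.1.le, fun m h1 h2 h3 => h.2 m h2 h1 (Nat.mod_eq_zero_of_dvd h3)⟩

theorem jl_spec (c z : ℕ) : ∀ L : List ℕ, (∀ p ∈ L, Pr p) →
    ((jl L c z : ℕ) : ZMod 13) = (jacobiSym c L.prod : ZMod 13) * z
  | [], _ => by simp [jl]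
  | p :: L, h => by
    have hp := h p (by simp)
    have hL : ∀ q ∈ L, Pr q := fun q hq => h q (by simp [hq])
    have ih := jl_spec c z L hL
    have : Fact p.Prime := ⟨hp.prime⟩
    have p2 := hp.1
    have n0 : L.prod ≠ 0 := List.prod_ne_zero fun h0 => (hL 0 h0).prime.ne_zero rfl
    have e : jl (p :: L) c z = if (c % p) ^ (p / 2) % p = 0 then 0 else
        if (c % p) ^ (p / 2) % p - 1 = 0 then jl L c z else 12 * jl L c z := by
      have e : jl (p :: L) c z = cz ((c % p) ^ (p / 2) % p) 0 fun v =>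
        cz (v - 1) (jl L c z) fun _ => 12 * jl L c z := rfl
      simp only [e, cz_eq]
    have eu : (((c % p) ^ (p / 2) % p : ℕ) : ZMod p) = (legendreSym p c : ZMod p) := by
      rw [legendreSym.eq_pow]
      simp
    have lt : (c % p) ^ (p / 2) % p < p := Nat.mod_lt _ (by omega)
    rw [e, List.prod_cons, jacobiSym.mul_right' _ hp.prime.ne_zero n0,
      ← jacobiSym.legendreSym.to_jacobiSym]
    generalize (c % p) ^ (p / 2) % p = v at *
    have inj : ∀ w < p, (v : ZMod p) = (w : ℕ) → v = w := fun w hw h1 => by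
      have := (ZMod.natCast_eq_natCast_iff' v w p).1 h1
      rwa [Nat.mod_eq_of_lt lt, Nat.mod_eq_of_lt hw] at this
    by_cases h0 : ((c : ℤ) : ZMod p) = 0
    · have l0 := (legendreSym.eq_zero_iff p c).2 h0
      rw [l0] at eu ⊢
      rw [if_pos (inj 0 (by omega) (by simpa using eu))]
      simp
    · rcases legendreSym.eq_one_or_neg_one p h0 with l1 | l1
      · rw [l1] at eu ⊢
        have := inj 1 (by omega) (by simpa using eu)
        rw [if_neg (by omega), if_pos (by omega), ih]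
        simp
      · rw [l1] at eu ⊢
        have := inj (p - 1) (by omega) (by
          rw [eu, Nat.cast_sub (by omega)]
          simp)
        rw [if_neg (by omega), if_neg (by omega), Nat.cast_mul, ih]
        have : ((12 : ℕ) : ZMod 13) = -1 := by decide
        rw [this]
        push_cast
        ring

/-- multiplication by an integer -/
def sg (s : ℤ) (z : ℕ) : ℕ := cz (s % 13).toNat 0 fun v => Nat.mul v z

theorem sg_spec (s : ℤ) (z : ℕ) : ((sg s z : ℕ) : ZMod 13) = (s : ZMod 13) * z := by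
  have e : (((s % 13).toNat : ℕ) : ZMod 13) = (s : ZMod 13) := by
    have h : (((s % 13).toNat : ℕ) : ℤ) = s % 13 := by omega
    rw [← Int.cast_natCast, h]
    exact ZMod.intCast_mod s 13
  rw [sg, cz_eq]
  split_ifs with h
  · rw [← e, h]; simp
  · rw [← e, ← Nat.cast_mul]; rfl

/-- finite sums -/
def sm (f : ℕ → ℕ) (n : ℕ) : ℕ := Nat.rec 0 (fun j acc => Nat.add (f j) acc) n

theorem sm_eq (f : ℕ → ℕ) (n : ℕ) : sm f n = ∑ j ∈ range n, f j := by
  induction n with
  | zero => rfl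
  | succ n ih => rw [sum_range_succ, ← ih]; exact Nat.add_comm _ _

/-- the central value modulo 13 -/
def SV (d₀ : ℤ) (L₀ L : List ℕ) : ℕ :=
  frc (cd d₀) fun A => frc L.prod fun n => frc (Nat.mul A n) fun N =>
    sm (fun i => sg (c2 (e2 d₀) i) (jl L₀ i (sm (fun j => frc (Nat.add (Nat.mul j A) i) fun c =>
      jl L c (cf (Nat.succ N) 0 1 c N)) n))) A

theorem sum_two {R : Type} [AddCommMonoid R] (f : ℕ → R) (A n : ℕ) :
    ∑ c ∈ range (A * n), f c = ∑ i ∈ range A, ∑ j ∈ range n, f (j * A + i) := by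
  rw [sum_comm]
  induction n with
  | zero => simp
  | succ n ih => rw [Nat.mul_succ, sum_range_add, ih, sum_range_succ, mul_comm A n]

theorem st_abs (n : ℕ) : (st n).natAbs = n := by
  unfold st
  split_ifs <;> simp

theorem lam_ne (hKC : KC) {d₀ : ℤ} {L₀ L : List ℕ} (h0 : D0 d₀) (hn : Adm L.prod)
    (hL₀ : ∀ p ∈ L₀, Pr p) (hL : ∀ p ∈ L, Pr p) (ho : od d₀ = L₀.prod)
    (h : SV d₀ L₀ L % 13 ≠ 0) : Lam (d₀ * st L.prod) ≠ 0 := by
  intro hz
  obtain ⟨-, -, -, t1, t2, -⟩ := hKC.tw d₀ L.prod h0 hn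
  have hN : cd (d₀ * st L.prod) = cd d₀ * L.prod := by rw [cd, t1, Int.natAbs_mul, st_abs, cd]
  have A0 : 0 < cd d₀ := by
    have := h0.sq.ne_zero
    unfold cd ds
    split_ifs <;> omega
  have N0 : 0 < cd d₀ * L.prod := Nat.mul_pos A0 (Nat.pos_of_ne_zero hn.1.ne_zero)
  choose p m e1 e2 using fun x => cf_lv x _ N0
  rw [Lam, hN] at hz
  have hz' : ((∑ c ∈ range (cd d₀ * L.prod), kc (d₀ * st L.prod) c * p c : ℤ) : ℂ) * L0 +
      ((∑ c ∈ range (cd d₀ * L.prod), kc (d₀ * st L.prod) c * m c : ℤ) : ℂ) * om * Complex.I =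
      ((0 : ℤ) : ℂ) * L0 + ((0 : ℤ) : ℂ) * om * Complex.I := by
    rw [Int.cast_zero, zero_mul, zero_mul, zero_mul, add_zero, ← hz]
    push_cast at e1 ⊢
    simp only [e1, sum_mul, ← sum_add_distrib]
    exact sum_congr rfl fun c _ => by ring
  obtain ⟨z1, z2⟩ := coeff_eq hz'
  apply h
  rw [← Nat.dvd_iff_mod_eq_zero, ← ZMod.natCast_eq_zero_iff]
  have z3 : ((∑ c ∈ range (cd d₀ * L.prod), kc (d₀ * st L.prod) c * (p c + m c) : ℤ) : ZMod 13) = 0 := by
    simp only [mul_add, sum_add_distrib, z1, z2]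
    simp
  rw [← z3, sum_two, SV]
  simp only [frc_eq, sm_eq, Nat.cast_sum, Int.cast_sum]
  refine sum_congr rfl fun i _ => ?_
  rw [sg_spec, jl_spec _ _ _ hL₀, Nat.cast_sum, mul_sum, mul_sum]
  refine sum_congr rfl fun j _ => ?_
  have per : kc d₀ ((j * cd d₀ + i : ℕ) : ℤ) = kc d₀ i := hKC.per d₀ _ _ h0.sq (by
    push_cast
    rw [add_sub_cancel_right, cd]
    exact (Int.dvd_natAbs.2 dvd_rfl).mul_left _)
  rw [jl_spec _ _ _ hL, t2, per, kc, ho]
  have e3 := e2 (j * cd d₀ + i)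
  change _ * (_ * (_ * ((cf (Nat.succ (cd d₀ * L.prod)) 0 1 (j * cd d₀ + i) (cd d₀ * L.prod) : ℕ) :
    ZMod 13))) = _
  rw [e3]
  change _ * (_ * (((jacobiSym ((j * cd d₀ + i : ℕ) : ℤ) L.prod : ℤ) : ZMod 13) * _)) = _
  push_cast
  ring

/-- the root number as a function of the residue modulo 120 -/
def rr (d₀ : ℤ) (r : ℕ) : ℤ :=
  d₀.sign * (if r % 4 = 1 then 1 else -1) *
    (if 3 ∣ d₀ then 1 else if d₀ * st r % 3 = 1 then 1 else -1) *
    (if 5 ∣ d₀ then -1 else if d₀ * st r % 5 = 1 ∨ d₀ * st r % 5 = 4 then 1 else -1)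

theorem j3 {x : ℤ} (h : ¬ 3 ∣ x) : jacobiSym x 3 = if x % 3 = 1 then 1 else -1 := by
  rw [jacobiSym.mod_left]
  have : x % 3 = 1 ∨ x % 3 = 2 := by omega
  rcases this with e | e <;> rw [Nat.cast_ofNat, e] <;> norm_num

theorem j5 {x : ℤ} (h : ¬ 5 ∣ x) : jacobiSym x 5 = if x % 5 = 1 ∨ x % 5 = 4 then 1 else -1 := by
  rw [jacobiSym.mod_left]
  have : x % 5 = 1 ∨ x % 5 = 2 ∨ x % 5 = 3 ∨ x % 5 = 4 := by omega
  rcases this with e | e | e | e <;> rw [Nat.cast_ofNat, e] <;> norm_num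

theorem st_mod (m : ℕ) : (120 : ℤ) ∣ st m - st (m % 120) := by
  unfold st
  split_ifs <;> omega

theorem rn_eq (d₀ : ℤ) {m : ℕ} (hm : m.Coprime 30) : rn (d₀ * st m) = rr d₀ (m % 120) := by
  have m2 : ¬ 2 ∣ m := fun h => by
    have := Nat.eq_one_of_dvd_coprimes hm h (by norm_num); omega
  have m3 : ¬ 3 ∣ m := fun h => by
    have := Nat.eq_one_of_dvd_coprimes hm h (by norm_num); omega
  have m5 : ¬ 5 ∣ m := fun h => by
    have := Nat.eq_one_of_dvd_coprimes hm h (by norm_num); omega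
  have s3 : ¬ (3 : ℤ) ∣ st m := by unfold st; split_ifs <;> omega
  have s5 : ¬ (5 : ℤ) ∣ st m := by unfold st; split_ifs <;> omega
  have sg : (st m).sign = if m % 120 % 4 = 1 then 1 else -1 := by
    rw [Nat.mod_mod_of_dvd _ (by norm_num)]
    unfold st
    split_ifs
    · exact Int.sign_eq_one_of_pos (by omega)
    · exact Int.sign_eq_neg_one_of_neg (by omega)
  have d3 : 3 ∣ d₀ * st m ↔ 3 ∣ d₀ :=
    ⟨fun h => (Int.prime_three.dvd_or_dvd h).resolve_right s3, fun h => h.mul_right _⟩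
  have p5 : Prime (5 : ℤ) := Int.prime_iff_natAbs_prime.2 (by norm_num)
  have d5 : 5 ∣ d₀ * st m ↔ 5 ∣ d₀ :=
    ⟨fun h => (p5.dvd_or_dvd h).resolve_right s5, fun h => h.mul_right _⟩
  obtain ⟨k, hk⟩ := st_mod m
  have e : d₀ * st m = d₀ * st (m % 120) + 120 * (d₀ * k) := by linear_combination d₀ * hk
  have e3 : d₀ * st m % 3 = d₀ * st (m % 120) % 3 := by omega
  have e5 : d₀ * st m % 5 = d₀ * st (m % 120) % 5 := by omega
  rw [rn, rr, Int.sign_mul, sg, ← e3, ← e5]
  congr 1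
  · congr 1
    simp only [d3]
    by_cases h : 3 ∣ d₀
    · rw [if_pos h, if_pos h]
    · rw [if_neg h, if_neg h, j3 (mt d3.1 h)]
  · simp only [d5]
    by_cases h : 5 ∣ d₀
    · rw [if_pos h, if_pos h]
    · rw [if_neg h, if_neg h, j5 (mt d5.1 h)]

/-- squarefree numbers prime to thirty -/
def Ad (n : ℕ) : Prop := 1 < n ∧ n.Coprime 30 ∧ ∀ x < n + 1, 2 ≤ x → n % (x * x) ≠ 0

instance (n : ℕ) : Decidable (Ad n) := by unfold Ad; infer_instance

theorem Ad.adm {n : ℕ} (h : Ad n) : Adm n :=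
  ⟨Nat.squarefree_iff_prime_squarefree.2 fun x hx hd => h.2.2 x
    (Nat.lt_succ_of_le (Nat.le_of_dvd (by have := h.1; omega) ((dvd_mul_right x x).trans hd)))
    hx.two_le (Nat.mod_eq_zero_of_dvd hd), h.2.1⟩

/-- the finite check -/
def Chk (d₀ : ℤ) (L₀ : List ℕ) (Ls : List (List ℕ)) : Prop :=
  (∀ p ∈ L₀, Pr p) ∧ od d₀ = L₀.prod ∧
  (∀ r < 120, r.Coprime 30 → rr d₀ r = 1 →
    ∃ L ∈ Ls, L.prod % 120 = r ∨ L.prod % 120 = 49 * r % 120) ∧
  ∀ L ∈ Ls, Ad L.prod ∧ (∀ p ∈ L, Pr p) ∧ SV d₀ L₀ L % 13 ≠ 0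

instance (d₀ : ℤ) (L₀ : List ℕ) (Ls : List (List ℕ)) : Decidable (Chk d₀ L₀ Ls) := by
  unfold Chk; infer_instance

theorem base_of (hKC : KC) {d₀ : ℤ} {L₀ : List ℕ} {Ls : List (List ℕ)} (h : Chk d₀ L₀ Ls)
    (h0 : D0 d₀) : Base d₀ := by
  intro m hm hr
  obtain ⟨h1, h2, h3, h4⟩ := h
  rw [rn_eq d₀ hm] at hr
  have hc : (m % 120).Coprime 30 := by
    rw [Nat.Coprime, Nat.gcd_comm, Nat.gcd_rec, Nat.mod_mod_of_dvd _ (by norm_num),
      ← Nat.gcd_rec, Nat.gcd_comm]
    exact hm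
  obtain ⟨L, hL, e⟩ := h3 _ (Nat.mod_lt _ (by norm_num)) hc hr
  obtain ⟨a1, a2, a3⟩ := h4 L hL
  refine ⟨L.prod, a1.adm, a1.1, ⟨by omega, ?_⟩, lam_ne hKC h0 a1.adm h1 a2 h2 a3⟩
  generalize L.prod = n at e
  rcases e with e | e
  · refine ⟨1, isCoprime_one_left, ?_⟩
    unfold st
    split_ifs <;> omega
  · refine ⟨7, ⟨13, -3, by norm_num⟩, ?_⟩
    unfold st
    split_ifs <;> omega

end

end Pool.Agent.P.MP_8b7eba_nt.R3.DBase
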