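import Pool.Agent.P.MP_8b7eba_nt.R3.IfD

/-! Proof of FAC and CSE. -/

namespace Pool.Agent.P.MP_8b7eba_nt.R3

open MulAction Function

theorem finsum_prod_mul {A B : Type} (a : A → ℤ) (b : B → ℤ) :
    ∑ᶠ x : A × B, a x.1 * b x.2 = (∑ᶠ x, a x) * ∑ᶠ y, b y := by
  have hs : support (fun x : A × B => a x.1 * b x.2) = support a ×ˢ support b := by
    ext x
    simp
  by_cases h : (support a).Finite ∧ (support b).Finite
  · rw [finsum_eq_sum _ h.1, finsum_eq_sum _ h.2, Finset.sum_mul_sum, ← Finset.sum_product',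
      finsum_eq_sum_of_support_subset]
    rw [hs]
    simp
  by_cases ha : support a = ∅
  · simp [support_eq_empty_iff.1 ha]
  by_cases hb : support b = ∅
  · simp [support_eq_empty_iff.1 hb]
  rw [finsum_of_infinite_support (hs ▸ fun k => h ⟨k.of_prod_left (Set.nonempty_iff_ne_empty.2 hb),
    k.of_prod_right (Set.nonempty_iff_ne_empty.2 ha)⟩)]
  rcases not_and_or.1 h with h | h
  · rw [finsum_of_infinite_support h, zero_mul]
  · rw [finsum_of_infinite_support h, mul_zero]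

variable {G X : Type} [Group G] [MulAction G X]

theorem orb_eq {H : Subgroup G} {x y : X} :
    (Quotient.mk _ x : orbitRel.Quotient H X) = Quotient.mk _ y ↔ ∃ h ∈ H, h • y = x := by
  rw [Quotient.eq, orbitRel_apply, mem_orbit_iff]
  exact ⟨fun ⟨h, e⟩ => ⟨h, h.2, e⟩, fun ⟨h, k, e⟩ => ⟨⟨h, k⟩, e⟩⟩

theorem Iv.out {H : Subgroup G} {f : X → ℤ} (hf : Iv H f) (x : X) :
    f (Quotient.mk _ x : orbitRel.Quotient H X).out = f x := by
  obtain ⟨h, k, e⟩ := orb_eq.1 (Quotient.out_eq (Quotient.mk _ x : orbitRel.Quotient H X))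
  rw [← e, hf h k]

theorem t_FAC : FAC := by
  intro G X _ _ H K Y f f' h1 h2 h3 h4 h5 h6 h7 h8
  let φ : orbitRel.Quotient (H ⊓ K :) X → orbitRel.Quotient K X × orbitRel.Quotient H X :=
    fun o => (Quotient.mk _ o.out, Quotient.mk _ o.out)
  let F : orbitRel.Quotient K X × orbitRel.Quotient H X → ℤ := fun x => f x.1.out * f' x.2.out
  have e : ∀ o, (f * f') o.out = F (φ o) := fun o => by
    simp only [F, φ, h7.out, h8.out, Pi.mul_apply]
  have hb : Set.BijOn φ (support fun o => (f * f') o.out) (support F) := by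
    refine ⟨fun o ho => by rwa [mem_support, ← e], fun o ho o' _ k => ?_, fun x hx => ?_⟩
    · obtain ⟨k, k1, k2⟩ := orb_eq.1 (congrArg Prod.fst k).symm
      obtain ⟨h, k3, k4⟩ := orb_eq.1 (congrArg Prod.snd ‹_›).symm
      have := (h3 _ (h⁻¹ * k) (h5 _ (left_ne_zero_of_mul ho)) (by
        rw [mul_smul, k2, ← k4, inv_smul_smul])).1
      rw [← o.out_eq, ← o'.out_eq, eq_comm]
      exact orb_eq.2 ⟨k, ⟨(H.mul_mem_cancel_left (H.inv_mem k3)).1 this, k1⟩, k2⟩
    · obtain ⟨g, hg⟩ := h2 _ _ (h5 _ (left_ne_zero_of_mul hx)) (h6 _ (right_ne_zero_of_mul hx))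
      obtain ⟨h, k1, k, k2, rfl⟩ := h1 g
      obtain ⟨j, j1, j2⟩ := orb_eq.1 (Quotient.out_eq
        (Quotient.mk _ (k • x.1.out) : orbitRel.Quotient (H ⊓ K :) X))
      have : φ (Quotient.mk _ (k • x.1.out)) = x := by
        refine Prod.ext ?_ ?_
        · rw [← x.1.out_eq]
          exact orb_eq.2 ⟨j * k, K.mul_mem j1.2 k2, by rw [mul_smul, Quotient.out_eq, j2]⟩
        · rw [← x.2.out_eq]
          refine orb_eq.2 ⟨j * h⁻¹, H.mul_mem j1.1 (H.inv_mem k1), ?_⟩
          rw [mul_smul, ← hg, mul_smul, inv_smul_smul, j2]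
      exact ⟨_, by rw [mem_support, e, this]; exact hx, this⟩
  refine ⟨?_, fun hf ⟨x, x1, x2⟩ h0 => ?_⟩
  · rw [cs, cs, cs, ← finsum_prod_mul, ← finsum_mem_support, ← finsum_mem_support F]
    exact finsum_mem_eq_of_bijOn φ hb fun o _ => e o
  · have k : (support fun o : orbitRel.Quotient H X => f' o.out).Finite :=
      Set.Finite.of_finite_image (f := fun o => ((Quotient.mk _ x : orbitRel.Quotient K X), o))
        ((hb.image_eq ▸ hf.image φ).subset (by
          rintro _ ⟨o, ho, rfl⟩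
          exact mul_ne_zero (by rwa [h7.out]) ho)) fun _ _ _ _ k => congrArg Prod.snd k
    exact (finsum_pos (fun o => h0 _) ⟨Quotient.mk _ x, by
      rw [h8.out]; exact (h0 x).lt_of_ne' x2⟩ k).ne'

theorem t_CSE : CSE := by
  intro G X _ _ H e f k h1 h2
  let φ : orbitRel.Quotient H X → orbitRel.Quotient H X := fun o => Quotient.mk _ (e o.out)
  have hb : Bijective φ := by
    refine ⟨fun o o' k => ?_, fun o => ⟨Quotient.mk _ (e.symm o.out), ?_⟩⟩
    · obtain ⟨h, k1, k2⟩ := orb_eq.1 k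
      rw [← o.out_eq, ← o'.out_eq]
      exact orb_eq.2 ⟨h, k1, e.injective (by rw [h1, k2])⟩
    · obtain ⟨j, j1, j2⟩ := orb_eq.1 (Quotient.out_eq
        (Quotient.mk _ (e.symm o.out) : orbitRel.Quotient H X))
      conv_rhs => rw [← o.out_eq]
      exact orb_eq.2 ⟨j, j1, by rw [← j2, h1, e.apply_symm_apply]⟩
  rw [cs, cs, ← finsum_comp (g := fun o : orbitRel.Quotient H X => f o.out) φ hb, mul_finsum]
  exact finsum_congr fun o => by rw [h2.out]

end Pool.Agent.P.MP_8b7eba_nt.R3
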