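import Pool.Agent.P.MP_8b7eba_nt.R3.IfD
import Pool.Agent.P.MP_8b7eba_nt.ModTwist

/-! Proof of LEX. -/

namespace Pool.Agent.P.MP_8b7eba_nt.R3

open _root_.Pool.Agent.P.MP_8b7eba_nt.Mod (M2 G0 FI L0 om lv)
open R1 (QF Hg Lv st Rq uu VV lf wf cnt Wt VB Dual gg dualB_F dualB_M)
open BSD15 (Adm Prim dt)
open Filter Topology Finset
open scoped Real ComplexConjugate

namespace DLEX

open Complex _root_.Pool.Agent.P.MP_8b7eba_nt.Mod

theorem ap_twist' {D : ℤ} {p : ℕ} (hp : p.Prime) (h5 : 5 < p) (hD : ¬ (p : ℤ) ∣ D) :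
    (p : ℤ) - (Nat.card {q : ZMod p × ZMod p // q.2 ^ 2 = q.1 ^ 3 +
      ((-12987 * D ^ 2 : ℤ) : ZMod p) * q.1 + ((-263466 * D ^ 3 : ℤ) : ZMod p)} : ℤ) =
      jacobiSym D p * an p := by
  have := Fact.mk hp
  have hD' : (D : ZMod p) ≠ 0 := by rwa [Ne, ZMod.intCast_zmod_eq_zero_iff_dvd]
  have h36 : (36 : ZMod p) ≠ 0 := by simpa using cast_ne h5 (a := 2) (b := 2) (c := 0)
  have h108 : (108 : ZMod p) ≠ 0 := by simpa using cast_ne h5 (a := 2) (b := 3) (c := 0)
  rw [card_affine (by omega) fun x => x ^ 3 + ((-12987 * D ^ 2 : ℤ) : ZMod p) * x +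
    ((-263466 * D ^ 3 : ℤ) : ZMod p), an_eq_neg_Sp h5, ← jacobiSym.legendreSym.to_jacobiSym,
    legendreSym, Sp, ← Equiv.sum_comp ((Equiv.mulLeft₀ _ (mul_ne_zero h36 hD')).trans
      (Equiv.subRight (21 * D))), mul_neg, mul_sum, sub_add_cancel_left, neg_inj]
  refine sum_congr rfl fun t _ => ?_
  rw [← map_mul, ← one_mul (quadraticChar (ZMod p) ((D : ZMod p) * _)),
    ← quadraticChar_sq_one' (mul_ne_zero h108 hD'), ← map_mul]
  congr 1
  simp
  ring

/-- The Kronecker symbol with complex values. -/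
noncomputable def ch (d : ℤ) (n : ℕ) : ℂ := (kc d n : ℂ)

lemma tri (hKC : KC) {d : ℤ} (hd : Squarefree d) (n : ℕ) :
    ch d n = 0 ∨ ch d n = 1 ∨ ch d n = -1 := by
  rcases hKC.tri d n hd with ⟨-, h | h⟩ | ⟨-, h⟩ <;> simp [ch, h]

lemma norm_ch (hKC : KC) {d : ℤ} (hd : Squarefree d) (n : ℕ) : ‖ch d n‖ ≤ 1 := by
  rcases tri hKC hd n with h | h | h <;> simp [h]

lemma euler_ch (hKC : KC) {d : ℤ} (hd : Squarefree d) {s : ℂ} (hs : 3 / 2 < s.re) :
    (∀ p : ℕ, p.Prime → eul (ch d) p s ≠ 0) ∧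
    HasProd (fun p : Nat.Primes => (eul (ch d) p s)⁻¹) (LSeries (fun n => ch d n * an n) s) :=
  euler (by simp [ch, hKC.one]) (fun a b _ _ => by simp [ch, hKC.mul]) (norm_ch hKC hd) hs

/-- The Euler factors at 2, 3 and 5. -/
noncomputable def bd (d : ℤ) (s : ℂ) : ℂ := eul (ch d) 2 s * eul (ch d) 3 s * eul (ch d) 5 s

lemma diff_bd (d : ℤ) : Differentiable ℂ (bd d) := by
  have : ∀ p : ℕ, p ≠ 0 → Differentiable ℂ (eul (ch d) p) := fun p hp => by
    have hp0 : (p : ℂ) ≠ 0 := by exact_mod_cast hp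
    refine ((differentiable_neg.const_cpow (.inl hp0)).const_mul _ |>.const_sub 1).add ?_
    split_ifs
    · exact differentiable_const _
    · exact (Differentiable.const_cpow (by fun_prop) (.inl hp0)).const_mul _
  exact ((this 2 (by norm_num)).mul (this 3 (by norm_num))).mul (this 5 (by norm_num))

lemma bd_one_ne (hKC : KC) {d : ℤ} (hd : Squarefree d) : bd d 1 ≠ 0 := by
  obtain ⟨-, -, h2, h3, -, h5⟩ := an_small
  have e : (1 - 2 * 1 : ℂ) = -1 := by ring
  refine mul_ne_zero (mul_ne_zero ?_ ?_) ?_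
  · rcases tri hKC hd 2 with h | h | h <;>
      simp only [eul, h, h2, e, cpow_neg_one] <;> norm_num
  · rcases tri hKC hd 3 with h | h | h <;>
      simp only [eul, h, h3, e, cpow_neg_one] <;> norm_num
  · rcases tri hKC hd 5 with h | h | h <;>
      simp only [eul, h, h5, e, cpow_neg_one] <;> norm_num

theorem isL_tw (hKC : KC) {D : ℤ} (hd : Squarefree D) {L : ℂ → ℂ} (hL : Differentiable ℂ L)
    (hL' : ∀ s : ℂ, 3 / 2 < s.re → L s = LSeries (fun n => ch D n * an n) s) :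
    BSD15.IsL (-12987 * D ^ 2) (-263466 * D ^ 3) fun s => L s * bd D s := by
  refine ⟨hL.mul (diff_bd _), fun s hs => ?_⟩
  obtain ⟨h1, h2⟩ := euler_ch hKC hd hs
  set T : Finset Nat.Primes := {⟨2, Nat.prime_two⟩, ⟨3, Nat.prime_three⟩, ⟨5, Nat.prime_five⟩}
    with hT
  have hmem : ∀ p : Nat.Primes, p ∈ T ↔ p.1 = 2 ∨ p.1 = 3 ∨ p.1 = 5 := fun p => by
    simp only [hT, mem_insert, mem_singleton]
    exact or_congr Subtype.ext_iff (or_congr Subtype.ext_iff Subtype.ext_iff)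
  have h3 : HasProd (fun p : Nat.Primes => if p ∈ T then eul (ch D) p s else 1) (bd D s) := by
    have := hasProd_prod_of_ne_finset_one (s := T) (L := .unconditional _)
      (f := fun p : Nat.Primes => if p ∈ T then eul (ch D) p s else 1)
      fun p hp => if_neg hp
    rwa [prod_congr rfl fun p hp => if_pos hp, hT, prod_insert (by decide), prod_pair (by decide),
      ← mul_assoc] at this
  have h5 := h2.mul h3
  rw [← hL' s hs] at h5
  have hinj : Function.Injective fun p : {p : ℕ // p.Prime ∧ ¬ ((p : ℤ) ∣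
      2 * (4 * (-12987 * D ^ 2) ^ 3 + 27 * (-263466 * D ^ 3) ^ 2))} =>
      (⟨p.1, p.2.1⟩ : Nat.Primes) := fun p q h =>
    Subtype.ext (congrArg (fun x : Nat.Primes => x.1) h)
  refine ((hinj.hasProd_iff fun p hp => ?_).2 h5).congr_fun fun p => ?_
  · have h6 := (prime_dvd_disc (D := D) p.2).1 (by_contra fun h => hp ⟨⟨p.1, p.2, h⟩, rfl⟩)
    split_ifs with h7
    · exact inv_mul_cancel₀ (h1 p p.2)
    · rw [hmem] at h7
      have h8 : (p.1 : ℤ) ∣ D := by tauto
      have hodd : Odd p.1 := p.2.odd_of_ne_two fun h => h7 (Or.inl h)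
      have h9 : ch D p = 0 := by
        rw [ch, hKC.odd D p hd hodd, jacobiSym.eq_zero_iff.2 ⟨p.2.ne_zero, ?_⟩, Int.cast_zero]
        rw [Int.gcd_eq_natAbs, Int.natAbs_natCast, Nat.gcd_eq_right (Int.natCast_dvd.1 h8)]
        exact p.2.ne_one
      simp [eul, h9]
  · obtain ⟨p, hp, h6⟩ := p
    rw [prime_dvd_disc hp] at h6
    push Not at h6
    have h7 : 5 < p := by
      have := hp.two_le
      have : p ≠ 4 := by rintro rfl; exact absurd hp (by norm_num)
      omega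
    have h15 : ¬ p ∣ 15 := fun h => by
      have := Nat.le_of_dvd (by norm_num) h
      interval_cases p <;> simp_all (config := {decide := true})
    have h8 : jacobiSym D p ^ 2 = 1 := jacobiSym.sq_one (by
      rw [Int.gcd_eq_natAbs, Int.natAbs_natCast, Nat.gcd_comm]
      exact hp.coprime_iff_not_dvd.2 fun h => h6.2.2.2 (Int.natCast_dvd.2 h))
    have h10 : ch D p = jacobiSym D p := by
      rw [ch, hKC.odd D p hd (hp.odd_of_ne_two h6.1)]
    have h9 : ch D p ^ 2 = 1 := by rw [h10]; exact_mod_cast h8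
    simp only [Function.comp]
    rw [if_neg (by rw [hmem]; simp only; omega), mul_one, ap_twist' hp h7 h6.2.2.2, eul,
      if_neg h15, h9, one_mul, h10]
    push_cast
    rfl

end DLEX

theorem t_LEX (hKC : KC) (hGAUSS : GAUSS) : LEX := by
  intro d hd
  obtain ⟨τ, hτ, hG⟩ := hGAUSS d hd
  obtain ⟨L, h1, h2, h3⟩ := Mod.exists_L (m := cd d) (χ := DLEX.ch d) hτ (DLEX.norm_ch hKC hd) hG
  have hI := DLEX.isL_tw hKC hd h1 h2
  have hc : ((cd d : ℕ) : ℤ) ≠ 0 := by
    have h0 := hd.ne_zero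
    unfold cd ds
    split_ifs <;> omega
  have h4 : τ * L 1 = Lam d := by
    rw [h3, Lam]
    refine sum_congr rfl fun a _ => ?_
    rw [Mod.lv_of_ne _ hc]
    simp [DLEX.ch]
  refine ⟨⟨_, hI⟩, fun f hf => ?_⟩
  rw [Mod.isL_unique hf hI, ← h4]
  simp [hτ, DLEX.bd_one_ne hKC hd]

end Pool.Agent.P.MP_8b7eba_nt.R3
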