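import Pool.Agent.P.MP_8b7eba_nt.R3.IfD
import Pool.Agent.P.MP_8b7eba_nt.R1.AMain
import Pool.Agent.P.MP_8b7eba_nt.R2.TCONJ

/-! Proof of SQB. -/

namespace Pool.Agent.P.MP_8b7eba_nt.R3

open _root_.Pool.Agent.P.MP_8b7eba_nt.Mod (M2 G0 FI L0 om lv)
open R1 (QF Hg Lv st Rq uu VV lf wf cnt Wt VB Dual gg dualB_F dualB_M)
open BSD15 (Adm Prim dt)
open Filter Topology Finset
open scoped Real ComplexConjugate

namespace DSQB

/-- the transport by the Fricke involution -/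
def tr (Q : QF) : QF := ⟨15 * Q.C, -Q.B, Q.A / 15⟩

/-- the transport as an involution of all forms -/
def ti (Q : QF) : QF := if 15 ∣ Q.A then tr Q else Q

theorem tr_mk (a B C : ℤ) : tr ⟨15 * a, B, C⟩ = ⟨15 * C, -B, a⟩ := by simp [tr]

theorem ti_pos {Q : QF} (h : 15 ∣ Q.A) : ti Q = tr Q := if_pos h

theorem dvd_tr (Q : QF) : 15 ∣ (tr Q).A := dvd_mul_right _ _

theorem dvd_ti {Q : QF} : 15 ∣ (ti Q).A ↔ 15 ∣ Q.A := by
  unfold ti
  split_ifs with h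
  · exact iff_of_true (dvd_tr Q) h
  · rfl

theorem tr_tr {Q : QF} (h : 15 ∣ Q.A) : tr (tr Q) = Q := by
  obtain ⟨A, B, C⟩ := Q
  obtain ⟨a, rfl⟩ : ∃ a, A = 15 * a := h
  rw [tr_mk, tr_mk, neg_neg]

theorem ti_ti (Q : QF) : ti (ti Q) = Q := by
  by_cases h : 15 ∣ Q.A
  · rw [ti_pos h, ti_pos (dvd_tr Q), tr_tr h]
  · simp only [ti, if_neg h]

/-- the involution as an equivalence -/
def tE : QF ≃ QF := ⟨ti, ti, ti_ti, ti_ti⟩

theorem disc_tr {Q : QF} (h : 15 ∣ Q.A) : (tr Q).disc = Q.disc := by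
  obtain ⟨A, B, C⟩ := Q
  obtain ⟨a, rfl⟩ : ∃ a, A = 15 * a := h
  rw [tr_mk]
  simp only [QF.disc]
  ring

/-- conjugation of matrices -/
def cg (g : M2) : M2 := ⟨g.d, -(g.c / 15), -(15 * g.b), g.a⟩

theorem G0_cg {g : M2} (hg : G0 g) : G0 (cg g) := by
  obtain ⟨h1, c, hc⟩ := hg
  refine ⟨?_, (dvd_mul_right _ _).neg_right⟩
  simp only [M2.det, cg, hc] at h1 ⊢
  rw [Int.mul_ediv_cancel_left _ (by norm_num)]
  linear_combination h1

theorem dvd_cmp {Q : QF} {g : M2} (h : 15 ∣ Q.A) (hg : 15 ∣ g.c) : 15 ∣ (Q.cmp g).A := by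
  obtain ⟨a, ha⟩ := h
  obtain ⟨c, hc⟩ := hg
  exact ⟨a * g.a ^ 2 + Q.B * g.a * c + Q.C * 15 * c ^ 2, by simp only [QF.cmp, QF.ev, ha, hc]; ring⟩

theorem tr_cmp {Q : QF} {g : M2} (h : 15 ∣ Q.A) (hg : 15 ∣ g.c) :
    tr (Q.cmp g) = (tr Q).cmp (cg g) := by
  obtain ⟨A, B, C⟩ := Q
  obtain ⟨a, rfl⟩ : ∃ a, A = 15 * a := h
  obtain ⟨x, y, z, u⟩ := g
  obtain ⟨c, rfl⟩ : ∃ c, z = 15 * c := hg
  have e : (QF.mk (15 * a) B C).cmp ⟨x, y, 15 * c, u⟩ =
      ⟨15 * (a * x ^ 2 + B * x * c + C * 15 * c ^ 2),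
        2 * (15 * a) * x * y + B * (x * u + y * (15 * c)) + 2 * C * (15 * c) * u,
        15 * a * y ^ 2 + B * y * u + C * u ^ 2⟩ := by
    ext <;> simp only [QF.cmp, QF.ev]
    ring
  rw [e, tr_mk, tr_mk]
  ext <;> simp only [QF.cmp, QF.ev, cg, Int.mul_ediv_cancel_left c (show (15 : ℤ) ≠ 0 by norm_num)] <;>
    ring

/-- conjugation on the group -/
def sg (h : BSD15.Gam) : BSD15.Gam :=
  ⟨h.d, -(h.c / 15), -(15 * h.b), h.a,
    (G0_cg (g := ⟨h.a, h.b, h.c, h.d⟩) ⟨h.det_eq, h.dvd_c⟩).1, (dvd_mul_right _ _).neg_right⟩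

theorem sg_sg (h : BSD15.Gam) : sg (sg h) = h := by
  have := h.dvd_c
  ext <;> simp only [sg] <;> omega

theorem cg_M (h : BSD15.Gam) : cg (dualB_M h) = dualB_M (sg h) := by
  have := h.dvd_c
  ext <;> simp only [sg, cg, dualB_M] <;> omega

theorem unf_tr {w : QF → ℤ} {n : ℕ} {F : ℕ → QF} (hw : ∀ Q, w Q ≠ 0 → 15 ∣ Q.A)
    (hF : ∀ c, 15 ∣ (F c).A) (h : Unf w n F) : Unf (fun Q => w (ti Q)) n fun c => tr (F c) := by
  intro f hf hs
  have h1 := h (fun Q => f (ti Q)) (hf.preimage tE.injective.injOn)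
    fun Q hQ => by simpa only [ti_ti] using hs _ hQ
  have h2 : ∑ᶠ Q, f (ti Q) = ∑ᶠ Q, f Q := finsum_comp_equiv tE
  rw [← h2, ← h1]
  refine sum_congr rfl fun c _ => ?_
  rw [← finsum_comp_equiv (⟨sg, sg, sg_sg, sg_sg⟩ : BSD15.Gam ≃ BSD15.Gam)]
  refine finsum_congr fun g => ?_
  have hg := (R1.dualB_G0 g).2
  rw [ti_pos (dvd_cmp (hF c) hg), tr_cmp (hF c) hg, cg_M]
  rfl

theorem tt_tr {Q : QF} (h : 15 ∣ Q.A) {z : ℂ} (hz : 0 < z.im) :
    (tr Q).tt ((M2.mk 0 (-1) 15 0).act z) = Q.tt z := by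
  rw [← QF.tt_cmp _ (by decide) hz]
  have hd : ((tr Q).cmp ⟨0, -1, 15, 0⟩).disc = 15 ^ 2 * Q.disc := by
    rw [QF.disc_cmp, disc_tr h]; rfl
  obtain ⟨A, B, C⟩ := Q
  obtain ⟨a, rfl⟩ : ∃ a, A = 15 * a := h
  unfold QF.tt
  rw [hd, tr_mk]
  simp only [QF.cmp, QF.ev]
  push_cast
  rw [Real.sqrt_mul (by norm_num), show (225 : ℝ) = 15 ^ 2 by norm_num, Real.sqrt_sq (by norm_num)]
  ring

theorem VV_tr {w : QF → ℤ} (hw : ∀ Q, w Q ≠ 0 → 15 ∣ Q.A) (s : ℝ) {z : ℂ} (hz : 0 < z.im) :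
    VV (fun Q => w (ti Q)) s ((M2.mk 0 (-1) 15 0).act z) = VV w s z := by
  unfold VV
  rw [← tE.tsum_eq]
  refine tsum_congr fun Q => ?_
  change (w (ti (ti Q)) : ℝ) * gg s ((ti Q).tt _) = _
  rw [ti_ti]
  by_cases h : w Q = 0
  · simp [h]
  · rw [ti_pos (hw Q h), tt_tr (hw Q h) hz]

theorem lim_tr {w : QF → ℤ} {D : ℤ} {α β : ℚ} (hw : ∀ Q, w Q ≠ 0 → 15 ∣ Q.A)
    (h1 : Wt D fun Q => w (ti Q)) (h2 : VB D fun Q => w (ti Q)) (h3 : Dual (fun Q => w (ti Q)) α β) :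
    Lim w (-α) (-β) := by
  intro T c z hz h0
  obtain ⟨q, hq⟩ := R1.sum_lim h1 h2 h3 T c (fun i => (M2.mk 0 (-1) 15 0).act (z i))
    (fun i hi => M2.im_act_pos (by decide) (hz i hi)) h0
  refine ⟨q, ?_⟩
  have e1 : ∑ i ∈ T, (c i : ℂ) * FI ((M2.mk 0 (-1) 15 0).act (z i)) = -∑ i ∈ T, c i * FI (z i) := by
    have h0' : ∑ i ∈ T, (c i : ℂ) = 0 := by exact_mod_cast h0
    rw [sum_congr rfl fun i hi => by rw [R1.oth_FI_W (hz i hi)]]
    simp only [mul_add, sum_add_distrib, ← sum_mul, h0', mul_neg, sum_neg_distrib]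
    ring
  have e2 : ∀ x : ℂ, lf α β (-x) = lf (-α) (-β) x := fun x => by
    simp only [lf, Complex.neg_re, Complex.neg_im]
    push_cast
    ring
  rw [e1, e2] at hq
  refine hq.congr fun s => sum_congr rfl fun i hi => ?_
  rw [VV_tr hw s (hz i hi)]

theorem c2_congr (e : ℤ) {x y : ℤ} (h : 8 ∣ x - y) : c2 e x = c2 e y := by
  have h8 : (x : ZMod 8) = y := (ZMod.intCast_eq_intCast_iff_dvd_sub x y 8).2 (by omega)
  have h4 : (x : ZMod 4) = y := (ZMod.intCast_eq_intCast_iff_dvd_sub x y 4).2 (by omega)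
  rw [c2, c2, h8, h4]

theorem od_dvd (d : ℤ) : od d ∣ d.natAbs := by
  unfold od
  split_ifs with h
  · exact Nat.div_dvd_of_dvd (by omega)
  · rfl

theorem gch_congr {d₀ : ℤ} (h : d₀ ∣ 30) {Q Q' : QF} (hA : 120 ∣ Q.A - Q'.A)
    (hC : 120 ∣ Q.C - Q'.C) : gch d₀ Q = gch d₀ Q' := by
  unfold gch
  congr 1
  · unfold ch2
    rw [c2_congr _ (x := Q.A) (y := Q'.A) (by omega), c2_congr _ (x := Q.C) (y := Q'.C) (by omega)]
    exact if_congr (by omega) rfl rfl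
  · refine prod_congr rfl fun p hp => ?_
    have h1 : (p : ℤ) ∣ 120 := by
      have h2 : p ∣ 30 := (Nat.dvd_of_mem_primeFactors hp).trans ((od_dvd d₀).trans
        (Int.natAbs_dvd_natAbs.2 h))
      exact_mod_cast h2.trans (by norm_num : 30 ∣ 120)
    unfold QF.chip
    rw [jacobiSym.mod_left' (Int.emod_eq_emod_iff_emod_sub_eq_zero.2
        (Int.emod_eq_zero_of_dvd (h1.trans hA))),
      jacobiSym.mod_left' (Int.emod_eq_emod_iff_emod_sub_eq_zero.2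
        (Int.emod_eq_zero_of_dvd (h1.trans hC)))]
    exact if_congr (dvd_iff_dvd_of_dvd_sub (h1.trans hA)) rfl rfl

theorem pz_tr {m : ℕ} (hm : m.Coprime 30) {Q : QF} (h : 15 ∣ Q.A) (hD : (m : ℤ) ∣ Q.disc) :
    pz m (tr Q) = (∏ p ∈ m.primeFactors, jacobiSym 15 p) * pz m Q := by
  rw [← disc_tr h] at hD
  obtain ⟨A, B, C⟩ := Q
  obtain ⟨a, rfl⟩ : ∃ a, A = 15 * a := h
  rw [tr_mk] at hD ⊢
  rw [pz, pz, ← prod_mul_distrib]
  refine prod_congr rfl fun p hp => ?_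
  have h1 := Nat.dvd_of_mem_primeFactors hp
  exact R2.TCONJ.chip_fl (Nat.prime_of_mem_primeFactors hp) (hm.coprime_dvd_left h1)
    ((Int.natCast_dvd_natCast.2 h1).trans hD)

end DSQB

open DSQB in
theorem t_SQB (hKC : KC) (hGINV : GINV) (hVBG : VBG) (hDFAM : DFAM) (hDUNF : DUNF) : SQB := by
  intro d₀ m h0 hm m1 h3 h5
  obtain ⟨sq, t1, -, t2, -, t3⟩ := hKC.tw d₀ m h0 hm
  have d3 : 3 ∣ d₀ * st m := h3.mul_right _
  have m5 : ¬ (5 : ℤ) ∣ st m := fun h => by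
    have h1 : 5 ∣ m := by simpa [R1.natAbs_st] using Int.natAbs_dvd_natAbs.2 h
    have := Nat.eq_one_of_dvd_coprimes hm.2 h1 (by norm_num)
    omega
  have p5 : Prime (5 : ℤ) := Int.prime_iff_natAbs_prime.2 (by norm_num)
  have d5 : ¬ 5 ∣ d₀ * st m := fun h => (p5.dvd_or_dvd h).elim h5 m5
  have mD : (m : ℤ) ∣ ds (d₀ * st m) := by
    rw [t2]
    exact (Int.natAbs_dvd_natAbs.1 (by rw [R1.natAbs_st, Int.natAbs_natCast])).mul_left _
  have hg : ∀ Q, gch (d₀ * st m) Q = gch d₀ Q * pz m Q := t3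
  unfold SqC
  generalize d₀ * st m = d at *
  have d0 := sq.ne_zero
  have d1 : d ≠ 1 := by omega
  have he : d.sign * d.sign = 1 := by
    rcases lt_or_gt_of_ne d0 with h | h
    · rw [Int.sign_eq_neg_one_of_neg h]; rfl
    · rw [Int.sign_eq_one_of_pos h]; rfl
  have D3 : 3 ∣ ds d := by unfold ds; split_ifs <;> omega
  have D5 : ¬ 5 ∣ ds d := by unfold ds; split_ifs <;> omega
  have D0' : ds d ≠ 0 := by unfold ds; split_ifs <;> omega
  have D4 : M4 (ds d) := by unfold M4 ds; split_ifs <;> omega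
  obtain ⟨n, hn⟩ : ∃ n : ℕ, cd d = 3 * n := by
    have : 3 ∣ cd d := Int.natAbs_dvd_natAbs.2 D3
    exact this
  have n0 : 0 < n := by unfold cd at hn; omega
  have nD : (n : ℤ) ∣ ds d := Int.natAbs_dvd_natAbs.1 (by
    rw [Int.natAbs_natCast, ← cd, hn]; exact dvd_mul_left _ _)
  have o3 : 3 ∈ (od d).primeFactors := by
    obtain ⟨a1, a2, -⟩ := hKC.par d sq
    refine Nat.mem_primeFactors.2 ⟨Nat.prime_three, ?_, a2.ne_zero⟩
    unfold od
    split_ifs <;> omega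
  obtain ⟨u1, u2, -⟩ := hDUNF d sq
  have lvw : ∀ Q, wg (ds d ^ 2) (ds d) d Q ≠ 0 → Lv (ds d ^ 2) (ds d) Q := fun Q h => by
    by_contra h'
    exact h (if_neg h')
  have hw : ∀ Q, wg (ds d ^ 2) (ds d) d Q ≠ 0 → 15 ∣ Q.A := fun Q h => (lvw Q h).2.1
  have inv : ∀ Q g, G0 g → wg (ds d ^ 2) (ds d) d (Q.cmp g) = wg (ds d ^ 2) (ds d) d Q := by
    intro Q g hg'
    unfold wg
    by_cases h : Lv (ds d ^ 2) (ds d) Q
    · rw [if_pos h, if_pos (h.cmp hg'), hGINV d (ds d) (ds d) 1 (Q.cmp g) Q g sq D4 D4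
        (by rw [h.1, pow_two]) (by rw [(h.cmp hg').1, pow_two]) (by rw [hg'.1]; exact isCoprime_one_left)
        (by simp), hKC.one, one_mul]
    · rw [if_neg h, if_neg (mt (R1.lv_cmp_iff hg').1 h)]
  have wt : Wt (ds d ^ 2) fun Q => wg (ds d ^ 2) (ds d) d (ti Q) := by
    refine ⟨by positivity, fun Q h => ?_, fun Q => ?_, fun Q g hg' => ?_, fun Q h h' => ?_⟩
    · have h1 := dvd_ti.1 (hw _ h)
      rw [← disc_tr h1, ← ti_pos h1]
      exact (lvw _ h).1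
    · unfold wg
      split_ifs
      · exact hKC.abs _ _
      · simp
    · by_cases h : 15 ∣ Q.A
      · rw [ti_pos h, ti_pos (dvd_cmp h hg'.2), tr_cmp h hg'.2, inv _ _ (G0_cg hg')]
      · have h' : ¬ 15 ∣ (Q.cmp g).A := fun h' => h (by
          simpa only [QF.cmp_adj hg'.1] using dvd_cmp h' hg'.adj.2)
        rw [not_not.1 (mt (hw _) (mt dvd_ti.1 h)), not_not.1 (mt (hw _) (mt dvd_ti.1 h'))]
    · have h1 := dvd_ti.1 (hw _ h)
      have h2 := lvw _ h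
      rw [ti_pos h1] at h h2
      apply h
      rw [wg, if_pos h2, gch, prod_eq_zero o3, mul_zero]
      have h4 := h2.2.2
      obtain ⟨A, B, C⟩ := Q
      obtain ⟨a, rfl⟩ : ∃ a, A = 15 * a := h1
      rw [tr_mk] at h4 ⊢
      simp only [QF.ev] at h' h4
      obtain ⟨b, rfl⟩ : 3 ∣ a := by omega
      rw [QF.chip, if_pos (by simp only; omega), jacobiSym.mod_left]
      simpa using jacobiSym.zero_left (b := 3) (by norm_num)
  have vb : VB (ds d ^ 2) fun Q => wg (ds d ^ 2) (ds d) d (ti Q) := by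
    have key := hVBG (ds d ^ 2) (fun Q => if 15 ∣ Q.A ∧ Lv (ds d ^ 2) (ds d) (tr Q) then
      gch d₀ (tr Q) * ∏ p ∈ m.primeFactors, jacobiSym 15 p else 0) m 1800 hm m1 (by norm_num)
      (Nat.Coprime.coprime_dvd_left (show 1800 ∣ 30 ^ 3 by norm_num) (hm.2.symm.pow_left 3))
      (fun k hk => ?_) (fun Q => ?_) fun Q Q' e0 eA eB eC => ?_
    · convert key using 2 with Q
      by_cases h : 15 ∣ Q.A ∧ Lv (ds d ^ 2) (ds d) (tr Q)
      · rw [if_pos h, ti_pos h.1, wg, if_pos h.2, hg, pz_tr hm.2 h.1, mul_assoc]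
        rw [← disc_tr h.1, h.2.1]
        exact mD.trans (dvd_pow_self _ two_ne_zero)
      · rw [if_neg h, zero_mul]
        by_contra h'
        have h1 := dvd_ti.1 (hw _ h')
        exact h ⟨h1, ti_pos h1 ▸ lvw _ h'⟩
    · rcases sq_eq_sq_iff_eq_or_eq_neg.1 hk with rfl | rfl
      · exact mD
      · exact mD.neg_right
    · split_ifs
      · rw [abs_mul, abs_prod]
        refine mul_le_one₀ (hKC.abs _ _) (prod_nonneg fun _ _ => abs_nonneg _)
          (prod_le_one (fun _ _ => abs_nonneg _) fun p _ => ?_)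
        rcases jacobiSym.trichotomy 15 p with h | h | h <;> simp [h]
      · simp
    · push_cast at eA eB eC
      have i1 : 15 ∣ Q.A ↔ 15 ∣ Q'.A := by omega
      by_cases h : 15 ∣ Q.A
      · have h' := i1.1 h
        have i2 : Lv (ds d ^ 2) (ds d) (tr Q) ↔ Lv (ds d ^ 2) (ds d) (tr Q') := by
          simp only [Lv, disc_tr h, disc_tr h', e0, dvd_tr, true_and]
          refine and_congr_right fun _ => ?_
          simp only [tr]
          omega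
        rw [gch_congr h0.dvd (Q := tr Q) (Q' := tr Q') (by simp only [tr]; omega)
          (by simp only [tr]; omega)]
        exact if_congr (and_congr i1 i2) rfl rfl
      · rw [if_neg fun h' => h h'.1, if_neg fun h' => h (i1.2 h'.1)]
  have hF : ∀ c, 15 ∣ (dualB_F d.sign (cd d) c).A := fun c => dvd_zero _
  have wF : ∀ c : ℕ, wg (ds d ^ 2) (ds d) d (ti (tr (dualB_F d.sign (cd d) c))) = kc d c := fun c => by
    rw [ti_pos (dvd_tr _), tr_tr (hF c), u2]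
  obtain ⟨α, β, a1, a2⟩ := hDFAM (ds d ^ 2) d.sign _ (cd d) 5 _ (fun c => (-(n : ℤ), 5 * (c : ℤ)))
    (0, 1) he wt (unf_tr hw hF u1) isCoprime_one_right (by norm_num) (by norm_num)
    (by simp only [wF]; exact hKC.sum d sq d1) fun c _ hc => by
      rw [wF] at hc
      have cp : IsCoprime (c : ℤ) (ds d) := by
        by_contra h
        rcases hKC.tri d c sq with h' | h'
        · exact h h'.1
        · exact hc h'.2
      have c3 : ¬ (3 : ℤ) ∣ c := fun h => by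
        have := Int.isUnit_iff.1 (cp.isUnit_of_dvd' h D3)
        omega
      refine ⟨?_, ?_, by simp only [dt]; omega, 3, by norm_num, fun x => ?_⟩
      · refine IsCoprime.neg_left (IsCoprime.mul_right ?_ (cp.symm.of_isCoprime_of_dvd_left nD))
        exact (p5.coprime_iff_not_dvd.2 fun h => D5 (h.trans nD)).symm
      · rw [show (15 : ℤ) = 5 * 3 by norm_num, Int.gcd_mul_left,
          Int.isCoprime_iff_gcd_eq_one.1 (Int.prime_three.coprime_iff_not_dvd.2 c3).symm]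
        rfl
      · simp only [tr, dualB_F, QF.ev, dt, hn]
        push_cast
        ring
  refine ⟨-α, -β, d.sign, by rintro h; rw [h] at he; omega, lim_tr hw wt vb a1, ?_⟩
  have e1 : ∀ c : ℕ, lv (-(n : ℤ)) (5 * (c : ℤ)) = -lv c (cd d) + lv 0 15 := fun c => by
    have h := Mod.lv_AL15 (w := ⟨0, -1, 15, 0⟩) (by decide) (a := c) (c := cd d) (.inr (by omega))
    rw [← h, ← Mod.lv_mul (k := 3) (by norm_num), hn]
    congr 1 <;> push_cast <;> ring
  have s0 : ∑ c ∈ range (cd d), (kc d c : ℂ) = 0 := by exact_mod_cast hKC.sum d sq d1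
  simp only [wF, e1, mul_add, sum_add_distrib, ← sum_mul, s0, mul_neg, sum_neg_distrib] at a2
  rw [Lam]
  push_cast
  linear_combination -a2

end Pool.Agent.P.MP_8b7eba_nt.R3
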