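import Pool.Agent.P.MP_8b7eba_nt.R3.IfD2

/-! Proof of STEP. -/

namespace Pool.Agent.P.MP_8b7eba_nt.R3

open _root_.Pool.Agent.P.MP_8b7eba_nt.Mod (M2 G0 FI L0 om lv)
open R1 (QF Hg Lv st Rq uu VV lf wf cnt Wt VB Dual gg rq_rat rq_int)
open BSD15 (Adm Prim dt)
open Filter Topology Finset
open scoped Real ComplexConjugate

namespace DSTEP

theorem tr {x y : ℚ} {a b : ℝ} (h : Rq (x * a - y * b)) (hx : x ≠ 0) (ha : ¬ Rq a) :
    y ≠ 0 ∧ ¬ Rq b := by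
  have k : ¬ Rq (y * b) := fun k => ha (by
    have := (h.add k).div (rq_rat x)
    rwa [sub_add_cancel, mul_div_cancel_left₀ _ (by exact_mod_cast hx)] at this)
  exact ⟨fun e => k (by rw [e]; exact ⟨0, by simp⟩), fun e => k ((rq_rat y).mul e)⟩

theorem tr' {x y : ℚ} {a b : ℝ} (h : Rq (x * a - y * b)) (hy : y ≠ 0) (hb : ¬ Rq b) :
    x ≠ 0 ∧ ¬ Rq a := tr (by simpa using h.neg) hy hb

theorem sq_iff {x : ℤ} : Sq120 x ↔ x % 120 = 1 ∨ x % 120 = 49 := by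
  unfold Sq120
  omega

theorem sq_mul {x y : ℤ} (hx : Sq120 x) (hy : Sq120 y) : Sq120 (x * y) := by
  rw [sq_iff] at *
  rw [Int.mul_emod]
  rcases hx with h | h <;> rcases hy with k | k <;> rw [h, k] <;> decide

theorem sq_congr {x y : ℤ} (hx : Sq120 x) (h : 120 ∣ x - y) : Sq120 y := by
  rw [sq_iff] at *
  omega

theorem sq_sq {t : ℤ} (h : IsCoprime t 30) : Sq120 (t ^ 2) := by
  have k : ∀ p : ℤ, Prime p → p ∣ 30 → ¬ p ∣ t := fun p hp h1 h2 =>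
    hp.not_isUnit (h.isUnit_of_dvd' h2 h1)
  have h2 := k 2 Int.prime_two (by norm_num)
  have h3 := k 3 Int.prime_three (by norm_num)
  have h5 := k 5 (Int.prime_iff_natAbs_prime.2 (by norm_num)) (by norm_num)
  refine ⟨?_, ?_, ?_⟩
  · have : t % 8 = 1 ∨ t % 8 = 3 ∨ t % 8 = 5 ∨ t % 8 = 7 := by omega
    rcases this with e | e | e | e <;> simp [sq, Int.mul_emod, e]
  · have : t % 3 = 1 ∨ t % 3 = 2 := by omega
    rcases this with e | e <;> simp [sq, Int.mul_emod, e]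
  · have : t % 5 = 1 ∨ t % 5 = 2 ∨ t % 5 = 3 ∨ t % 5 = 4 := by omega
    rcases this with e | e | e | e <;> simp [sq, Int.mul_emod, e]

theorem pow4 {t : ℤ} (h : IsCoprime t 30) : 120 ∣ t ^ 4 - 1 := by
  have := sq_iff.1 (sq_sq h)
  rw [show t ^ 4 = t ^ 2 * t ^ 2 by ring]
  apply Int.dvd_of_emod_eq_zero
  rw [Int.sub_emod, Int.mul_emod]
  rcases this with e | e <;> rw [e] <;> decide

theorem odd {m : ℕ} (h : Adm m) : Odd m :=
  Nat.coprime_two_right.1 (h.2.coprime_dvd_right (by norm_num))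

theorem st_same {m n : ℕ} (h : m % 4 = n % 4) : st m = m ∧ st n = n ∨ st m = -m ∧ st n = -n := by
  unfold st
  split_ifs <;> omega

theorem sq_l {l : ℕ} {d : ℤ} (h : Hy l d) : Sq120 (-l) := by
  have h3 := h.spl 3 Nat.prime_three (by norm_num) (Dvd.dvd.mul_right (by norm_num) d)
  have h5 := h.spl 5 Nat.prime_five (by norm_num) (Dvd.dvd.mul_right (by norm_num) d)
  have h8 := h.l16
  rw [jacobiSym.mod_left] at h3 h5
  refine ⟨by omega, ?_, ?_⟩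
  · have : (-l : ℤ) % 3 = 0 ∨ (-l : ℤ) % 3 = 1 ∨ (-l : ℤ) % 3 = 2 := by omega
    rcases this with e | e | e
    · simp only [Nat.cast_ofNat, e] at h3; norm_num at h3
    · exact e
    · simp only [Nat.cast_ofNat, e] at h3; norm_num at h3
  · have : (-l : ℤ) % 5 = 0 ∨ (-l : ℤ) % 5 = 1 ∨ (-l : ℤ) % 5 = 2 ∨ (-l : ℤ) % 5 = 3 ∨
      (-l : ℤ) % 5 = 4 := by omega
    rcases this with e | e | e | e | e
    · simp only [Nat.cast_ofNat, e] at h5; norm_num at h5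
    · exact .inl e
    · simp only [Nat.cast_ofNat, e] at h5; norm_num at h5
    · simp only [Nat.cast_ofNat, e] at h5; norm_num at h5
    · exact .inr e

theorem cop {l m : ℕ} (hl : l.Prime) (h : ∀ q : ℕ, q.Prime → q ∣ m → jacobiSym (-l) q ≠ 0) :
    l.Coprime m := by
  rw [hl.coprime_iff_not_dvd]
  intro k
  refine h l hl k ?_
  rw [jacobiSym.mod_left, Int.emod_eq_zero_of_dvd (dvd_neg.2 dvd_rfl), jacobiSym.zero_left hl.one_lt]

theorem spl {l m : ℕ} {d₀ : ℤ} (hm : Adm m) (h : Hy l (d₀ * st m)) (q : ℕ) (hq : q.Prime)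
    (hd : q ∣ m) : jacobiSym (-l) q = 1 := by
  refine h.spl q hq ?_ ?_
  · rintro rfl
    exact (Nat.not_even_iff_odd.2 (odd hm)) (even_iff_two_dvd.2 hd)
  · refine Dvd.dvd.mul_left (Dvd.dvd.mul_left ?_ _) _
    rwa [Int.natCast_dvd, R1.natAbs_st]

theorem adm_mul {m n : ℕ} (hm : Adm m) (hn : Adm n) (h : m.Coprime n) : Adm (m * n) :=
  ⟨(Nat.squarefree_mul h).2 ⟨hm.1, hn.1⟩, Nat.Coprime.mul_left hm.2 hn.2⟩

theorem adm_l {l m : ℕ} {d₀ : ℤ} (hm : Adm m) (h : Hy l (d₀ * st m)) : Adm (l * m) := by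
  refine adm_mul ⟨h.lp.squarefree, ?_⟩ hm (cop h.lp fun q hq hd => by rw [spl hm h q hq hd]; decide)
  have := sq_l h
  rw [h.lp.coprime_iff_not_dvd]
  intro k
  have := Nat.le_of_dvd (by norm_num) k
  have h8 := h.l16
  unfold Sq120 at *
  omega

theorem tri {x y z l : ℕ} (hx : Adm x) (hy : Adm (l * y)) (hz : Adm z) (h1 : 1 < z)
    (hl : Sq120 (-l)) (hxy : Sq120 (x * y)) (hxz : Sq120 (x * z)) (hm : y ≡ x [MOD z])
    (hc : x.Coprime z) (hi : ∀ q : ℕ, q.Prime → q ∣ z → jacobiSym (-l) q = -1)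
    (hs : ∀ p : ℕ, p.Prime → p ∣ x → p ∣ l * y →
      jacobiSym (-((x / p : ℕ) * (l * y / p : ℕ))) p = 1) : Tri x (l * y) z := by
  refine ⟨hx, hy, hz, h1, ?_, hxz, fun p hp hd => ?_, hs⟩
  · have := sq_mul hl hxy
    convert this using 1
    push_cast
    ring
  · have e : (y : ℤ) ≡ x [ZMOD p] := Int.natCast_modEq_iff.2 (hm.of_dvd hd)
    have e2 : -((x : ℤ) * ((l * y : ℕ) : ℤ)) ≡ -l * x ^ 2 [ZMOD p] := by
      have := e.mul_left (-(x * l) : ℤ)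
      convert this using 1
      · push_cast; ring
      · ring
    rw [jacobiSym.mod_left' e2, jacobiSym.mul_left, hi p hp hd, jacobiSym.sq_one' (by
      exact_mod_cast hc.coprime_dvd_right hd), mul_one]

theorem tri1 {x z l : ℕ} {d₀ : ℤ} (hx : Adm x) (hz : Adm z) (h1 : 1 < z) (h : Hy l (d₀ * st x))
    (hxz : Sq120 (x * z)) (hc : x.Coprime z)
    (hi : ∀ q : ℕ, q.Prime → q ∣ z → jacobiSym (-l) q = -1) : Tri x (l * x) z := by
  refine tri hx (adm_l hx h) hz h1 (sq_l h) ?_ hxz (Nat.ModEq.refl _) hc hi fun p hp hd _ => ?_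
  · rw [← sq]
    exact sq_sq (Nat.isCoprime_iff_coprime.2 hx.2)
  · obtain ⟨k, rfl⟩ := hd
    have e : l * (p * k) / p = l * k := by
      rw [mul_left_comm, Nat.mul_div_cancel_left _ hp.pos]
    rw [e, Nat.mul_div_cancel_left _ hp.pos, show -((k : ℤ) * ((l * k : ℕ) : ℤ)) = -l * k ^ 2 by
      push_cast; ring, jacobiSym.mul_left, spl hx h p hp (dvd_mul_right _ _), jacobiSym.sq_one' (by
      exact_mod_cast (Nat.coprime_of_squarefree_mul hx.1).symm), mul_one]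

theorem m4 (d : ℤ) : M4 (ds d) := by
  unfold M4 ds
  split_ifs <;> omega

theorem cd_sq (d : ℤ) : (cd d : ℤ) ^ 2 = ds d ^ 2 := by
  rw [cd, Int.natCast_natAbs, sq_abs]

theorem cd_ne {d : ℤ} (h : d ≠ 0) : cd d ≠ 0 := by
  unfold cd ds
  split_ifs <;> omega

theorem irr (hC : CONJG) {l : ℕ} {d ρ : ℤ} {S : Finset QF} (h : Hy l d)
    (hS : Rs (l * cd d ^ 2) ρ (hw l d ρ) S) (hn : ¬ IsOfFinAddOrder (uu (ZS S (hw l d ρ))))
    (hr : rn d = 1) : ¬ Rq (tZ d (ZS S (hw l d ρ))) := by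
  intro k
  have d0 := h.sq.ne_zero
  have l8 := h.l16
  have := cd_ne d0
  have := h.lp.pos
  obtain ⟨u, v, e⟩ := hC d (-l * ds d) ρ (l * cd d ^ 2) S h.sq (by positivity)
    (by push_cast; rw [cd_sq]; ring) (by
      have h1 : (-l : ℤ) % 4 = 1 := by omega
      rw [M4, Int.mul_emod, h1]
      rcases m4 d with h2 | h2 <;> rw [h2] <;> decide) hS
  change conj (ZS S (hw l d ρ)) + _ * _ * ZS S (hw l d ρ) = _ at e
  generalize ZS S (hw l d ρ) = Z at *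
  have e1 := congrArg Complex.re e
  have e2 := congrArg Complex.im e
  have o0 := Mod.om_ne
  have l0 := Mod.L0_ne
  refine hn (R1.tors_of_rq ?_ ?_)
  all_goals rcases d0.lt_or_gt with hd | hd
  · rw [tZ, if_neg hd.not_gt] at k
    convert k.mul (rq_int 4) using 1
    push_cast
    field_simp
  · simp [hr, Int.sign_eq_one_of_pos hd] at e1
    exact ⟨u / 2, by push_cast; field_simp; linarith⟩
  · simp [hr, Int.sign_eq_neg_one_of_neg hd] at e2
    exact ⟨-v / 2, by push_cast; field_simp; linarith⟩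
  · rw [tZ, if_pos hd] at k
    convert k.mul (rq_int 2) using 1
    push_cast
    field_simp

theorem sign_congr {d₀ : ℤ} {m n : ℕ} (hm : 0 < m) (hn : 0 < n) (h : m % 4 = n % 4) :
    (d₀ * st m).sign = (d₀ * st n).sign := by
  rcases st_same h with e | e <;> rw [e.1, e.2, Int.sign_mul, Int.sign_mul] <;>
    simp [Int.sign_natCast_of_ne_zero hm.ne', Int.sign_natCast_of_ne_zero hn.ne']

theorem st_congr {m n : ℕ} (h : m ≡ n [MOD 120]) : 120 ∣ st n - st m := by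
  have h4 : m % 4 = n % 4 := h.of_dvd (by norm_num)
  have := h.dvd
  rcases st_same h4 with e | e <;> rw [e.1, e.2] <;> omega

theorem rn_congr {d₀ : ℤ} {m n : ℕ} (hm : 0 < m) (hn : 0 < n) (h : m ≡ n [MOD 120]) :
    rn (d₀ * st m) = rn (d₀ * st n) := by
  have e : 120 ∣ d₀ * st n - d₀ * st m := mul_sub d₀ _ _ ▸ (st_congr h).mul_left d₀
  unfold rn
  rw [sign_congr hm hn (h.of_dvd (by norm_num))]
  generalize d₀ * st m = x at *
  generalize d₀ * st n = y at *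
  rw [jacobiSym.mod_left' (show x % (3 : ℕ) = y % (3 : ℕ) by omega),
    jacobiSym.mod_left' (show x % (5 : ℕ) = y % (5 : ℕ) by omega)]
  simp only [show 3 ∣ x ↔ 3 ∣ y by omega, show 5 ∣ x ↔ 5 ∣ y by omega]

theorem cf_congr {x y : ℤ} (h : x.sign = y.sign) : cf x = cf y ∧ tZ x = tZ y := by
  have : 0 < x ↔ 0 < y := by rw [← Int.sign_eq_one_iff_pos, h, Int.sign_eq_one_iff_pos]
  constructor
  · funext α β
    simp only [cf, this]
  · funext z
    simp only [tZ, this]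

theorem limn (hKC : KC) (hL : LIMN) {d₀ : ℤ} {m n : ℕ} (ρ : ℤ) (h0 : D0 d₀) (hm : Adm m) (hn : Adm n)
    (h1 : 1 < n) (hc : m.Coprime n) (h4 : m % 4 = n % 4) :
    ∃ α β, Lim (wg (ds d₀ ^ 2 * (m * n)) ρ (d₀ * st m)) α β := by
  have e : ds d₀ ^ 2 * (m * n) = ds (d₀ * st m) * ds (d₀ * st n) := by
    rw [(hKC.tw d₀ m h0 hm).2.2.2.1, (hKC.tw d₀ n h0 hn).2.2.2.1]
    rcases st_same h4 with e | e <;> rw [e.1, e.2] <;> ring
  have c0 := cd_ne h0.sq.ne_zero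
  have m0 := hm.1.ne_zero
  have := hL (d₀ * st m) (ds (d₀ * st n)) ρ (hKC.tw d₀ m h0 hm).1 (m4 _)
    (by rw [← e, ← cd_sq]; positivity) (by
      rw [← e, ← cd_sq]
      rintro ⟨r, hr⟩
      have h2 : ((cd d₀ : ℤ)) ^ 2 ∣ r ^ 2 := ⟨m * n, by rw [hr, sq]⟩
      obtain ⟨k, rfl⟩ := (Int.pow_dvd_pow_iff two_ne_zero).1 h2
      refine R1.gkz_nonsq (adm_mul hm hn hc).1
        (h1.trans_le (Nat.le_mul_of_pos_left _ (by omega))) ⟨k, ?_⟩
      push_cast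
      exact mul_left_cancel₀ (a := (cd d₀ : ℤ) ^ 2) (by positivity) (by rw [hr]; ring))
  rwa [← e] at this

theorem dv {a x y : ℤ} (h : a ∣ x) (e : y = x) : a ∣ y := e ▸ h

theorem mod8 {x : ℕ} (h : Sq120 (-x)) : x % 8 = 7 := by
  have := h.1
  omega

end DSTEP

open DSTEP

theorem t_STEP (hKC : KC) (hLZ : LZ) (hCONJG : CONJG) (hRSX : RSX) (hSWP : SWP) (hLIMN : LIMN)
    (hSQ : SQ) (hIDC : IDC) : STEP := by
  intro d₀ m n m' h0 hm hn hm' m1 n1 m1' hc ⟨h4, t, ht, hd⟩ c1 c2 ⟨l, ⟨y1, ρ, S, s1, z1⟩, i1⟩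
    ⟨k, ⟨y2, ρ', S', s2, z2⟩, i2⟩ ra hb
  have tw := fun x (hx : Adm x) => hKC.tw d₀ x h0 hx
  have ecd : ∀ x : ℕ, Adm x → cd (d₀ * st x) = cd d₀ * x := fun x hx => by
    rw [cd, (tw x hx).2.2.2.1, Int.natAbs_mul, R1.natAbs_st, cd]
  have c0 := cd_ne h0.sq.ne_zero
  have c120 : m' ≡ n [MOD 120] := c1.of_mul_right m
  have h4' : m' % 4 = n % 4 := c120.of_dvd (by norm_num)
  have rb : rn (d₀ * st n) = 1 := by
    have h := (hLZ _ (tw n hn).1 fun h => by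
      have := congrArg Int.natAbs h
      rw [Int.natAbs_mul, R1.natAbs_st] at this
      have := Nat.eq_one_of_mul_eq_one_left this
      omega).1
    exact_mod_cast (mul_right_cancel₀ hb (h.symm.trans (one_mul _).symm))
  have ra' : rn (d₀ * st m') = 1 := (rn_congr (by omega) (by omega) c120).trans rb
  have t4 := pow4 ht
  have sqm : ∀ x : ℕ, Adm x → Sq120 (x * x) := fun x hx => by
    rw [← sq]
    exact sq_sq (Nat.isCoprime_iff_coprime.2 hx.2)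
  have smn : Sq120 (m * n) := by
    refine sq_congr (sq_mul (sq_sq ht) (sqm m hm)) ?_
    refine dv (hd.mul_left (st m)).neg_right ?_
    rcases st_same h4 with e | e <;> rw [e.1, e.2] <;> ring
  have hx : ∀ x : ℤ, 120 ∣ x * n - x * m' := fun x => mul_sub x _ _ ▸ c120.dvd.mul_left x
  have smm : Sq120 (m * m') := sq_congr smn (hx m)
  have snm : Sq120 (n * m') := sq_congr (sqm n hn) (hx n)
  have cn : m'.Coprime n := by rw [Nat.Coprime, c2.gcd_eq]; exact hc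
  have cm : m'.Coprime m := by rw [Nat.Coprime, (c1.of_mul_left 120).gcd_eq]; exact hc.symm
  have i3 : ∀ q : ℕ, q.Prime → q ∣ n → jacobiSym (-k) q = -1 := fun q hq h => i2 q hq (h.mul_left m)
  have i4 : ∀ q : ℕ, q.Prime → q ∣ m → jacobiSym (-k) q = -1 := fun q hq h => i2 q hq (h.mul_right n)
  have vac : ∀ x : ℕ, m'.Coprime x → (∀ q : ℕ, q.Prime → q ∣ x → jacobiSym (-k) q = -1) →
      ∀ p : ℕ, p.Prime → p ∣ x → p ∣ k * m' →
        jacobiSym (-((x / p : ℕ) * (k * m' / p : ℕ))) p = 1 := fun x a b p hp d1 d2 =>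
    absurd (Nat.eq_one_of_dvd_coprimes (Nat.Coprime.mul_left
      (cop y2.lp fun q hq e => by rw [b q hq e]; decide) a) d2 d1) hp.ne_one
  have T1 := tri1 hm hn n1 y1 smn hc i1
  have T2 := tri1 hm' hn n1 y2 (mul_comm (n : ℤ) m' ▸ snm) cn i3
  have T3 := tri hm (adm_l hm' y2) hn n1 (sq_l y2) smm smn c2 hc i3 (vac m cm i4)
  have T4 := tri hn (adm_l hm' y2) hm m1 (sq_l y2) snm (mul_comm (m : ℤ) n ▸ smn)
    (c1.of_mul_left 120) hc.symm i4 (vac n cn i3)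
  have gt : ∀ a b : ℕ, a.Prime → 1 < b → 1 < a * b := fun a b ha hb =>
    hb.trans_le (Nat.le_mul_of_pos_left _ ha.pos)
  have rs : ∀ (a b : ℕ) (r : ℤ), Sq120 (-(a * b)) → ∃ S, ∀ u, Rs (cd d₀ ^ 2 * (a * b)) r u S :=
    fun a b r h => hRSX _ _ _ r c0 rfl (mod8 (by push_cast; exact h))
  obtain ⟨α, β, L1, e1⟩ := hSQ d₀ n h0 hn n1
  obtain ⟨α₁, β₁, L0, e0⟩ := hSQ d₀ m h0 hm m1
  obtain ⟨α₂, β₂, L2⟩ := limn hKC hLIMN (t * ds (d₀ * st m)) h0 hm hn n1 hc h4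
  obtain ⟨α₄, β₄, L4⟩ := limn hKC hLIMN (1 * ds (d₀ * st m')) h0 hm' hn n1 cn h4'
  obtain ⟨f1, g1⟩ := cf_congr (sign_congr (d₀ := d₀) (by omega) (by omega) h4)
  obtain ⟨f2, g2⟩ := cf_congr (sign_congr (d₀ := d₀) (by omega) (by omega) h4')
  have x0 : cf (d₀ * st n) α β ≠ 0 := fun h => hb (e1.1 h)
  obtain ⟨S1, r1⟩ := rs (l * m) n (t * ρ) (by
    convert sq_mul (sq_l y1) smn using 1
    push_cast
    ring)
  obtain ⟨S2, r2⟩ := rs (k * m') n ρ' (mul_comm (n : ℤ) _ ▸ T4.s12)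
  obtain ⟨S3, r3⟩ := rs m (k * m') (t ^ 3 * ρ') T3.s12
  have q1 := hIDC d₀ t ρ (t * ρ) m (l * m) n _ _ S S1 α β α₂ β₂ h0 T1 m1 (gt _ _ y1.lp m1) ht hd
    (by simp) (by rw [ecd m hm]; ring) rfl s1 (r1 _) ra rb L1 L2
  have q2 := hIDC d₀ 1 ρ' ρ' m' (k * m') n _ _ S' S2 α β α₄ β₄ h0 T2 m1' (gt _ _ y2.lp m1')
    isCoprime_one_left (by simpa using st_congr c120) (by simp) (by rw [ecd m' hm']; ring) rfl s2
    (r2 _) ra' rb L1 L4
  have q3 := hIDC d₀ t (t ^ 3 * ρ') ρ' m (k * m') n _ _ S3 S2 α β α₂ β₂ h0 T3 m1 (gt _ _ y2.lp m1') ht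
    hd (dv ((Dvd.dvd.trans (by norm_num : (30 : ℤ) ∣ 120) t4).mul_left ρ').neg_right (by ring)) rfl rfl (r3 _) (r2 _) ra rb L1 L2
  have ew : wg (ds d₀ ^ 2 * (n * m)) (t ^ 3 * ds (d₀ * st n)) (d₀ * st n) =
      wg (ds d₀ ^ 2 * (m * n)) (t * ds (d₀ * st m)) (d₀ * st m) := by
    funext Q
    have el := R1.lv_congr (D := ds d₀ ^ 2 * (m * n)) (ρ := t ^ 3 * ds (d₀ * st n))
      (ρ' := t * ds (d₀ * st m)) (by
      rw [(tw m hm).2.2.2.1, (tw n hn).2.2.2.1]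
      exact dv ((by norm_num : (30 : ℤ) ∣ 120).trans
        ((hd.mul_left (t ^ 3 * ds d₀)).add (t4.mul_left (t * ds d₀ * st m)))) (by ring))
    simp only [wg, mul_comm (n : ℤ), el]
    split_ifs with h
    · rw [(tw m hm).2.2.2.2.2, (tw n hn).2.2.2.2.2, hSWP m n (cd d₀) Q (adm_mul hm hn hc) smn
        (fun p hp e => ?_) (by rw [h.1, cd_sq])]
      have e2 : p ∣ cd d₀ := by exact_mod_cast e
      have e3 : cd d₀ ∣ 2 * 2 * 30 := by
        rw [cd, ← Int.natCast_dvd_natCast, Int.natAbs_dvd, ds]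
        split_ifs
        · exact h0.dvd.trans (by norm_num)
        · exact (mul_dvd_mul_left 4 h0.dvd).trans (by norm_num)
      rcases hp.dvd_mul.1 (e2.trans e3) with e | e
      · exact (hp.dvd_mul.1 e).elim (·.trans (by norm_num)) (·.trans (by norm_num))
      · exact e
    · rfl
  have q4 := hIDC d₀ (t ^ 3) ρ' (t ^ 3 * ρ') n (k * m') m _ _ S2 S3 α₁ β₁ α₂ β₂ h0 T4 n1
    (gt _ _ y2.lp m1') ht.pow_left
    (dv ((hd.mul_left (t ^ 6)).add (t4.mul_left ((t ^ 4 + 1) * st m))).neg_right (by ring)) (by simp) (by rw [mul_comm n]) (by rw [mul_comm (k * m')]) (r2 _) (r3 _) rb ra L0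
    (ew ▸ L2)
  rw [f1] at q1 q3 e0
  rw [f2] at q2
  have u1 := (tr q1 x0 (irr hCONJG y1 s1 z1 ra)).1
  have u2 := (tr q2 x0 (irr hCONJG y2 s2 z2 ra')).2
  rw [g2] at u2
  rw [g1] at q3
  exact fun h => (tr' q4 u1 (tr' q3 u1 u2).2).1 (e0.2 h)

end Pool.Agent.P.MP_8b7eba_nt.R3
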