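import Pool.Agent.P.MP_8b7eba_nt.R3.Def0
import Pool.Agent.P.MP_8b7eba_nt.R2.DefsG
import Pool.Agent.P.MP_8b7eba_nt.R1.DualB

/-! Definitions for the analytic block of the project R3. -/

namespace Pool.Agent.P.MP_8b7eba_nt.R3

open _root_.Pool.Agent.P.MP_8b7eba_nt.Mod (M2 G0 FI L0 om lv)
open R1 (QF Hg Lv st Rq uu VV lf)
open BSD15 (Adm)
open Filter Topology
open scoped Real

noncomputable section

/-! ### Integral forms -/

/-- squarefree divisors of thirty -/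
structure D0 (d₀ : ℤ) : Prop where
  sq : Squarefree d₀
  dvd : d₀ ∣ 30

/-- discriminants modulo four -/
def M4 (E : ℤ) : Prop := E % 4 = 0 ∨ E % 4 = 1

/-- squares of units modulo 120 -/
def Sq120 (x : ℤ) : Prop := x % 8 = 1 ∧ x % 3 = 1 ∧ (x % 5 = 1 ∨ x % 5 = 4)

/-- the part of the level which is prime to `d` -/
def el (d : ℤ) : ℤ := (if 3 ∣ d then 1 else 3) * (if 5 ∣ d then 1 else 5)

/-- the sign of the Atkin-Lehner involution -/
def es (d : ℤ) : ℤ := if 5 ∣ d then 1 else -1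

/-- the genus character of an odd number -/
def pz (m : ℕ) (Q : QF) : ℤ := ∏ p ∈ m.primeFactors, Q.chip p

/-- weighted number of pairs of forms with given mixed discriminant -/
def NS (S : Finset QF) (u w : QF → ℤ) (B : ℤ) : ℤ :=
  ∑ P ∈ S, u P * ∑ᶠ Q : QF, if P.pair Q = B then w Q else 0

/-- the limit of the Green function of the cycle `w` on divisors of degree zero -/
def Lim (w : QF → ℤ) (α β : ℚ) : Prop :=
  ∀ (T : Finset QF) (c : QF → ℤ) (z : QF → ℂ), (∀ i ∈ T, 0 < (z i).im) → ∑ i ∈ T, c i = 0 →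
    ∃ q : ℚ, Tendsto (fun s => ∑ i ∈ T, (c i : ℝ) * VV w s (z i)) (𝓝[>] 1)
      (𝓝 (π * (q - lf α β (∑ i ∈ T, c i * FI (z i)))))

/-- the interesting coordinate -/
def tZ (s : ℤ) (z : ℂ) : ℝ := if 0 < s then z.im / (2 * om) else z.re / (4 * L0)

/-- the interesting coefficient -/
def cf (s : ℤ) (α β : ℚ) : ℚ := if 0 < s then β else α

/-- admissible triples -/
structure Tri (m₁ m₂ m₃ : ℕ) : Prop where
  a1 : Adm m₁
  a2 : Adm m₂
  a3 : Adm m₃
  one : 1 < m₃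
  s12 : Sq120 (-(m₁ * m₂))
  s13 : Sq120 (m₁ * m₃)
  inert : ∀ p : ℕ, p.Prime → p ∣ m₃ → jacobiSym (-(m₁ * m₂)) p = -1
  split : ∀ p : ℕ, p.Prime → p ∣ m₁ → p ∣ m₂ → jacobiSym (-((m₁ / p : ℕ) * (m₂ / p : ℕ))) p = 1

/-! ### Rational forms -/

/-- rational binary quadratic forms -/
@[ext] structure QQ where
  A : ℚ
  B : ℚ
  C : ℚ

def QQ.disc (Q : QQ) : ℚ := Q.B ^ 2 - 4 * Q.A * Q.C

def QQ.pair (P Q : QQ) : ℚ := P.B * Q.B - 2 * P.A * Q.C - 2 * Q.A * P.C

/-- linear combinations -/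
def QQ.lin (a : ℚ) (P : QQ) (b : ℚ) (Q : QQ) : QQ :=
  ⟨a * P.A + b * Q.A, a * P.B + b * Q.B, a * P.C + b * Q.C⟩

/-- invertible rational matrices -/
@[ext] structure GM where
  a : ℚ
  b : ℚ
  c : ℚ
  d : ℚ
  ne : a * d - b * c ≠ 0

def GM.det (g : GM) : ℚ := g.a * g.d - g.b * g.c

theorem GM.det_ne (g : GM) : g.det ≠ 0 := g.ne

instance : Mul GM := ⟨fun g h => ⟨g.a * h.a + g.b * h.c, g.a * h.b + g.b * h.d,
  g.c * h.a + g.d * h.c, g.c * h.b + g.d * h.d, fun e => mul_ne_zero g.ne h.ne (by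
    linear_combination e)⟩⟩

instance : One GM := ⟨⟨1, 0, 0, 1, by norm_num⟩⟩

instance : Inv GM := ⟨fun g => ⟨g.d / g.det, -g.b / g.det, -g.c / g.det, g.a / g.det, fun e =>
  g.det_ne (by
    have := g.det_ne
    field_simp at e
    rw [GM.det]
    linear_combination e)⟩⟩

@[simp] theorem GM.mul_a (g h : GM) : (g * h).a = g.a * h.a + g.b * h.c := rfl
@[simp] theorem GM.mul_b (g h : GM) : (g * h).b = g.a * h.b + g.b * h.d := rfl
@[simp] theorem GM.mul_c (g h : GM) : (g * h).c = g.c * h.a + g.d * h.c := rfl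
@[simp] theorem GM.mul_d (g h : GM) : (g * h).d = g.c * h.b + g.d * h.d := rfl
@[simp] theorem GM.one_a : (1 : GM).a = 1 := rfl
@[simp] theorem GM.one_b : (1 : GM).b = 0 := rfl
@[simp] theorem GM.one_c : (1 : GM).c = 0 := rfl
@[simp] theorem GM.one_d : (1 : GM).d = 1 := rfl
@[simp] theorem GM.inv_a (g : GM) : g⁻¹.a = g.d / g.det := rfl
@[simp] theorem GM.inv_b (g : GM) : g⁻¹.b = -g.b / g.det := rfl
@[simp] theorem GM.inv_c (g : GM) : g⁻¹.c = -g.c / g.det := rfl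
@[simp] theorem GM.inv_d (g : GM) : g⁻¹.d = g.a / g.det := rfl

instance : Group GM := Group.ofLeftAxioms
  (fun g h k => by ext <;> simp <;> ring) (fun g => by ext <;> simp) fun g => by
    have := g.det_ne
    ext <;> simp <;> field_simp <;> simp [GM.det] <;> ring

theorem GM.det_mul (g h : GM) : (g * h).det = g.det * h.det := by
  simp only [GM.det, GM.mul_a, GM.mul_b, GM.mul_c, GM.mul_d]
  ring

theorem GM.det_inv (g : GM) : g⁻¹.det = g.det⁻¹ := by
  have := g.det_ne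
  rw [GM.det, GM.inv_a, GM.inv_b, GM.inv_c, GM.inv_d]
  field_simp
  rw [GM.det]
  ring

/-- `(g • Q) v = Q (v g) / det g` for row vectors `v` -/
instance : SMul GM QQ := ⟨fun g Q =>
  ⟨(Q.A * g.a ^ 2 + Q.B * g.a * g.b + Q.C * g.b ^ 2) / g.det,
   (2 * Q.A * g.a * g.c + Q.B * (g.a * g.d + g.b * g.c) + 2 * Q.C * g.b * g.d) / g.det,
   (Q.A * g.c ^ 2 + Q.B * g.c * g.d + Q.C * g.d ^ 2) / g.det⟩⟩

theorem QQ.smul_A (g : GM) (Q : QQ) :
    (g • Q).A = (Q.A * g.a ^ 2 + Q.B * g.a * g.b + Q.C * g.b ^ 2) / g.det := rfl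
theorem QQ.smul_B (g : GM) (Q : QQ) : (g • Q).B =
    (2 * Q.A * g.a * g.c + Q.B * (g.a * g.d + g.b * g.c) + 2 * Q.C * g.b * g.d) / g.det := rfl
theorem QQ.smul_C (g : GM) (Q : QQ) :
    (g • Q).C = (Q.A * g.c ^ 2 + Q.B * g.c * g.d + Q.C * g.d ^ 2) / g.det := rfl

instance : MulAction GM QQ where
  one_smul Q := by ext <;> simp [QQ.smul_A, QQ.smul_B, QQ.smul_C, GM.det]
  mul_smul g h Q := by
    have := g.det_ne
    have := h.det_ne
    ext <;> simp only [QQ.smul_A, QQ.smul_B, QQ.smul_C, GM.det_mul, GM.mul_a, GM.mul_b, GM.mul_c,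
      GM.mul_d] <;> field_simp <;> ring

theorem QQ.pair_smul (g : GM) (P Q : QQ) : (g • P).pair (g • Q) = P.pair Q := by
  have := g.det_ne
  simp only [QQ.pair, QQ.smul_A, QQ.smul_B, QQ.smul_C]
  field_simp
  rw [GM.det]
  ring

theorem QQ.disc_smul (g : GM) (Q : QQ) : (g • Q).disc = Q.disc := by
  have := g.det_ne
  simp only [QQ.disc, QQ.smul_A, QQ.smul_B, QQ.smul_C]
  field_simp
  rw [GM.det]
  ring

theorem QQ.smul_lin (g : GM) (a b : ℚ) (P Q : QQ) :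
    g • QQ.lin a P b Q = QQ.lin a (g • P) b (g • Q) := by
  ext <;> simp only [QQ.lin, QQ.smul_A, QQ.smul_B, QQ.smul_C] <;> ring

/-- the rational numbers whose denominators contain only primes with the property `T` -/
def Zl (T : ℕ → Prop) : Subring ℚ where
  carrier := {x | ∀ p : ℕ, p.Prime → p ∣ x.den → T p}
  one_mem' := fun p hp h => absurd (Nat.dvd_one.1 h) hp.ne_one
  zero_mem' := fun p hp h => absurd (Nat.dvd_one.1 h) hp.ne_one
  mul_mem' := fun {x y} hx hy p hp h =>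
    (hp.dvd_mul.1 (h.trans (Rat.mul_den_dvd x y))).elim (hx p hp) (hy p hp)
  add_mem' := fun {x y} hx hy p hp h =>
    (hp.dvd_mul.1 (h.trans (Rat.add_den_dvd x y))).elim (hx p hp) (hy p hp)
  neg_mem' := fun hx p hp h => hx p hp (by simpa using h)

/-- integral at 2, 3 and 5 -/
def RR : Subring ℚ := Zl fun p => ¬ p ∣ 30

/-- integral away from 2, 3 and 5 -/
def SS : Subring ℚ := Zl fun p => p ∣ 30

/-- integral at `p` -/
def RP (p : ℕ) : Subring ℚ := Zl fun q => q ≠ p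

/-- multiples of matrices which are invertible over `A` and triangular modulo `N` -/
def KK (A : Subring ℚ) (N : ℕ) : Subgroup GM where
  carrier := {g | ∃ k : ℚ, k * g.a ∈ A ∧ (∃ y ∈ A, k * g.b = N * y) ∧ k * g.c ∈ A ∧ k * g.d ∈ A ∧
    ∃ e ∈ A, e * (k ^ 2 * g.det) = 1}
  one_mem' := ⟨1, by simp, ⟨0, A.zero_mem, by simp⟩, by simp, by simp, 1, A.one_mem, by
    simp [GM.det]⟩
  mul_mem' := fun {g h} ⟨k, a, ⟨y, hy, b⟩, c, d, e, he, f⟩ ⟨k', a', ⟨y', hy', b'⟩, c', d', e', he', f'⟩ => by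
    have hN : (N : ℚ) ∈ A := natCast_mem A N
    refine ⟨k * k', ?_, ⟨k * g.a * y' + y * (k' * h.d), A.add_mem (A.mul_mem a hy') (A.mul_mem hy d'),
      ?_⟩, ?_, ?_, e * e', A.mul_mem he he', ?_⟩
    · rw [show k * k' * (g * h).a = k * g.a * (k' * h.a) + N * y * (k' * h.c) by
        rw [← b, GM.mul_a]; ring]
      exact A.add_mem (A.mul_mem a a') (A.mul_mem (A.mul_mem hN hy) c')
    · rw [GM.mul_b]
      linear_combination k * g.a * b' + k' * h.d * b
    · rw [show k * k' * (g * h).c = k * g.c * (k' * h.a) + k * g.d * (k' * h.c) by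
        rw [GM.mul_c]; ring]
      exact A.add_mem (A.mul_mem c a') (A.mul_mem d c')
    · rw [show k * k' * (g * h).d = k * g.c * (N * y') + k * g.d * (k' * h.d) by
        rw [← b', GM.mul_d]; ring]
      exact A.add_mem (A.mul_mem c (A.mul_mem hN hy')) (A.mul_mem d d')
    · rw [GM.det_mul]
      linear_combination (e' * (k' ^ 2 * h.det)) * f + f'
  inv_mem' := fun {g} ⟨k, a, ⟨y, hy, b⟩, c, d, e, he, f⟩ => by
    have := g.det_ne
    refine ⟨k * g.det, ?_, ⟨-y, A.neg_mem hy, ?_⟩, ?_, ?_, e, he, ?_⟩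
    · rwa [GM.inv_a, show k * g.det * (g.d / g.det) = k * g.d by field_simp]
    · rw [GM.inv_b, mul_neg, ← b]
      field_simp
    · rw [GM.inv_c, show k * g.det * (-g.c / g.det) = -(k * g.c) by field_simp]
      exact A.neg_mem c
    · rwa [GM.inv_d, show k * g.det * (g.a / g.det) = k * g.a by field_simp]
    · rw [GM.det_inv, ← f]
      field_simp

/-- the level structure at 2, 3 and 5 -/
def H1 : Subgroup GM := KK RR 15

/-- the level structure away from 2, 3 and 5 -/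
def H2 : Subgroup GM := KK SS 1

/-- sums over orbits -/
def cs {G X : Type} [Group G] [MulAction G X] (H : Subgroup G) (f : X → ℤ) : ℤ :=
  ∑ᶠ o : MulAction.orbitRel.Quotient H X, f o.out

/-- `f` vanishes outside finitely many orbits -/
def Fs {G X : Type} [Group G] [MulAction G X] (H : Subgroup G) (f : X → ℤ) : Prop :=
  (Function.support fun o : MulAction.orbitRel.Quotient H X => f o.out).Finite

/-- invariant functions -/
def Iv {G X : Type} [Group G] [MulAction G X] (H : Subgroup G) (f : X → ℤ) : Prop :=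
  ∀ h ∈ H, ∀ x, f (h • x) = f x

/-- pairs with given Gram matrix -/
def Gr (Δ₁ B Δ₂ : ℚ) (x : QQ × QQ) : Prop := x.1.disc = Δ₁ ∧ x.1.pair x.2 = B ∧ x.2.disc = Δ₂

/-- the Jacobi symbol of a rational number -/
def chq (m : ℕ) (x : ℚ) : ℤ := jacobiSym (x.num * x.den) m

/-- the characters of 2-power conductor on rational numbers -/
def c2q (e : ℤ) (x : ℚ) : ℤ := c2 e (x.num * x.den)

/-- the genus character at an odd prime -/
def chipq (p : ℕ) (Q : QQ) : ℤ := if (p : ℤ) ∣ Q.A.num then chq p Q.C else chq p Q.A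

/-- the genus character at two -/
def ch2q (e : ℤ) (Q : QQ) : ℤ := if 2 ∣ Q.A.num then c2q e Q.C else c2q e Q.A

/-- the genus character of an odd number -/
def pq (m : ℕ) (Q : QQ) : ℤ := ∏ p ∈ m.primeFactors, chipq p Q

/-- the genus character -/
def gq (d : ℤ) (Q : QQ) : ℤ := ch2q (e2 d) Q * pq (od d) Q

/-- forms with coefficients in `A` -/
def In (A : Subring ℚ) (Q : QQ) : Prop := Q.A ∈ A ∧ Q.B ∈ A ∧ Q.C ∈ A

/-- forms of level 15 with residue `ρ`, locally at 2, 3 and 5 -/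
def LR (ρ : ℤ) (Q : QQ) : Prop := Q.A / 15 ∈ RR ∧ (Q.B - ρ) / 30 ∈ RR ∧ Q.C ∈ RR

/-- integral forms -/
def Zi (Q : QQ) : Prop := Q.A.den = 1 ∧ Q.B.den = 1 ∧ Q.C.den = 1

/-- the numerators -/
def nu (Q : QQ) : QF := ⟨Q.A.num, Q.B.num, Q.C.num⟩

/-- integral forms as rational forms -/
def toQ (Q : QF) : QQ := ⟨Q.A, Q.B, Q.C⟩

open Classical in
/-- the weight away from thirty -/
def W1 (Δ₁ B Δ₂ : ℚ) (m₁ m₃ : ℕ) (x : QQ × QQ) : ℤ :=
  if Gr Δ₁ B Δ₂ x ∧ In SS x.1 ∧ In SS x.2 then pq m₁ x.1 * pq m₃ x.2 else 0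

open Classical in
/-- the weight at thirty -/
def W2 (Δ₁ B Δ₂ : ℚ) (ρ₁ ρ₂ d₀ : ℤ) (x : QQ × QQ) : ℤ :=
  if Gr Δ₁ B Δ₂ x ∧ LR ρ₁ x.1 ∧ LR ρ₂ x.2 then gq d₀ x.1 * gq d₀ x.2 else 0

open Classical in
/-- the global weight -/
def Wz (u w : QF → ℤ) (B : ℤ) (x : QQ × QQ) : ℤ :=
  if Zi x.1 ∧ Zi x.2 ∧ x.1.pair x.2 = B then u (nu x.1) * w (nu x.2) else 0

end

end Pool.Agent.P.MP_8b7eba_nt.R3
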