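import Mathlib

/-! The minimal model of the twist by a squarefree integer. -/

namespace Pool.Agent.P.MP_8b7eba_nt.R3

/-- A global minimal model of the twist of `X₀(15)` by a squarefree integer `d`. -/
def twa (d : ℤ) : WeierstrassCurve ℤ :=
  if d % 4 = 1 then ⟨1, (-7 * d - 1) / 4, 0, -9 * d ^ 2, 0⟩ else ⟨0, -7 * d, 0, -144 * d ^ 2, 0⟩

end Pool.Agent.P.MP_8b7eba_nt.R3
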