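import Pool.Agent.P.MP_8b7eba_nt.R3.Top2
import Pool.Agent.P.MP_8b7eba_nt.R3.BSqd

/-! Proof of INF, RN, EXM. -/

namespace Pool.Agent.P.MP_8b7eba_nt.R3

open _root_.Pool.Agent.P.MP_8b7eba_nt.Mod (FI L0 om UH)
open R1 (st uu act cjA)
open R2 (Om GQ EO tac io W15 ac sd tau RatP)
open MP_9c97e9_nt (pm)
open scoped R1 R2
open Filter Topology

theorem uu_conj (z : ℂ) : act cjA (uu z) = uu ((starRingEnd ℂ) z) := by
  let A : AddSubgroup ℂ :=
    { carrier := {z | act cjA (uu z) = uu ((starRingEnd ℂ) z)}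
      zero_mem' := by simp
      add_mem' := fun {a b} ha hb => by
        simp only [Set.mem_ofPred_eq, map_add] at ha hb ⊢
        rw [ha, hb]
      neg_mem' := fun {a} ha => by
        simp only [Set.mem_ofPred_eq, map_neg] at ha ⊢
        rw [ha] }
  have hI : 0 < Complex.I.im := by simp
  have h1 : IsOpen (FI '' UH) := by
    rcases (Mod.diff_FI.analyticOnNhd Mod.isOpen_UH).is_constant_or_isOpen
      (convex_halfSpace_im_gt 0).isPreconnected with ⟨w, hw⟩ | h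
    · have h0 : w = 0 := tendsto_nhds_unique (tendsto_const_nhds.congr'
        ((Mod.ev_im 0).mono fun z hz => (hw z hz).symm)) Mod.tendsto_FI
      have h2 := R1.oth_FI_W hI
      rw [hw _ (Mod.M2.im_act_pos (by decide) hI), hw _ hI, h0, neg_zero, zero_add] at h2
      exact absurd (by exact_mod_cast h2.symm) Mod.L0_ne
    · exact h _ subset_rfl Mod.isOpen_UH
  have h2 : IsOpen (A : Set ℂ) := A.isOpen_of_mem_nhds (g := FI Complex.I)
    (mem_of_superset (h1.mem_nhds ⟨_, hI, rfl⟩) (by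
      rintro _ ⟨w, hw, rfl⟩
      exact (congrArg _ (R1.uu_FI hw)).trans (R1.oth_act_Pz hw)))
  exact ((IsClopen.eq_univ ⟨A.isClosed_of_isOpen h2, h2⟩ ⟨0, A.zero_mem⟩).ge (Set.mem_univ z) :)

theorem a_INF : INF := by
  intro Z z δ sk l m u v hl hsk hδ hm hZ hK hz huv
  have hT := R2.a_CA.tau
  have hF : R2.Fix ⊤ (δ ^ 2) := by rw [hδ]; exact R2.fix_int m
  have e1 : pm W15 io (ac tau Z) = uu ((starRingEnd ℂ) z) := by
    rw [← uu_conj, ← hz, ac, act, MP_9c97e9_nt.pm_pm]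
    exact (congrArg (pm W15 · Z) (RingHom.ext hT.1)).trans (MP_9c97e9_nt.pm_pm _ _ Z).symm
  have e2 : sd δ tau = m.sign := by
    rcases lt_or_gt_of_ne hm with s | s
    · rw [Int.sign_eq_neg_one_of_neg s, R2.sd_eq_neg]
      exact fun e => s.not_gt ((R2.qz_tau hT hm).1 ((R2.qz_eq_zero hδ).2 e))
    · rw [Int.sign_eq_one_of_pos s, R2.sd_eq_one]
      exact (R2.qz_eq_zero hδ).1 ((R2.qz_tau hT hm).2 s)
  have e3 : m.sign * m.sign = 1 := e2 ▸ R2.sd_sq δ tau
  have e4 : IsOfFinAddOrder (tac δ tau Z - Z) := by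
    have k : IsOfFinAddOrder (m.sign • uu ((starRingEnd ℂ) z) - uu z) := by
      rw [← one_zsmul (uu z), ← e3, mul_zsmul, ← zsmul_sub, ← map_zsmul, ← map_sub, zsmul_eq_mul,
        huv, map_add, mul_assoc]
      exact ((R1.unif_rat (isOfFinAddOrder_iff_nsmul_eq_zero.2 ⟨4, by norm_num, R1.c0_four⟩) u).add
        (R1.unif_rat (isOfFinAddOrder_iff_nsmul_eq_zero.2 ⟨2, by norm_num, R1.unif_om⟩) v)).zsmul
    rw [← (MP_9c97e9_nt.pm_injective (W := W15) io).isOfFinAddOrder_iff, map_sub, R2.tac_apply,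
      map_zsmul, e1, hz, e2]
    exact k
  obtain ⟨n, n0, hn⟩ := isOfFinAddOrder_iff_nsmul_eq_zero.1 e4
  rw [nsmul_sub, sub_eq_zero, ← map_nsmul] at hn
  have hs : ∀ g : GQ, g sk = sk ∨ g sk = -sk := fun g => sq_eq_sq_iff_eq_or_eq_neg.1 (by
    rw [← map_pow, hsk, map_neg, map_natCast])
  have ht : tau sk = -sk := (hs tau).resolve_left fun e => by
    have := (R2.qz_tau hT (m := -l) (by omega)).1
      ((R2.qz_eq_zero (by rw [hsk]; push_cast; rfl)).2 e)
    omega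
  have hP : n • Z ∈ RatP δ := fun g => by
    rcases hs g with e | e
    · rw [map_nsmul, hK g e]
    · rw [← hn, ← R2.tac_mul hF, hn, map_nsmul, hK]
      rw [AlgEquiv.mul_apply, ht, map_neg, e, neg_neg]
  refine Set.infinite_of_injective_forall_mem (f := fun k : ℕ => k • n • Z)
    (injective_nsmul_iff_not_isOfFinAddOrder.2 fun h => hZ (h.of_nsmul n0.ne')) fun k g => ?_
  rw [map_nsmul, hP g]

theorem a_RN : RN := by
  intro d hd
  have k : ∀ p : ℕ, p.Prime → ¬ (p : ℤ) ∣ d → jacobiSym d p = 1 ∨ jacobiSym d p = -1 :=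
    fun p hp h => jacobiSym.eq_one_or_neg_one (Int.isCoprime_iff_gcd_eq_one.1
      ((Nat.prime_iff_prime_int.1 hp).coprime_iff_not_dvd.2 h).symm)
  have h1 : d.sign = 1 ∨ d.sign = -1 :=
    (lt_or_gt_of_ne hd).symm.imp Int.sign_eq_one_of_pos Int.sign_eq_neg_one_of_neg
  have h3 : (if 3 ∣ d then 1 else jacobiSym d 3) = 1 ∨
      (if 3 ∣ d then 1 else jacobiSym d 3) = -1 := by
    split_ifs with h
    exacts [.inl rfl, k 3 Nat.prime_three h]
  have h5 : (if 5 ∣ d then -1 else jacobiSym d 5) = 1 ∨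
      (if 5 ∣ d then -1 else jacobiSym d 5) = -1 := by
    split_ifs with h
    exacts [.inr rfl, k 5 Nat.prime_five h]
  unfold rn
  rcases h1 with a | a <;> rcases h3 with b | b <;> rcases h5 with c | c <;> rw [a, b, c] <;>
    norm_num

/-- a property which holds for almost all twists holds for a twist in every residue class -/
theorem exn_of_nul {P : ℤ → Prop} (h : Nul fun d => ¬ P d) {d₀ : ℤ} {q a : ℕ} (h1 : Squarefree d₀)
    (h2 : d₀ ∣ 30) (h3 : 30 ∣ q) (h4 : q ≠ 0) (h5 : a.Coprime q) :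
    ∃ m : ℕ, m % q = a % q ∧ Squarefree m ∧ P (d₀ * st m) := by
  by_contra hc
  push Not at hc
  obtain ⟨c, c0, X₀, hX⟩ := t_SQD q a h4 h5
  obtain ⟨X₁, hY⟩ := eventually_atTop.1 (h (c / 60) (by positivity))
  have ab : ∀ m : ℕ, (d₀ * st m).natAbs = d₀.natAbs * m := fun m => by
    rw [Int.natAbs_mul]
    exact congrArg _ (SM.BasG.abs_ps m)
  have d0 := Int.natAbs_pos.2 h1.ne_zero
  have d1 : d₀.natAbs ≤ 30 := Int.natAbs_le_of_dvd_ne_zero h2 (by norm_num)
  have a1 := hX (X₀ + X₁ + 1) (by omega)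
  have a2 := hY (30 * (X₀ + X₁ + 1)) (by omega)
  generalize hN : X₀ + X₁ + 1 = X at a1 a2
  have a3 : ((Finset.Icc 1 X).filter fun n => Squarefree n ∧ n % q = a % q).card ≤
      {d ∈ Fam (30 * X) | ¬ P d}.ncard := by
    rw [← Set.ncard_coe_finset]
    refine Set.ncard_le_ncard_of_injOn (fun m : ℕ => d₀ * st m) (fun m hm => ?_)
      (fun m _ m' _ e => ?_) ((fam_finite _).subset fun _ h => h.1)
    · obtain ⟨b1, b2, b3⟩ := Finset.mem_filter.1 (Finset.mem_coe.1 hm)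
      have b4 := Nat.mul_le_mul d1 (Finset.mem_Icc.1 b1).2
      refine ⟨⟨?_, ?_⟩, hc m b3 b2⟩
      · rw [Int.abs_eq_natAbs, ab]
        exact_mod_cast b4
      · rw [← Int.squarefree_natAbs, ab, Nat.squarefree_mul_iff]
        refine ⟨?_, Int.squarefree_natAbs.2 h1, b2⟩
        have b5 : m.Coprime q := by
          rw [Nat.Coprime, Nat.ModEq.gcd_eq b3]
          exact h5
        exact (b5.coprime_dvd_right ((Int.natAbs_dvd_natAbs.2 h2).trans h3)).symm
    · have := congrArg Int.natAbs e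
      rw [ab, ab] at this
      exact Nat.eq_of_mul_eq_mul_left d0 this
  have a4 := (Nat.cast_le (α := ℝ)).2 a3
  have a5 : (0 : ℝ) < c * X := mul_pos c0 (by exact_mod_cast (by omega : 0 < X))
  push_cast at a2
  linarith

theorem a_EXM (hC : DENSN) : EXM := fun T k _ _ _ h1 h2 h3 h4 h5 =>
  (exn_of_nul (nul_nice hC T k) h1 h2 ((by norm_num : 30 ∣ 120).trans h3) h4 h5).imp
    fun _ h => ⟨h.1, h.2.2⟩

end Pool.Agent.P.MP_8b7eba_nt.R3
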