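import Pool.Agent.P.MP_8b7eba_nt.R3.DefD

/-! Statements of the analytic block of the project R3. -/

namespace Pool.Agent.P.MP_8b7eba_nt.R3

open _root_.Pool.Agent.P.MP_8b7eba_nt.Mod (M2 G0 FI L0 om lv)
open R1 (QF Hg Lv st Rq uu VV lf wf cnt Wt VB Dual gg dualB_F dualB_M)
open BSD15 (Adm Prim dt)
open Filter Topology Finset
open scoped Real ComplexConjugate

/-! ### Characters and the L-function -/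

/-- the Kronecker symbol -/
structure KC : Prop where
  par : ∀ d, Squarefree d → Odd (od d) ∧ Squarefree (od d) ∧ d = e2 d * st (od d) ∧
    (e2 d = 1 ∧ ds d = st (od d) ∨
      (e2 d = -1 ∨ e2 d = 2 ∨ e2 d = -2) ∧ ds d = 4 * e2 d * st (od d))
  mul : ∀ d x y, kc d (x * y) = kc d x * kc d y
  one : ∀ d, kc d 1 = 1
  per : ∀ d x y, Squarefree d → ds d ∣ x - y → kc d x = kc d y
  neg : ∀ d, Squarefree d → kc d (-1) = d.sign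
  tri : ∀ d x, Squarefree d → IsCoprime x (ds d) ∧ (kc d x = 1 ∨ kc d x = -1) ∨
    ¬ IsCoprime x (ds d) ∧ kc d x = 0
  odd : ∀ (d : ℤ) (p : ℕ), Squarefree d → Odd p → kc d p = jacobiSym d p
  root : ∀ d, Squarefree d → rn d = -(es d * kc d (-el d)) ∧ IsCoprime (el d) (ds d)
  prim : ∀ (d : ℤ) (p : ℕ), Squarefree d → p.Prime → p ∣ cd d →
    ∃ u : ℕ, u.Coprime (cd d) ∧ u ≡ 1 [MOD cd d / p] ∧ kc d u = -1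
  sum : ∀ d, Squarefree d → d ≠ 1 → ∑ c ∈ range (cd d), kc d c = 0
  tw : ∀ (d₀ : ℤ) (m : ℕ), D0 d₀ → Adm m → Squarefree (d₀ * st m) ∧ od (d₀ * st m) = od d₀ * m ∧
    e2 (d₀ * st m) = e2 d₀ ∧ ds (d₀ * st m) = ds d₀ * st m ∧
    (∀ x, kc (d₀ * st m) x = kc d₀ x * jacobiSym x m) ∧
    ∀ Q, gch (d₀ * st m) Q = gch d₀ Q * pz m Q
  dec : ∀ d, Squarefree d → ∃ (d₀ : ℤ) (m : ℕ), D0 d₀ ∧ Adm m ∧ d = d₀ * st m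
  pl : ∀ (D ρ : ℤ) (m : ℕ), Odd m → wg D ρ (st m) = wf D ρ m
  abs : ∀ d Q, |gch d Q| ≤ 1

/-- Gauss sums -/
def GAUSS : Prop :=
  ∀ d : ℤ, Squarefree d → ∃ τ : ℂ, τ ≠ 0 ∧ ∀ n : ℕ, ∑ a ∈ range (cd d),
    (kc d a : ℂ) * Complex.exp (2 * π * Complex.I * (a * n / cd d)) = kc d n * τ

/-- the L-function and its central value -/
def LEX : Prop :=
  ∀ d : ℤ, Squarefree d → (∃ f, BSD15.IsL (-12987 * d ^ 2) (-263466 * d ^ 3) f) ∧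
    ∀ f, BSD15.IsL (-12987 * d ^ 2) (-263466 * d ^ 3) f → (f 1 = 0 ↔ Lam d = 0)

/-- the functional equation at the centre -/
def LZ : Prop :=
  ∀ d : ℤ, Squarefree d → d ≠ 1 → Lam d = rn d * Lam d ∧ conj (Lam d) = d.sign * Lam d

/-! ### Integral forms -/

/-- invariance of the genus character -/
def GINV : Prop :=
  ∀ (d E E' k : ℤ) (P Q : QF) (g : M2), Squarefree d → M4 E → M4 E' → Q.disc = ds d * E →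
    P.disc = ds d * E' → IsCoprime (k * g.det) (ds d) →
    Q.cmp g = ⟨k * P.A, k * P.B, k * P.C⟩ → gch d Q = kc d k * gch d P

/-- complex conjugation -/
def CONJG : Prop :=
  ∀ (d E ρ : ℤ) (N : ℕ) (S : Finset QF), Squarefree d → 0 < N → -(N : ℤ) = ds d * E → M4 E →
    Rs N ρ (wg (-N) ρ d) S → ∃ u v : ℚ, conj (ZS S (wg (-N) ρ d)) +
      rn d * d.sign * ZS S (wg (-N) ρ d) = u * L0 + v * om * Complex.I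

/-- the divisor has degree zero -/
def SUM0 : Prop :=
  ∀ (d d' ρ : ℤ) (N : ℕ) (S : Finset QF), Squarefree d → Squarefree d' → d ≠ 1 → d' ≠ 1 → 0 < N →
    -(N : ℤ) = ds d * ds d' → Rs N ρ (wg (-N) ρ d) S → ∑ P ∈ S, wg (-N) ρ d P = 0

/-- representatives exist -/
def RSX : Prop :=
  ∀ (N F x : ℕ) (ρ : ℤ), F ≠ 0 → N = F ^ 2 * x → x % 8 = 7 → ∃ S, ∀ u, Rs N ρ u S

/-- the Green function at the Heegner points -/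
def HSUM : Prop :=
  ∀ (N : ℕ) (ρ D : ℤ) (S : Finset QF) (u w : QF → ℤ) (s : ℝ), 0 < N → (∀ P ∈ S, Hg N ρ P) → 0 < D →
    (∀ Q, w Q ≠ 0 → Q.disc = D) → (∀ Q, |w Q| ≤ 4) → 1 < s → s ≤ 2 →
    HasSum (fun B : ℤ => (NS S u w B : ℝ) * gg s (-B / √(N * D)))
      (∑ P ∈ S, (u P : ℝ) * VV w s P.tau)

/-- the product of all genus characters is trivial -/
def SWP : Prop :=
  ∀ (a b : ℕ) (F : ℤ) (Q : QF), Adm (a * b) → Sq120 (a * b) →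
    (∀ p : ℕ, p.Prime → (p : ℤ) ∣ F → p ∣ 30) → Q.disc = F ^ 2 * (a * b) → pz a Q = pz b Q

/-- cycles of non-square discriminant -/
def LIMN : Prop :=
  ∀ d E ρ : ℤ, Squarefree d → M4 E → 0 < ds d * E → ¬ IsSquare (ds d * E) →
    ∃ α β, Lim (wg (ds d * E) ρ d) α β

/-- bounded partial sums -/
def VBG : Prop :=
  ∀ (D : ℤ) (u : QF → ℤ) (m N₀ : ℕ), Adm m → 1 < m → N₀ ≠ 0 → N₀.Coprime m →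
    (∀ k : ℤ, k ^ 2 = D → (m : ℤ) ∣ k) → (∀ Q, |u Q| ≤ 1) →
    (∀ Q Q' : QF, Q.disc = Q'.disc → (N₀ : ℤ) ∣ Q.A - Q'.A → (N₀ : ℤ) ∣ Q.B - Q'.B →
      (N₀ : ℤ) ∣ Q.C - Q'.C → u Q = u Q') → VB D fun Q => u Q * pz m Q

/-- unfolding of a family of forms -/
def Unf (w : QF → ℤ) (n : ℕ) (F : ℕ → QF) : Prop :=
  ∀ f : QF → ℝ, Function.HasFiniteSupport f → (∀ Q, f Q ≠ 0 → w Q ≠ 0) →
    ∑ c ∈ range n, ∑ᶠ h : BSD15.Gam, f ((F c).cmp (dualB_M h)) = 2 * ∑ᶠ Q, f Q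

/-- cycles of geodesics between cusps -/
def DFAM : Prop :=
  ∀ (D e : ℤ) (w : QF → ℤ) (n γ : ℕ) (F : ℕ → QF) (y₁ : ℕ → BSD15.V) (y₂ : BSD15.V), e * e = 1 →
    Wt D w → Unf w n F → Prim y₂ → Int.gcd y₂.2 15 ≠ 3 → γ ≠ 3 → ∑ c ∈ range n, w (F c) = 0 →
    (∀ c < n, w (F c) ≠ 0 → Prim (y₁ c) ∧ Int.gcd (y₁ c).2 15 = γ ∧ dt (y₁ c) y₂ < 0 ∧
      ∃ κ : ℤ, 0 < κ ∧ ∀ x : BSD15.V, (F c).ev x.1 x.2 = -e * κ * (dt x (y₁ c) * dt x y₂)) →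
    ∃ α β : ℚ, Dual w α β ∧ ∑ c ∈ range n, (w (F c) : ℂ) * lv (y₁ c).1 (y₁ c).2 =
      e * (4 * β * L0 - 2 * α * om * Complex.I)

/-- the forms of square discriminant -/
def DUNF : Prop :=
  ∀ d : ℤ, Squarefree d → Unf (wg (ds d ^ 2) (ds d) d) (cd d) (dualB_F d.sign (cd d)) ∧
    (∀ c : ℕ, wg (ds d ^ 2) (ds d) d (dualB_F d.sign (cd d) c) = kc d c) ∧
    ∀ Q, wg (ds d ^ 2) (ds d) d Q ≠ 0 → ∃ g, G0 g ∧ ∃ c < cd d, Q.cmp g = dualB_F d.sign (cd d) c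

/-- the conclusion for square discriminants -/
def SqC (d : ℤ) : Prop :=
  ∃ (α β : ℚ) (ε : ℤ), ε ≠ 0 ∧ Lim (wg (ds d ^ 2) (ds d) d) α β ∧
    Lam d = ε * (4 * β * L0 - 2 * α * om * Complex.I)

/-- square discriminants, no geodesic ends at a cusp equivalent to `1/3` -/
def SQA : Prop :=
  ∀ (d₀ : ℤ) (m : ℕ), D0 d₀ → Adm m → 1 < m → (3 ∣ d₀ → 5 ∣ d₀) → SqC (d₀ * st m)

/-- square discriminants, the remaining case -/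
def SQB : Prop :=
  ∀ (d₀ : ℤ) (m : ℕ), D0 d₀ → Adm m → 1 < m → 3 ∣ d₀ → ¬ 5 ∣ d₀ → SqC (d₀ * st m)

/-- square discriminants -/
def SQ : Prop :=
  ∀ (d₀ : ℤ) (m : ℕ), D0 d₀ → Adm m → 1 < m → ∃ α β : ℚ,
    Lim (wg (ds (d₀ * st m) ^ 2) (ds (d₀ * st m)) (d₀ * st m)) α β ∧
    (cf (d₀ * st m) α β = 0 ↔ Lam (d₀ * st m) = 0)

/-! ### Orbits -/

/-- factorisation of sums over orbits -/
def FAC : Prop :=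
  ∀ (G X : Type) [Group G] [MulAction G X] (H K : Subgroup G) (Y : X → Prop) (f f' : X → ℤ),
    (∀ g, ∃ h ∈ H, ∃ k ∈ K, g = h * k) → (∀ x y, Y x → Y y → ∃ g : G, g • x = y) →
    (∀ x (g : G), Y x → g • x = x → g ∈ H ⊓ K) → (∀ x (g : G), Y x → Y (g • x)) →
    (∀ x, f x ≠ 0 → Y x) → (∀ x, f' x ≠ 0 → Y x) → Iv K f → Iv H f' →
    cs (H ⊓ K) (f * f') = cs K f * cs H f' ∧
      (Fs (H ⊓ K) (f * f') → (∃ x, f x ≠ 0 ∧ f' x ≠ 0) → (∀ x, 0 ≤ f' x) → cs H f' ≠ 0)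

/-- equivariant bijections -/
def CSE : Prop :=
  ∀ (G X : Type) [Group G] [MulAction G X] (H : Subgroup G) (e : X ≃ X) (f : X → ℤ) (k : ℤ),
    (∀ (g : G) x, e (g • x) = g • e x) → Iv H f → cs H (fun x => k * f (e x)) = k * cs H f

/-- strong approximation -/
def HH : Prop := ∀ g : GM, ∃ h ∈ H1, ∃ k ∈ H2, g = h * k

/-- the intersection of the two groups -/
def GAM : Prop :=
  ∀ g : GM, g ∈ H1 ⊓ H2 ↔ ∃ (k : ℚ) (γ : M2), (γ.det = 1 ∨ γ.det = -1) ∧ 15 ∣ γ.c ∧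
    g.a = k * γ.a ∧ g.b = k * γ.c ∧ g.c = k * γ.b ∧ g.d = k * γ.d

/-- forms of the same discriminant are conjugate -/
def TR1 : Prop := ∀ P P' : QQ, P.disc ≠ 0 → P.disc = P'.disc → ∃ g : GM, g • P = P'

/-- pairs with the same Gram matrix are conjugate -/
def TRF : Prop :=
  ∀ (Δ₁ B Δ₂ : ℚ) (x : QQ × QQ), Δ₁ ≠ 0 → B ^ 2 ≠ Δ₁ * Δ₂ → Gr Δ₁ B Δ₂ x →
    (∀ y, Gr Δ₁ B Δ₂ y → ∃ g : GM, g • x = y) ∧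
    ∀ g : GM, g • x = x → g.b = 0 ∧ g.c = 0 ∧ g.a = g.d

/-- a norm equation -/
def EXI : Prop :=
  ∀ (Δ₁ B Δ₂ Δ₁' Δ₂' : ℚ) (x x' : QQ × QQ), Δ₁ ≠ 0 → B ^ 2 ≠ Δ₁ * Δ₂ → Δ₁' * Δ₂' = Δ₁ * Δ₂ →
    Gr Δ₁ B Δ₂ x → Gr Δ₁' B Δ₂' x' →
    ∃ a b : ℚ, (a ^ 2 - (B ^ 2 - Δ₁ * Δ₂) * b ^ 2) * Δ₁ = Δ₁'

/-- weak approximation for the norm equation -/
def APX : Prop :=
  ∀ (δ a₀ b₀ : ℚ) (n₁ n₃ t : ℤ), IsCoprime n₁ 30 → IsCoprime t 30 → 120 ∣ n₃ - t ^ 2 * n₁ →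
    ¬ IsSquare (n₁ * n₃) → a₀ ^ 2 - δ * b₀ ^ 2 = n₃ / n₁ → ∃ (a b : ℚ) (t' : ℤ),
      a ^ 2 - δ * b ^ 2 = n₃ / n₁ ∧ 30 ∣ t' - t ∧ (a - t') / 120 ∈ RR ∧ b / 120 ∈ RR

/-- the local weight is locally constant -/
def LC : Prop :=
  ∀ (d₀ ρ₁ ρ₂ ρ₁' ρ₂' t : ℤ) (α β γ ε : ℚ) (P Q : QQ), D0 d₀ → IsCoprime t 30 →
    (α - t) / 120 ∈ RR → β / 120 ∈ RR → γ / 120 ∈ RR → α * ε - β * γ = 1 → 30 ∣ ρ₁' - t * ρ₁ →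
    30 ∣ ρ₂ - t * ρ₂' →
    (LR ρ₁ P ∧ LR ρ₂ Q ↔ LR ρ₁' (QQ.lin α P β Q) ∧ LR ρ₂' (QQ.lin γ P ε Q)) ∧
    (LR ρ₁ P → LR ρ₂ Q →
      gq d₀ (QQ.lin α P β Q) * gq d₀ (QQ.lin γ P ε Q) = gq d₀ P * gq d₀ Q)

/-- the local genus characters -/
def CHQ : Prop :=
  (∀ (p : ℕ) (g : GM) (k : ℚ) (Q : QQ), p.Prime → p ≠ 2 → k * g.a ∈ RP p → k * g.b ∈ RP p →
    k * g.c ∈ RP p → k * g.d ∈ RP p → (k ^ 2 * g.det)⁻¹ ∈ RP p → k ≠ 0 → In (RP p) Q →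
    Q.disc / p ∈ RP p → chipq p (g • Q) = chq p (k ^ 2 * g.det) * chipq p Q) ∧
  ∀ (e E : ℤ) (g : GM) (k : ℚ) (Q : QQ), e = -1 ∨ e = 2 ∨ e = -2 → M4 E → k * g.a ∈ RP 2 →
    k * g.b ∈ RP 2 → k * g.c ∈ RP 2 → k * g.d ∈ RP 2 → (k ^ 2 * g.det)⁻¹ ∈ RP 2 → k ≠ 0 →
    In (RP 2) Q → Q.disc = 4 * e * E → ch2q e (g • Q) = c2q e (k ^ 2 * g.det) * ch2q e Q

/-- invariance of the weight away from thirty -/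
def INV1 : Prop :=
  ∀ (E₁ E₂ : ℤ) (B : ℚ) (m₁ m₃ : ℕ), Adm m₁ → Adm m₃ → Sq120 (m₁ * m₃) →
    Iv H2 (W1 (m₁ * E₁) B (m₃ * E₂) m₁ m₃)

/-- invariance of the weight at thirty -/
def INV2 : Prop :=
  ∀ (E₁ E₂ ρ₁ ρ₂ d₀ : ℤ) (B : ℚ), D0 d₀ → M4 E₁ → M4 E₂ →
    Iv H1 (W2 (ds d₀ * E₁) B (ds d₀ * E₂) ρ₁ ρ₂ d₀)

/-- comparison of the local sums -/
def LOC : Prop :=
  ∀ (d₀ E₁ E₂ E₁' E₂' B ρ₁ ρ₂ ρ₁' ρ₂' n₁ n₃ t : ℤ), D0 d₀ → M4 E₁' → M4 E₂' → E₁ ≠ 0 →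
    B ^ 2 ≠ ds d₀ * E₁ * (ds d₀ * E₂) → n₁ * E₁' = n₃ * E₁ → n₃ * E₂' = n₁ * E₂ →
    IsCoprime n₁ 30 → IsCoprime t 30 → 120 ∣ n₃ - t ^ 2 * n₁ → ¬ IsSquare (n₁ * n₃) →
    30 ∣ ρ₁' - t * ρ₁ → 30 ∣ ρ₂ - t * ρ₂' → (∃ x, Gr (ds d₀ * E₁) B (ds d₀ * E₂) x) →
    (∃ x, Gr (ds d₀ * E₁') B (ds d₀ * E₂') x) →
    cs H1 (W2 (ds d₀ * E₁) B (ds d₀ * E₂) ρ₁ ρ₂ d₀) =
      cs H1 (W2 (ds d₀ * E₁') B (ds d₀ * E₂') ρ₁' ρ₂' d₀)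

/-- scaling -/
def SCL : Prop :=
  ∀ (E₁ E₂ : ℤ) (B a b : ℚ) (m₁ m₃ : ℕ), Adm m₁ → Adm m₃ → Sq120 (m₁ * m₃) → a ≠ 0 → b ≠ 0 →
    a ∈ SS → a⁻¹ ∈ SS → b ∈ SS → b⁻¹ ∈ SS →
    cs H2 (W1 (a ^ 2 * (m₁ * E₁)) (a * b * B) (b ^ 2 * (m₃ * E₂)) m₁ m₃) =
      chq m₁ a * chq m₃ b * cs H2 (W1 (m₁ * E₁) B (m₃ * E₂) m₁ m₃)

/-- the global weight is the product of the two weights -/
def WFAC : Prop :=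
  ∀ (Δ₁ B Δ₂ ρ₁ ρ₂ d₀ : ℤ) (m₁ m₃ : ℕ), D0 d₀ → Adm m₁ → Adm m₃ →
    Wz (wg Δ₁ ρ₁ (d₀ * st m₁)) (wg Δ₂ ρ₂ (d₀ * st m₃)) B =
      W1 Δ₁ B Δ₂ m₁ m₃ * W2 Δ₁ B Δ₂ ρ₁ ρ₂ d₀

/-- the number of pairs as a sum over orbits -/
def R1X : Prop :=
  ∀ (N : ℕ) (ρ D B : ℤ) (S : Finset QF) (u w : QF → ℤ), 0 < N → Rs N ρ u S →
    (∀ P, u P ≠ 0 → Lv (-N) ρ P) → (∀ Q, w Q ≠ 0 → Q.disc = D) →
    (∀ P g, G0 g → u (P.cmp g) = u P) → (∀ Q g, G0 g → w (Q.cmp g) = w Q) →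
    (∀ P Q, u P.mir * w Q.mir = u P * w Q) →
    NS S u w B = cs (H1 ⊓ H2) (Wz u w B) ∧ Fs (H1 ⊓ H2) (Wz u w B)

/-- the factorisation of the number of pairs -/
def NFAC : Prop :=
  ∀ (d₀ E₁ E₂ ρ₁ ρ₂ B : ℤ) (m₁ m₃ N : ℕ) (S : Finset QF), D0 d₀ → Adm m₁ → Adm m₃ →
    Sq120 (m₁ * m₃) → M4 E₁ → M4 E₂ → 0 < N → -(N : ℤ) = ds (d₀ * st m₁) * E₁ →
    0 < ds (d₀ * st m₃) * E₂ → Rs N ρ₁ (wg (-N) ρ₁ (d₀ * st m₁)) S →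
    NS S (wg (-N) ρ₁ (d₀ * st m₁)) (wg (ds (d₀ * st m₃) * E₂) ρ₂ (d₀ * st m₃)) B =
      cs H2 (W1 (-N) B (ds (d₀ * st m₃) * E₂ : ℤ) m₁ m₃) *
        cs H1 (W2 (-N) B (ds (d₀ * st m₃) * E₂ : ℤ) ρ₁ ρ₂ d₀)

/-- the local sum does not vanish -/
def POS : Prop :=
  ∀ (N F x : ℕ) (ρ₁ ρ₂ D B : ℤ) (P Q : QF), F ≠ 0 → N = F ^ 2 * x → x % 8 = 7 → 0 < D →
    P.pair Q = B → Lv (-N) ρ₁ P → Lv D ρ₂ Q → cs H1 (W2 (-N) B D ρ₁ ρ₂ 1) ≠ 0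

/-! ### Closed formulas -/

/-- one form has square discriminant -/
def EVS : Prop :=
  ∀ (m₁ m₂ m₃ F M : ℕ) (B : ℤ) (S : Finset QF), Tri m₁ m₂ m₃ → 30 ∣ F →
    (∀ p : ℕ, p.Prime → p ∣ F → p ∣ 30) → 30 ∣ B →
    Rs (F ^ 2 * (m₁ * m₂)) 0 (wf (-(F ^ 2 * (m₁ * m₂) : ℕ)) 0 m₁) S →
    60 * M = B ^ 2 + F ^ 2 * (m₁ * m₂) * m₃ ^ 2 →
    NS S (wf (-(F ^ 2 * (m₁ * m₂) : ℕ)) 0 m₁) (wf (m₃ ^ 2) (st m₃) m₃) B =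
      if IsCoprime B m₃ then jacobiSym (-2 * B) m₃ * jacobiSym 15 m₃ *
        ∑ e ∈ M.divisors, jacobiSym (e : ℕ) m₃ * R2.UM m₁ M e else 0

/-- one form has fundamental discriminant -/
def NPR : Prop :=
  ∀ (m₁ m₂ m₃ F M : ℕ) (B ρ : ℤ), Tri m₁ m₂ m₃ → 30 ∣ F → (∀ p : ℕ, p.Prime → p ∣ F → p ∣ 30) →
    30 ∣ B → 60 ∣ ρ ^ 2 + m₂ * m₃ → 60 * M = B ^ 2 + F ^ 2 * (m₁ * m₂) * m₃ ^ 2 →
    ∃ S, Rs (m₂ * m₃) ρ (wf (-(m₂ * m₃ : ℕ)) ρ m₃) S ∧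
      NS S (wf (-(m₂ * m₃ : ℕ)) ρ m₃) (wf (F ^ 2 * (m₁ * m₃)) 0 m₁) B =
        if IsCoprime B m₃ then jacobiSym (-2 * B) m₃ * cnt (m₂ * m₃) B M else 0

/-- the arithmetic identity -/
def ARI : Prop :=
  ∀ (m₁ m₂ m₃ F M : ℕ) (B : ℤ), Tri m₁ m₂ m₃ → F ≠ 0 → (∀ p : ℕ, p.Prime → p ∣ F → p ∣ 30) →
    60 * M = B ^ 2 + F ^ 2 * (m₁ * m₂) * m₃ ^ 2 → IsCoprime B m₃ →
    ∑ e ∈ M.divisors, jacobiSym (e : ℕ) m₃ * R2.UM m₁ M e =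
      jacobiSym 15 m₁ * cnt (m₂ * m₃) B M

/-- the sums away from thirty agree -/
def AWAY : Prop :=
  ∀ (m₁ m₂ m₃ F : ℕ) (B : ℤ), Tri m₁ m₂ m₃ → 30 ∣ F → (∀ p : ℕ, p.Prime → p ∣ F → p ∣ 30) →
    cs H2 (W1 (-(F ^ 2 * (m₁ * m₂))) (30 * B) (m₃ ^ 2) m₁ m₃) =
      cs H2 (W1 (-(m₂ * m₃)) (30 * B) (F ^ 2 * (m₁ * m₃)) m₃ m₁)

/-- the identity between the numbers of pairs -/
def IDN : Prop :=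
  ∀ (d₀ t ρ ρ' B : ℤ) (m₁ m₂ m₃ N N' : ℕ) (S S' : Finset QF), D0 d₀ → Tri m₁ m₂ m₃ →
    IsCoprime t 30 → 120 ∣ st m₃ - t ^ 2 * st m₁ → 30 ∣ ρ' - t * ρ →
    N = cd d₀ ^ 2 * (m₁ * m₂) → N' = cd d₀ ^ 2 * (m₂ * m₃) →
    Rs N ρ (wg (-N) ρ (d₀ * st m₁)) S → Rs N' ρ' (wg (-N') ρ' (d₀ * st m₃)) S' →
    NS S (wg (-N) ρ (d₀ * st m₁))
        (wg (ds (d₀ * st m₃) ^ 2) (ds (d₀ * st m₃)) (d₀ * st m₃)) B =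
      NS S' (wg (-N') ρ' (d₀ * st m₃))
        (wg (ds d₀ ^ 2 * (m₁ * m₃)) (t * ds (d₀ * st m₁)) (d₀ * st m₁)) B

/-- the relation between Heegner points -/
def IDC : Prop :=
  ∀ (d₀ t ρ ρ' : ℤ) (m₁ m₂ m₃ N N' : ℕ) (S S' : Finset QF) (α β α' β' : ℚ), D0 d₀ →
    Tri m₁ m₂ m₃ → 1 < m₁ → 1 < m₂ → IsCoprime t 30 → 120 ∣ st m₃ - t ^ 2 * st m₁ →
    30 ∣ ρ' - t * ρ → N = cd d₀ ^ 2 * (m₁ * m₂) → N' = cd d₀ ^ 2 * (m₂ * m₃) →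
    Rs N ρ (wg (-N) ρ (d₀ * st m₁)) S → Rs N' ρ' (wg (-N') ρ' (d₀ * st m₃)) S' →
    rn (d₀ * st m₁) = 1 → rn (d₀ * st m₃) = 1 →
    Lim (wg (ds (d₀ * st m₃) ^ 2) (ds (d₀ * st m₃)) (d₀ * st m₃)) α β →
    Lim (wg (ds d₀ ^ 2 * (m₁ * m₃)) (t * ds (d₀ * st m₁)) (d₀ * st m₁)) α' β' →
    Rq (cf (d₀ * st m₁) α β * tZ (d₀ * st m₁) (ZS S (wg (-N) ρ (d₀ * st m₁))) -
      cf (d₀ * st m₁) α' β' * tZ (d₀ * st m₁) (ZS S' (wg (-N') ρ' (d₀ * st m₃))))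

/-- the same class -/
def Cl (m n : ℕ) : Prop :=
  m % 4 = n % 4 ∧ ∃ t : ℤ, IsCoprime t 30 ∧ 120 ∣ st n - t ^ 2 * st m

/-- an explicit non-vanishing central value in each class -/
def Base (d₀ : ℤ) : Prop :=
  ∀ m : ℕ, m.Coprime 30 → rn (d₀ * st m) = 1 →
    ∃ n : ℕ, Adm n ∧ 1 < n ∧ Cl m n ∧ Lam (d₀ * st n) ≠ 0

/-- explicit non-vanishing central values -/
def BASE : Prop := ∀ d₀ : ℤ, D0 d₀ → Base d₀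

end Pool.Agent.P.MP_8b7eba_nt.R3
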