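import Pool.Agent.P.MP_8b7eba_nt.R3.IfD
import Pool.Agent.P.MP_8b7eba_nt.R3.Top2

/-! The last statement of the analytic block. -/

namespace Pool.Agent.P.MP_8b7eba_nt.R3

open R1 (st)
open BSD15 (Adm)

/-- non-vanishing passes from one twist to another -/
def STEP : Prop :=
  ∀ (d₀ : ℤ) (m n m' : ℕ), D0 d₀ → Adm m → Adm n → Adm m' → 1 < m → 1 < n → 1 < m' →
    m.Coprime n → Cl m n → m' ≡ n [MOD 120 * m] → m' ≡ m [MOD n] → Hb (d₀ * st m) n →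
    Hb (d₀ * st m') (m * n) → rn (d₀ * st m) = 1 → Lam (d₀ * st n) ≠ 0 → Lam (d₀ * st m) ≠ 0

end Pool.Agent.P.MP_8b7eba_nt.R3
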