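import Pool.Agent.P.MP_8b7eba_nt.R3.DefM
import Pool.Agent.P.MP_8b7eba_nt.R3.DLEX
import Pool.Agent.P.MP_8b7eba_nt.R3.DKC
import Pool.Agent.P.MP_8b7eba_nt.R3.DGAUSS
import Pool.Agent.P.MP_8b7eba_nt.R2.TMIN
import Pool.Agent.P.MP_8b7eba_nt.R2.TMIS

/-! Minimality, Euler product and rank of the model `twa d`. -/

namespace Pool.Agent.P.MP_8b7eba_nt.R3

open MP_9c97e9_nt WeierstrassCurve Finset
open R2 (twd)

namespace MM

/-- the model for `d ≡ 2, 3 mod 4` -/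
def twb (d : ℤ) : WeierstrassCurve ℤ := ⟨0, -7 * d, 0, -144 * d ^ 2, 0⟩

theorem eq1 {d : ℤ} (h : d % 4 = 1) : twa d = twd d := if_pos h

theorem eq2 {d : ℤ} (h : ¬ d % 4 = 1) : twa d = twb d := if_neg h

theorem minimal (W : WeierstrassCurve ℤ) (p : ℕ) [Fact p.Prime]
    (h : ∀ (I : WeierstrassCurve ℤ_[p]) (u : ℤ_[p]), (p : ℤ_[p]) ∣ u → W.c₄ = u ^ 4 * I.c₄ →
      W.c₆ = u ^ 6 * I.c₆ → W.Δ = u ^ 12 * I.Δ → False) :
    (W.baseChange ℚ_[p]).IsMinimal ℤ_[p] := by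
  have hW : (W.baseChange ℚ_[p]).IsIntegral ℤ_[p] :=
    ⟨W.baseChange ℤ_[p], by ext <;> simp [baseChange]⟩
  refine ⟨⟨by simpa using hW, fun C hC _ => ?_⟩⟩
  have hC' : (C • W.baseChange ℚ_[p]).IsIntegral ℤ_[p] := hC
  simp only [one_smul]
  rw [← Subtype.coe_le_coe, valuation_Δ_aux_eq_of_isIntegral, valuation_Δ_aux_eq_of_isIntegral,
    variableChange_Δ, map_mul, map_pow]
  refine mul_le_of_le_one_left' (pow_le_one' ?_ _)
  by_cases hu : ‖((C.u⁻¹ : ℚ_[p]ˣ) : ℚ_[p])‖ ≤ 1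
  · exact IsDedekindDomain.HeightOneSpectrum.valuation_le_one (K := ℚ_[p])
      (IsDiscreteValuationRing.maximalIdeal ℤ_[p]) (⟨_, hu⟩ : ℤ_[p])
  · exfalso
    have h1 : ‖(C.u : ℚ_[p])‖ < 1 := by
      rw [not_le, Units.val_inv_eq_inv_val, norm_inv] at hu
      exact (one_lt_inv₀ (norm_pos_iff.2 C.u.ne_zero)).1 hu
    let u : ℤ_[p] := ⟨C.u, h1.le⟩
    have k : ∀ (a : ℤ) (r : ℤ_[p]) (n : ℕ), algebraMap ℤ_[p] ℚ_[p] r =
        ((C.u⁻¹ : ℚ_[p]ˣ) : ℚ_[p]) ^ n * a → a = u ^ n * r := fun a r n hr => by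
      apply Subtype.ext
      change _ = (C.u : ℚ_[p]) ^ n * algebraMap ℤ_[p] ℚ_[p] r
      rw [hr, ← mul_assoc, ← mul_pow, Units.mul_inv, one_pow, one_mul]
      exact PadicInt.coe_intCast _
    refine h (integralModel ℤ_[p] (C • W.baseChange ℚ_[p])) u ((PadicInt.norm_lt_one_iff_dvd u).1 h1)
      (k _ _ _ ?_) (k _ _ _ ?_) (k _ _ _ ?_)
    · rw [integralModel_c₄_eq, variableChange_c₄, baseChange, map_c₄, eq_intCast]
    · rw [integralModel_c₆_eq, variableChange_c₆, baseChange, map_c₆, eq_intCast]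
    · rw [integralModel_Δ_eq, variableChange_Δ, baseChange, map_Δ, eq_intCast]

theorem disc (d : ℤ) : (twb d).Δ = 2 ^ 12 * (15 ^ 4 * (d.natAbs : ℤ) ^ 6) := by
  have h6 : (d.natAbs : ℤ) ^ 6 = d ^ 6 := by
    rw [Int.natCast_natAbs]
    exact Even.pow_abs (by decide) d
  rw [h6]
  simp only [twb, Δ, b₂, b₄, b₆, b₈]
  ring

theorem kraus : ∀ d x : ZMod (2 ^ 3), 481 * d ^ 2 = x ^ 4 → 2 * (4879 * d ^ 3) = -2 * x ^ 6 →
    2 * d = 2 ∨ 2 * d = 0 := by decide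

theorem twb_minimal {d : ℤ} (h1 : Squarefree d) (h4 : ¬ d % 4 = 1) (p : ℕ) [hp : Fact p.Prime] :
    ((twb d).baseChange ℚ_[p]).IsMinimal ℤ_[p] := by
  refine minimal _ p fun I u hu e4 e6 e12 => ?_
  by_cases h2 : p = 2
  · subst h2
    obtain ⟨w, rfl⟩ := hu
    have f4 : ((481 * d ^ 2 : ℤ) : ℤ_[2]) = w ^ 4 * I.c₄ :=
      mul_left_cancel₀ (a := 16) (by norm_num) (by
        simp only [twb, c₄, b₂, b₄] at e4 ⊢
        push_cast at e4 ⊢
        linear_combination e4)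
    have f6 : ((4879 * d ^ 3 : ℤ) : ℤ_[2]) = w ^ 6 * I.c₆ :=
      mul_left_cancel₀ (a := 64) (by norm_num) (by
        simp only [twb, c₆, b₂, b₄, b₆] at e6 ⊢
        push_cast at e6 ⊢
        linear_combination e6)
    have g4 := congrArg (PadicInt.toZModPow 3) f4
    have g6 := congrArg (PadicInt.toZModPow 3) f6
    simp only [c₄, c₆, b₂, b₄, b₆, map_intCast, map_mul, map_pow, map_add, map_sub, map_neg,
      map_ofNat] at g4 g6
    push_cast at g4 g6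
    generalize PadicInt.toZModPow 3 w = x at *
    generalize PadicInt.toZModPow 3 I.a₁ = a₁ at *
    generalize PadicInt.toZModPow 3 I.a₂ = a₂ at *
    generalize PadicInt.toZModPow 3 I.a₃ = a₃ at *
    generalize PadicInt.toZModPow 3 I.a₄ = a₄ at *
    generalize PadicInt.toZModPow 3 I.a₆ = a₆ at *
    have h8 : (8 : ZMod (2 ^ 3)) = 0 := by decide
    have h0 : ¬ 4 ∣ d := fun h => absurd (h1 2 h) (by decide)
    have := kraus d (x * a₁)
      (by linear_combination g4 + x ^ 4 * (a₁ ^ 2 * a₂ + 2 * a₂ ^ 2 - 3 * (2 * a₄ + a₁ * a₃)) * h8)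
      (by linear_combination 2 * g6 + x ^ 6 * (-3 * a₁ ^ 4 * a₂ - 12 * a₁ ^ 2 * a₂ ^ 2 - 16 * a₂ ^ 3 +
        9 * (a₁ ^ 2 + 4 * a₂) * (2 * a₄ + a₁ * a₃) - 54 * (a₃ ^ 2 + 4 * a₆)) * h8)
    have k : ∀ c : ℤ, ((2 * d : ℤ) : ZMod (2 ^ 3)) = (c : ℤ) → 8 ∣ c - 2 * d := fun c h =>
      (ZMod.intCast_eq_intCast_iff_dvd_sub _ _ _).1 h
    rcases this with h | h
    · have := k 2 (by exact_mod_cast h)
      omega
    · have := k 0 (by exact_mod_cast h)
      omega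
  · have h7 : (p : ℤ_[p]) ^ 12 ∣ ((twb d).Δ : ℤ_[p]) := e12 ▸ (pow_dvd_pow_of_dvd hu 12).mul_right _
    rw [PadicInt.pow_p_dvd_int_iff, disc] at h7
    exact All.l_not_dvd (Int.squarefree_natAbs.2 h1) hp.out
      ((Nat.Coprime.pow 12 12 ((Nat.coprime_primes hp.out Nat.prime_two).2 h2)).dvd_of_dvd_mul_left
        (by exact_mod_cast h7))

theorem two (x : ZMod 2) : Nat.card {q : ZMod 2 × ZMod 2 //
    q.2 ^ 2 = q.1 ^ 3 + -7 * x * q.1 ^ 2 + -144 * x ^ 2 * q.1} = 2 := by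
  rw [Nat.card_eq_fintype_card]
  revert x
  decide

theorem ap_eq {d : ℤ} (h1 : Squarefree d) {p : ℕ} (hp : p.Prime) :
    ap (twa d) p = kc d p * Mod.an p := by
  by_cases h4 : d % 4 = 1
  · have e1 : od d = d.natAbs := if_neg (by omega)
    have e2 : R1.st d.natAbs = d := by
      unfold R1.st
      split_ifs <;> omega
    rw [eq1 h4, R2.TMIN.ap_eq h4 hp, kc, e1, R3.e2, e1, e2, Int.ediv_self h1.ne_zero, c2, if_pos rfl,
      mul_one]
  have := Fact.mk hp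
  have e : ∀ q : ZMod p × ZMod p, ((twb d)⁄(ZMod p)).toAffine.Equation q.1 q.2 ↔
      q.2 ^ 2 = q.1 ^ 3 + -7 * d * q.1 ^ 2 + -144 * d ^ 2 * q.1 := fun q => by
    rw [Affine.equation_iff]
    simp [twb, baseChange]
  rw [eq2 h4, ap]
  simp only [e]
  by_cases h2 : p = 2
  · subst h2
    have h0 : kc d (2 : ℕ) = 0 := by
      refine ((t_KC.tri d _ h1).resolve_left fun h => ?_).2
      exact Int.prime_two.not_isUnit (h.1.isUnit_of_dvd' dvd_rfl (by
        rw [ds, if_neg h4]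
        exact Dvd.dvd.mul_right (by norm_num) d))
    rw [h0, zero_mul, two]
    rfl
  · have h4 : (4 : ZMod p) ≠ 0 := fun h => h2 ((Nat.prime_dvd_prime_iff_eq hp Nat.prime_two).1
      (hp.dvd_of_dvd_pow (n := 2) ((ZMod.natCast_eq_zero_iff _ _).1 (by exact_mod_cast h))))
    rw [Mod.card_affine h2 fun x : ZMod p => x ^ 3 + -7 * d * x ^ 2 + -144 * d ^ 2 * x,
      t_KC.odd d p h1 (hp.odd_of_ne_two h2), ap_an h2, ← jacobiSym.legendreSym.to_jacobiSym,
      legendreSym, ← Equiv.sum_comp (Equiv.mulLeft₀ 4 h4), sub_add_cancel_left, mul_neg, neg_inj,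
      ← neg_neg (d : ZMod p), ← ap_sum h2]
    refine sum_congr rfl fun x _ => ?_
    rw [← one_mul (quadraticChar (ZMod p) (4 * x ^ 3 + _ - _)), ← quadraticChar_sq_one' h4,
      ← map_mul]
    congr 1
    simp
    ring

theorem dvd_disc {d : ℤ} {p : ℕ} (hp : p.Prime) :
    (p : ℤ) ∣ (twa d).Δ ↔ p ∣ 15 ∨ (p : ℤ) ∣ ds d := by
  have hp' := Nat.prime_iff_prime_int.1 hp
  have e : (p : ℤ) ∣ 15 ^ 4 * (d.natAbs : ℤ) ^ 6 ↔ p ∣ 15 ∨ (p : ℤ) ∣ d := by
    rw [hp'.dvd_mul, hp'.dvd_pow_iff_dvd (by norm_num), hp'.dvd_pow_iff_dvd (by norm_num),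
      Int.dvd_natAbs, ← Int.natCast_dvd_natCast (n := 15)]
    rfl
  by_cases h4 : d % 4 = 1
  · rw [eq1 h4, R2.TMIN.disc h4, ds, if_pos h4, e]
  · rw [eq2 h4, disc, ds, if_neg h4, hp'.dvd_mul, e, hp'.dvd_mul, show (4 : ℤ) = 2 ^ 2 by norm_num,
      hp'.dvd_pow_iff_dvd (by norm_num), hp'.dvd_pow_iff_dvd (by norm_num), or_left_comm]

theorem split {d : ℤ} (h0 : d ≠ 0) :
    ∃ s : ℚ, s ≠ 0 ∧ Split (twa d) (0 : ℚ) (-9 * d * s ^ 2) (16 * d * s ^ 2) := by
  by_cases h4 : d % 4 = 1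
  · refine ⟨1 / 2, by norm_num, ?_⟩
    rw [eq1 h4]
    convert R2.TMIS.split_twd h4 ℚ using 1 <;> ring
  · have h : (d : ℚ) ≠ 0 := by exact_mod_cast h0
    rw [eq2 h4]
    refine ⟨1, one_ne_zero, two_ne_zero, by simpa using h, by simpa using h,
      fun e => h (by linear_combination -e / 25), ?_, ?_, ?_⟩ <;> simp only [twb] <;> push_cast <;>
      ring

theorem nsq {d : ℤ} (h1 : Squarefree d) (h2 : d ≠ 1) : ¬ IsSquare (d : ℚ) := fun h => by
  obtain ⟨s, rfl⟩ := Rat.isSquare_intCast_iff.1 h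
  rcases Int.isUnit_iff.1 (h1 s dvd_rfl) with rfl | rfl <;> exact h2 rfl

section

attribute [local instance 10000] All.g3_dec

theorem fin_tors {d : ℤ} (h1 : Squarefree d) (h2 : 1 < |d|) :
    Finite (AddCommGroup.torsion (Pt (twa d) ℚ)) := by
  obtain ⟨s, hs, h⟩ := split h1.ne_zero
  have n1 := nsq h1 (by rintro rfl; simp at h2)
  have n2 := nsq (d := -d) (h1.squarefree_of_dvd (neg_dvd.2 dvd_rfl)) fun e => by
    rw [← abs_neg, e] at h2
    simp at h2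
  refine All.g3_fin_tors h fun P hP => ?_
  rcases two_torsion h hP with e | e | e | e
  · exact e
  · have := UU_sq h.swap e
    generalize UU _ _ _ P = u at this
    exact (n1 ⟨u / (3 * s), by field_simp; linear_combination this⟩).elim
  · have := UU_sq h e
    generalize UU _ _ _ P = u at this
    exact (n2 ⟨u / (3 * s), by push_cast; field_simp; linear_combination this⟩).elim
  · have := UU_sq h e
    generalize UU _ _ _ P = u at this
    exact (n1 ⟨u / (4 * s), by field_simp; linear_combination this⟩).elim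

end

end MM

open MM

theorem twa_minimal {d : ℤ} (h1 : Squarefree d) (p : ℕ) [Fact p.Prime] :
    ((twa d).baseChange ℚ_[p]).IsMinimal ℤ_[p] := by
  by_cases h4 : d % 4 = 1
  · exact eq1 h4 ▸ R2.twd_minimal h1 h4 p
  · exact eq2 h4 ▸ twb_minimal h1 h4 p

theorem twa_L {d : ℤ} (h1 : Squarefree d) : ∃ L f, IsL (twa d) L ∧
    BSD15.IsL (-12987 * d ^ 2) (-263466 * d ^ 3) f ∧ (L 1 = 0 ↔ f 1 = 0) := by
  obtain ⟨τ, hτ, hG⟩ := t_GAUSS t_KC d h1
  obtain ⟨L, a1, a2, -⟩ := Mod.exists_L (m := cd d) (χ := DLEX.ch d) hτ (DLEX.norm_ch t_KC h1) hG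
  refine ⟨L, _, ⟨a1, fun s hs => ?_⟩, DLEX.isL_tw t_KC h1 a1 a2, by simp [DLEX.bd_one_ne t_KC h1]⟩
  rw [a2 s hs]
  refine (DLEX.euler_ch t_KC h1 hs).2.congr_fun fun ⟨p, hp⟩ => ?_
  simp only [Mod.eul, ap_eq h1 hp, dvd_disc hp, DLEX.ch]
  push_cast
  congr 2
  by_cases h15 : p ∣ 15
  · simp [h15]
  have hp' := Nat.prime_iff_prime_int.1 hp
  rcases t_KC.tri d p h1 with ⟨a, b⟩ | ⟨a, b⟩
  · rw [hp'.coprime_iff_not_dvd] at a
    rcases b with b | b <;> simp [h15, a, b]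
  · rw [hp'.coprime_iff_not_dvd, not_not] at a
    simp [h15, a, b]

open Classical in
theorem twa_rank {d : ℤ} (h1 : Squarefree d) (h2 : 1 < |d|) :
    Module.rank ℤ (Pt (twa d) ℚ) = 0 ↔ {q : ℚ × ℚ | q.2 ^ 2 = q.1 ^ 3 +
      ((-12987 * d ^ 2 : ℤ) : ℚ) * q.1 + ((-263466 * d ^ 3 : ℤ) : ℚ)}.Finite := by
  obtain ⟨s, s0, hs⟩ := split h1.ne_zero
  refine ⟨fun h0 => ?_, fun h => ?_⟩
  · have h1 : Finite (AddCommGroup.torsion (Pt (twa d) ℚ)) := by
      have e : instDecidableEqRat = fun a b => propDecidable (a = b) := Subsingleton.elim _ _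
      rw [e]
      exact fin_tors h1 h2
    have h2 : Finite (Pt (twa d) ℚ) := Finite.of_surjective
      (fun x : AddCommGroup.torsion (Pt (twa d) ℚ) => x.1) fun P => by
        obtain ⟨a, ha, e⟩ := rank_eq_zero_iff.1 h0 P
        exact ⟨⟨P, isOfFinAddOrder_iff_zsmul_eq_zero.2 ⟨a, ha, e⟩⟩, rfl⟩
    refine Set.finite_coe_iff.1 ?_
    have h3 := fun q : {q : ℚ × ℚ | q.2 ^ 2 = q.1 ^ 3 + ((-12987 * d ^ 2 : ℤ) : ℚ) * q.1 +
        ((-263466 * d ^ 3 : ℤ) : ℚ)} => hs.exists_is (x := (q.1.1 + 21 * d) / 9 * s ^ 2)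
        (η := 2 * q.1.2 / 27 * s ^ 3) (by
          have := q.2
          simp only [Set.mem_ofPred_eq] at this
          push_cast at this
          linear_combination 4 / 729 * s ^ 6 * this)
    choose f hf using h3
    refine Finite.of_injective f fun p q e => ?_
    obtain ⟨e1, e2⟩ := (hf p).inj (e ▸ hf q)
    exact Subtype.ext (Prod.ext
      (by linear_combination 9 * mul_right_cancel₀ (pow_ne_zero 2 s0) e1)
      (by linear_combination 27 / 2 * mul_right_cancel₀ (pow_ne_zero 3 s0) e2))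
  · have h1 : Finite (Pt (twa d) ℚ) := by
      refine Set.finite_univ_iff.1 (((h.biUnion (t := fun q => {P | Is P ((q.1 + 21 * d) / 9 * s ^ 2)
        (2 * q.2 / 27 * s ^ 3)}) fun q _ => Set.Subsingleton.finite fun P a Q b =>
          Is.unique hs a b).insert 0).subset fun P _ => ?_)
      rcases zero_or_is P with e | ⟨x, η, e⟩
      · exact .inl e
      · refine .inr (Set.mem_biUnion (x := (9 * x / s ^ 2 - 21 * d, 27 * η / (2 * s ^ 3))) ?_ ?_)
        · have := Is.eq hs e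
          simp only [Set.mem_ofPred_eq]
          push_cast
          field_simp
          linear_combination 729 * this
        · simp only [Set.mem_ofPred_eq]
          convert e using 1 <;> field_simp <;> ring
    exact rank_eq_zero_iff.2 fun P => ⟨addOrderOf P, by
      simpa using (isOfFinAddOrder_of_finite P).addOrderOf_pos.ne', by simp⟩

end Pool.Agent.P.MP_8b7eba_nt.R3
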