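import Pool.Agent.P.MP_8b7eba_nt.R3.AllA
import Pool.Agent.P.MP_8b7eba_nt.R3.AllB
import Pool.Agent.P.MP_8b7eba_nt.R3.AllC
import Pool.Agent.P.MP_8b7eba_nt.R3.AllD
import Pool.Agent.P.MP_8b7eba_nt.R3.Glue

/-! The main theorem of the project R3. -/

namespace Pool.Agent.P.MP_8b7eba_nt.R3

open Filter Topology

theorem final (G : ℤ → Prop) (hG : ∀ d, Squarefree d → 1 < |d| →
    ((∃ f, BSD15.IsL (-12987 * d ^ 2) (-263466 * d ^ 3) f) ∧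
      ∀ f, BSD15.IsL (-12987 * d ^ 2) (-263466 * d ^ 3) f →
        (f 1 = 0 ↔ (SM.Af d).Infinite) ∧ (f 1 = 0 ↔ rn d = -1)) → G d) :
    Tendsto (fun X : ℕ => ({d ∈ Fam X | G d}.ncard / (Fam X).ncard : ℝ)) atTop (𝓝 1) := by
  obtain ⟨T⟩ := R2.a_TATE (SM.pl 2) (SM.pl_p Nat.prime_two)
  refine dens_of_nul ((nul_nice a_DENSN T 0).mono fun d h1 h2 h3 => h2 (hG d h1 ?_ ?_))
  · obtain ⟨B₀, h0⟩ := h3.2.2
    obtain ⟨l, -, h4, -⟩ := h0 1 0 isCoprime_one_left (by simp)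
    obtain ⟨p, -, p2, p3⟩ := h4.big
    have := Int.le_of_dvd (abs_pos.2 h1.ne_zero) ((dvd_abs _ _).2 p3)
    omega
  exact main2 a_HEEG a_KUM a_LFUN a_CONJ (a_GKN a_HEEG (a_EXM a_DENSN)) a_INF a_RN T d h3

end Pool.Agent.P.MP_8b7eba_nt.R3
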